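import Mathlib

/-!
# Functions of one variable with the hyperbolic mean value property

PLAN.  `mean_inv`: `(2π)⁻¹ ∫_0^{2π} dθ/(τ + b cos θ) = 1/√(τ² - b²)` for `0 ≤ b < τ`.  For `b > 0` put
`s = √(τ²-b²)`, `ζ = (s - τ)/b ∈ (-1, 0)`; then `1 - 2 ζ cos θ + ζ² = ((1+ζ²)/τ) (τ + b cos θ)` and
`(1-ζ²)/(1+ζ²) = s/τ`.  `Re ((1 + ζ z)/(1 - ζ z)) = (1-ζ²)/|1 - ζ z|²` on `|z| = 1`, and it has circle
average `1` (mean value property of holomorphic functions, `DiffContOnCl.circleAverage`); as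
`|1 - ζ e^{iθ}|² = 1 - 2 ζ cos θ + ζ²` this gives the formula.
Any other proof is fine (e.g. the antiderivative on `(-π, π)`, or residues).

`affine_of_mean`: `φ = 1` and `φ t = 1/t` satisfy the hypothesis, so for `1 ≤ t₀ < t₁` one may subtract
`A + B/t` with the same values at `t₀`, `t₁`; call the difference `ψ`.  Suppose `M = max ψ > 0` on
`[t₀, t₁]`; let `s` be the smallest point with `ψ s = M`, `t₀ < s < t₁`.  For small `b > 0` and
`τ = √(s² + b²)` one has `b ≤ κ (τ - 1)` and `[τ-b, τ+b] ⊆ [t₀, t₁]`, so the mean of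
`ψ (τ + b cos θ) ≤ M` is `ψ s = M`; by continuity `ψ (τ + b cos θ) = M` for all `θ`, in particular
`ψ (τ - b) = M` with `τ - b < s` : contradiction.  So `ψ ≤ 0`, and likewise `-ψ ≤ 0`.
Take `t₀ = 1`, `t₁ = 2` to get `A, B`; for `T > 2` the pair belonging to `(1, T)` agrees with `φ` at `1` and
`2`, hence is the same pair.
-/

open Filter Topology MeasureTheory Set

namespace SAD

theorem mean_inv {τ b : ℝ} (hb : 0 ≤ b) (hbτ : b < τ) :
    (2 * Real.pi)⁻¹ * ∫ θ in (0:ℝ)..(2 * Real.pi), (τ + b * Real.cos θ)⁻¹ =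
      (√(τ ^ 2 - b ^ 2))⁻¹ := by
  have hτ : 0 < τ := lt_of_le_of_lt hb hbτ
  rcases hb.eq_or_lt with rfl | hb0
  · have h1 : √(τ ^ 2 - (0:ℝ) ^ 2) = τ := by
      rw [show τ ^ 2 - (0:ℝ) ^ 2 = τ ^ 2 by ring, Real.sqrt_sq hτ.le]
    rw [h1]
    simp only [zero_mul, add_zero, intervalIntegral.integral_const, sub_zero, smul_eq_mul]
    rw [← mul_assoc, inv_mul_cancel₀ (by positivity), one_mul]
  · set s : ℝ := √(τ ^ 2 - b ^ 2) with hs
    have hpos : 0 < τ ^ 2 - b ^ 2 := by nlinarith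
    have hs0 : 0 < s := Real.sqrt_pos.2 hpos
    have hs2 : s ^ 2 = τ ^ 2 - b ^ 2 := Real.sq_sqrt hpos.le
    have hsτ : s < τ := by
      have : s ^ 2 < τ ^ 2 := by rw [hs2]; nlinarith
      exact lt_of_pow_lt_pow_left₀ 2 hτ.le this
    have hsb : τ - b < s := by
      have : (τ - b) ^ 2 < s ^ 2 := by rw [hs2]; nlinarith
      exact lt_of_pow_lt_pow_left₀ 2 hs0.le this
    set ζ : ℝ := (s - τ) / b with hζ
    have hζb : b * ζ = s - τ := by
      rw [hζ]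
      field_simp
    have hζ0 : ζ < 0 := by
      rw [hζ]
      exact div_neg_of_neg_of_pos (by linarith) hb0
    have hζ1 : -1 < ζ := by
      rw [hζ, lt_div_iff₀ hb0]
      linarith
    have e1 : b * (1 + ζ ^ 2) = -2 * τ * ζ := by
      have h : b * (b * (1 + ζ ^ 2)) = b * (-2 * τ * ζ) := by
        calc b * (b * (1 + ζ ^ 2)) = b ^ 2 + (b * ζ) ^ 2 := by ring
          _ = b ^ 2 + (s - τ) ^ 2 := by rw [hζb]
          _ = -2 * τ * (s - τ) := by nlinarith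
          _ = -2 * τ * (b * ζ) := by rw [hζb]
          _ = b * (-2 * τ * ζ) := by ring
      exact mul_left_cancel₀ hb0.ne' h
    have e2 : b * (1 - ζ ^ 2) = -2 * s * ζ := by
      have h : b * (b * (1 - ζ ^ 2)) = b * (-2 * s * ζ) := by
        calc b * (b * (1 - ζ ^ 2)) = b ^ 2 - (b * ζ) ^ 2 := by ring
          _ = b ^ 2 - (s - τ) ^ 2 := by rw [hζb]
          _ = -2 * s * (s - τ) := by nlinarith
          _ = -2 * s * (b * ζ) := by rw [hζb]
          _ = b * (-2 * s * ζ) := by ring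
      exact mul_left_cancel₀ hb0.ne' h
    have hmem : (ζ : ℂ) ∈ Metric.ball (0 : ℂ) 1 := by
      rw [mem_ball_zero_iff, Complex.norm_real, Real.norm_eq_abs, abs_lt]
      exact ⟨hζ1, by linarith⟩
    have hf : DiffContOnCl ℂ (fun _ : ℂ => (1 : ℂ)) (Metric.ball (0 : ℂ) 1) := diffContOnCl_const
    have hP := hf.circleAverage_poissonKernel_smul' hmem
    rw [Real.circleAverage_def] at hP
    have hI : ∀ θ : ℝ, ((‖circleMap 0 1 θ - 0‖ ^ 2 - ‖(ζ : ℂ) - 0‖ ^ 2) /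
        ‖(circleMap 0 1 θ - 0) - ((ζ : ℂ) - 0)‖ ^ 2) = s * (τ + b * Real.cos θ)⁻¹ := by
      intro θ
      have hn1 : ‖circleMap 0 1 θ - 0‖ ^ 2 = 1 := by
        simp
      have hn2 : ‖(ζ : ℂ) - 0‖ ^ 2 = ζ ^ 2 := by
        rw [sub_zero, Complex.norm_real, Real.norm_eq_abs, sq_abs]
      have hn3 : ‖(circleMap 0 1 θ - 0) - ((ζ : ℂ) - 0)‖ ^ 2 = 1 - 2 * ζ * Real.cos θ + ζ ^ 2 := by
        have hc : circleMap 0 1 θ = (Real.cos θ : ℂ) + (Real.sin θ : ℂ) * Complex.I := by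
          rw [circleMap, Complex.exp_mul_I]
          push_cast
          ring
        rw [sub_zero, sub_zero, ← Complex.normSq_eq_norm_sq, hc, Complex.normSq_apply]
        simp only [Complex.sub_re, Complex.add_re, Complex.ofReal_re, Complex.mul_re,
          Complex.I_re, Complex.ofReal_im, Complex.I_im, Complex.sub_im, Complex.add_im,
          Complex.mul_im]
        nlinarith [Real.sin_sq_add_cos_sq θ]
      rw [hn1, hn2, hn3]
      have hcos := Real.neg_one_le_cos θ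
      have hd : 0 < τ + b * Real.cos θ := by nlinarith
      have hd2 : b * (1 - 2 * ζ * Real.cos θ + ζ ^ 2) = -2 * ζ * (τ + b * Real.cos θ) := by
        linear_combination e1
      have hd3 : 0 < 1 - 2 * ζ * Real.cos θ + ζ ^ 2 := by
        have : 0 < b * (1 - 2 * ζ * Real.cos θ + ζ ^ 2) := by
          rw [hd2]
          exact mul_pos (by linarith) hd
        exact (mul_pos_iff_of_pos_left hb0).1 this
      rw [div_eq_iff hd3.ne', mul_assoc, ← div_eq_inv_mul, mul_div_assoc', eq_div_iff hd.ne']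
      have h : b * ((1 - ζ ^ 2) * (τ + b * Real.cos θ)) =
          b * (s * (1 - 2 * ζ * Real.cos θ + ζ ^ 2)) := by
        calc b * ((1 - ζ ^ 2) * (τ + b * Real.cos θ)) =
            (b * (1 - ζ ^ 2)) * (τ + b * Real.cos θ) := by ring
          _ = -2 * s * ζ * (τ + b * Real.cos θ) := by rw [e2]
          _ = s * (-2 * ζ * (τ + b * Real.cos θ)) := by ring
          _ = s * (b * (1 - 2 * ζ * Real.cos θ + ζ ^ 2)) := by rw [hd2]
          _ = b * (s * (1 - 2 * ζ * Real.cos θ + ζ ^ 2)) := by ring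
      exact mul_left_cancel₀ hb0.ne' h
    have hP2 : ((2 * Real.pi)⁻¹ : ℝ) • (∫ θ in (0:ℝ)..(2 * Real.pi),
        (((s * (τ + b * Real.cos θ)⁻¹ : ℝ)) : ℂ)) = 1 := by
      rw [← hP]
      congr 1
      refine intervalIntegral.integral_congr fun θ _ => ?_
      show _ = ((‖circleMap 0 1 θ - 0‖ ^ 2 - ‖(ζ : ℂ) - 0‖ ^ 2) /
        ‖(circleMap 0 1 θ - 0) - ((ζ : ℂ) - 0)‖ ^ 2) • (1 : ℂ)
      rw [hI θ, Complex.real_smul, mul_one]
    rw [intervalIntegral.integral_ofReal, intervalIntegral.integral_const_mul, Complex.real_smul,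
      ← Complex.ofReal_mul] at hP2
    have hP3 : (2 * Real.pi)⁻¹ * (s * ∫ θ in (0:ℝ)..(2 * Real.pi), (τ + b * Real.cos θ)⁻¹) = 1 := by
      exact_mod_cast hP2
    refine eq_inv_of_mul_eq_one_left ?_
    linear_combination hP3

/-- The range of the variable. -/
theorem mv_range {κ τ b θ : ℝ} (hκ1 : κ < 1) (hτ : 1 < τ) (hb : 0 ≤ b)
    (hbκ : b ≤ κ * (τ - 1)) : 1 ≤ τ + b * Real.cos θ := by
  have h1 := Real.neg_one_le_cos θ
  nlinarith

/-- The mean value property is inherited by differences with the functions `A + B / t`. -/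
theorem mv_sub {φ : ℝ → ℝ} (hφ : ContinuousOn φ (Ici 1)) {κ : ℝ}
    (hκ1 : κ < 1)
    (hmv : ∀ τ b : ℝ, 1 < τ → 0 ≤ b → b ≤ κ * (τ - 1) →
      (2 * Real.pi)⁻¹ * ∫ θ in (0:ℝ)..(2 * Real.pi), φ (τ + b * Real.cos θ) =
        φ (√(τ ^ 2 - b ^ 2))) (A B : ℝ) :
    ∀ τ b : ℝ, 1 < τ → 0 ≤ b → b ≤ κ * (τ - 1) →
      (2 * Real.pi)⁻¹ * ∫ θ in (0:ℝ)..(2 * Real.pi), (φ (τ + b * Real.cos θ) -
        (A + B * (τ + b * Real.cos θ)⁻¹)) =
        φ (√(τ ^ 2 - b ^ 2)) - (A + B * (√(τ ^ 2 - b ^ 2))⁻¹) := by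
  intro τ b hτ hb hbκ
  have hbτ : b < τ := by nlinarith
  have hr : ∀ θ : ℝ, 1 ≤ τ + b * Real.cos θ := fun θ => mv_range hκ1 hτ hb hbκ
  have hc1 : Continuous fun θ : ℝ => φ (τ + b * Real.cos θ) :=
    hφ.comp_continuous (by fun_prop) hr
  have hc2 : Continuous fun θ : ℝ => (τ + b * Real.cos θ)⁻¹ := by
    refine Continuous.inv₀ (by fun_prop) fun θ => ?_
    have := hr θ
    positivity
  have hc4 : Continuous fun θ : ℝ => B * (τ + b * Real.cos θ)⁻¹ := continuous_const.mul hc2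
  have hc5 : Continuous fun _ : ℝ => A := continuous_const
  have hc3 : Continuous fun θ : ℝ => A + B * (τ + b * Real.cos θ)⁻¹ :=
    continuous_const.add hc4
  rw [intervalIntegral.integral_sub (hc1.intervalIntegrable _ _) (hc3.intervalIntegrable _ _),
    intervalIntegral.integral_add (hc5.intervalIntegrable _ _) (hc4.intervalIntegrable _ _),
    intervalIntegral.integral_const_mul, intervalIntegral.integral_const]
  have h1 := hmv τ b hτ hb hbκ
  have h2 := mean_inv hb hbτ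
  have hpi : (2 * Real.pi)⁻¹ * (2 * Real.pi) = 1 := inv_mul_cancel₀ (by positivity)
  rw [sub_zero, smul_eq_mul]
  linear_combination h1 - B * h2 - A * hpi

/-- The maximum principle. -/
theorem mv_max {ψ : ℝ → ℝ} (hψ : ContinuousOn ψ (Ici 1)) {κ : ℝ} (hκ : 0 < κ)
    (hκ1 : κ < 1)
    (hmv : ∀ τ b : ℝ, 1 < τ → 0 ≤ b → b ≤ κ * (τ - 1) →
      (2 * Real.pi)⁻¹ * ∫ θ in (0:ℝ)..(2 * Real.pi), ψ (τ + b * Real.cos θ) =
        ψ (√(τ ^ 2 - b ^ 2))) {t₀ t₁ : ℝ} (h0 : 1 ≤ t₀)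
    (hz0 : ψ t₀ = 0) (hz1 : ψ t₁ = 0) : ∀ t ∈ Icc t₀ t₁, ψ t ≤ 0 := by
  intro t ht
  by_contra hcon
  push Not at hcon
  have hsub : Icc t₀ t₁ ⊆ Ici 1 := fun x hx => h0.trans hx.1
  have hcont : ContinuousOn ψ (Icc t₀ t₁) := hψ.mono hsub
  obtain ⟨m, hm, hmax⟩ := isCompact_Icc.exists_isMaxOn ⟨t, ht⟩ hcont
  have hM : 0 < ψ m := lt_of_lt_of_le hcon (hmax ht)
  have hK : IsCompact (Icc t₀ t₁ ∩ ψ ⁻¹' {ψ m}) := by
    have hcl : IsClosed (Icc t₀ t₁ ∩ ψ ⁻¹' {ψ m}) :=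
      hcont.preimage_isClosed_of_isClosed isClosed_Icc isClosed_singleton
    exact isCompact_Icc.of_isClosed_subset hcl inter_subset_left
  obtain ⟨s, hs, hmin⟩ := hK.exists_isLeast ⟨m, hm, rfl⟩
  have hsM : ψ s = ψ m := hs.2
  have hs0 : t₀ < s := by
    refine lt_of_le_of_ne hs.1.1 ?_
    rintro rfl
    rw [hz0] at hsM
    linarith
  have hs1 : s < t₁ := by
    refine lt_of_le_of_ne hs.1.2 ?_
    rintro rfl
    rw [hz1] at hsM
    linarith
  have hs1' : 1 < s := lt_of_le_of_lt h0 hs0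
  set b : ℝ := min (κ * (s - 1)) (min (s - t₀) ((t₁ - s) / 2)) with hb
  have hb0 : 0 < b := by
    rw [hb]
    refine lt_min (mul_pos hκ (by linarith)) (lt_min (by linarith) (by linarith))
  have hb1 : b ≤ κ * (s - 1) := min_le_left _ _
  have hb2 : b ≤ s - t₀ := (min_le_right _ _).trans (min_le_left _ _)
  have hb3 : b ≤ (t₁ - s) / 2 := (min_le_right _ _).trans (min_le_right _ _)
  set τ : ℝ := √(s ^ 2 + b ^ 2) with hτ
  have hτ2 : τ ^ 2 = s ^ 2 + b ^ 2 := Real.sq_sqrt (by positivity)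
  have hτ0 : 0 ≤ τ := Real.sqrt_nonneg _
  have hsτ : s < τ := by
    have : s ^ 2 < τ ^ 2 := by rw [hτ2]; nlinarith
    exact lt_of_pow_lt_pow_left₀ 2 hτ0 this
  have hτs : τ < s + b := by
    have : τ ^ 2 < (s + b) ^ 2 := by rw [hτ2]; nlinarith
    exact lt_of_pow_lt_pow_left₀ 2 (by linarith) this
  have hκτ : b ≤ κ * (τ - 1) := hb1.trans (by nlinarith)
  have hmean := hmv τ b (by linarith) hb0.le hκτ
  have hsq : √(τ ^ 2 - b ^ 2) = s := by
    rw [hτ2, show s ^ 2 + b ^ 2 - b ^ 2 = s ^ 2 by ring, Real.sqrt_sq (by linarith)]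
  rw [hsq, hsM] at hmean
  have hr : ∀ θ : ℝ, 1 ≤ τ + b * Real.cos θ := fun θ => mv_range hκ1 (by linarith) hb0.le hκτ
  have hc1 : Continuous fun θ : ℝ => ψ (τ + b * Real.cos θ) :=
    hψ.comp_continuous (by fun_prop) hr
  have hin : ∀ θ : ℝ, τ + b * Real.cos θ ∈ Icc t₀ t₁ := by
    intro θ
    have h1 := Real.neg_one_le_cos θ
    have h2 := Real.cos_le_one θ
    constructor
    · nlinarith
    · nlinarith
  have hle : ∀ θ : ℝ, ψ (τ + b * Real.cos θ) ≤ ψ m := fun θ => hmax (hin θ)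
  have hint : ∫ θ in (0:ℝ)..(2 * Real.pi), (ψ m - ψ (τ + b * Real.cos θ)) = 0 := by
    rw [intervalIntegral.integral_sub (continuous_const.intervalIntegrable _ _)
      (hc1.intervalIntegrable _ _), intervalIntegral.integral_const, sub_zero, smul_eq_mul]
    have hpi : (2 * Real.pi) * (2 * Real.pi)⁻¹ = 1 := mul_inv_cancel₀ (by positivity)
    linear_combination (-(2 * Real.pi)) * hmean +
      (∫ θ in (0:ℝ)..(2 * Real.pi), ψ (τ + b * Real.cos θ)) * hpi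
  have hlt : ψ (τ + b * Real.cos Real.pi) < ψ m := by
    refine lt_of_le_of_ne (hle _) ?_
    intro heq
    have hmem : τ + b * Real.cos Real.pi ∈ Icc t₀ t₁ ∩ ψ ⁻¹' {ψ m} := ⟨hin _, heq⟩
    have h1 := hmin hmem
    rw [Real.cos_pi] at h1
    linarith
  have hpos : 0 < ∫ θ in (0:ℝ)..(2 * Real.pi), (ψ m - ψ (τ + b * Real.cos θ)) := by
    refine intervalIntegral.integral_pos (by positivity) (continuous_const.sub hc1).continuousOn
      (fun θ _ => sub_nonneg.2 (hle θ)) ⟨Real.pi, ⟨by positivity, by linarith [Real.pi_pos]⟩,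
        sub_pos.2 hlt⟩
  exact hpos.ne' hint

/-- Uniqueness. -/
theorem mv_zero {φ : ℝ → ℝ} (hφ : ContinuousOn φ (Ici 1)) {κ : ℝ} (hκ : 0 < κ)
    (hκ1 : κ < 1)
    (hmv : ∀ τ b : ℝ, 1 < τ → 0 ≤ b → b ≤ κ * (τ - 1) →
      (2 * Real.pi)⁻¹ * ∫ θ in (0:ℝ)..(2 * Real.pi), φ (τ + b * Real.cos θ) =
        φ (√(τ ^ 2 - b ^ 2))) {T : ℝ} (A B : ℝ)
    (hz0 : φ 1 = A + B * (1 : ℝ)⁻¹) (hz1 : φ T = A + B * T⁻¹) :
    ∀ t ∈ Icc 1 T, φ t = A + B * t⁻¹ := by
  have hinv : ContinuousOn (fun t : ℝ => A + B * t⁻¹) (Ici 1) := by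
    refine continuousOn_const.add (continuousOn_const.mul (continuousOn_inv₀.mono ?_))
    intro t ht
    have : (0 : ℝ) < t := lt_of_lt_of_le one_pos ht
    exact this.ne'
  intro t ht
  have h1 := mv_max (ψ := fun t => φ t - (A + B * t⁻¹)) (hφ.sub hinv) hκ hκ1
    (mv_sub hφ hκ1 hmv A B) (t₀ := 1) (t₁ := T) le_rfl (sub_eq_zero.2 hz0) (sub_eq_zero.2 hz1) t ht
  have hmv' : ∀ τ b : ℝ, 1 < τ → 0 ≤ b → b ≤ κ * (τ - 1) →
      (2 * Real.pi)⁻¹ * ∫ θ in (0:ℝ)..(2 * Real.pi), -(φ (τ + b * Real.cos θ) -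
        (A + B * (τ + b * Real.cos θ)⁻¹)) =
        -(φ (√(τ ^ 2 - b ^ 2)) - (A + B * (√(τ ^ 2 - b ^ 2))⁻¹)) := by
    intro τ b hτ hb hbκ
    have h := mv_sub hφ hκ1 hmv A B τ b hτ hb hbκ
    rw [intervalIntegral.integral_neg, mul_neg, h]
  have h2 := mv_max (ψ := fun t => -(φ t - (A + B * t⁻¹))) (hφ.sub hinv).neg hκ hκ1
    hmv' (t₀ := 1) (t₁ := T) le_rfl (by
      show -(φ 1 - (A + B * (1 : ℝ)⁻¹)) = 0
      rw [hz0]
      ring) (by
      show -(φ T - (A + B * T⁻¹)) = 0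
      rw [hz1]
      ring) t ht
  have h1' : φ t - (A + B * t⁻¹) ≤ 0 := h1
  have h2' : -(φ t - (A + B * t⁻¹)) ≤ 0 := h2
  linarith

theorem affine_of_mean {φ : ℝ → ℝ} (hφ : ContinuousOn φ (Ici 1)) {κ : ℝ} (hκ : 0 < κ)
    (hκ1 : κ < 1)
    (hmv : ∀ τ b : ℝ, 1 < τ → 0 ≤ b → b ≤ κ * (τ - 1) →
      (2 * Real.pi)⁻¹ * ∫ θ in (0:ℝ)..(2 * Real.pi), φ (τ + b * Real.cos θ) =
        φ (√(τ ^ 2 - b ^ 2))) :
    ∃ A B : ℝ, ∀ t : ℝ, 1 ≤ t → φ t = A + B / t := by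
  refine ⟨2 * φ 2 - φ 1, 2 * (φ 1 - φ 2), fun T hT => ?_⟩
  rw [div_eq_mul_inv]
  by_cases h2 : T ≤ 2
  · refine mv_zero hφ hκ hκ1 hmv (T := 2) _ _ ?_ ?_ T ⟨hT, h2⟩
    · ring
    · ring
  · push Not at h2
    have hT0 : (0 : ℝ) < T := by linarith
    have hT1 : T - 1 ≠ 0 := by
      have : 0 < T - 1 := by linarith
      exact this.ne'
    -- the pair belonging to `(1, T)`
    have key := mv_zero hφ hκ hκ1 hmv (T := T) ((T * φ T - φ 1) / (T - 1))
      (T * (φ 1 - φ T) / (T - 1)) (by field_simp; ring) (by field_simp; ring) 2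
      ⟨by norm_num, h2.le⟩
    rw [key]
    field_simp
    ring

end SAD
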