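import Pool.Agent.Lib.SAD.GDefs
import Pool.Agent.Lib.SAD.MeanVal

/-!
# Identification of the limit measures, first part

For a probability measure `P` on `ℂ` put `F a w = ∫ E a w dP`.

PLAN.
`transform_affine`: let `φ t = ∫ E (t-1) 0 dP`, continuous on `[1, ∞)`.  For `τ > 1`, `0 ≤ b ≤ κ (τ-1)`
average the hypothesis with `a = τ-1`, `w = b e^{iθ}` over `θ` (Fubini):
`(2π)⁻¹ ∫_θ E (τ-1) (b e^{iθ}) z = (2π)⁻¹ ∫_θ exp (-((τ-1)‖z‖ + b ‖z‖ cos (θ + arg z)))
 = (2π)⁻¹ ∫_θ E (τ - 1 + b cos θ) 0 z` (periodicity), so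
`(2π)⁻¹ ∫_θ φ (τ + b cos θ) = φ (√(τ²-b²))`.  Apply `affine_of_mean` (a black box from `MeanVal.lean`).
(For `a = 0`, `w = 0`: `φ 1 = 1`.)
-/

open Filter Topology MeasureTheory Set
open scoped MatrixGroups

namespace SAD

namespace ClusterAux

lemma E_pos (a : ℝ) (w z : ℂ) : 0 < E a w z := Real.exp_pos _

lemma E_le_one {a : ℝ} {w : ℂ} (h : ‖w‖ ≤ a) (z : ℂ) : E a w z ≤ 1 := by
  unfold E
  rw [Real.exp_le_one_iff]
  have h1 : |(w * z).re| ≤ ‖w‖ * ‖z‖ := (Complex.abs_re_le_norm _).trans_eq (norm_mul _ _)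
  have h2 : ‖w‖ * ‖z‖ ≤ a * ‖z‖ := by gcongr
  have := neg_abs_le (w * z).re
  linarith

lemma norm_E_le_one {a : ℝ} {w : ℂ} (h : ‖w‖ ≤ a) (z : ℂ) : ‖E a w z‖ ≤ 1 := by
  rw [Real.norm_of_nonneg (E_pos a w z).le]
  exact E_le_one h z

lemma continuous_E (a : ℝ) (w : ℂ) : Continuous (E a w) := by
  unfold E
  fun_prop

/-- the average over a circle -/
lemma avg_E (a b : ℝ) (z : ℂ) :
    ∫ θ in (0:ℝ)..(2 * Real.pi), E a (b * Complex.exp (θ * Complex.I)) z =
      ∫ θ in (0:ℝ)..(2 * Real.pi), E (a + b * Real.cos θ) 0 z := by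
  have key : ∀ θ : ℝ, E a (b * Complex.exp (θ * Complex.I)) z =
      E (a + b * Real.cos (θ + Complex.arg z)) 0 z := by
    intro θ
    unfold E
    congr 2
    have h1 : ((b : ℂ) * Complex.exp (θ * Complex.I) * z) =
        ((b * ‖z‖ : ℝ) : ℂ) * Complex.exp (((θ + Complex.arg z : ℝ) : ℂ) * Complex.I) := by
      have h2 : Complex.exp (((θ + Complex.arg z : ℝ) : ℂ) * Complex.I) =
          Complex.exp (θ * Complex.I) * Complex.exp (Complex.arg z * Complex.I) := by
        rw [← Complex.exp_add]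
        congr 1
        push_cast
        ring
      rw [h2]
      conv_lhs => rw [← Complex.norm_mul_exp_arg_mul_I z]
      push_cast
      ring
    rw [h1, Complex.re_ofReal_mul, Complex.exp_ofReal_mul_I_re]
    simp
    ring
  simp_rw [key]
  have hper : Function.Periodic (fun θ : ℝ => E (a + b * Real.cos θ) 0 z) (2 * Real.pi) := by
    intro θ
    simp [Real.cos_add_two_pi]
  have h3 := intervalIntegral.integral_comp_add_right (a := 0) (b := 2 * Real.pi)
    (fun θ : ℝ => E (a + b * Real.cos θ) 0 z) (Complex.arg z)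
  rw [h3, zero_add, add_comm (2 * Real.pi) (Complex.arg z)]
  have h4 := hper.intervalIntegral_add_eq (Complex.arg z) 0
  rw [zero_add] at h4
  exact h4

/-- Fubini for a bounded continuous function -/
lemma swap {P : Measure ℂ} [IsProbabilityMeasure P] (F : ℝ → ℂ → ℝ)
    (hF : Continuous (fun q : ℝ × ℂ => F q.1 q.2)) (hb : ∀ θ z, ‖F θ z‖ ≤ 1) :
    ∫ θ in (0:ℝ)..(2 * Real.pi), ∫ z, F θ z ∂P = ∫ z, (∫ θ in (0:ℝ)..(2 * Real.pi), F θ z) ∂P := by
  have h0 : (0:ℝ) ≤ 2 * Real.pi := by positivity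
  simp_rw [intervalIntegral.integral_of_le h0]
  apply integral_integral_swap
  have : IsFiniteMeasure (volume.restrict (Ioc (0:ℝ) (2 * Real.pi))) := inferInstance
  refine Integrable.of_bound (C := 1) ?_ (Filter.Eventually.of_forall fun q => hb q.1 q.2)
  exact hF.aestronglyMeasurable

end ClusterAux

open ClusterAux

theorem transform_affine {P : Measure ℂ} [IsProbabilityMeasure P] {κ : ℝ} (hκ : 0 < κ)
    (hκ1 : κ < 1)
    (hF : ∀ (a : ℝ) (w : ℂ), 0 < a → ‖w‖ ≤ κ * a →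
      ∫ z, E a w z ∂P = ∫ z, E (√((1 + a) ^ 2 - ‖w‖ ^ 2) - 1) 0 z ∂P) :
    ∃ A B : ℝ, A + B = 1 ∧ ∀ (a : ℝ) (w : ℂ), 0 ≤ a → ‖w‖ ≤ κ * a →
      ∫ z, E a w z ∂P = A + B / √((1 + a) ^ 2 - ‖w‖ ^ 2) := by
  set φ : ℝ → ℝ := fun t => ∫ z, E (t - 1) 0 z ∂P with hφdef
  have hφ : ContinuousOn φ (Ici 1) := by
    refine continuousOn_of_dominated (bound := fun _ => (1:ℝ)) ?_ ?_ (integrable_const 1) ?_
    · intro t _
      exact (continuous_E _ _).aestronglyMeasurable
    · intro t ht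
      refine Filter.Eventually.of_forall fun z => norm_E_le_one ?_ z
      simp only [norm_zero, sub_nonneg]
      exact ht
    · refine Filter.Eventually.of_forall fun z => ?_
      apply Continuous.continuousOn
      unfold E
      fun_prop
  have hmv : ∀ τ b : ℝ, 1 < τ → 0 ≤ b → b ≤ κ * (τ - 1) →
      (2 * Real.pi)⁻¹ * ∫ θ in (0:ℝ)..(2 * Real.pi), φ (τ + b * Real.cos θ) =
        φ (√(τ ^ 2 - b ^ 2)) := by
    intro τ b hτ hb hbκ
    have hbτ : b ≤ τ - 1 := by
      refine hbκ.trans ?_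
      have : 0 ≤ τ - 1 := by linarith
      nlinarith
    have hnorm : ∀ θ : ℝ, ‖((b : ℂ) * Complex.exp (θ * Complex.I))‖ = b := by
      intro θ
      rw [norm_mul, Complex.norm_exp_ofReal_mul_I, mul_one, Complex.norm_real,
        Real.norm_of_nonneg hb]
    have h1 : ∀ θ : ℝ, ∫ z, E (τ - 1) (b * Complex.exp (θ * Complex.I)) z ∂P =
        φ (√(τ ^ 2 - b ^ 2)) := by
      intro θ
      rw [hF (τ - 1) _ (by linarith) (by rw [hnorm]; exact hbκ), hnorm]
      simp only [hφdef]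
      congr 5
      ring_nf
    have h2 : ∫ θ in (0:ℝ)..(2 * Real.pi),
        ∫ z, E (τ - 1) (b * Complex.exp (θ * Complex.I)) z ∂P =
        2 * Real.pi * φ (√(τ ^ 2 - b ^ 2)) := by
      simp_rw [h1]
      rw [intervalIntegral.integral_const, sub_zero, smul_eq_mul]
    have h3 : ∫ θ in (0:ℝ)..(2 * Real.pi),
        ∫ z, E (τ - 1) (b * Complex.exp (θ * Complex.I)) z ∂P =
        ∫ z, (∫ θ in (0:ℝ)..(2 * Real.pi), E (τ - 1) (b * Complex.exp (θ * Complex.I)) z) ∂P := by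
      apply swap (fun θ z => E (τ - 1) (b * Complex.exp (θ * Complex.I)) z)
      · unfold E
        fun_prop
      · intro θ z
        exact norm_E_le_one (by rw [hnorm]; exact hbτ) z
    have h4 : ∫ θ in (0:ℝ)..(2 * Real.pi), φ (τ + b * Real.cos θ) =
        ∫ z, (∫ θ in (0:ℝ)..(2 * Real.pi), E (τ - 1 + b * Real.cos θ) 0 z) ∂P := by
      have h5 : ∀ θ : ℝ, φ (τ + b * Real.cos θ) = ∫ z, E (τ - 1 + b * Real.cos θ) 0 z ∂P := by
        intro θ
        simp only [hφdef]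
        congr 2
        ring_nf
      simp_rw [h5]
      apply swap (fun θ z => E (τ - 1 + b * Real.cos θ) 0 z)
      · unfold E
        fun_prop
      · intro θ z
        refine norm_E_le_one ?_ z
        rw [norm_zero]
        have := Real.neg_one_le_cos θ
        nlinarith
    rw [h4, ← integral_congr_ae (Filter.Eventually.of_forall fun z => avg_E (τ - 1) b z), ← h3, h2]
    field_simp
  obtain ⟨A, B, hAB⟩ := affine_of_mean hφ hκ hκ1 hmv
  have h1 : φ 1 = 1 := by
    simp [hφdef, E]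
  have hAB1 : A + B = 1 := by
    have := hAB 1 (le_refl _)
    rw [h1, div_one] at this
    exact this.symm
  refine ⟨A, B, hAB1, fun a w ha hw => ?_⟩
  rcases ha.eq_or_lt with rfl | ha'
  · have hw0 : w = 0 := by
      rw [mul_zero] at hw
      exact norm_le_zero_iff.1 hw
    subst hw0
    simp [E, hAB1]
  · rw [hF a w ha' hw]
    have h2 := hAB (√((1 + a) ^ 2 - ‖w‖ ^ 2)) ?_
    · exact h2
    · rw [Real.one_le_sqrt]
      have h3 : ‖w‖ ≤ a := hw.trans (by nlinarith)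
      have h4 := norm_nonneg w
      nlinarith
end SAD
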