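import Pool.Agent.Lib.SAD.GDefs

/-!
# Identification of the limit measures, second part

PLAN.
`gaussian_transform`: with `v ↦ z = v²`, `E a w (v²) * exp (-‖v‖²) = exp (-((1+a) ‖v‖² + Re (w v²)))`.
Write `w = ‖w‖ e^{iα}`, rotate `v` by `-α/2` (volume preserving): one may assume `w = ‖w‖` real, then
the exponent is `-((1+a+‖w‖) x² + (1+a-‖w‖) y²)` and the integral is a product of two one-dimensional
Gaussian integrals (`integral_gaussian`), `π / √((1+a)² - ‖w‖²)`.
`eq_gaussian`: the span `𝒜` of the functions `E a w`, `a ≥ 0`, `‖w‖ ≤ κ a`, is closed under products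
(`E a w * E a' w' = E (a+a') (w+w')`), contains `1`, and separates the points of `ℂ` (if all
`a ‖z‖ + Re (w z)` agree for `z, z'` then `‖z‖ = ‖z'‖` and `Re (w z) = Re (w z')` for small `w`).  Both
`P` and the image of `π⁻¹ exp(-‖v‖²) dv` under `v ↦ v²` are probability measures with the same
integrals on `𝒜`: `MeasureTheory.ext_of_forall_mem_subalgebra_integral_eq_of_polish`
(file `Mathlib/MeasureTheory/Measure/FiniteMeasureExt.lean`).
-/

open Filter Topology MeasureTheory Set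
open scoped MatrixGroups

namespace SAD

namespace ClusterGAux

lemma gauss_one {A b c : ℝ} (hA : 0 < A) :
    ∫ x : ℝ, Real.exp (-(A * x ^ 2 + 2 * b * x + c)) =
      √(Real.pi / A) * Real.exp (-(c - b ^ 2 / A)) := by
  have h1 : ∀ x : ℝ, Real.exp (-(A * x ^ 2 + 2 * b * x + c)) =
      Real.exp (-A * (x + b / A) ^ 2) * Real.exp (-(c - b ^ 2 / A)) := by
    intro x
    rw [← Real.exp_add]
    congr 1
    field_simp
    ring
  simp_rw [h1]
  rw [integral_mul_const, integral_add_right_eq_self (fun x : ℝ => Real.exp (-A * x ^ 2)) (b / A),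
    integral_gaussian]

/-- The quadratic form. -/
lemma gauss_two {A B C : ℝ} (hA : 0 < A) (hd : 0 < A * C - B ^ 2)
    (hi : Integrable (fun p : ℝ × ℝ => Real.exp (-(A * p.1 ^ 2 + 2 * B * p.1 * p.2 + C * p.2 ^ 2)))) :
    ∫ p : ℝ × ℝ, Real.exp (-(A * p.1 ^ 2 + 2 * B * p.1 * p.2 + C * p.2 ^ 2)) =
      Real.pi / √(A * C - B ^ 2) := by
  have hi' : Integrable (fun p : ℝ × ℝ => Real.exp (-(A * p.1 ^ 2 + 2 * B * p.1 * p.2 + C * p.2 ^ 2)))
      ((volume : Measure ℝ).prod (volume : Measure ℝ)) := hi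
  change ∫ p : ℝ × ℝ, Real.exp (-(A * p.1 ^ 2 + 2 * B * p.1 * p.2 + C * p.2 ^ 2))
    ∂((volume : Measure ℝ).prod (volume : Measure ℝ)) = _
  rw [integral_prod_symm _ hi']
  have h1 : ∀ y : ℝ, ∫ x : ℝ, Real.exp (-(A * (x, y).1 ^ 2 + 2 * B * (x, y).1 * (x, y).2 + C * (x, y).2 ^ 2)) =
      √(Real.pi / A) * Real.exp (-((A * C - B ^ 2) / A) * y ^ 2) := by
    intro y
    have h2 : ∀ x : ℝ, Real.exp (-(A * (x, y).1 ^ 2 + 2 * B * (x, y).1 * (x, y).2 + C * (x, y).2 ^ 2)) =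
        Real.exp (-(A * x ^ 2 + 2 * (B * y) * x + C * y ^ 2)) := by
      intro x
      congr 1
      ring
    simp_rw [h2]
    rw [gauss_one hA]
    congr 2
    field_simp
  simp_rw [h1]
  rw [integral_const_mul, integral_gaussian, ← Real.sqrt_mul (by positivity)]
  have h3 : Real.pi / A * (Real.pi / ((A * C - B ^ 2) / A)) = Real.pi ^ 2 / (A * C - B ^ 2) := by
    field_simp
  rw [h3, Real.sqrt_div (by positivity), Real.sqrt_sq Real.pi_pos.le]

lemma E_sq (a : ℝ) (w v : ℂ) :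
    Real.exp (-‖v‖ ^ 2) * E a w (v ^ 2) = Real.exp (-((1 + a + w.re) * v.re ^ 2 +
      2 * (-w.im) * v.re * v.im + (1 + a - w.re) * v.im ^ 2)) := by
  unfold E
  rw [← Real.exp_add]
  congr 1
  have h1 : ‖v‖ ^ 2 = v.re ^ 2 + v.im ^ 2 := by
    rw [Complex.sq_norm, Complex.normSq_apply]
    ring
  have h2 : (w * v ^ 2).re = w.re * (v.re ^ 2 - v.im ^ 2) - w.im * (2 * v.re * v.im) := by
    rw [Complex.mul_re, pow_two, Complex.mul_re, Complex.mul_im]
    ring
  rw [norm_pow, h1, h2]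
  ring

lemma quad_ge {a : ℝ} {w : ℂ} (hw : ‖w‖ ≤ a) (x y : ℝ) :
    x ^ 2 + y ^ 2 ≤ (1 + a + w.re) * x ^ 2 + 2 * (-w.im) * x * y + (1 + a - w.re) * y ^ 2 := by
  have h1 : |(w * (⟨x, y⟩ : ℂ) ^ 2).re| ≤ ‖w‖ * (x ^ 2 + y ^ 2) := by
    refine (Complex.abs_re_le_norm _).trans ?_
    rw [norm_mul, norm_pow, Complex.sq_norm, Complex.normSq_apply]
    apply le_of_eq
    ring
  have h2 : (w * (⟨x, y⟩ : ℂ) ^ 2).re = w.re * (x ^ 2 - y ^ 2) - w.im * (2 * x * y) := by
    rw [Complex.mul_re, pow_two, Complex.mul_re, Complex.mul_im]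
    ring
  have h3 := (abs_le.1 h1).1
  have h4 : ‖w‖ * (x ^ 2 + y ^ 2) ≤ a * (x ^ 2 + y ^ 2) := mul_le_mul_of_nonneg_right hw (by positivity)
  rw [h2] at h3
  nlinarith

lemma integrable_gauss2 : Integrable (fun p : ℝ × ℝ => Real.exp (-(p.1 ^ 2 + p.2 ^ 2))) := by
  have h := (integrable_exp_neg_mul_sq (b := 1) one_pos).mul_prod (integrable_exp_neg_mul_sq (b := 1) one_pos)
  refine h.congr (Filter.Eventually.of_forall fun p => ?_)
  simp only
  rw [← Real.exp_add]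
  congr 1
  ring

lemma integrable_quad {a : ℝ} {w : ℂ} (hw : ‖w‖ ≤ a) :
    Integrable (fun p : ℝ × ℝ => Real.exp (-((1 + a + w.re) * p.1 ^ 2 + 2 * (-w.im) * p.1 * p.2 +
      (1 + a - w.re) * p.2 ^ 2))) := by
  refine integrable_gauss2.mono' (by fun_prop) (Filter.Eventually.of_forall fun p => ?_)
  rw [Real.norm_eq_abs, Real.abs_exp]
  apply Real.exp_le_exp.2
  have := quad_ge hw p.1 p.2
  linarith

lemma integral_complex (f : ℂ → ℝ) : ∫ v : ℂ, f v = ∫ p : ℝ × ℝ, f (⟨p.1, p.2⟩ : ℂ) := by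
  rw [← (Complex.volume_preserving_equiv_real_prod.symm).integral_comp
    Complex.measurableEquivRealProd.symm.measurableEmbedding]
  rfl

lemma integrable_complex (f : ℂ → ℝ) (h : Integrable (fun p : ℝ × ℝ => f (⟨p.1, p.2⟩ : ℂ))) :
    Integrable f := by
  rw [← (Complex.volume_preserving_equiv_real_prod.symm).integrable_comp_emb
    Complex.measurableEquivRealProd.symm.measurableEmbedding]
  exact h

end ClusterGAux

open ClusterGAux

theorem gaussian_transform {a : ℝ} {w : ℂ} (ha : 0 ≤ a) (hw : ‖w‖ ≤ a) :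
    Real.pi⁻¹ * ∫ v : ℂ, Real.exp (-‖v‖ ^ 2) * E a w (v ^ 2) =
      (√((1 + a) ^ 2 - ‖w‖ ^ 2))⁻¹ := by
  simp_rw [E_sq]
  rw [integral_complex]
  have hre := Complex.abs_re_le_norm w
  have h1 := (abs_le.1 hre).1
  have hdet : (1 + a + w.re) * (1 + a - w.re) - (-w.im) ^ 2 = (1 + a) ^ 2 - ‖w‖ ^ 2 := by
    rw [Complex.sq_norm, Complex.normSq_apply]
    ring
  have hn := norm_nonneg w
  have hpos : 0 < (1 + a) ^ 2 - ‖w‖ ^ 2 := by nlinarith
  have hg := gauss_two (A := 1 + a + w.re) (B := -w.im) (C := 1 + a - w.re) (by linarith)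
    (by rw [hdet]; exact hpos) (integrable_quad hw)
  rw [hdet] at hg
  simp only at hg ⊢
  rw [hg]
  field_simp

namespace ClusterGAux

lemma E_nonneg (a : ℝ) (w z : ℂ) : 0 ≤ E a w z := (Real.exp_pos _).le

lemma E_le_one {a : ℝ} {w : ℂ} (hw : ‖w‖ ≤ a) (z : ℂ) : E a w z ≤ 1 := by
  unfold E
  rw [Real.exp_le_one_iff]
  have h1 : |(w * z).re| ≤ ‖w‖ * ‖z‖ := (Complex.abs_re_le_norm _).trans (norm_mul _ _).le
  have h3 := (abs_le.1 h1).1
  have h4 : ‖w‖ * ‖z‖ ≤ a * ‖z‖ := mul_le_mul_of_nonneg_right hw (norm_nonneg z)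
  linarith

lemma continuous_E (a : ℝ) (w : ℂ) : Continuous (E a w) := by
  unfold E
  fun_prop

lemma E_mul (a a' : ℝ) (w w' z : ℂ) : E a w z * E a' w' z = E (a + a') (w + w') z := by
  unfold E
  rw [← Real.exp_add]
  congr 1
  rw [add_mul w w' z, Complex.add_re]
  ring

open BoundedContinuousFunction

/-- The test functions as bounded continuous functions, a submonoid. -/
noncomputable def SE (κ : ℝ) (hκ1 : κ < 1) : Submonoid (ℂ →ᵇ ℝ) where
  carrier := {g | ∃ (a : ℝ) (w : ℂ), 0 ≤ a ∧ ‖w‖ ≤ κ * a ∧ ∀ z, g z = E a w z}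
  one_mem' := ⟨0, 0, le_rfl, by simp, fun z => by simp [E]⟩
  mul_mem' := by
    rintro g g' ⟨a, w, ha, hw, h⟩ ⟨a', w', ha', hw', h'⟩
    refine ⟨a + a', w + w', add_nonneg ha ha', ?_, fun z => ?_⟩
    · rw [mul_add]
      exact (norm_add_le w w').trans (add_le_add hw hw')
    · rw [BoundedContinuousFunction.mul_apply, h, h', E_mul]

lemma exists_SE {κ : ℝ} (hκ1 : κ < 1) {a : ℝ} {w : ℂ} (ha : 0 ≤ a) (hw : ‖w‖ ≤ κ * a) :
    ∃ g ∈ SE κ hκ1, ∀ z, g z = E a w z := by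
  have hwa : ‖w‖ ≤ a := hw.trans (by nlinarith)
  refine ⟨BoundedContinuousFunction.ofNormedAddCommGroup (E a w) (continuous_E a w) 1 ?_, ?_, fun z => rfl⟩
  · intro z
    rw [Real.norm_eq_abs, abs_of_nonneg (E_nonneg a w z)]
    exact E_le_one hwa z
  · exact ⟨a, w, ha, hw, fun z => rfl⟩

/-- The algebra. -/
noncomputable def AE (κ : ℝ) (hκ1 : κ < 1) : StarSubalgebra ℝ (ℂ →ᵇ ℝ) :=
  { Algebra.adjoin ℝ (SE κ hκ1 : Set (ℂ →ᵇ ℝ)) with
    star_mem' := by
      intro g hg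
      have : star g = g := by
        ext z
        simp
      rw [this]
      exact hg }

lemma sep_AE {κ : ℝ} (hκ : 0 < κ) (hκ1 : κ < 1) :
    ((AE κ hκ1).map (toContinuousMapStarₐ ℝ)).SeparatesPoints := by
  intro z z' hzz
  by_contra hcon
  push Not at hcon
  have key : ∀ (a : ℝ) (w : ℂ), 0 ≤ a → ‖w‖ ≤ κ * a → E a w z = E a w z' := by
    intro a w ha hw
    obtain ⟨g, hg, hgE⟩ := exists_SE hκ1 ha hw
    have h1 : g.toContinuousMap ∈ ((AE κ hκ1).map (toContinuousMapStarₐ ℝ)) := by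
      refine ⟨g, ?_, rfl⟩
      exact Algebra.subset_adjoin hg
    have h2 := hcon g.toContinuousMap ⟨_, h1, rfl⟩
    have h3 : g z = g z' := h2
    rw [hgE, hgE] at h3
    exact h3
  have key2 : ∀ (a : ℝ) (w : ℂ), 0 ≤ a → ‖w‖ ≤ κ * a → a * ‖z‖ + (w * z).re = a * ‖z'‖ + (w * z').re := by
    intro a w ha hw
    have h := key a w ha hw
    unfold E at h
    have h' := Real.exp_injective h
    linarith
  have k0 := key2 1 0 zero_le_one (by simp [hκ.le])
  have k1 := key2 1 (κ : ℂ) zero_le_one (by simp [abs_of_pos hκ])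
  have k2 := key2 1 (κ * Complex.I) zero_le_one (by simp [abs_of_pos hκ])
  simp only [zero_mul, Complex.zero_re, add_zero, one_mul] at k0
  simp only [one_mul, Complex.mul_re, Complex.ofReal_re, Complex.ofReal_im, zero_mul, sub_zero] at k1
  simp only [one_mul, Complex.mul_re, Complex.mul_im, Complex.ofReal_re, Complex.ofReal_im, zero_mul, sub_zero,
    Complex.I_re, Complex.I_im, mul_zero, mul_one, zero_sub, add_zero] at k2
  apply hzz
  apply Complex.ext
  · have : κ * z.re = κ * z'.re := by linarith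
    exact mul_left_cancel₀ hκ.ne' this
  · have : κ * z.im = κ * z'.im := by linarith
    exact mul_left_cancel₀ hκ.ne' this

lemma integrable_w : Integrable (fun v : ℂ => Real.exp (-‖v‖ ^ 2)) := by
  have h := integrable_complex (fun v : ℂ => Real.exp (-‖v‖ ^ 2)) (by
    refine integrable_gauss2.congr (Filter.Eventually.of_forall fun p => ?_)
    simp only
    rw [Complex.sq_norm, Complex.normSq_apply]
    congr 2
    ring)
  exact h

/-- The normalised Gaussian measure. -/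
noncomputable def μG : Measure ℂ :=
  (volume : Measure ℂ).withDensity (fun v => ENNReal.ofReal (Real.pi⁻¹ * Real.exp (-‖v‖ ^ 2)))

lemma integrable_w' : Integrable (fun v : ℂ => Real.pi⁻¹ * Real.exp (-‖v‖ ^ 2)) :=
  integrable_w.const_mul _

instance : IsFiniteMeasure μG := isFiniteMeasure_withDensity_ofReal integrable_w'.2

lemma integral_μG (f : ℂ → ℝ) : ∫ v, f v ∂μG = Real.pi⁻¹ * ∫ v : ℂ, Real.exp (-‖v‖ ^ 2) * f v := by
  unfold μG
  rw [integral_withDensity_eq_integral_toReal_smul (by fun_prop)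
    (Filter.Eventually.of_forall fun v => ENNReal.ofReal_lt_top), ← integral_const_mul]
  refine integral_congr_ae (Filter.Eventually.of_forall fun v => ?_)
  simp only [smul_eq_mul]
  rw [ENNReal.toReal_ofReal (by positivity)]
  ring

end ClusterGAux

theorem eq_gaussian {P : Measure ℂ} [IsProbabilityMeasure P] {κ : ℝ} (hκ : 0 < κ) (hκ1 : κ < 1)
    (hF : ∀ (a : ℝ) (w : ℂ), 0 ≤ a → ‖w‖ ≤ κ * a →
      ∫ z, E a w z ∂P = (√((1 + a) ^ 2 - ‖w‖ ^ 2))⁻¹) :
    ∀ f : ℂ → ℝ, Continuous f → (∃ M : ℝ, ∀ z, |f z| ≤ M) →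
      ∫ z, f z ∂P = Real.pi⁻¹ * ∫ v : ℂ, Real.exp (-‖v‖ ^ 2) * f (v ^ 2) := by
  have hmeas : Measurable (fun v : ℂ => v ^ 2) := by fun_prop
  have hmap : ∀ f : ℂ → ℝ, Continuous f → ∫ z, f z ∂(μG.map (fun v : ℂ => v ^ 2)) =
      Real.pi⁻¹ * ∫ v : ℂ, Real.exp (-‖v‖ ^ 2) * f (v ^ 2) := by
    intro f hf
    rw [integral_map hmeas.aemeasurable hf.aestronglyMeasurable, integral_μG]
  haveI : IsFiniteMeasure (μG.map (fun v : ℂ => v ^ 2)) := by infer_instance
  have hPQ : P = μG.map (fun v : ℂ => v ^ 2) := by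
    refine ext_of_forall_mem_subalgebra_integral_eq_of_polish (𝕜 := ℝ) (sep_AE hκ hκ1) ?_
    intro g hg
    have hg' : g ∈ Submodule.span ℝ ((SE κ hκ1 : Submonoid (BoundedContinuousFunction ℂ ℝ)) :
        Set (BoundedContinuousFunction ℂ ℝ)) := by
      have h1 : g ∈ Subalgebra.toSubmodule (Algebra.adjoin ℝ (SE κ hκ1 : Set (BoundedContinuousFunction ℂ ℝ))) := hg
      rw [Algebra.adjoin_eq_span, Submonoid.closure_eq] at h1
      exact h1
    refine Submodule.span_induction (p := fun (g : BoundedContinuousFunction ℂ ℝ) _ =>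
      ∫ x, g x ∂P = ∫ x, g x ∂(μG.map (fun v : ℂ => v ^ 2))) ?_ ?_ ?_ ?_ hg'
    · rintro g ⟨a, w, ha, hw, hgE⟩
      have hwa : ‖w‖ ≤ a := hw.trans (by nlinarith)
      simp_rw [hgE]
      rw [hF a w ha hw, hmap _ (continuous_E a w), gaussian_transform ha hwa]
    · simp
    · intro x y _ _ hx hy
      have e1 : ∫ z, (x + y) z ∂P = ∫ z, x z ∂P + ∫ z, y z ∂P := by
        simp only [BoundedContinuousFunction.coe_add, Pi.add_apply]
        exact integral_add (x.integrable P) (y.integrable P)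
      have e2 : ∫ z, (x + y) z ∂(μG.map (fun v : ℂ => v ^ 2)) =
          ∫ z, x z ∂(μG.map (fun v : ℂ => v ^ 2)) + ∫ z, y z ∂(μG.map (fun v : ℂ => v ^ 2)) := by
        simp only [BoundedContinuousFunction.coe_add, Pi.add_apply]
        exact integral_add (x.integrable _) (y.integrable _)
      rw [e1, e2, hx, hy]
    · intro c x _ hx
      have e1 : ∀ μ : Measure ℂ, ∫ z, (c • x) z ∂μ = c * ∫ z, x z ∂μ := by
        intro μ
        rw [← integral_const_mul]
        rfl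
      rw [e1, e1, hx]
  intro f hf _
  rw [← hmap f hf, ← hPQ]

end SAD
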