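import Pool.Agent.Lib.SAD.GBasic

/-!
# Asymptotically, `L h (E a w) R` depends only on the determinant of the quadratic form

PLAN.  Given `a > 0`, `‖w‖ ≤ κ a`, put `δ = √((1+a)² - ‖w‖²) > 1` and
`A v = ((1+a+δ) v + conj w * conj v) / √(2 δ (1+a+δ))`.  This is `act A` of a matrix in `SL(2, ℝ)`
(the map `v ↦ α v + β conj v`, `α` real, `β = b₁ + b₂ i`, has matrix `[[α+b₁, b₂], [b₂, α-b₁]]`,
determinant `α² - ‖β‖²`), and `δ ‖act A v‖² = (1+a) ‖v‖² + Re (w v²)`.  For `‖w‖ ≤ κ a ≤ κ (1+a)` with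
`κ = κ(ε)` small, the matrix is within `ε` of the identity (the entries depend only on `w/(1+a)`).
Let `η > 0`; there is `C` with `N (A h) R ≤ (1+η) N h R + C` and `N h R ≤ (1+η) N (A h) R + C` for all
`R ≥ 0`.  Apply `tsum_exp_le` (`x i = ‖h i‖²`, `y i = ‖act A (h i)‖²`, `t = δ/R²`, and conversely) and
`L_E`, `L_E_zero`: `|L h (E a w) R - L h (E (δ-1) 0) R| ≤ η (1+η) + (2+η) C / G h R` or so
(`L h (E (δ-1) 0) R ≤ 1` since `δ ≥ 1`); let `R → ∞`, then `η → 0`.
-/

open Filter Topology MeasureTheory Set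
open scoped MatrixGroups

namespace SAD

variable {ι : Type*} {h : ι → ℂ}

/-- A matrix for a positive definite quadratic form near a multiple of the round one. -/
theorem exists_matrix {ε : ℝ} (hε : 0 < ε) : ∃ κ : ℝ, 0 < κ ∧ κ < 1 ∧
    ∀ (a : ℝ) (w : ℂ), 0 < a → ‖w‖ ≤ κ * a → ∃ A : SL(2, ℝ),
      (∀ i j, |A i j - (1 : Matrix (Fin 2) (Fin 2) ℝ) i j| < ε) ∧
      ∀ v : ℂ, √((1 + a) ^ 2 - ‖w‖ ^ 2) * ‖act A v‖ ^ 2 =
        (1 + a) * ‖v‖ ^ 2 + (w * v ^ 2).re := by
  refine ⟨min (1 / 2) (ε / 4), by positivity, lt_of_le_of_lt (min_le_left _ _) (by norm_num), ?_⟩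
  intro a w ha hw
  set κ : ℝ := min (1 / 2) (ε / 4) with hκ
  have hκ0 : 0 < κ := by positivity
  have hκ1 : κ ≤ 1 / 2 := min_le_left _ _
  have hκ2 : κ ≤ ε / 4 := min_le_right _ _
  have hw0 : 0 ≤ ‖w‖ := norm_nonneg w
  set b : ℝ := 1 + a with hb
  have hb1 : 1 < b := by rw [hb]; linarith
  have hwb : ‖w‖ ≤ κ * b := hw.trans (by gcongr; rw [hb]; linarith)
  have hwb2 : ‖w‖ ≤ b / 2 := hwb.trans (by nlinarith)
  set δ : ℝ := √(b ^ 2 - ‖w‖ ^ 2) with hδ
  have hpos : 0 ≤ b ^ 2 - ‖w‖ ^ 2 := by nlinarith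
  have hδ2 : δ ^ 2 = b ^ 2 - ‖w‖ ^ 2 := Real.sq_sqrt hpos
  have hδb : b / 2 ≤ δ := by
    apply Real.le_sqrt_of_sq_le
    nlinarith
  have hδ0 : 0 < δ := by linarith
  set s : ℝ := √(2 * δ * (b + δ)) with hs
  have hs2 : s ^ 2 = 2 * δ * (b + δ) := Real.sq_sqrt (by positivity)
  have hs0 : 0 < s := Real.sqrt_pos.2 (by positivity)
  have hsb : b ≤ s := by
    apply Real.le_sqrt_of_sq_le
    nlinarith
  have hnw : ‖w‖ ^ 2 = w.re ^ 2 + w.im ^ 2 := by
    rw [Complex.sq_norm, Complex.normSq_apply]; ring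
  have hsne : s ≠ 0 := hs0.ne'
  set α : ℝ := (b + δ) / s with hα
  set p : ℝ := w.re / s with hp
  set q : ℝ := -w.im / s with hq
  have hα0 : 0 < α := by positivity
  have hdet : α ^ 2 - p ^ 2 - q ^ 2 = 1 := by
    rw [hα, hp, hq]
    field_simp
    rw [hs2]
    nlinarith
  have hpq : p ^ 2 + q ^ 2 = ‖w‖ ^ 2 / s ^ 2 := by
    rw [hp, hq, hnw]
    field_simp
  have hpq2 : p ^ 2 + q ^ 2 ≤ κ ^ 2 := by
    rw [hpq, div_le_iff₀ (by positivity)]
    have h1 : ‖w‖ ≤ κ * s := hwb.trans (by gcongr)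
    calc ‖w‖ ^ 2 ≤ (κ * s) ^ 2 := by gcongr
      _ = κ ^ 2 * s ^ 2 := by ring
  have hp2 : p ^ 2 ≤ κ ^ 2 := by nlinarith [sq_nonneg q]
  have hq2 : q ^ 2 ≤ κ ^ 2 := by nlinarith [sq_nonneg p]
  have hpa : |p| ≤ κ := abs_le_of_sq_le_sq hp2 hκ0.le
  have hqa : |q| ≤ κ := abs_le_of_sq_le_sq hq2 hκ0.le
  have hα1 : 1 ≤ α := by nlinarith
  have hα2 : α ≤ 1 + κ := by nlinarith
  have hpa' := abs_le.1 hpa
  have hqa' := abs_le.1 hqa
  let M : Matrix (Fin 2) (Fin 2) ℝ := !![α + p, q; q, α - p]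
  have hM : M.det = 1 := by
    simp only [M, Matrix.det_fin_two_of]
    linarith
  refine ⟨⟨M, hM⟩, ?_, ?_⟩
  · intro i j
    have e : (⟨M, hM⟩ : SL(2, ℝ)).1 i j = M i j := rfl
    show |(⟨M, hM⟩ : SL(2, ℝ)).1 i j - _| < ε
    rw [e]
    fin_cases i <;> fin_cases j <;> simp [M] <;> rw [abs_lt] <;> constructor <;> linarith
  · intro v
    have e1 : (act ⟨M, hM⟩ v).re = (α + p) * v.re + q * v.im := rfl
    have e2 : (act ⟨M, hM⟩ v).im = q * v.re + (α - p) * v.im := rfl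
    have hnA : ‖act ⟨M, hM⟩ v‖ ^ 2 = ((α + p) * v.re + q * v.im) ^ 2 +
        (q * v.re + (α - p) * v.im) ^ 2 := by
      rw [Complex.sq_norm, Complex.normSq_apply, e1, e2]; ring
    have hnv : ‖v‖ ^ 2 = v.re ^ 2 + v.im ^ 2 := by
      rw [Complex.sq_norm, Complex.normSq_apply]; ring
    have hre : (w * v ^ 2).re = w.re * (v.re ^ 2 - v.im ^ 2) - w.im * (2 * v.re * v.im) := by
      rw [pow_two, Complex.mul_re, Complex.mul_re, Complex.mul_im]; ring
    have k1 : δ * (α ^ 2 + p ^ 2 + q ^ 2) = b := by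
      rw [hα, hp, hq]
      field_simp
      rw [hs2]
      have : (b + δ) ^ 2 + w.re ^ 2 + w.im ^ 2 = 2 * b * (b + δ) := by nlinarith
      linear_combination δ * this
    have k2 : δ * (2 * α * p) = w.re := by
      rw [hα, hp]
      field_simp
      rw [hs2]
      ring
    have k3 : δ * (2 * α * q) = - w.im := by
      rw [hα, hq]
      field_simp
      rw [hs2]
      ring
    rw [hnA, hnv, hre]
    linear_combination (v.re ^ 2 + v.im ^ 2) * k1 + (v.re ^ 2 - v.im ^ 2) * k2 +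
      (2 * v.re * v.im) * k3

theorem exists_kappa (hg : GReg h) {ε : ℝ} (hε : 0 < ε)
    (hc : ∀ A : SL(2, ℝ), (∀ i j, |A i j - (1 : Matrix (Fin 2) (Fin 2) ℝ) i j| < ε) →
      Tendsto (fun R => N (fun i => act A (h i)) R / N h R) atTop (𝓝 1)) :
    ∃ κ : ℝ, 0 < κ ∧ κ < 1 ∧ ∀ (a : ℝ) (w : ℂ), 0 < a → ‖w‖ ≤ κ * a →
      Tendsto (fun R => L h (E a w) R - L h (E (√((1 + a) ^ 2 - ‖w‖ ^ 2) - 1) 0) R)
        atTop (𝓝 0) := by
  obtain ⟨κ, hκ0, hκ1, hκ⟩ := exists_matrix hε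
  refine ⟨κ, hκ0, hκ1, fun a w ha hw => ?_⟩
  obtain ⟨A, hA1, hA2⟩ := hκ a w ha hw
  have hlim := hc A hA1
  set δ : ℝ := √((1 + a) ^ 2 - ‖w‖ ^ 2) with hδ
  have hw0 : 0 ≤ ‖w‖ := norm_nonneg w
  have hδ1 : 1 ≤ δ := by
    apply Real.le_sqrt_of_sq_le
    have : ‖w‖ ≤ a := hw.trans (by nlinarith)
    nlinarith
  have hδ0 : 0 < δ := by linarith
  have hfA := hg.locFin.act A
  have setx : ∀ s : ℝ, 0 ≤ s → {i | ‖h i‖ ^ 2 ≤ s} = {i | ‖h i‖ ≤ √s} := by
    intro s hs
    ext i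
    simp only [Set.mem_ofPred_eq]
    rw [Real.le_sqrt (norm_nonneg _) hs]
  have sety : ∀ s : ℝ, 0 ≤ s → {i | ‖act A (h i)‖ ^ 2 ≤ s} = {i | ‖act A (h i)‖ ≤ √s} := by
    intro s hs
    ext i
    simp only [Set.mem_ofPred_eq]
    rw [Real.le_sqrt (norm_nonneg _) hs]
  have finx : ∀ s : ℝ, {i | ‖h i‖ ^ 2 ≤ s}.Finite := by
    intro s
    by_cases hs : 0 ≤ s
    · rw [setx s hs]; exact hg.locFin.2 _
    · refine Set.Finite.subset Set.finite_empty fun i hi => ?_
      exfalso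
      have : ‖h i‖ ^ 2 ≤ s := hi
      nlinarith [sq_nonneg ‖h i‖]
  have finy : ∀ s : ℝ, {i | ‖act A (h i)‖ ^ 2 ≤ s}.Finite := by
    intro s
    by_cases hs : 0 ≤ s
    · rw [sety s hs]; exact hfA.2 _
    · refine Set.Finite.subset Set.finite_empty fun i hi => ?_
      exfalso
      have : ‖act A (h i)‖ ^ 2 ≤ s := hi
      nlinarith [sq_nonneg ‖act A (h i)‖]
  rw [Metric.tendsto_nhds]
  intro e he
  set η : ℝ := min 1 (e / 4) with hη
  have hη0 : 0 < η := by positivity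
  have hη1 : η ≤ 1 := min_le_left _ _
  have hη2 : η ≤ e / 4 := min_le_right _ _
  -- comparison of the counting functions
  have hcmp : ∃ C : ℝ, 0 ≤ C ∧ (∀ R : ℝ, N (fun i => act A (h i)) R ≤ (1 + η) * N h R + C) ∧
      ∀ R : ℝ, N h R ≤ (1 + η) * N (fun i => act A (h i)) R + C := by
    have h1 : ∀ᶠ R in atTop, N (fun i => act A (h i)) R / N h R < 1 + η :=
      hlim.eventually_lt_const (by linarith)
    have h2 : ∀ᶠ R in atTop, (1 + η)⁻¹ < N (fun i => act A (h i)) R / N h R :=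
      hlim.eventually_const_lt (inv_lt_one_of_one_lt₀ (by linarith))
    obtain ⟨R₀, hR₀⟩ := eventually_atTop.1 (h1.and h2)
    refine ⟨N (fun i => act A (h i)) R₀ + N h R₀, add_nonneg (N_nonneg _ _) (N_nonneg _ _),
      fun R => ?_, fun R => ?_⟩
    · rcases le_total R₀ R with hR | hR
      · obtain ⟨h3, h4⟩ := hR₀ R hR
        have h5 : 0 < N h R := by
          rcases (N_nonneg h R).lt_or_eq with h6 | h6
          · exact h6
          · rw [← h6, div_zero] at h4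
            exact absurd h4 (not_lt.2 (by positivity))
        rw [div_lt_iff₀ h5] at h3
        have := N_nonneg (fun i => act A (h i)) R₀
        have := N_nonneg h R₀
        linarith
      · have h3 := N_mono hfA hR
        have h4 := N_nonneg h R
        have h5 := N_nonneg h R₀
        have : 0 ≤ (1 + η) * N h R := by positivity
        linarith
    · rcases le_total R₀ R with hR | hR
      · obtain ⟨h3, h4⟩ := hR₀ R hR
        have h5 : 0 < N h R := by
          rcases (N_nonneg h R).lt_or_eq with h6 | h6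
          · exact h6
          · rw [← h6, div_zero] at h4
            exact absurd h4 (not_lt.2 (by positivity))
        rw [lt_div_iff₀ h5] at h4
        have h6 : N h R < (1 + η) * N (fun i => act A (h i)) R := by
          have : (1 + η) * ((1 + η)⁻¹ * N h R) < (1 + η) * N (fun i => act A (h i)) R := by
            gcongr
          rwa [← mul_assoc, mul_inv_cancel₀ (by positivity), one_mul] at this
        have := N_nonneg (fun i => act A (h i)) R₀
        have := N_nonneg h R₀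
        linarith
      · have h3 := N_mono hg.locFin hR
        have h4 := N_nonneg (fun i => act A (h i)) R
        have h5 := N_nonneg (fun i => act A (h i)) R₀
        have : 0 ≤ (1 + η) * N (fun i => act A (h i)) R := by positivity
        linarith
  obtain ⟨C, hC0, hC1, hC2⟩ := hcmp
  have hGt := hg.tendsto
  have hGC : ∀ᶠ R in atTop, 4 * C / e + 1 ≤ G h R := hGt.eventually_ge_atTop _
  filter_upwards [hGC, eventually_gt_atTop (0 : ℝ)] with R hRG hR
  have hG0 : 0 < G h R := hg.G_pos hR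
  have ht : 0 < δ / R ^ 2 := by positivity
  have hsx := hg.summable (δ / R ^ 2) ht
  obtain ⟨hsy, hle1⟩ := tsum_exp_le (x := fun i => ‖h i‖ ^ 2) (y := fun i => ‖act A (h i)‖ ^ 2)
    (fun i => by positivity) (fun i => by positivity) finx finy (K := 1 + η) (C := C)
    (by positivity) hC0 (fun s hs => by
      rw [setx s hs, sety s hs]
      exact hC1 (√s)) ht hsx
  obtain ⟨-, hle2⟩ := tsum_exp_le (x := fun i => ‖act A (h i)‖ ^ 2) (y := fun i => ‖h i‖ ^ 2)
    (fun i => by positivity) (fun i => by positivity) finy finx (K := 1 + η) (C := C)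
    (by positivity) hC0 (fun s hs => by
      rw [setx s hs, sety s hs]
      exact hC2 (√s)) ht hsy
  set SA : ℝ := ∑' i, Real.exp (-(δ / R ^ 2 * ‖act A (h i)‖ ^ 2)) with hSA
  set S : ℝ := ∑' i, Real.exp (-(δ / R ^ 2 * ‖h i‖ ^ 2)) with hS
  have hSG : S ≤ G h R := by
    have hs1 := hg.summable (1 / R ^ 2) (by positivity)
    have hs2 : Summable (fun i => Real.exp (-(‖h i‖ / R) ^ 2)) := by
      refine hs1.congr fun i => ?_
      congr 1
      field_simp
    refine hsx.tsum_le_tsum (fun i => ?_) hs2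
    apply Real.exp_le_exp.2
    have : (‖h i‖ / R) ^ 2 ≤ δ / R ^ 2 * ‖h i‖ ^ 2 := by
      have e1 : (‖h i‖ / R) ^ 2 = 1 / R ^ 2 * ‖h i‖ ^ 2 := by field_simp
      rw [e1]
      gcongr
    linarith
  have eq1 : L h (E a w) R = SA / G h R := by
    rw [L_E hR]
    congr 1
    refine tsum_congr fun i => ?_
    congr 1
    rw [← hA2 (h i)]
    field_simp
  have eq2 : L h (E (δ - 1) 0) R = S / G h R := by
    rw [L_E hR]
    congr 1
    refine tsum_congr fun i => ?_
    congr 1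
    simp
    field_simp
  rw [eq1, eq2, ← sub_div, dist_zero_right, Real.norm_eq_abs, abs_div, abs_of_pos hG0,
    div_lt_iff₀ hG0]
  have hS0 : 0 ≤ S := tsum_nonneg fun i => (Real.exp_pos _).le
  have hSA0 : 0 ≤ SA := tsum_nonneg fun i => (Real.exp_pos _).le
  have hCe : 4 * C + e ≤ e * G h R := by
    have := mul_le_mul_of_nonneg_left hRG he.le
    have e3 : e * (4 * C / e + 1) = 4 * C + e := by field_simp
    linarith
  have hηG : η * G h R ≤ e / 4 * G h R := by gcongr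
  have hηS : η * S ≤ η * G h R := by gcongr
  have b1 : SA - S ≤ η * G h R + C := by nlinarith
  have b2 : S - SA ≤ 2 * (η * G h R) + 2 * C := by
    have : η * SA ≤ η * ((1 + η) * S + C) := by gcongr
    have h7 : η * ((1 + η) * S + C) ≤ 2 * (η * G h R) + C := by
      have h8 : (1 + η) * (η * S) ≤ 2 * (η * G h R) := by
        have : 0 ≤ η * S := by positivity
        nlinarith
      nlinarith
    linarith
  have hG' : 0 ≤ η * G h R := by positivity
  rw [abs_lt]
  constructor <;> nlinarith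

end SAD
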