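import Mathlib

/-!
# A recursion lemma

Put `x k = (g (k+1) - g k)/g k ≥ 0`.  `x` does not tend to `0`, so there is `η ∈ (0, 1]` with
`x k ≥ η` for infinitely many `k`.  From the recursion, if `x k ≥ y` with `η ≤ y ≤ 1` and `k` is
large, then `x (k+1) ≥ 1.5 y`.  So `x (k0 + n) ≥ min 1 (η 1.5 ^ n)`.
-/

open Filter Topology Set

namespace SAD

/-- One step of the recursion. -/
lemma rec_step {a b c y : ℝ} (hb : 0 < b) (hy : 0 < y) (hy1 : y ≤ 1)
    (h1 : (1 + y) * a ≤ b) (h2 : -(y / 10) * c ≤ c - 5 * b + 4 * a) :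
    (1 + 3 / 2 * y) * b ≤ c := by
  have h3 : b * (1 + 5 * y) ≤ c * ((1 + y) * (1 + y / 10)) := by
    nlinarith [mul_le_mul_of_nonneg_left h2 (by positivity : (0:ℝ) ≤ 1 + y)]
  have h4 : (1 + 3 / 2 * y) * ((1 + y) * (1 + y / 10)) ≤ 1 + 5 * y := by
    have hy2 : y ^ 2 ≤ y := by nlinarith
    have hy3 : y ^ 3 ≤ y := by nlinarith [mul_nonneg hy.le (sub_nonneg.mpr hy2)]
    nlinarith
  have h5 : (1 + 3 / 2 * y) * b * ((1 + y) * (1 + y / 10)) ≤ c * ((1 + y) * (1 + y / 10)) := by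
    calc (1 + 3 / 2 * y) * b * ((1 + y) * (1 + y / 10))
        = b * ((1 + 3 / 2 * y) * ((1 + y) * (1 + y / 10))) := by ring
      _ ≤ b * (1 + 5 * y) := by gcongr
      _ ≤ _ := h3
  exact le_of_mul_le_mul_right h5 (by positivity)

theorem double_of_rec {g : ℕ → ℝ} (hg : ∀ k, 0 < g k) (hm : Monotone g)
    (hrec : Tendsto (fun k => (g (k + 2) - 5 * g (k + 1) + 4 * g k) / g (k + 2)) atTop (𝓝 0))
    (hns : ¬ Tendsto (fun k => g (k + 1) / g k) atTop (𝓝 1)) :
    ∀ᶠ k in atTop, 2 * g k ≤ g (k + 1) := by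
  -- the gap
  obtain ⟨η, hη0, hη1, hfreq⟩ : ∃ η : ℝ, 0 < η ∧ η ≤ 1 ∧
      ∃ᶠ k in atTop, (1 + η) * g k ≤ g (k + 1) := by
    by_contra hcon
    apply hns
    rw [Metric.tendsto_atTop]
    intro ε hε
    have hmin : 0 < min ε 1 := lt_min hε one_pos
    have h1 : ¬ ∃ᶠ k in atTop, (1 + min ε 1) * g k ≤ g (k + 1) := by
      intro h
      exact hcon ⟨min ε 1, hmin, min_le_right _ _, h⟩
    rw [not_frequently, eventually_atTop] at h1
    obtain ⟨K, hK⟩ := h1
    refine ⟨K, fun k hk => ?_⟩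
    have h2 := not_le.mp (hK k hk)
    have h3 : 1 ≤ g (k + 1) / g k := by
      rw [le_div_iff₀ (hg k), one_mul]
      exact hm (Nat.le_succ k)
    have h4 : g (k + 1) / g k < 1 + min ε 1 := by
      rw [div_lt_iff₀ (hg k)]
      exact h2
    rw [Real.dist_eq, abs_of_nonneg (by linarith)]
    have := min_le_left ε 1
    linarith
  -- the error is small
  obtain ⟨K, hK⟩ : ∃ K : ℕ, ∀ k, K ≤ k →
      -(η / 10) * g (k + 2) ≤ g (k + 2) - 5 * g (k + 1) + 4 * g k := by
    rw [Metric.tendsto_atTop] at hrec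
    obtain ⟨K, hK⟩ := hrec (η / 10) (by positivity)
    refine ⟨K, fun k hk => ?_⟩
    have h1 := hK k hk
    rw [Real.dist_eq, sub_zero, abs_lt] at h1
    have h2 := h1.1.le
    rwa [le_div_iff₀ (hg (k + 2))] at h2
  obtain ⟨k0, hk0, hstart⟩ := (frequently_atTop.mp hfreq) K
  -- induction
  have hind : ∀ n : ℕ, (1 + min 1 (η * (3 / 2) ^ n)) * g (k0 + n) ≤ g (k0 + n + 1) := by
    intro n
    induction n with
    | zero =>
      simp only [pow_zero, mul_one, add_zero]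
      rw [min_eq_right hη1]
      exact hstart
    | succ n ih =>
      have hpow : (1:ℝ) ≤ (3 / 2) ^ n := one_le_pow₀ (by norm_num)
      have hyη : η ≤ min 1 (η * (3 / 2) ^ n) := by
        refine le_min hη1 ?_
        nlinarith
      have hy0 : 0 < min 1 (η * (3 / 2) ^ n) := lt_of_lt_of_le hη0 hyη
      have hy1 : min 1 (η * (3 / 2) ^ n) ≤ 1 := min_le_left _ _
      have hstep := rec_step (hg (k0 + n + 1)) hy0 hy1 ih (by
        refine le_trans ?_ (hK (k0 + n) (by omega))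
        have := hg (k0 + n + 2)
        nlinarith)
      have hle : min 1 (η * (3 / 2) ^ (n + 1)) ≤ 3 / 2 * min 1 (η * (3 / 2) ^ n) := by
        rcases min_cases (1:ℝ) (η * (3 / 2) ^ n) with h | h
        · rw [h.1]
          exact (min_le_left _ _).trans (by norm_num)
        · rw [h.1]
          refine (min_le_right _ _).trans (le_of_eq ?_)
          rw [pow_succ]; ring
      have e1 : k0 + (n + 1) = k0 + n + 1 := by ring
      rw [e1]
      refine le_trans ?_ hstep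
      have := hg (k0 + n + 1)
      gcongr
  -- the end
  obtain ⟨n0, hn0⟩ : ∃ n0 : ℕ, 1 ≤ η * (3 / 2) ^ n0 := by
    obtain ⟨n0, h⟩ := pow_unbounded_of_one_lt (1 / η) (by norm_num : (1:ℝ) < 3 / 2)
    refine ⟨n0, ?_⟩
    rw [div_lt_iff₀ hη0] at h
    linarith
  rw [eventually_atTop]
  refine ⟨k0 + n0, fun k hk => ?_⟩
  obtain ⟨n, rfl⟩ : ∃ n, k = k0 + n := ⟨k - k0, by omega⟩
  have hn : n0 ≤ n := by omega
  have h1 := hind n
  have h2 : min 1 (η * (3 / 2) ^ n) = 1 := by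
    refine min_eq_left (hn0.trans ?_)
    gcongr
    norm_num
  rw [h2] at h1
  linarith

end SAD
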