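import Pool.Agent.Lib.SAD.GLimit
import Pool.Agent.Lib.SAD.Ident
import Pool.Agent.Lib.SAD.Cluster
import Pool.Agent.Lib.SAD.ClusterG
import Pool.Agent.Lib.SAD.Rec

/-!
# Equal counting in ellipses implies the vague limit

PLAN.
`tendsto_L`.  Let `κ` be as in `exists_kappa`, `U ≤ atTop` an ultrafilter, `P` as in `exists_limit`.
The functions `E a w` (`a ≥ ‖w‖`) are continuous with values in `(0, 1]`, so passing to the limit in
`exists_kappa` gives the hypothesis of `transform_affine`; let `A, B` be its output.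
By `L_E_zero`: `G h (R/2)/G h R = L h (E 3 0) R → A + B/4`, `G h (R/4)/G h R = L h (E 15 0) R → A + B/16`
along `U`, so `1 - 5 G(R/2)/G(R) + 4 G(R/4)/G(R) → 1 - 5 (A + B/4) + 4 (A + B/16) = 1 - A - B = 0` along `U`;
as `U` is arbitrary (`tendsto_iff_ultrafilter`), this holds along `atTop`; put `R = 2^(k+2)`:
the hypothesis `hrec` of `double_of_rec` for `g k = G h (2^k)`.  `hns`: if `g (k+1)/g k → 1` then
`g k ≤ C (3/2)^k`, contradicting `c 2^k ≤ N h (2^k) ≤ e g k`.  So `2 g k ≤ g (k+1)` for `k ≥ K`, hence for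
`j ≥ 1` and `R ≥ 2^(K+j)`, `2^k ≤ R < 2^(k+1)`: `G h (R/2^j) ≤ g (k+1-j) ≤ 2^(1-j) g k ≤ 2^(1-j) G h R`.
Along `U`: `0 ≤ A + B/4^j ≤ 2^(1-j)` for all `j`, so `A = 0`, `B = 1`; `eq_gaussian` identifies `P`.
As the limit is the same for all `U`, the limit exists along `atTop`.
-/

open Filter Topology MeasureTheory Set
open scoped MatrixGroups

namespace SAD

variable {ι : Type*} {h : ι → ℂ}

namespace CountAux

lemma E_pos (a : ℝ) (w z : ℂ) : 0 < E a w z := by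
  unfold E
  exact Real.exp_pos _

lemma E_le_one {a : ℝ} {w : ℂ} (hw : ‖w‖ ≤ a) (z : ℂ) : E a w z ≤ 1 := by
  unfold E
  rw [Real.exp_le_one_iff]
  have h1 : |(w * z).re| ≤ ‖w‖ * ‖z‖ := by
    calc |(w * z).re| ≤ ‖w * z‖ := Complex.abs_re_le_norm _
      _ = ‖w‖ * ‖z‖ := norm_mul _ _
  have h2 : ‖w‖ * ‖z‖ ≤ a * ‖z‖ := mul_le_mul_of_nonneg_right hw (norm_nonneg _)
  have h3 := neg_abs_le (w * z).re
  linarith

lemma E_bdd {a : ℝ} {w : ℂ} (hw : ‖w‖ ≤ a) : ∃ M : ℝ, ∀ z, |E a w z| ≤ M := by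
  refine ⟨1, fun z => ?_⟩
  rw [abs_of_pos (E_pos a w z)]
  exact E_le_one hw z

lemma E_cont (a : ℝ) (w : ℂ) : Continuous (E a w) := by
  unfold E
  fun_prop

lemma delta_ge {κ a : ℝ} {w : ℂ} (hκ1 : κ < 1) (ha : 0 ≤ a) (hw : ‖w‖ ≤ κ * a) :
    1 ≤ √((1 + a) ^ 2 - ‖w‖ ^ 2) := by
  rw [Real.one_le_sqrt]
  have h1 : ‖w‖ ≤ a := le_trans hw (by nlinarith)
  nlinarith [norm_nonneg w]

lemma le_of_kappa {κ a : ℝ} {w : ℂ} (hκ1 : κ < 1) (ha : 0 ≤ a) (hw : ‖w‖ ≤ κ * a) :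
    ‖w‖ ≤ a := le_trans hw (by nlinarith)

lemma exists_AB (hg : GReg h) {κ : ℝ} (hκ : 0 < κ) (hκ1 : κ < 1)
    (hk : ∀ (a : ℝ) (w : ℂ), 0 < a → ‖w‖ ≤ κ * a →
      Tendsto (fun R => L h (E a w) R - L h (E (√((1 + a) ^ 2 - ‖w‖ ^ 2) - 1) 0) R)
        atTop (𝓝 0))
    (U : Ultrafilter ℝ) (hU : (U : Filter ℝ) ≤ atTop) :
    ∃ (P : Measure ℂ) (A B : ℝ), IsProbabilityMeasure P ∧ A + B = 1 ∧
      (∀ f : ℂ → ℝ, Continuous f → (∃ M : ℝ, ∀ z, |f z| ≤ M) →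
        Tendsto (fun R => L h f R) U (𝓝 (∫ z, f z ∂P))) ∧
      ∀ (a : ℝ) (w : ℂ), 0 ≤ a → ‖w‖ ≤ κ * a →
        ∫ z, E a w z ∂P = A + B / √((1 + a) ^ 2 - ‖w‖ ^ 2) := by
  obtain ⟨P, hP, hlim⟩ := exists_limit hg U hU
  have hF : ∀ (a : ℝ) (w : ℂ), 0 < a → ‖w‖ ≤ κ * a →
      ∫ z, E a w z ∂P = ∫ z, E (√((1 + a) ^ 2 - ‖w‖ ^ 2) - 1) 0 z ∂P := by
    intro a w ha hw
    have h1 := hlim (E a w) (E_cont a w) (E_bdd (le_of_kappa hκ1 ha.le hw))
    have h2 := hlim (E (√((1 + a) ^ 2 - ‖w‖ ^ 2) - 1) 0) (E_cont _ _) (E_bdd (by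
      rw [norm_zero]
      linarith [delta_ge hκ1 ha.le hw]))
    have h3 := (hk a w ha hw).mono_left hU
    have h4 := tendsto_nhds_unique h3 (h1.sub h2)
    linarith
  obtain ⟨A, B, hAB, hE⟩ := transform_affine hκ hκ1 hF
  exact ⟨P, A, B, hP, hAB, hlim, hE⟩

lemma quot_lim {P : Measure ℂ} {A B κ : ℝ} (hκ : 0 < κ) {U : Ultrafilter ℝ}
    (hU : (U : Filter ℝ) ≤ atTop)
    (hlim : ∀ f : ℂ → ℝ, Continuous f → (∃ M : ℝ, ∀ z, |f z| ≤ M) →
        Tendsto (fun R => L h f R) U (𝓝 (∫ z, f z ∂P)))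
    (hE : ∀ (a : ℝ) (w : ℂ), 0 ≤ a → ‖w‖ ≤ κ * a →
        ∫ z, E a w z ∂P = A + B / √((1 + a) ^ 2 - ‖w‖ ^ 2)) {a s : ℝ} (ha : 0 ≤ a)
    (hs : 0 < s) (hsa : s ^ 2 = 1 + a) :
    Tendsto (fun R => G h (R / s) / G h R) U (𝓝 (A + B / s ^ 2)) := by
  have h1 := hlim (E a 0) (E_cont a 0) (E_bdd (by rw [norm_zero]; exact ha))
  have h2 := hE a 0 ha (by rw [norm_zero]; positivity)
  have h3 : √((1 + a) ^ 2 - ‖(0 : ℂ)‖ ^ 2) = s ^ 2 := by
    rw [norm_zero, hsa]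
    simp only [ne_eq, OfNat.ofNat_ne_zero, not_false_eq_true, zero_pow, sub_zero]
    exact Real.sqrt_sq (by linarith)
  rw [h3] at h2
  rw [h2] at h1
  apply h1.congr'
  have h4 : ∀ᶠ R : ℝ in (U : Filter ℝ), 0 < R := hU (eventually_gt_atTop 0)
  filter_upwards [h4] with R hR
  rw [L_E_zero hR ha, ← hsa, Real.sqrt_sq hs.le]

lemma rec_lim (hg : GReg h) {κ : ℝ} (hκ : 0 < κ) (hκ1 : κ < 1)
    (hk : ∀ (a : ℝ) (w : ℂ), 0 < a → ‖w‖ ≤ κ * a →
      Tendsto (fun R => L h (E a w) R - L h (E (√((1 + a) ^ 2 - ‖w‖ ^ 2) - 1) 0) R)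
        atTop (𝓝 0)) :
    Tendsto (fun R : ℝ => (G h R - 5 * G h (R / 2) + 4 * G h (R / 4)) / G h R) atTop (𝓝 0) := by
  rw [tendsto_iff_ultrafilter]
  intro U hU
  obtain ⟨P, A, B, hP, hAB, hlim, hE⟩ := exists_AB hg hκ hκ1 hk U hU
  have h1 := quot_lim (h := h) hκ hU hlim hE (a := 3) (s := 2) (by norm_num) (by norm_num)
    (by norm_num)
  have h2 := quot_lim (h := h) hκ hU hlim hE (a := 15) (s := 4) (by norm_num) (by norm_num)
    (by norm_num)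
  have h3 : Tendsto (fun R : ℝ => 1 - 5 * (G h (R / 2) / G h R) + 4 * (G h (R / 4) / G h R)) U
      (𝓝 (1 - 5 * (A + B / 2 ^ 2) + 4 * (A + B / 4 ^ 2))) :=
    ((tendsto_const_nhds).sub (h1.const_mul 5)).add (h2.const_mul 4)
  have h4 : 1 - 5 * (A + B / 2 ^ 2) + 4 * (A + B / 4 ^ 2) = 0 := by
    have : B = 1 - A := by linarith
    rw [this]; ring
  rw [h4] at h3
  apply h3.congr'
  have h5 : ∀ᶠ R : ℝ in (U : Filter ℝ), 0 < R := hU (eventually_gt_atTop 0)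
  filter_upwards [h5] with R hR
  have h6 := hg.G_pos hR
  field_simp

/-- the values at the powers of two -/
noncomputable def gg (h : ι → ℂ) (k : ℕ) : ℝ := G h (2 ^ k)

lemma gg_pos (hg : GReg h) (k : ℕ) : 0 < gg h k := hg.G_pos (by positivity)

lemma gg_mono (hg : GReg h) : Monotone (gg h) := by
  intro a b hab
  exact hg.G_mono (by positivity) (pow_le_pow_right₀ (by norm_num) hab)

lemma gg_rec
    (hr : Tendsto (fun R : ℝ => (G h R - 5 * G h (R / 2) + 4 * G h (R / 4)) / G h R) atTop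
      (𝓝 0)) :
    Tendsto (fun k => (gg h (k + 2) - 5 * gg h (k + 1) + 4 * gg h k) / gg h (k + 2)) atTop
      (𝓝 0) := by
  have h1 : Tendsto (fun k : ℕ => (2 : ℝ) ^ (k + 2)) atTop atTop :=
    (tendsto_pow_atTop_atTop_of_one_lt (by norm_num : (1 : ℝ) < 2)).comp
      (tendsto_add_atTop_nat 2)
  have h2 := hr.comp h1
  apply h2.congr
  intro k
  have e1 : (2 : ℝ) ^ (k + 2) / 2 = 2 ^ (k + 1) := by rw [pow_succ 2 (k + 1)]; ring
  have e2 : (2 : ℝ) ^ (k + 2) / 4 = 2 ^ k := by ring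
  simp only [Function.comp, gg, e1, e2]

lemma gg_ns (hf : LocFin h) (hlow : ∃ c : ℝ, 0 < c ∧ ∀ᶠ R in atTop, c * R ≤ N h R)
    (hg : GReg h) : ¬ Tendsto (fun k => gg h (k + 1) / gg h k) atTop (𝓝 1) := by
  intro ht
  obtain ⟨c, hc, hN⟩ := hlow
  have h1 : ∀ᶠ k in atTop, gg h (k + 1) / gg h k ≤ 3 / 2 :=
    (ht.eventually_lt_const (by norm_num : (1 : ℝ) < 3 / 2)).mono fun _ hx => hx.le
  have hpow : Tendsto (fun k : ℕ => (2 : ℝ) ^ k) atTop atTop :=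
    tendsto_pow_atTop_atTop_of_one_lt (by norm_num : (1 : ℝ) < 2)
  have h2 : ∀ᶠ k : ℕ in atTop, c * (2 : ℝ) ^ k ≤ Real.exp 1 * gg h k := by
    filter_upwards [hpow.eventually hN] with k hk
    exact hk.trans (N_le_G hf hg.summable (by positivity))
  obtain ⟨K, hK⟩ := (h1.and h2).exists_forall_of_atTop
  have h3 : ∀ i : ℕ, gg h (K + i) ≤ gg h K * (3 / 2) ^ i := by
    intro i
    induction i with
    | zero => simp
    | succ i ih =>
      have h4 := (hK (K + i) (by omega)).1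
      have h5 := gg_pos hg (K + i)
      rw [div_le_iff₀ h5] at h4
      calc gg h (K + (i + 1)) = gg h (K + i + 1) := by rw [add_assoc]
        _ ≤ 3 / 2 * gg h (K + i) := h4
        _ ≤ 3 / 2 * (gg h K * (3 / 2) ^ i) := by linarith
        _ = gg h K * (3 / 2) ^ (i + 1) := by ring
  have h4 : Tendsto (fun i : ℕ => ((4 : ℝ) / 3) ^ i) atTop atTop :=
    tendsto_pow_atTop_atTop_of_one_lt (by norm_num)
  obtain ⟨i, hi⟩ := (h4.eventually_gt_atTop (Real.exp 1 * gg h K / (c * 2 ^ K))).exists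
  have h5 := (hK (K + i) (by omega)).2
  have h6 := h3 i
  have h7 : 0 < Real.exp 1 := Real.exp_pos 1
  have h8 : (0 : ℝ) < c * 2 ^ K := by positivity
  rw [div_lt_iff₀ h8] at hi
  have h9 : (0 : ℝ) < (3 / 2) ^ i := by positivity
  have h10 : c * (2 : ℝ) ^ (K + i) ≤ Real.exp 1 * (gg h K * (3 / 2) ^ i) :=
    h5.trans (mul_le_mul_of_nonneg_left h6 h7.le)
  have h11 : (2 : ℝ) ^ (K + i) = 2 ^ K * ((4 / 3) ^ i * (3 / 2) ^ i) := by
    rw [pow_add, ← mul_pow]; norm_num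
  rw [h11] at h10
  have h12 := mul_lt_mul_of_pos_right hi h9
  nlinarith

/-- the quotient for large arguments -/
lemma quot_le (hg : GReg h) (hd : ∀ᶠ k in atTop, 2 * gg h k ≤ gg h (k + 1)) (j : ℕ) :
    ∀ᶠ R : ℝ in atTop, G h (R / 2 ^ (j + 1)) / G h R ≤ 1 / 2 ^ j := by
  obtain ⟨K, hK⟩ := hd.exists_forall_of_atTop
  have h1 : ∀ i k : ℕ, K ≤ k → 2 ^ i * gg h k ≤ gg h (k + i) := by
    intro i k hk
    induction i with
    | zero => simp
    | succ i ih =>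
      have h2 := hK (k + i) (by omega)
      calc (2 : ℝ) ^ (i + 1) * gg h k = 2 * (2 ^ i * gg h k) := by ring
        _ ≤ 2 * gg h (k + i) := by linarith
        _ ≤ gg h (k + (i + 1)) := h2
  filter_upwards [eventually_ge_atTop ((2 : ℝ) ^ (K + j + 1))] with R hR
  have hR0 : (1 : ℝ) ≤ R := le_trans (one_le_pow₀ (by norm_num)) hR
  have hRp : 0 < R := by linarith
  obtain ⟨k, hk1, hk2⟩ := exists_nat_pow_near hR0 (by norm_num : (1 : ℝ) < 2)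
  have hk3 : K + j + 1 ≤ k := by
    by_contra hcon
    have h3 : k + 1 ≤ K + j + 1 := by omega
    have h4 : (2 : ℝ) ^ (k + 1) ≤ 2 ^ (K + j + 1) := pow_le_pow_right₀ (by norm_num) h3
    linarith
  have hG := hg.G_pos hRp
  rw [div_le_div_iff₀ hG (by positivity), one_mul]
  obtain ⟨m, rfl⟩ : ∃ m, k = m + j := ⟨k - j, by omega⟩
  have h5 : R / 2 ^ (j + 1) ≤ 2 ^ m := by
    rw [div_le_iff₀ (by positivity), ← pow_add]
    have : m + (j + 1) = m + j + 1 := by omega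
    rw [this]
    exact hk2.le
  have h6 : G h (R / 2 ^ (j + 1)) ≤ gg h m := hg.G_mono (by positivity) h5
  have h7 : gg h (m + j) ≤ G h R := hg.G_mono (by positivity) hk1
  have h8 := h1 j m (by omega)
  calc G h (R / 2 ^ (j + 1)) * 2 ^ j ≤ gg h m * 2 ^ j :=
        mul_le_mul_of_nonneg_right h6 (by positivity)
    _ = 2 ^ j * gg h m := by ring
    _ ≤ gg h (m + j) := h8
    _ ≤ G h R := h7

end CountAux

open CountAux in
theorem tendsto_L (hf : LocFin h) (hlow : ∃ c : ℝ, 0 < c ∧ ∀ᶠ R in atTop, c * R ≤ N h R)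
    {ε : ℝ} (hε : 0 < ε)
    (hc : ∀ A : SL(2, ℝ), (∀ i j, |A i j - (1 : Matrix (Fin 2) (Fin 2) ℝ) i j| < ε) →
      Tendsto (fun R => N (fun i => act A (h i)) R / N h R) atTop (𝓝 1)) :
    ∀ f : ℂ → ℝ, Continuous f → (∃ M : ℝ, ∀ z, |f z| ≤ M) →
      Tendsto (fun R => L h f R) atTop
        (𝓝 (Real.pi⁻¹ * ∫ v : ℂ, Real.exp (-‖v‖ ^ 2) * f (v ^ 2))) := by
  have hg : GReg h := GReg.of_count hf hlow hε hc
  obtain ⟨κ, hκ, hκ1, hk⟩ := exists_kappa hg hε hc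
  have hd : ∀ᶠ k in atTop, 2 * gg h k ≤ gg h (k + 1) :=
    double_of_rec (gg_pos hg) (gg_mono hg) (gg_rec (rec_lim hg hκ hκ1 hk))
      (gg_ns hf hlow hg)
  intro f hfc hfb
  rw [tendsto_iff_ultrafilter]
  intro U hU
  obtain ⟨P, A, B, hP, hAB, hlim, hE⟩ := exists_AB hg hκ hκ1 hk U hU
  have hq : ∀ j : ℕ, 0 ≤ A + B / (2 ^ (j + 1)) ^ 2 ∧ A + B / (2 ^ (j + 1)) ^ 2 ≤ 1 / 2 ^ j := by
    intro j
    have h1 := quot_lim (h := h) hκ hU hlim hE (a := (2 ^ (j + 1)) ^ 2 - 1)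
      (s := 2 ^ (j + 1)) (by
        have : (1 : ℝ) ≤ (2 ^ (j + 1)) ^ 2 := one_le_pow₀ (one_le_pow₀ (by norm_num))
        linarith) (by positivity) (by ring)
    have h5 : ∀ᶠ R : ℝ in (U : Filter ℝ), 0 < R := hU (eventually_gt_atTop 0)
    constructor
    · apply ge_of_tendsto h1
      filter_upwards [h5] with R hR
      exact div_nonneg (hg.G_pos (by positivity)).le (hg.G_pos hR).le
    · exact le_of_tendsto h1 (hU (quot_le hg hd j))
  have hA : A = 0 := by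
    have t1 : Tendsto (fun j : ℕ => (1 : ℝ) / 2 ^ j) atTop (𝓝 0) := by
      have := tendsto_pow_atTop_nhds_zero_of_lt_one (r := (1 : ℝ) / 2) (by norm_num)
        (by norm_num)
      apply this.congr
      intro j
      rw [div_pow, one_pow]
    have t2 : Tendsto (fun j : ℕ => A + B / (2 ^ (j + 1)) ^ 2) atTop (𝓝 0) :=
      squeeze_zero (fun j => (hq j).1) (fun j => (hq j).2) t1
    have t3 : Tendsto (fun j : ℕ => A + B / 4 * ((1 : ℝ) / 4) ^ j) atTop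
        (𝓝 (A + B / 4 * 0)) :=
      tendsto_const_nhds.add ((tendsto_pow_atTop_nhds_zero_of_lt_one (by norm_num)
        (by norm_num)).const_mul _)
    have t4 : Tendsto (fun j : ℕ => A + B / (2 ^ (j + 1)) ^ 2) atTop (𝓝 (A + B / 4 * 0)) := by
      apply t3.congr
      intro j
      have : ((2 : ℝ) ^ (j + 1)) ^ 2 = 4 * 4 ^ j := by
        rw [← pow_mul, mul_comm (j + 1) 2, pow_mul]; norm_num [pow_succ]; ring
      rw [this, div_pow, one_pow]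
      field_simp
    have := tendsto_nhds_unique t4 t2
    linarith
  have hB : B = 1 := by linarith
  have hF : ∀ (a : ℝ) (w : ℂ), 0 ≤ a → ‖w‖ ≤ κ * a →
      ∫ z, E a w z ∂P = (√((1 + a) ^ 2 - ‖w‖ ^ 2))⁻¹ := by
    intro a w ha hw
    rw [hE a w ha hw, hA, hB, zero_add, one_div]
  rw [← eq_gaussian hκ hκ1 hF f hfc hfb]
  exact hlim f hfc hfb

end SAD
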