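import Pool.Agent.Lib.SAD.Polar

/-!
# Consequences of the vague limit

PLAN.
`count_of_leb`: squeeze the indicator of `{‖act A v‖ ≤ l}` between
`g⁻ v = max 0 (min 1 ((l - ‖act A v‖)/ε))` and `g⁺ v = max 0 (min 1 ((l + ε - ‖act A v‖)/ε))`,
continuous with compact support; `π⁻¹ ∫ g⁺ ≤ π⁻¹ vol {‖act A v‖ ≤ l+ε} = (l+ε)²` and
`π⁻¹ ∫ g⁻ ≥ (l-ε)²` (`integral_act`, area of the disc `Complex.volume_closedBall`).
(`N h R > 0` eventually: otherwise all quotients vanish, but some limit is not zero.)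
`leb_act`: `g ∘ act A` is continuous with compact support and has the same integral; divide by
`count_of_leb` with `l = 1`.
`equi_of_leb`: for continuous `f` and `0 < ε < 1` let
`g v = min 1 (‖v‖/ε) * max 0 (min 1 ((1+ε-‖v‖)/ε)) * f (v/‖v‖)` (continuous with compact support, `0` at
`0`).  With `M = sup of |f| on the unit circle`:
`|dirSum h f R - ∑ᶠ g (h i/R)| ≤ M (N h (ε R) + N h ((1+ε) R) - N h R)` and, by `integral_disc`,
`|π⁻¹ ∫ g - circleAverage f 0 1| ≤ M (ε² + (1+ε)² - 1)`.  Use `count_of_leb` with `A = 1`.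
-/

open Filter Topology MeasureTheory Set
open scoped MatrixGroups

namespace SAD

variable {ι : Type*} {h : ι → ℂ}

/-! ### The radial cutoff -/

/-- A radial cutoff function: `1` on the disc of radius `ρ`, `0` outside the disc of radius
`ρ + ε`. -/
noncomputable def cut (ρ ε : ℝ) (v : ℂ) : ℝ := max 0 (min 1 ((ρ + ε - ‖v‖) / ε))

lemma continuous_cut (ρ ε : ℝ) : Continuous (cut ρ ε) := by
  unfold cut
  fun_prop

lemma cut_nonneg (ρ ε : ℝ) (v : ℂ) : 0 ≤ cut ρ ε v := le_max_left _ _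

lemma cut_le_one (ρ ε : ℝ) (v : ℂ) : cut ρ ε v ≤ 1 := max_le zero_le_one (min_le_left _ _)

lemma cut_eq_one {ρ ε : ℝ} (hε : 0 < ε) {v : ℂ} (hv : ‖v‖ ≤ ρ) : cut ρ ε v = 1 := by
  unfold cut
  have : 1 ≤ (ρ + ε - ‖v‖) / ε := by rw [le_div_iff₀ hε]; linarith
  rw [min_eq_left this, max_eq_right zero_le_one]

lemma cut_eq_zero {ρ ε : ℝ} (hε : 0 < ε) {v : ℂ} (hv : ρ + ε ≤ ‖v‖) : cut ρ ε v = 0 := by
  unfold cut
  have : (ρ + ε - ‖v‖) / ε ≤ 0 := div_nonpos_of_nonpos_of_nonneg (by linarith) hε.le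
  exact max_eq_left ((min_le_right _ _).trans this)

lemma hasCompactSupport_cut {ρ ε : ℝ} (hε : 0 < ε) : HasCompactSupport (cut ρ ε) := by
  refine HasCompactSupport.intro (isCompact_closedBall (0:ℂ) (ρ + ε)) (fun v hv => ?_)
  rw [mem_closedBall_zero_iff, not_le] at hv
  exact cut_eq_zero hε hv.le

lemma integral_closedBall_one {ρ : ℝ} (hρ : 0 ≤ ρ) :
    ∫ v : ℂ, (Metric.closedBall (0:ℂ) ρ).indicator (fun _ => (1:ℝ)) v = Real.pi * ρ ^ 2 := by
  rw [integral_indicator Metric.isClosed_closedBall.measurableSet, setIntegral_const,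
    Measure.real, Complex.volume_closedBall]
  simp [hρ]
  ring

lemma integrable_closedBall_one (ρ : ℝ) :
    Integrable ((Metric.closedBall (0:ℂ) ρ).indicator (fun _ => (1:ℝ))) := by
  rw [integrable_indicator_iff Metric.isClosed_closedBall.measurableSet]
  exact integrableOn_const (by rw [Complex.volume_closedBall]; finiteness)

lemma integrable_cut {ρ ε : ℝ} (hε : 0 < ε) : Integrable (cut ρ ε) :=
  (continuous_cut ρ ε).integrable_of_hasCompactSupport (hasCompactSupport_cut hε)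

lemma integral_cut_le {ρ ε : ℝ} (hε : 0 < ε) (hρ : 0 ≤ ρ + ε) :
    ∫ v, cut ρ ε v ≤ Real.pi * (ρ + ε) ^ 2 := by
  rw [← integral_closedBall_one hρ]
  refine integral_mono (integrable_cut hε) (integrable_closedBall_one _) (fun v => ?_)
  by_cases hv : v ∈ Metric.closedBall (0:ℂ) (ρ + ε)
  · rw [Set.indicator_of_mem hv]
    exact cut_le_one _ _ _
  · rw [Set.indicator_of_notMem hv]
    rw [mem_closedBall_zero_iff, not_le] at hv
    exact (cut_eq_zero hε hv.le).le

lemma le_integral_cut {ρ ε : ℝ} (hε : 0 < ε) (hρ : 0 ≤ ρ) :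
    Real.pi * ρ ^ 2 ≤ ∫ v, cut ρ ε v := by
  rw [← integral_closedBall_one hρ]
  refine integral_mono (integrable_closedBall_one _) (integrable_cut hε) (fun v => ?_)
  by_cases hv : v ∈ Metric.closedBall (0:ℂ) ρ
  · rw [Set.indicator_of_mem hv]
    rw [mem_closedBall_zero_iff] at hv
    exact (cut_eq_one hε hv).ge
  · rw [Set.indicator_of_notMem hv]
    exact cut_nonneg _ _ _

/-! ### Sums and counts -/

lemma ncard_le_finsum {S : Set ι} {f : ι → ℝ} (hf0 : ∀ i, 0 ≤ f i)
    (hfs : (Function.support f).Finite) (h1 : ∀ i ∈ S, 1 ≤ f i) :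
    (S.ncard : ℝ) ≤ ∑ᶠ i, f i := by
  have hS : S ⊆ Function.support f := fun i hi => by
    have := h1 i hi
    rw [Function.mem_support]
    linarith
  have hSf : S.Finite := hfs.subset hS
  rw [finsum_eq_sum_of_support_subset f (s := hfs.toFinset) (by simp),
    Set.ncard_eq_toFinset_card S hSf]
  calc ((hSf.toFinset.card : ℕ) : ℝ) = ∑ _i ∈ hSf.toFinset, (1:ℝ) := by simp
    _ ≤ ∑ i ∈ hSf.toFinset, f i := Finset.sum_le_sum fun i hi => h1 i (by simpa using hi)
    _ ≤ ∑ i ∈ hfs.toFinset, f i := by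
      refine Finset.sum_le_sum_of_subset_of_nonneg ?_ (fun i _ _ => hf0 i)
      intro i hi
      rw [Set.Finite.mem_toFinset] at hi ⊢
      exact hS hi

lemma finsum_le_ncard {S : Set ι} (hS : S.Finite) {f : ι → ℝ} (h1 : ∀ i, f i ≤ 1)
    (h0 : ∀ i, i ∉ S → f i = 0) : ∑ᶠ i, f i ≤ (S.ncard : ℝ) := by
  rw [finsum_eq_sum_of_support_subset f (s := hS.toFinset) (by
      intro i hi
      rw [Function.mem_support] at hi
      rw [Set.Finite.coe_toFinset]
      by_contra hn
      exact hi (h0 i hn)),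
    Set.ncard_eq_toFinset_card S hS]
  calc ∑ i ∈ hS.toFinset, f i ≤ ∑ _i ∈ hS.toFinset, (1:ℝ) := Finset.sum_le_sum fun i _ => h1 i
    _ = ((hS.toFinset.card : ℕ) : ℝ) := by simp

lemma norm_act_div (A : SL(2, ℝ)) (z : ℂ) {R : ℝ} (hR : 0 < R) :
    ‖act A (z / (R : ℂ))‖ = ‖act A z‖ / R := by
  rw [act_div, norm_div, Complex.norm_real, Real.norm_of_nonneg hR.le]

theorem hasCompactSupport_comp_act (A : SL(2, ℝ)) {g : ℂ → ℝ} (hg : HasCompactSupport g) :
    HasCompactSupport (fun v => g (act A v)) :=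
  hg.comp_homeomorph (actHomeo A)

theorem count_of_leb (hf : LocFin h) (hL : LebLim h) (A : SL(2, ℝ)) {l : ℝ} (hl : 0 < l) :
    Tendsto (fun R : ℝ => N (fun i => act A (h i)) (l * R) / N h R) atTop (𝓝 (l ^ 2)) := by
  have hpi := Real.pi_pos
  have hfA := hf.act A
  -- the limit for the cutoffs
  have key : ∀ ρ ε : ℝ, 0 < ε → Tendsto (fun R : ℝ =>
      (∑ᶠ i, cut ρ ε (act A (h i / (R : ℂ)))) / N h R) atTop
      (𝓝 (Real.pi⁻¹ * ∫ z, cut ρ ε z)) := by
    intro ρ ε hε
    have := hL (fun v => cut ρ ε (act A v)) ((continuous_cut ρ ε).comp (continuous_act A))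
      (hasCompactSupport_comp_act A (hasCompactSupport_cut hε))
    rwa [integral_act A (cut ρ ε)] at this
  have hsupp : ∀ ρ ε R : ℝ, 0 < ε → 0 < R →
      (Function.support fun i => cut ρ ε (act A (h i / (R : ℂ)))).Finite := by
    intro ρ ε R hε hR
    refine (hfA.2 ((ρ + ε) * R)).subset (fun i hi => ?_)
    rw [Function.mem_support] at hi
    show ‖act A (h i)‖ ≤ (ρ + ε) * R
    by_contra hn
    rw [not_le] at hn
    apply hi
    apply cut_eq_zero hε
    rw [norm_act_div A _ hR, le_div_iff₀ hR]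
    exact hn.le
  rw [tendsto_order]
  constructor
  · intro a ha
    -- choose `ε`
    have hc : Tendsto (fun ε : ℝ => (l - ε) ^ 2) (𝓝[>] 0) (𝓝 (l ^ 2)) := by
      have : Tendsto (fun ε : ℝ => (l - ε) ^ 2) (𝓝 0) (𝓝 ((l - 0) ^ 2)) :=
        Continuous.tendsto (by fun_prop) 0
      rw [sub_zero] at this
      exact this.mono_left nhdsWithin_le_nhds
    have hlt : ∀ᶠ ε in 𝓝[>] (0:ℝ), ε < l :=
      nhdsWithin_le_nhds (Iio_mem_nhds hl)
    obtain ⟨ε, ⟨hε1, hε2⟩, hε3⟩ := ((hc.eventually_const_lt ha).and hlt |>.and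
      self_mem_nhdsWithin).exists
    have h1 : a < Real.pi⁻¹ * ∫ z, cut (l - ε) ε z := by
      refine hε1.trans_le ?_
      rw [le_inv_mul_iff₀ hpi]
      exact le_integral_cut hε3 (by linarith)
    filter_upwards [(key (l - ε) ε hε3).eventually_const_lt h1, eventually_gt_atTop 0] with R h2 hR
    refine h2.trans_le ?_
    refine div_le_div_of_nonneg_right ?_ (N_nonneg h R)
    refine finsum_le_ncard (hfA.2 (l * R)) (fun i => cut_le_one _ _ _) (fun i hi => ?_)
    rw [Set.mem_ofPred_eq, not_le] at hi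
    apply cut_eq_zero hε3
    rw [norm_act_div A _ hR, le_div_iff₀ hR, sub_add_cancel]
    exact hi.le
  · intro b hb
    have hc : Tendsto (fun ε : ℝ => (l + ε) ^ 2) (𝓝[>] 0) (𝓝 (l ^ 2)) := by
      have : Tendsto (fun ε : ℝ => (l + ε) ^ 2) (𝓝 0) (𝓝 ((l + 0) ^ 2)) :=
        Continuous.tendsto (by fun_prop) 0
      rw [add_zero] at this
      exact this.mono_left nhdsWithin_le_nhds
    obtain ⟨ε, hε1, hε3⟩ := ((hc.eventually_lt_const hb).and
      self_mem_nhdsWithin).exists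
    have h1 : Real.pi⁻¹ * ∫ z, cut l ε z < b := by
      refine lt_of_le_of_lt ?_ hε1
      rw [inv_mul_le_iff₀ hpi]
      exact integral_cut_le hε3 (by linarith)
    filter_upwards [(key l ε hε3).eventually_lt_const h1, eventually_gt_atTop 0] with R h2 hR
    refine lt_of_le_of_lt ?_ h2
    refine div_le_div_of_nonneg_right ?_ (N_nonneg h R)
    refine ncard_le_finsum (fun i => cut_nonneg _ _ _) (hsupp l ε R hε3 hR) (fun i hi => ?_)
    rw [Set.mem_ofPred_eq] at hi
    refine (cut_eq_one hε3 ?_).ge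
    rw [norm_act_div A _ hR, div_le_iff₀ hR]
    exact hi

theorem rv_of_leb (hf : LocFin h) (hL : LebLim h) : RV h := by
  intro l hl
  have := count_of_leb hf hL 1 hl
  simpa only [act_one] using this

theorem leb_act (hf : LocFin h) (hL : LebLim h) (A : SL(2, ℝ)) :
    LebLim (fun i => act A (h i)) := by
  intro g hg hgc
  have h1 := hL (fun v => g (act A v)) (hg.comp (continuous_act A))
    (hasCompactSupport_comp_act A hgc)
  rw [integral_act A g] at h1
  have h2 := count_of_leb hf hL A one_pos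
  simp only [one_mul, one_pow] at h2
  have h3 := h1.div h2 one_ne_zero
  rw [div_one] at h3
  refine h3.congr' ?_
  filter_upwards [h2.eventually_const_lt (show (1/2 : ℝ) < 1 by norm_num)] with R hR
  have hN : N h R ≠ 0 := by
    intro h0
    rw [h0, div_zero] at hR
    norm_num at hR
  simp only [act_div]
  exact div_div_div_cancel_right₀ hN _ _

/-! ### Equidistribution -/

/-- The test function used for the equidistribution of directions. -/
noncomputable def angTest (f : ℂ → ℝ) (ε : ℝ) (v : ℂ) : ℝ :=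
  min 1 (‖v‖ / ε) * cut 1 ε v * f (v / (‖v‖ : ℂ))

lemma norm_dir_le (v : ℂ) : ‖v / (‖v‖ : ℂ)‖ ≤ 1 := by
  rw [norm_div, Complex.norm_real, norm_norm]
  exact div_self_le_one _

lemma continuous_angTest {f : ℂ → ℝ} (hfc : Continuous f) {ε : ℝ} (hε : 0 < ε) :
    Continuous (angTest f ε) := by
  obtain ⟨M, hM⟩ := (isCompact_closedBall (0:ℂ) 1).exists_bound_of_continuousOn
    hfc.continuousOn
  rw [continuous_iff_continuousAt]
  intro v
  by_cases hv : v = 0
  · subst hv
    have h0 : angTest f ε 0 = 0 := by simp [angTest]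
    rw [ContinuousAt, h0]
    have hb : ∀ w : ℂ, ‖angTest f ε w‖ ≤ ‖w‖ / ε * M := by
      intro w
      have hw : ‖f (w / (‖w‖ : ℂ))‖ ≤ M := hM _ (by
        rw [mem_closedBall_zero_iff]; exact norm_dir_le w)
      have h1 : 0 ≤ min 1 (‖w‖ / ε) := le_min zero_le_one (by positivity)
      unfold angTest
      rw [norm_mul, norm_mul, Real.norm_of_nonneg h1, Real.norm_of_nonneg (cut_nonneg _ _ _)]
      have h2 : min 1 (‖w‖ / ε) * cut 1 ε w ≤ ‖w‖ / ε := by
        calc min 1 (‖w‖ / ε) * cut 1 ε w ≤ (‖w‖ / ε) * 1 :=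
              mul_le_mul (min_le_right _ _) (cut_le_one _ _ _) (cut_nonneg _ _ _) (by positivity)
          _ = _ := mul_one _
      exact mul_le_mul h2 hw (norm_nonneg _) (by positivity)
    have hlim : Tendsto (fun w : ℂ => ‖w‖ / ε * M) (𝓝 0) (𝓝 0) := by
      have : Tendsto (fun w : ℂ => ‖w‖ / ε * M) (𝓝 0) (𝓝 (‖(0:ℂ)‖ / ε * M)) :=
        Continuous.tendsto (by fun_prop) 0
      simpa using this
    exact squeeze_zero_norm hb hlim
  · have h1 : ContinuousAt (fun v : ℂ => v / (‖v‖ : ℂ)) v := by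
      refine ContinuousAt.div continuousAt_id ?_ ?_
      · exact (Complex.continuous_ofReal.comp continuous_norm).continuousAt
      · simpa using hv
    have h2 : ContinuousAt (fun v : ℂ => f (v / (‖v‖ : ℂ))) v :=
      ContinuousAt.comp (g := f) (f := fun v : ℂ => v / (‖v‖ : ℂ)) hfc.continuousAt h1
    have h3 : ContinuousAt (fun v : ℂ => min 1 (‖v‖ / ε) * cut 1 ε v) v := by
      have : Continuous (fun v : ℂ => min 1 (‖v‖ / ε) * cut 1 ε v) :=
        Continuous.mul (by fun_prop) (continuous_cut 1 ε)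
      exact this.continuousAt
    exact h3.mul h2

lemma angTest_eq_zero {f : ℂ → ℝ} {ε : ℝ} (hε : 0 < ε) {v : ℂ} (hv : 1 + ε ≤ ‖v‖) :
    angTest f ε v = 0 := by
  unfold angTest
  rw [cut_eq_zero hε hv]
  simp

lemma hasCompactSupport_angTest {f : ℂ → ℝ} {ε : ℝ} (hε : 0 < ε) :
    HasCompactSupport (angTest f ε) := by
  refine HasCompactSupport.intro (isCompact_closedBall (0:ℂ) (1 + ε)) (fun v hv => ?_)
  rw [mem_closedBall_zero_iff, not_le] at hv
  exact angTest_eq_zero hε hv.le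

/-- indicator of the disc -/
noncomputable def dsc (ρ : ℝ) (v : ℂ) : ℝ := (Metric.closedBall (0:ℂ) ρ).indicator (fun _ => 1) v

lemma dsc_of_le {ρ : ℝ} {v : ℂ} (hv : ‖v‖ ≤ ρ) : dsc ρ v = 1 :=
  Set.indicator_of_mem (by rwa [mem_closedBall_zero_iff]) _

lemma dsc_of_lt {ρ : ℝ} {v : ℂ} (hv : ρ < ‖v‖) : dsc ρ v = 0 :=
  Set.indicator_of_notMem (by rwa [mem_closedBall_zero_iff, not_le]) _

lemma abs_dsc_sub_angTest_le {f : ℂ → ℝ} {M : ℝ} (hM : ∀ v, |f (v / (‖v‖ : ℂ))| ≤ M)
    {ε : ℝ} (hε : 0 < ε) (hε1 : ε < 1) (v : ℂ) :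
    |dsc 1 v * f (v / (‖v‖ : ℂ)) - angTest f ε v| ≤ M * (dsc ε v + dsc (1 + ε) v - dsc 1 v) := by
  have hM0 : 0 ≤ M := (abs_nonneg _).trans (hM v)
  have h1 : |dsc 1 v - min 1 (‖v‖ / ε) * cut 1 ε v| ≤ dsc ε v + dsc (1 + ε) v - dsc 1 v := by
    have hw0 : 0 ≤ min 1 (‖v‖ / ε) * cut 1 ε v :=
      mul_nonneg (le_min zero_le_one (by positivity)) (cut_nonneg _ _ _)
    have hw1 : min 1 (‖v‖ / ε) * cut 1 ε v ≤ 1 :=
      mul_le_one₀ (min_le_left _ _) (cut_nonneg _ _ _) (cut_le_one _ _ _)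
    rcases le_or_gt ‖v‖ ε with hv | hv
    · rw [dsc_of_le hv, dsc_of_le (hv.trans hε1.le), dsc_of_le (show ‖v‖ ≤ 1 + ε by linarith),
        abs_le]
      constructor <;> linarith
    · rw [dsc_of_lt hv]
      rcases le_or_gt ‖v‖ 1 with hv1 | hv1
      · rw [dsc_of_le hv1, dsc_of_le (show ‖v‖ ≤ 1 + ε by linarith), cut_eq_one hε hv1,
          min_eq_left (by rw [le_div_iff₀ hε]; linarith)]
        simp
      · rw [dsc_of_lt hv1]
        rcases le_or_gt ‖v‖ (1 + ε) with hv2 | hv2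
        · rw [dsc_of_le hv2, abs_le]
          constructor <;> linarith
        · rw [dsc_of_lt hv2, cut_eq_zero hε hv2.le]
          simp
  unfold angTest
  rw [← sub_mul, abs_mul, mul_comm]
  exact mul_le_mul (hM v) h1 (abs_nonneg _) hM0

lemma div_div_norm (z : ℂ) {R : ℝ} (hR : 0 < R) :
    (z / (R : ℂ)) / (‖z / (R : ℂ)‖ : ℂ) = z / (‖z‖ : ℂ) := by
  have hR' : (R : ℂ) ≠ 0 := by exact_mod_cast hR.ne'
  rw [norm_div, Complex.norm_real, Real.norm_of_nonneg hR.le]
  push_cast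
  by_cases hz : z = 0
  · subst hz; simp
  · have : (‖z‖ : ℂ) ≠ 0 := by simpa using hz
    field_simp

lemma norm_div_real (z : ℂ) {R : ℝ} (hR : 0 < R) : ‖z / (R : ℂ)‖ = ‖z‖ / R := by
  rw [norm_div, Complex.norm_real, Real.norm_of_nonneg hR.le]

lemma sum_dsc (hf : LocFin h) {ρ R S : ℝ} (hR : 0 < R) (hS : ρ * R ≤ S) :
    ∑ i ∈ (hf.2 S).toFinset, dsc ρ (h i / (R : ℂ)) = N h (ρ * R) := by
  classical
  have h1 : ∀ i, dsc ρ (h i / (R : ℂ)) = if ‖h i‖ ≤ ρ * R then 1 else 0 := by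
    intro i
    split_ifs with hi
    · exact dsc_of_le (by rw [norm_div_real _ hR, div_le_iff₀ hR]; exact hi)
    · exact dsc_of_lt (by rw [norm_div_real _ hR, lt_div_iff₀ hR]; exact not_le.1 hi)
  simp only [h1]
  rw [Finset.sum_ite, Finset.sum_const_zero, add_zero, Finset.sum_const, nsmul_eq_mul, mul_one]
  unfold N
  congr 1
  rw [Set.ncard_eq_toFinset_card _ (hf.2 (ρ * R))]
  congr 1
  ext i
  simp only [Finset.mem_filter, Set.Finite.mem_toFinset, Set.mem_ofPred_eq]
  constructor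
  · exact fun hi => hi.2
  · exact fun hi => ⟨hi.trans hS, hi⟩

lemma dirSum_eq (hf : LocFin h) (f : ℂ → ℝ) {R S : ℝ} (hR : 0 < R) (hS : R ≤ S) :
    dirSum h f R = ∑ i ∈ (hf.2 S).toFinset,
      dsc 1 (h i / (R : ℂ)) * f ((h i / (R : ℂ)) / (‖h i / (R : ℂ)‖ : ℂ)) := by
  classical
  have h1 : ∀ i, dsc 1 (h i / (R : ℂ)) * f ((h i / (R : ℂ)) / (‖h i / (R : ℂ)‖ : ℂ)) =
      if ‖h i‖ ≤ R then f (h i / (‖h i‖ : ℂ)) else 0 := by
    intro i
    rw [div_div_norm _ hR]
    split_ifs with hi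
    · rw [dsc_of_le (by rw [norm_div_real _ hR, div_le_iff₀ hR, one_mul]; exact hi), one_mul]
    · rw [dsc_of_lt (by rw [norm_div_real _ hR, lt_div_iff₀ hR, one_mul]; exact not_le.1 hi),
        zero_mul]
  simp only [h1]
  rw [← Finset.sum_filter]
  unfold dirSum
  have h2 : {i | ‖h i‖ ≤ R} =
      (((hf.2 S).toFinset.filter fun i => ‖h i‖ ≤ R : Finset ι) : Set ι) := by
    ext i
    simp only [Set.mem_ofPred_eq, Finset.coe_filter, Set.Finite.mem_toFinset]
    constructor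
    · exact fun hi => ⟨hi.trans hS, hi⟩
    · exact fun hi => hi.2
  rw [h2, finsum_mem_coe_finset]

theorem equi_of_leb (hf : LocFin h) (hL : LebLim h) : Equi h := by
  intro f hfc
  have hpi := Real.pi_pos
  obtain ⟨M, hM'⟩ := (isCompact_closedBall (0:ℂ) 1).exists_bound_of_continuousOn
    hfc.continuousOn
  have hM : ∀ v : ℂ, |f (v / (‖v‖ : ℂ))| ≤ M := fun v => hM' _ (by
    rw [mem_closedBall_zero_iff]; exact norm_dir_le v)
  have hM0 : 0 ≤ M := (abs_nonneg _).trans (hM 0)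
  have hrv := rv_of_leb hf hL
  set c : ℝ := Real.circleAverage f 0 1 with hc
  rw [Metric.tendsto_atTop]
  intro η hη
  -- choose `ε`
  have hε0 : 0 < min (1/2) (η / (8 * (M + 1))) := by positivity
  set ε : ℝ := min (1/2) (η / (8 * (M + 1))) with hε
  have hε1 : ε ≤ 1/2 := min_le_left _ _
  have hε2 : 8 * (M + 1) * ε ≤ η := by
    have : ε ≤ η / (8 * (M + 1)) := min_le_right _ _
    rw [le_div_iff₀ (by positivity)] at this
    linarith
  set δ : ℝ := M * (ε ^ 2 + (1 + ε) ^ 2 - 1) with hδ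
  have hδ1 : δ < η / 2 := by
    have h1 : ε ^ 2 + (1 + ε) ^ 2 - 1 ≤ 3 * ε := by nlinarith
    have h2 : δ ≤ M * (3 * ε) := mul_le_mul_of_nonneg_left h1 hM0
    nlinarith
  -- the integral
  have hint : |Real.pi⁻¹ * (∫ z, angTest f ε z) - c| ≤ δ := by
    have hmeas : Measurable (fun z : ℂ => f (z / (‖z‖ : ℂ))) := by
      have : Measurable (fun z : ℂ => z / (‖z‖ : ℂ)) := by fun_prop
      exact hfc.measurable.comp this
    have hI1 : Integrable (fun z => dsc 1 z * f (z / (‖z‖ : ℂ))) := by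
      refine Integrable.mul_bdd (c := M) (integrable_closedBall_one 1) hmeas.aestronglyMeasurable ?_
      exact Filter.Eventually.of_forall fun z => hM z
    have hI2 : Integrable (angTest f ε) :=
      (continuous_angTest hfc hε0).integrable_of_hasCompactSupport (hasCompactSupport_angTest hε0)
    have hI3 : ∫ z, dsc 1 z * f (z / (‖z‖ : ℂ)) = Real.pi * c := by
      have h1 := integral_disc f zero_le_one
      rw [one_pow, mul_one] at h1
      rw [← h1, ← integral_indicator Metric.isClosed_closedBall.measurableSet]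
      refine integral_congr_ae (Filter.Eventually.of_forall fun z => ?_)
      simp only [dsc, Set.indicator]
      split_ifs <;> simp
    have hI4 : Integrable (fun z => M * (dsc ε z + dsc (1 + ε) z - dsc 1 z)) :=
      ((((integrable_closedBall_one ε).add (integrable_closedBall_one (1 + ε))).sub
        (integrable_closedBall_one 1)).const_mul M)
    have hI5 : ∫ z, M * (dsc ε z + dsc (1 + ε) z - dsc 1 z) = Real.pi * δ := by
      have hi1 : Integrable (dsc ε) := integrable_closedBall_one ε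
      have hi2 : Integrable (dsc (1 + ε)) := integrable_closedBall_one (1 + ε)
      have hi3 : Integrable (dsc 1) := integrable_closedBall_one 1
      have e1 : ∫ z, dsc ε z = Real.pi * ε ^ 2 := integral_closedBall_one hε0.le
      have e2 : ∫ z, dsc (1 + ε) z = Real.pi * (1 + ε) ^ 2 :=
        integral_closedBall_one (by linarith)
      have e3 : ∫ z, dsc 1 z = Real.pi * 1 ^ 2 := integral_closedBall_one zero_le_one
      have e4 : ∫ z, (dsc ε z + dsc (1 + ε) z - dsc 1 z) =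
          (∫ z, dsc ε z) + (∫ z, dsc (1 + ε) z) - ∫ z, dsc 1 z := by
        rw [← integral_add hi1 hi2]
        exact integral_sub (hi1.add hi2) hi3
      rw [integral_const_mul, e4, e1, e2, e3, hδ]
      ring
    have h1 : |(∫ z, dsc 1 z * f (z / (‖z‖ : ℂ))) - ∫ z, angTest f ε z| ≤ Real.pi * δ := by
      rw [← integral_sub hI1 hI2, ← hI5]
      refine (abs_integral_le_integral_abs).trans ?_
      exact integral_mono (hI1.sub hI2).abs hI4
        (fun z => abs_dsc_sub_angTest_le hM hε0 (by linarith) z)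
    rw [hI3] at h1
    have h2 : Real.pi⁻¹ * (∫ z, angTest f ε z) - c =
        -(Real.pi⁻¹ * (Real.pi * c - ∫ z, angTest f ε z)) := by
      field_simp
      ring
    rw [h2, abs_neg, abs_mul, abs_of_pos (inv_pos.2 hpi), inv_mul_le_iff₀ hpi]
    exact h1
  -- the sums
  have hsum : ∀ R : ℝ, 0 < R → |dirSum h f R / N h R - (∑ᶠ i, angTest f ε (h i / (R : ℂ))) / N h R| ≤
      M * (N h (ε * R) / N h R + N h ((1 + ε) * R) / N h R - N h (1 * R) / N h R) := by
    intro R hR
    have hle : R ≤ (1 + ε) * R := by nlinarith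
    have e1 := dirSum_eq hf f hR hle
    have e2 : ∑ᶠ i, angTest f ε (h i / (R : ℂ)) =
        ∑ i ∈ (hf.2 ((1 + ε) * R)).toFinset, angTest f ε (h i / (R : ℂ)) := by
      refine finsum_eq_sum_of_support_subset _ (fun i hi => ?_)
      rw [Set.Finite.coe_toFinset, Set.mem_ofPred_eq]
      rw [Function.mem_support] at hi
      by_contra hn
      rw [not_le] at hn
      apply hi
      apply angTest_eq_zero hε0
      rw [norm_div_real _ hR, le_div_iff₀ hR]
      exact hn.le
    have e3 : |dirSum h f R - ∑ᶠ i, angTest f ε (h i / (R : ℂ))| ≤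
        M * (N h (ε * R) + N h ((1 + ε) * R) - N h (1 * R)) := by
      rw [e1, e2, ← Finset.sum_sub_distrib]
      refine (Finset.abs_sum_le_sum_abs _ _).trans ?_
      refine (Finset.sum_le_sum fun i _ =>
        abs_dsc_sub_angTest_le hM hε0 (by linarith) (h i / (R : ℂ))).trans ?_
      rw [← Finset.mul_sum, Finset.sum_sub_distrib, Finset.sum_add_distrib,
        sum_dsc hf hR (show ε * R ≤ (1 + ε) * R by nlinarith), sum_dsc hf hR le_rfl,
        sum_dsc hf hR (show 1 * R ≤ (1 + ε) * R by linarith)]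
    rw [← sub_div, abs_div, abs_of_nonneg (N_nonneg h R), ← add_div, ← sub_div, ← mul_div_assoc]
    exact div_le_div_of_nonneg_right e3 (N_nonneg h R)
  have hlim1 : Tendsto (fun R : ℝ =>
      M * (N h (ε * R) / N h R + N h ((1 + ε) * R) / N h R - N h (1 * R) / N h R)) atTop (𝓝 δ) := by
    have := (((hrv ε hε0).add (hrv (1 + ε) (by linarith))).sub (hrv 1 one_pos)).const_mul M
    rw [hδ]
    simpa only [one_pow] using this
  have hlim2 := hL (angTest f ε) (continuous_angTest hfc hε0) (hasCompactSupport_angTest hε0)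
  set κ : ℝ := (η / 2 - δ) / 2 with hκ
  have hκ0 : 0 < κ := by rw [hκ]; linarith
  have ev1 := hlim1.eventually_lt_const (show δ < δ + κ by linarith)
  have ev2 := (Metric.tendsto_atTop.1 hlim2) κ hκ0
  obtain ⟨R2, hR2⟩ := ev2
  obtain ⟨R1, hR1⟩ := (ev1.and (eventually_gt_atTop 0)).exists_forall_of_atTop
  refine ⟨max R1 R2, fun R hR => ?_⟩
  obtain ⟨a1, a2⟩ := hR1 R ((le_max_left _ _).trans hR)
  have a3 := hR2 R ((le_max_right _ _).trans hR)
  have a4 := hsum R a2
  rw [Real.dist_eq] at a3 ⊢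
  have t1 : dirSum h f R / N h R - c =
      (dirSum h f R / N h R - (∑ᶠ i, angTest f ε (h i / (R : ℂ))) / N h R) +
      (((∑ᶠ i, angTest f ε (h i / (R : ℂ))) / N h R - Real.pi⁻¹ * ∫ z, angTest f ε z) +
      (Real.pi⁻¹ * (∫ z, angTest f ε z) - c)) := by ring
  rw [t1]
  calc _ ≤ |dirSum h f R / N h R - (∑ᶠ i, angTest f ε (h i / (R : ℂ))) / N h R| +
        |((∑ᶠ i, angTest f ε (h i / (R : ℂ))) / N h R - Real.pi⁻¹ * ∫ z, angTest f ε z) +
      (Real.pi⁻¹ * (∫ z, angTest f ε z) - c)| := abs_add_le _ _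
    _ ≤ |dirSum h f R / N h R - (∑ᶠ i, angTest f ε (h i / (R : ℂ))) / N h R| +
        (|(∑ᶠ i, angTest f ε (h i / (R : ℂ))) / N h R - Real.pi⁻¹ * ∫ z, angTest f ε z| +
      |Real.pi⁻¹ * (∫ z, angTest f ε z) - c|) := by gcongr; exact abs_add_le _ _
    _ < (δ + κ) + (κ + δ) := by
      have := a4.trans_lt a1
      linarith
    _ < η := by
      rw [hκ]
      linarith

end SAD
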