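import Pool.Agent.Lib.SAD.GBasic
import Pool.Agent.Lib.SAD.LebOut

/-!
# From the Gaussian averages to the vague limit

PLAN.  See the second half of the plan in `Count.lean`: let `g` be continuous with compact support,
`g' v = (g v + g (-v))/2`, and let `f z = exp ‖z‖ * g' (√z)` for any square root: `f` is well defined,
continuous (e.g. `v ↦ v²` is a closed surjective map, hence a quotient map), bounded (compact
support), and `f (v²) = exp (‖v‖²) g' v`.  By the symmetry `hs`,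
`∑ᶠ g (h i / R) = ∑ᶠ g' (h i / R) = G h R * L h f R`, so (hypothesis `hL`)
`(∑ᶠ g (h i / R)) / G h R → π⁻¹ ∫ g' = π⁻¹ ∫ g`.
`N h R / G h R → 1`: squeeze the indicator of the unit disc between
`max 0 (min 1 ((1-‖v‖)/ε))` and `max 0 (min 1 ((1+ε-‖v‖)/ε))` (areas of discs).
-/

open Filter Topology MeasureTheory Set
open scoped MatrixGroups

namespace SAD

variable {ι : Type*} {h : ι → ℂ}

namespace CountLebAux

lemma isQuotientMap_sq : IsQuotientMap (fun v : ℂ => v ^ 2) := by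
  have hc : Continuous (fun v : ℂ => v ^ 2) := by fun_prop
  have hp : IsProperMap (fun v : ℂ => v ^ 2) := by
    rw [isProperMap_iff_tendsto_cocompact]
    refine ⟨hc, ?_⟩
    rw [← Metric.cobounded_eq_cocompact]
    exact tendsto_pow_cobounded_cobounded two_ne_zero
  exact hp.isClosedMap.isQuotientMap hc
    (fun x => IsAlgClosed.exists_pow_nat_eq x two_pos)

/-- A square root. -/
noncomputable def sr (z : ℂ) : ℂ := Classical.choose (IsAlgClosed.exists_pow_nat_eq z two_pos)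

lemma sr_sq (z : ℂ) : sr z ^ 2 = z :=
  Classical.choose_spec (IsAlgClosed.exists_pow_nat_eq z two_pos)

lemma sr_eq (v : ℂ) : sr (v ^ 2) = v ∨ sr (v ^ 2) = -v := by
  have := sr_sq (v ^ 2)
  exact sq_eq_sq_iff_eq_or_eq_neg.mp this

/-- The even part. -/
noncomputable def ev (g : ℂ → ℝ) (v : ℂ) : ℝ := (g v + g (-v)) / 2

lemma ev_neg (g : ℂ → ℝ) (v : ℂ) : ev g (-v) = ev g v := by
  unfold ev
  rw [neg_neg, add_comm]

lemma ev_sr (g : ℂ → ℝ) (v : ℂ) : ev g (sr (v ^ 2)) = ev g v := by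
  rcases sr_eq v with h | h
  · rw [h]
  · rw [h, ev_neg]

/-- The test function in the variable `v²`. -/
noncomputable def tf (g : ℂ → ℝ) (z : ℂ) : ℝ := Real.exp ‖z‖ * ev g (sr z)

lemma tf_sq (g : ℂ → ℝ) (v : ℂ) : tf g (v ^ 2) = Real.exp (‖v‖ ^ 2) * ev g v := by
  unfold tf
  rw [ev_sr, norm_pow]

lemma continuous_tf {g : ℂ → ℝ} (hg : Continuous g) : Continuous (tf g) := by
  rw [isQuotientMap_sq.continuous_iff]
  have : (tf g ∘ fun v : ℂ => v ^ 2) = fun v => Real.exp (‖v‖ ^ 2) * ev g v := by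
    funext v
    exact tf_sq g v
  rw [this]
  unfold ev
  fun_prop

lemma exists_radius {g : ℂ → ℝ} (hs : HasCompactSupport g) :
    ∃ ρ : ℝ, 0 ≤ ρ ∧ ∀ v : ℂ, ρ < ‖v‖ → g v = 0 := by
  obtain ⟨ρ, hρ⟩ := hs.isCompact.isBounded.subset_closedBall (0 : ℂ)
  refine ⟨max ρ 0, le_max_right _ _, fun v hv => ?_⟩
  by_contra hne
  have h1 : v ∈ tsupport g := subset_tsupport g hne
  have h2 := hρ h1
  rw [mem_closedBall_zero_iff] at h2
  have := le_max_left ρ 0
  linarith

lemma bdd_tf {g : ℂ → ℝ} (hg : Continuous g) (hs : HasCompactSupport g) :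
    ∃ M : ℝ, ∀ z, |tf g z| ≤ M := by
  obtain ⟨ρ, hρ0, hρ⟩ := exists_radius hs
  obtain ⟨C, hC⟩ := hs.exists_bound_of_continuous hg
  have hC0 : 0 ≤ C := (norm_nonneg _).trans (hC 0)
  refine ⟨Real.exp (ρ ^ 2) * C, fun z => ?_⟩
  unfold tf
  rw [abs_mul, abs_of_pos (Real.exp_pos _)]
  have hn : ‖z‖ = ‖sr z‖ ^ 2 := by rw [← norm_pow, sr_sq]
  by_cases hz : ‖sr z‖ ≤ ρ
  · gcongr
    · rw [hn]
      gcongr
    · unfold ev
      rw [abs_div, abs_two]
      have h1 := hC (sr z)
      have h2 := hC (-sr z)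
      rw [Real.norm_eq_abs] at h1 h2
      have h3 := abs_add_le (g (sr z)) (g (-sr z))
      linarith
  · push Not at hz
    have h1 : g (sr z) = 0 := hρ _ hz
    have h2 : g (-sr z) = 0 := hρ _ (by rwa [norm_neg])
    have : ev g (sr z) = 0 := by unfold ev; rw [h1, h2]; norm_num
    rw [this, abs_zero, mul_zero]
    positivity

lemma finite_supp (hf : LocFin h) {g : ℂ → ℝ} (hs : HasCompactSupport g) {R : ℝ} (hR : 0 < R) :
    (Function.support fun i => g (h i / (R : ℂ))).Finite := by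
  obtain ⟨ρ, hρ0, hρ⟩ := exists_radius hs
  refine (hf.2 (ρ * R)).subset fun i hi => ?_
  rw [Function.mem_support] at hi
  show ‖h i‖ ≤ ρ * R
  by_contra hn
  push Not at hn
  apply hi
  apply hρ
  rw [norm_div_real _ hR, lt_div_iff₀ hR]
  exact hn

lemma finsum_ev (hf : LocFin h) (hs : ∃ σ : Equiv.Perm ι, ∀ i, h (σ i) = -h i) {g : ℂ → ℝ}
    (hgs : HasCompactSupport g) {R : ℝ} (hR : 0 < R) :
    ∑ᶠ i, ev g (h i / (R : ℂ)) = ∑ᶠ i, g (h i / (R : ℂ)) := by
  obtain ⟨σ, hσ⟩ := hs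
  have h1 : (Function.support fun i => g (h i / (R : ℂ))).Finite := finite_supp hf hgs hR
  have h3 : ∀ i, g (-(h i / (R : ℂ))) = (fun j => g (h j / (R : ℂ))) (σ i) := by
    intro i
    simp only
    rw [hσ i, neg_div]
  have h2 : (Function.support fun i => g (-(h i / (R : ℂ)))).Finite := by
    have : (Function.support fun i => g (-(h i / (R : ℂ))))
        = σ ⁻¹' (Function.support fun i => g (h i / (R : ℂ))) := by
      ext i
      simp only [Function.mem_support, Set.mem_preimage, h3]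
    rw [this]
    exact h1.preimage σ.injective.injOn
  have e1 : (fun i => ev g (h i / (R : ℂ)))
      = fun i => (2 : ℝ)⁻¹ * (g (h i / (R : ℂ)) + g (-(h i / (R : ℂ)))) := by
    funext i
    unfold ev
    ring
  rw [e1, ← mul_finsum, finsum_add_distrib h1 h2]
  · have e2 : ∑ᶠ i, g (-(h i / (R : ℂ))) = ∑ᶠ i, g (h i / (R : ℂ)) := by
      rw [finsum_congr h3]
      exact finsum_comp_equiv σ (f := fun j => g (h j / (R : ℂ)))
    rw [e2]
    ring

lemma integral_ev {g : ℂ → ℝ} (hg : Continuous g) (hgs : HasCompactSupport g) :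
    ∫ v, ev g v = ∫ v, g v := by
  have h1 : Integrable g := hg.integrable_of_hasCompactSupport hgs
  have h2 : Integrable (fun v => g (-v)) := h1.comp_neg
  have e1 : (fun v => ev g v) = fun v => (g v + g (-v)) / 2 := rfl
  rw [e1, integral_div, integral_add h1 h2, integral_neg_eq_self]
  ring

lemma L_tf (hf : LocFin h) (hs : ∃ σ : Equiv.Perm ι, ∀ i, h (σ i) = -h i) {g : ℂ → ℝ}
    (hgs : HasCompactSupport g) {R : ℝ} (hR : 0 < R) :
    L h (tf g) R = (∑ᶠ i, g (h i / (R : ℂ))) / G h R := by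
  unfold L
  congr 1
  rw [← finsum_ev hf hs hgs hR]
  have e1 : ∀ i, Real.exp (-(‖h i‖ / R) ^ 2) * tf g ((h i / (R : ℂ)) ^ 2)
      = ev g (h i / (R : ℂ)) := by
    intro i
    rw [tf_sq, norm_div_real _ hR, ← mul_assoc, ← Real.exp_add]
    simp
  rw [tsum_congr e1]
  apply tsum_eq_finsum
  obtain ⟨σ, hσ⟩ := hs
  have h1 : (Function.support fun i => g (h i / (R : ℂ))).Finite := finite_supp hf hgs hR
  have h2 : (Function.support fun i => g (-(h i / (R : ℂ)))).Finite := by
    have : (Function.support fun i => g (-(h i / (R : ℂ))))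
        = σ ⁻¹' (Function.support fun i => g (h i / (R : ℂ))) := by
      ext i
      simp only [Function.mem_support, Set.mem_preimage, hσ, neg_div]
    rw [this]
    exact h1.preimage σ.injective.injOn
  refine (h1.union h2).subset fun i hi => ?_
  by_contra hn
  rw [Set.mem_union, not_or, Function.mem_support, Function.mem_support, not_not, not_not] at hn
  apply hi
  show ev g (h i / (R : ℂ)) = 0
  unfold ev
  rw [hn.1, hn.2]
  norm_num

lemma tendsto_S (hg : GReg h) (hs : ∃ σ : Equiv.Perm ι, ∀ i, h (σ i) = -h i)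
    (hL : ∀ f : ℂ → ℝ, Continuous f → (∃ M : ℝ, ∀ z, |f z| ≤ M) →
      Tendsto (fun R => L h f R) atTop
        (𝓝 (Real.pi⁻¹ * ∫ v : ℂ, Real.exp (-‖v‖ ^ 2) * f (v ^ 2))))
    {g : ℂ → ℝ} (hgc : Continuous g) (hgs : HasCompactSupport g) :
    Tendsto (fun R : ℝ => (∑ᶠ i, g (h i / (R : ℂ))) / G h R) atTop
      (𝓝 (Real.pi⁻¹ * ∫ z, g z)) := by
  have h1 := hL (tf g) (continuous_tf hgc) (bdd_tf hgc hgs)
  have e1 : (fun v : ℂ => Real.exp (-‖v‖ ^ 2) * tf g (v ^ 2)) = ev g := by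
    funext v
    rw [tf_sq, ← mul_assoc, ← Real.exp_add]
    simp
  rw [e1, integral_ev hgc hgs] at h1
  refine h1.congr' ?_
  filter_upwards [eventually_gt_atTop 0] with R hR
  exact L_tf hg.locFin hs hgs hR

lemma N_div_G (hg : GReg h)
    (hS : ∀ g : ℂ → ℝ, Continuous g → HasCompactSupport g →
      Tendsto (fun R : ℝ => (∑ᶠ i, g (h i / (R : ℂ))) / G h R) atTop
        (𝓝 (Real.pi⁻¹ * ∫ z, g z))) :
    Tendsto (fun R : ℝ => N h R / G h R) atTop (𝓝 1) := by
  have hf := hg.locFin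
  rw [tendsto_order]
  have up : ∀ ε : ℝ, 0 < ε → ∀ c : ℝ, (1 + ε) ^ 2 < c → ∀ᶠ R in atTop, N h R / G h R < c := by
    intro ε hε c hc
    have h1 := hS (cut 1 ε) (continuous_cut _ _) (hasCompactSupport_cut hε)
    have h2 : Real.pi⁻¹ * ∫ z, cut 1 ε z < c := by
      have h3 := integral_cut_le (ρ := 1) hε (by linarith)
      calc Real.pi⁻¹ * ∫ z, cut 1 ε z ≤ Real.pi⁻¹ * (Real.pi * (1 + ε) ^ 2) := by
            gcongr
        _ = (1 + ε) ^ 2 := by
            rw [← mul_assoc, inv_mul_cancel₀ Real.pi_ne_zero, one_mul]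
        _ < c := hc
    filter_upwards [h1.eventually (gt_mem_nhds h2), eventually_gt_atTop 0] with R hR hR0
    refine lt_of_le_of_lt ?_ hR
    have hG := hg.G_pos hR0
    gcongr
    unfold N
    refine ncard_le_finsum (fun i => cut_nonneg _ _ _)
      (finite_supp hf (hasCompactSupport_cut hε) hR0) (fun i hi => ?_)
    rw [cut_eq_one hε]
    rw [norm_div_real _ hR0, div_le_one hR0]
    exact hi
  have lo : ∀ ε : ℝ, 0 < ε → ε < 1 → ∀ c : ℝ, c < (1 - ε) ^ 2 →
      ∀ᶠ R in atTop, c < N h R / G h R := by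
    intro ε hε hε1 c hc
    have h1 := hS (cut (1 - ε) ε) (continuous_cut _ _) (hasCompactSupport_cut hε)
    have h2 : c < Real.pi⁻¹ * ∫ z, cut (1 - ε) ε z := by
      have h3 := le_integral_cut (ρ := 1 - ε) hε (by linarith)
      calc c < (1 - ε) ^ 2 := hc
        _ = Real.pi⁻¹ * (Real.pi * (1 - ε) ^ 2) := by
            rw [← mul_assoc, inv_mul_cancel₀ Real.pi_ne_zero, one_mul]
        _ ≤ Real.pi⁻¹ * ∫ z, cut (1 - ε) ε z := by gcongr
    filter_upwards [h1.eventually (lt_mem_nhds h2), eventually_gt_atTop 0] with R hR hR0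
    refine lt_of_lt_of_le hR ?_
    have hG := hg.G_pos hR0
    gcongr
    unfold N
    refine finsum_le_ncard (hf.2 R) (fun i => cut_le_one _ _ _) (fun i hi => ?_)
    apply cut_eq_zero hε
    rw [norm_div_real _ hR0, le_div_iff₀ hR0]
    have : R < ‖h i‖ := by
      simpa using hi
    linarith
  constructor
  · intro c hc
    by_cases hc0 : c < 0
    · exact lo (1 / 2) (by norm_num) (by norm_num) c (by norm_num; linarith)
    · push Not at hc0
      refine lo ((1 - c) / 4) (by linarith) (by linarith) c ?_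
      nlinarith
  · intro c hc
    refine up (min 1 ((c - 1) / 4)) (lt_min one_pos (by linarith)) c ?_
    have h1 := min_le_left 1 ((c - 1) / 4)
    have h2 := min_le_right 1 ((c - 1) / 4)
    have h3 : 0 < min 1 ((c - 1) / 4) := lt_min one_pos (by linarith)
    nlinarith

end CountLebAux

open CountLebAux in
theorem leb_of_tendsto_L (hg : GReg h) (hs : ∃ σ : Equiv.Perm ι, ∀ i, h (σ i) = -h i)
    (hL : ∀ f : ℂ → ℝ, Continuous f → (∃ M : ℝ, ∀ z, |f z| ≤ M) →
      Tendsto (fun R => L h f R) atTop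
        (𝓝 (Real.pi⁻¹ * ∫ v : ℂ, Real.exp (-‖v‖ ^ 2) * f (v ^ 2)))) : LebLim h := by
  intro g hgc hgs
  have hS : ∀ g : ℂ → ℝ, Continuous g → HasCompactSupport g →
      Tendsto (fun R : ℝ => (∑ᶠ i, g (h i / (R : ℂ))) / G h R) atTop
        (𝓝 (Real.pi⁻¹ * ∫ z, g z)) := fun g h1 h2 => tendsto_S hg hs hL h1 h2
  have h1 := hS g hgc hgs
  have h2 := N_div_G hg hS
  have h3 := h1.div h2 one_ne_zero
  rw [div_one] at h3
  refine h3.congr' ?_
  filter_upwards [eventually_gt_atTop 0] with R hR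
  have hG := hg.G_pos hR
  simp only [Pi.div_apply]
  rw [div_div_div_cancel_right₀ hG.ne']

end SAD
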