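import Pool.Agent.Lib.SAD.Polar

/-!
# Equidistribution of directions and regular variation of `N` give the vague limit

PLAN.  Let `g` be continuous with support in the ball of radius `M`.  `g` is uniformly continuous;
given `ε > 0` choose `n` with `|g (r u) - g (r' u)| ≤ ε` for unit `u` and `0 ≤ r ≤ r' ≤ r + 1/n`.
For `v` with `(j-1)/n < ‖v‖ ≤ j/n` put `G v = g ((j/n) (v/‖v‖))`, `1 ≤ j ≤ J := n M + 1`.  Then
`|g v - G v| ≤ ε` for `0 < ‖v‖ ≤ J/n` and `g v = 0` for `‖v‖ > J/n`.  So, writing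
`ψ_j u = g ((j/n) u)`,
`|∑ g (h i / R) - ∑_{j ≤ J} (dirSum h ψ_j (j R/n) - dirSum h ψ_j ((j-1) R/n))| ≤ ε N h (J R/n)`.
By `Equi h` (composed with `R ↦ j R/n`) and `RV h`,
`dirSum h ψ_j (j R/n) / N h R → (j/n)² circleAverage ψ_j` and
`dirSum h ψ_j ((j-1) R/n) / N h R → ((j-1)/n)² circleAverage ψ_j` (`j = 1`: the second sum is empty
since `h i ≠ 0`).  The same decomposition for Lebesgue measure, with `integral_disc`:
`|∫ g - ∑_j π ((j/n)² - ((j-1)/n)²) circleAverage ψ_j| ≤ ε π (J/n)²`.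
Let `R → ∞`, then `ε → 0`.
-/

open Filter Topology MeasureTheory Set
open scoped MatrixGroups

namespace SAD

variable {ι : Type*} {h : ι → ℂ}

namespace LebInAux

theorem dirSum_eq (hf : LocFin h) (f : ℂ → ℝ) (R : ℝ) :
    dirSum h f R = ∑ i ∈ (hf.2 R).toFinset, f (h i / (‖h i‖ : ℂ)) := by
  unfold dirSum
  exact finsum_mem_eq_finite_toFinset_sum _ (hf.2 R)

theorem N_eq (hf : LocFin h) (R : ℝ) : N h R = ((hf.2 R).toFinset.card : ℝ) := by
  unfold N
  rw [Set.ncard_eq_toFinset_card _ (hf.2 R)]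

theorem mem_fs (hf : LocFin h) {R : ℝ} {i : ι} : i ∈ (hf.2 R).toFinset ↔ ‖h i‖ ≤ R := by
  rw [Set.Finite.mem_toFinset]
  rfl

theorem sub_fs (hf : LocFin h) {R S : ℝ} (hRS : R ≤ S) :
    (hf.2 R).toFinset ⊆ (hf.2 S).toFinset := fun _ hi =>
  (mem_fs hf).2 (((mem_fs hf).1 hi).trans hRS)

/-- The increments of two sums. -/
theorem inc_le {F G : ι → ℝ} {S T : Finset ι} (hST : S ⊆ T) {ε : ℝ}
    (hFG : ∀ i ∈ T, i ∉ S → |F i - G i| ≤ ε) :
    |(∑ i ∈ T, F i - ∑ i ∈ S, F i) - (∑ i ∈ T, G i - ∑ i ∈ S, G i)| ≤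
      ε * ((T.card : ℝ) - S.card) := by
  classical
  have e1 : (∑ i ∈ T, F i - ∑ i ∈ S, F i) - (∑ i ∈ T, G i - ∑ i ∈ S, G i) =
      ∑ i ∈ T \ S, (F i - G i) := by
    rw [Finset.sum_sub_distrib, ← Finset.sum_sdiff hST (f := F), ← Finset.sum_sdiff hST (f := G)]
    ring
  rw [e1]
  refine (Finset.abs_sum_le_sum_abs _ _).trans ?_
  refine (Finset.sum_le_card_nsmul _ _ ε fun i hi => ?_).trans (le_of_eq ?_)
  · have := Finset.mem_sdiff.1 hi
    exact hFG i this.1 this.2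
  · rw [Finset.card_sdiff_of_subset hST, nsmul_eq_mul, Nat.cast_sub (Finset.card_le_card hST)]
    ring

theorem dist_polar {v : ℂ} (hv : v ≠ 0) (t : ℝ) :
    dist v ((t : ℂ) * (v / (‖v‖ : ℂ))) = |‖v‖ - t| := by
  have hn : (‖v‖ : ℂ) ≠ 0 := by exact_mod_cast norm_ne_zero_iff.2 hv
  rw [dist_eq_norm]
  have e : v - (t : ℂ) * (v / (‖v‖ : ℂ)) = ((‖v‖ - t : ℝ) : ℂ) * (v / (‖v‖ : ℂ)) := by
    push_cast
    field_simp
  rw [e, norm_mul, Complex.norm_real, norm_div, Complex.norm_real, norm_norm,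
    div_self (norm_ne_zero_iff.2 hv), mul_one, Real.norm_eq_abs]

theorem dir_div {v : ℂ} {R : ℝ} (hR : 0 < R) :
    v / (R : ℂ) / (‖v / (R : ℂ)‖ : ℂ) = v / (‖v‖ : ℂ) := by
  have hR' : (R : ℂ) ≠ 0 := by exact_mod_cast hR.ne'
  rw [norm_div, Complex.norm_real, Real.norm_eq_abs, abs_of_pos hR]
  push_cast
  rw [div_div_div_cancel_right₀ hR']

theorem norm_div_real {v : ℂ} {R : ℝ} (hR : 0 < R) : ‖v / (R : ℂ)‖ = ‖v‖ / R := by
  rw [norm_div, Complex.norm_real, Real.norm_eq_abs, abs_of_pos hR]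

/-- The modulus of continuity in the radius. -/
theorem modulus {g : ℂ → ℝ} {δ ε : ℝ} (hg : ∀ x y, dist x y < δ → |g x - g y| ≤ ε) {v : ℂ}
    (hv : v ≠ 0) {a b : ℝ} (h1 : a < ‖v‖) (h2 : ‖v‖ ≤ b) (h3 : b - a < δ) :
    |g v - g ((b : ℂ) * (v / (‖v‖ : ℂ)))| ≤ ε := by
  apply hg
  rw [dist_polar hv, abs_sub_comm, abs_of_nonneg (by linarith)]
  linarith

theorem int_inc_le {F G : ℂ → ℝ} {a b : ℝ} (ha : 0 ≤ a) (hab : a ≤ b) {ε : ℝ}
    (hF : IntegrableOn F (Metric.closedBall 0 b)) (hG : IntegrableOn G (Metric.closedBall 0 b))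
    (hFG : ∀ z : ℂ, a < ‖z‖ → ‖z‖ ≤ b → |F z - G z| ≤ ε) :
    |((∫ z in Metric.closedBall 0 b, F z) - ∫ z in Metric.closedBall 0 a, F z) -
      ((∫ z in Metric.closedBall 0 b, G z) - ∫ z in Metric.closedBall 0 a, G z)| ≤
      ε * (Real.pi * (b ^ 2 - a ^ 2)) := by
  have hb : 0 ≤ b := ha.trans hab
  have hsub : Metric.closedBall (0 : ℂ) a ⊆ Metric.closedBall 0 b :=
    Metric.closedBall_subset_closedBall hab
  have hmeas : MeasurableSet (Metric.closedBall (0 : ℂ) a) :=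
    Metric.isClosed_closedBall.measurableSet
  rw [← setIntegral_sdiff hmeas hF hsub, ← setIntegral_sdiff hmeas hG hsub,
    ← integral_sub (hF.mono_set sdiff_subset) (hG.mono_set sdiff_subset)]
  have hvol : ∀ r : ℝ, 0 ≤ r → (volume : Measure ℂ).real (Metric.closedBall 0 r) =
      Real.pi * r ^ 2 := by
    intro r hr
    rw [Measure.real, Complex.volume_closedBall]
    rw [ENNReal.toReal_mul, ENNReal.toReal_pow, ENNReal.toReal_ofReal hr]
    simp only [ENNReal.coe_toReal, NNReal.coe_real_pi]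
    ring
  have hfin : (volume : Measure ℂ) (Metric.closedBall 0 b) ≠ ⊤ :=
    (isCompact_closedBall (0 : ℂ) b).measure_lt_top.ne
  have h1 : (volume : Measure ℂ) (Metric.closedBall 0 b \ Metric.closedBall 0 a) < ⊤ :=
    lt_of_le_of_lt (measure_mono sdiff_subset) (lt_top_iff_ne_top.2 hfin)
  have h2 := norm_setIntegral_le_of_norm_le_const (f := fun z => F z - G z) (C := ε) h1 ?_
  · rw [measureReal_sdiff hsub hmeas, hvol b hb, hvol a ha, ← mul_sub, Real.norm_eq_abs] at h2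
    exact h2
  · intro z hz
    rw [Set.mem_sdiff, mem_closedBall_zero_iff, mem_closedBall_zero_iff, not_le] at hz
    rw [Real.norm_eq_abs]
    exact hFG z hz.2 hz.1

end LebInAux

open LebInAux in
theorem leb_of_equi_rv (hf : LocFin h) (h1 : Equi h) (h2 : RV h) : LebLim h := by
  intro g hgc hgs
  have hpi := Real.pi_pos
  -- the support
  obtain ⟨M, hM1, hM⟩ : ∃ M : ℕ, 1 ≤ M ∧ ∀ v, (M : ℝ) < ‖v‖ → g v = 0 := by
    obtain ⟨r, hr⟩ := hgs.isCompact.isBounded.subset_closedBall 0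
    refine ⟨⌈r⌉₊ + 1, by omega, fun v hv => ?_⟩
    by_contra hne
    have h3 := hr (subset_tsupport g hne)
    rw [mem_closedBall_zero_iff] at h3
    have h4 := Nat.le_ceil r
    push_cast at hv
    linarith
  have hMr : (1 : ℝ) ≤ M := by exact_mod_cast hM1
  -- the bound
  obtain ⟨K, hK⟩ : ∃ K, ∀ v, |g v| ≤ K := by
    obtain ⟨K, hK⟩ := hgs.exists_bound_of_continuous hgc
    exact ⟨K, fun v => by simpa using hK v⟩
  have hNpos : ∀ᶠ R in atTop, 0 < N h R := by
    have h3 := h2 1 one_pos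
    have h4 : ∀ᶠ R in atTop, (0 : ℝ) < N h (1 * R) / N h R :=
      h3.eventually (lt_mem_nhds (by norm_num))
    refine h4.mono fun R hR => ?_
    rcases (N_nonneg h R).lt_or_eq with h5 | h5
    · exact h5
    · rw [← h5, div_zero] at hR
      exact absurd hR (lt_irrefl _)
  rw [Metric.tendsto_atTop']
  intro ε' hε'
  obtain ⟨ε, hε, hεε'⟩ : ∃ ε : ℝ, 0 < ε ∧ ε * (2 * (M : ℝ) ^ 2 + 2) < ε' :=
    ⟨ε' / (2 * (2 * (M : ℝ) ^ 2 + 2)), by positivity, by
      have h3 : (0 : ℝ) < 2 * (M : ℝ) ^ 2 + 2 := by positivity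
      rw [div_mul_eq_mul_div, div_lt_iff₀ (by positivity)]
      nlinarith⟩
  obtain ⟨δ, hδ, hgδ⟩ : ∃ δ : ℝ, 0 < δ ∧ ∀ x y, dist x y < δ → |g x - g y| ≤ ε := by
    have huc : UniformContinuous g := hgs.uniformContinuous_of_continuous hgc
    obtain ⟨δ, hδ, h3⟩ := Metric.uniformContinuous_iff.1 huc ε hε
    exact ⟨δ, hδ, fun x y hxy => by
      have := (h3 hxy).le
      rwa [Real.dist_eq] at this⟩
  obtain ⟨n, hn⟩ : ∃ n : ℕ, 1 / ((n : ℝ) + 1) < δ := exists_nat_one_div_lt hδ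
  obtain ⟨t, ht⟩ : ∃ t : ℕ → ℝ, ∀ j, t j = (j : ℝ) / ((n : ℝ) + 1) := ⟨_, fun _ => rfl⟩
  obtain ⟨J, hJ⟩ : ∃ J : ℕ, J = M * (n + 1) := ⟨_, rfl⟩
  have hn0 : (0 : ℝ) < (n : ℝ) + 1 := by positivity
  have ht0 : t 0 = 0 := by rw [ht]; simp
  have htJ : t J = M := by
    rw [ht, hJ]
    push_cast
    field_simp
  have htn : ∀ j, 0 ≤ t j := fun j => by rw [ht]; positivity
  have hts : ∀ j, t (j + 1) - t j < δ := fun j => by
    rw [ht, ht]
    push_cast
    rw [← sub_div, add_sub_cancel_left]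
    exact hn
  have htl : ∀ j, t j ≤ t (j + 1) := fun j => by
    rw [ht, ht]
    push_cast
    gcongr
    linarith
  -- the angular functions
  obtain ⟨ψ, hψ⟩ : ∃ ψ : ℕ → ℂ → ℝ, ∀ j u, ψ j u = g ((t (j + 1) : ℂ) * u) := ⟨_, fun _ _ => rfl⟩
  have hψc : ∀ j, Continuous (ψ j) := by
    intro j
    have : ψ j = fun u => g ((t (j + 1) : ℂ) * u) := funext (hψ j)
    rw [this]
    exact hgc.comp (continuous_const.mul continuous_id)
  -- the limit of the sums
  obtain ⟨L, hL⟩ : ∃ L : ℝ, L = ∑ j ∈ Finset.range J,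
      (t (j + 1) ^ 2 - t j ^ 2) * Real.circleAverage (ψ j) 0 1 := ⟨_, rfl⟩
  have hdir : ∀ (f : ℂ → ℝ), Continuous f → ∀ l : ℝ, 0 ≤ l →
      Tendsto (fun R : ℝ => dirSum h f (l * R) / N h R) atTop
        (𝓝 (l ^ 2 * Real.circleAverage f 0 1)) := by
    intro f hfc l hl
    rcases hl.lt_or_eq with hl | hl
    · have h3 := (h1 f hfc).comp (tendsto_id.const_mul_atTop hl)
      have h4 := (h2 l hl).mul h3
      refine h4.congr' ?_
      have h5 : ∀ᶠ R in atTop, 0 < N h (l * R) :=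
        (tendsto_id.const_mul_atTop hl).eventually hNpos
      filter_upwards [h5] with R hR
      show N h (l * R) / N h R * (dirSum h f (l * R) / N h (l * R)) = dirSum h f (l * R) / N h R
      field_simp
    · have h3 : (fun R : ℝ => dirSum h f (l * R) / N h R) = fun _ => 0 := by
        funext R
        rw [← hl, zero_mul, dirSum_eq hf]
        have : (hf.2 0).toFinset = ∅ := by
          refine Finset.eq_empty_of_forall_notMem fun i hi => ?_
          exact hf.1 i (norm_le_zero_iff.1 ((mem_fs hf).1 hi))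
        rw [this, Finset.sum_empty, zero_div]
      rw [h3, ← hl]
      simp
  have hlim : Tendsto (fun R : ℝ => (∑ j ∈ Finset.range J,
      (dirSum h (ψ j) (t (j + 1) * R) - dirSum h (ψ j) (t j * R))) / N h R) atTop (𝓝 L) := by
    have h3 : ∀ j ∈ Finset.range J, Tendsto (fun R : ℝ =>
        dirSum h (ψ j) (t (j + 1) * R) / N h R - dirSum h (ψ j) (t j * R) / N h R) atTop
        (𝓝 ((t (j + 1) ^ 2 - t j ^ 2) * Real.circleAverage (ψ j) 0 1)) := by
      intro j _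
      rw [sub_mul]
      exact (hdir _ (hψc j) _ (htn _)).sub (hdir _ (hψc j) _ (htn _))
    have h4 := tendsto_finsetSum _ h3
    rw [hL]
    refine h4.congr fun R => ?_
    rw [Finset.sum_div]
    exact Finset.sum_congr rfl fun j _ => by rw [sub_div]
  -- the difference of the sums
  have hdiff : ∀ R : ℝ, 0 < R → |(∑ᶠ i, g (h i / (R : ℂ))) - ∑ j ∈ Finset.range J,
      (dirSum h (ψ j) (t (j + 1) * R) - dirSum h (ψ j) (t j * R))| ≤ ε * N h (M * R) := by
    intro R hR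
    have hRc : (R : ℂ) ≠ 0 := by exact_mod_cast hR.ne'
    obtain ⟨S, hS⟩ : ∃ S : ℕ → Finset ι, ∀ j, S j = (hf.2 (t j * R)).toFinset :=
      ⟨_, fun _ => rfl⟩
    have e1 : (∑ᶠ i, g (h i / (R : ℂ))) = ∑ i ∈ S J, g (h i / (R : ℂ)) := by
      refine finsum_eq_sum_of_support_subset _ fun i hi => ?_
      rw [Finset.mem_coe, hS, mem_fs hf, htJ]
      by_contra hc
      refine hi (hM _ ?_)
      rw [norm_div_real hR, lt_div_iff₀ hR]
      exact not_le.1 hc
    have e2 : S 0 = ∅ := by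
      refine Finset.eq_empty_of_forall_notMem fun i hi => ?_
      rw [hS, mem_fs hf, ht0, zero_mul] at hi
      exact hf.1 i (norm_le_zero_iff.1 hi)
    have e3 : ∑ i ∈ S J, g (h i / (R : ℂ)) = ∑ j ∈ Finset.range J,
        (∑ i ∈ S (j + 1), g (h i / (R : ℂ)) - ∑ i ∈ S j, g (h i / (R : ℂ))) := by
      rw [Finset.sum_range_sub (fun j => ∑ i ∈ S j, g (h i / (R : ℂ))), e2, Finset.sum_empty,
        sub_zero]
    rw [e1, e3, ← Finset.sum_sub_distrib]
    refine (Finset.abs_sum_le_sum_abs _ _).trans ?_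
    have e4 : ∀ j ∈ Finset.range J,
        |(∑ i ∈ S (j + 1), g (h i / (R : ℂ)) - ∑ i ∈ S j, g (h i / (R : ℂ))) -
          (dirSum h (ψ j) (t (j + 1) * R) - dirSum h (ψ j) (t j * R))| ≤
        ε * (((S (j + 1)).card : ℝ) - (S j).card) := by
      intro j _
      rw [dirSum_eq hf, dirSum_eq hf, ← hS, ← hS]
      refine inc_le ?_ fun i hi hi' => ?_
      · rw [hS, hS]
        exact sub_fs hf (mul_le_mul_of_nonneg_right (htl j) hR.le)
      · rw [hS, mem_fs hf] at hi hi'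
        have hv : h i / (R : ℂ) ≠ 0 := div_ne_zero (hf.1 i) hRc
        have e5 := modulus (g := g) hgδ hv (a := t j) (b := t (j + 1))
          (by
            rw [norm_div_real hR, lt_div_iff₀ hR]
            exact not_le.1 hi')
          (by
            rw [norm_div_real hR, div_le_iff₀ hR]
            exact hi)
          (hts j)
        rw [dir_div hR] at e5
        rw [hψ]
        exact e5
    refine (Finset.sum_le_sum e4).trans ?_
    rw [← Finset.mul_sum, Finset.sum_range_sub (fun j => ((S j).card : ℝ)), e2, N_eq hf, ← htJ,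
      ← hS]
    simp
  -- the difference of the integrals
  have hint : |L - Real.pi⁻¹ * ∫ z, g z| ≤ ε * (M : ℝ) ^ 2 := by
    have e1 : (∫ z, g z) = ∫ z in Metric.closedBall (0 : ℂ) (t J), g z := by
      refine (setIntegral_eq_integral_of_forall_compl_eq_zero fun z hz => ?_).symm
      rw [mem_closedBall_zero_iff, not_le, htJ] at hz
      exact hM z hz
    have e2 : (∫ z in Metric.closedBall (0 : ℂ) (t 0), g z) = 0 := by
      rw [ht0, Metric.closedBall_zero]
      simp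
    have e3 : (∫ z, g z) = ∑ j ∈ Finset.range J,
        ((∫ z in Metric.closedBall (0 : ℂ) (t (j + 1)), g z) -
          ∫ z in Metric.closedBall (0 : ℂ) (t j), g z) := by
      rw [Finset.sum_range_sub (fun j => ∫ z in Metric.closedBall (0 : ℂ) (t j), g z), e2,
        sub_zero, e1]
    have e4 : Real.pi * L = ∑ j ∈ Finset.range J,
        ((∫ z in Metric.closedBall (0 : ℂ) (t (j + 1)), ψ j (z / (‖z‖ : ℂ))) -
          ∫ z in Metric.closedBall (0 : ℂ) (t j), ψ j (z / (‖z‖ : ℂ))) := by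
      rw [hL, Finset.mul_sum]
      refine Finset.sum_congr rfl fun j _ => ?_
      rw [integral_disc _ (htn _), integral_disc _ (htn _)]
      ring
    have e5 : ∀ j ∈ Finset.range J,
        |((∫ z in Metric.closedBall (0 : ℂ) (t (j + 1)), g z) -
            ∫ z in Metric.closedBall (0 : ℂ) (t j), g z) -
          ((∫ z in Metric.closedBall (0 : ℂ) (t (j + 1)), ψ j (z / (‖z‖ : ℂ))) -
            ∫ z in Metric.closedBall (0 : ℂ) (t j), ψ j (z / (‖z‖ : ℂ)))| ≤
          ε * (Real.pi * (t (j + 1) ^ 2 - t j ^ 2)) := by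
      intro j _
      refine int_inc_le (htn j) (htl j) (hgc.integrable_of_hasCompactSupport hgs).integrableOn ?_
        fun z hz hz' => ?_
      · refine Measure.integrableOn_of_bounded
          (isCompact_closedBall (0 : ℂ) _).measure_lt_top.ne ?_ (M := K) ?_
        · have : Measurable fun z : ℂ => ψ j (z / (‖z‖ : ℂ)) :=
            (hψc j).measurable.comp
              (measurable_id.div (Complex.measurable_ofReal.comp measurable_norm))
          exact this.aestronglyMeasurable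
        · refine Filter.Eventually.of_forall fun z => ?_
          rw [hψ, Real.norm_eq_abs]
          exact hK _
      · have hv : z ≠ 0 := by
          intro h0
          rw [h0, norm_zero] at hz
          exact absurd hz (not_lt.2 (htn j))
        rw [hψ]
        exact modulus hgδ hv hz hz' (hts j)
    have e6 : |(∫ z, g z) - Real.pi * L| ≤ ε * (Real.pi * (M : ℝ) ^ 2) := by
      rw [e3, e4, ← Finset.sum_sub_distrib]
      refine (Finset.abs_sum_le_sum_abs _ _).trans ((Finset.sum_le_sum e5).trans (le_of_eq ?_))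
      rw [← Finset.mul_sum, ← Finset.mul_sum, Finset.sum_range_sub (fun j => t j ^ 2), ht0, htJ]
      ring
    have e7 : L - Real.pi⁻¹ * ∫ z, g z = Real.pi⁻¹ * (Real.pi * L - ∫ z, g z) := by
      field_simp
    rw [e7, abs_mul, abs_of_pos (inv_pos.2 hpi), abs_sub_comm]
    have e8 := mul_le_mul_of_nonneg_left e6 (inv_pos.2 hpi).le
    refine e8.trans (le_of_eq ?_)
    field_simp
  -- the conclusion
  have hev1 := hlim.eventually (Metric.ball_mem_nhds L hε)
  have hev2 : ∀ᶠ R in atTop, N h (M * R) / N h R < (M : ℝ) ^ 2 + 1 :=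
    (h2 M (by linarith)).eventually (gt_mem_nhds (by linarith))
  have hev := (hev1.and hev2).and (hNpos.and (eventually_gt_atTop (0 : ℝ)))
  obtain ⟨R₀, hR₀⟩ := eventually_atTop.1 hev
  refine ⟨R₀, fun R hR => ?_⟩
  obtain ⟨⟨hR1, hR2⟩, hR3, hR4⟩ := hR₀ R hR.le
  rw [Real.dist_eq] at hR1
  rw [Real.dist_eq]
  have hd := hdiff R hR4
  obtain ⟨X, hX⟩ : ∃ X : ℝ, X = ∑ᶠ i, g (h i / (R : ℂ)) := ⟨_, rfl⟩
  obtain ⟨Y, hY⟩ : ∃ Y : ℝ, Y = ∑ j ∈ Finset.range J,
      (dirSum h (ψ j) (t (j + 1) * R) - dirSum h (ψ j) (t j * R)) := ⟨_, rfl⟩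
  rw [← hX, ← hY] at hd
  rw [← hY] at hR1
  rw [← hX]
  have h3 : |X / N h R - Y / N h R| ≤ ε * ((M : ℝ) ^ 2 + 1) := by
    rw [← sub_div, abs_div, abs_of_pos hR3, div_le_iff₀ hR3]
    rw [div_lt_iff₀ hR3] at hR2
    refine hd.trans ?_
    rw [mul_assoc]
    exact mul_le_mul_of_nonneg_left hR2.le hε.le
  have h4 : X / N h R - Real.pi⁻¹ * ∫ z, g z =
      (X / N h R - Y / N h R) + (Y / N h R - L) + (L - Real.pi⁻¹ * ∫ z, g z) := by ring
  rw [h4]
  calc _ ≤ |X / N h R - Y / N h R| + |Y / N h R - L| + |L - Real.pi⁻¹ * ∫ z, g z| :=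
        (abs_add_three _ _ _)
    _ ≤ ε * ((M : ℝ) ^ 2 + 1) + ε + ε * (M : ℝ) ^ 2 :=
        add_le_add (add_le_add h3 hR1.le) hint
    _ = ε * (2 * (M : ℝ) ^ 2 + 2) := by ring
    _ < ε' := hεε'

end SAD
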