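import Pool.Agent.Lib.SAD.FinSad

/-!
# A linear lower bound for the number of saddle connections

PLAN.  `exists_in_cone`.  Fix a side `f`; let `r₀ = side (prev f)`, `l₀ = r₀ + side f` be its end points seen
from the opposite vertex `0`, `cross r₀ l₀ = area2 > 0`.  Let `0 ≤ ξ₁ < ξ₂ ≤ 1`,
`d₁ = r₀ + ξ₁ side f`, `d₂ = r₀ + ξ₂ side f`, `cross d₁ d₂ = (ξ₂ - ξ₁) area2 f > 0`.  Invariant (I) for a path
`e 0 = f, …, e n`: `cross (r j) d₁ ≥ 0`, `cross (r j) d₂ ≥ 0`, `cross d₁ (l j) ≥ 0`, `cross d₂ (l j) ≥ 0` for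
all `j ≤ n`.  Then the ray in direction `d = d₁ + d₂` crosses all the sides (`Crosses`): the sum
`cross (r j) d` is `≥ 0`, and `= 0` would force `cross (r j) d₁ = cross (r j) d₂ = 0`, so `r j = 0`
and then ... (use `cross (r j) (l j) > 0`, `cross_ends_pos` by induction, to see `r j ≠ 0`; careful with
the order of the induction: for the new side, `cross_ends_pos` needs `Crosses`, but an end point
`c = α d₁ + β d₂` is nonzero because `c` lies strictly on the far side, see below).
Claim: if (I) holds up to `n` and `c = r n + side (next (glue (e n)))` is the next apex then one of: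
 (A) `cross d₁ c > 0` and `cross c d₂ > 0`: then `v = c` gives a crossing (`exists_crossing`): write
     `c = α d₁ + β d₂` with `α, β > 0`, so `cross (r j) c = α cross (r j) d₁ + β cross (r j) d₂ > 0`;
 (B) `cross d₁ c ≤ 0`: then `cross c d₂ > 0`, and (I) holds for the extension by `prev (glue (e n))`
     with right end point `c`;
 (C) `cross c d₂ ≤ 0`: then `cross d₁ c > 0`, and (I) holds for the extension by `next (glue (e n))`.
For (B), (C): the far half plane. `Φ x = cross (r n - l n) (x - r n) = cross (r n - l n) x - cross (r n) (l n)`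
has `Φ c > 0` (area), and for `x = α d₁ + β d₂` with `α, β ≤ 0` one has
`Φ x ≤ - cross (r n) (l n) < 0` (the coefficients `cross (r n - l n) d_i` are `≥ 0` by (I)).  So `c` is not of this
form: not both `cross c d₂ ≤ 0` and `cross d₁ c ≤ 0`.
Every side with (I) has its crossing point with the ray `ℝ₊ d` within distance `B = C/(ξ₂-ξ₁)`: the side
meets the rays `ℝ₊ d₁`, `ℝ₊ d₂` in `ρ₁ d₁`, `ρ₂ d₂` and
`ρ₁ ρ₂ cross d₁ d₂ = |cross (ρ₁ d₁) (ρ₂ d₂ - ρ₁ d₁)| ≤ ρ₁ ‖d₁‖ M`, so `ρ₂ ≤ ‖d₁‖ M/cross d₁ d₂`; similarly `ρ₁`;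
the crossing point with `ℝ₊ d` is a convex combination of the two.  By `path_bounded` the path cannot be
extended for ever, so case (A) occurs, with `‖c‖ ≤ B + 2 M`.
`linear_lower`: for `n ≥ 1` the `n` intervals `[k/n, (k+1)/n]` give `n` different crossings `c` with
`c.e 0 = f` and `‖c.v‖ ≤ C' n` (different, because the open cones are disjoint).
-/

open Filter Topology MeasureTheory Set
open scoped MatrixGroups

namespace SAD

namespace TransSurf

namespace LowerAux

variable {X : TransSurf}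

lemma next_prev' {T : Type} (f : T × ZMod 3) : next (prev f) = f := by
  obtain ⟨t, i⟩ := f
  have h : i + 2 + 1 = i := by revert i; decide
  simp only [next, prev, h]

/-- The direction with parameter `ξ` along the side `f`, seen from the opposite vertex. -/
noncomputable def dd (X : TransSurf) (f : X.T × ZMod 3) (ξ : ℝ) : ℂ :=
  X.side (prev f) + (ξ : ℂ) * X.side f

lemma cross_prev (f : X.T × ZMod 3) : cross (X.side (prev f)) (X.side f) = X.area2 f := by
  rw [← area2_prev (X := X) f]
  unfold area2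
  rw [next_prev']

lemma cross_dd (f : X.T × ZMod 3) (ξ η : ℝ) :
    cross (dd X f ξ) (dd X f η) = (η - ξ) * X.area2 f := by
  rw [← cross_prev]
  unfold dd
  rw [cross_add_left, cross_add_right, cross_add_right, cross_smul_left, cross_smul_left,
    cross_smul_right, cross_smul_right, cross_self, cross_self,
    cross_swap (X.side f) (X.side (prev f))]
  ring

lemma cross_three (w v a b : ℂ) :
    cross w v * cross a b = cross w a * cross v b + cross w b * cross a v := by
  simp only [cross]; ring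

/-- The invariant (I) together with `Crosses` for the direction `d₁ + d₂`. -/
structure Inv (X : TransSurf) (d₁ d₂ : ℂ) (n : ℕ) (e : ℕ → X.T × ZMod 3) (r : ℕ → ℂ) : Prop where
  path : X.IsPath n e r
  crosses : X.Crosses n e r (d₁ + d₂)
  ineq : ∀ j ≤ n, 0 ≤ cross (r j) d₁ ∧ 0 ≤ cross (r j) d₂ ∧
    0 ≤ cross d₁ (r j + X.side (e j)) ∧ 0 ≤ cross d₂ (r j + X.side (e j))

variable {d₁ d₂ : ℂ} {n : ℕ} {e : ℕ → X.T × ZMod 3} {r : ℕ → ℂ}

lemma Inv.extend (h : Inv X d₁ d₂ n e r) {x : X.T × ZMod 3} {y : ℂ}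
    (hs : (x = next (X.glue (e n)) ∧ y = r n) ∨
      (x = prev (X.glue (e n)) ∧ y = r n + X.side (next (X.glue (e n)))))
    (h1 : 0 ≤ cross y d₁) (h2 : 0 ≤ cross y d₂) (h3 : 0 ≤ cross d₁ (y + X.side x))
    (h4 : 0 ≤ cross d₂ (y + X.side x)) (h5 : 0 < cross y (d₁ + d₂))
    (h6 : 0 < cross (d₁ + d₂) (y + X.side x)) :
    Inv X d₁ d₂ (n + 1) (fun j => if j ≤ n then e j else x) (fun j => if j ≤ n then r j else y) := by
  have hn : ¬ (n + 1 ≤ n) := by omega
  refine ⟨⟨?_, fun j hj => ?_⟩, fun j hj => ?_, fun j hj => ?_⟩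
  · simpa using h.path.start
  · rcases Nat.lt_or_ge j n with hjn | hjn
    · have e1 : j ≤ n := hjn.le
      have e2 : j + 1 ≤ n := hjn
      simp only [e1, e2, if_true]
      exact h.path.step j hjn
    · have hj' : j = n := by omega
      subst hj'
      simp only [hn, le_refl, if_true, if_false]
      exact hs
  · rcases Nat.lt_or_ge n j with hjn | hjn
    · have hj' : j = n + 1 := by omega
      subst hj'
      simp only [hn, if_false]
      exact ⟨h5, h6⟩
    · simp only [hjn, if_true]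
      exact h.crosses j hjn
  · rcases Nat.lt_or_ge n j with hjn | hjn
    · have hj' : j = n + 1 := by omega
      subst hj'
      simp only [hn, if_false]
      exact ⟨h1, h2, h3, h4⟩
    · simp only [hjn, if_true]
      exact h.ineq j hjn

/-- The next apex cannot be to the right of `d₁` and to the left of `d₂`. -/
lemma Inv.not_both (h : Inv X d₁ d₂ n e r) (hX : 0 < cross d₁ d₂)
    (h1 : cross d₁ (r n + X.side (next (X.glue (e n)))) ≤ 0)
    (h2 : cross (r n + X.side (next (X.glue (e n)))) d₂ ≤ 0) : False := by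
  obtain ⟨i1, i2, i3, i4⟩ := h.ineq n le_rfl
  have hP := cross_ends_pos h.path h.crosses (le_refl n)
  have hA := area2_pos (X := X) (X.glue (e n))
  unfold area2 at hA
  rw [X.side_glue] at hA
  set c : ℂ := r n + X.side (next (X.glue (e n))) with hc
  have hcs : X.side (next (X.glue (e n))) = c - r n := by rw [hc]; ring
  rw [hcs] at hA
  set s : ℂ := X.side (e n) with hs
  have key : cross (-s) c * cross d₁ d₂ = cross (-s) d₁ * cross c d₂ + cross (-s) d₂ * cross d₁ c :=
    cross_three _ _ _ _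
  have k1 : 0 ≤ cross (-s) d₁ := by
    have : cross (-s) d₁ = cross (r n) d₁ + cross d₁ (r n + s) := by simp only [cross]; simp; ring
    rw [this]; linarith
  have k2 : 0 ≤ cross (-s) d₂ := by
    have : cross (-s) d₂ = cross (r n) d₂ + cross d₂ (r n + s) := by simp only [cross]; simp; ring
    rw [this]; linarith
  have k3 : cross (-s) (c - r n) = cross (-s) c - cross (r n) (r n + s) := by
    simp only [cross]; simp; ring
  have k4 : 0 < cross (-s) c := by linarith
  have k5 : 0 < cross (-s) c * cross d₁ d₂ := mul_pos k4 hX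
  have k6 : cross (-s) d₁ * cross c d₂ ≤ 0 := mul_nonpos_of_nonneg_of_nonpos k1 h2
  have k7 : cross (-s) d₂ * cross d₁ c ≤ 0 := mul_nonpos_of_nonneg_of_nonpos k2 h1
  linarith

/-- Either the next apex is visible in the cone or the path can be extended. -/
lemma Inv.step (h : Inv X d₁ d₂ n e r) (hX : 0 < cross d₁ d₂) :
    (0 < cross d₁ (r n + X.side (next (X.glue (e n)))) ∧
      0 < cross (r n + X.side (next (X.glue (e n)))) d₂) ∨
    ∃ e' r', Inv X d₁ d₂ (n + 1) e' r' := by
  obtain ⟨i1, i2, i3, i4⟩ := h.ineq n le_rfl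
  obtain ⟨c1, c2⟩ := h.crosses n le_rfl
  have hnb := h.not_both hX
  have hsum := side_add (X := X) (X.glue (e n))
  rw [X.side_glue] at hsum
  set c : ℂ := r n + X.side (next (X.glue (e n))) with hc
  rcases le_or_gt (cross d₁ c) 0 with hB | hB
  · right
    have hB2 : 0 < cross c d₂ := by
      by_contra hcon
      exact hnb hB (not_lt.1 hcon)
    have hl : c + X.side (prev (X.glue (e n))) = r n + X.side (e n) := by
      rw [hc]; linear_combination hsum
    have hB' : 0 ≤ cross c d₁ := by rw [cross_swap]; linarith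
    refine ⟨_, _, h.extend (x := prev (X.glue (e n))) (y := c) (Or.inr ⟨rfl, rfl⟩) hB' hB2.le
      ?_ ?_ ?_ ?_⟩
    · rw [hl]; exact i3
    · rw [hl]; exact i4
    · rw [cross_add_right]; linarith
    · rw [hl]; exact c2
  · rcases le_or_gt (cross c d₂) 0 with hC | hC
    · right
      have hC' : 0 ≤ cross d₂ c := by rw [cross_swap]; linarith
      refine ⟨_, _, h.extend (x := next (X.glue (e n))) (y := r n) (Or.inl ⟨rfl, rfl⟩) i1 i2
        ?_ ?_ c1 ?_⟩
      · exact hB.le
      · exact hC'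
      · rw [← hc, cross_add_left]; linarith
    · exact Or.inl ⟨hB, hC⟩

/-- The crossing point of the last side with the ray is not far away. -/
lemma Inv.tau_le (h : Inv X d₁ d₂ n e r) (hX : 0 < cross d₁ d₂) {M : ℝ}
    (hM : ∀ f, ‖X.side f‖ ≤ M) :
    X.tau e r (d₁ + d₂) n ≤ ‖d₁‖ * M / cross d₁ d₂ := by
  obtain ⟨i1, i2, i3, i4⟩ := h.ineq n le_rfl
  have hQ := cross_side_pos h.crosses (le_refl n)
  unfold tau
  set s : ℂ := X.side (e n) with hs
  have a1 : cross d₁ s ≤ ‖d₁‖ * M := (le_abs_self _).trans ((abs_cross_le _ _).trans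
    (mul_le_mul_of_nonneg_left (hM _) (norm_nonneg _)))
  have b1 : 0 ≤ cross d₁ s := by
    have : cross d₁ s = cross (r n) d₁ + cross d₁ (r n + s) := by simp only [cross]; simp; ring
    rw [this]; linarith
  have b2 : cross (r n) d₂ ≤ cross d₂ s := by
    have : cross d₂ s = cross (r n) d₂ + cross d₂ (r n + s) := by simp only [cross]; simp; ring
    rw [this]; linarith
  have b3 : 0 ≤ cross d₂ s := i2.trans b2
  have key : cross (r n) s * cross d₁ d₂ = cross (r n) d₁ * cross s d₂ + cross (r n) d₂ * cross d₁ s :=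
    cross_three _ _ _ _
  have k1 : cross (r n) d₁ * cross s d₂ ≤ 0 := by
    rw [cross_swap s d₂]
    exact mul_nonpos_of_nonneg_of_nonpos i1 (by linarith)
  have k2 : cross (r n) d₂ * cross d₁ s ≤ cross d₂ s * cross d₁ s :=
    mul_le_mul_of_nonneg_right b2 b1
  have k3 : cross (d₁ + d₂) s = cross d₁ s + cross d₂ s := cross_add_left _ _ _
  rw [div_le_div_iff₀ hQ hX, k3]
  have k4 : cross d₂ s * cross d₁ s ≤ cross d₂ s * (‖d₁‖ * M) := mul_le_mul_of_nonneg_left a1 b3
  have k5 : 0 ≤ ‖d₁‖ * M * cross d₁ s := mul_nonneg (b1.trans a1) b1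
  nlinarith

lemma norm_dd_le {M : ℝ} (hM : ∀ f, ‖X.side f‖ ≤ M) (f : X.T × ZMod 3) {ξ : ℝ} (h0 : 0 ≤ ξ)
    (h1 : ξ ≤ 1) : ‖dd X f ξ‖ ≤ 2 * M := by
  unfold dd
  have h2 : ‖(ξ : ℂ) * X.side f‖ ≤ 1 * M := by
    rw [norm_mul, Complex.norm_real, Real.norm_eq_abs, abs_of_nonneg h0]
    exact mul_le_mul h1 (hM f) (norm_nonneg _) zero_le_one
  calc ‖X.side (prev f) + (ξ : ℂ) * X.side f‖ ≤ ‖X.side (prev f)‖ + ‖(ξ : ℂ) * X.side f‖ :=
        norm_add_le _ _
    _ ≤ M + 1 * M := add_le_add (hM _) h2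
    _ = 2 * M := by ring

lemma Inv.start (X : TransSurf) (f : X.T × ZMod 3) {ξ₁ ξ₂ : ℝ} (h0 : 0 ≤ ξ₁) (h1 : ξ₁ < ξ₂)
    (h2 : ξ₂ ≤ 1) : Inv X (dd X f ξ₁) (dd X f ξ₂) 0 (fun _ => f) (fun _ => X.side (prev f)) := by
  have hA := area2_pos (X := X) f
  have e0 : X.side (prev f) = dd X f 0 := by simp [dd]
  have e1 : X.side (prev f) + X.side f = dd X f 1 := by simp [dd]
  refine ⟨⟨rfl, fun j hj => absurd hj (Nat.not_lt_zero j)⟩, fun j _ => ?_, fun j _ => ?_⟩
  · show 0 < cross (X.side (prev f)) (dd X f ξ₁ + dd X f ξ₂) ∧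
      0 < cross (dd X f ξ₁ + dd X f ξ₂) (X.side (prev f) + X.side f)
    rw [e1, e0, cross_add_right, cross_add_left, cross_dd, cross_dd, cross_dd, cross_dd]
    constructor
    · nlinarith
    · nlinarith
  · show 0 ≤ cross (X.side (prev f)) (dd X f ξ₁) ∧ 0 ≤ cross (X.side (prev f)) (dd X f ξ₂) ∧
      0 ≤ cross (dd X f ξ₁) (X.side (prev f) + X.side f) ∧
      0 ≤ cross (dd X f ξ₂) (X.side (prev f) + X.side f)
    rw [e1, e0, cross_dd, cross_dd, cross_dd, cross_dd]
    refine ⟨?_, ?_, ?_, ?_⟩ <;> apply mul_nonneg _ hA.le <;> linarith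

end LowerAux

open LowerAux

theorem exists_in_cone (X : TransSurf) (f : X.T × ZMod 3) : ∃ C : ℝ, 0 < C ∧
    ∀ ξ₁ ξ₂ : ℝ, 0 ≤ ξ₁ → ξ₁ < ξ₂ → ξ₂ ≤ 1 → ∃ c : X.Crossing,
      0 < cross (X.side (prev f) + (ξ₁ : ℂ) * X.side f) c.v ∧
      0 < cross c.v (X.side (prev f) + (ξ₂ : ℂ) * X.side f) ∧
      ‖c.v‖ ≤ C / (ξ₂ - ξ₁) := by
  obtain ⟨m, M, hm, hM, hm', hM'⟩ := exists_bounds X
  refine ⟨8 * M ^ 3 / m + 2 * M, by positivity, fun ξ₁ ξ₂ h0 h1 h2 => ?_⟩
  have hA := area2_pos (X := X) f
  have hδ : 0 < ξ₂ - ξ₁ := sub_pos.2 h1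
  have hX : 0 < cross (dd X f ξ₁) (dd X f ξ₂) := by
    rw [cross_dd]; exact mul_pos hδ hA
  have hd1 := norm_dd_le hM' f h0 (h1.le.trans h2)
  have hd2 := norm_dd_le hM' f (h0.trans h1.le) h2
  have hdd : ‖dd X f ξ₁ + dd X f ξ₂‖ ≤ 4 * M := (norm_add_le _ _).trans (by linarith)
  -- the bound for the crossing points
  have hB : ∀ (n : ℕ) (e : ℕ → X.T × ZMod 3) (r : ℕ → ℂ),
      Inv X (dd X f ξ₁) (dd X f ξ₂) n e r →
      X.tau e r (dd X f ξ₁ + dd X f ξ₂) n * ‖dd X f ξ₁ + dd X f ξ₂‖ ≤ 8 * M ^ 3 / m / (ξ₂ - ξ₁) := by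
    intro n e r h
    have ht := h.tau_le hX hM'
    have ht2 : ‖dd X f ξ₁‖ * M / cross (dd X f ξ₁) (dd X f ξ₂) ≤ 2 * M * M / ((ξ₂ - ξ₁) * m) := by
      rw [cross_dd]
      apply div_le_div₀ (by positivity) (mul_le_mul_of_nonneg_right hd1 hM.le) (by positivity)
      exact mul_le_mul_of_nonneg_left (hm' f) hδ.le
    calc X.tau e r (dd X f ξ₁ + dd X f ξ₂) n * ‖dd X f ξ₁ + dd X f ξ₂‖
        ≤ 2 * M * M / ((ξ₂ - ξ₁) * m) * ‖dd X f ξ₁ + dd X f ξ₂‖ :=
          mul_le_mul_of_nonneg_right (ht.trans ht2) (norm_nonneg _)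
      _ ≤ 2 * M * M / ((ξ₂ - ξ₁) * m) * (4 * M) :=
          mul_le_mul_of_nonneg_left hdd (by positivity)
      _ = 8 * M ^ 3 / m / (ξ₂ - ξ₁) := by field_simp; ring
  by_contra hcon
  -- otherwise the path can be extended for ever
  have hall : ∀ n : ℕ, ∃ e r, Inv X (dd X f ξ₁) (dd X f ξ₂) n e r := by
    intro n
    induction n with
    | zero => exact ⟨_, _, Inv.start X f h0 h1 h2⟩
    | succ n ih =>
      obtain ⟨e, r, h⟩ := ih
      rcases h.step hX with ⟨hv1, hv2⟩ | h'
      · exfalso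
        apply hcon
        set v : ℂ := r n + X.side (next (X.glue (e n))) with hv
        have hc : X.Crosses n e r v := by
          intro j hj
          obtain ⟨i1, i2, i3, i4⟩ := h.ineq j hj
          obtain ⟨c1, c2⟩ := h.crosses j hj
          rw [cross_add_right] at c1
          rw [cross_add_left] at c2
          have k1 := cross_three (r j) v (dd X f ξ₁) (dd X f ξ₂)
          have k2 := cross_three (r j + X.side (e j)) v (dd X f ξ₁) (dd X f ξ₂)
          constructor
          · have : 0 < cross (r j) v * cross (dd X f ξ₁) (dd X f ξ₂) := by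
              rw [k1]
              rcases i1.lt_or_eq with h3 | h3
              · have := mul_pos h3 hv2
                have := mul_nonneg i2 hv1.le
                linarith
              · have h4 : 0 < cross (r j) (dd X f ξ₂) := by linarith
                have := mul_pos h4 hv1
                have := mul_nonneg i1 hv2.le
                linarith
            exact (pos_iff_pos_of_mul_pos this).2 hX
          · have : 0 < cross v (r j + X.side (e j)) * cross (dd X f ξ₁) (dd X f ξ₂) := by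
              rw [cross_swap v, neg_mul, k2, cross_swap (r j + X.side (e j)) (dd X f ξ₁),
                cross_swap (r j + X.side (e j)) (dd X f ξ₂)]
              rcases i3.lt_or_eq with h3 | h3
              · have := mul_pos h3 hv2
                have := mul_nonneg i4 hv1.le
                linarith
              · have h4 : 0 < cross (dd X f ξ₂) (r j + X.side (e j)) := by linarith
                have := mul_pos h4 hv1
                have := mul_nonneg i3 hv2.le
                linarith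
            exact (pos_iff_pos_of_mul_pos this).2 hX
        obtain ⟨c, -, hcv, -⟩ := exists_crossing h.path hv hc
        refine ⟨c, ?_, ?_, ?_⟩
        · rw [hcv]; exact hv1
        · rw [hcv]; exact hv2
        · rw [hcv]
          have ht := tau_mul h.crosses (le_refl n)
          have hs0 := sig_pos h.crosses (le_refl n)
          have hs1 := sig_lt_one h.crosses (le_refl n)
          have hb := hB n e r h
          have hQ := cross_side_pos h.crosses (le_refl n)
          have hP := cross_ends_pos h.path h.crosses (le_refl n)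
          have htau : 0 ≤ X.tau e r (dd X f ξ₁ + dd X f ξ₂) n := by
            unfold tau
            rw [cross_add_right, cross_self, zero_add] at hP
            exact (div_pos hP hQ).le
          have hv' : v = (X.tau e r (dd X f ξ₁ + dd X f ξ₂) n : ℂ) * (dd X f ξ₁ + dd X f ξ₂) +
              (X.side (next (X.glue (e n))) -
                (X.sig e r (dd X f ξ₁ + dd X f ξ₂) n : ℂ) * X.side (e n)) := by
            rw [ht, hv]; ring
          have n1 : ‖(X.tau e r (dd X f ξ₁ + dd X f ξ₂) n : ℂ) * (dd X f ξ₁ + dd X f ξ₂)‖ ≤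
              8 * M ^ 3 / m / (ξ₂ - ξ₁) := by
            rw [norm_mul, Complex.norm_real, Real.norm_eq_abs, abs_of_nonneg htau]
            exact hb
          have n2 : ‖(X.sig e r (dd X f ξ₁ + dd X f ξ₂) n : ℂ) * X.side (e n)‖ ≤ 1 * M := by
            rw [norm_mul, Complex.norm_real, Real.norm_eq_abs, abs_of_pos hs0]
            exact mul_le_mul hs1.le (hM' _) (norm_nonneg _) zero_le_one
          have n3 : 2 * M ≤ 2 * M / (ξ₂ - ξ₁) := by
            rw [le_div_iff₀ hδ]
            nlinarith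
          calc ‖v‖ ≤ 8 * M ^ 3 / m / (ξ₂ - ξ₁) + (M + 1 * M) := by
                rw [hv']
                refine (norm_add_le _ _).trans (add_le_add n1 ?_)
                exact (norm_sub_le _ _).trans (add_le_add (hM' _) n2)
            _ ≤ 8 * M ^ 3 / m / (ξ₂ - ξ₁) + 2 * M / (ξ₂ - ξ₁) := by linarith
            _ = (8 * M ^ 3 / m + 2 * M) / (ξ₂ - ξ₁) := by rw [add_div]
      · exact h'
  obtain ⟨n₀, hn₀⟩ := path_bounded X (8 * M ^ 3 / m / (ξ₂ - ξ₁))
  obtain ⟨e, r, h⟩ := hall (n₀ + 1)
  have := hn₀ (n₀ + 1) e r _ h.path h.crosses (hB _ _ _ h)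
  omega

theorem linear_lower (X : TransSurf) : ∃ c : ℝ, 0 < c ∧ ∀ᶠ R in atTop, c * R ≤ N X.hol R := by
  obtain ⟨t⟩ := X.nonempty
  set f : X.T × ZMod 3 := (t, 0) with hf
  obtain ⟨C, hC, hcone⟩ := exists_in_cone X f
  have hA := area2_pos (X := X) f
  -- `n ≤ N (C n)`
  have hN : ∀ n : ℕ, 0 < n → (n : ℝ) ≤ N X.hol (C * n) := by
    intro n hn
    have hn' : (0 : ℝ) < n := by exact_mod_cast hn
    have h1 : ∀ k : Fin n, ∃ c : X.Crossing,
        0 < cross (dd X f ((k : ℝ) / n)) c.v ∧ 0 < cross c.v (dd X f (((k : ℝ) + 1) / n)) ∧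
        ‖c.v‖ ≤ C * n := by
      intro k
      have hk : (k : ℝ) + 1 ≤ n := by exact_mod_cast k.2
      obtain ⟨c, a1, a2, a3⟩ := hcone ((k : ℝ) / n) (((k : ℝ) + 1) / n) (by positivity)
        (by gcongr; linarith) (by rw [div_le_one hn']; exact hk)
      refine ⟨c, a1, a2, a3.trans (le_of_eq ?_)⟩
      rw [← sub_div, add_sub_cancel_left, div_div_eq_mul_div, div_one]
    choose g hg1 hg2 hg3 using h1
    have hlt : ∀ i j : Fin n, i < j → g i ≠ g j := by
      intro i j hij heq
      have b1 := hg1 i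
      have b2 := hg2 i
      have b3 := hg1 j
      rw [← heq] at b3
      have hij' : (i : ℝ) + 1 ≤ j := by exact_mod_cast hij
      have key := cross_three (dd X f ((j : ℝ) / n)) (g i).v (dd X f ((i : ℝ) / n))
        (dd X f (((i : ℝ) + 1) / n))
      rw [cross_dd, cross_dd, cross_dd] at key
      have c1 : 0 < ((i : ℝ) + 1) / n - (i : ℝ) / n := by
        rw [← sub_div, add_sub_cancel_left]; positivity
      have c2 : (i : ℝ) / n - (j : ℝ) / n ≤ 0 := by
        rw [← sub_div]; apply div_nonpos_of_nonpos_of_nonneg _ hn'.le; linarith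
      have c3 : ((i : ℝ) + 1) / n - (j : ℝ) / n ≤ 0 := by
        rw [← sub_div]; apply div_nonpos_of_nonpos_of_nonneg _ hn'.le; linarith
      have k1 := mul_pos b3 (mul_pos c1 hA)
      have k2 : ((i : ℝ) / n - (j : ℝ) / n) * X.area2 f *
          cross (g i).v (dd X f (((i : ℝ) + 1) / n)) ≤ 0 :=
        mul_nonpos_of_nonpos_of_nonneg (mul_nonpos_of_nonpos_of_nonneg c2 hA.le) b2.le
      have k3 : (((i : ℝ) + 1) / n - (j : ℝ) / n) * X.area2 f *
          cross (dd X f ((i : ℝ) / n)) (g i).v ≤ 0 :=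
        mul_nonpos_of_nonpos_of_nonneg (mul_nonpos_of_nonpos_of_nonneg c3 hA.le) b1.le
      linarith
    have hinj : Function.Injective (fun k : Fin n => (Sum.inr (g k) : X.Saddle)) := by
      intro i j hij
      have hij' : g i = g j := Sum.inr_injective hij
      rcases lt_trichotomy i j with h | h | h
      · exact absurd hij' (hlt i j h)
      · exact h
      · exact absurd hij'.symm (hlt j i h)
    unfold N
    have hsub : Set.range (fun k : Fin n => (Sum.inr (g k) : X.Saddle)) ⊆
        {i | ‖X.hol i‖ ≤ C * n} := by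
      rintro _ ⟨k, rfl⟩
      exact hg3 k
    have hcard := Set.ncard_le_ncard hsub ((locFin X).2 _)
    rw [← Set.image_univ, Set.ncard_image_of_injective _ hinj, Set.ncard_univ,
      Nat.card_eq_fintype_card, Fintype.card_fin] at hcard
    exact_mod_cast hcard
  refine ⟨(2 * C)⁻¹, by positivity, ?_⟩
  filter_upwards [eventually_ge_atTop (2 * C)] with R hR
  have hR0 : 0 < R := lt_of_lt_of_le (by positivity) hR
  have h1 : 2 ≤ R / C := by rw [le_div_iff₀ hC]; exact hR
  set n : ℕ := ⌊R / C⌋₊ with hn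
  have hn1 : (n : ℝ) ≤ R / C := Nat.floor_le (by positivity)
  have hn2 : R / C < n + 1 := Nat.lt_floor_add_one _
  have hn3 : 0 < n := by
    have : (0 : ℝ) < n := by linarith
    exact_mod_cast this
  have h2 := hN n hn3
  have h3 : C * n ≤ R := by
    rw [le_div_iff₀ hC] at hn1; linarith
  have h4 := N_mono (locFin X) h3
  have h5 : (2 * C)⁻¹ * R = (R / C) / 2 := by field_simp
  rw [h5]
  linarith

end TransSurf

end SAD
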