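import Mathlib

/-!
# A Choquet-Deny type lemma on the half line

Write `E u` for the mean `(2π)⁻¹ ∫_0^{2π} u (κ θ) dθ`, `ξ = log κ`, `ρ = κ⁻¹`.

Proof.  `V x = exp x * φ (exp x)` satisfies `E [ρ V (x + ξ)] = V x`, hence (conservation law `cons`,
Fubini) `E [ρ ∫_x^{x+ξ} V]` does not depend on `x`.  As `φ` is antitone and convex,
`∫_x^{x+ξ} V ≤ φ t · t (κ - 1) - t (φ t - φ (2t)) ((1 - κ)₊)²/2` (`t = exp x`), so that
`G t = t (φ t - φ (2 t))` is bounded (`bound_G`), and by convexity it is Lipschitz in `log t`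
(`lip_G`).  A bounded uniformly continuous solution `v` of `E [ρ v (x + ξ)] = v x` is constant
(`const_of_bdd`): near a point where `v` almost equals its supremum `S`, `v` is almost `S` on the
whole window, so the conserved quantity is `S · E [ρ ξ]`; the same for the infimum, and
`E [ρ ξ] < 0`.  So `G = k` and `φ t = A + 2 k / t` (`fin`).
-/

open Filter Topology MeasureTheory Set

namespace SAD

namespace CDAux

/-- Mean over `[0, 2π]`. -/
noncomputable def mn (f : ℝ → ℝ) : ℝ := (2 * Real.pi)⁻¹ * ∫ θ in (0:ℝ)..(2 * Real.pi), f θ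

lemma tp : (0:ℝ) < 2 * Real.pi := by positivity

lemma mn_sub {f g : ℝ → ℝ} (hf : Continuous f) (hg : Continuous g) :
    mn (fun θ => f θ - g θ) = mn f - mn g := by
  unfold mn
  rw [intervalIntegral.integral_sub (hf.intervalIntegrable _ _) (hg.intervalIntegrable _ _)]
  ring

lemma mn_mul_const (f : ℝ → ℝ) (c : ℝ) : mn (fun θ => f θ * c) = mn f * c := by
  unfold mn
  rw [intervalIntegral.integral_mul_const]
  ring

lemma mn_neg (f : ℝ → ℝ) : mn (fun θ => -f θ) = -mn f := by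
  unfold mn
  rw [intervalIntegral.integral_neg]
  ring

lemma mn_mono {f g : ℝ → ℝ} (hf : Continuous f) (hg : Continuous g)
    (h : ∀ θ ∈ Icc (0:ℝ) (2 * Real.pi), f θ ≤ g θ) : mn f ≤ mn g := by
  unfold mn
  have := intervalIntegral.integral_mono_on (μ := volume) tp.le (hf.intervalIntegrable _ _)
    (hg.intervalIntegrable _ _) h
  exact mul_le_mul_of_nonneg_left this (by positivity)

lemma mn_pos {f : ℝ → ℝ} (hf : Continuous f) (h0 : ∀ θ, 0 ≤ f θ)
    (h1 : ∃ θ ∈ Ioo (0:ℝ) (2 * Real.pi), 0 < f θ) : 0 < mn f := by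
  unfold mn
  obtain ⟨θ, hθ, h2⟩ := h1
  have := intervalIntegral.integral_pos tp hf.continuousOn (fun x _ => h0 x)
    ⟨θ, Ioo_subset_Icc_self hθ, h2⟩
  positivity

lemma cont_int {ξ v : ℝ → ℝ} (hξ : Continuous ξ) (hv : Continuous v) (x : ℝ) :
    Continuous (fun θ => ∫ s in x..(x + ξ θ), v s) :=
  (intervalIntegral.continuous_primitive (fun a b => hv.intervalIntegrable a b) x).comp
    (continuous_const.add hξ)

/-- The conservation law. -/
lemma cons {ρ ξ v : ℝ → ℝ} (hρ : Continuous ρ) (hξ : Continuous ξ) (hv : Continuous v)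
    (h1 : mn ρ = 1) (hh : ∀ x, mn (fun θ => ρ θ * v (x + ξ θ)) = v x) (x y : ℝ) :
    mn (fun θ => ρ θ * ∫ s in y..(y + ξ θ), v s)
      = mn (fun θ => ρ θ * ∫ s in x..(x + ξ θ), v s) := by
  have hcy : Continuous (fun θ => ρ θ * ∫ s in y..(y + ξ θ), v s) := hρ.mul (cont_int hξ hv y)
  have hcx : Continuous (fun θ => ρ θ * ∫ s in x..(x + ξ θ), v s) := hρ.mul (cont_int hξ hv x)
  rw [← sub_eq_zero, ← mn_sub hcy hcx]
  have key : ∀ θ, ρ θ * (∫ s in y..(y + ξ θ), v s) - ρ θ * (∫ s in x..(x + ξ θ), v s)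
      = ∫ s in x..y, ρ θ * (v (s + ξ θ) - v s) := by
    intro θ
    have hi : ∀ a b, IntervalIntegrable v volume a b := fun a b => hv.intervalIntegrable a b
    have hc : Continuous (fun s => v (s + ξ θ)) := hv.comp (continuous_id.add continuous_const)
    rw [intervalIntegral.integral_const_mul, intervalIntegral.integral_sub
      (hc.intervalIntegrable _ _) (hi _ _), intervalIntegral.integral_comp_add_right,
      ← mul_sub, intervalIntegral.integral_interval_sub_interval_comm (hi _ _) (hi _ _) (hi _ _),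
      intervalIntegral.integral_symm x y, intervalIntegral.integral_symm (x + ξ θ) (y + ξ θ)]
    ring
  have e1 : (fun θ => ρ θ * (∫ s in y..(y + ξ θ), v s) - ρ θ * (∫ s in x..(x + ξ θ), v s))
      = fun θ => ∫ s in x..y, ρ θ * (v (s + ξ θ) - v s) := funext key
  rw [e1]
  unfold mn
  have hF : Continuous (Function.uncurry fun θ s : ℝ => ρ θ * (v (s + ξ θ) - v s)) := by
    unfold Function.uncurry
    fun_prop
  rw [intervalIntegral_intervalIntegral_swap, ← intervalIntegral.integral_const_mul]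
  · have e2 : ∀ s, (2 * Real.pi)⁻¹ * ∫ θ in (0:ℝ)..(2 * Real.pi), ρ θ * (v (s + ξ θ) - v s)
        = 0 := by
      intro s
      have e3 : (fun θ => ρ θ * (v (s + ξ θ) - v s))
          = fun θ => ρ θ * v (s + ξ θ) - ρ θ * v s := by
        funext θ; ring
      have e4 : mn (fun θ => ρ θ * (v (s + ξ θ) - v s)) = 0 := by
        rw [e3, mn_sub (by fun_prop) (by fun_prop), hh, mn_mul_const, h1]
        ring
      exact e4
    simp only [e2, intervalIntegral.integral_zero]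
  · have hK : IsCompact (Set.uIcc (0:ℝ) (2 * Real.pi) ×ˢ Set.uIcc x y) :=
      isCompact_uIcc.prod isCompact_uIcc
    exact (hF.continuousOn.integrableOn_compact hK).mono_set
      (Set.prod_mono Set.uIoc_subset_uIcc Set.uIoc_subset_uIcc)

lemma near {ρ ξ v : ℝ → ℝ} (hρ : Continuous ρ) (hρ0 : ∀ θ, 0 < ρ θ) (hξ : Continuous ξ)
    (h1 : mn ρ = 1) (hv : UniformContinuous v)
    (hh : ∀ x, mn (fun θ => ρ θ * v (x + ξ θ)) = v x) {S : ℝ} (hS : ∀ x, v x ≤ S)
    {ε : ℝ} (hε : 0 < ε) :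
    ∃ δ : ℝ, 0 < δ ∧ ∀ x, S - δ < v x → ∀ θ ∈ Icc (0:ℝ) (2 * Real.pi), S - ε ≤ v (x + ξ θ) := by
  have hvc := hv.continuous
  obtain ⟨η, hη, h2⟩ := Metric.uniformContinuous_iff.mp hv (ε / 2) (by linarith)
  have hξu : UniformContinuousOn ξ (Icc (0:ℝ) (2 * Real.pi)) :=
    isCompact_Icc.uniformContinuousOn_of_continuous hξ.continuousOn
  obtain ⟨r, hr, h3⟩ := Metric.uniformContinuousOn_iff.mp hξu η hη
  obtain ⟨θm, hθm, hmin⟩ := isCompact_Icc.exists_isMinOn (nonempty_Icc.mpr tp.le)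
    (hρ.continuousOn (s := Icc (0:ℝ) (2 * Real.pi)))
  have hm : 0 < ρ θm := hρ0 θm
  set l : ℝ := min (r / 2) (2 * Real.pi) with hl
  have hl0 : 0 < l := lt_min (by linarith) tp
  have hl1 : l ≤ r / 2 := min_le_left _ _
  have hl2 : l ≤ 2 * Real.pi := min_le_right _ _
  refine ⟨(2 * Real.pi)⁻¹ * (l * (ρ θm * (ε / 2))), by have := tp; positivity,
    fun x hx θ₀ hθ₀ => ?_⟩
  by_contra hcon
  push Not at hcon
  set a : ℝ := min θ₀ (2 * Real.pi - l) with ha
  have ha0 : 0 ≤ a := le_min hθ₀.1 (by linarith)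
  have ha1 : a ≤ θ₀ := min_le_left _ _
  have ha2 : a + l ≤ 2 * Real.pi := by
    have := min_le_right θ₀ (2 * Real.pi - l)
    linarith
  have ha3 : θ₀ ≤ a + l := by
    rcases min_cases θ₀ (2 * Real.pi - l) with h | h
    · rw [ha, h.1]; linarith
    · rw [ha, h.1]; linarith [hθ₀.2]
  have hD : ∀ θ ∈ Icc a (a + l), ρ θm * (ε / 2) ≤ ρ θ * (S - v (x + ξ θ)) := by
    intro θ hθ
    have hθI : θ ∈ Icc (0:ℝ) (2 * Real.pi) := ⟨ha0.trans hθ.1, hθ.2.trans ha2⟩
    have hd : dist θ θ₀ < r := by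
      rw [Real.dist_eq, abs_lt]
      constructor
      · linarith [hθ.1]
      · linarith [hθ.2]
    have hd2 := h3 θ hθI θ₀ hθ₀ hd
    have hd3 : dist (x + ξ θ) (x + ξ θ₀) < η := by
      rw [dist_add_left]; exact hd2
    have hd4 := h2 hd3
    rw [Real.dist_eq, abs_lt] at hd4
    have hmm : ρ θm ≤ ρ θ := hmin hθI
    have h5 : ε / 2 ≤ S - v (x + ξ θ) := by linarith [hd4.2]
    exact mul_le_mul hmm h5 (by linarith) (hρ0 θ).le
  have hcD : Continuous (fun θ => ρ θ * (S - v (x + ξ θ))) := by fun_prop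
  have e1 : mn (fun θ => ρ θ * (S - v (x + ξ θ))) = S - v x := by
    have e3 : (fun θ => ρ θ * (S - v (x + ξ θ))) = fun θ => ρ θ * S - ρ θ * v (x + ξ θ) := by
      funext θ; ring
    rw [e3, mn_sub (by fun_prop) (by fun_prop), hh, mn_mul_const, h1]
    ring
  have e2 : l * (ρ θm * (ε / 2)) ≤ ∫ θ in (0:ℝ)..(2 * Real.pi), ρ θ * (S - v (x + ξ θ)) := by
    calc l * (ρ θm * (ε / 2)) = ∫ _ in a..(a + l), ρ θm * (ε / 2) := by
          rw [intervalIntegral.integral_const]
          simp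
      _ ≤ ∫ θ in a..(a + l), ρ θ * (S - v (x + ξ θ)) :=
          intervalIntegral.integral_mono_on (by linarith) (continuous_const.intervalIntegrable _ _)
            (hcD.intervalIntegrable _ _) hD
      _ ≤ ∫ θ in (0:ℝ)..(2 * Real.pi), ρ θ * (S - v (x + ξ θ)) := by
          apply intervalIntegral.integral_mono_interval ha0 (by linarith) ha2
          · exact Filter.Eventually.of_forall fun θ =>
              mul_nonneg (hρ0 θ).le (sub_nonneg.mpr (hS _))
          · exact hcD.intervalIntegrable _ _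
  have e3 : (2 * Real.pi)⁻¹ * (l * (ρ θm * (ε / 2))) ≤ S - v x := by
    rw [← e1]
    unfold mn
    exact mul_le_mul_of_nonneg_left e2 (by positivity)
  linarith

lemma sup_part {ρ ξ v : ℝ → ℝ} (hρ : Continuous ρ) (hρ0 : ∀ θ, 0 < ρ θ) (hξ : Continuous ξ)
    (h1 : mn ρ = 1) (hneg : ∃ θ ∈ Icc (0:ℝ) (2 * Real.pi), ξ θ ≤ 0)
    (hpos : ∃ θ ∈ Icc (0:ℝ) (2 * Real.pi), 0 ≤ ξ θ)
    (hv : UniformContinuous v)
    (hh : ∀ x, mn (fun θ => ρ θ * v (x + ξ θ)) = v x) {S : ℝ} (hS : ∀ x, v x ≤ S)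
    (hS' : ∀ δ : ℝ, 0 < δ → ∃ x, S - δ < v x) {F : ℝ}
    (hF : ∀ x, mn (fun θ => ρ θ * ∫ s in x..(x + ξ θ), v s) = F) :
    F = S * mn (fun θ => ρ θ * ξ θ) := by
  have hvc := hv.continuous
  have hK : ∀ ε : ℝ, 0 < ε → |F - S * mn (fun θ => ρ θ * ξ θ)| ≤ ε * mn (fun θ => ρ θ * |ξ θ|) := by
    intro ε hε
    obtain ⟨δ, hδ, h2⟩ := near hρ hρ0 hξ h1 hv hh hS hε
    obtain ⟨x, hx⟩ := hS' δ hδ
    have h3 := h2 x hx
    have h4 : ∀ θ ∈ Icc (0:ℝ) (2 * Real.pi), |(∫ s in x..(x + ξ θ), v s) - S * ξ θ| ≤ ε * |ξ θ| := by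
      intro θ hθ
      have h5 : ∀ s ∈ Set.uIcc x (x + ξ θ), S - ε ≤ v s := by
        intro s hs
        have : ∃ θ' ∈ Icc (0:ℝ) (2 * Real.pi), ξ θ' = s - x := by
          obtain ⟨θs, hθs, hsg⟩ : ∃ θs ∈ Icc (0:ℝ) (2 * Real.pi), s - x ∈ Set.uIcc (ξ θs) (ξ θ) := by
            rcases le_total 0 (ξ θ) with h | h
            · obtain ⟨θn, hn, hn'⟩ := hneg
              refine ⟨θn, hn, ?_⟩
              rw [Set.uIcc_of_le (by linarith)] at hs
              rw [Set.uIcc_of_le (by linarith)]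
              exact ⟨by linarith [hs.1], by linarith [hs.2]⟩
            · obtain ⟨θn, hn, hn'⟩ := hpos
              refine ⟨θn, hn, ?_⟩
              rw [Set.uIcc_of_ge (by linarith)] at hs
              rw [Set.uIcc_of_ge (by linarith)]
              exact ⟨by linarith [hs.1], by linarith [hs.2]⟩
          obtain ⟨θ', hθ', h6⟩ := intermediate_value_uIcc (hξ.continuousOn) hsg
          exact ⟨θ', Set.uIcc_subset_Icc hθs hθ hθ', h6⟩
        obtain ⟨θ', hθ', h6⟩ := this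
        have h7 := h3 θ' hθ'
        rw [h6] at h7
        simpa using h7
      have e1 : (∫ s in x..(x + ξ θ), v s) - S * ξ θ = ∫ s in x..(x + ξ θ), (v s - S) := by
        rw [intervalIntegral.integral_sub (hvc.intervalIntegrable _ _)
          (continuous_const.intervalIntegrable _ _), intervalIntegral.integral_const]
        simp
        ring
      rw [e1]
      have h8 := intervalIntegral.norm_integral_le_of_norm_le_const (a := x) (b := x + ξ θ)
        (C := ε) (f := fun s => v s - S) (fun s hs => by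
          have h9 := h5 s (Set.uIoc_subset_uIcc hs)
          rw [Real.norm_eq_abs, abs_le]
          constructor
          · linarith
          · linarith [hS s])
      rw [Real.norm_eq_abs] at h8
      simpa using h8
    have hc1 : Continuous (fun θ => ∫ s in x..(x + ξ θ), v s) := cont_int hξ hvc x
    have e2 : F - S * mn (fun θ => ρ θ * ξ θ)
        = mn (fun θ => ρ θ * ((∫ s in x..(x + ξ θ), v s) - S * ξ θ)) := by
      have e3 : (fun θ => ρ θ * ((∫ s in x..(x + ξ θ), v s) - S * ξ θ))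
          = fun θ => ρ θ * (∫ s in x..(x + ξ θ), v s) - ρ θ * ξ θ * S := by
        funext θ; ring
      rw [e3, mn_sub (by fun_prop) (by fun_prop), hF, mn_mul_const (fun θ => ρ θ * ξ θ) S]
      ring
    rw [e2, abs_le]
    have hcA : Continuous (fun θ => ρ θ * ((∫ s in x..(x + ξ θ), v s) - S * ξ θ)) := by fun_prop
    have hcB : Continuous (fun θ => ρ θ * |ξ θ| * ε) := by fun_prop
    have e4 : mn (fun θ => ρ θ * |ξ θ| * ε) = ε * mn (fun θ => ρ θ * |ξ θ|) := by
      rw [mn_mul_const (fun θ => ρ θ * |ξ θ|) ε, mul_comm]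
    constructor
    · rw [← e4, ← mn_neg]
      refine mn_mono hcB.neg hcA fun θ hθ => ?_
      have := (abs_le.mp (h4 θ hθ)).1
      nlinarith [hρ0 θ]
    · rw [← e4]
      refine mn_mono hcA hcB fun θ hθ => ?_
      have := (abs_le.mp (h4 θ hθ)).2
      nlinarith [hρ0 θ]
  have hK0 : 0 ≤ mn (fun θ => ρ θ * |ξ θ|) := by
    have : mn (fun _ => (0:ℝ)) ≤ mn (fun θ => ρ θ * |ξ θ|) :=
      mn_mono continuous_const (by fun_prop) fun θ _ => mul_nonneg (hρ0 θ).le (abs_nonneg _)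
    have e : mn (fun _ => (0:ℝ)) = 0 := by simp [mn]
    linarith
  by_contra hne
  have hpos' : 0 < |F - S * mn (fun θ => ρ θ * ξ θ)| := abs_pos.mpr (sub_ne_zero.mpr hne)
  set D := |F - S * mn (fun θ => ρ θ * ξ θ)|
  have h5 := hK (D / (2 * (mn (fun θ => ρ θ * |ξ θ|) + 1))) (by positivity)
  have h6 : D / (2 * (mn (fun θ => ρ θ * |ξ θ|) + 1)) * mn (fun θ => ρ θ * |ξ θ|) < D := by
    rw [div_mul_eq_mul_div, div_lt_iff₀ (by positivity)]
    nlinarith
  linarith

/-- A bounded uniformly continuous solution is constant. -/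
lemma const_of_bdd {ρ ξ v : ℝ → ℝ} (hρ : Continuous ρ) (hρ0 : ∀ θ, 0 < ρ θ) (hξ : Continuous ξ)
    (h1 : mn ρ = 1) (hneg : ∃ θ ∈ Icc (0:ℝ) (2 * Real.pi), ξ θ ≤ 0)
    (hpos : ∃ θ ∈ Icc (0:ℝ) (2 * Real.pi), 0 ≤ ξ θ)
    (hL : mn (fun θ => ρ θ * ξ θ) ≠ 0) (hv : UniformContinuous v) {B : ℝ}
    (hb : ∀ x, |v x| ≤ B)
    (hh : ∀ x, mn (fun θ => ρ θ * v (x + ξ θ)) = v x) : ∃ k : ℝ, ∀ x, v x = k := by
  have hvc := hv.continuous
  have hF : ∀ x, mn (fun θ => ρ θ * ∫ s in x..(x + ξ θ), v s)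
      = mn (fun θ => ρ θ * ∫ s in (0:ℝ)..(0 + ξ θ), v s) := fun x =>
    cons hρ hξ hvc h1 hh 0 x
  have hba : BddAbove (range v) := ⟨B, by rintro _ ⟨x, rfl⟩; exact (abs_le.mp (hb x)).2⟩
  have hbb : BddBelow (range v) := ⟨-B, by rintro _ ⟨x, rfl⟩; exact (abs_le.mp (hb x)).1⟩
  have hne : (range v).Nonempty := range_nonempty v
  have s1 := sup_part hρ hρ0 hξ h1 hneg hpos hv hh (S := sSup (range v))
    (fun x => le_csSup hba (mem_range_self x))
    (fun δ hδ => by
      obtain ⟨_, ⟨x, rfl⟩, hx⟩ := exists_lt_of_lt_csSup hne (by linarith :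
        sSup (range v) - δ < sSup (range v))
      exact ⟨x, hx⟩) hF
  have hv' : UniformContinuous (fun x => -v x) := hv.neg
  have hh' : ∀ x, mn (fun θ => ρ θ * (fun x => -v x) (x + ξ θ)) = (fun x => -v x) x := by
    intro x
    have e : (fun θ => ρ θ * (fun x => -v x) (x + ξ θ)) = fun θ => -(ρ θ * v (x + ξ θ)) := by
      funext θ; ring
    rw [e, mn_neg, hh]
  have hF' : ∀ x, mn (fun θ => ρ θ * ∫ s in x..(x + ξ θ), (fun x => -v x) s)
      = -mn (fun θ => ρ θ * ∫ s in (0:ℝ)..(0 + ξ θ), v s) := by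
    intro x
    have e : (fun θ => ρ θ * ∫ s in x..(x + ξ θ), (fun x => -v x) s)
        = fun θ => -(ρ θ * ∫ s in x..(x + ξ θ), v s) := by
      funext θ
      rw [intervalIntegral.integral_neg]
      ring
    rw [e, mn_neg, hF x]
  have s2 := sup_part hρ hρ0 hξ h1 hneg hpos hv' hh' (S := -sInf (range v))
    (fun x => neg_le_neg (csInf_le hbb (mem_range_self x)))
    (fun δ hδ => by
      obtain ⟨_, ⟨x, rfl⟩, hx⟩ := exists_lt_of_csInf_lt hne (by linarith :
        sInf (range v) < sInf (range v) + δ)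
      refine ⟨x, ?_⟩
      show -sInf (range v) - δ < -v x
      linarith) hF'
  have h3 : (sSup (range v) - sInf (range v)) * mn (fun θ => ρ θ * ξ θ) = 0 := by
    rw [sub_mul]
    linarith
  have h4 : sSup (range v) = sInf (range v) := by
    rcases mul_eq_zero.mp h3 with h | h
    · linarith
    · exact absurd h hL
  refine ⟨sSup (range v), fun x => le_antisymm (le_csSup hba (mem_range_self x)) ?_⟩
  rw [h4]
  exact csInf_le hbb (mem_range_self x)


/-- The function `t φ t` in the variable `log t`. -/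
noncomputable def V (φ : ℝ → ℝ) (x : ℝ) : ℝ := Real.exp x * φ (Real.exp x)

lemma cont_V {φ : ℝ → ℝ} (hφc : ConvexOn ℝ (Ioi 0) φ) : Continuous (V φ) := by
  unfold V
  refine Real.continuous_exp.mul ?_
  exact (hφc.continuousOn isOpen_Ioi).comp_continuous Real.continuous_exp
    (fun x => Real.exp_pos x)

lemma slope_le {φ : ℝ → ℝ} (hφc : ConvexOn ℝ (Ioi 0) φ) {s t : ℝ} (hs : 0 < s) (hst : s ≤ t) :
    φ t + (t - s) * ((φ t - φ (2 * t)) / t) ≤ φ s := by
  rcases hst.eq_or_lt with h | h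
  · rw [h]; simp
  · have ht : 0 < t := hs.trans h
    have h1 := hφc.slope_mono_adjacent (x := s) (y := t) (z := 2 * t) hs
      (by show 0 < 2 * t; linarith) h (by linarith)
    have e : 2 * t - t = t := by ring
    rw [e, div_le_iff₀ (by linarith)] at h1
    have e2 : (φ t - φ (2 * t)) / t = -((φ (2 * t) - φ t) / t) := by
      rw [← neg_div]; ring
    rw [e2]
    nlinarith

lemma int_V_le {φ : ℝ → ℝ} (hφa : AntitoneOn φ (Ioi 0)) (hφc : ConvexOn ℝ (Ioi 0) φ) (x z : ℝ) :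
    ∫ s in x..(x + z), V φ s ≤ φ (Real.exp x) * (Real.exp x * (Real.exp z - 1))
      - (φ (Real.exp x) - φ (2 * Real.exp x)) * Real.exp x * ((max (1 - Real.exp z) 0) ^ 2 / 2) := by
  set t := Real.exp x with ht
  have ht0 : 0 < t := Real.exp_pos x
  have hVc := cont_V hφc
  rcases le_total 0 z with hz | hz
  · have h1 : 1 ≤ Real.exp z := Real.one_le_exp hz
    have h2 : max (1 - Real.exp z) 0 = 0 := max_eq_right (by linarith)
    rw [h2]
    have h3 : ∫ s in x..(x + z), V φ s ≤ ∫ s in x..(x + z), Real.exp s * φ t := by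
      refine intervalIntegral.integral_mono_on (μ := volume) (by linarith)
        (hVc.intervalIntegrable _ _)
        ((Real.continuous_exp.mul continuous_const).intervalIntegrable _ _) fun s hs => ?_
      unfold V
      have : φ (Real.exp s) ≤ φ t :=
        hφa ht0 (Real.exp_pos s) (Real.exp_le_exp.mpr hs.1)
      exact mul_le_mul_of_nonneg_left this (Real.exp_pos s).le
    rw [intervalIntegral.integral_mul_const, integral_exp, Real.exp_add, ← ht] at h3
    calc _ ≤ _ := h3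
      _ = _ := by ring
  · have h1 : Real.exp z ≤ 1 := Real.exp_le_one_iff.mpr hz
    have h2 : max (1 - Real.exp z) 0 = 1 - Real.exp z := max_eq_left (by linarith)
    rw [h2]
    set g : ℝ := (φ t - φ (2 * t)) / t with hg
    have h3 : ∫ s in (x + z)..x, Real.exp s * (φ t + (t - Real.exp s) * g)
        ≤ ∫ s in (x + z)..x, V φ s := by
      refine intervalIntegral.integral_mono_on (μ := volume) (by linarith) ?_
        (hVc.intervalIntegrable _ _) fun s hs => ?_
      · apply Continuous.intervalIntegrable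
        fun_prop
      · unfold V
        have : φ t + (t - Real.exp s) * g ≤ φ (Real.exp s) :=
          slope_le hφc (Real.exp_pos s) (Real.exp_le_exp.mpr hs.2)
        exact mul_le_mul_of_nonneg_left this (Real.exp_pos s).le
    have h4 : ∫ s in (x + z)..x, Real.exp s * (φ t + (t - Real.exp s) * g)
        = ((φ t + t * g) * Real.exp x - g * Real.exp x ^ 2 / 2)
          - ((φ t + t * g) * Real.exp (x + z) - g * Real.exp (x + z) ^ 2 / 2) := by
      refine intervalIntegral.integral_eq_sub_of_hasDerivAt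
        (f := fun s => (φ t + t * g) * Real.exp s - g * Real.exp s ^ 2 / 2) (fun s _ => ?_) ?_
      · have h5 := Real.hasDerivAt_exp s
        have h6 : HasDerivAt (fun s => (φ t + t * g) * Real.exp s - g * Real.exp s ^ 2 / 2)
            ((φ t + t * g) * Real.exp s - g * (((2:ℕ):ℝ) * Real.exp s ^ (2 - 1) * Real.exp s) / 2)
            s := (h5.const_mul (φ t + t * g)).sub (((h5.pow 2).const_mul g).div_const 2)
        refine h6.congr_deriv ?_
        push_cast
        ring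
      · apply Continuous.intervalIntegrable
        fun_prop
    rw [h4, Real.exp_add, ← ht] at h3
    rw [intervalIntegral.integral_symm]
    have h5 : g * t = φ t - φ (2 * t) := by rw [hg]; field_simp
    rw [← h5]
    nlinarith

lemma bound_G {κ : ℝ → ℝ} (hκ : Continuous κ) (hκp : ∀ θ, 0 < κ θ)
    (hκ1 : mn (fun θ => (κ θ)⁻¹) = 1)
    (hlt : ∃ θ ∈ Ioo 0 (2 * Real.pi), κ θ < 1)
    {φ : ℝ → ℝ} (hφa : AntitoneOn φ (Ioi 0))
    (hφc : ConvexOn ℝ (Ioi 0) φ)
    (hV : ∀ x, mn (fun θ => (κ θ)⁻¹ * V φ (x + Real.log (κ θ))) = V φ x) :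
    ∃ B : ℝ, 0 ≤ B ∧ ∀ t : ℝ, 0 < t → t * (φ t - φ (2 * t)) ≤ B := by
  have hρ : Continuous (fun θ => (κ θ)⁻¹) := hκ.inv₀ fun θ => (hκp θ).ne'
  have hξ : Continuous (fun θ => Real.log (κ θ)) := hκ.log fun θ => (hκp θ).ne'
  have hVc := cont_V hφc
  have hcons := cons hρ hξ hVc hκ1 hV 0
  set Fc := mn (fun θ => (κ θ)⁻¹ * ∫ s in (0:ℝ)..(0 + Real.log (κ θ)), V φ s) with hFc
  set C : ℝ := mn (fun θ => (κ θ)⁻¹ * ((max (1 - κ θ) 0) ^ 2 / 2)) with hC
  have hC0 : 0 < C := by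
    refine mn_pos (by fun_prop) (fun θ => ?_) ?_
    · have := hκp θ
      positivity
    · obtain ⟨θ, hθ, h1⟩ := hlt
      refine ⟨θ, hθ, ?_⟩
      have h2 := hκp θ
      have h3 : max (1 - κ θ) 0 = 1 - κ θ := max_eq_left (by linarith)
      rw [h3]
      have : 0 < 1 - κ θ := by linarith
      positivity
  have main : ∀ t : ℝ, 0 < t → C * (t * (φ t - φ (2 * t))) ≤ -Fc := by
    intro t ht
    have e0 : Real.exp (Real.log t) = t := Real.exp_log ht
    have h1 := hcons (Real.log t)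
    have h2 : mn (fun θ => (κ θ)⁻¹ * ∫ s in (Real.log t)..(Real.log t + Real.log (κ θ)), V φ s)
        ≤ mn (fun θ => (1 - (κ θ)⁻¹) * (φ t * t)
          - (κ θ)⁻¹ * ((max (1 - κ θ) 0) ^ 2 / 2) * (t * (φ t - φ (2 * t)))) := by
      refine mn_mono (hρ.mul (cont_int hξ hVc _)) (by fun_prop) fun θ _ => ?_
      have h3 := int_V_le hφa hφc (Real.log t) (Real.log (κ θ))
      rw [e0, Real.exp_log (hκp θ)] at h3
      have h4 := mul_le_mul_of_nonneg_left h3 (inv_pos.mpr (hκp θ)).le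
      refine h4.trans_eq ?_
      have h5 : (κ θ)⁻¹ * κ θ = 1 := inv_mul_cancel₀ (hκp θ).ne'
      linear_combination (φ t * t) * h5
    rw [h1, mn_sub (by fun_prop) (by fun_prop), mn_mul_const (fun θ => 1 - (κ θ)⁻¹),
      mn_mul_const (fun θ => (κ θ)⁻¹ * ((max (1 - κ θ) 0) ^ 2 / 2)),
      mn_sub continuous_const hρ, hκ1] at h2
    have e1 : mn (fun _ => (1:ℝ)) = 1 := by
      unfold mn
      rw [intervalIntegral.integral_const]
      simp
      field_simp
    rw [e1] at h2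
    linarith
  refine ⟨-Fc / C, ?_, fun t ht => ?_⟩
  · have h1 := main 1 one_pos
    have h2 : φ (2 * 1) ≤ φ 1 := hφa (by simp) (by simp) (by norm_num)
    apply div_nonneg _ hC0.le
    have : 0 ≤ C * (1 * (φ 1 - φ (2 * 1))) := by
      apply mul_nonneg hC0.le
      linarith
    linarith
  · rw [le_div_iff₀ hC0]
    have := main t ht
    linarith

lemma lip_G {φ : ℝ → ℝ} (hφa : AntitoneOn φ (Ioi 0)) (hφc : ConvexOn ℝ (Ioi 0) φ) {B : ℝ}
    (hB : ∀ t : ℝ, 0 < t → t * (φ t - φ (2 * t)) ≤ B) {s t : ℝ} (hs : 0 < s) (hst : s ≤ t) :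
    |s * (φ s - φ (2 * s)) - t * (φ t - φ (2 * t))| ≤ 4 * B * (t / s - 1) := by
  have ht : 0 < t := hs.trans_le hst
  have hB0 : 0 ≤ B := by
    have h1 := hB 1 one_pos
    have h2 : φ (2 * 1) ≤ φ 1 := hφa (by simp) (by simp) (by norm_num)
    linarith
  -- increments
  have inc : ∀ a b : ℝ, 0 < a → a ≤ b → φ a - φ b ≤ 4 * B * (b - a) / a ^ 2 := by
    intro a b ha hab
    rcases hab.eq_or_lt with h | h
    · rw [h]; simp
    · have h1 := hφc.slope_mono_adjacent (x := a / 2) (y := a) (z := b)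
        (by show 0 < a / 2; linarith) (by show 0 < b; linarith) (by linarith) h
      have h2 := hB (a / 2) (by linarith)
      have e1 : 2 * (a / 2) = a := by ring
      rw [e1] at h2
      have e2 : a - a / 2 = a / 2 := by ring
      rw [e2, le_div_iff₀ (by linarith)] at h1
      have h3 : φ (a / 2) - φ a ≤ 2 * B / a := by
        rw [le_div_iff₀ ha]; linarith
      have h4 : -(4 * B / a ^ 2) ≤ (φ a - φ (a / 2)) / (a / 2) := by
        rw [le_div_iff₀ (by linarith)]
        have : -(4 * B / a ^ 2) * (a / 2) = -(2 * B / a) := by field_simp; ring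
        rw [this]; linarith
      have h5 : -(4 * B / a ^ 2) * (b - a) ≤ φ b - φ a :=
        (mul_le_mul_of_nonneg_right h4 (by linarith)).trans h1
      have e3 : 4 * B * (b - a) / a ^ 2 = 4 * B / a ^ 2 * (b - a) := by ring
      rw [e3]; linarith
  have i1 := inc s t hs hst
  have i2 := inc (2 * s) (2 * t) (by linarith) (by linarith)
  have m1 : φ t ≤ φ s := hφa hs ht hst
  have m2 : φ (2 * t) ≤ φ (2 * s) :=
    hφa (by show 0 < 2 * s; linarith) (by show 0 < 2 * t; linarith) (by linarith)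
  have m3 : φ (2 * t) ≤ φ t := hφa ht (by show 0 < 2 * t; linarith) (by linarith)
  have b1 := hB t ht
  have j1 : s * (φ s - φ t) ≤ 4 * B * (t / s - 1) := by
    calc s * (φ s - φ t) ≤ s * (4 * B * (t - s) / s ^ 2) := by gcongr
      _ = 4 * B * (t / s - 1) := by field_simp
  have j2 : s * (φ (2 * s) - φ (2 * t)) ≤ 2 * B * (t / s - 1) := by
    calc s * (φ (2 * s) - φ (2 * t)) ≤ s * (4 * B * (2 * t - 2 * s) / (2 * s) ^ 2) := by gcongr
      _ = 2 * B * (t / s - 1) := by field_simp; ring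
  have j3 : (t - s) * (φ t - φ (2 * t)) ≤ B * (t / s - 1) := by
    have e : (t - s) * (φ t - φ (2 * t)) = (t * (φ t - φ (2 * t))) * (1 - s / t) := by
      field_simp
    rw [e]
    have h1 : 1 - s / t ≤ t / s - 1 := by
      have : 1 - s / t = (t - s) / t := by field_simp
      rw [this]
      have : t / s - 1 = (t - s) / s := by field_simp
      rw [this]
      apply div_le_div_of_nonneg_left (by linarith) hs hst
    have h2 : 0 ≤ 1 - s / t := by
      rw [sub_nonneg, div_le_one ht]; exact hst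
    exact mul_le_mul b1 h1 h2 hB0
  have hr : 0 ≤ t / s - 1 := by
    rw [sub_nonneg, one_le_div hs]; exact hst
  have n1 : 0 ≤ s * (φ s - φ t) := mul_nonneg hs.le (by linarith)
  have n2 : 0 ≤ s * (φ (2 * s) - φ (2 * t)) := mul_nonneg hs.le (by linarith)
  have n3 : 0 ≤ (t - s) * (φ t - φ (2 * t)) := mul_nonneg (by linarith) (by linarith)
  have e : s * (φ s - φ (2 * s)) - t * (φ t - φ (2 * t))
      = s * (φ s - φ t) - s * (φ (2 * s) - φ (2 * t)) - (t - s) * (φ t - φ (2 * t)) := by ring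
  rw [e, abs_le]
  constructor
  · nlinarith [mul_nonneg hB0 hr]
  · linarith

/-- `t (φ t - φ (2 t))` in the variable `log t`. -/
noncomputable def Gf (φ : ℝ → ℝ) (x : ℝ) : ℝ :=
  Real.exp x * (φ (Real.exp x) - φ (2 * Real.exp x))

lemma Gf_eq (φ : ℝ → ℝ) (x : ℝ) : Gf φ x = V φ x - V φ (x + Real.log 2) * 2⁻¹ := by
  unfold Gf V
  rw [Real.exp_add, Real.exp_log two_pos, mul_comm (Real.exp x) 2]
  ring

lemma unif_G {φ : ℝ → ℝ} (hφa : AntitoneOn φ (Ioi 0)) (hφc : ConvexOn ℝ (Ioi 0) φ) {B : ℝ}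
    (hB : ∀ t : ℝ, 0 < t → t * (φ t - φ (2 * t)) ≤ B) : UniformContinuous (Gf φ) := by
  have hB0 : 0 ≤ B := by
    have h1 := hB 1 one_pos
    have h2 : φ (2 * 1) ≤ φ 1 := hφa (by simp) (by simp) (by norm_num)
    linarith
  rw [Metric.uniformContinuous_iff]
  intro ε hε
  set δ := Real.log (1 + ε / (4 * B + 1)) with hδ
  have h1 : 0 < ε / (4 * B + 1) := by positivity
  have hδ0 : 0 < δ := Real.log_pos (by linarith)
  have key : ∀ x y : ℝ, x ≤ y → y - x < δ → |Gf φ x - Gf φ y| < ε := by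
    intro x y hxy hd
    have h2 := lip_G hφa hφc hB (Real.exp_pos x) (Real.exp_le_exp.mpr hxy)
    have h3 : Real.exp y / Real.exp x = Real.exp (y - x) := by rw [Real.exp_sub]
    rw [h3] at h2
    have h4 : Real.exp (y - x) < 1 + ε / (4 * B + 1) := by
      calc Real.exp (y - x) < Real.exp δ := Real.exp_lt_exp.mpr hd
        _ = 1 + ε / (4 * B + 1) := Real.exp_log (by linarith)
    have h5 : 4 * B * (Real.exp (y - x) - 1) ≤ 4 * B * (ε / (4 * B + 1)) :=
      mul_le_mul_of_nonneg_left (by linarith) (by linarith)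
    have h6 : 4 * B * (ε / (4 * B + 1)) < ε := by
      rw [mul_div_assoc', div_lt_iff₀ (by linarith)]
      nlinarith
    unfold Gf
    linarith
  refine ⟨δ, hδ0, fun {x y} hxy => ?_⟩
  rw [Real.dist_eq] at hxy ⊢
  rcases le_total x y with h | h
  · exact key x y h (by rw [abs_sub_comm, abs_of_nonneg (by linarith)] at hxy; exact hxy)
  · rw [abs_sub_comm]
    exact key y x h (by rw [abs_of_nonneg (by linarith)] at hxy; exact hxy)

/-- The end of the proof. -/
lemma fin {φ : ℝ → ℝ} (hφa : AntitoneOn φ (Ioi 0)) {k : ℝ}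
    (hk : ∀ t : ℝ, 0 < t → t * (φ t - φ (2 * t)) = k) :
    ∃ A B : ℝ, ∀ t : ℝ, 0 < t → φ t = A + B / t := by
  have step : ∀ t : ℝ, 0 < t → φ (2 * t) - 2 * k / (2 * t) = φ t - 2 * k / t := by
    intro t ht
    have h1 := hk t ht
    have h2 : φ t - φ (2 * t) = k / t := by
      rw [eq_div_iff ht.ne']; linarith
    have h3 : 2 * k / (2 * t) = k / t := by field_simp
    have h4 : 2 * k / t = k / t + k / t := by ring
    rw [h3, h4]
    linarith
  have stepn : ∀ (n : ℕ) (t : ℝ), 0 < t → φ (2 ^ n * t) - 2 * k / (2 ^ n * t) = φ t - 2 * k / t := by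
    intro n
    induction n with
    | zero => intro t _; simp
    | succ n ih =>
      intro t ht
      have h1 := step (2 ^ n * t) (by positivity)
      have e : (2:ℝ) ^ (n + 1) * t = 2 * (2 ^ n * t) := by ring
      rw [e, h1, ih t ht]
  have lim : ∀ t : ℝ, 0 < t → Tendsto (fun n : ℕ => φ (2 ^ n * t)) atTop (𝓝 (φ t - 2 * k / t)) := by
    intro t ht
    have e : (fun n : ℕ => φ (2 ^ n * t)) = fun n : ℕ => (φ t - 2 * k / t) + (2 * k / t) * (1 / 2) ^ n := by
      funext n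
      have h1 := stepn n t ht
      have h2 : 2 * k / (2 ^ n * t) = (2 * k / t) * (1 / 2) ^ n := by
        rw [one_div, inv_pow]; field_simp
      rw [← h2]
      linarith
    rw [e]
    have h3 : Tendsto (fun n : ℕ => (1 / 2 : ℝ) ^ n) atTop (𝓝 0) :=
      tendsto_pow_atTop_nhds_zero_of_lt_one (by norm_num) (by norm_num)
    have h4 := (h3.const_mul (2 * k / t)).const_add (φ t - 2 * k / t)
    simpa using h4
  have eqv : ∀ s t : ℝ, 0 < s → s ≤ t → φ s - 2 * k / s = φ t - 2 * k / t := by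
    intro s t hs hst
    have ht := hs.trans_le hst
    apply le_antisymm
    · obtain ⟨m, hm⟩ := pow_unbounded_of_one_lt (t / s) (one_lt_two)
      have hm' : t ≤ 2 ^ m * s := by
        rw [div_lt_iff₀ hs] at hm; exact hm.le
      have h1 := lim (2 ^ m * s) (by positivity)
      rw [stepn m s hs] at h1
      refine le_of_tendsto_of_tendsto' h1 (lim t ht) fun n => ?_
      refine hφa (by show 0 < 2 ^ n * t; positivity) (by show 0 < 2 ^ n * (2 ^ m * s); positivity) ?_
      gcongr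
    · refine le_of_tendsto_of_tendsto' (lim t ht) (lim s hs) fun n => ?_
      refine hφa (by show 0 < 2 ^ n * s; positivity) (by show 0 < 2 ^ n * t; positivity) ?_
      gcongr
  refine ⟨φ 1 - 2 * k / 1, 2 * k, fun t ht => ?_⟩
  rcases le_total t 1 with h | h
  · have := eqv t 1 ht h
    linarith
  · have := eqv 1 t one_pos h
    linarith

end CDAux

open CDAux in
theorem choquet_deny {κ : ℝ → ℝ} (hκ : Continuous κ) (hκp : ∀ θ, 0 < κ θ)
    (hκ1 : (2 * Real.pi)⁻¹ * ∫ θ in (0:ℝ)..(2 * Real.pi), (κ θ)⁻¹ = 1)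
    (hlt : ∃ θ ∈ Ioo 0 (2 * Real.pi), κ θ < 1) (hgt : ∃ θ ∈ Ioo 0 (2 * Real.pi), 1 < κ θ)
    {φ : ℝ → ℝ} (hφ0 : ∀ t : ℝ, 0 < t → 0 ≤ φ t) (hφa : AntitoneOn φ (Ioi 0))
    (hφc : ConvexOn ℝ (Ioi 0) φ)
    (heq : ∀ t : ℝ, 0 < t →
      (2 * Real.pi)⁻¹ * ∫ θ in (0:ℝ)..(2 * Real.pi), φ (t * κ θ) = φ t) :
    ∃ A B : ℝ, ∀ t : ℝ, 0 < t → φ t = A + B / t := by
  have _ := hφ0
  have hκ1' : mn (fun θ => (κ θ)⁻¹) = 1 := hκ1
  have hρ : Continuous (fun θ => (κ θ)⁻¹) := hκ.inv₀ fun θ => (hκp θ).ne'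
  have hρ0 : ∀ θ, 0 < (fun θ => (κ θ)⁻¹) θ := fun θ => inv_pos.mpr (hκp θ)
  have hξ : Continuous (fun θ => Real.log (κ θ)) := hκ.log fun θ => (hκp θ).ne'
  have hVc := cont_V hφc
  have hV : ∀ x, mn (fun θ => (κ θ)⁻¹ * V φ (x + Real.log (κ θ))) = V φ x := by
    intro x
    have e : (fun θ => (κ θ)⁻¹ * V φ (x + Real.log (κ θ)))
        = fun θ => φ (Real.exp x * κ θ) * Real.exp x := by
      funext θ
      unfold V
      have h1 := (hκp θ).ne'
      rw [Real.exp_add, Real.exp_log (hκp θ)]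
      field_simp
    rw [e, mn_mul_const (fun θ => φ (Real.exp x * κ θ))]
    have h2 : mn (fun θ => φ (Real.exp x * κ θ)) = φ (Real.exp x) := heq _ (Real.exp_pos x)
    rw [h2]
    unfold V
    ring
  obtain ⟨B, hB0, hB⟩ := bound_G hκ hκp hκ1' hlt hφa hφc hV
  have hGu := unif_G hφa hφc hB
  have hGb : ∀ x, |Gf φ x| ≤ B := by
    intro x
    have h1 := hB _ (Real.exp_pos x)
    have h2 : φ (2 * Real.exp x) ≤ φ (Real.exp x) :=
      hφa (Real.exp_pos x) (by show 0 < 2 * Real.exp x; positivity)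
        (by linarith [Real.exp_pos x])
    unfold Gf
    rw [abs_of_nonneg (mul_nonneg (Real.exp_pos x).le (by linarith))]
    exact h1
  have hGh : ∀ x, mn (fun θ => (κ θ)⁻¹ * Gf φ (x + Real.log (κ θ))) = Gf φ x := by
    intro x
    have e : (fun θ => (κ θ)⁻¹ * Gf φ (x + Real.log (κ θ)))
        = fun θ => (κ θ)⁻¹ * V φ (x + Real.log (κ θ))
          - (κ θ)⁻¹ * V φ ((x + Real.log 2) + Real.log (κ θ)) * 2⁻¹ := by
      funext θ
      rw [Gf_eq]
      have : x + Real.log (κ θ) + Real.log 2 = (x + Real.log 2) + Real.log (κ θ) := by ring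
      rw [this]
      ring
    rw [e, mn_sub (by fun_prop) (by fun_prop), hV,
      mn_mul_const (fun θ => (κ θ)⁻¹ * V φ ((x + Real.log 2) + Real.log (κ θ))), hV, Gf_eq]
  have hneg : ∃ θ ∈ Icc (0:ℝ) (2 * Real.pi), Real.log (κ θ) ≤ 0 := by
    obtain ⟨θ, hθ, h1⟩ := hlt
    exact ⟨θ, Ioo_subset_Icc_self hθ, Real.log_nonpos (hκp θ).le h1.le⟩
  have hpos : ∃ θ ∈ Icc (0:ℝ) (2 * Real.pi), 0 ≤ Real.log (κ θ) := by
    obtain ⟨θ, hθ, h1⟩ := hgt
    exact ⟨θ, Ioo_subset_Icc_self hθ, Real.log_nonneg h1.le⟩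
  have hL : mn (fun θ => (κ θ)⁻¹ * Real.log (κ θ)) ≠ 0 := by
    have h1 : 0 < mn (fun θ => (1 - (κ θ)⁻¹) - (κ θ)⁻¹ * Real.log (κ θ)) := by
      refine mn_pos (by fun_prop) (fun θ => ?_) ?_
      · have h2 := hκp θ
        have h3 := Real.log_le_sub_one_of_pos h2
        have h4 : (κ θ)⁻¹ * Real.log (κ θ) ≤ (κ θ)⁻¹ * (κ θ - 1) :=
          mul_le_mul_of_nonneg_left h3 (inv_pos.mpr h2).le
        have h5 : (κ θ)⁻¹ * (κ θ - 1) = 1 - (κ θ)⁻¹ := by
          rw [mul_sub, inv_mul_cancel₀ h2.ne', mul_one]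
        linarith
      · obtain ⟨θ, hθ, h1⟩ := hlt
        refine ⟨θ, hθ, ?_⟩
        have h2 := hκp θ
        have h3 := Real.log_lt_sub_one_of_pos h2 h1.ne
        have h4 : (κ θ)⁻¹ * Real.log (κ θ) < (κ θ)⁻¹ * (κ θ - 1) :=
          mul_lt_mul_of_pos_left h3 (inv_pos.mpr h2)
        have h5 : (κ θ)⁻¹ * (κ θ - 1) = 1 - (κ θ)⁻¹ := by
          rw [mul_sub, inv_mul_cancel₀ h2.ne', mul_one]
        linarith
    rw [mn_sub (by fun_prop) (by fun_prop), mn_sub continuous_const hρ, hκ1'] at h1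
    have e1 : mn (fun _ => (1:ℝ)) = 1 := by
      unfold mn
      rw [intervalIntegral.integral_const]
      simp
      field_simp
    rw [e1] at h1
    intro h0
    rw [h0] at h1
    linarith
  obtain ⟨k, hk⟩ := const_of_bdd hρ hρ0 hξ hκ1' hneg hpos hL hGu hGb hGh
  apply fin hφa (k := k)
  intro t ht
  have h1 := hk (Real.log t)
  unfold Gf at h1
  rwa [Real.exp_log ht] at h1

end SAD
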