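import Pool.Agent.Lib.SAD.Count

/-!
# The vague limit from an affine Laplace transform of all limit measures

Same proof as in `Count.lean`, for a general source of the affine formula.
-/

open Filter Topology MeasureTheory Set
open scoped MatrixGroups

namespace SAD

variable {ι : Type*} {h : ι → ℂ}

/-- Every limit measure has the Laplace transform `A + B/√det`. -/
def AffLim (h : ι → ℂ) (κ : ℝ) : Prop :=
  ∀ U : Ultrafilter ℝ, (U : Filter ℝ) ≤ atTop →
    ∃ (P : Measure ℂ) (A B : ℝ), IsProbabilityMeasure P ∧ A + B = 1 ∧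
      (∀ f : ℂ → ℝ, Continuous f → (∃ M : ℝ, ∀ z, |f z| ≤ M) →
        Tendsto (fun R => L h f R) U (𝓝 (∫ z, f z ∂P))) ∧
      ∀ (a : ℝ) (w : ℂ), 0 ≤ a → ‖w‖ ≤ κ * a →
        ∫ z, E a w z ∂P = A + B / √((1 + a) ^ 2 - ‖w‖ ^ 2)

namespace CountGenAux
open CountAux

lemma rec_lim' (hg : GReg h) {κ : ℝ} (hκ : 0 < κ) (ha : AffLim h κ) :
    Tendsto (fun R : ℝ => (G h R - 5 * G h (R / 2) + 4 * G h (R / 4)) / G h R) atTop (𝓝 0) := by
  rw [tendsto_iff_ultrafilter]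
  intro U hU
  obtain ⟨P, A, B, hP, hAB, hlim, hE⟩ := ha U hU
  have h1 := quot_lim (h := h) hκ hU hlim hE (a := 3) (s := 2) (by norm_num) (by norm_num)
    (by norm_num)
  have h2 := quot_lim (h := h) hκ hU hlim hE (a := 15) (s := 4) (by norm_num) (by norm_num)
    (by norm_num)
  have h3 : Tendsto (fun R : ℝ => 1 - 5 * (G h (R / 2) / G h R) + 4 * (G h (R / 4) / G h R)) U
      (𝓝 (1 - 5 * (A + B / 2 ^ 2) + 4 * (A + B / 4 ^ 2))) :=
    ((tendsto_const_nhds).sub (h1.const_mul 5)).add (h2.const_mul 4)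
  have h4 : 1 - 5 * (A + B / 2 ^ 2) + 4 * (A + B / 4 ^ 2) = 0 := by
    have : B = 1 - A := by linarith
    rw [this]; ring
  rw [h4] at h3
  apply h3.congr'
  have h5 : ∀ᶠ R : ℝ in (U : Filter ℝ), 0 < R := hU (eventually_gt_atTop 0)
  filter_upwards [h5] with R hR
  have h6 := hg.G_pos hR
  field_simp

end CountGenAux

open CountAux CountGenAux in
theorem tendsto_L_of_affine (hf : LocFin h)
    (hlow : ∃ c : ℝ, 0 < c ∧ ∀ᶠ R in atTop, c * R ≤ N h R) (hg : GReg h)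
    {κ : ℝ} (hκ : 0 < κ) (hκ1 : κ < 1) (haff : AffLim h κ) :
    ∀ f : ℂ → ℝ, Continuous f → (∃ M : ℝ, ∀ z, |f z| ≤ M) →
      Tendsto (fun R => L h f R) atTop
        (𝓝 (Real.pi⁻¹ * ∫ v : ℂ, Real.exp (-‖v‖ ^ 2) * f (v ^ 2))) := by
  have hd : ∀ᶠ k in atTop, 2 * gg h k ≤ gg h (k + 1) :=
    double_of_rec (gg_pos hg) (gg_mono hg) (gg_rec (rec_lim' hg hκ haff))
      (gg_ns hf hlow hg)
  intro f hfc hfb
  rw [tendsto_iff_ultrafilter]
  intro U hU
  obtain ⟨P, A, B, hP, hAB, hlim, hE⟩ := haff U hU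
  have hq : ∀ j : ℕ, 0 ≤ A + B / (2 ^ (j + 1)) ^ 2 ∧ A + B / (2 ^ (j + 1)) ^ 2 ≤ 1 / 2 ^ j := by
    intro j
    have h1 := quot_lim (h := h) hκ hU hlim hE (a := (2 ^ (j + 1)) ^ 2 - 1)
      (s := 2 ^ (j + 1)) (by
        have : (1 : ℝ) ≤ (2 ^ (j + 1)) ^ 2 := one_le_pow₀ (one_le_pow₀ (by norm_num))
        linarith) (by positivity) (by ring)
    have h5 : ∀ᶠ R : ℝ in (U : Filter ℝ), 0 < R := hU (eventually_gt_atTop 0)
    constructor
    · apply ge_of_tendsto h1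
      filter_upwards [h5] with R hR
      exact div_nonneg (hg.G_pos (by positivity)).le (hg.G_pos hR).le
    · exact le_of_tendsto h1 (hU (quot_le hg hd j))
  have hA : A = 0 := by
    have t1 : Tendsto (fun j : ℕ => (1 : ℝ) / 2 ^ j) atTop (𝓝 0) := by
      have := tendsto_pow_atTop_nhds_zero_of_lt_one (r := (1 : ℝ) / 2) (by norm_num)
        (by norm_num)
      apply this.congr
      intro j
      rw [div_pow, one_pow]
    have t2 : Tendsto (fun j : ℕ => A + B / (2 ^ (j + 1)) ^ 2) atTop (𝓝 0) :=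
      squeeze_zero (fun j => (hq j).1) (fun j => (hq j).2) t1
    have t3 : Tendsto (fun j : ℕ => A + B / 4 * ((1 : ℝ) / 4) ^ j) atTop
        (𝓝 (A + B / 4 * 0)) :=
      tendsto_const_nhds.add ((tendsto_pow_atTop_nhds_zero_of_lt_one (by norm_num)
        (by norm_num)).const_mul _)
    have t4 : Tendsto (fun j : ℕ => A + B / (2 ^ (j + 1)) ^ 2) atTop (𝓝 (A + B / 4 * 0)) := by
      apply t3.congr
      intro j
      have : ((2 : ℝ) ^ (j + 1)) ^ 2 = 4 * 4 ^ j := by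
        rw [← pow_mul, mul_comm (j + 1) 2, pow_mul]; norm_num [pow_succ]; ring
      rw [this, div_pow, one_pow]
      field_simp
    have := tendsto_nhds_unique t4 t2
    linarith
  have hB : B = 1 := by linarith
  have hF : ∀ (a : ℝ) (w : ℂ), 0 ≤ a → ‖w‖ ≤ κ * a →
      ∫ z, E a w z ∂P = (√((1 + a) ^ 2 - ‖w‖ ^ 2))⁻¹ := by
    intro a w ha hw
    rw [hE a w ha hw, hA, hB, zero_add, one_div]
  rw [← eq_gaussian hκ hκ1 hF f hfc hfb]
  exact hlim f hfc hfb

end SAD
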