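import Mathlib

/-!
# Limits of monotone functions under the integral sign

PLAN.  `κ` maps `[0, 2π]` into a compact interval `[c, d] ⊂ (0, ∞)`.  `φ` is continuous there; for
`ε > 0` choose `c = t₀ < … < t_m = d` with `|φ (t_j) - φ (t_{j+1})| < ε`.  Along `F` eventually
`|φR R (t_j) - φ (t_j)| < ε` for all `j`, and then by monotonicity `|φR R t - φ t| ≤ 2 ε` on `[c, d]`.
So the convergence is uniform on `[c, d]`, and the integrals converge.  (`φR R ∘ κ` is measurable and
bounded: `AntitoneOn` functions on an interval are measurable; or compare the interval integrals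
through the bound only, using `intervalIntegral.norm_integral_sub_le`-like lemmas; measurability of
`φR R` restricted to `Ioi 0` from `AntitoneOn`.)
-/

open Filter Topology MeasureTheory Set

namespace SAD

/-- Pointwise convergence of antitone functions to a continuous one is locally uniform. -/
lemma tendstoLocallyUniformlyOn_of_antitone {F : Filter ℝ} {φR : ℝ → ℝ → ℝ} {φ : ℝ → ℝ}
    (hanti : ∀ᶠ R in F, AntitoneOn (φR R) (Ioi 0))
    (hlim : ∀ t : ℝ, 0 < t → Tendsto (fun R => φR R t) F (𝓝 (φ t)))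
    (hφ : ContinuousOn φ (Ioi 0)) :
    TendstoLocallyUniformlyOn φR φ F (Ioi 0) := by
  rw [Metric.tendstoLocallyUniformlyOn_iff]
  intro ε hε x hx
  have hx0 : (0:ℝ) < x := hx
  have hc : ContinuousAt φ x := hφ.continuousAt (Ioi_mem_nhds hx0)
  obtain ⟨δ, hδ, hδ'⟩ := Metric.continuousAt_iff.1 hc (ε / 4) (by positivity)
  set r : ℝ := min (δ / 2) (x / 2) with hr
  have hr0 : 0 < r := by positivity
  have hrδ : r < δ := lt_of_le_of_lt (min_le_left _ _) (by linarith)
  have hrx : r < x := lt_of_le_of_lt (min_le_right _ _) (by linarith)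
  have ha : 0 < x - r := by linarith
  have hb : 0 < x + r := by linarith
  refine ⟨Ioo (x - r) (x + r), mem_nhdsWithin_of_mem_nhds
    (Ioo_mem_nhds (by linarith) (by linarith)), ?_⟩
  have h1 := (Metric.tendsto_nhds.1 (hlim _ ha)) (ε / 4) (by positivity)
  have h2 := (Metric.tendsto_nhds.1 (hlim _ hb)) (ε / 4) (by positivity)
  filter_upwards [hanti, h1, h2] with R hR h1 h2 y hy
  have hy0 : 0 < y := by linarith [hy.1]
  have e1 : φR R y ≤ φR R (x - r) := hR ha hy0 hy.1.le
  have e2 : φR R (x + r) ≤ φR R y := hR hy0 hb hy.2.le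
  have d1 : dist (φ (x - r)) (φ x) < ε / 4 := hδ' (by
    rw [Real.dist_eq, abs_lt]; constructor <;> linarith)
  have d2 : dist (φ (x + r)) (φ x) < ε / 4 := hδ' (by
    rw [Real.dist_eq, abs_lt]; constructor <;> linarith)
  have d3 : dist (φ y) (φ x) < ε / 4 := hδ' (by
    rw [Real.dist_eq, abs_lt]; constructor <;> linarith [hy.1, hy.2])
  rw [Real.dist_eq, abs_lt] at h1 h2 d1 d2 d3 ⊢
  constructor <;> linarith [h1.1, h1.2, h2.1, h2.2, d1.1, d1.2, d2.1, d2.2, d3.1, d3.2]

/-- Integrability of an antitone function composed with a positive continuous one. -/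
lemma intervalIntegrable_antitone_comp {g : ℝ → ℝ} (hg : AntitoneOn g (Ioi 0)) {κ : ℝ → ℝ}
    (hκ : Continuous κ) (hκp : ∀ θ, 0 < κ θ) (a b : ℝ) :
    IntervalIntegrable (fun θ => g (κ θ)) volume a b := by
  obtain ⟨x, hx, hmin⟩ := (isCompact_uIcc (a := a) (b := b)).exists_isMinOn nonempty_uIcc
    hκ.continuousOn
  obtain ⟨y, hy, hmax⟩ := (isCompact_uIcc (a := a) (b := b)).exists_isMaxOn nonempty_uIcc
    hκ.continuousOn
  have hc : 0 < κ x := hκp x
  have hanti : Antitone (fun t => g (max t (κ x))) := by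
    intro s t hst
    exact hg (lt_of_lt_of_le hc (le_max_right _ _)) (lt_of_lt_of_le hc (le_max_right _ _))
      (max_le_max hst le_rfl)
  have hmeas : Measurable (fun θ => g (max (κ θ) (κ x))) := hanti.measurable.comp hκ.measurable
  have hbd : ∀ θ ∈ uIcc a b, ‖g (max (κ θ) (κ x))‖ ≤ |g (κ x)| + |g (κ y)| := by
    intro θ hθ
    have h1 : κ x ≤ κ θ := hmin hθ
    have h2 : κ θ ≤ κ y := hmax hθ
    rw [max_eq_left h1]
    have e1 : g (κ θ) ≤ g (κ x) := hg hc (hκp θ) h1
    have e2 : g (κ y) ≤ g (κ θ) := hg (hκp θ) (hκp y) h2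
    rw [Real.norm_eq_abs, abs_le]
    constructor
    · linarith [neg_abs_le (g (κ y)), abs_nonneg (g (κ x))]
    · linarith [le_abs_self (g (κ x)), abs_nonneg (g (κ y))]
  have hint : IntervalIntegrable (fun θ => g (max (κ θ) (κ x))) volume a b := by
    rw [intervalIntegrable_iff]
    refine Measure.integrableOn_of_bounded (M := |g (κ x)| + |g (κ y)|) ?_
      hmeas.aestronglyMeasurable ?_
    · exact (by simp [uIoc] : volume (uIoc a b) ≠ ⊤)
    · rw [ae_restrict_iff' measurableSet_uIoc]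
      filter_upwards with θ hθ using hbd θ (uIoc_subset_uIcc hθ)
  refine hint.congr (fun θ hθ => ?_)
  have h1 : κ x ≤ κ θ := hmin (uIoc_subset_uIcc hθ)
  simp only [max_eq_left h1]

theorem tendsto_mean_of_antitone {F : Filter ℝ} {φR : ℝ → ℝ → ℝ} {φ : ℝ → ℝ}
    (hanti : ∀ᶠ R in F, AntitoneOn (φR R) (Ioi 0))
    (hlim : ∀ t : ℝ, 0 < t → Tendsto (fun R => φR R t) F (𝓝 (φ t)))
    (hφ : ContinuousOn φ (Ioi 0)) {κ : ℝ → ℝ} (hκ : Continuous κ) (hκp : ∀ θ, 0 < κ θ) :
    Tendsto (fun R => (2 * Real.pi)⁻¹ * ∫ θ in (0:ℝ)..(2 * Real.pi), φR R (κ θ)) F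
      (𝓝 ((2 * Real.pi)⁻¹ * ∫ θ in (0:ℝ)..(2 * Real.pi), φ (κ θ))) := by
  refine Tendsto.const_mul _ ?_
  have hK : IsCompact (κ '' uIcc 0 (2 * Real.pi)) := isCompact_uIcc.image hκ
  have hsub : κ '' uIcc 0 (2 * Real.pi) ⊆ Ioi 0 := by
    rintro _ ⟨θ, _, rfl⟩
    exact hκp θ
  have hunif : TendstoUniformlyOn φR φ F (κ '' uIcc 0 (2 * Real.pi)) :=
    (tendstoLocallyUniformlyOn_iff_tendstoUniformlyOn_of_compact hK).1
      ((tendstoLocallyUniformlyOn_of_antitone hanti hlim hφ).mono hsub)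
  rw [Metric.tendstoUniformlyOn_iff] at hunif
  have hφint : IntervalIntegrable (fun θ => φ (κ θ)) volume 0 (2 * Real.pi) := by
    refine ContinuousOn.intervalIntegrable ?_
    exact hφ.comp hκ.continuousOn (fun θ _ => hκp θ)
  rw [Metric.tendsto_nhds]
  intro ε hε
  have hpi := Real.pi_pos
  filter_upwards [hanti, hunif (ε / (4 * Real.pi)) (by positivity)] with R hR hu
  have hRint := intervalIntegrable_antitone_comp hR hκ hκp 0 (2 * Real.pi)
  rw [dist_eq_norm, ← intervalIntegral.integral_sub hRint hφint]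
  have hb : ‖∫ θ in (0:ℝ)..(2 * Real.pi), (φR R (κ θ) - φ (κ θ))‖
      ≤ ε / (4 * Real.pi) * |2 * Real.pi - 0| := by
    refine intervalIntegral.norm_integral_le_of_norm_le_const (fun θ hθ => ?_)
    have := hu (κ θ) ⟨θ, uIoc_subset_uIcc hθ, rfl⟩
    rw [dist_comm, dist_eq_norm] at this
    exact this.le
  refine lt_of_le_of_lt hb ?_
  rw [sub_zero, abs_of_pos (by positivity)]
  field_simp
  linarith

end SAD
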