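import Pool.Agent.Lib.SAD.GBasic
import Pool.Agent.Lib.SAD.LebIn

/-!
# Equidistribution allows to average over rotations

PLAN.
`rot_average`.  As in `LebIn.lean` (proved there: step functions in the radial variable), but with the
normalisation by `G h R` and without `RV`.  Given `ε > 0`, choose `M` with
`∑_{‖h i‖ > M R} exp (-(‖h i‖/R)²) ≤ ε G h R` for all large `R`: with `l, K` from `hg.doubling`,
`exp (-(‖h‖/R)²) ≤ exp (-(1-l⁻²) M²) exp (-(‖h‖/(l R))²)` for `‖h‖ > M R`, and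
`G h (l R) ≤ K G h R`.  For `‖v‖ ≤ M` replace `k v` by `k ((j/n) v/‖v‖)` for `(j-1)/n < ‖v‖ ≤ j/n`
(uniform continuity), error `≤ ε' N h (M' R)`, `N h (M' R) ≤ exp (M'²) G h R`.  Each term:
`dirSum h ψ_j (j R/n) - dirSum h ψ_j ((j-1) R/n)` with `ψ_j u = k ((j/n) u)`; by `Equi h`,
`dirSum h ψ_j ρ = circleAverage ψ_j * N h ρ + o(N h ρ)`, and `N h (j R/n) ≤ exp (M'²) G h R`.  The same step
functions approximate the second sum, whose terms are `circleAverage ψ_j` times the number of `i` in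
the layer.
`rot_E`.  Apply `rot_average` with `k v = exp (-‖v‖²) * E a w (v²)`.  For `ρ ≥ 0`,
`circleAverage (fun u => k (ρ u)) = (2π)⁻¹ ∫ exp (-(ρ² (1 + a + Re (w e^{2iθ})))) dθ
 = (2π)⁻¹ ∫ exp (-(ρ² (1 + a + ‖w‖ cos θ))) dθ` (substitution and periodicity), and
`∑_i exp (-(‖h i‖/R)² c) = G h (R/√c)` for `c > 0`; exchange `∑` and `∫` (nonnegative terms).
-/

open Filter Topology MeasureTheory Set
open scoped MatrixGroups

namespace SAD

variable {ι : Type*} {h : ι → ℂ}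

namespace RotAux

open LebInAux

theorem ca_bound {f : ℂ → ℝ} {C : ℝ} (hf : ∀ u : ℂ, ‖u‖ = 1 → |f u| ≤ C) :
    |Real.circleAverage f 0 1| ≤ C := by
  have h1 : ‖∫ θ in (0:ℝ)..(2 * Real.pi), f (circleMap 0 1 θ)‖ ≤ C * |2 * Real.pi - 0| := by
    refine intervalIntegral.norm_integral_le_of_norm_le_const fun θ _ => ?_
    rw [Real.norm_eq_abs]
    apply hf
    simp [circleMap]
  rw [Real.circleAverage_def, smul_eq_mul, abs_mul,
    abs_of_pos (by positivity : (0:ℝ) < (2 * Real.pi)⁻¹)]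
  rw [Real.norm_eq_abs, sub_zero, abs_of_pos Real.two_pi_pos] at h1
  calc (2 * Real.pi)⁻¹ * |∫ θ in (0:ℝ)..(2 * Real.pi), f (circleMap 0 1 θ)|
      ≤ (2 * Real.pi)⁻¹ * (C * (2 * Real.pi)) := by gcongr
    _ = C := by field_simp

theorem ca_sub_le {f g : ℂ → ℝ} (hf : Continuous f) (hg : Continuous g) {C : ℝ}
    (h : ∀ u : ℂ, ‖u‖ = 1 → |f u - g u| ≤ C) :
    |Real.circleAverage f 0 1 - Real.circleAverage g 0 1| ≤ C := by
  have e : Real.circleAverage f 0 1 - Real.circleAverage g 0 1 =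
      Real.circleAverage (f - g) 0 1 := by
    rw [Real.circleAverage_sub hf.continuousOn.circleIntegrable'
      hg.continuousOn.circleIntegrable']
  rw [e]
  exact ca_bound h

theorem tail_le {S : Finset ι} {f g : ι → ℝ} (hf : Summable f) (hg : Summable g)
    (h1 : ∀ i, i ∉ S → |f i| ≤ g i) (h2 : ∀ i, 0 ≤ g i) :
    |∑' i, f i - ∑ i ∈ S, f i| ≤ ∑' i, g i := by
  classical
  have e1 : ∑' i, (if i ∈ S then f i else 0) = ∑ i ∈ S, f i := by
    rw [tsum_eq_sum (s := S)]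
    · exact Finset.sum_congr rfl fun i hi => if_pos hi
    · intro i hi
      exact if_neg hi
  have hs : Summable fun i => if i ∈ S then f i else 0 :=
    summable_of_ne_finset_zero (s := S) fun i hi => if_neg hi
  rw [← e1, ← hf.tsum_sub hs]
  refine tsum_of_norm_bounded (f := fun i => f i - if i ∈ S then f i else 0) hg.hasSum ?_
  intro i
  by_cases hi : i ∈ S
  · rw [if_pos hi, sub_self, norm_zero]
    exact h2 i
  · rw [if_neg hi, sub_zero]
    exact h1 i hi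

theorem kb_sum (hg : GReg h) {f : ι → ℝ} {R : ℝ} (hR : 0 < R)
    (hf : ∀ i, |f i| ≤ Real.exp (-(‖h i‖ / R) ^ 2)) : Summable f :=
  Summable.of_norm_bounded (summable_G hg.summable hR) hf

theorem tailG (hg : GReg h) {f : ι → ℝ} {R : ℝ} (hR : 0 < R)
    (hf : ∀ i, |f i| ≤ Real.exp (-(‖h i‖ / R) ^ 2)) {l : ℝ} (hl : 1 < l) {M : ℝ} (hM : 0 ≤ M) :
    |∑' i, f i - ∑ i ∈ (hg.locFin.2 (M * R)).toFinset, f i| ≤
      Real.exp (-((1 - (l ^ 2)⁻¹) * M ^ 2)) * G h (l * R) := by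
  have hl0 : 0 < l := by linarith
  have hsum := (summable_G hg.summable (mul_pos hl0 hR)).mul_left
    (Real.exp (-((1 - (l ^ 2)⁻¹) * M ^ 2)))
  have h1 := tail_le (S := (hg.locFin.2 (M * R)).toFinset) (kb_sum hg hR hf) hsum ?_
    (fun i => by positivity)
  · rw [tsum_mul_left] at h1
    exact h1
  · intro i hi
    rw [mem_fs hg.locFin, not_le] at hi
    refine (hf i).trans ?_
    rw [← Real.exp_add]
    apply Real.exp_le_exp.2
    obtain ⟨x, hx⟩ : ∃ x : ℝ, x = ‖h i‖ / R := ⟨_, rfl⟩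
    rw [← hx]
    have hx1 : M ≤ x := by
      rw [hx, le_div_iff₀ hR]
      exact hi.le
    have e1 : ‖h i‖ / (l * R) = x / l := by
      rw [hx, div_div, mul_comm l R]
    have h2 : M ^ 2 ≤ x ^ 2 := by gcongr
    have h3 : (l ^ 2)⁻¹ ≤ 1 := inv_le_one_of_one_le₀ (by nlinarith)
    rw [e1, div_pow, div_eq_mul_inv]
    nlinarith

theorem N_le (hg : GReg h) {R M : ℝ} (hR : 0 < R) :
    N h (M * R) ≤ Real.exp (M ^ 2) * G h R := by
  have hf := hg.locFin
  have hsum := summable_G hg.summable hR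
  rw [N_eq hf]
  unfold G
  rw [← tsum_mul_left]
  have h1 : (((hf.2 (M * R)).toFinset.card : ℕ) : ℝ) ≤
      ∑ i ∈ (hf.2 (M * R)).toFinset, Real.exp (M ^ 2) * Real.exp (-(‖h i‖ / R) ^ 2) := by
    rw [Finset.card_eq_sum_ones, Nat.cast_sum]
    refine Finset.sum_le_sum fun i hi => ?_
    rw [mem_fs hf] at hi
    rw [← Real.exp_add, Nat.cast_one]
    have h2 : ‖h i‖ / R ≤ M := (div_le_iff₀ hR).2 hi
    have h3 : 0 ≤ ‖h i‖ / R := by positivity
    have h4 : (‖h i‖ / R) ^ 2 ≤ M ^ 2 := by gcongr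
    exact Real.one_le_exp (by linarith)
  refine h1.trans ?_
  exact (hsum.mul_left _).sum_le_tsum _ fun i _ => by positivity

theorem dir_lim (hg : GReg h) (h1 : Equi h) {f : ℂ → ℝ} (hfc : Continuous f) {t : ℝ}
    (ht : 0 ≤ t) :
    Tendsto (fun R : ℝ => (dirSum h f (t * R) - Real.circleAverage f 0 1 * N h (t * R)) / G h R)
      atTop (𝓝 0) := by
  have hf := hg.locFin
  rcases ht.lt_or_eq with ht | ht
  · have h3 : Tendsto (fun R : ℝ => dirSum h f (t * R) / N h (t * R) -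
        Real.circleAverage f 0 1) atTop (𝓝 0) := by
      have h4 := ((h1 f hfc).comp (tendsto_id.const_mul_atTop ht)).sub_const
        (Real.circleAverage f 0 1)
      rw [sub_self] at h4
      exact h4
    have h5 : ∀ᶠ R : ℝ in atTop, |N h (t * R) / G h R| ≤ Real.exp (t ^ 2) := by
      filter_upwards [eventually_gt_atTop 0] with R hR
      have hG := hg.G_pos hR
      rw [abs_of_nonneg (div_nonneg (N_nonneg _ _) hG.le), div_le_iff₀ hG]
      exact N_le hg hR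
    have h6 := bdd_le_mul_tendsto_zero' _ h5 h3
    refine h6.congr fun R => ?_
    by_cases hN : N h (t * R) = 0
    · rw [hN, zero_div, zero_mul, mul_zero, sub_zero]
      have h7 : (hf.2 (t * R)).toFinset = ∅ := by
        rw [N_eq hf, Nat.cast_eq_zero] at hN
        exact Finset.card_eq_zero.1 hN
      rw [dirSum_eq hf, h7, Finset.sum_empty, zero_div]
    · rw [div_mul_eq_mul_div]
      congr 1
      field_simp
  · have h3 : (fun R : ℝ => (dirSum h f (t * R) - Real.circleAverage f 0 1 * N h (t * R)) /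
        G h R) = fun _ => 0 := by
      funext R
      have : (hf.2 0).toFinset = ∅ := by
        refine Finset.eq_empty_of_forall_notMem fun i hi => ?_
        exact hf.1 i (norm_le_zero_iff.1 ((mem_fs hf).1 hi))
      rw [← ht, zero_mul, dirSum_eq hf, N_eq hf, this]
      simp
    rw [h3]
    exact tendsto_const_nhds

theorem layers (hf : LocFin h) {R : ℝ} (hR : 0 ≤ R) {t : ℕ → ℝ} (ht0 : t 0 = 0)
    (htl : ∀ j, t j ≤ t (j + 1)) (J : ℕ) {F : ι → ℝ} {g : ℕ → ι → ℝ} {ε : ℝ}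
    (hFG : ∀ j i, t j * R < ‖h i‖ → ‖h i‖ ≤ t (j + 1) * R → |F i - g j i| ≤ ε) :
    |∑ i ∈ (hf.2 (t J * R)).toFinset, F i - ∑ j ∈ Finset.range J,
      (∑ i ∈ (hf.2 (t (j + 1) * R)).toFinset, g j i -
        ∑ i ∈ (hf.2 (t j * R)).toFinset, g j i)| ≤ ε * N h (t J * R) := by
  obtain ⟨S, hS⟩ : ∃ S : ℕ → Finset ι, ∀ j, S j = (hf.2 (t j * R)).toFinset :=
    ⟨_, fun _ => rfl⟩
  have e2 : S 0 = ∅ := by
    refine Finset.eq_empty_of_forall_notMem fun i hi => ?_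
    rw [hS, mem_fs hf, ht0, zero_mul] at hi
    exact hf.1 i (norm_le_zero_iff.1 hi)
  have e3 : ∑ i ∈ S J, F i = ∑ j ∈ Finset.range J,
      (∑ i ∈ S (j + 1), F i - ∑ i ∈ S j, F i) := by
    rw [Finset.sum_range_sub (fun j => ∑ i ∈ S j, F i), e2, Finset.sum_empty, sub_zero]
  simp only [← hS]
  rw [e3, ← Finset.sum_sub_distrib]
  refine (Finset.abs_sum_le_sum_abs _ _).trans ?_
  have e4 : ∀ j ∈ Finset.range J,
      |(∑ i ∈ S (j + 1), F i - ∑ i ∈ S j, F i) -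
        (∑ i ∈ S (j + 1), g j i - ∑ i ∈ S j, g j i)| ≤
      ε * (((S (j + 1)).card : ℝ) - (S j).card) := by
    intro j _
    refine inc_le ?_ fun i hi hi' => ?_
    · rw [hS, hS]
      exact sub_fs hf (mul_le_mul_of_nonneg_right (htl j) hR)
    · rw [hS, mem_fs hf] at hi hi'
      exact hFG j i (not_le.1 hi') hi
  refine (Finset.sum_le_sum e4).trans ?_
  rw [← Finset.mul_sum, Finset.sum_range_sub (fun j => ((S j).card : ℝ)), e2, N_eq hf, ← hS]
  simp

theorem uc {k : ℂ → ℝ} (hk : Continuous k) (hkb : ∀ v, |k v| ≤ Real.exp (-‖v‖ ^ 2)) :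
    UniformContinuous k := by
  refine hk.uniformContinuous_of_tendsto_cocompact (x := 0) ?_
  refine squeeze_zero_norm (a := fun v : ℂ => Real.exp (-‖v‖ ^ 2)) (fun v => hkb v) ?_
  have h1 : Tendsto (fun v : ℂ => ‖v‖ ^ 2) (cocompact ℂ) atTop :=
    (tendsto_pow_atTop (two_ne_zero)).comp tendsto_norm_cocompact_atTop
  exact Real.tendsto_exp_neg_atTop_nhds_zero.comp h1

theorem exists_M {l : ℝ} (hl : 1 < l) (K : ℝ) {ε : ℝ} (hε : 0 < ε) :
    ∃ M : ℕ, Real.exp (-((1 - (l ^ 2)⁻¹) * (M : ℝ) ^ 2)) * |K| ≤ ε := by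
  have hc : 0 < 1 - (l ^ 2)⁻¹ := by
    have : (l ^ 2)⁻¹ < 1 := inv_lt_one_of_one_lt₀ (by nlinarith)
    linarith
  have h1 : Tendsto (fun M : ℕ => (1 - (l ^ 2)⁻¹) * (M : ℝ) ^ 2) atTop atTop :=
    ((tendsto_pow_atTop (two_ne_zero)).comp tendsto_natCast_atTop_atTop).const_mul_atTop hc
  have h2 := (Real.tendsto_exp_neg_atTop_nhds_zero.comp h1).mul_const |K|
  rw [zero_mul] at h2
  obtain ⟨M, hM⟩ := (h2.eventually (gt_mem_nhds hε)).exists
  exact ⟨M, hM.le⟩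

end RotAux

open RotAux LebInAux in
theorem rot_average (hg : GReg h) (h1 : Equi h) {k : ℂ → ℝ} (hk : Continuous k)
    (hkb : ∀ v, |k v| ≤ Real.exp (-‖v‖ ^ 2)) :
    Tendsto (fun R : ℝ => (∑' i, k (h i / (R : ℂ)) -
      ∑' i, Real.circleAverage (fun u => k ((‖h i / (R : ℂ)‖ : ℂ) * u)) 0 1) / G h R)
      atTop (𝓝 0) := by
  have hf := hg.locFin
  obtain ⟨l, K, hl, hd⟩ := hg.doubling
  rw [Metric.tendsto_atTop']
  intro ε' hε'
  obtain ⟨ε, hε, hεε'⟩ : ∃ ε : ℝ, 0 < ε ∧ 5 * ε < ε' := ⟨ε' / 6, by positivity, by linarith⟩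
  obtain ⟨M, hM⟩ := exists_M hl K hε
  obtain ⟨ε₁, hε₁, hε₁'⟩ : ∃ ε₁ : ℝ, 0 < ε₁ ∧ ε₁ * Real.exp ((M : ℝ) ^ 2) = ε :=
    ⟨ε * Real.exp (-(M : ℝ) ^ 2), by positivity, by
      rw [mul_assoc, ← Real.exp_add, neg_add_cancel, Real.exp_zero, mul_one]⟩
  obtain ⟨δ, hδ, hkδ⟩ : ∃ δ : ℝ, 0 < δ ∧ ∀ x y, dist x y < δ → |k x - k y| ≤ ε₁ := by
    obtain ⟨δ, hδ, h3⟩ := Metric.uniformContinuous_iff.1 (uc hk hkb) ε₁ hε₁
    exact ⟨δ, hδ, fun x y hxy => by
      have := (h3 hxy).le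
      rwa [Real.dist_eq] at this⟩
  obtain ⟨n, hn⟩ : ∃ n : ℕ, 1 / ((n : ℝ) + 1) < δ := exists_nat_one_div_lt hδ
  obtain ⟨t, ht⟩ : ∃ t : ℕ → ℝ, ∀ j, t j = (j : ℝ) / ((n : ℝ) + 1) := ⟨_, fun _ => rfl⟩
  obtain ⟨J, hJ⟩ : ∃ J : ℕ, J = M * (n + 1) := ⟨_, rfl⟩
  have hn0 : (0 : ℝ) < (n : ℝ) + 1 := by positivity
  have ht0 : t 0 = 0 := by rw [ht]; simp
  have htJ : t J = M := by
    rw [ht, hJ]
    push_cast
    field_simp
  have htn : ∀ j, 0 ≤ t j := fun j => by rw [ht]; positivity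
  have hts : ∀ j, t (j + 1) - t j < δ := fun j => by
    rw [ht, ht]
    push_cast
    rw [← sub_div, add_sub_cancel_left]
    exact hn
  have htl : ∀ j, t j ≤ t (j + 1) := fun j => by
    rw [ht, ht]
    push_cast
    gcongr
    linarith
  obtain ⟨ψ, hψ⟩ : ∃ ψ : ℕ → ℂ → ℝ, ∀ j u, ψ j u = k ((t (j + 1) : ℂ) * u) := ⟨_, fun _ _ => rfl⟩
  have hψc : ∀ j, Continuous (ψ j) := by
    intro j
    have : ψ j = fun u => k ((t (j + 1) : ℂ) * u) := funext (hψ j)
    rw [this]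
    exact hk.comp (continuous_const.mul continuous_id)
  -- the main limit
  have hlim : Tendsto (fun R : ℝ => ∑ j ∈ Finset.range J,
      ((dirSum h (ψ j) (t (j + 1) * R) - Real.circleAverage (ψ j) 0 1 * N h (t (j + 1) * R)) /
        G h R - (dirSum h (ψ j) (t j * R) - Real.circleAverage (ψ j) 0 1 * N h (t j * R)) /
        G h R)) atTop (𝓝 0) := by
    have h3 : ∀ j ∈ Finset.range J, Tendsto (fun R : ℝ =>
      ((dirSum h (ψ j) (t (j + 1) * R) - Real.circleAverage (ψ j) 0 1 * N h (t (j + 1) * R)) /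
        G h R - (dirSum h (ψ j) (t j * R) - Real.circleAverage (ψ j) 0 1 * N h (t j * R)) /
        G h R)) atTop (𝓝 0) := by
      intro j _
      have := (dir_lim hg h1 (hψc j) (htn (j + 1))).sub (dir_lim hg h1 (hψc j) (htn j))
      rwa [sub_zero] at this
    have h4 := tendsto_finsetSum _ h3
    simpa using h4
  have hev := ((hlim.eventually (Metric.ball_mem_nhds 0 hε)).and hd).and
    (eventually_gt_atTop (0 : ℝ))
  obtain ⟨R₀, hR₀⟩ := eventually_atTop.1 hev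
  refine ⟨R₀, fun R hR => ?_⟩
  obtain ⟨⟨hR1, hR2⟩, hR3⟩ := hR₀ R hR.le
  have hG := hg.G_pos hR3
  have hRc : (R : ℂ) ≠ 0 := by exact_mod_cast hR3.ne'
  -- the two summands
  have hA : ∀ i, |k (h i / (R : ℂ))| ≤ Real.exp (-(‖h i‖ / R) ^ 2) := by
    intro i
    have := hkb (h i / (R : ℂ))
    rwa [norm_div_real hR3] at this
  have hB : ∀ i, |Real.circleAverage (fun u => k ((‖h i / (R : ℂ)‖ : ℂ) * u)) 0 1| ≤
      Real.exp (-(‖h i‖ / R) ^ 2) := by
    intro i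
    refine ca_bound fun u hu => ?_
    have h3 := hkb ((‖h i / (R : ℂ)‖ : ℂ) * u)
    have h4 : ‖(‖h i / (R : ℂ)‖ : ℂ) * u‖ = ‖h i‖ / R := by
      rw [norm_mul, hu, mul_one, Complex.norm_real, norm_norm, norm_div_real hR3]
    rw [h4] at h3
    exact h3
  have hM0 : (0 : ℝ) ≤ M := by positivity
  have hGl : Real.exp (-((1 - (l ^ 2)⁻¹) * (M : ℝ) ^ 2)) * G h (l * R) ≤ ε * G h R := by
    calc Real.exp (-((1 - (l ^ 2)⁻¹) * (M : ℝ) ^ 2)) * G h (l * R)
        ≤ Real.exp (-((1 - (l ^ 2)⁻¹) * (M : ℝ) ^ 2)) * (|K| * G h R) := by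
          have : K * G h R ≤ |K| * G h R := by
            gcongr
            exact le_abs_self K
          gcongr
          exact hR2.trans this
      _ = Real.exp (-((1 - (l ^ 2)⁻¹) * (M : ℝ) ^ 2)) * |K| * G h R := by ring
      _ ≤ ε * G h R := by gcongr
  have hA1 := (tailG hg hR3 hA hl hM0).trans hGl
  have hB1 := (tailG hg hR3 hB hl hM0).trans hGl
  have hN : ε₁ * N h (M * R) ≤ ε * G h R := by
    calc ε₁ * N h (M * R) ≤ ε₁ * (Real.exp ((M : ℝ) ^ 2) * G h R) := by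
          gcongr
          exact N_le hg hR3
      _ = ε * G h R := by rw [← mul_assoc, hε₁']
  have hA2 := layers hf hR3.le ht0 htl J (F := fun i => k (h i / (R : ℂ)))
    (g := fun j i => ψ j (h i / (‖h i‖ : ℂ))) (ε := ε₁) (fun j i hi hi' => by
      have hv : h i / (R : ℂ) ≠ 0 := div_ne_zero (hf.1 i) hRc
      have e5 := modulus (g := k) hkδ hv (a := t j) (b := t (j + 1))
        (by
          rw [norm_div_real hR3, lt_div_iff₀ hR3]
          exact hi)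
        (by
          rw [norm_div_real hR3, div_le_iff₀ hR3]
          exact hi')
        (hts j)
      rw [dir_div hR3] at e5
      show |k (h i / (R : ℂ)) - ψ j (h i / (‖h i‖ : ℂ))| ≤ ε₁
      rw [hψ]
      exact e5)
  have hB2 := layers hf hR3.le ht0 htl J
    (F := fun i => Real.circleAverage (fun u => k ((‖h i / (R : ℂ)‖ : ℂ) * u)) 0 1)
    (g := fun j _ => Real.circleAverage (ψ j) 0 1) (ε := ε₁) (fun j i hi hi' => by
      refine ca_sub_le (hk.comp (continuous_const.mul continuous_id)) (hψc j) fun u hu => ?_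
      rw [hψ]
      apply hkδ
      change dist ((‖h i / (R : ℂ)‖ : ℂ) * u) ((t (j + 1) : ℂ) * u) < δ
      rw [dist_eq_norm, ← sub_mul, norm_mul, hu, mul_one, ← Complex.ofReal_sub,
        Complex.norm_real, Real.norm_eq_abs, norm_div_real hR3, abs_sub_comm]
      have h3 : t j < ‖h i‖ / R := (lt_div_iff₀ hR3).2 hi
      have h4 : ‖h i‖ / R ≤ t (j + 1) := (div_le_iff₀ hR3).2 hi'
      rw [abs_of_nonneg (by linarith)]
      linarith [hts j])
  rw [htJ] at hA2 hB2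
  have hA3 := hA2.trans hN
  have hB3 := hB2.trans hN
  -- the main part
  obtain ⟨DA, hDA⟩ : ∃ DA : ℝ, DA = ∑ j ∈ Finset.range J,
      (∑ i ∈ (hf.2 (t (j + 1) * R)).toFinset, ψ j (h i / (‖h i‖ : ℂ)) -
        ∑ i ∈ (hf.2 (t j * R)).toFinset, ψ j (h i / (‖h i‖ : ℂ))) := ⟨_, rfl⟩
  obtain ⟨DB, hDB⟩ : ∃ DB : ℝ, DB = ∑ j ∈ Finset.range J,
      (∑ _i ∈ (hf.2 (t (j + 1) * R)).toFinset, Real.circleAverage (ψ j) 0 1 -
        ∑ _i ∈ (hf.2 (t j * R)).toFinset, Real.circleAverage (ψ j) 0 1) := ⟨_, rfl⟩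
  rw [← hDA] at hA3
  rw [← hDB] at hB3
  have hD : |DA - DB| ≤ ε * G h R := by
    have e1 : DA - DB = (∑ j ∈ Finset.range J,
      ((dirSum h (ψ j) (t (j + 1) * R) - Real.circleAverage (ψ j) 0 1 * N h (t (j + 1) * R)) /
        G h R - (dirSum h (ψ j) (t j * R) - Real.circleAverage (ψ j) 0 1 * N h (t j * R)) /
        G h R)) * G h R := by
      rw [hDA, hDB, ← Finset.sum_sub_distrib, Finset.sum_mul]
      refine Finset.sum_congr rfl fun j _ => ?_
      rw [dirSum_eq hf, dirSum_eq hf, N_eq hf, N_eq hf, Finset.sum_const, Finset.sum_const,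
        nsmul_eq_mul, nsmul_eq_mul, ← sub_div, div_mul_cancel₀ _ hG.ne']
      ring
    rw [e1, abs_mul, abs_of_pos hG]
    rw [dist_zero_right, Real.norm_eq_abs] at hR1
    exact mul_le_mul_of_nonneg_right hR1.le hG.le
  rw [dist_zero_right, Real.norm_eq_abs, abs_div, abs_of_pos hG, div_lt_iff₀ hG]
  obtain ⟨A, hAe⟩ : ∃ A : ℝ, A = ∑' i, k (h i / (R : ℂ)) := ⟨_, rfl⟩
  obtain ⟨B, hBe⟩ : ∃ B : ℝ, B = ∑' i,
    Real.circleAverage (fun u => k ((‖h i / (R : ℂ)‖ : ℂ) * u)) 0 1 := ⟨_, rfl⟩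
  rw [← hAe] at hA1 ⊢
  rw [← hBe] at hB1 ⊢
  obtain ⟨a', ha'⟩ : ∃ a' : ℝ, a' = ∑ i ∈ (hf.2 ((M : ℝ) * R)).toFinset, k (h i / (R : ℂ)) :=
    ⟨_, rfl⟩
  obtain ⟨b', hb'⟩ : ∃ b' : ℝ, b' = ∑ i ∈ (hf.2 ((M : ℝ) * R)).toFinset,
    Real.circleAverage (fun u => k ((‖h i / (R : ℂ)‖ : ℂ) * u)) 0 1 := ⟨_, rfl⟩
  rw [← ha'] at hA1 hA3
  rw [← hb'] at hB1 hB3
  have hlast : 5 * ε * G h R < ε' * G h R := mul_lt_mul_of_pos_right hεε' hG
  rw [abs_le] at hA1 hB1 hA3 hB3 hD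
  rw [abs_lt]
  constructor <;> nlinarith [hA1.1, hA1.2, hB1.1, hB1.2, hA3.1, hA3.2, hB3.1, hB3.2, hD.1, hD.2]

namespace RotAux

theorem countable_of (hg : GReg h) : Countable ι := by
  have h1 := (hg.summable 1 one_pos).countable_support
  have h2 : Function.support (fun i => Real.exp (-(1 * ‖h i‖ ^ 2))) = Set.univ := by
    ext i
    simp only [Function.mem_support, Set.mem_univ, iff_true]
    exact (Real.exp_pos _).ne'
  rw [h2] at h1
  exact Set.countable_univ_iff.1 h1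

theorem per {P : ℝ → ℝ} (hP : Continuous P) (hper : Function.Periodic P (2 * Real.pi)) (α : ℝ) :
    ∫ θ in (0:ℝ)..(2 * Real.pi), P (2 * θ + α) = ∫ θ in (0:ℝ)..(2 * Real.pi), P θ := by
  rw [intervalIntegral.integral_comp_mul_add (fun x => P x) (two_ne_zero) α]
  have e1 : (2 : ℝ) * 0 + α = α := by ring
  have e2 : (2 : ℝ) * (2 * Real.pi) + α = α + 2 * Real.pi + 2 * Real.pi := by ring
  rw [e1, e2, ← intervalIntegral.integral_add_adjacent_intervals
    (hP.intervalIntegrable α (α + 2 * Real.pi))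
    (hP.intervalIntegrable (α + 2 * Real.pi) (α + 2 * Real.pi + 2 * Real.pi)),
    hper.intervalIntegral_add_eq α 0, hper.intervalIntegral_add_eq (α + 2 * Real.pi) 0, zero_add,
    smul_eq_mul]
  ring

/-- the test function -/
noncomputable def kE (a : ℝ) (w v : ℂ) : ℝ := Real.exp (-‖v‖ ^ 2) * E a w (v ^ 2)

theorem kE_cont (a : ℝ) (w : ℂ) : Continuous (kE a w) := by
  unfold kE E
  fun_prop

theorem kE_le {a : ℝ} {w : ℂ} (hw : ‖w‖ ≤ a) (v : ℂ) : |kE a w v| ≤ Real.exp (-‖v‖ ^ 2) := by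
  unfold kE E
  rw [abs_mul, Real.abs_exp, Real.abs_exp]
  have h1 : -(‖w‖ * ‖v ^ 2‖) ≤ (w * v ^ 2).re := by
    have := (abs_le.1 (Complex.abs_re_le_norm (w * v ^ 2))).1
    rwa [norm_mul] at this
  have h2 : ‖w‖ * ‖v ^ 2‖ ≤ a * ‖v ^ 2‖ := by gcongr
  have h3 : Real.exp (-(a * ‖v ^ 2‖ + (w * v ^ 2).re)) ≤ 1 := by
    rw [Real.exp_le_one_iff]
    linarith
  calc Real.exp (-‖v‖ ^ 2) * Real.exp (-(a * ‖v ^ 2‖ + (w * v ^ 2).re))
      ≤ Real.exp (-‖v‖ ^ 2) * 1 := by gcongr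
    _ = _ := mul_one _

theorem kE_circ (a : ℝ) (w : ℂ) (ρ θ : ℝ) :
    kE a w ((ρ : ℂ) * circleMap 0 1 θ) =
      Real.exp (-(ρ ^ 2 * (1 + a + ‖w‖ * Real.cos (2 * θ + w.arg)))) := by
  unfold kE E
  rw [← Real.exp_add]
  congr 1
  have e0 : circleMap 0 1 θ = Complex.exp (θ * Complex.I) := by simp [circleMap]
  have e1 : ‖(ρ : ℂ) * circleMap 0 1 θ‖ ^ 2 = ρ ^ 2 := by
    rw [norm_mul, Complex.norm_real, e0, Complex.norm_exp_ofReal_mul_I, mul_one, Real.norm_eq_abs,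
      sq_abs]
  have e2 : ‖((ρ : ℂ) * circleMap 0 1 θ) ^ 2‖ = ρ ^ 2 := by rw [norm_pow, e1]
  have e3 : (w * ((ρ : ℂ) * circleMap 0 1 θ) ^ 2) =
      ((ρ ^ 2 * ‖w‖ : ℝ) : ℂ) * Complex.exp (((2 * θ + w.arg : ℝ) : ℂ) * Complex.I) := by
    conv_lhs => rw [← Complex.norm_mul_exp_arg_mul_I w]
    have e4 : Complex.exp (((2 * θ + w.arg : ℝ) : ℂ) * Complex.I) =
        Complex.exp (θ * Complex.I) * Complex.exp (θ * Complex.I) *
          Complex.exp (w.arg * Complex.I) := by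
      rw [← Complex.exp_add, ← Complex.exp_add]
      congr 1
      push_cast
      ring
    rw [e0, e4]
    push_cast
    ring
  rw [e1, e2, e3, Complex.re_ofReal_mul, Complex.exp_ofReal_mul_I_re]
  ring

theorem ca_kE (a : ℝ) (w : ℂ) (ρ : ℝ) :
    Real.circleAverage (fun u => kE a w ((ρ : ℂ) * u)) 0 1 =
      (2 * Real.pi)⁻¹ * ∫ θ in (0:ℝ)..(2 * Real.pi),
        Real.exp (-(ρ ^ 2 * (1 + a + ‖w‖ * Real.cos θ))) := by
  rw [Real.circleAverage_def, smul_eq_mul]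
  congr 1
  simp only [kE_circ]
  exact per (P := fun x => Real.exp (-(ρ ^ 2 * (1 + a + ‖w‖ * Real.cos x)))) (by fun_prop)
    (fun x => by simp only [Real.cos_add_two_pi]) w.arg

end RotAux

open RotAux LebInAux in
theorem rot_E (hg : GReg h) (h1 : Equi h) {a : ℝ} {w : ℂ} (hw : ‖w‖ ≤ a) :
    Tendsto (fun R : ℝ => L h (E a w) R - (2 * Real.pi)⁻¹ *
      ∫ θ in (0:ℝ)..(2 * Real.pi), G h (R / √(1 + a + ‖w‖ * Real.cos θ)) / G h R)
      atTop (𝓝 0) := by
  have hcount := countable_of hg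
  refine (rot_average hg h1 (kE_cont a w) (kE_le hw)).congr' ?_
  filter_upwards [eventually_gt_atTop 0] with R hR
  rw [sub_div]
  congr 1
  · unfold L
    congr 1
    refine tsum_congr fun i => ?_
    unfold kE
    rw [norm_div_real hR]
  · rw [intervalIntegral.integral_div, ← mul_div_assoc]
    congr 1
    simp only [ca_kE]
    rw [tsum_mul_left]
    congr 1
    have hc1 : ∀ θ : ℝ, 1 ≤ 1 + a + ‖w‖ * Real.cos θ := by
      intro θ
      have h2 := Real.neg_one_le_cos θ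
      nlinarith [norm_nonneg w]
    have key := intervalIntegral.hasSum_integral_of_dominated_convergence
      (μ := volume) (a := 0) (b := 2 * Real.pi)
      (F := fun (i : ι) (θ : ℝ) =>
        Real.exp (-(‖h i / (R : ℂ)‖ ^ 2 * (1 + a + ‖w‖ * Real.cos θ))))
      (f := fun θ => G h (R / √(1 + a + ‖w‖ * Real.cos θ)))
      (fun i _ => Real.exp (-(‖h i‖ / R) ^ 2)) ?_ ?_ ?_ ?_ ?_
    · exact key.tsum_eq
    · intro i
      refine Continuous.aestronglyMeasurable ?_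
      fun_prop
    · intro i
      refine Filter.Eventually.of_forall fun θ _ => ?_
      rw [Real.norm_eq_abs, Real.abs_exp, norm_div_real hR]
      apply Real.exp_le_exp.2
      have h2 : (0:ℝ) ≤ (‖h i‖ / R) ^ 2 := by positivity
      nlinarith [hc1 θ]
    · exact Filter.Eventually.of_forall fun θ _ => summable_G hg.summable hR
    · exact intervalIntegrable_const
    · refine Filter.Eventually.of_forall fun θ _ => ?_
      have hc0 : 0 < 1 + a + ‖w‖ * Real.cos θ := lt_of_lt_of_le one_pos (hc1 θ)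
      have h3 : 0 < √(1 + a + ‖w‖ * Real.cos θ) := Real.sqrt_pos.2 hc0
      have h4 := (summable_G hg.summable (div_pos hR h3)).hasSum
      unfold G
      convert h4 using 2 with i
      congr 1
      rw [norm_div_real hR, div_div_eq_mul_div, div_pow, div_pow, mul_pow, Real.sq_sqrt hc0.le]
      ring_nf

end SAD
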