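import Pool.Agent.Lib.SAD.Dbl2
import Pool.Agent.Lib.SAD.Rot
import Pool.Agent.Lib.SAD.Helly
import Pool.Agent.Lib.SAD.CD
import Pool.Agent.Lib.SAD.CountGen
import Pool.Agent.Lib.SAD.CountLeb
import Pool.Agent.Lib.SAD.MeanVal

/-!
# Equidistribution of the directions of `h` and one counting ratio give the vague limit

PLAN.  `hg : GReg h` from `exists_doubling_of_equi` and `GReg.of_doubling`.  Put
`φR R t = G h (R/√t) / G h R` for `t > 0`: for each `R > 0` it is antitone and convex in `t`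
(`G h (R/√t) = ∑ exp (-(t (‖h i‖/R)²))`), and for each `t` bounded for large `R` (iterate
`hg.doubling`).
(1) `‖act A v‖² = p ‖v‖² + Re (w₀ v²)` with `p² - ‖w₀‖² = 1`, `p > 1` (`A` is not orthogonal).  Put
`κ θ = p + ‖w₀‖ cos θ > 0`; `(2π)⁻¹ ∫ 1/κ = 1` by `mean_inv`; `κ π < 1`, `κ (small) > 1`.
(2) Let `c > 0` with `c (p - ‖w₀‖) ≥ 1`, `1 + a = c p`, `w = c w₀`, so `‖w‖ ≤ a`.  By `L_E`,
`L h (E a w) R = ∑ exp (-(c ‖act A (h i)‖²/R²)) / G h R`, and `tsum_exp_le` (both ways, as in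
`Ident.lean`) with the counting ratio tending to `1` gives `L h (E a w) R - φR R c → 0`.  By `rot_E`,
`L h (E a w) R - (2π)⁻¹ ∫ φR R (c κ θ) dθ → 0`.  So `(2π)⁻¹ ∫ φR R (c κ θ) dθ - φR R c → 0`; replace `R` by
`R √(c/t)` and multiply with `G h (R √(c/t))/G h R` (bounded): the same for every `t > 0` in place of `c`.
(3) Let `U ≤ atTop` be an ultrafilter, `φ t = lim_U φR R t` for `t > 0`: antitone, convex (so
continuous), `≥ 0`, `φ 1 = 1`.  `tendsto_mean_of_antitone` and (2): `φ` satisfies the hypotheses of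
`choquet_deny`, so `φ t = A + B/t`, `A + B = 1`.
(4) With `P` from `exists_limit`: for `0 ≤ a`, `‖w‖ ≤ a/2`, by `rot_E`, `tendsto_mean_of_antitone`,
`∫ E a w dP = (2π)⁻¹ ∫ φ (1 + a + ‖w‖ cos θ) dθ = A + B/√((1+a)² - ‖w‖²)` (`mean_inv`).  So `AffLim h (1/2)`;
use `tendsto_L_of_affine` and `leb_of_tendsto_L`.
-/

open Filter Topology MeasureTheory Set
open scoped MatrixGroups

namespace SAD

variable {ι : Type*} {h : ι → ℂ}

namespace OneAux

/-- The ratio of Gaussian sums. -/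
noncomputable def ph (h : ι → ℂ) (R t : ℝ) : ℝ := G h (R / √t) / G h R

lemma ph_nonneg (hg : GReg h) {R t : ℝ} (hR : 0 < R) (ht : 0 < t) : 0 ≤ ph h R t :=
  div_nonneg (hg.G_pos (div_pos hR (Real.sqrt_pos.2 ht))).le (hg.G_pos hR).le

lemma ph_one (hg : GReg h) {R : ℝ} (hR : 0 < R) : ph h R 1 = 1 := by
  unfold ph
  rw [Real.sqrt_one, div_one, div_self (hg.G_pos hR).ne']

lemma ph_anti (hg : GReg h) {R : ℝ} (hR : 0 < R) : AntitoneOn (ph h R) (Ioi 0) := by
  intro s hs t ht hst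
  have hs' : 0 < s := hs
  have ht' : 0 < t := ht
  unfold ph
  refine div_le_div_of_nonneg_right ?_ (hg.G_pos hR).le
  refine hg.G_mono (div_pos hR (Real.sqrt_pos.2 ht')) ?_
  exact div_le_div_of_nonneg_left hR.le (Real.sqrt_pos.2 hs') (Real.sqrt_le_sqrt hst)

lemma G_eq {R t : ℝ} (hR : 0 < R) (ht : 0 < t) :
    G h (R / √t) = ∑' i, Real.exp (-(t / R ^ 2 * ‖h i‖ ^ 2)) := by
  unfold G
  refine tsum_congr fun i => ?_
  congr 2
  have h2 : √t ^ 2 = t := Real.sq_sqrt ht.le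
  have h3 : 0 < √t := Real.sqrt_pos.2 ht
  rw [div_pow, div_pow, h2]
  field_simp

lemma ph_convex (hg : GReg h) {R : ℝ} (hR : 0 < R) : ConvexOn ℝ (Ioi 0) (ph h R) := by
  refine ⟨convex_Ioi 0, ?_⟩
  intro s hs t ht a b ha hb hab
  have hs' : 0 < s := hs
  have ht' : 0 < t := ht
  have hst : 0 < a • s + b • t := convex_Ioi (0 : ℝ) hs ht ha hb hab
  have s1 := hg.summable (s / R ^ 2) (by positivity)
  have s2 := hg.summable (t / R ^ 2) (by positivity)
  have s3 := hg.summable ((a • s + b • t) / R ^ 2) (by positivity)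
  unfold ph
  rw [G_eq hR hs', G_eq hR ht', G_eq hR hst]
  simp only [smul_eq_mul] at s3 ⊢
  rw [← mul_div_assoc, ← mul_div_assoc, ← add_div]
  refine div_le_div_of_nonneg_right ?_ (hg.G_pos hR).le
  rw [← tsum_mul_left, ← tsum_mul_left, ← (s1.mul_left a).tsum_add (s2.mul_left b)]
  refine s3.tsum_le_tsum (fun i => ?_) ((s1.mul_left a).add (s2.mul_left b))
  have h1 := convexOn_exp.2 (mem_univ (-(s / R ^ 2 * ‖h i‖ ^ 2)))
    (mem_univ (-(t / R ^ 2 * ‖h i‖ ^ 2))) ha hb hab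
  simp only [smul_eq_mul] at h1 ⊢
  refine le_trans (le_of_eq ?_) h1
  congr 1
  ring

lemma G_iter (hg : GReg h) : ∃ l K : ℝ, 1 < l ∧ 0 < K ∧ ∀ n : ℕ,
    ∀ᶠ R in atTop, G h (l ^ n * R) ≤ K ^ n * G h R := by
  obtain ⟨l, K, hl, hK⟩ := hg.doubling
  have hl0 : 0 < l := by linarith
  have hK0 : 0 < K := by
    obtain ⟨R, h1, h2⟩ := (hK.and (eventually_gt_atTop (0 : ℝ))).exists
    have h3 := hg.G_pos h2
    have h4 := hg.G_pos (mul_pos hl0 h2)
    by_contra hcon
    push Not at hcon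
    nlinarith
  refine ⟨l, K, hl, hK0, fun n => ?_⟩
  induction n with
  | zero => simp
  | succ n ih =>
    have h1 : Tendsto (fun R : ℝ => l ^ n * R) atTop atTop :=
      tendsto_id.const_mul_atTop (by positivity)
    filter_upwards [ih, h1.eventually hK] with R h2 h3
    calc G h (l ^ (n + 1) * R) = G h (l * (l ^ n * R)) := by
          congr 1; ring
      _ ≤ K * G h (l ^ n * R) := h3
      _ ≤ K * (K ^ n * G h R) := by gcongr
      _ = K ^ (n + 1) * G h R := by ring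

lemma ph_bdd (hg : GReg h) {t : ℝ} (ht : 0 < t) : ∃ K : ℝ, ∀ᶠ R in atTop, ph h R t ≤ K := by
  obtain ⟨l, K, hl, hK0, hK⟩ := G_iter hg
  have hl0 : 0 < l := by linarith
  obtain ⟨n, hn⟩ := pow_unbounded_of_one_lt ((√t)⁻¹) hl
  have hst : 0 < √t := Real.sqrt_pos.2 ht
  refine ⟨K ^ n, ?_⟩
  filter_upwards [hK n, eventually_gt_atTop 0] with R h1 hR
  unfold ph
  rw [div_le_iff₀ (hg.G_pos hR)]
  refine le_trans (hg.G_mono (div_pos hR hst) ?_) h1
  rw [div_eq_inv_mul]
  exact mul_le_mul_of_nonneg_right hn.le hR.le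

/-- Scaling. -/
lemma ph_scale (hg : GReg h) {R t c s : ℝ} (hR : 0 < R) (ht : 0 < t) (hc : 0 < c) :
    ph h R (t * s) = ph h R (t / c) * ph h (R / √(t / c)) (c * s) := by
  have h1 : 0 < R / √(t / c) := div_pos hR (Real.sqrt_pos.2 (by positivity))
  have h2 := hg.G_pos hR
  have h3 := hg.G_pos h1
  unfold ph
  have h4 : R / √(t / c) / √(c * s) = R / √(t * s) := by
    rw [div_div, ← Real.sqrt_mul (by positivity)]
    congr 2
    field_simp
  rw [h4]
  field_simp

/-- Comparison of the Gaussian sums of `h` and `A h`. -/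
lemma cmp (hg : GReg h) {A : SL(2, ℝ)}
    (hlim : Tendsto (fun R => N (fun i => act A (h i)) R / N h R) atTop (𝓝 1))
    {δ : ℝ} (hδ1 : 1 ≤ δ) :
    Tendsto (fun R : ℝ => (∑' i, Real.exp (-(δ / R ^ 2 * ‖act A (h i)‖ ^ 2)) -
      ∑' i, Real.exp (-(δ / R ^ 2 * ‖h i‖ ^ 2))) / G h R) atTop (𝓝 0) := by
  have hδ0 : 0 < δ := by linarith
  have hfA := hg.locFin.act A
  have setx : ∀ s : ℝ, 0 ≤ s → {i | ‖h i‖ ^ 2 ≤ s} = {i | ‖h i‖ ≤ √s} := by
    intro s hs
    ext i
    simp only [Set.mem_ofPred_eq]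
    rw [Real.le_sqrt (norm_nonneg _) hs]
  have sety : ∀ s : ℝ, 0 ≤ s → {i | ‖act A (h i)‖ ^ 2 ≤ s} = {i | ‖act A (h i)‖ ≤ √s} := by
    intro s hs
    ext i
    simp only [Set.mem_ofPred_eq]
    rw [Real.le_sqrt (norm_nonneg _) hs]
  have finx : ∀ s : ℝ, {i | ‖h i‖ ^ 2 ≤ s}.Finite := by
    intro s
    by_cases hs : 0 ≤ s
    · rw [setx s hs]; exact hg.locFin.2 _
    · refine Set.Finite.subset Set.finite_empty fun i hi => ?_
      exfalso
      have : ‖h i‖ ^ 2 ≤ s := hi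
      nlinarith [sq_nonneg ‖h i‖]
  have finy : ∀ s : ℝ, {i | ‖act A (h i)‖ ^ 2 ≤ s}.Finite := by
    intro s
    by_cases hs : 0 ≤ s
    · rw [sety s hs]; exact hfA.2 _
    · refine Set.Finite.subset Set.finite_empty fun i hi => ?_
      exfalso
      have : ‖act A (h i)‖ ^ 2 ≤ s := hi
      nlinarith [sq_nonneg ‖act A (h i)‖]
  rw [Metric.tendsto_nhds]
  intro e he
  set η : ℝ := min 1 (e / 4) with hη
  have hη0 : 0 < η := by positivity
  have hη1 : η ≤ 1 := min_le_left _ _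
  have hη2 : η ≤ e / 4 := min_le_right _ _
  -- comparison of the counting functions
  have hcmp : ∃ C : ℝ, 0 ≤ C ∧ (∀ R : ℝ, N (fun i => act A (h i)) R ≤ (1 + η) * N h R + C) ∧
      ∀ R : ℝ, N h R ≤ (1 + η) * N (fun i => act A (h i)) R + C := by
    have h1 : ∀ᶠ R in atTop, N (fun i => act A (h i)) R / N h R < 1 + η :=
      hlim.eventually_lt_const (by linarith)
    have h2 : ∀ᶠ R in atTop, (1 + η)⁻¹ < N (fun i => act A (h i)) R / N h R :=
      hlim.eventually_const_lt (inv_lt_one_of_one_lt₀ (by linarith))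
    obtain ⟨R₀, hR₀⟩ := eventually_atTop.1 (h1.and h2)
    refine ⟨N (fun i => act A (h i)) R₀ + N h R₀, add_nonneg (N_nonneg _ _) (N_nonneg _ _),
      fun R => ?_, fun R => ?_⟩
    · rcases le_total R₀ R with hR | hR
      · obtain ⟨h3, h4⟩ := hR₀ R hR
        have h5 : 0 < N h R := by
          rcases (N_nonneg h R).lt_or_eq with h6 | h6
          · exact h6
          · rw [← h6, div_zero] at h4
            exact absurd h4 (not_lt.2 (by positivity))
        rw [div_lt_iff₀ h5] at h3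
        have := N_nonneg (fun i => act A (h i)) R₀
        have := N_nonneg h R₀
        linarith
      · have h3 := N_mono hfA hR
        have h4 := N_nonneg h R
        have h5 := N_nonneg h R₀
        have : 0 ≤ (1 + η) * N h R := by positivity
        linarith
    · rcases le_total R₀ R with hR | hR
      · obtain ⟨h3, h4⟩ := hR₀ R hR
        have h5 : 0 < N h R := by
          rcases (N_nonneg h R).lt_or_eq with h6 | h6
          · exact h6
          · rw [← h6, div_zero] at h4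
            exact absurd h4 (not_lt.2 (by positivity))
        rw [lt_div_iff₀ h5] at h4
        have h6 : N h R < (1 + η) * N (fun i => act A (h i)) R := by
          have : (1 + η) * ((1 + η)⁻¹ * N h R) < (1 + η) * N (fun i => act A (h i)) R := by
            gcongr
          rwa [← mul_assoc, mul_inv_cancel₀ (by positivity), one_mul] at this
        have := N_nonneg (fun i => act A (h i)) R₀
        have := N_nonneg h R₀
        linarith
      · have h3 := N_mono hg.locFin hR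
        have h4 := N_nonneg (fun i => act A (h i)) R
        have h5 := N_nonneg (fun i => act A (h i)) R₀
        have : 0 ≤ (1 + η) * N (fun i => act A (h i)) R := by positivity
        linarith
  obtain ⟨C, hC0, hC1, hC2⟩ := hcmp
  have hGt := hg.tendsto
  have hGC : ∀ᶠ R in atTop, 4 * C / e + 1 ≤ G h R := hGt.eventually_ge_atTop _
  filter_upwards [hGC, eventually_gt_atTop (0 : ℝ)] with R hRG hR
  have hG0 : 0 < G h R := hg.G_pos hR
  have ht : 0 < δ / R ^ 2 := by positivity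
  have hsx := hg.summable (δ / R ^ 2) ht
  obtain ⟨hsy, hle1⟩ := tsum_exp_le (x := fun i => ‖h i‖ ^ 2) (y := fun i => ‖act A (h i)‖ ^ 2)
    (fun i => by positivity) (fun i => by positivity) finx finy (K := 1 + η) (C := C)
    (by positivity) hC0 (fun s hs => by
      rw [setx s hs, sety s hs]
      exact hC1 (√s)) ht hsx
  obtain ⟨-, hle2⟩ := tsum_exp_le (x := fun i => ‖act A (h i)‖ ^ 2) (y := fun i => ‖h i‖ ^ 2)
    (fun i => by positivity) (fun i => by positivity) finy finx (K := 1 + η) (C := C)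
    (by positivity) hC0 (fun s hs => by
      rw [setx s hs, sety s hs]
      exact hC2 (√s)) ht hsy
  set SA : ℝ := ∑' i, Real.exp (-(δ / R ^ 2 * ‖act A (h i)‖ ^ 2)) with hSA
  set S : ℝ := ∑' i, Real.exp (-(δ / R ^ 2 * ‖h i‖ ^ 2)) with hS
  have hSG : S ≤ G h R := by
    have hs1 := hg.summable (1 / R ^ 2) (by positivity)
    have hs2 : Summable (fun i => Real.exp (-(‖h i‖ / R) ^ 2)) := by
      refine hs1.congr fun i => ?_
      congr 1
      field_simp
    refine hsx.tsum_le_tsum (fun i => ?_) hs2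
    apply Real.exp_le_exp.2
    have : (‖h i‖ / R) ^ 2 ≤ δ / R ^ 2 * ‖h i‖ ^ 2 := by
      have e1 : (‖h i‖ / R) ^ 2 = 1 / R ^ 2 * ‖h i‖ ^ 2 := by field_simp
      rw [e1]
      gcongr
    linarith
  rw [dist_zero_right, Real.norm_eq_abs, abs_div, abs_of_pos hG0, div_lt_iff₀ hG0]
  have hS0 : 0 ≤ S := tsum_nonneg fun i => (Real.exp_pos _).le
  have hSA0 : 0 ≤ SA := tsum_nonneg fun i => (Real.exp_pos _).le
  have hCe : 4 * C + e ≤ e * G h R := by
    have := mul_le_mul_of_nonneg_left hRG he.le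
    have e3 : e * (4 * C / e + 1) = 4 * C + e := by field_simp
    linarith
  have hηG : η * G h R ≤ e / 4 * G h R := by gcongr
  have hηS : η * S ≤ η * G h R := by gcongr
  have b1 : SA - S ≤ η * G h R + C := by nlinarith
  have b2 : S - SA ≤ 2 * (η * G h R) + 2 * C := by
    have : η * SA ≤ η * ((1 + η) * S + C) := by gcongr
    have h7 : η * ((1 + η) * S + C) ≤ 2 * (η * G h R) + C := by
      have h8 : (1 + η) * (η * S) ≤ 2 * (η * G h R) := by
        have : 0 ≤ η * S := by positivity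
        nlinarith
      nlinarith
    linarith
  have hG' : 0 ≤ η * G h R := by positivity
  rw [abs_lt]
  constructor <;> nlinarith

/-- The quadratic form of `A`. -/
lemma form (A : SL(2, ℝ)) : ∃ (p : ℝ) (w : ℂ), 0 ≤ p ∧ p ^ 2 - ‖w‖ ^ 2 = 1 ∧
    ∀ v : ℂ, ‖act A v‖ ^ 2 = p * ‖v‖ ^ 2 + (w * v ^ 2).re := by
  have hd := det_eq A
  refine ⟨((A 0 0) ^ 2 + (A 0 1) ^ 2 + (A 1 0) ^ 2 + (A 1 1) ^ 2) / 2,
    ⟨((A 0 0) ^ 2 + (A 1 0) ^ 2 - (A 0 1) ^ 2 - (A 1 1) ^ 2) / 2,
      -((A 0 0) * (A 0 1) + (A 1 0) * (A 1 1))⟩, by positivity, ?_, ?_⟩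
  · rw [Complex.sq_norm, Complex.normSq_apply]
    simp only
    have h1 : (A 0 0 * A 1 1 - A 0 1 * A 1 0) ^ 2 = 1 := by rw [hd]; norm_num
    linear_combination h1
  · intro v
    rw [Complex.sq_norm, Complex.normSq_apply, Complex.sq_norm, Complex.normSq_apply, act_re,
      act_im]
    rw [pow_two v, Complex.mul_re, Complex.mul_re, Complex.mul_im]
    simp only
    ring

/-- The asymptotic mean value property for one large scale. -/
lemma key_c (hg : GReg h) (h1 : Equi h) {A : SL(2, ℝ)}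
    (hlim : Tendsto (fun R => N (fun i => act A (h i)) R / N h R) atTop (𝓝 1))
    {p : ℝ} {w₀ : ℂ} (hform : ∀ v : ℂ, ‖act A v‖ ^ 2 = p * ‖v‖ ^ 2 + (w₀ * v ^ 2).re)
    {c : ℝ} (hc1 : 1 ≤ c) (hc : 1 ≤ c * (p - ‖w₀‖)) :
    Tendsto (fun R : ℝ => (2 * Real.pi)⁻¹ * (∫ θ in (0:ℝ)..(2 * Real.pi),
      ph h R (c * (p + ‖w₀‖ * Real.cos θ))) - ph h R c) atTop (𝓝 0) := by
  have hc0 : 0 < c := by linarith
  have hnw : ‖(c : ℂ) * w₀‖ = c * ‖w₀‖ := by
    rw [norm_mul, Complex.norm_real, Real.norm_of_nonneg hc0.le]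
  have hw : ‖(c : ℂ) * w₀‖ ≤ c * p - 1 := by
    rw [hnw]; linarith
  have r := rot_E hg h1 hw
  have s := cmp hg hlim hc1
  have rs := s.sub r
  rw [sub_zero] at rs
  refine rs.congr' ?_
  filter_upwards [eventually_gt_atTop (0 : ℝ)] with R hR
  have hG := hg.G_pos hR
  have e1 : L h (E (c * p - 1) ((c : ℂ) * w₀)) R =
      (∑' i, Real.exp (-(c / R ^ 2 * ‖act A (h i)‖ ^ 2))) / G h R := by
    rw [L_E hR]
    congr 1
    refine tsum_congr fun i => ?_
    congr 2
    rw [hform, mul_assoc, Complex.re_ofReal_mul]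
    ring
  have e2 : ph h R c = (∑' i, Real.exp (-(c / R ^ 2 * ‖h i‖ ^ 2))) / G h R := by
    unfold ph
    rw [G_eq hR hc0]
  have e3 : (∫ θ in (0:ℝ)..(2 * Real.pi), G h (R / √(1 + (c * p - 1) + ‖(c : ℂ) * w₀‖ *
      Real.cos θ)) / G h R) = ∫ θ in (0:ℝ)..(2 * Real.pi),
      ph h R (c * (p + ‖w₀‖ * Real.cos θ)) := by
    refine intervalIntegral.integral_congr fun θ _ => ?_
    show _ = G h (R / √(c * (p + ‖w₀‖ * Real.cos θ))) / G h R
    rw [hnw]
    congr 4
    ring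
  rw [e1, e2, e3, sub_div]
  ring

/-- The asymptotic mean value property for all scales. -/
lemma key_t (hg : GReg h) (h1 : Equi h) {A : SL(2, ℝ)}
    (hlim : Tendsto (fun R => N (fun i => act A (h i)) R / N h R) atTop (𝓝 1))
    {p : ℝ} {w₀ : ℂ} (hform : ∀ v : ℂ, ‖act A v‖ ^ 2 = p * ‖v‖ ^ 2 + (w₀ * v ^ 2).re)
    (hp0 : 0 ≤ p) (hp : p ^ 2 - ‖w₀‖ ^ 2 = 1) {t : ℝ} (ht : 0 < t) :
    Tendsto (fun R : ℝ => (2 * Real.pi)⁻¹ * (∫ θ in (0:ℝ)..(2 * Real.pi),
      ph h R (t * (p + ‖w₀‖ * Real.cos θ))) - ph h R t) atTop (𝓝 0) := by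
  have hb := norm_nonneg w₀
  have hp1 : 1 ≤ p := by nlinarith
  have hpb : 0 < p - ‖w₀‖ := by nlinarith
  have hprod : (p - ‖w₀‖) * (p + ‖w₀‖) = 1 := by linear_combination hp
  set c : ℝ := p + ‖w₀‖ with hc
  have hc1 : 1 ≤ c := by linarith
  have hc0 : 0 < c := by linarith
  have hc2 : 1 ≤ c * (p - ‖w₀‖) := by linarith
  have h2 := key_c hg h1 hlim hform hc1 hc2
  obtain ⟨K, hK⟩ := ph_bdd hg (t := t / c) (by positivity)
  have hsq : 0 < √(t / c) := Real.sqrt_pos.2 (by positivity)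
  have h3 : Tendsto (fun R : ℝ => R / √(t / c)) atTop atTop := tendsto_id.atTop_div_const hsq
  have h4 := h2.comp h3
  have h5 : Tendsto (fun R : ℝ => ph h R (t / c) * ((2 * Real.pi)⁻¹ *
      (∫ θ in (0:ℝ)..(2 * Real.pi), ph h (R / √(t / c)) (c * (p + ‖w₀‖ * Real.cos θ))) -
        ph h (R / √(t / c)) c)) atTop (𝓝 0) := by
    refine bdd_le_mul_tendsto_zero' K ?_ h4
    filter_upwards [hK, eventually_gt_atTop (0 : ℝ)] with R hR1 hR
    rw [abs_of_nonneg (ph_nonneg hg hR (by positivity))]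
    exact hR1
  refine h5.congr' ?_
  filter_upwards [eventually_gt_atTop (0 : ℝ)] with R hR
  have e1 : (∫ θ in (0:ℝ)..(2 * Real.pi), ph h R (t * (p + ‖w₀‖ * Real.cos θ))) =
      ph h R (t / c) * ∫ θ in (0:ℝ)..(2 * Real.pi),
        ph h (R / √(t / c)) (c * (p + ‖w₀‖ * Real.cos θ)) := by
    rw [← intervalIntegral.integral_const_mul]
    refine intervalIntegral.integral_congr fun θ _ => ?_
    exact ph_scale hg hR ht hc0
  have e2 : ph h R t = ph h R (t / c) * ph h (R / √(t / c)) c := by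
    have := ph_scale hg (s := 1) hR ht hc0
    rwa [mul_one, mul_one] at this
  rw [e1, e2]
  ring

end OneAux

open OneAux CountAux in
theorem affLim_of_equi_count (hf : LocFin h) (hg : GReg h) (h1 : Equi h) {A : SL(2, ℝ)}
    (hA : ∃ z, ‖act A z‖ ≠ ‖z‖)
    (hc : Tendsto (fun R => N (fun i => act A (h i)) R / N h R) atTop (𝓝 1)) :
    AffLim h (1 / 2) := by
  obtain ⟨p, w₀, hp0, hp, hform⟩ := form A
  have hb := norm_nonneg w₀
  have hp1 : 1 ≤ p := by nlinarith
  have hb0 : 0 < ‖w₀‖ := by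
    rcases hb.lt_or_eq with h2 | h2
    · exact h2
    · exfalso
      obtain ⟨z, hz⟩ := hA
      apply hz
      have hw0 : w₀ = 0 := norm_eq_zero.1 h2.symm
      have hp2 : p = 1 := by
        rw [← h2] at hp
        nlinarith
      have h3 := hform z
      rw [hw0, hp2, zero_mul, Complex.zero_re, add_zero, one_mul] at h3
      exact (pow_left_inj₀ (norm_nonneg _) (norm_nonneg _) two_ne_zero).1 h3
  have hp2 : 1 < p := by nlinarith
  have hpb : ‖w₀‖ < p := by nlinarith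
  have hκp : ∀ θ : ℝ, 0 < p + ‖w₀‖ * Real.cos θ := by
    intro θ
    have h2 := Real.neg_one_le_cos θ
    nlinarith
  have hκc : Continuous fun θ : ℝ => p + ‖w₀‖ * Real.cos θ := by fun_prop
  intro U hU
  -- the pointwise limit of the ratios
  have hev : ∀ᶠ R : ℝ in (U : Filter ℝ), 0 < R := hU (eventually_gt_atTop 0)
  have hex : ∀ t : ℝ, ∃ y : ℝ, 0 < t → Tendsto (fun R => ph h R t) U (𝓝 y) := by
    intro t
    by_cases ht : 0 < t
    · obtain ⟨K, hK⟩ := ph_bdd hg ht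
      have hmem : Icc 0 K ∈ (U.map (fun R => ph h R t) : Ultrafilter ℝ) := by
        rw [Ultrafilter.mem_map]
        filter_upwards [hev, hU hK] with R hR hR2
        exact ⟨ph_nonneg hg hR ht, hR2⟩
      obtain ⟨y, -, hy⟩ := isCompact_Icc.ultrafilter_le_nhds _ (le_principal_iff.2 hmem)
      exact ⟨y, fun _ => hy⟩
    · exact ⟨0, fun h2 => absurd h2 ht⟩
  choose φ hφ using hex
  have hφ0 : ∀ t : ℝ, 0 < t → 0 ≤ φ t := by
    intro t ht
    refine ge_of_tendsto (hφ t ht) ?_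
    filter_upwards [hev] with R hR
    exact ph_nonneg hg hR ht
  have hφa : AntitoneOn φ (Ioi 0) := by
    intro s hs t ht hst
    refine le_of_tendsto_of_tendsto (hφ t ht) (hφ s hs) ?_
    filter_upwards [hev] with R hR
    exact ph_anti hg hR hs ht hst
  have hφc : ConvexOn ℝ (Ioi 0) φ := by
    refine ⟨convex_Ioi 0, ?_⟩
    intro s hs t ht a b ha hb hab
    have hst : a • s + b • t ∈ Ioi (0 : ℝ) := convex_Ioi (0 : ℝ) hs ht ha hb hab
    refine le_of_tendsto_of_tendsto (hφ _ hst)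
      (((hφ s hs).const_smul a).add ((hφ t ht).const_smul b)) ?_
    filter_upwards [hev] with R hR
    exact (ph_convex hg hR).2 hs ht ha hb hab
  have hφcont : ContinuousOn φ (Ioi 0) := hφc.continuousOn isOpen_Ioi
  have hφ1 : φ 1 = 1 := by
    refine tendsto_nhds_unique (hφ 1 one_pos) ?_
    refine tendsto_const_nhds.congr' ?_
    filter_upwards [hev] with R hR
    exact (ph_one hg hR).symm
  have hanti : ∀ᶠ R in (U : Filter ℝ), AntitoneOn (ph h R) (Ioi 0) := by
    filter_upwards [hev] with R hR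
    exact ph_anti hg hR
  -- the limit satisfies the mean value property
  have heq : ∀ t : ℝ, 0 < t → (2 * Real.pi)⁻¹ * ∫ θ in (0:ℝ)..(2 * Real.pi),
      φ (t * (p + ‖w₀‖ * Real.cos θ)) = φ t := by
    intro t ht
    have h2 := tendsto_mean_of_antitone (φR := ph h) hanti hφ hφcont
      (κ := fun θ => t * (p + ‖w₀‖ * Real.cos θ)) (by fun_prop)
      (fun θ => mul_pos ht (hκp θ))
    have h3 := (key_t hg h1 hc hform hp0 hp ht).mono_left hU
    have h4 := h2.sub (hφ t ht)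
    have h5 := tendsto_nhds_unique h4 h3
    linarith
  obtain ⟨A', B, hAB⟩ := choquet_deny (κ := fun θ => p + ‖w₀‖ * Real.cos θ) hκc hκp
    (by
      rw [mean_inv hb hpb, hp, Real.sqrt_one, inv_one])
    ⟨Real.pi, ⟨Real.pi_pos, by linarith [Real.pi_pos]⟩, by
      simp only [Real.cos_pi]
      nlinarith⟩
    ⟨Real.pi / 2, ⟨by positivity, by linarith [Real.pi_pos]⟩, by
      simp only [Real.cos_pi_div_two]
      linarith⟩ hφ0 hφa hφc heq
  obtain ⟨P, hP, hlim⟩ := exists_limit hg U hU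
  refine ⟨P, A', B, hP, ?_, hlim, ?_⟩
  · have h2 := hAB 1 one_pos
    rw [hφ1, div_one] at h2
    exact h2.symm
  · intro a w ha hw
    have hw' : ‖w‖ ≤ a := by linarith
    have hpos : ∀ θ : ℝ, 0 < 1 + a + ‖w‖ * Real.cos θ := by
      intro θ
      have h2 := Real.neg_one_le_cos θ
      have h3 := norm_nonneg w
      nlinarith
    have h2 := tendsto_mean_of_antitone (φR := ph h) hanti hφ hφcont
      (κ := fun θ => 1 + a + ‖w‖ * Real.cos θ) (by fun_prop) hpos
    have h3 := (rot_E hg h1 hw').mono_left hU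
    have h4 := hlim (E a w) (E_cont a w) (E_bdd hw')
    have h5 := tendsto_nhds_unique (h4.sub h2) h3
    have h6 : (∫ θ in (0:ℝ)..(2 * Real.pi), φ (1 + a + ‖w‖ * Real.cos θ)) =
        ∫ θ in (0:ℝ)..(2 * Real.pi), (A' + B * (1 + a + ‖w‖ * Real.cos θ)⁻¹) := by
      refine intervalIntegral.integral_congr fun θ _ => ?_
      show φ (1 + a + ‖w‖ * Real.cos θ) = _
      rw [hAB _ (hpos θ), div_eq_mul_inv]
    have hc2 : Continuous fun θ : ℝ => (1 + a + ‖w‖ * Real.cos θ)⁻¹ :=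
      Continuous.inv₀ (by fun_prop) fun θ => (hpos θ).ne'
    have hc4 : Continuous fun θ : ℝ => B * (1 + a + ‖w‖ * Real.cos θ)⁻¹ :=
      continuous_const.mul hc2
    have hc5 : Continuous fun _ : ℝ => A' := continuous_const
    rw [h6, intervalIntegral.integral_add (hc5.intervalIntegrable _ _)
      (hc4.intervalIntegrable _ _), intervalIntegral.integral_const_mul,
      intervalIntegral.integral_const, sub_zero, smul_eq_mul] at h5
    have h7 := mean_inv (τ := 1 + a) (norm_nonneg w) (by linarith)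
    have hpi : (2 * Real.pi)⁻¹ * (2 * Real.pi) = 1 := inv_mul_cancel₀ (by positivity)
    rw [div_eq_mul_inv, ← h7]
    linear_combination h5 + A' * hpi

theorem leb_of_equi_count (hf : LocFin h) (hs : ∃ σ : Equiv.Perm ι, ∀ i, h (σ i) = -h i)
    (hlow : ∃ c : ℝ, 0 < c ∧ ∀ᶠ R in atTop, c * R ≤ N h R) (h1 : Equi h) {A : SL(2, ℝ)}
    (hA : ∃ z, ‖act A z‖ ≠ ‖z‖)
    (hc : Tendsto (fun R => N (fun i => act A (h i)) R / N h R) atTop (𝓝 1)) : LebLim h := by
  have hg : GReg h := GReg.of_doubling hf hlow (exists_doubling_of_equi hf h1 hA hc)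
  exact leb_of_tendsto_L hg hs (tendsto_L_of_affine hf hlow hg (by norm_num) (by norm_num)
    (affLim_of_equi_count hf hg h1 hA hc))

end SAD
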