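import Mathlib

/-!
# A lemma on pairs of monotone functions (MP_d36302_an)

PLAN.  Apply (b) with `τ = 1` : `g R ≤ (1+ε) f ((1+ε) R)` eventually, and (a) with `τ = 1` :
`f R ≤ (1+ε) g ((1+ε) R)`, i.e. `g R ≥ f (R/(1+ε)) / (1+ε)` eventually. Hence, eventually in `R`,
for every fixed `τ ∈ [α⁻¹, α]` and `ε > 0` :
 (c) `f (τ R) ≤ τ² (1+ε) g ((1+ε) R) ≤ τ² (1+ε)² f ((1+ε)² R)`;
 (d) `f (τ R) ≥ τ² (1+ε)⁻¹ g (R/(1+ε)) ≥ τ² (1+ε)⁻² f (R/(1+ε)²)`.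
(c) with `τ = (1+ε)^4 ≤ α` gives, replacing `R` by `R/(1+ε)²`:
 (e) `f ((1+ε)² R) ≤ (1+ε)^10 f R`.
(c), (d), (e): `τ² (1+ε)^(-12) f R ≤ f (τ R) ≤ τ² (1+ε)^12 f R` eventually, for all small `ε`.
So the claim holds for `l ∈ [α⁻¹, α]`; the set of `l > 0` for which the claim holds is closed under
products (compose with `R ↦ l R`), hence it is everything (`l = (l^(1/n))^n`).
-/

open Filter Topology Set

namespace SAD

/-- substitution `R ↦ c R` in eventual statements -/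
theorem eventually_scale {p : ℝ → Prop} (h : ∀ᶠ R in atTop, p R) {c : ℝ} (hc : 0 < c) :
    ∀ᶠ R in atTop, p (c * R) :=
  (tendsto_id.const_mul_atTop hc).eventually h

theorem tendsto_ratio_of_squeeze {f g : ℝ → ℝ} (hf : Monotone f) (hg : Monotone g)
    (hf0 : ∀ R, 0 ≤ f R) (hg0 : ∀ R, 0 ≤ g R) (hpos : ∀ᶠ R in atTop, 0 < f R)
    {α : ℝ} (hα : 1 < α)
    (ha : ∀ τ ∈ Icc α⁻¹ α, ∀ ε : ℝ, 0 < ε →
      ∀ᶠ R in atTop, f (τ * R) ≤ τ ^ 2 * (1 + ε) * g ((1 + ε) * R))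
    (hb : ∀ τ ∈ Icc α⁻¹ α, ∀ ε : ℝ, 0 < ε →
      ∀ᶠ R in atTop, τ ^ 2 * g R ≤ (1 + ε) * f (τ * ((1 + ε) * R))) :
    ∀ l : ℝ, 0 < l → Tendsto (fun R => f (l * R) / f R) atTop (𝓝 (l ^ 2)) := by
  have hα0 : (0 : ℝ) < α := lt_trans one_pos hα
  have hαi : α⁻¹ < 1 := inv_lt_one_of_one_lt₀ hα
  have h1m : (1 : ℝ) ∈ Icc α⁻¹ α := ⟨hαi.le, hα.le⟩
  have hτ0 : ∀ τ ∈ Icc α⁻¹ α, 0 < τ := fun τ hτ => lt_of_lt_of_le (inv_pos.2 hα0) hτ.1
  -- (c)
  have hC : ∀ τ ∈ Icc α⁻¹ α, ∀ u : ℝ, 1 < u →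
      ∀ᶠ R in atTop, f (τ * R) ≤ τ ^ 2 * u ^ 2 * f (u ^ 2 * R) := by
    intro τ hτ u hu
    have hu0 : 0 < u := lt_trans one_pos hu
    have h1 := ha τ hτ (u - 1) (by linarith)
    have h2 := eventually_scale (hb 1 h1m (u - 1) (by linarith)) hu0
    filter_upwards [h1, h2] with R h1 h2
    have e1 : 1 + (u - 1) = u := by ring
    rw [e1] at h1 h2
    have h3 : g (u * R) ≤ u * f (u ^ 2 * R) := by
      have h4 : (1 : ℝ) * (u * (u * R)) = u ^ 2 * R := by ring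
      rw [h4] at h2
      linarith
    calc f (τ * R) ≤ τ ^ 2 * u * g (u * R) := h1
      _ ≤ τ ^ 2 * u * (u * f (u ^ 2 * R)) := by
          refine mul_le_mul_of_nonneg_left h3 ?_
          positivity
      _ = τ ^ 2 * u ^ 2 * f (u ^ 2 * R) := by ring
  -- (d)
  have hD : ∀ τ ∈ Icc α⁻¹ α, ∀ u : ℝ, 1 < u →
      ∀ᶠ R in atTop, τ ^ 2 * f R ≤ u ^ 2 * f (τ * (u ^ 2 * R)) := by
    intro τ hτ u hu
    have hu0 : 0 < u := lt_trans one_pos hu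
    have h1 := ha 1 h1m (u - 1) (by linarith)
    have h2 := eventually_scale (hb τ hτ (u - 1) (by linarith)) hu0
    filter_upwards [h1, h2] with R h1 h2
    have e1 : 1 + (u - 1) = u := by ring
    rw [e1] at h1 h2
    have h3 : f R ≤ u * g (u * R) := by
      rw [one_mul] at h1
      linarith
    have h4 : τ * (u * (u * R)) = τ * (u ^ 2 * R) := by ring
    rw [h4] at h2
    calc τ ^ 2 * f R ≤ τ ^ 2 * (u * g (u * R)) :=
          mul_le_mul_of_nonneg_left h3 (by positivity)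
      _ = u * (τ ^ 2 * g (u * R)) := by ring
      _ ≤ u * (u * f (τ * (u ^ 2 * R))) := mul_le_mul_of_nonneg_left h2 hu0.le
      _ = u ^ 2 * f (τ * (u ^ 2 * R)) := by ring
  -- (e)
  have hE : ∀ u : ℝ, 1 < u → u ^ 4 ≤ α →
      ∀ᶠ R in atTop, f (u ^ 2 * R) ≤ u ^ 10 * f R := by
    intro u hu hua
    have hu0 : 0 < u := lt_trans one_pos hu
    have h4 : (1 : ℝ) ≤ u ^ 4 := one_le_pow₀ hu.le
    have h1 := eventually_scale (hC (u ^ 4) ⟨hαi.le.trans h4, hua⟩ u hu)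
      (c := (u ^ 2)⁻¹) (by positivity)
    filter_upwards [h1] with R h1
    have e1 : u ^ 4 * ((u ^ 2)⁻¹ * R) = u ^ 2 * R := by field_simp
    have e2 : u ^ 2 * ((u ^ 2)⁻¹ * R) = R := by field_simp
    rw [e1, e2] at h1
    calc f (u ^ 2 * R) ≤ (u ^ 4) ^ 2 * u ^ 2 * f R := h1
      _ = u ^ 10 * f R := by ring
  have hC' : ∀ τ ∈ Icc α⁻¹ α, ∀ u : ℝ, 1 < u → u ^ 4 ≤ α →
      ∀ᶠ R in atTop, f (τ * R) ≤ τ ^ 2 * u ^ 12 * f R := by
    intro τ hτ u hu hua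
    filter_upwards [hC τ hτ u hu, hE u hu hua] with R h1 h2
    calc f (τ * R) ≤ τ ^ 2 * u ^ 2 * f (u ^ 2 * R) := h1
      _ ≤ τ ^ 2 * u ^ 2 * (u ^ 10 * f R) := mul_le_mul_of_nonneg_left h2 (by positivity)
      _ = τ ^ 2 * u ^ 12 * f R := by ring
  have hD' : ∀ τ ∈ Icc α⁻¹ α, ∀ u : ℝ, 1 < u → u ^ 4 ≤ α →
      ∀ᶠ R in atTop, τ ^ 2 * f R ≤ u ^ 12 * f (τ * R) := by
    intro τ hτ u hu hua
    have hu0 : 0 < u := lt_trans one_pos hu
    have h1 := eventually_scale (hD τ hτ u hu) (c := (u ^ 2)⁻¹) (by positivity)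
    have h2 := eventually_scale (hE u hu hua) (c := (u ^ 2)⁻¹) (by positivity)
    filter_upwards [h1, h2] with R h1 h2
    have e2 : u ^ 2 * ((u ^ 2)⁻¹ * R) = R := by field_simp
    rw [e2] at h1 h2
    calc τ ^ 2 * f R ≤ τ ^ 2 * (u ^ 10 * f ((u ^ 2)⁻¹ * R)) :=
          mul_le_mul_of_nonneg_left h2 (by positivity)
      _ = u ^ 10 * (τ ^ 2 * f ((u ^ 2)⁻¹ * R)) := by ring
      _ ≤ u ^ 10 * (u ^ 2 * f (τ * R)) := mul_le_mul_of_nonneg_left h1 (by positivity)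
      _ = u ^ 12 * f (τ * R) := by ring
  -- small `u`
  have hsm : ∀ x y : ℝ, x < y → ∃ u : ℝ, 1 < u ∧ u ^ 4 ≤ α ∧ x * u ^ 12 < y := by
    intro x y hxy
    have t1 : Tendsto (fun u : ℝ => u ^ 4) (𝓝[>] 1) (𝓝 (1 ^ 4)) :=
      ((continuous_pow 4).tendsto 1).mono_left nhdsWithin_le_nhds
    have t2 : Tendsto (fun u : ℝ => x * u ^ 12) (𝓝[>] 1) (𝓝 (x * 1 ^ 12)) :=
      ((continuous_const.mul (continuous_pow 12)).tendsto 1).mono_left nhdsWithin_le_nhds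
    rw [one_pow] at t1 t2
    rw [mul_one] at t2
    have e1 := t1.eventually_lt_const hα
    have e2 := t2.eventually_lt_const hxy
    have e3 : ∀ᶠ u : ℝ in 𝓝[>] 1, u ∈ Ioi (1 : ℝ) := self_mem_nhdsWithin
    obtain ⟨u, h1, h2, h3⟩ := (e1.and (e2.and e3)).exists
    exact ⟨u, h3, h1.le, h2⟩
  -- the claim near 1
  have hP1 : ∀ τ ∈ Icc α⁻¹ α, Tendsto (fun R => f (τ * R) / f R) atTop (𝓝 (τ ^ 2)) := by
    intro τ hτ
    rw [tendsto_order]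
    refine ⟨fun a hat => ?_, fun b hb' => ?_⟩
    · obtain ⟨u, hu1, hu2, hu3⟩ := hsm a (τ ^ 2) hat
      filter_upwards [hD' τ hτ u hu1 hu2, hpos] with R h1 h2
      rw [lt_div_iff₀ h2]
      have hu0 : 0 < u ^ 12 := by positivity
      have h3 : a * u ^ 12 * f R < τ ^ 2 * f R := mul_lt_mul_of_pos_right hu3 h2
      have h4 : u ^ 12 * (a * f R) < u ^ 12 * f (τ * R) := by linarith
      exact lt_of_mul_lt_mul_left h4 hu0.le
    · obtain ⟨u, hu1, hu2, hu3⟩ := hsm (τ ^ 2) b hb'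
      filter_upwards [hC' τ hτ u hu1 hu2, hpos] with R h1 h2
      rw [div_lt_iff₀ h2]
      exact lt_of_le_of_lt h1 (mul_lt_mul_of_pos_right hu3 h2)
  -- products
  have hmul : ∀ l m : ℝ, 0 < m →
      Tendsto (fun R => f (l * R) / f R) atTop (𝓝 (l ^ 2)) →
      Tendsto (fun R => f (m * R) / f R) atTop (𝓝 (m ^ 2)) →
      Tendsto (fun R => f ((l * m) * R) / f R) atTop (𝓝 ((l * m) ^ 2)) := by
    intro l m hm hl hm'
    have h1 := hl.comp (tendsto_id.const_mul_atTop hm)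
    have h2 := h1.mul hm'
    rw [← mul_pow] at h2
    refine h2.congr' ?_
    filter_upwards [eventually_scale hpos hm] with R h3
    simp only [Function.comp, id]
    rw [div_mul_div_cancel₀ (ne_of_gt h3), mul_assoc]
  have hpow : ∀ τ ∈ Icc α⁻¹ α, ∀ n : ℕ,
      Tendsto (fun R => f (τ ^ n * R) / f R) atTop (𝓝 ((τ ^ n) ^ 2)) := by
    intro τ hτ n
    induction n with
    | zero =>
      rw [pow_zero]
      exact hP1 1 h1m
    | succ n ih =>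
      rw [pow_succ]
      exact hmul _ _ (hτ0 τ hτ) ih (hP1 τ hτ)
  intro l hl
  have t1 : Tendsto (fun n : ℕ => Real.exp (Real.log l / (n : ℝ))) atTop (𝓝 1) := by
    have h1 := (Real.continuous_exp.tendsto 0).comp
      (tendsto_const_div_atTop_nhds_zero_nat (Real.log l))
    rw [Real.exp_zero] at h1
    exact h1
  have h2 : ∀ᶠ n : ℕ in atTop, Real.exp (Real.log l / (n : ℝ)) ∈ Icc α⁻¹ α :=
    t1.eventually (Icc_mem_nhds hαi hα)
  obtain ⟨n, hn, hn0⟩ := (h2.and (eventually_gt_atTop 0)).exists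
  have h3 : (Real.exp (Real.log l / (n : ℝ))) ^ n = l := by
    rw [← Real.exp_nat_mul]
    have hn' : (n : ℝ) ≠ 0 := by
      have : (0 : ℝ) < n := by exact_mod_cast hn0
      exact ne_of_gt this
    rw [mul_div_cancel₀ _ hn', Real.exp_log hl]
  have h4 := hpow _ hn n
  rw [h3] at h4
  exact h4

end SAD
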