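import Pool.Agent.Lib.SAD.Polar
import Pool.Agent.Lib.SAD.RVreal

/-!
# Equidistribution for `h` and for `A h`, one `A` outside `SO(2)`, forces `N (l R) / N R → l²`

PLAN.  Fix a unit vector `u₀`, put `s = ‖act A u₀‖ > 0`, `τ = s⁻¹`, and `δ ∈ (0, 1)` small.
Test function `ψ z = max 0 (1 - |‖act A z‖ - s| / (δ s))` (continuous on `ℂ`, values in `[0,1]`,
`ψ u₀ = 1`, and for a unit vector `u` : `ψ u ≠ 0 → s (1-δ) < ‖act A u‖ < s (1+δ)`).
For `w` with `‖w‖ = 1` put `ψ' w = ψ (act A⁻¹ w / ‖act A⁻¹ w‖)`; if `w = act A u / ‖act A u‖` with `u`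
a unit vector then `ψ' w = ψ u`.  `ψ'` extends continuously to `ℂ`: for `‖w‖ = 1` one has
`ψ' w = max 0 (1 - |(‖act A⁻¹ w‖)⁻¹ - s| / (δ s))`, replace `‖act A⁻¹ w‖` by
`max (‖act A⁻¹ w‖) c` with `c > 0` a lower bound of it on the unit circle.
Let `m = circleAverage ψ 0 1 > 0` and `m' = circleAverage ψ' 0 1`.
By `integral_disc` and `integral_act`:
 `π m' = ∫_{‖w‖ ≤ 1} ψ' (w/‖w‖) = ∫_{‖act A v‖ ≤ 1} ψ (v/‖v‖)`, which lies between
 `∫_{‖v‖ ≤ 1/(s(1+δ))} ψ (v/‖v‖) = π m / (s(1+δ))²` and `π m / (s(1-δ))²`.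
For `R > 0` let `S R = ∑_{i : ‖act A (h i)‖ ≤ R} ψ (h i / ‖h i‖) = dirSum (A h) ψ' R`.
Since on the support of `ψ` the norm of `act A (h i)` is within `(1±δ) s ‖h i‖`:
 `dirSum h ψ (R/(s(1+δ))) ≤ S R ≤ dirSum h ψ (R/(s(1-δ)))`.
Equidistribution: `dirSum h ψ ρ = (m + o(1)) N h ρ`, `S R = (m' + o(1)) N (A h) R`.
Together: eventually `(1-δ) m N h (R τ/(1+δ)) ≤ (1+δ) m' N_A R ≤ (1+δ) m τ²/(1-δ)² N_A R` and
`(1-δ) m τ²/(1+δ)² N_A R ≤ (1-δ) m' N_A R ≤ (1+δ) m N h (R τ/(1-δ))`.  With `δ` small this gives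
`upper` and `lower` below.  (`N h R > 0` eventually, by `Equi h` with `f = 1`.)

Then: `A` is not orthogonal and `det A = 1`, so the values `‖act A u‖⁻¹`, `u` a unit vector, fill a
nontrivial interval `[α⁻¹, α]` : with `u = exp(iθ)`,
`‖act A u‖² = p + q cos 2θ + r sin 2θ`, `p² - q² - r² = 1`, `p > 1`.  Apply
`tendsto_ratio_of_squeeze`.
-/

open Filter Topology MeasureTheory Set
open scoped MatrixGroups

namespace SAD

variable {ι : Type*} {h : ι → ℂ}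

lemma Equi.eventually_pos (h1 : Equi h) : ∀ᶠ R in atTop, 0 < N h R := by
  have h2 := h1 (fun _ => 1) continuous_const
  rw [Real.circleAverage_const] at h2
  have h3 := h2.eventually (lt_mem_nhds (show (0:ℝ) < 1 by norm_num))
  filter_upwards [h3] with R hR
  rcases (N_nonneg h R).lt_or_eq with h4 | h4
  · exact h4
  · rw [← h4] at hR
    simp at hR

/-! ### The test functions -/

/-- The test function on the source circle. -/
noncomputable def psi (A : SL(2, ℝ)) (s δ : ℝ) (z : ℂ) : ℝ :=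
  max 0 (1 - |‖act A z‖ - s| / (δ * s))

/-- The test function on the target circle. -/
noncomputable def psi' (A : SL(2, ℝ)) (s δ c : ℝ) (w : ℂ) : ℝ :=
  max 0 (1 - |(max ‖act A⁻¹ w‖ c)⁻¹ - s| / (δ * s))

lemma psi_nonneg (A : SL(2, ℝ)) (s δ : ℝ) (z : ℂ) : 0 ≤ psi A s δ z := le_max_left _ _

lemma psi_le_one (A : SL(2, ℝ)) {s δ : ℝ} (hs : 0 < s) (hδ : 0 < δ) (z : ℂ) :
    psi A s δ z ≤ 1 := by
  refine max_le (by norm_num) ?_
  have : 0 ≤ |‖act A z‖ - s| / (δ * s) := by positivity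
  linarith

lemma continuous_psi (A : SL(2, ℝ)) (s δ : ℝ) : Continuous (psi A s δ) := by
  unfold psi
  have := continuous_act A
  fun_prop

lemma continuous_psi' (A : SL(2, ℝ)) (s δ : ℝ) {c : ℝ} (hc : 0 < c) :
    Continuous (psi' A s δ c) := by
  unfold psi'
  have h1 := continuous_act A⁻¹
  have h2 : Continuous (fun w => (max ‖act A⁻¹ w‖ c)⁻¹) :=
    Continuous.inv₀ (by fun_prop) (fun w => (lt_of_lt_of_le hc (le_max_right _ _)).ne')
  fun_prop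

lemma psi_self (A : SL(2, ℝ)) {u : ℂ} (δ : ℝ) : psi A ‖act A u‖ δ u = 1 := by
  simp [psi]

lemma psi_supp (A : SL(2, ℝ)) {s δ : ℝ} (hs : 0 < s) (hδ : 0 < δ) {z : ℂ}
    (hz : psi A s δ z ≠ 0) : s * (1 - δ) < ‖act A z‖ ∧ ‖act A z‖ < s * (1 + δ) := by
  have h1 : 0 < 1 - |‖act A z‖ - s| / (δ * s) := by
    by_contra hcon
    push Not at hcon
    exact hz (max_eq_left hcon)
  have h2 : |‖act A z‖ - s| < δ * s := by
    have h3 : |‖act A z‖ - s| / (δ * s) < 1 := by linarith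
    rwa [div_lt_one (by positivity)] at h3
  rw [abs_lt] at h2
  constructor <;> nlinarith [h2.1, h2.2]

lemma norm_act_unit (A : SL(2, ℝ)) {z : ℂ} (hz : z ≠ 0) :
    ‖act A z‖ = ‖z‖ * ‖act A (z / (‖z‖ : ℂ))‖ := by
  rw [act_div, norm_div]
  simp
  field_simp

lemma psi'_eq (A : SL(2, ℝ)) (s δ : ℝ) {c : ℝ}
    (hc2 : ∀ w : ℂ, ‖w‖ = 1 → c ≤ ‖act A⁻¹ w‖) {z : ℂ} (hz : z ≠ 0) :
    psi' A s δ c (act A z / (‖act A z‖ : ℂ)) = psi A s δ (z / (‖z‖ : ℂ)) := by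
  have hz' := act_ne_zero A hz
  have hn : 0 < ‖act A z‖ := norm_pos_iff.mpr hz'
  have hn2 : 0 < ‖z‖ := norm_pos_iff.mpr hz
  have h1 : ‖act A z / (‖act A z‖ : ℂ)‖ = 1 := by
    rw [norm_div]; simp [hn.ne']
  have h2 := hc2 _ h1
  unfold psi' psi
  rw [max_eq_left h2]
  have h3 : ‖act A⁻¹ (act A z / (‖act A z‖ : ℂ))‖⁻¹ = ‖act A (z / (‖z‖ : ℂ))‖ := by
    rw [act_div, act_inv_act, act_div, norm_div, norm_div]
    simp
  rw [h3]

/-! ### Sums -/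

lemma finsum_mem_le {f : ι → ℝ} (hf : ∀ i, 0 ≤ f i) {S T : Set ι} (hS : S.Finite) (hT : T.Finite)
    (h1 : ∀ i ∈ S, f i ≠ 0 → i ∈ T) : ∑ᶠ i ∈ S, f i ≤ ∑ᶠ i ∈ T, f i := by
  classical
  rw [finsum_mem_eq_finite_toFinset_sum _ hS, finsum_mem_eq_finite_toFinset_sum _ hT]
  rw [← Finset.sum_filter_ne_zero]
  refine Finset.sum_le_sum_of_subset_of_nonneg ?_ (fun i _ _ => hf i)
  intro i hi
  rw [Finset.mem_filter, Set.Finite.mem_toFinset] at hi
  rw [Set.Finite.mem_toFinset]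
  exact h1 i hi.1 hi.2

lemma dirSum_act (hf : LocFin h) (A : SL(2, ℝ)) (s δ : ℝ) {c : ℝ} (hc : 0 < c)
    (hc2 : ∀ w : ℂ, ‖w‖ = 1 → c ≤ ‖act A⁻¹ w‖) (R : ℝ) :
    dirSum (fun i => act A (h i)) (psi' A s δ c) R =
      ∑ᶠ i ∈ {i | ‖act A (h i)‖ ≤ R}, psi A s δ (h i / (‖h i‖ : ℂ)) := by
  unfold dirSum
  refine finsum_mem_congr rfl fun i _ => ?_
  exact psi'_eq A s δ hc2 (hf.1 i)

lemma dirSum_le_act (hf : LocFin h) (A : SL(2, ℝ)) {s δ : ℝ} (hs : 0 < s) (hδ : 0 < δ) {c : ℝ}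
    (hc : 0 < c) (hc2 : ∀ w : ℂ, ‖w‖ = 1 → c ≤ ‖act A⁻¹ w‖) (R : ℝ) :
    dirSum h (psi A s δ) (R / (s * (1 + δ))) ≤
      dirSum (fun i => act A (h i)) (psi' A s δ c) R := by
  rw [dirSum_act hf A s δ hc hc2]
  unfold dirSum
  refine finsum_mem_le (fun i => psi_nonneg _ _ _ _) (hf.2 _) ((hf.act A).2 _) ?_
  intro i hi hne
  have hi' : ‖h i‖ ≤ R / (s * (1 + δ)) := hi
  show ‖act A (h i)‖ ≤ R
  have h1 := (psi_supp A hs hδ hne).2
  rw [norm_act_unit A (hf.1 i)]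
  rw [le_div_iff₀ (by positivity)] at hi'
  refine le_trans ?_ hi'
  have := norm_nonneg (h i)
  gcongr

lemma act_le_dirSum (hf : LocFin h) (A : SL(2, ℝ)) {s δ : ℝ} (hs : 0 < s) (hδ : 0 < δ)
    (hδ1 : δ < 1) {c : ℝ}
    (hc : 0 < c) (hc2 : ∀ w : ℂ, ‖w‖ = 1 → c ≤ ‖act A⁻¹ w‖) (R : ℝ) :
    dirSum (fun i => act A (h i)) (psi' A s δ c) R ≤
      dirSum h (psi A s δ) (R / (s * (1 - δ))) := by
  rw [dirSum_act hf A s δ hc hc2]
  unfold dirSum
  refine finsum_mem_le (fun i => psi_nonneg _ _ _ _) ((hf.act A).2 _) (hf.2 _) ?_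
  intro i hi hne
  have hi' : ‖act A (h i)‖ ≤ R := hi
  show ‖h i‖ ≤ R / (s * (1 - δ))
  have h1 := (psi_supp A hs hδ hne).1
  rw [norm_act_unit A (hf.1 i)] at hi'
  have h2 : 0 < s * (1 - δ) := by
    have : 0 < 1 - δ := by linarith
    positivity
  rw [le_div_iff₀ h2]
  refine le_trans ?_ hi'
  have := norm_nonneg (h i)
  gcongr

/-! ### Averages -/

lemma average_pos {f : ℂ → ℝ} (hf : Continuous f) (h0 : ∀ z, 0 ≤ f z) {u : ℂ} (hu : ‖u‖ = 1)
    (hfu : 0 < f u) : 0 < Real.circleAverage f 0 1 := by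
  have h1 : u ∈ circleMap 0 1 '' Ioc 0 (2 * Real.pi) := by
    rw [image_circleMap_Ioc]; simp [hu]
  obtain ⟨θ, hθ, hθu⟩ := h1
  rw [Real.circleAverage_def]
  have h2 : 0 < ∫ t in (0:ℝ)..2 * Real.pi, f (circleMap 0 1 t) := by
    refine intervalIntegral.integral_pos (by positivity) ?_ (fun x _ => h0 _) ⟨θ, ?_, ?_⟩
    · exact (hf.comp (continuous_circleMap 0 1)).continuousOn
    · exact ⟨hθ.1.le, hθ.2⟩
    · rw [hθu]; exact hfu
  have h3 := Real.pi_pos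
  simp only [smul_eq_mul]
  positivity

lemma integrableOn_ang (A : SL(2, ℝ)) {s δ : ℝ} (hs : 0 < s) (hδ : 0 < δ) {S : Set ℂ}
    (hS : MeasurableSet S) (hS2 : volume S ≠ ⊤) :
    IntegrableOn (fun z => psi A s δ (z / (‖z‖ : ℂ))) S := by
  have h1 : Measurable (fun z : ℂ => psi A s δ (z / (‖z‖ : ℂ))) := by
    have h2 := (continuous_psi A s δ).measurable
    have h3 : Measurable (fun z : ℂ => z / (‖z‖ : ℂ)) := by fun_prop
    exact h2.comp h3
  refine Measure.integrableOn_of_bounded (M := 1) hS2 h1.aestronglyMeasurable ?_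
  refine Filter.Eventually.of_forall fun z => ?_
  rw [Real.norm_eq_abs, abs_of_nonneg (psi_nonneg _ _ _ _)]
  exact psi_le_one A hs hδ _

lemma average_act (A : SL(2, ℝ)) (s δ : ℝ) {c : ℝ}
    (hc : 0 < c) (hc2 : ∀ w : ℂ, ‖w‖ = 1 → c ≤ ‖act A⁻¹ w‖) :
    Real.pi * Real.circleAverage (psi' A s δ c) 0 1 =
      ∫ z in {z : ℂ | ‖act A z‖ ≤ 1}, psi A s δ (z / (‖z‖ : ℂ)) := by
  have h1 := integral_disc (psi' A s δ c) (ρ := 1) (by norm_num)
  rw [one_pow, mul_one] at h1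
  rw [← h1, ← integral_indicator Metric.isClosed_closedBall.measurableSet, ← integral_act A]
  have hm : MeasurableSet {z : ℂ | ‖act A z‖ ≤ 1} := by
    have := (continuous_act A)
    exact (isClosed_le (by fun_prop) continuous_const).measurableSet
  rw [← integral_indicator hm]
  refine integral_congr_ae ?_
  have h0 : ∀ᵐ z : ℂ, z ≠ 0 := by
    simp [ae_iff]
  filter_upwards [h0] with z hz
  by_cases h2 : ‖act A z‖ ≤ 1
  · rw [Set.indicator_of_mem (by rw [mem_closedBall_zero_iff]; exact h2),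
      Set.indicator_of_mem (by exact h2)]
    exact psi'_eq A s δ hc2 hz
  · rw [Set.indicator_of_notMem (by rw [mem_closedBall_zero_iff]; exact h2),
      Set.indicator_of_notMem (by exact h2)]

lemma measurableSet_act (A : SL(2, ℝ)) : MeasurableSet {z : ℂ | ‖act A z‖ ≤ 1} := by
  have := (continuous_act A)
  exact (isClosed_le (by fun_prop) continuous_const).measurableSet

lemma volume_act_ne_top (A : SL(2, ℝ)) : volume {z : ℂ | ‖act A z‖ ≤ 1} ≠ ⊤ := by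
  obtain ⟨C, hC, -, h2⟩ := exists_norm_act_le A
  have h3 : {z : ℂ | ‖act A z‖ ≤ 1} ⊆ Metric.closedBall 0 C := by
    intro z hz
    rw [mem_closedBall_zero_iff]
    have hz' : ‖act A z‖ ≤ 1 := hz
    refine (h2 z).trans ?_
    nlinarith
  exact ((measure_mono h3).trans_lt measure_closedBall_lt_top).ne

lemma set_mono {f : ℂ → ℝ} (h0 : ∀ z, 0 ≤ f z) {S T : Set ℂ} (hS : MeasurableSet S)
    (hT : MeasurableSet T) (hi : IntegrableOn f T) (hST : ∀ z ∈ S, z ≠ 0 → f z ≠ 0 → z ∈ T) :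
    ∫ z in S, f z ≤ ∫ z in T, f z := by
  rw [← integral_indicator hS, ← integral_indicator hT]
  refine integral_mono_of_nonneg ?_ ?_ ?_
  · exact Filter.Eventually.of_forall fun z => Set.indicator_nonneg (fun z _ => h0 z) z
  · rwa [integrable_indicator_iff hT]
  · have h0' : ∀ᵐ z : ℂ, z ≠ 0 := by simp [ae_iff]
    filter_upwards [h0'] with z hz
    by_cases h1 : z ∈ S
    · by_cases h2 : f z = 0
      · rw [Set.indicator_of_mem h1, h2]
        exact Set.indicator_nonneg (fun z _ => h0 z) z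
      · rw [Set.indicator_of_mem h1, Set.indicator_of_mem (hST z h1 hz h2)]
    · rw [Set.indicator_of_notMem h1]
      exact Set.indicator_nonneg (fun z _ => h0 z) z

lemma average_lower (A : SL(2, ℝ)) {s δ : ℝ} (hs : 0 < s) (hδ : 0 < δ) {c : ℝ}
    (hc : 0 < c) (hc2 : ∀ w : ℂ, ‖w‖ = 1 → c ≤ ‖act A⁻¹ w‖) :
    Real.circleAverage (psi A s δ) 0 1 ≤
      (s * (1 + δ)) ^ 2 * Real.circleAverage (psi' A s δ c) 0 1 := by
  have hpi := Real.pi_pos
  have h1 := average_act A s δ hc hc2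
  have hpos : 0 < s * (1 + δ) := by positivity
  have h2 := integral_disc (psi A s δ) (ρ := (s * (1 + δ))⁻¹) (by positivity)
  have h3 : ∫ z in Metric.closedBall (0:ℂ) (s * (1 + δ))⁻¹, psi A s δ (z / (‖z‖ : ℂ)) ≤
      ∫ z in {z : ℂ | ‖act A z‖ ≤ 1}, psi A s δ (z / (‖z‖ : ℂ)) := by
    refine set_mono (fun z => psi_nonneg _ _ _ _) Metric.isClosed_closedBall.measurableSet
      (measurableSet_act A) (integrableOn_ang A hs hδ (measurableSet_act A)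
        (volume_act_ne_top A)) ?_
    intro z hz hz0 hne
    rw [mem_closedBall_zero_iff] at hz
    show ‖act A z‖ ≤ 1
    rw [norm_act_unit A hz0]
    have h4 := (psi_supp A hs hδ hne).2
    have h5 : ‖z‖ * (s * (1 + δ)) ≤ 1 := by
      rwa [← le_div_iff₀ hpos, one_div]
    refine le_trans ?_ h5
    have := norm_nonneg z
    gcongr
  rw [h2, ← h1] at h3
  rw [inv_pow] at h3
  have h6 : (Real.pi * ((s * (1 + δ)) ^ 2)⁻¹ * Real.circleAverage (psi A s δ) 0 1) *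
      (s * (1 + δ)) ^ 2 ≤ (Real.pi * Real.circleAverage (psi' A s δ c) 0 1) *
      (s * (1 + δ)) ^ 2 := by gcongr
  have h7 : (Real.pi * ((s * (1 + δ)) ^ 2)⁻¹ * Real.circleAverage (psi A s δ) 0 1) *
      (s * (1 + δ)) ^ 2 = Real.pi * Real.circleAverage (psi A s δ) 0 1 := by
    field_simp
  rw [h7] at h6
  have h8 : Real.pi * Real.circleAverage (psi A s δ) 0 1 ≤
      Real.pi * ((s * (1 + δ)) ^ 2 * Real.circleAverage (psi' A s δ c) 0 1) := by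
    linarith
  exact le_of_mul_le_mul_left h8 hpi

lemma average_upper (A : SL(2, ℝ)) {s δ : ℝ} (hs : 0 < s) (hδ : 0 < δ) (hδ1 : δ < 1) {c : ℝ}
    (hc : 0 < c) (hc2 : ∀ w : ℂ, ‖w‖ = 1 → c ≤ ‖act A⁻¹ w‖) :
    (s * (1 - δ)) ^ 2 * Real.circleAverage (psi' A s δ c) 0 1 ≤
      Real.circleAverage (psi A s δ) 0 1 := by
  have hpi := Real.pi_pos
  have h1 := average_act A s δ hc hc2
  have hpos : 0 < s * (1 - δ) := by
    have : 0 < 1 - δ := by linarith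
    positivity
  have h2 := integral_disc (psi A s δ) (ρ := (s * (1 - δ))⁻¹) (by positivity)
  have h3 : ∫ z in {z : ℂ | ‖act A z‖ ≤ 1}, psi A s δ (z / (‖z‖ : ℂ)) ≤
      ∫ z in Metric.closedBall (0:ℂ) (s * (1 - δ))⁻¹, psi A s δ (z / (‖z‖ : ℂ)) := by
    refine set_mono (fun z => psi_nonneg _ _ _ _) (measurableSet_act A)
      Metric.isClosed_closedBall.measurableSet
      (integrableOn_ang A hs hδ Metric.isClosed_closedBall.measurableSet
        measure_closedBall_lt_top.ne) ?_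
    intro z hz hz0 hne
    rw [mem_closedBall_zero_iff]
    have hz' : ‖act A z‖ ≤ 1 := hz
    rw [norm_act_unit A hz0] at hz'
    have h4 := (psi_supp A hs hδ hne).1
    have h5 : ‖z‖ * (s * (1 - δ)) ≤ 1 := by
      refine le_trans ?_ hz'
      have := norm_nonneg z
      gcongr
    rwa [← le_div_iff₀ hpos, one_div] at h5
  rw [h2, ← h1] at h3
  rw [inv_pow] at h3
  have h6 : (Real.pi * Real.circleAverage (psi' A s δ c) 0 1) *
      (s * (1 - δ)) ^ 2 ≤ (Real.pi * ((s * (1 - δ)) ^ 2)⁻¹ * Real.circleAverage (psi A s δ) 0 1) *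
      (s * (1 - δ)) ^ 2 := by gcongr
  have h7 : (Real.pi * ((s * (1 - δ)) ^ 2)⁻¹ * Real.circleAverage (psi A s δ) 0 1) *
      (s * (1 - δ)) ^ 2 = Real.pi * Real.circleAverage (psi A s δ) 0 1 := by
    have h9 : (s * (1 - δ)) ^ 2 ≠ 0 := by positivity
    rw [mul_right_comm, mul_assoc Real.pi, inv_mul_cancel₀ h9, mul_one]
  rw [h7] at h6
  have h8 : Real.pi * ((s * (1 - δ)) ^ 2 * Real.circleAverage (psi' A s δ c) 0 1) ≤
      Real.pi * Real.circleAverage (psi A s δ) 0 1 := by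
    linarith
  exact le_of_mul_le_mul_left h8 hpi

/-! ### The two inequalities for a fixed `δ` -/

lemma exists_c (A : SL(2, ℝ)) : ∃ c : ℝ, 0 < c ∧ ∀ w : ℂ, ‖w‖ = 1 → c ≤ ‖act A⁻¹ w‖ := by
  obtain ⟨C, hC, -, h2⟩ := exists_norm_act_le A⁻¹
  refine ⟨C⁻¹, by positivity, fun w hw => ?_⟩
  have h3 := h2 w
  rw [hw] at h3
  rw [inv_le_iff_one_le_mul₀ hC]
  linarith

/-- Eventual two-sided bounds out of a limit. -/
lemma eventually_bounds {F G : ℝ → ℝ} {m δ : ℝ} (hm : 0 < m) (hδ : 0 < δ)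
    (hG : ∀ᶠ R in atTop, 0 < G R) (hl : Tendsto (fun R => F R / G R) atTop (𝓝 m)) :
    ∀ᶠ R in atTop, (1 - δ) * m * G R ≤ F R ∧ F R ≤ (1 + δ) * m * G R := by
  have h1 : (1 - δ) * m < m := by nlinarith
  have h2 : m < (1 + δ) * m := by nlinarith
  filter_upwards [hG, hl.eventually (lt_mem_nhds h1), hl.eventually (gt_mem_nhds h2)] with R a b c
  rw [lt_div_iff₀ a] at b
  rw [div_lt_iff₀ a] at c
  exact ⟨b.le, c.le⟩

lemma core (hf : LocFin h) {A : SL(2, ℝ)} (h1 : Equi h) (h2 : Equi (fun i => act A (h i)))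
    {u : ℂ} (hu : ‖u‖ = 1) {δ : ℝ} (hδ : 0 < δ) (hδ1 : δ < 1) :
    (∀ᶠ R in atTop, (1 - δ) ^ 3 * N h (‖act A u‖⁻¹ * R) ≤
      (‖act A u‖⁻¹) ^ 2 * (1 + δ) * N (fun i => act A (h i)) ((1 + δ) * R)) ∧
    (∀ᶠ R in atTop, (1 - δ) * (‖act A u‖⁻¹) ^ 2 * N (fun i => act A (h i)) R ≤
      (1 + δ) ^ 3 * N h (‖act A u‖⁻¹ * ((1 - δ)⁻¹ * R))) := by
  obtain ⟨c, hc, hc2⟩ := exists_c A
  set s := ‖act A u‖ with hsdef
  have hs : 0 < s := by
    rw [hsdef, norm_pos_iff]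
    apply act_ne_zero
    rintro rfl
    simp at hu
  have hd : 0 < 1 - δ := by linarith
  set m := Real.circleAverage (psi A s δ) 0 1 with hmdef
  set m' := Real.circleAverage (psi' A s δ c) 0 1 with hmdef'
  have hm : 0 < m := average_pos (continuous_psi A s δ) (psi_nonneg A s δ) hu
    (by rw [hsdef, psi_self]; norm_num)
  have hlow := average_lower A hs hδ hc hc2
  have hupp := average_upper A hs hδ hδ1 hc hc2
  rw [← hmdef, ← hmdef'] at hlow hupp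
  have hm' : 0 < m' := by
    by_contra hcon
    push Not at hcon
    have : (s * (1 + δ)) ^ 2 * m' ≤ 0 := mul_nonpos_of_nonneg_of_nonpos (by positivity) hcon
    linarith
  have e1 := eventually_bounds hm hδ h1.eventually_pos (h1 _ (continuous_psi A s δ))
  have e2 := eventually_bounds hm' hδ h2.eventually_pos (h2 _ (continuous_psi' A s δ hc))
  have t1 : Tendsto (fun R : ℝ => s⁻¹ * R) atTop atTop :=
    tendsto_id.const_mul_atTop (by positivity)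
  have t2 : Tendsto (fun R : ℝ => (1 + δ) * R) atTop atTop :=
    tendsto_id.const_mul_atTop (by positivity)
  have t3 : Tendsto (fun R : ℝ => s⁻¹ * ((1 - δ)⁻¹ * R)) atTop atTop :=
    (tendsto_id.const_mul_atTop (by positivity)).const_mul_atTop (by positivity)
  constructor
  · filter_upwards [t1.eventually e1, t2.eventually e2] with R hR1 hR2
    have a1 := hR1.1
    have a2 := hR2.2
    have a3 := dirSum_le_act hf A hs hδ hc hc2 ((1 + δ) * R)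
    have a4 : (1 + δ) * R / (s * (1 + δ)) = s⁻¹ * R := by field_simp
    rw [a4] at a3
    have hN := N_nonneg (fun i => act A (h i)) ((1 + δ) * R)
    -- chain
    have b1 : (1 - δ) * m * N h (s⁻¹ * R) ≤
        (1 + δ) * m' * N (fun i => act A (h i)) ((1 + δ) * R) := (a1.trans a3).trans a2
    have b2 : (s * (1 - δ)) ^ 2 * ((1 - δ) * m * N h (s⁻¹ * R)) ≤
        (1 + δ) * m * N (fun i => act A (h i)) ((1 + δ) * R) := by
      calc (s * (1 - δ)) ^ 2 * ((1 - δ) * m * N h (s⁻¹ * R))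
          ≤ (s * (1 - δ)) ^ 2 * ((1 + δ) * m' * N (fun i => act A (h i)) ((1 + δ) * R)) := by
            gcongr
        _ = (1 + δ) * ((s * (1 - δ)) ^ 2 * m') * N (fun i => act A (h i)) ((1 + δ) * R) := by
            ring
        _ ≤ (1 + δ) * m * N (fun i => act A (h i)) ((1 + δ) * R) := by gcongr
    have b3 : (m * s ^ 2) * ((1 - δ) ^ 3 * N h (s⁻¹ * R)) ≤
        (m * s ^ 2) * ((s⁻¹) ^ 2 * (1 + δ) * N (fun i => act A (h i)) ((1 + δ) * R)) := by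
      have c1 : (m * s ^ 2) * ((s⁻¹) ^ 2 * (1 + δ) * N (fun i => act A (h i)) ((1 + δ) * R)) =
          (1 + δ) * m * N (fun i => act A (h i)) ((1 + δ) * R) := by
        field_simp
      rw [c1]
      refine le_trans (le_of_eq ?_) b2
      ring
    exact le_of_mul_le_mul_left b3 (by positivity)
  · filter_upwards [t3.eventually e1, e2] with R hR1 hR2
    have a1 := hR1.2
    have a2 := hR2.1
    have a3 := act_le_dirSum hf A hs hδ hδ1 hc hc2 R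
    have a4 : R / (s * (1 - δ)) = s⁻¹ * ((1 - δ)⁻¹ * R) := by field_simp
    rw [a4] at a3
    have hN := N_nonneg (fun i => act A (h i)) R
    have b1 : (1 - δ) * m' * N (fun i => act A (h i)) R ≤
        (1 + δ) * m * N h (s⁻¹ * ((1 - δ)⁻¹ * R)) := (a2.trans a3).trans a1
    have b2 : (1 - δ) * m * N (fun i => act A (h i)) R ≤
        (s * (1 + δ)) ^ 2 * ((1 + δ) * m * N h (s⁻¹ * ((1 - δ)⁻¹ * R))) := by
      calc (1 - δ) * m * N (fun i => act A (h i)) R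
          ≤ (1 - δ) * ((s * (1 + δ)) ^ 2 * m') * N (fun i => act A (h i)) R := by gcongr
        _ = (s * (1 + δ)) ^ 2 * ((1 - δ) * m' * N (fun i => act A (h i)) R) := by ring
        _ ≤ (s * (1 + δ)) ^ 2 * ((1 + δ) * m * N h (s⁻¹ * ((1 - δ)⁻¹ * R))) := by gcongr
    have b3 : (m * s ^ 2) * ((1 - δ) * (s⁻¹) ^ 2 * N (fun i => act A (h i)) R) ≤
        (m * s ^ 2) * ((1 + δ) ^ 3 * N h (s⁻¹ * ((1 - δ)⁻¹ * R))) := by
      have c1 : (m * s ^ 2) * ((1 - δ) * (s⁻¹) ^ 2 * N (fun i => act A (h i)) R) =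
          (1 - δ) * m * N (fun i => act A (h i)) R := by
        field_simp
      rw [c1]
      refine le_trans b2 (le_of_eq ?_)
      ring
    exact le_of_mul_le_mul_left b3 (by positivity)

/-- A suitable `δ`. -/
lemma exists_delta {ε : ℝ} (hε : 0 < ε) : ∃ δ : ℝ, 0 < δ ∧ δ < 1 ∧ δ ≤ ε ∧
    (1 + δ) ≤ (1 - δ) ^ 3 * (1 + ε) ∧ (1 + δ) ^ 3 ≤ (1 - δ) * (1 + ε) ∧
    (1 - δ)⁻¹ ≤ 1 + ε := by
  obtain ⟨δ, h0, h1, h2⟩ : ∃ δ : ℝ, 0 < δ ∧ δ ≤ 1 / 16 ∧ 16 * δ ≤ ε :=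
    ⟨min ε 1 / 16, by positivity, by
      have := min_le_right ε 1
      linarith, by
      have := min_le_left ε 1
      linarith⟩
  have hd : 0 < 1 - δ := by linarith
  refine ⟨δ, h0, by linarith, by linarith, ?_, ?_, ?_⟩
  · have a1 : (1 - δ) ^ 3 ≥ 1 - 3 * δ := by nlinarith [mul_pos h0 h0, mul_pos (mul_pos h0 h0) h0]
    have a2 : (1 - 3 * δ) * (1 + 16 * δ) ≥ 1 + δ := by nlinarith
    have a3 : (1 - δ) ^ 3 * (1 + ε) ≥ (1 - 3 * δ) * (1 + 16 * δ) := by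
      have : 0 ≤ 1 - 3 * δ := by linarith
      gcongr
    linarith
  · have a1 : (1 + δ) ^ 3 ≤ 1 + 4 * δ := by nlinarith [mul_pos h0 h0, mul_pos (mul_pos h0 h0) h0]
    have a2 : (1 - δ) * (1 + 16 * δ) ≥ 1 + 4 * δ := by nlinarith
    have a3 : (1 - δ) * (1 + ε) ≥ (1 - δ) * (1 + 16 * δ) := by gcongr
    linarith
  · rw [inv_le_iff_one_le_mul₀ hd]
    have a3 : (1 - δ) * (1 + ε) ≥ (1 - δ) * (1 + 16 * δ) := by gcongr
    nlinarith

lemma upper (hf : LocFin h) {A : SL(2, ℝ)} (h1 : Equi h) (h2 : Equi (fun i => act A (h i)))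
    {u : ℂ} (hu : ‖u‖ = 1) {ε : ℝ} (hε : 0 < ε) :
    ∀ᶠ R in atTop, N h (‖act A u‖⁻¹ * R) ≤
      (‖act A u‖⁻¹) ^ 2 * (1 + ε) * N (fun i => act A (h i)) ((1 + ε) * R) := by
  obtain ⟨δ, hδ, hδ1, hδε, e1, -, -⟩ := exists_delta hε
  have hd : 0 < 1 - δ := by linarith
  filter_upwards [(core hf h1 h2 hu hδ hδ1).1, eventually_ge_atTop 0] with R hR hR0
  have h3 : N (fun i => act A (h i)) ((1 + δ) * R) ≤ N (fun i => act A (h i)) ((1 + ε) * R) :=
    N_mono (hf.act A) (by gcongr)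
  have hN := N_nonneg (fun i => act A (h i)) ((1 + ε) * R)
  have h4 : (1 - δ) ^ 3 * N h (‖act A u‖⁻¹ * R) ≤ (1 - δ) ^ 3 *
      ((‖act A u‖⁻¹) ^ 2 * (1 + ε) * N (fun i => act A (h i)) ((1 + ε) * R)) := by
    calc (1 - δ) ^ 3 * N h (‖act A u‖⁻¹ * R)
        ≤ (‖act A u‖⁻¹) ^ 2 * (1 + δ) * N (fun i => act A (h i)) ((1 + δ) * R) := hR
      _ ≤ (‖act A u‖⁻¹) ^ 2 * (1 + δ) * N (fun i => act A (h i)) ((1 + ε) * R) := by gcongr
      _ ≤ (‖act A u‖⁻¹) ^ 2 * ((1 - δ) ^ 3 * (1 + ε)) *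
          N (fun i => act A (h i)) ((1 + ε) * R) := by gcongr
      _ = _ := by ring
  exact le_of_mul_le_mul_left h4 (by positivity)

lemma lower (hf : LocFin h) {A : SL(2, ℝ)} (h1 : Equi h) (h2 : Equi (fun i => act A (h i)))
    {u : ℂ} (hu : ‖u‖ = 1) {ε : ℝ} (hε : 0 < ε) :
    ∀ᶠ R in atTop, (‖act A u‖⁻¹) ^ 2 * N (fun i => act A (h i)) R ≤
      (1 + ε) * N h (‖act A u‖⁻¹ * ((1 + ε) * R)) := by
  obtain ⟨δ, hδ, hδ1, hδε, -, e2, e3⟩ := exists_delta hε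
  have hd : 0 < 1 - δ := by linarith
  filter_upwards [(core hf h1 h2 hu hδ hδ1).2, eventually_ge_atTop 0] with R hR hR0
  have h3 : N h (‖act A u‖⁻¹ * ((1 - δ)⁻¹ * R)) ≤ N h (‖act A u‖⁻¹ * ((1 + ε) * R)) :=
    N_mono hf (by gcongr)
  have hN := N_nonneg h (‖act A u‖⁻¹ * ((1 + ε) * R))
  have h4 : (1 - δ) * ((‖act A u‖⁻¹) ^ 2 * N (fun i => act A (h i)) R) ≤ (1 - δ) *
      ((1 + ε) * N h (‖act A u‖⁻¹ * ((1 + ε) * R))) := by
    calc (1 - δ) * ((‖act A u‖⁻¹) ^ 2 * N (fun i => act A (h i)) R)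
        = (1 - δ) * (‖act A u‖⁻¹) ^ 2 * N (fun i => act A (h i)) R := by ring
      _ ≤ (1 + δ) ^ 3 * N h (‖act A u‖⁻¹ * ((1 - δ)⁻¹ * R)) := hR
      _ ≤ (1 + δ) ^ 3 * N h (‖act A u‖⁻¹ * ((1 + ε) * R)) := by gcongr
      _ ≤ ((1 - δ) * (1 + ε)) * N h (‖act A u‖⁻¹ * ((1 + ε) * R)) := by gcongr
      _ = _ := by ring
  exact le_of_mul_le_mul_left h4 hd

/-! ### The interval of ratios -/

lemma exists_gt_of_lt {A : SL(2, ℝ)} {u : ℂ} (hu : ‖u‖ = 1) (h1 : ‖act A u‖ < 1) :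
    ∃ v : ℂ, ‖v‖ = 1 ∧ 1 < ‖act A v‖ := by
  refine ⟨Complex.I * u, by simp [hu], ?_⟩
  have h2 : cross u (Complex.I * u) = 1 := by
    have h3 : ‖u‖ ^ 2 = 1 := by rw [hu]; norm_num
    rw [Complex.sq_norm, Complex.normSq_apply] at h3
    simp [cross]
    linarith
  have h4 := abs_cross_le (act A u) (act A (Complex.I * u))
  rw [cross_act, h2, abs_one] at h4
  by_contra hcon
  push Not at hcon
  have h5 := norm_nonneg (act A u)
  have h6 := norm_nonneg (act A (Complex.I * u))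
  nlinarith

lemma exists_lt_of_gt {A : SL(2, ℝ)} {u : ℂ} (hu : ‖u‖ = 1) (h1 : 1 < ‖act A u‖) :
    ∃ v : ℂ, ‖v‖ = 1 ∧ ‖act A v‖ < 1 := by
  have hpos : 0 < ‖act A u‖ := by linarith
  -- the unit vector in direction `act A u` is shrunk by the inverse
  have h2 : ‖act A u / (‖act A u‖ : ℂ)‖ = 1 := by
    rw [norm_div]; simp [hpos.ne']
  have h3 : ‖act A⁻¹ (act A u / (‖act A u‖ : ℂ))‖ < 1 := by
    rw [act_div, act_inv_act, norm_div, hu]
    simp only [Complex.norm_real, norm_norm]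
    rw [div_lt_one hpos]
    exact h1
  obtain ⟨w, hw, hw2⟩ := exists_gt_of_lt h2 h3
  have hpos2 : 0 < ‖act A⁻¹ w‖ := by linarith
  refine ⟨act A⁻¹ w / (‖act A⁻¹ w‖ : ℂ), ?_, ?_⟩
  · rw [norm_div]; simp [hpos2.ne']
  · rw [act_div, act_act_inv, norm_div, hw]
    simp only [Complex.norm_real, norm_norm]
    rw [div_lt_one hpos2]
    exact hw2

lemma exists_interval {A : SL(2, ℝ)} (hA : ∃ z, ‖act A z‖ ≠ ‖z‖) :
    ∃ α : ℝ, 1 < α ∧ ∀ τ ∈ Icc α⁻¹ α, ∃ u : ℂ, ‖u‖ = 1 ∧ ‖act A u‖⁻¹ = τ := by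
  obtain ⟨z, hz⟩ := hA
  have hz0 : z ≠ 0 := by
    rintro rfl
    simp [act_zero] at hz
  have hn : 0 < ‖z‖ := norm_pos_iff.mpr hz0
  have h1 : ‖z / (‖z‖ : ℂ)‖ = 1 := by rw [norm_div]; simp [hn.ne']
  have h2 : ‖act A (z / (‖z‖ : ℂ))‖ ≠ 1 := by
    intro h3
    rw [norm_act_unit A hz0, h3, mul_one] at hz
    exact hz rfl
  obtain ⟨a, b, ha, ha1, hb, hb1⟩ : ∃ a b : ℂ, ‖a‖ = 1 ∧ ‖act A a‖ < 1 ∧ ‖b‖ = 1 ∧
      1 < ‖act A b‖ := by
    rcases lt_or_gt_of_ne h2 with h3 | h3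
    · obtain ⟨v, hv, hv1⟩ := exists_gt_of_lt h1 h3
      exact ⟨_, v, h1, h3, hv, hv1⟩
    · obtain ⟨v, hv, hv1⟩ := exists_lt_of_gt h1 h3
      exact ⟨v, _, hv, hv1, h1, h3⟩
  have ha0 : 0 < ‖act A a‖ := by
    rw [norm_pos_iff]; apply act_ne_zero; rintro rfl; simp at ha
  refine ⟨min (‖act A a‖⁻¹) ‖act A b‖, ?_, ?_⟩
  · refine lt_min ?_ hb1
    exact (one_lt_inv₀ ha0).mpr ha1
  · rintro τ ⟨hτ1, hτ2⟩
    have hb0 : 0 < ‖act A b‖ := by linarith
    have hmin : 0 < min (‖act A a‖⁻¹) ‖act A b‖ := lt_min (by positivity) hb0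
    have k1 : ‖act A b‖⁻¹ ≤ τ := by
      refine le_trans ?_ hτ1
      exact inv_anti₀ hmin (min_le_right _ _)
    have k2 : τ ≤ ‖act A a‖⁻¹ := hτ2.trans (min_le_left _ _)
    have hcont : Continuous (fun θ : ℝ => ‖act A (circleMap 0 1 θ)‖⁻¹) := by
      refine Continuous.inv₀ ?_ ?_
      · have := continuous_act A
        have h5 := continuous_circleMap 0 1
        exact (this.comp h5).norm
      · intro θ
        rw [norm_ne_zero_iff]
        apply act_ne_zero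
        intro h6
        have : ‖circleMap 0 1 θ‖ = 1 := by simp
        rw [h6] at this
        simp at this
    have key : ∀ v : ℂ, ‖v‖ = 1 → ∃ θ : ℝ, circleMap 0 1 θ = v := by
      intro v hv
      have h1 : v ∈ Set.range (circleMap 0 1) := by
        rw [range_circleMap]; simp [hv]
      exact h1
    obtain ⟨θa, hθa⟩ := key a ha
    obtain ⟨θb, hθb⟩ := key b hb
    have hmem := mem_range_of_exists_le_of_exists_ge hcont (c := τ)
      ⟨θb, by simp only [hθb]; exact k1⟩ ⟨θa, by simp only [hθa]; exact k2⟩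
    obtain ⟨θ, hθ⟩ := hmem
    exact ⟨circleMap 0 1 θ, by simp, hθ⟩

theorem rv_of_equi_equi (hf : LocFin h) {A : SL(2, ℝ)} (hA : ∃ z, ‖act A z‖ ≠ ‖z‖)
    (h1 : Equi h) (h2 : Equi (fun i => act A (h i))) : RV h := by
  obtain ⟨α, hα, h3⟩ := exists_interval hA
  refine tendsto_ratio_of_squeeze (N_mono hf) (N_mono (hf.act A)) (N_nonneg _) (N_nonneg _)
    h1.eventually_pos hα ?_ ?_
  · intro τ hτ ε hε
    obtain ⟨u, hu, rfl⟩ := h3 τ hτ
    exact upper hf h1 h2 hu hε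
  · intro τ hτ ε hε
    obtain ⟨u, hu, rfl⟩ := h3 τ hτ
    exact lower hf h1 h2 hu hε

end SAD
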