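import Pool.Agent.Lib.SAD.Symm
import Pool.Agent.Lib.SAD.Lower
import Pool.Agent.Lib.SAD.TwoPt
import Pool.Agent.Lib.SAD.LebIn
import Pool.Agent.Lib.SAD.LebOut
import Pool.Agent.Lib.SAD.Count
import Pool.Agent.Lib.SAD.CountLeb
import Pool.Agent.Lib.SAD.One

/-!
# Main theorem (MP_d36302_an)

For every (triangulated) translation surface `X`, with `N(X, R)` the number of saddle connections of
length at most `R`, the following are equivalent:
1. the directions of the saddle connections of `A X` equidistribute for every `A ∈ SL(2, ℝ)`;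
2. the directions of `X` equidistribute, and so do those of `A X` for some `A ∈ SL(2, ℝ)`, `A ∉ SO(2)`;
3. the directions of `X` equidistribute and `N(X, l R)/N(X, R) → l²` for every `l > 0`;
4. `N(A X, R)/N(X, R) → 1` for every `A ∈ SL(2, ℝ)`;
5. `N(A X, R)/N(X, R) → 1` for all `A` in a neighbourhood of the identity;
6. the directions of `X` equidistribute, and `N(A X, R)/N(X, R) → 1` for some `A ∉ SO(2)`;
7. `N(X, R)⁻¹ ∑_s δ_{hol(s)/R}` converges vaguely to `π⁻¹ ·` Lebesgue measure of the plane.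
No growth assumption is made.
-/

open Filter Topology MeasureTheory Set
open scoped MatrixGroups

namespace SAD

open TransSurf

/-! ### Relabelling -/

lemma N_congr {ι κ : Type*} {h : ι → ℂ} {k : κ → ℂ} (σ : ι ≃ κ) (hσ : ∀ i, h i = k (σ i)) :
    N h = N k := by
  funext R
  unfold N
  congr 1
  have : {i | ‖h i‖ ≤ R} = σ ⁻¹' {j | ‖k j‖ ≤ R} := by
    ext i; simp [hσ]
  rw [this, Set.ncard_preimage_of_injective_subset_range σ.injective (by simp)]

lemma dirSum_congr {ι κ : Type*} {h : ι → ℂ} {k : κ → ℂ} (σ : ι ≃ κ)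
    (hσ : ∀ i, h i = k (σ i)) : dirSum h = dirSum k := by
  funext f R
  unfold dirSum
  rw [finsum_mem_def, finsum_mem_def, ← finsum_comp_equiv σ]
  apply finsum_congr
  intro i
  by_cases hi : ‖h i‖ ≤ R
  · rw [Set.indicator_of_mem (by exact hi), Set.indicator_of_mem (by show ‖k (σ i)‖ ≤ R; rwa [← hσ]),
      hσ]
  · rw [Set.indicator_of_notMem (by exact hi),
      Set.indicator_of_notMem (by show ¬ ‖k (σ i)‖ ≤ R; rwa [← hσ])]

lemma Equi_congr {ι κ : Type*} {h : ι → ℂ} {k : κ → ℂ} (σ : ι ≃ κ)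
    (hσ : ∀ i, h i = k (σ i)) : Equi h ↔ Equi k := by
  unfold Equi
  rw [N_congr σ hσ, dirSum_congr σ hσ]

lemma N_push (X : TransSurf) (A : SL(2, ℝ)) :
    N (X.push A).hol = N (fun s => act A (X.hol s)) := by
  obtain ⟨σ, hσ⟩ := exists_equiv_push X A
  exact N_congr σ hσ

lemma Equi_push (X : TransSurf) (A : SL(2, ℝ)) :
    Equi (X.push A).hol ↔ Equi (fun s => act A (X.hol s)) := by
  obtain ⟨σ, hσ⟩ := exists_equiv_push X A
  exact Equi_congr σ hσ

/-! ### The equivalences for a family of vectors -/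

theorem leb_of_count {ι : Type*} {h : ι → ℂ} (hf : LocFin h)
    (hs : ∃ σ : Equiv.Perm ι, ∀ i, h (σ i) = -h i)
    (hlow : ∃ c : ℝ, 0 < c ∧ ∀ᶠ R in atTop, c * R ≤ N h R)
    {ε : ℝ} (hε : 0 < ε)
    (hc : ∀ A : SL(2, ℝ), (∀ i j, |A i j - (1 : Matrix (Fin 2) (Fin 2) ℝ) i j| < ε) →
      Tendsto (fun R => N (fun i => act A (h i)) R / N h R) atTop (𝓝 1)) : LebLim h :=
  leb_of_tendsto_L (GReg.of_count hf hlow hε hc) hs (tendsto_L hf hlow hε hc)

/-- A matrix of determinant one which is not orthogonal. -/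
lemma exists_not_orth : ∃ A : SL(2, ℝ), ∃ z, ‖act A z‖ ≠ ‖z‖ := by
  refine ⟨⟨!![2, 0; 0, 1/2], by norm_num [Matrix.det_fin_two]⟩, 1, ?_⟩
  have : act ⟨!![2, 0; 0, 1/2], by norm_num [Matrix.det_fin_two]⟩ 1 = 2 := by
    apply Complex.ext <;> simp [act]
  rw [this]
  simp

theorem main (X : TransSurf) :
    List.TFAE [
      ∀ A : SL(2, ℝ), Equi (X.push A).hol,
      Equi X.hol ∧ ∃ A : SL(2, ℝ), (∃ z, ‖act A z‖ ≠ ‖z‖) ∧ Equi (X.push A).hol,
      Equi X.hol ∧ ∀ l : ℝ, 0 < l →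
        Tendsto (fun R => N X.hol (l * R) / N X.hol R) atTop (𝓝 (l ^ 2)),
      ∀ A : SL(2, ℝ), Tendsto (fun R => N (X.push A).hol R / N X.hol R) atTop (𝓝 1),
      ∃ ε : ℝ, 0 < ε ∧ ∀ A : SL(2, ℝ),
        (∀ i j, |A i j - (1 : Matrix (Fin 2) (Fin 2) ℝ) i j| < ε) →
        Tendsto (fun R => N (X.push A).hol R / N X.hol R) atTop (𝓝 1),
      Equi X.hol ∧ ∃ A : SL(2, ℝ), (∃ z, ‖act A z‖ ≠ ‖z‖) ∧
        Tendsto (fun R => N (X.push A).hol R / N X.hol R) atTop (𝓝 1),
      LebLim X.hol] := by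
  have hf := X.locFin
  have h12 : (∀ A : SL(2, ℝ), Equi (X.push A).hol) →
      (Equi X.hol ∧ ∃ A : SL(2, ℝ), (∃ z, ‖act A z‖ ≠ ‖z‖) ∧ Equi (X.push A).hol) := by
    intro h
    obtain ⟨A, hA⟩ := exists_not_orth
    refine ⟨?_, A, hA, h A⟩
    have h1 := (Equi_push X 1).1 (h 1)
    simpa [act_one] using h1
  tfae_have 1 → 2 := h12
  tfae_have 2 → 3 := by
    rintro ⟨h1, A, hA, h2⟩
    exact ⟨h1, rv_of_equi_equi hf hA h1 ((Equi_push X A).1 h2)⟩
  tfae_have 3 → 7 := by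
    rintro ⟨h1, h2⟩
    exact leb_of_equi_rv hf h1 h2
  have h71 : LebLim X.hol → ∀ A : SL(2, ℝ), Equi (X.push A).hol := by
    intro h A
    rw [Equi_push]
    exact equi_of_leb (hf.act A) (leb_act hf h A)
  have h74 : LebLim X.hol → ∀ A : SL(2, ℝ),
      Tendsto (fun R => N (X.push A).hol R / N X.hol R) atTop (𝓝 1) := by
    intro h A
    rw [N_push]
    simpa using count_of_leb hf h A one_pos
  tfae_have 7 → 1 := h71
  tfae_have 7 → 4 := h74
  tfae_have 4 → 5 := by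
    intro h
    exact ⟨1, one_pos, fun A _ => h A⟩
  tfae_have 5 → 7 := by
    rintro ⟨ε, hε, h⟩
    refine leb_of_count hf (exists_reverse X) (linear_lower X) hε fun A hA => ?_
    have := h A hA
    rwa [N_push] at this
  tfae_have 7 → 6 := by
    intro h
    obtain ⟨A, hA⟩ := exists_not_orth
    exact ⟨(h12 (h71 h)).1, A, hA, h74 h A⟩
  tfae_have 6 → 7 := by
    rintro ⟨h1, A, hA, h⟩
    rw [N_push] at h
    exact leb_of_equi_count hf (exists_reverse X) (linear_lower X) h1 hA h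
  tfae_finish

/-- If `X` has an affine automorphism whose derivative `γ` is not a rotation (at the level of
holonomy vectors: `γ` permutes them, with multiplicity), equidistribution for `X` alone
implies it for all surfaces `A X`. -/
theorem main_affine (X : TransSurf) (γ : SL(2, ℝ)) (hγ : ∃ z, ‖act γ z‖ ≠ ‖z‖)
    (hσ : ∃ σ : Equiv.Perm X.Saddle, ∀ s, X.hol (σ s) = act γ (X.hol s)) (h1 : Equi X.hol) :
    ∀ A : SL(2, ℝ), Equi (X.push A).hol := by
  have h2 : Equi (X.push γ).hol := by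
    rw [Equi_push]
    obtain ⟨σ, hσ⟩ := hσ
    rw [Equi_congr (h := fun s => act γ (X.hol s)) (k := X.hol) σ (fun s => (hσ s).symm)]
    exact h1
  exact ((main X).out 1 0 :).1 ⟨h1, γ, hγ, h2⟩

end SAD
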