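import Pool.Agent.Lib.SAD.IsoLap
import Pool.Agent.Lib.SAD.Main

/-!
# Higher harmonics under quadratic growth: definitions
-/

open Filter Topology MeasureTheory Set
open scoped MatrixGroups

namespace SAD

variable {ι : Type*} {h : ι → ℂ}

/-- Quadratic growth from above and below. -/
def Quad {ι : Type*} (h : ι → ℂ) : Prop :=
  ∃ c C : ℝ, 0 < c ∧ ∀ᶠ R in atTop, c * R ^ 2 ≤ N h R ∧ N h R ≤ C * R ^ 2

/-- The mean of the `2k`-th harmonic of the directions tends to zero. -/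
def HarmK {ι : Type*} (k : ℕ) (h : ι → ℂ) : Prop :=
  ∀ c : ℂ, Tendsto (fun R : ℝ => dirSum h (fun u => (c * u ^ (2 * k)).re) R / N h R) atTop (𝓝 0)

/-- Test functions. -/
noncomputable def TF (m : ℕ) (c : ℂ) (τ : ℝ) (z : ℂ) : ℝ :=
  (c * z ^ m).re * Real.exp (-((τ - 1) * ‖z‖))

/-- Test functions with the weight `‖z‖`. -/
noncomputable def TG (m : ℕ) (c : ℂ) (τ : ℝ) (z : ℂ) : ℝ :=
  (c * z ^ m).re * ‖z‖ * Real.exp (-((τ - 1) * ‖z‖))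

/-- Test functions with the weight `‖z‖ ^ 2`. -/
noncomputable def TH (m : ℕ) (c : ℂ) (τ : ℝ) (z : ℂ) : ℝ :=
  (c * z ^ m).re * ‖z‖ ^ 2 * Real.exp (-((τ - 1) * ‖z‖))

/-- The `m`-th harmonic (in `z = v²`) is asymptotically zero, in the Gaussian sense. -/
def LapK {ι : Type*} (m : ℕ) (h : ι → ℂ) : Prop :=
  ∀ (c : ℂ) (τ : ℝ), 1 < τ → Tendsto (fun R => L h (TF m c τ) R) atTop (𝓝 0)

theorem continuous_TF (m : ℕ) (c : ℂ) (τ : ℝ) : Continuous (TF m c τ) := by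
  unfold TF
  have : Continuous fun z : ℂ => (c * z ^ m).re := Complex.continuous_re.comp (by fun_prop)
  exact this.mul (by fun_prop)

theorem continuous_TG (m : ℕ) (c : ℂ) (τ : ℝ) : Continuous (TG m c τ) := by
  unfold TG
  have : Continuous fun z : ℂ => (c * z ^ m).re := Complex.continuous_re.comp (by fun_prop)
  exact (this.mul (by fun_prop)).mul (by fun_prop)

theorem continuous_TH (m : ℕ) (c : ℂ) (τ : ℝ) : Continuous (TH m c τ) := by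
  unfold TH
  have : Continuous fun z : ℂ => (c * z ^ m).re := Complex.continuous_re.comp (by fun_prop)
  exact (this.mul (by fun_prop)).mul (by fun_prop)

/-- `x ^ n exp (-(a x))` is bounded on `[0, ∞)`. -/
theorem exists_pow_exp_le (n : ℕ) {a : ℝ} (ha : 0 < a) :
    ∃ M : ℝ, 0 < M ∧ ∀ x : ℝ, 0 ≤ x → x ^ n * Real.exp (-(a * x)) ≤ M := by
  refine ⟨(n.factorial : ℝ) / a ^ n, by positivity, fun x hx => ?_⟩
  have h1 : (a * x) ^ n / (n.factorial : ℝ) ≤ Real.exp (a * x) :=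
    Real.pow_div_factorial_le_exp _ (by positivity) n
  rw [div_le_iff₀ (by positivity)] at h1
  rw [le_div_iff₀ (by positivity), Real.exp_neg]
  have h2 : 0 < Real.exp (a * x) := Real.exp_pos _
  rw [← div_eq_mul_inv, div_mul_eq_mul_div, div_le_iff₀ h2, ← mul_pow, mul_comm x a]
  linarith

theorem abs_re_le (m : ℕ) (c z : ℂ) : |(c * z ^ m).re| ≤ ‖c‖ * ‖z‖ ^ m := by
  refine (Complex.abs_re_le_norm _).trans ?_
  rw [norm_mul, norm_pow]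

theorem bdd_TF (m : ℕ) (c : ℂ) {τ : ℝ} (hτ : 1 < τ) : ∃ M : ℝ, ∀ z, |TF m c τ z| ≤ M := by
  obtain ⟨M, hM0, hM⟩ := exists_pow_exp_le m (show 0 < τ - 1 by linarith)
  refine ⟨‖c‖ * M, fun z => ?_⟩
  unfold TF
  rw [abs_mul, abs_of_pos (Real.exp_pos _)]
  calc |(c * z ^ m).re| * Real.exp (-((τ - 1) * ‖z‖))
      ≤ ‖c‖ * ‖z‖ ^ m * Real.exp (-((τ - 1) * ‖z‖)) := by
        gcongr
        exact abs_re_le m c z
    _ = ‖c‖ * (‖z‖ ^ m * Real.exp (-((τ - 1) * ‖z‖))) := by ring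
    _ ≤ ‖c‖ * M := by
        gcongr
        exact hM _ (norm_nonneg z)

theorem bdd_TG (m : ℕ) (c : ℂ) {τ : ℝ} (hτ : 1 < τ) : ∃ M : ℝ, ∀ z, |TG m c τ z| ≤ M := by
  obtain ⟨M, hM0, hM⟩ := exists_pow_exp_le (m + 1) (show 0 < τ - 1 by linarith)
  refine ⟨‖c‖ * M, fun z => ?_⟩
  unfold TG
  rw [abs_mul, abs_mul, abs_norm, abs_of_pos (Real.exp_pos _)]
  calc |(c * z ^ m).re| * ‖z‖ * Real.exp (-((τ - 1) * ‖z‖))
      ≤ ‖c‖ * ‖z‖ ^ m * ‖z‖ * Real.exp (-((τ - 1) * ‖z‖)) := by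
        gcongr
        exact abs_re_le m c z
    _ = ‖c‖ * (‖z‖ ^ (m + 1) * Real.exp (-((τ - 1) * ‖z‖))) := by ring
    _ ≤ ‖c‖ * M := by
        gcongr
        exact hM _ (norm_nonneg z)

theorem bdd_TH (m : ℕ) (c : ℂ) {τ : ℝ} (hτ : 1 < τ) : ∃ M : ℝ, ∀ z, |TH m c τ z| ≤ M := by
  obtain ⟨M, hM0, hM⟩ := exists_pow_exp_le (m + 2) (show 0 < τ - 1 by linarith)
  refine ⟨‖c‖ * M, fun z => ?_⟩
  unfold TH
  rw [abs_mul, abs_mul, abs_of_nonneg (by positivity : 0 ≤ ‖z‖ ^ 2), abs_of_pos (Real.exp_pos _)]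
  calc |(c * z ^ m).re| * ‖z‖ ^ 2 * Real.exp (-((τ - 1) * ‖z‖))
      ≤ ‖c‖ * ‖z‖ ^ m * ‖z‖ ^ 2 * Real.exp (-((τ - 1) * ‖z‖)) := by
        gcongr
        exact abs_re_le m c z
    _ = ‖c‖ * (‖z‖ ^ (m + 2) * Real.exp (-((τ - 1) * ‖z‖))) := by ring
    _ ≤ ‖c‖ * M := by
        gcongr
        exact hM _ (norm_nonneg z)

end SAD
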