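import Pool.Agent.Lib.SAD.AnyDefs

/-!
# Integration in the exponent
-/

open Filter Topology MeasureTheory Set
open scoped MatrixGroups

namespace SAD

variable {ι : Type*} {h : ι → ℂ}

namespace AnyFinAux

lemma TF_anti (m : ℕ) (c : ℂ) {τ τ' : ℝ} (hτ : τ ≤ τ') (z : ℂ) : |TF m c τ' z| ≤ |TF m c τ z| := by
  unfold TF
  rw [abs_mul, abs_mul, abs_of_pos (Real.exp_pos _), abs_of_pos (Real.exp_pos _)]
  refine mul_le_mul_of_nonneg_left (Real.exp_le_exp.2 ?_) (abs_nonneg _)
  nlinarith [norm_nonneg z]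

lemma TG_anti (m : ℕ) (c : ℂ) {τ τ' : ℝ} (hτ : τ ≤ τ') (z : ℂ) : |TG m c τ' z| ≤ |TG m c τ z| := by
  unfold TG
  rw [abs_mul, abs_mul, abs_mul _ (Real.exp _), abs_mul, abs_of_pos (Real.exp_pos _),
    abs_of_pos (Real.exp_pos _)]
  refine mul_le_mul_of_nonneg_left (Real.exp_le_exp.2 ?_) (by positivity)
  nlinarith [norm_nonneg z]

lemma hasDerivAt_TF (m : ℕ) (c z : ℂ) (τ : ℝ) :
    HasDerivAt (fun t : ℝ => TF m c t z) (-TG m c τ z) τ := by
  unfold TF TG
  have h1 : HasDerivAt (fun t : ℝ => -((t - 1) * ‖z‖)) (-‖z‖) τ := by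
    have h0 : HasDerivAt (fun t : ℝ => (t - 1) * ‖z‖) (1 * ‖z‖) τ :=
      ((hasDerivAt_id τ).sub_const 1).mul_const ‖z‖
    rw [one_mul] at h0
    exact h0.neg
  have h2 := (h1.exp).const_mul ((c * z ^ m).re)
  have h3 : -((c * z ^ m).re * ‖z‖ * Real.exp (-((τ - 1) * ‖z‖))) =
      (c * z ^ m).re * (Real.exp (-((τ - 1) * ‖z‖)) * -‖z‖) := by ring
  rw [h3]
  exact h2

lemma integrable_TF {P : Measure ℂ} [IsProbabilityMeasure P] (m : ℕ) (c : ℂ) {τ : ℝ}
    (hτ : 1 < τ) : Integrable (TF m c τ) P := by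
  obtain ⟨M, hM⟩ := bdd_TF m c hτ
  exact Integrable.of_bound (continuous_TF m c τ).aestronglyMeasurable M
    (Eventually.of_forall fun z => hM z)

lemma hasDerivAt_int {P : Measure ℂ} [IsProbabilityMeasure P] (m : ℕ) (c : ℂ) {τ : ℝ}
    (hτ : 1 < τ) :
    HasDerivAt (fun t : ℝ => ∫ z, TF m c t z ∂P) (∫ z, -TG m c τ z ∂P) τ := by
  have hδ : 1 < 1 + (τ - 1) / 2 := by linarith
  obtain ⟨M, hM⟩ := bdd_TG m c hδ
  refine (hasDerivAt_integral_of_dominated_loc_of_deriv_le (F := fun t z => TF m c t z)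
    (F' := fun t z => -TG m c t z) (s := Ioi (1 + (τ - 1) / 2)) (bound := fun _ => M)
    (Ioi_mem_nhds (by linarith)) ?_ ?_ ?_ ?_ ?_ ?_).2
  · exact Eventually.of_forall fun t => (continuous_TF m c t).aestronglyMeasurable
  · exact integrable_TF m c hτ
  · exact (continuous_TG m c τ).neg.aestronglyMeasurable
  · refine Eventually.of_forall fun z t ht => ?_
    rw [norm_neg, Real.norm_eq_abs]
    exact (TG_anti m c (le_of_lt ht) z).trans (hM z)
  · exact integrable_const M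
  · exact Eventually.of_forall fun z t _ => hasDerivAt_TF m c z t

lemma tendsto_int {P : Measure ℂ} [IsProbabilityMeasure P] {m : ℕ} (hm : 1 ≤ m) (c : ℂ) :
    Tendsto (fun t : ℝ => ∫ z, TF m c t z ∂P) atTop (𝓝 0) := by
  obtain ⟨M, hM⟩ := bdd_TF m c (one_lt_two : (1 : ℝ) < 2)
  have h1 : Tendsto (fun t : ℝ => ∫ z, TF m c t z ∂P) atTop (𝓝 (∫ _z, (0 : ℝ) ∂P)) := by
    refine tendsto_integral_filter_of_dominated_convergence (fun _ => M) ?_ ?_ ?_ ?_
    · exact Eventually.of_forall fun t => (continuous_TF m c t).aestronglyMeasurable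
    · filter_upwards [eventually_ge_atTop (2 : ℝ)] with t ht
      refine Eventually.of_forall fun z => ?_
      rw [Real.norm_eq_abs]
      exact (TF_anti m c ht z).trans (hM z)
    · exact integrable_const M
    · refine Eventually.of_forall fun z => ?_
      by_cases hz : z = 0
      · subst hz
        have h2 : ∀ t : ℝ, TF m c t 0 = 0 := by
          intro t
          unfold TF
          rw [zero_pow (by omega), mul_zero, Complex.zero_re, zero_mul]
        simp only [h2]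
        exact tendsto_const_nhds
      · have hz' : 0 < ‖z‖ := norm_pos_iff.2 hz
        have h3 : Tendsto (fun t : ℝ => (t - 1) * ‖z‖) atTop atTop :=
          (tendsto_atTop_add_const_right _ (-1) tendsto_id).atTop_mul_const hz'
        have h4 := (Real.tendsto_exp_neg_atTop_nhds_zero.comp h3).const_mul ((c * z ^ m).re)
        rw [mul_zero] at h4
        exact h4
  rwa [integral_zero] at h1

lemma int_TF_zero {P : Measure ℂ} [IsProbabilityMeasure P] {m : ℕ} (hm : 1 ≤ m) (c : ℂ)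
    (hG : ∀ τ : ℝ, 1 < τ → ∫ z, TG m c τ z ∂P = 0) {τ : ℝ} (hτ : 1 < τ) :
    ∫ z, TF m c τ z ∂P = 0 := by
  have hd : ∀ t : ℝ, 1 < t → HasDerivAt (fun t : ℝ => ∫ z, TF m c t z ∂P) 0 t := by
    intro t ht
    have h1 := hasDerivAt_int (P := P) m c ht
    rw [integral_neg, hG t ht, neg_zero] at h1
    exact h1
  have hconst : ∀ t : ℝ, 1 < t → ∫ z, TF m c t z ∂P = ∫ z, TF m c τ z ∂P := by
    intro t ht
    refine isOpen_Ioi.is_const_of_deriv_eq_zero (f := fun t : ℝ => ∫ z, TF m c t z ∂P)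
      (s := Ioi (1 : ℝ)) isPreconnected_Ioi ?_ ?_ ht hτ
    · intro x hx
      exact (hd x hx).differentiableAt.differentiableWithinAt
    · intro x hx
      exact (hd x hx).deriv
  refine tendsto_nhds_unique ?_ (tendsto_int (P := P) hm c)
  refine Tendsto.congr' ?_ tendsto_const_nhds
  filter_upwards [eventually_gt_atTop (1 : ℝ)] with t ht
  exact (hconst t ht).symm

end AnyFinAux

open AnyFinAux in
/-- PROOF. For an ultrafilter `U ≤ atTop` and `P` from `exists_limit`, `ψ τ = ∫ TF m c τ dP` has the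
derivative `-∫ TG m c τ dP = 0` on `(1, ∞)` (dominated: `bdd_TG`-type bound on `τ > 1 + δ`), so it is
constant there; as `τ → ∞` it tends to `0` by dominated convergence (`|TF m c τ z| ≤` the bound for
`τ = 2`, for `τ ≥ 2`; pointwise limit `0`: for `z = 0` since `m ≥ 1`, `TF m c τ 0 = 0`). -/
theorem fin_step (hg : GReg h) {m : ℕ} (hm : 1 ≤ m) (c : ℂ)
    (hG : ∀ τ : ℝ, 1 < τ → Tendsto (fun R => L h (TG m c τ) R) atTop (𝓝 0)) {τ : ℝ} (hτ : 1 < τ) :
    Tendsto (fun R => L h (TF m c τ) R) atTop (𝓝 0) := by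
  rw [tendsto_iff_ultrafilter]
  intro U hU
  obtain ⟨P, hP, hlim⟩ := exists_limit hg U hU
  have h0 : ∀ τ : ℝ, 1 < τ → ∫ z, TG m c τ z ∂P = 0 := by
    intro t ht
    exact tendsto_nhds_unique (hlim (TG m c t) (continuous_TG m c t) (bdd_TG m c ht))
      ((hG t ht).mono_left hU)
  have h1 := hlim (TF m c τ) (continuous_TF m c τ) (bdd_TF m c hτ)
  rwa [int_TF_zero hm c h0 hτ] at h1

end SAD
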