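import Pool.Agent.Lib.SAD.AnyQuad

/-!
# From the counting version of a harmonic to the Gaussian version
-/

open Filter Topology MeasureTheory Set
open scoped MatrixGroups

namespace SAD

variable {ι : Type*} {h : ι → ℂ}

namespace AnyLapAux

open IsoLapAux

theorem tendsto_zero_of_approx {F : ℝ → ℝ}
    (h : ∀ ε : ℝ, 0 < ε → ∃ F' : ℝ → ℝ, Tendsto F' atTop (𝓝 0) ∧
      ∀ᶠ R in atTop, |F R| ≤ F' R + ε) : Tendsto F atTop (𝓝 0) := by
  rw [Metric.tendsto_nhds]
  intro ε hε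
  obtain ⟨F', hF', hle⟩ := h (ε / 2) (by positivity)
  rw [Metric.tendsto_nhds] at hF'
  filter_upwards [hF' (ε / 2) (by positivity), hle] with R h1 h2
  rw [dist_zero_right, Real.norm_eq_abs] at h1 ⊢
  have := le_abs_self (F' R)
  linarith

theorem kern_pow {x τ ρ : ℝ} (hx : 0 ≤ x) (hτ : 0 < τ) (hρ : 0 < ρ) (j : ℕ) :
    |x ^ (j + 1) * Real.exp (-(τ * x)) -
        (x ^ j * Real.exp (-(τ * x)) - x ^ j * Real.exp (-((τ + ρ) * x))) / ρ| ≤
      ρ / 2 * (x ^ (j + 2) * Real.exp (-(τ * x))) := by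
  have k := kern (x := τ * x) (ρ := ρ / τ) (by positivity) (by positivity)
  have e1 : (1 + ρ / τ) * (τ * x) = (τ + ρ) * x := by field_simp
  rw [e1] at k
  have e2 : x ^ (j + 1) * Real.exp (-(τ * x)) -
        (x ^ j * Real.exp (-(τ * x)) - x ^ j * Real.exp (-((τ + ρ) * x))) / ρ =
      x ^ j / τ * (τ * x * Real.exp (-(τ * x)) -
        (Real.exp (-(τ * x)) - Real.exp (-((τ + ρ) * x))) / (ρ / τ)) := by
    field_simp
    ring
  have hc : 0 ≤ x ^ j / τ := by positivity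
  rw [e2, abs_mul, abs_of_nonneg hc]
  calc x ^ j / τ * |τ * x * Real.exp (-(τ * x)) -
        (Real.exp (-(τ * x)) - Real.exp (-((τ + ρ) * x))) / (ρ / τ)|
      ≤ x ^ j / τ * (ρ / τ / 2 * ((τ * x) ^ 2 * Real.exp (-(τ * x)))) :=
        mul_le_mul_of_nonneg_left k hc
    _ = ρ / 2 * (x ^ (j + 2) * Real.exp (-(τ * x))) := by
        field_simp
        ring

/-- `x ^ n exp (-(τ x)) ≤ M exp (-((τ/2) x))`. -/
theorem pow_exp_le (n : ℕ) {τ : ℝ} (hτ : 0 < τ) : ∃ M : ℝ, 0 < M ∧ ∀ x : ℝ, 0 ≤ x →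
    x ^ n * Real.exp (-(τ * x)) ≤ M * Real.exp (-(τ / 2 * x)) := by
  obtain ⟨M, hM0, hM⟩ := exists_pow_exp_le n (show 0 < τ / 2 by positivity)
  refine ⟨M, hM0, fun x hx => ?_⟩
  have e : Real.exp (-(τ * x)) = Real.exp (-(τ / 2 * x)) * Real.exp (-(τ / 2 * x)) := by
    rw [← Real.exp_add]; congr 1; ring
  rw [e, ← mul_assoc]
  exact mul_le_mul_of_nonneg_right (hM x hx) (Real.exp_pos _).le

/-- the abstract claim: `y i ≥ 0`, weights `m i` bounded, `Γ` a normalisation -/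
theorem claim {ι : Type*} {y m : ι → ℝ} {Γ : ℝ → ℝ} (hy0 : ∀ i, 0 ≤ y i)
    {B : ℝ} (hB0 : 0 ≤ B) (hB : ∀ i, |m i| ≤ B)
    (hΓ : ∀ R : ℝ, 0 < R → 0 < Γ R)
    (hsum : ∀ τ : ℝ, 0 < τ → ∀ R : ℝ, 0 < R →
      Summable fun i => Real.exp (-(τ * (y i / R ^ 2))))
    (hK : ∀ τ : ℝ, 0 < τ → ∃ K : ℝ, 0 < K ∧ ∀ᶠ R in atTop,
      ∑' i, Real.exp (-(τ * (y i / R ^ 2))) ≤ K * Γ R)
    (h0 : ∀ τ : ℝ, 0 < τ → Tendsto (fun R : ℝ =>
      (∑' i, m i * (y i / R ^ 2) ^ 0 * Real.exp (-(τ * (y i / R ^ 2)))) / Γ R) atTop (𝓝 0))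
    (j : ℕ) : ∀ τ : ℝ, 0 < τ → Tendsto (fun R : ℝ =>
      (∑' i, m i * (y i / R ^ 2) ^ j * Real.exp (-(τ * (y i / R ^ 2)))) / Γ R) atTop (𝓝 0) := by
  -- summability of the weighted sums
  have hsj : ∀ (n : ℕ) (τ : ℝ), 0 < τ → ∀ R : ℝ, 0 < R →
      Summable fun i => (y i / R ^ 2) ^ n * Real.exp (-(τ * (y i / R ^ 2))) := by
    intro n τ hτ R hR
    obtain ⟨M, hM0, hM⟩ := pow_exp_le n hτ
    refine Summable.of_nonneg_of_le (fun i => ?_) (fun i => hM _ ?_)
      ((hsum (τ / 2) (by positivity) R hR).mul_left M)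
    · have := hy0 i
      positivity
    · have := hy0 i
      positivity
  have hsm : ∀ (n : ℕ) (τ : ℝ), 0 < τ → ∀ R : ℝ, 0 < R →
      Summable fun i => m i * (y i / R ^ 2) ^ n * Real.exp (-(τ * (y i / R ^ 2))) := by
    intro n τ hτ R hR
    refine Summable.of_norm_bounded ((hsj n τ hτ R hR).mul_left B) fun i => ?_
    have hx : 0 ≤ y i / R ^ 2 := by
      have := hy0 i
      positivity
    rw [mul_assoc, norm_mul, Real.norm_eq_abs, Real.norm_eq_abs,
      abs_of_nonneg (a := (y i / R ^ 2) ^ n * Real.exp (-(τ * (y i / R ^ 2)))) (by positivity)]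
    exact mul_le_mul_of_nonneg_right (hB i) (by positivity)
  induction j with
  | zero => exact h0
  | succ j ih =>
    intro τ hτ
    apply tendsto_zero_of_approx
    intro ε hε
    obtain ⟨M, hM0, hM⟩ := pow_exp_le (j + 2) hτ
    obtain ⟨K, hK0, hKΓ⟩ := hK (τ / 2) (by positivity)
    set Q : ℝ := B * M * K with hQ
    have hQ0 : 0 ≤ Q := by positivity
    obtain ⟨ρ, hρ, hρε⟩ : ∃ ρ : ℝ, 0 < ρ ∧ ρ / 2 * Q ≤ ε := by
      refine ⟨ε / (Q + 1), by positivity, ?_⟩
      have h1 : ε / (Q + 1) / 2 * Q = ε / 2 * (Q / (Q + 1)) := by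
        field_simp
      rw [h1]
      have h2 : Q / (Q + 1) ≤ 1 := by
        rw [div_le_one (by positivity)]
        linarith
      have h3 : ε / 2 * (Q / (Q + 1)) ≤ ε / 2 * 1 :=
        mul_le_mul_of_nonneg_left h2 (by positivity)
      linarith
    have t1 := ih τ hτ
    have t2 := ih (τ + ρ) (by positivity)
    refine ⟨fun R => (|(∑' i, m i * (y i / R ^ 2) ^ j * Real.exp (-(τ * (y i / R ^ 2)))) / Γ R| +
      |(∑' i, m i * (y i / R ^ 2) ^ j * Real.exp (-((τ + ρ) * (y i / R ^ 2)))) / Γ R|) / ρ, ?_, ?_⟩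
    · have t3 := ((t1.abs.add t2.abs).div_const ρ)
      simpa using t3
    · filter_upwards [hKΓ, eventually_gt_atTop (0 : ℝ)] with R hKR hR
      have hΓ0 := hΓ R hR
      set x : ι → ℝ := fun i => y i / R ^ 2 with hx
      have hx0 : ∀ i, 0 ≤ x i := fun i => by
        have := hy0 i
        simp only [hx]
        positivity
      set S1 : ℝ := ∑' i, m i * (x i) ^ j * Real.exp (-(τ * x i)) with hS1
      set S2 : ℝ := ∑' i, m i * (x i) ^ j * Real.exp (-((τ + ρ) * x i)) with hS2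
      set S : ℝ := ∑' i, m i * (x i) ^ (j + 1) * Real.exp (-(τ * x i)) with hS
      have s1 := hsm j τ hτ R hR
      have s2 := hsm j (τ + ρ) (by positivity) R hR
      have s3 := hsm (j + 1) τ hτ R hR
      have hD : ∀ i, |m i * (x i) ^ (j + 1) * Real.exp (-(τ * x i)) -
          (m i * (x i) ^ j * Real.exp (-(τ * x i)) -
            m i * (x i) ^ j * Real.exp (-((τ + ρ) * x i))) / ρ| ≤
          B * (ρ / 2) * M * Real.exp (-(τ / 2 * x i)) := by
        intro i
        have e : m i * (x i) ^ (j + 1) * Real.exp (-(τ * x i)) -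
          (m i * (x i) ^ j * Real.exp (-(τ * x i)) -
            m i * (x i) ^ j * Real.exp (-((τ + ρ) * x i))) / ρ =
            m i * ((x i) ^ (j + 1) * Real.exp (-(τ * x i)) -
          ((x i) ^ j * Real.exp (-(τ * x i)) -
            (x i) ^ j * Real.exp (-((τ + ρ) * x i))) / ρ) := by ring
        rw [e, abs_mul]
        calc |m i| * |(x i) ^ (j + 1) * Real.exp (-(τ * x i)) -
          ((x i) ^ j * Real.exp (-(τ * x i)) -
            (x i) ^ j * Real.exp (-((τ + ρ) * x i))) / ρ|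
            ≤ B * (ρ / 2 * ((x i) ^ (j + 2) * Real.exp (-(τ * x i)))) :=
              mul_le_mul (hB i) (kern_pow (hx0 i) hτ hρ j) (abs_nonneg _) hB0
          _ ≤ B * (ρ / 2 * (M * Real.exp (-(τ / 2 * x i)))) := by
              have := hM (x i) (hx0 i)
              gcongr
          _ = B * (ρ / 2) * M * Real.exp (-(τ / 2 * x i)) := by ring
      have hE := hsum (τ / 2) (by positivity) R hR
      have hDs : Summable fun i => m i * (x i) ^ (j + 1) * Real.exp (-(τ * x i)) -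
          (m i * (x i) ^ j * Real.exp (-(τ * x i)) -
            m i * (x i) ^ j * Real.exp (-((τ + ρ) * x i))) / ρ :=
        s3.sub ((s1.sub s2).div_const ρ)
      have hSs : S = (S1 - S2) / ρ + ∑' i, (m i * (x i) ^ (j + 1) * Real.exp (-(τ * x i)) -
          (m i * (x i) ^ j * Real.exp (-(τ * x i)) -
            m i * (x i) ^ j * Real.exp (-((τ + ρ) * x i))) / ρ) := by
        rw [hS1, hS2, ← s1.tsum_sub s2, ← tsum_div_const,
          ← ((s1.sub s2).div_const ρ).tsum_add hDs, hS]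
        refine tsum_congr fun i => ?_
        simp only [hx]
        ring
      have hDG : |∑' i, (m i * (x i) ^ (j + 1) * Real.exp (-(τ * x i)) -
          (m i * (x i) ^ j * Real.exp (-(τ * x i)) -
            m i * (x i) ^ j * Real.exp (-((τ + ρ) * x i))) / ρ)| ≤ ε * Γ R := by
        have k1 := norm_tsum_le_tsum_norm hDs.norm
        simp only [Real.norm_eq_abs] at k1
        refine k1.trans ?_
        have k2 : ∑' i, |m i * (x i) ^ (j + 1) * Real.exp (-(τ * x i)) -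
          (m i * (x i) ^ j * Real.exp (-(τ * x i)) -
            m i * (x i) ^ j * Real.exp (-((τ + ρ) * x i))) / ρ| ≤
            ∑' i, B * (ρ / 2) * M * Real.exp (-(τ / 2 * x i)) :=
          hDs.abs.tsum_le_tsum hD (hE.mul_left _)
        refine k2.trans ?_
        rw [tsum_mul_left]
        calc B * (ρ / 2) * M * ∑' i, Real.exp (-(τ / 2 * x i))
            ≤ B * (ρ / 2) * M * (K * Γ R) := by gcongr
          _ = ρ / 2 * Q * Γ R := by rw [hQ]; ring
          _ ≤ ε * Γ R := by gcongr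
      have hfin : |S| ≤ (|S1| + |S2|) / ρ + ε * Γ R := by
        rw [hSs]
        refine (abs_add_le _ _).trans ?_
        have : |(S1 - S2) / ρ| ≤ (|S1| + |S2|) / ρ := by
          rw [abs_div, abs_of_pos hρ]
          have := abs_sub S1 S2
          gcongr
        linarith
      show |S / Γ R| ≤ (|S1 / Γ R| + |S2 / Γ R|) / ρ + ε
      rw [abs_div, abs_div, abs_div, abs_of_pos hΓ0, div_le_iff₀ hΓ0]
      have e5 : ((|S1| / Γ R + |S2| / Γ R) / ρ + ε) * Γ R = (|S1| + |S2|) / ρ + ε * Γ R := by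
        field_simp
      rw [e5]
      exact hfin

/-- The defining limit as an inequality for all `R`. -/
theorem exists_CK (hf : LocFin h) {k : ℕ} (hh : HarmK k h) (c : ℂ) {η : ℝ} (hη : 0 < η) :
    ∃ C : ℝ, 0 ≤ C ∧ ∀ R : ℝ,
      |dirSum h (fun u => (c * u ^ (2 * k)).re) R| ≤ η * N h R + C := by
  have h1 := hh c
  rw [Metric.tendsto_atTop] at h1
  obtain ⟨R₀, hR₀⟩ := h1 η hη
  refine ⟨‖c‖ * N h R₀, mul_nonneg (norm_nonneg _) (N_nonneg _ _), fun R => ?_⟩
  have hb := abs_dirSum_le hf (f := fun u => (c * u ^ (2 * k)).re) (B := ‖c‖) (fun i => by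
    have h0 : ‖h i‖ ≠ 0 := norm_ne_zero_iff.2 (hf.1 i)
    refine (abs_re_le _ _ _).trans ?_
    rw [norm_div, Complex.norm_real, norm_norm, div_self h0, one_pow, mul_one]) R
  have hN := N_nonneg h R
  have hN0 := N_nonneg h R₀
  have hw := norm_nonneg c
  rcases le_total R₀ R with hR | hR
  · have h2 := hR₀ R hR
    rw [dist_zero_right, Real.norm_eq_abs, abs_div, abs_of_nonneg hN] at h2
    rcases hN.eq_or_lt with h3 | h3
    · rw [← h3, mul_zero] at hb
      rw [← h3]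
      have : 0 ≤ ‖c‖ * N h R₀ := by positivity
      linarith
    · rw [div_lt_iff₀ h3] at h2
      have : 0 ≤ ‖c‖ * N h R₀ := by positivity
      linarith
  · have h2 : N h R ≤ N h R₀ := N_mono hf hR
    have h3 : ‖c‖ * N h R ≤ ‖c‖ * N h R₀ := by gcongr
    have : 0 ≤ η * N h R := by positivity
    linarith

end AnyLapAux

open IsoLapAux AnyLapAux

/-- PROOF. `m i = Re (c u_i ^ (2 k))`, `u_i = h i / ‖h i‖`, `|m i| ≤ ‖c‖`, `y i = ‖h i‖ ^ 2`. CLAIM: for
all `j` and `τ > 0`, `(∑' i, m i * (y i / R²) ^ j * exp (-(τ * (y i / R²)))) / G h R → 0`.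
`j = 0`: as in `IsoLapAux.exists_C` (same proof) `|dirSum h (..) R| ≤ η N h R + C` for all `R`, and
`IsoLapAux.abs_tsum_signed_le` with `t = τ / R²` gives the bound `η G h (R / √τ) + C`; `G_scale_le`.
`j → j + 1`: `|x ^ (j+1) e^{-τx} - (x ^ j e^{-τx} - x ^ j e^{-(τ+ρ)x}) / ρ| ≤ (ρ/2) x ^ (j+2) e^{-τx}`
(`IsoLapAux.kern` at `τ x` with `ρ / τ`, divided by `τ`, times `x ^ j`), and `x ^ (j+2) e^{-τx} ≤
M e^{-(τ/2)x}` (`exists_pow_exp_le`), whose sum is `≤ K G h R` (`G_scale_le`); first `R → ∞`, then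
`ρ → 0` (see the proof of `tendsto_L_DE` in IsoLap.lean, which is this step for `j = 0`).
Finally `L h (TF k c τ) R` is the quotient for `j = k`: for `z = (h i / R)²`,
`Re (c z ^ k) = m i * (y i / R²) ^ k`, and `exp (-‖z‖) * exp (-((τ-1) ‖z‖)) = exp (-(τ ‖z‖))`. -/
theorem lapK_of_harmK (hf : LocFin h) (hq : Quad h) {k : ℕ} (hh : HarmK k h) : LapK k h := by
  have hg := greg_of_quad hf hq
  intro c τ hτ
  set y : ι → ℝ := fun i => ‖h i‖ ^ 2 with hy
  set m : ι → ℝ := fun i => (c * (h i / (‖h i‖ : ℂ)) ^ (2 * k)).re with hm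
  have hy0 : ∀ i, 0 ≤ y i := fun i => by positivity
  have hmB : ∀ i, |m i| ≤ ‖c‖ := fun i => by
    have h0 : ‖h i‖ ≠ 0 := norm_ne_zero_iff.2 (hf.1 i)
    refine (abs_re_le _ _ _).trans ?_
    rw [norm_div, Complex.norm_real, norm_norm, div_self h0, one_pow, mul_one]
  have sety : ∀ s : ℝ, 0 ≤ s → {i | y i ≤ s} = {i | ‖h i‖ ≤ √s} := by
    intro s hs
    ext i
    simp only [Set.mem_ofPred_eq, hy]
    rw [Real.le_sqrt (norm_nonneg _) hs]
  have finy : ∀ s : ℝ, {i | y i ≤ s}.Finite := by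
    intro s
    by_cases hs : 0 ≤ s
    · rw [sety s hs]; exact hf.2 _
    · refine Set.Finite.subset Set.finite_empty fun i hi => ?_
      exfalso
      have : y i ≤ s := hi
      linarith [hy0 i]
  have hsum : ∀ t : ℝ, 0 < t → ∀ R : ℝ, 0 < R →
      Summable fun i => Real.exp (-(t * (y i / R ^ 2))) := by
    intro t ht R hR
    have := hg.summable (t / R ^ 2) (by positivity)
    refine this.congr fun i => ?_
    simp only [hy]
    congr 2
    ring
  have hKG : ∀ t : ℝ, 0 < t → ∃ K : ℝ, 0 < K ∧ ∀ᶠ R in atTop,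
      ∑' i, Real.exp (-(t * (y i / R ^ 2))) ≤ K * G h R := by
    intro t ht
    obtain ⟨K, hK0, hK⟩ := G_scale_le hf hq (s := 1 / √t) (by positivity)
    refine ⟨K, hK0, ?_⟩
    filter_upwards [hK, eventually_gt_atTop (0 : ℝ)] with R h1 hR
    refine le_trans (le_of_eq ?_) h1
    unfold G
    refine tsum_congr fun i => ?_
    congr 2
    have h2 : √t ^ 2 = t := Real.sq_sqrt ht.le
    simp only [hy]
    rw [div_pow, mul_pow, div_pow, h2]
    field_simp
  have hΓ : ∀ R : ℝ, 0 < R → 0 < G h R := fun R hR => hg.G_pos hR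
  have h0 : ∀ t : ℝ, 0 < t → Tendsto (fun R : ℝ =>
      (∑' i, m i * (y i / R ^ 2) ^ 0 * Real.exp (-(t * (y i / R ^ 2)))) / G h R) atTop (𝓝 0) := by
    intro t ht
    apply tendsto_zero_of_approx
    intro ε hε
    obtain ⟨K, hK0, hK⟩ := hKG t ht
    have hη : 0 < ε / K := by positivity
    obtain ⟨C, hC0, hC⟩ := exists_CK hf hh c hη
    refine ⟨fun R => C / G h R, hg.tendsto.const_div_atTop C, ?_⟩
    have hle : ∀ s : ℝ, 0 ≤ s →
        |∑ᶠ i ∈ {i | y i ≤ s}, m i| ≤ ε / K * ({i | y i ≤ s}.ncard : ℝ) + C := by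
      intro s hs
      have := hC (√s)
      unfold dirSum N at this
      rw [← sety s hs] at this
      exact this
    filter_upwards [hK, eventually_gt_atTop (0 : ℝ)] with R hKR hR
    have hG0 := hΓ R hR
    have e1 : ∀ i, t * (y i / R ^ 2) = t / R ^ 2 * y i := fun i => by ring
    have hs1 : Summable fun i => Real.exp (-(t / R ^ 2 * y i)) := by
      refine (hsum t ht R hR).congr fun i => ?_
      rw [e1]
    have b1 := abs_tsum_signed_le hy0 finy hmB hη.le hC0 hle (t := t / R ^ 2) (by positivity) hs1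
    have e2 : ∑' i, m i * (y i / R ^ 2) ^ 0 * Real.exp (-(t * (y i / R ^ 2))) =
        ∑' i, m i * Real.exp (-(t / R ^ 2 * y i)) := by
      refine tsum_congr fun i => ?_
      rw [e1, pow_zero, mul_one]
    have e3 : ∑' i, Real.exp (-(t / R ^ 2 * y i)) ≤ K * G h R := by
      refine le_trans (le_of_eq (tsum_congr fun i => ?_)) hKR
      rw [e1]
    rw [e2, abs_div, abs_of_pos hG0, div_le_iff₀ hG0]
    have e4 : (C / G h R + ε) * G h R = ε / K * (K * G h R) + C := by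
      field_simp
      ring
    rw [e4]
    refine b1.trans ?_
    gcongr
  have key := claim hy0 (norm_nonneg c) hmB hΓ hsum hKG h0 k τ (by linarith)
  refine key.congr' ?_
  filter_upwards [eventually_gt_atTop (0 : ℝ)] with R hR
  unfold L
  congr 1
  refine tsum_congr fun i => ?_
  have n1 : ‖(h i / (R : ℂ)) ^ 2‖ = y i / R ^ 2 := by
    rw [norm_pow, norm_div, Complex.norm_real, Real.norm_eq_abs, abs_of_pos hR, div_pow]
  have hh0 : (‖h i‖ : ℂ) ≠ 0 := by
    rw [Complex.ofReal_ne_zero]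
    exact norm_ne_zero_iff.2 (hf.1 i)
  have hR0 : (R : ℂ) ≠ 0 := by
    rw [Complex.ofReal_ne_zero]
    exact hR.ne'
  have n2 : c * ((h i / (R : ℂ)) ^ 2) ^ k =
      (((y i / R ^ 2) ^ k : ℝ) : ℂ) * (c * (h i / (‖h i‖ : ℂ)) ^ (2 * k)) := by
    simp only [hy]
    push_cast
    rw [pow_mul, div_pow (h i) (‖h i‖ : ℂ), div_pow (h i) (R : ℂ), div_pow, div_pow, div_pow]
    field_simp
  unfold TF
  rw [n1, n2, Complex.re_ofReal_mul]
  have e5 : Real.exp (-(τ * (y i / R ^ 2))) = Real.exp (-(‖h i‖ / R) ^ 2) *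
      Real.exp (-((τ - 1) * (y i / R ^ 2))) := by
    rw [← Real.exp_add]
    congr 1
    rw [div_pow]
    simp only [hy]
    ring
  rw [e5]
  simp only [hm]
  ring

end SAD
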