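import Pool.Agent.Lib.SAD.AnyDefs

/-!
# The derivative along a boost
-/

open Filter Topology MeasureTheory Set
open scoped MatrixGroups

namespace SAD

/-- The diagonal matrix. -/
noncomputable def dg (t : ℝ) : SL(2, ℝ) :=
  ⟨!![Real.exp (t / 2), 0; 0, Real.exp (-(t / 2))], by
    rw [Matrix.det_fin_two_of, ← Real.exp_add]; simp⟩

/-- Its action on squares. -/
noncomputable def bst (t : ℝ) (z : ℂ) : ℂ := ⟨Real.sinh t * ‖z‖ + Real.cosh t * z.re, z.im⟩

theorem sq_norm_eq (z : ℂ) : ‖z‖ ^ 2 = z.re ^ 2 + z.im ^ 2 := by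
  rw [Complex.sq_norm, Complex.normSq_apply]; ring

/-- PROOF. `v = x + i y`: both sides are `e^t x² - e^{-t} y² + 2 i x y`; `‖v²‖ = x² + y²`. -/
theorem bst_sq (t : ℝ) (v : ℂ) : (act (dg t) v) ^ 2 = bst t (v ^ 2) := by
  have hn : ‖v ^ 2‖ = v.re ^ 2 + v.im ^ 2 := by
    rw [norm_pow, sq_norm_eq]
  have e1 : Real.exp (t / 2) * Real.exp (t / 2) = Real.cosh t + Real.sinh t := by
    rw [← Real.exp_add, Real.cosh_add_sinh]; congr 1; ring
  have e2 : Real.exp (-(t / 2)) * Real.exp (-(t / 2)) = Real.cosh t - Real.sinh t := by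
    rw [← Real.exp_add, Real.cosh_sub_sinh]; congr 1; ring
  have e3 : Real.exp (t / 2) * Real.exp (-(t / 2)) = 1 := by
    rw [← Real.exp_add]; simp
  have ha : act (dg t) v = ⟨Real.exp (t / 2) * v.re, Real.exp (-(t / 2)) * v.im⟩ := by
    apply Complex.ext <;> simp [act, dg]
  rw [ha]
  apply Complex.ext
  · have h1 : (bst t (v ^ 2)).re = Real.sinh t * ‖v ^ 2‖ + Real.cosh t * (v ^ 2).re := rfl
    rw [h1, hn]
    simp only [pow_two, Complex.mul_re]
    linear_combination (v.re * v.re) * e1 - (v.im * v.im) * e2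
  · simp only [bst, pow_two, Complex.mul_im]
    linear_combination (2 * v.re * v.im) * e3

theorem cosh_sub_abs (t : ℝ) : Real.cosh t - |Real.sinh t| = Real.exp (-|t|) := by
  rcases le_total 0 t with h | h
  · rw [abs_of_nonneg h, abs_of_nonneg (Real.sinh_nonneg_iff.2 h), Real.cosh_sub_sinh]
  · rw [abs_of_nonpos h, abs_of_nonpos (Real.sinh_nonpos_iff.2 h), sub_neg_eq_add,
      Real.cosh_add_sinh, neg_neg]

theorem cosh_add_abs (t : ℝ) : Real.cosh t + |Real.sinh t| = Real.exp |t| := by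
  rcases le_total 0 t with h | h
  · rw [abs_of_nonneg h, abs_of_nonneg (Real.sinh_nonneg_iff.2 h), Real.cosh_add_sinh]
  · rw [abs_of_nonpos h, abs_of_nonpos (Real.sinh_nonpos_iff.2 h), ← sub_eq_add_neg,
      Real.cosh_sub_sinh]

theorem abs_sinh_re (t : ℝ) (z : ℂ) : |Real.sinh t * z.re| ≤ |Real.sinh t| * ‖z‖ := by
  rw [abs_mul]
  exact mul_le_mul_of_nonneg_left (Complex.abs_re_le_norm z) (abs_nonneg _)

theorem bst_aux (t : ℝ) (z : ℂ) :
    Real.exp (-|t|) * ‖z‖ ≤ Real.cosh t * ‖z‖ + Real.sinh t * z.re := by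
  have h1 := (abs_le.1 (abs_sinh_re t z)).1
  rw [← cosh_sub_abs]
  nlinarith

/-- PROOF. The right side is `≥ 0` (`|sinh t * z.re| ≤ cosh t * ‖z‖`); compare the squares. -/
theorem norm_bst (t : ℝ) (z : ℂ) : ‖bst t z‖ = Real.cosh t * ‖z‖ + Real.sinh t * z.re := by
  have h0 : 0 ≤ Real.cosh t * ‖z‖ + Real.sinh t * z.re :=
    le_trans (by positivity) (bst_aux t z)
  rw [← sq_eq_sq₀ (norm_nonneg _) h0, sq_norm_eq]
  have h1 := sq_norm_eq z
  have h2 := Real.cosh_sq t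
  simp only [bst]
  linear_combination (Real.sinh t ^ 2 - Real.cosh t ^ 2) * h1 + (- z.im ^ 2) * h2

/-- PROOF. `cosh t - |sinh t| = e^{-|t|}`. -/
theorem norm_bst_ge (t : ℝ) (z : ℂ) : Real.exp (-|t|) * ‖z‖ ≤ ‖bst t z‖ := by
  rw [norm_bst]; exact bst_aux t z

/-- PROOF. `cosh t + |sinh t| = e^{|t|}`. -/
theorem norm_bst_le (t : ℝ) (z : ℂ) : ‖bst t z‖ ≤ Real.exp |t| * ‖z‖ := by
  have h1 := (abs_le.1 (abs_sinh_re t z)).2
  rw [norm_bst, ← cosh_add_abs]
  nlinarith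

theorem continuous_bst : Continuous fun x : ℝ × ℂ => bst x.1 x.2 := by
  have h : (fun x : ℝ × ℂ => bst x.1 x.2) = fun x : ℝ × ℂ =>
      ((Real.sinh x.1 * ‖x.2‖ + Real.cosh x.1 * x.2.re : ℝ) : ℂ) +
        ((x.2.im : ℝ) : ℂ) * Complex.I := by
    funext x
    apply Complex.ext
    · rw [Complex.add_re, Complex.ofReal_re, Complex.re_ofReal_mul, Complex.I_re, mul_zero,
        add_zero]
      rfl
    · rw [Complex.add_im, Complex.ofReal_im, Complex.im_ofReal_mul, Complex.I_im, mul_one,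
        zero_add]
      rfl
  rw [h]
  have h1 : Continuous fun x : ℝ × ℂ => x.2.re := Complex.continuous_re.comp continuous_snd
  have h2 : Continuous fun x : ℝ × ℂ => x.2.im := Complex.continuous_im.comp continuous_snd
  have h3 : Continuous fun x : ℝ × ℂ => Real.sinh x.1 := Real.continuous_sinh.comp continuous_fst
  have h4 : Continuous fun x : ℝ × ℂ => Real.cosh x.1 := Real.continuous_cosh.comp continuous_fst
  exact (Complex.continuous_ofReal.comp ((h3.mul continuous_snd.norm).add (h4.mul h1))).add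
    ((Complex.continuous_ofReal.comp h2).mul continuous_const)

theorem continuous_bst_right (t : ℝ) : Continuous (bst t) :=
  continuous_bst.comp (Continuous.prodMk continuous_const continuous_id)

theorem hasDerivAt_bst (t : ℝ) (z : ℂ) :
    HasDerivAt (fun t : ℝ => bst t z) ((‖bst t z‖ : ℝ) : ℂ) t := by
  have h : (fun t : ℝ => bst t z) = fun t : ℝ =>
      ((Real.sinh t * ‖z‖ + Real.cosh t * z.re : ℝ) : ℂ) + ((z.im : ℝ) : ℂ) * Complex.I := by
    funext x
    apply Complex.ext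
    · rw [Complex.add_re, Complex.ofReal_re, Complex.re_ofReal_mul, Complex.I_re, mul_zero,
        add_zero]
      rfl
    · rw [Complex.add_im, Complex.ofReal_im, Complex.im_ofReal_mul, Complex.I_im, mul_one,
        zero_add]
      rfl
  rw [h, norm_bst]
  have h1 : HasDerivAt (fun t : ℝ => Real.sinh t * ‖z‖ + Real.cosh t * z.re)
      (Real.cosh t * ‖z‖ + Real.sinh t * z.re) t :=
    ((Real.hasDerivAt_sinh t).mul_const _).add ((Real.hasDerivAt_cosh t).mul_const _)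
  exact h1.ofReal_comp.add_const _

theorem hasDerivAt_norm_bst (t : ℝ) (z : ℂ) :
    HasDerivAt (fun t : ℝ => ‖bst t z‖) (bst t z).re t := by
  have h : (fun t : ℝ => ‖bst t z‖) = fun t : ℝ => Real.cosh t * ‖z‖ + Real.sinh t * z.re := by
    funext x
    exact norm_bst x z
  rw [h]
  exact ((Real.hasDerivAt_cosh t).mul_const _).add ((Real.hasDerivAt_sinh t).mul_const _)

/-- PROOF. Let `f t z = Re (c (bst t z)^(m+1)) exp (-(τ ‖bst t z‖ - ‖z‖))`,
`‖bst t z‖ = cosh t ‖z‖ + sinh t Re z`. The derivative in `t` is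
`(Re (c (m+1) (bst t z)^m b) - τ Re (c (bst t z)^(m+1)) ‖·‖') exp (..)`, with the real number
`b = cosh t ‖z‖ + sinh t Re z = ‖bst t z‖` and `‖·‖' = sinh t ‖z‖ + cosh t Re z = (bst t z).re`.
For `|t| ≤ t₀` with `τ e^{-t₀} > 1` it is bounded by
`‖c‖ ((m+1) e^{(m+1)t₀} ‖z‖^(m+1) + τ e^{(m+2)t₀} ‖z‖^(m+2)) exp (-((τ e^{-t₀} - 1) ‖z‖)) ≤ const`.
`hasDerivAt_integral_of_dominated_loc_of_deriv_le` at `0`; the function of `t` is `0` near `0`. -/
theorem one_P {P : Measure ℂ} [IsProbabilityMeasure P] {m : ℕ} {c : ℂ} {τ : ℝ} (hτ : 1 < τ)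
    {ε : ℝ} (hε : 0 < ε)
    (hP : ∀ t : ℝ, |t| < ε → ∫ z, (c * (bst t z) ^ (m + 1)).re *
      Real.exp (-(τ * ‖bst t z‖ - ‖z‖)) ∂P = 0) :
    ∫ z, (((m + 1) * (c * z ^ m).re * ‖z‖ - τ * (c * z ^ (m + 1)).re * z.re) *
      Real.exp (-((τ - 1) * ‖z‖))) ∂P = 0 := by
  obtain ⟨t0, ht0, ht1⟩ : ∃ t0 : ℝ, 0 < t0 ∧ Real.exp t0 < τ := by
    refine ⟨Real.log τ / 2, by have := Real.log_pos hτ; positivity, ?_⟩
    rw [← Real.lt_log_iff_exp_lt (by linarith)]
    have := Real.log_pos hτ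
    linarith
  have ha : 0 < τ - Real.exp t0 := by linarith
  obtain ⟨M1, hM10, hM1⟩ := exists_pow_exp_le (m + 1) ha
  obtain ⟨M2, hM20, hM2⟩ := exists_pow_exp_le (m + 2) ha
  let F : ℝ → ℂ → ℝ := fun t z => (c * (bst t z) ^ (m + 1)).re *
    Real.exp (-(τ * ‖bst t z‖ - ‖z‖))
  let F' : ℝ → ℂ → ℝ := fun t z => ((m + 1) * (c * (bst t z) ^ m).re * ‖bst t z‖ -
    τ * (c * (bst t z) ^ (m + 1)).re * (bst t z).re) * Real.exp (-(τ * ‖bst t z‖ - ‖z‖))
  have hexp : ∀ t ∈ Metric.ball (0 : ℝ) t0, ∀ z, Real.exp (-(τ * ‖bst t z‖ - ‖z‖)) ≤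
      Real.exp (-((τ - Real.exp t0) * ‖bst t z‖)) := by
    intro t ht z
    rw [mem_ball_zero_iff, Real.norm_eq_abs] at ht
    apply Real.exp_le_exp.2
    have h1 := norm_bst_ge t z
    have h2 : ‖z‖ ≤ Real.exp |t| * ‖bst t z‖ := by
      calc ‖z‖ = Real.exp |t| * (Real.exp (-|t|) * ‖z‖) := by
            rw [← mul_assoc, ← Real.exp_add]; simp
        _ ≤ _ := mul_le_mul_of_nonneg_left h1 (Real.exp_pos _).le
    have h3 : Real.exp |t| * ‖bst t z‖ ≤ Real.exp t0 * ‖bst t z‖ :=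
      mul_le_mul_of_nonneg_right (Real.exp_le_exp.2 ht.le) (norm_nonneg _)
    nlinarith
  have hder : ∀ t z, HasDerivAt (fun t => F t z) (F' t z) t := by
    intro t z
    have h1 : HasDerivAt (fun t : ℝ => c * (bst t z) ^ (m + 1))
        (c * (((m + 1 : ℕ) : ℂ) * (bst t z) ^ m * ((‖bst t z‖ : ℝ) : ℂ))) t := by
      have := ((hasDerivAt_bst t z).pow (m + 1)).const_mul c
      simpa using this
    have h2 : HasDerivAt (fun t : ℝ => (c * (bst t z) ^ (m + 1)).re)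
        (c * (((m + 1 : ℕ) : ℂ) * (bst t z) ^ m * ((‖bst t z‖ : ℝ) : ℂ))).re t :=
      (Complex.reCLM.hasFDerivAt.comp_hasDerivAt t h1)
    have h3 : HasDerivAt (fun t : ℝ => Real.exp (-(τ * ‖bst t z‖ - ‖z‖)))
        (Real.exp (-(τ * ‖bst t z‖ - ‖z‖)) * (-(τ * (bst t z).re))) t :=
      (((hasDerivAt_norm_bst t z).const_mul τ).sub_const _).neg.exp
    have h4 := h2.mul h3
    have h5 : (c * (((m + 1 : ℕ) : ℂ) * (bst t z) ^ m * ((‖bst t z‖ : ℝ) : ℂ))).re =
        (m + 1) * (c * (bst t z) ^ m).re * ‖bst t z‖ := by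
      have : c * (((m + 1 : ℕ) : ℂ) * (bst t z) ^ m * ((‖bst t z‖ : ℝ) : ℂ)) =
          (((m + 1) * ‖bst t z‖ : ℝ) : ℂ) * (c * (bst t z) ^ m) := by
        push_cast; ring
      rw [this, Complex.re_ofReal_mul]
      ring
    rw [h5] at h4
    exact h4.congr_deriv (by simp only [F']; ring)
  have hbound : ∀ t ∈ Metric.ball (0 : ℝ) t0, ∀ z,
      ‖F' t z‖ ≤ (m + 1) * ‖c‖ * M1 + τ * ‖c‖ * M2 := by
    intro t ht z
    have h1 := hexp t ht z
    set w := ‖bst t z‖ with hw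
    have hw0 : 0 ≤ w := norm_nonneg _
    have h2 := abs_re_le m c (bst t z)
    have h3 := abs_re_le (m + 1) c (bst t z)
    have h4 : |(bst t z).re| ≤ w := Complex.abs_re_le_norm _
    rw [← hw] at h2 h3
    have hE := Real.exp_pos (-(τ * w - ‖z‖))
    have h5 : |(m + 1) * (c * (bst t z) ^ m).re * w -
        τ * (c * (bst t z) ^ (m + 1)).re * (bst t z).re| ≤
        (m + 1) * ‖c‖ * w ^ (m + 1) + τ * ‖c‖ * w ^ (m + 2) := by
      refine (abs_sub _ _).trans ?_
      apply add_le_add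
      · rw [abs_mul, abs_mul, abs_of_nonneg hw0, abs_of_nonneg (by positivity : (0:ℝ) ≤ m + 1)]
        calc (m + 1) * |(c * (bst t z) ^ m).re| * w ≤ (m + 1) * (‖c‖ * w ^ m) * w := by gcongr
          _ = _ := by ring
      · rw [abs_mul, abs_mul, abs_of_nonneg (by linarith : (0:ℝ) ≤ τ)]
        calc τ * |(c * (bst t z) ^ (m + 1)).re| * |(bst t z).re| ≤
            τ * (‖c‖ * w ^ (m + 1)) * w := by gcongr
          _ = _ := by ring
    have h6 : ‖F' t z‖ = |(m + 1) * (c * (bst t z) ^ m).re * w -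
        τ * (c * (bst t z) ^ (m + 1)).re * (bst t z).re| * Real.exp (-(τ * w - ‖z‖)) := by
      show ‖_ * _‖ = _
      rw [norm_mul, Real.norm_eq_abs, Real.norm_eq_abs, abs_of_pos hE]
    rw [h6]
    calc _ ≤ ((m + 1) * ‖c‖ * w ^ (m + 1) + τ * ‖c‖ * w ^ (m + 2)) *
          Real.exp (-((τ - Real.exp t0) * w)) := by gcongr
      _ = (m + 1) * ‖c‖ * (w ^ (m + 1) * Real.exp (-((τ - Real.exp t0) * w))) +
          τ * ‖c‖ * (w ^ (m + 2) * Real.exp (-((τ - Real.exp t0) * w))) := by ring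
      _ ≤ _ := by
          have := hM1 w hw0
          have := hM2 w hw0
          gcongr
  have hcr : ∀ (n : ℕ) (t : ℝ), Continuous fun z => (c * (bst t z) ^ n).re := fun n t =>
    Complex.continuous_re.comp (continuous_const.mul ((continuous_bst_right t).pow n))
  have hce : ∀ t : ℝ, Continuous fun z => Real.exp (-(τ * ‖bst t z‖ - ‖z‖)) := fun t =>
    Real.continuous_exp.comp (((continuous_const.mul (continuous_bst_right t).norm).sub
      continuous_norm).neg)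
  have hcF : ∀ t, Continuous (F t) := fun t => (hcr (m + 1) t).mul (hce t)
  have hcF' : ∀ t, Continuous (F' t) := fun t =>
    (((continuous_const.mul (hcr m t)).mul (continuous_bst_right t).norm).sub
      ((continuous_const.mul (hcr (m + 1) t)).mul
        (Complex.continuous_re.comp (continuous_bst_right t)))).mul (hce t)
  have hint : Integrable (F 0) P := by
    apply Integrable.of_bound (hcF 0).aestronglyMeasurable (‖c‖ * M1)
    refine Filter.Eventually.of_forall fun z => ?_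
    have h1 := hexp 0 (Metric.mem_ball_self ht0) z
    have h3 := abs_re_le (m + 1) c (bst 0 z)
    show ‖_ * _‖ ≤ _
    rw [norm_mul, Real.norm_eq_abs, Real.norm_eq_abs, abs_of_pos (Real.exp_pos _)]
    calc |(c * bst 0 z ^ (m + 1)).re| * Real.exp (-(τ * ‖bst 0 z‖ - ‖z‖)) ≤
        (‖c‖ * ‖bst 0 z‖ ^ (m + 1)) * Real.exp (-((τ - Real.exp t0) * ‖bst 0 z‖)) := by gcongr
      _ = ‖c‖ * (‖bst 0 z‖ ^ (m + 1) * Real.exp (-((τ - Real.exp t0) * ‖bst 0 z‖))) := by ring
      _ ≤ _ := mul_le_mul_of_nonneg_left (hM1 _ (norm_nonneg _)) (norm_nonneg _)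
  have key := hasDerivAt_integral_of_dominated_loc_of_deriv_le (μ := P) (F := F) (F' := F')
    (x₀ := (0 : ℝ)) (bound := fun _ => (m + 1) * ‖c‖ * M1 + τ * ‖c‖ * M2)
    (Metric.ball_mem_nhds 0 ht0)
    (Filter.Eventually.of_forall fun t => (hcF t).aestronglyMeasurable) hint
    (hcF' 0).aestronglyMeasurable
    (Filter.Eventually.of_forall fun z t ht => hbound t ht z) (integrable_const _)
    (Filter.Eventually.of_forall fun z t _ => hder t z)
  have h0 : (fun t => ∫ z, F t z ∂P) =ᶠ[𝓝 0] fun _ => (0 : ℝ) := by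
    filter_upwards [Metric.ball_mem_nhds (0 : ℝ) hε] with t ht
    rw [mem_ball_zero_iff, Real.norm_eq_abs] at ht
    exact hP t ht
  have h1 : HasDerivAt (fun t => ∫ z, F t z ∂P) 0 0 :=
    (hasDerivAt_const (0 : ℝ) (0 : ℝ)).congr_of_eventuallyEq h0
  have h2 := key.2.unique h1
  have hb0 : ∀ z, bst 0 z = z := by
    intro z
    apply Complex.ext <;> simp [bst]
  rw [← h2]
  apply integral_congr_ae
  refine Filter.Eventually.of_forall fun z => ?_
  show _ = ((m + 1) * (c * (bst 0 z) ^ m).re * ‖bst 0 z‖ -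
    τ * (c * (bst 0 z) ^ (m + 1)).re * (bst 0 z).re) * Real.exp (-(τ * ‖bst 0 z‖ - ‖z‖))
  have he : -(τ * ‖z‖ - ‖z‖) = -((τ - 1) * ‖z‖) := by ring
  rw [hb0, he]

end SAD
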