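import Pool.Agent.Lib.SAD.AnyQuad
import Pool.Agent.Lib.SAD.AnyOne

/-!
# The relation between two radial weights
-/

open Filter Topology MeasureTheory Set
open scoped MatrixGroups

namespace SAD

variable {ι : Type*} {h : ι → ℂ}

namespace AnyRelAux

theorem norm_sq_div {R : ℝ} (hR : 0 < R) (v : ℂ) : ‖(v / (R : ℂ)) ^ 2‖ = (‖v‖ / R) ^ 2 := by
  rw [norm_pow, norm_div, Complex.norm_real, Real.norm_of_nonneg hR.le]

theorem summable_L (hg : GReg h) {R : ℝ} (hR : 0 < R) {f : ℂ → ℝ} {M : ℝ}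
    (hM : ∀ z, |f z| ≤ M) :
    Summable (fun i => Real.exp (-(‖h i‖ / R) ^ 2) * f ((h i / (R : ℂ)) ^ 2)) := by
  refine Summable.of_norm_bounded ((summable_G hg.summable hR).mul_right M) fun i => ?_
  rw [Real.norm_eq_abs, abs_mul, abs_of_pos (Real.exp_pos _)]
  exact mul_le_mul_of_nonneg_left (hM _) (Real.exp_pos _).le

theorem L_add (hg : GReg h) {R : ℝ} (hR : 0 < R) {f g : ℂ → ℝ} {M M' : ℝ}
    (hM : ∀ z, |f z| ≤ M) (hM' : ∀ z, |g z| ≤ M') :
    L h (fun z => f z + g z) R = L h f R + L h g R := by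
  unfold L
  rw [← add_div, ← (summable_L hg hR hM).tsum_add (summable_L hg hR hM')]
  congr 1
  refine tsum_congr fun i => ?_
  ring

theorem continuous_bst (t : ℝ) : Continuous (bst t) := by
  have e : bst t = fun z : ℂ =>
      ((Real.sinh t * ‖z‖ + Real.cosh t * z.re : ℝ) : ℂ) + (z.im : ℂ) * Complex.I := by
    funext z
    exact Complex.mk_eq_add_mul_I _ _
  rw [e]
  have h1 : Continuous fun z : ℂ => Real.sinh t * ‖z‖ + Real.cosh t * z.re :=
    (continuous_const.mul continuous_norm).add (continuous_const.mul Complex.continuous_re)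
  exact (Complex.continuous_ofReal.comp h1).add
    ((Complex.continuous_ofReal.comp Complex.continuous_im).mul continuous_const)

/-- the transferred function -/
noncomputable def F (m : ℕ) (c : ℂ) (τ t : ℝ) (z : ℂ) : ℝ :=
  (c * (bst t z) ^ (m + 1)).re * Real.exp (-(τ * ‖bst t z‖ - ‖z‖))

theorem continuous_F (m : ℕ) (c : ℂ) (τ t : ℝ) : Continuous (F m c τ t) := by
  unfold F
  have hb := continuous_bst t
  have h1 : Continuous fun z : ℂ => (c * (bst t z) ^ (m + 1)).re :=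
    Complex.continuous_re.comp (continuous_const.mul (hb.pow _))
  have h2 : Continuous fun z : ℂ => Real.exp (-(τ * ‖bst t z‖ - ‖z‖)) :=
    Real.continuous_exp.comp (((continuous_const.mul hb.norm).sub continuous_norm).neg)
  exact h1.mul h2

theorem bdd_F (m : ℕ) (c : ℂ) {τ t : ℝ} (h : Real.exp |t| < τ) :
    ∃ M : ℝ, ∀ z, |F m c τ t z| ≤ M := by
  obtain ⟨M, hM0, hM⟩ := exists_pow_exp_le (m + 1) (show 0 < τ - Real.exp |t| by linarith)
  refine ⟨‖c‖ * M, fun z => ?_⟩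
  unfold F
  have h1 : ‖z‖ ≤ Real.exp |t| * ‖bst t z‖ := by
    have := norm_bst_ge t z
    have h2 := Real.exp_pos |t|
    calc ‖z‖ = Real.exp |t| * (Real.exp (-|t|) * ‖z‖) := by
          rw [← mul_assoc, ← Real.exp_add, add_neg_cancel, Real.exp_zero, one_mul]
      _ ≤ _ := mul_le_mul_of_nonneg_left this h2.le
  rw [abs_mul, abs_of_pos (Real.exp_pos _)]
  calc |(c * bst t z ^ (m + 1)).re| * Real.exp (-(τ * ‖bst t z‖ - ‖z‖))
      ≤ (‖c‖ * ‖bst t z‖ ^ (m + 1)) * Real.exp (-((τ - Real.exp |t|) * ‖bst t z‖)) := by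
        refine mul_le_mul (abs_re_le _ _ _) (Real.exp_le_exp.2 ?_) (Real.exp_pos _).le
          (by positivity)
        nlinarith
    _ = ‖c‖ * (‖bst t z‖ ^ (m + 1) * Real.exp (-((τ - Real.exp |t|) * ‖bst t z‖))) := by ring
    _ ≤ ‖c‖ * M := mul_le_mul_of_nonneg_left (hM _ (norm_nonneg _)) (norm_nonneg _)

/-- a function with two coefficients -/
theorem bdd_two (m : ℕ) {A B : ℂ → ℝ} {a b τ : ℝ} (ha : 0 ≤ a) (hb : 0 ≤ b) (hτ : 1 < τ)
    (hA : ∀ z, |A z| ≤ a * ‖z‖ ^ (m + 1)) (hB : ∀ z, |B z| ≤ b * ‖z‖ ^ (m + 2)) :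
    ∃ M : ℝ, ∀ z, |(A z - B z) * Real.exp (-((τ - 1) * ‖z‖))| ≤ M := by
  obtain ⟨M1, hM10, hM1⟩ := exists_pow_exp_le (m + 1) (show 0 < τ - 1 by linarith)
  obtain ⟨M2, hM20, hM2⟩ := exists_pow_exp_le (m + 2) (show 0 < τ - 1 by linarith)
  refine ⟨a * M1 + b * M2, fun z => ?_⟩
  have hE := Real.exp_pos (-((τ - 1) * ‖z‖))
  rw [abs_mul, abs_of_pos hE]
  have h1 : |A z - B z| ≤ a * ‖z‖ ^ (m + 1) + b * ‖z‖ ^ (m + 2) :=
    (abs_sub _ _).trans (add_le_add (hA z) (hB z))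
  have h2 := mul_le_mul_of_nonneg_left (hM1 _ (norm_nonneg z)) ha
  have h3 := mul_le_mul_of_nonneg_left (hM2 _ (norm_nonneg z)) hb
  calc |A z - B z| * Real.exp (-((τ - 1) * ‖z‖))
      ≤ (a * ‖z‖ ^ (m + 1) + b * ‖z‖ ^ (m + 2)) * Real.exp (-((τ - 1) * ‖z‖)) :=
        mul_le_mul_of_nonneg_right h1 hE.le
    _ = a * (‖z‖ ^ (m + 1) * Real.exp (-((τ - 1) * ‖z‖))) +
        b * (‖z‖ ^ (m + 2) * Real.exp (-((τ - 1) * ‖z‖))) := by ring
    _ ≤ _ := add_le_add h2 h3

theorem abs_im_le (m : ℕ) (c z : ℂ) : |(c * z ^ m).im| ≤ ‖c‖ * ‖z‖ ^ m := by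
  refine (Complex.abs_im_le_norm _).trans ?_
  rw [norm_mul, norm_pow]

/-- the rotation by `π / 4` -/
noncomputable def qr : SL(2, ℝ) :=
  ⟨!![Real.sqrt 2 / 2, -(Real.sqrt 2 / 2); Real.sqrt 2 / 2, Real.sqrt 2 / 2], by
    rw [Matrix.det_fin_two_of]
    have : Real.sqrt 2 * Real.sqrt 2 = 2 := Real.mul_self_sqrt (by norm_num)
    nlinarith⟩

theorem act_qr (z : ℂ) : act qr z = (⟨Real.sqrt 2 / 2, Real.sqrt 2 / 2⟩ : ℂ) * z := by
  have r00 : qr 0 0 = Real.sqrt 2 / 2 := rfl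
  have r01 : qr 0 1 = -(Real.sqrt 2 / 2) := rfl
  have r10 : qr 1 0 = Real.sqrt 2 / 2 := rfl
  have r11 : qr 1 1 = Real.sqrt 2 / 2 := rfl
  apply Complex.ext
  · rw [act_re, Complex.mul_re, r00, r01]; ring
  · rw [act_im, Complex.mul_im, r10, r11]; ring

theorem qr_sq : ((⟨Real.sqrt 2 / 2, Real.sqrt 2 / 2⟩ : ℂ)) ^ 2 = Complex.I := by
  have : Real.sqrt 2 * Real.sqrt 2 = 2 := Real.mul_self_sqrt (by norm_num)
  apply Complex.ext
  · rw [sq, Complex.mul_re, Complex.I_re]; ring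
  · rw [sq, Complex.mul_im, Complex.I_im]; nlinarith

theorem act_qr_sq (z : ℂ) : (act qr z) ^ 2 = Complex.I * z ^ 2 := by
  rw [act_qr, mul_pow, qr_sq]

theorem norm_act_qr (z : ℂ) : ‖act qr z‖ = ‖z‖ := by
  have h1 : ‖act qr z‖ ^ 2 = ‖z‖ ^ 2 := by
    rw [← norm_pow, act_qr_sq, norm_mul, Complex.norm_I, one_mul, norm_pow]
  exact (sq_eq_sq₀ (norm_nonneg _) (norm_nonneg _)).1 h1

theorem L_qr (f : ℂ → ℝ) (R : ℝ) :
    L (fun i => act qr (h i)) f R = L h (fun z => f (Complex.I * z)) R := by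
  unfold L G
  simp only [norm_act_qr]
  congr 1
  refine tsum_congr fun i => ?_
  rw [← act_div, act_qr_sq]

end AnyRelAux

open AnyRelAux

/-- PROOF. `z' = bst t z` is the square of the vector of `A h`, `A = dg t`, if `z` is that of `h`
(`bst_sq`, `act_div`), so the left side is `(G (A h) R / G h R) * L (A h) (TF (m+1) c τ) R`, and
`G_act_le`. -/
theorem transfer (hf : LocFin h) (hq : Quad h) {m : ℕ} (t : ℝ)
    (hL : LapK (m + 1) (fun i => act (dg t) (h i))) (c : ℂ) {τ : ℝ} (hτ : 1 < τ) :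
    Tendsto (fun R => L h (fun z => (c * (bst t z) ^ (m + 1)).re *
      Real.exp (-(τ * ‖bst t z‖ - ‖z‖))) R) atTop (𝓝 0) := by
  have hg : GReg h := greg_of_quad hf hq
  have hg' : GReg (fun i => act (dg t) (h i)) :=
    greg_of_quad (hf.act (dg t)) (quad_act hf hq _)
  obtain ⟨K, hK0, hK⟩ := G_act_le hf hq (dg t)
  have h1 := hL c τ hτ
  have h2 : Tendsto (fun R => K * |L (fun i => act (dg t) (h i)) (TF (m + 1) c τ) R|) atTop
      (𝓝 0) := by
    have := (h1.abs).const_mul K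
    simpa using this
  refine squeeze_zero_norm' ?_ h2
  filter_upwards [hK, eventually_gt_atTop 0] with R hR hR0
  have hG := hg.G_pos hR0
  have hG' := hg'.G_pos hR0
  have e : (∑' i, Real.exp (-(‖h i‖ / R) ^ 2) *
      ((c * (bst t ((h i / (R : ℂ)) ^ 2)) ^ (m + 1)).re *
        Real.exp (-(τ * ‖bst t ((h i / (R : ℂ)) ^ 2)‖ - ‖(h i / (R : ℂ)) ^ 2‖)))) =
      ∑' i, Real.exp (-(‖act (dg t) (h i)‖ / R) ^ 2) *
        TF (m + 1) c τ ((act (dg t) (h i) / (R : ℂ)) ^ 2) := by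
    refine tsum_congr fun i => ?_
    rw [← norm_sq_div hR0 (h i), ← norm_sq_div hR0 (act (dg t) (h i)), ← act_div, bst_sq]
    unfold TF
    rw [mul_left_comm, mul_left_comm (Real.exp _) _ (Real.exp _), ← Real.exp_add, ← Real.exp_add]
    congr 2
    ring
  have e2 : L h (fun z => (c * (bst t z) ^ (m + 1)).re *
      Real.exp (-(τ * ‖bst t z‖ - ‖z‖))) R = (∑' i, Real.exp (-(‖act (dg t) (h i)‖ / R) ^ 2) *
        TF (m + 1) c τ ((act (dg t) (h i) / (R : ℂ)) ^ 2)) / G h R := by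
    rw [← e]
    rfl
  rw [Real.norm_eq_abs, e2]
  have e3 : L (fun i => act (dg t) (h i)) (TF (m + 1) c τ) R =
      (∑' i, Real.exp (-(‖act (dg t) (h i)‖ / R) ^ 2) *
        TF (m + 1) c τ ((act (dg t) (h i) / (R : ℂ)) ^ 2)) /
          G (fun i => act (dg t) (h i)) R := rfl
  rw [e3, abs_div, abs_div, abs_of_pos hG, abs_of_pos hG', div_le_iff₀ hG]
  generalize (∑' i, Real.exp (-(‖act (dg t) (h i)‖ / R) ^ 2) *
        TF (m + 1) c τ ((act (dg t) (h i) / (R : ℂ)) ^ 2)) = S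
  have hS := abs_nonneg S
  calc |S| = |S| / G (fun i => act (dg t) (h i)) R * G (fun i => act (dg t) (h i)) R := by
        field_simp
    _ ≤ |S| / G (fun i => act (dg t) (h i)) R * (K * G h R) :=
        mul_le_mul_of_nonneg_left hR (by positivity)
    _ = _ := by ring

/-- PROOF. Ultrafilters (`tendsto_iff_ultrafilter`), `exists_limit`: the integrals of `transfer`
vanish for `τ e^{-|t|} > 1` (the function is bounded and continuous), then `one_P`. -/
theorem rel_one (hf : LocFin h) (hq : Quad h) {m : ℕ} {ε : ℝ} (hε : 0 < ε)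
    (hL : ∀ t : ℝ, |t| < ε → LapK (m + 1) (fun i => act (dg t) (h i))) (c : ℂ) {τ : ℝ}
    (hτ : 1 < τ) :
    Tendsto (fun R => L h (fun z => (((m + 1) * (c * z ^ m).re * ‖z‖ -
      τ * (c * z ^ (m + 1)).re * z.re) * Real.exp (-((τ - 1) * ‖z‖)))) R) atTop (𝓝 0) := by
  have hg : GReg h := greg_of_quad hf hq
  have hτ0 : 0 < τ := by linarith
  rw [tendsto_iff_ultrafilter]
  intro U hU
  obtain ⟨P, hP, hlim⟩ := exists_limit hg U hU
  have hbd : ∃ M : ℝ, ∀ z : ℂ, |(((m + 1) * (c * z ^ m).re * ‖z‖ -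
      τ * (c * z ^ (m + 1)).re * z.re) * Real.exp (-((τ - 1) * ‖z‖)))| ≤ M := by
    refine bdd_two m (a := (m + 1) * ‖c‖) (b := τ * ‖c‖) (by positivity) (by positivity) hτ
      (fun z => ?_) (fun z => ?_)
    · rw [abs_mul, abs_mul, abs_norm, abs_of_nonneg (by positivity : (0 : ℝ) ≤ (m : ℝ) + 1)]
      calc ((m : ℝ) + 1) * |(c * z ^ m).re| * ‖z‖ ≤ ((m : ℝ) + 1) * (‖c‖ * ‖z‖ ^ m) * ‖z‖ := by
            gcongr
            exact abs_re_le m c z
        _ = _ := by ring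
    · rw [abs_mul, abs_mul, abs_of_pos hτ0]
      calc τ * |(c * z ^ (m + 1)).re| * |z.re| ≤ τ * (‖c‖ * ‖z‖ ^ (m + 1)) * ‖z‖ := by
            gcongr
            · exact abs_re_le (m + 1) c z
            · exact Complex.abs_re_le_norm z
        _ = _ := by ring
  have hcont : Continuous fun z : ℂ => (((m + 1) * (c * z ^ m).re * ‖z‖ -
      τ * (c * z ^ (m + 1)).re * z.re) * Real.exp (-((τ - 1) * ‖z‖))) := by
    have h1 : Continuous fun z : ℂ => (c * z ^ m).re :=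
      Complex.continuous_re.comp (by fun_prop)
    have h2 : Continuous fun z : ℂ => (c * z ^ (m + 1)).re :=
      Complex.continuous_re.comp (by fun_prop)
    have h3 : Continuous fun z : ℂ => Real.exp (-((τ - 1) * ‖z‖)) := by fun_prop
    exact ((((continuous_const.mul h1)).mul continuous_norm).sub
      (((continuous_const.mul h2)).mul Complex.continuous_re)).mul h3
  have h0 := hlim _ hcont hbd
  have hz : ∫ z, (((m + 1) * (c * z ^ m).re * ‖z‖ - τ * (c * z ^ (m + 1)).re * z.re) *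
      Real.exp (-((τ - 1) * ‖z‖))) ∂P = 0 := by
    refine one_P hτ (lt_min (Real.log_pos hτ) hε) fun t ht => ?_
    have ht' : Real.exp |t| < τ := by
      rw [← Real.exp_log hτ0]
      exact Real.exp_lt_exp.2 (ht.trans_le (min_le_left _ _))
    have h1 := hlim (F m c τ t) (continuous_F m c τ t) (bdd_F m c ht')
    have h2 : Tendsto (fun R => L h (F m c τ t) R) U (𝓝 0) :=
      (transfer hf hq t (hL t (ht.trans_le (min_le_right _ _))) c hτ).mono_left hU
    exact tendsto_nhds_unique h1 h2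
  rw [hz] at h0
  exact h0

/-- PROOF. Apply `rel_one` to `h` with `c` and to `h' = act ρ h`, `ρ` the rotation by `π / 4`
(`(h' i)² = I * (h i)²`, all hypotheses are inherited: `act_mul`, `quad_act`), with `c * (-I) ^ m` in
place of `c`: the second function at `I * z` is
`((m + 1) Re (c z^m) ‖z‖ - τ Im (c z^(m+1)) Im z) exp (..)`, and `L h' f = L h (fun z => f (I * z))`.
The sum of the two functions is the one below, as
`Re (c z^(m+1)) Re z + Im (c z^(m+1)) Im z = Re (c z^m) ‖z‖²`. -/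
theorem rel' (hf : LocFin h) (hq : Quad h) {m : ℕ} {ε : ℝ} (hε : 0 < ε)
    (hL : ∀ t : ℝ, |t| < ε → LapK (m + 1) (fun i => act (dg t) (h i)))
    (hL' : ∀ t : ℝ, |t| < ε → LapK (m + 1) (fun i => act (dg t) (act qr (h i))))
    (c : ℂ) {τ : ℝ} (hτ : 1 < τ) :
    Tendsto (fun R => L h (fun z => 2 * (m + 1) * TG m c τ z - τ * TH m c τ z) R)
      atTop (𝓝 0) := by
  have hg : GReg h := greg_of_quad hf hq
  have hτ0 : 0 < τ := by linarith
  have h1 := rel_one hf hq hε hL c hτ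
  have h2 := rel_one (hf.act qr) (quad_act hf hq qr) hε hL' (c * (-Complex.I) ^ m) hτ
  have h3 := h1.add h2
  rw [add_zero] at h3
  have hI : (-Complex.I) * Complex.I = 1 := by
    rw [neg_mul, Complex.I_mul_I, neg_neg]
  have eI : ∀ z : ℂ, c * (-Complex.I) ^ m * (Complex.I * z) ^ m = c * z ^ m := by
    intro z
    rw [mul_pow, mul_assoc c, ← mul_assoc ((-Complex.I) ^ m), ← mul_pow, hI, one_pow, one_mul]
  have eJ : ∀ z : ℂ, c * (-Complex.I) ^ m * (Complex.I * z) ^ (m + 1) =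
      Complex.I * (c * z ^ (m + 1)) := by
    intro z
    rw [pow_succ (Complex.I * z), ← mul_assoc, eI, pow_succ z]
    ring
  have hbd1 : ∃ M : ℝ, ∀ z : ℂ, |(((m + 1) * (c * z ^ m).re * ‖z‖ -
      τ * (c * z ^ (m + 1)).re * z.re) * Real.exp (-((τ - 1) * ‖z‖)))| ≤ M := by
    refine bdd_two m (a := (m + 1) * ‖c‖) (b := τ * ‖c‖) (by positivity) (by positivity) hτ
      (fun z => ?_) (fun z => ?_)
    · rw [abs_mul, abs_mul, abs_norm, abs_of_nonneg (by positivity : (0 : ℝ) ≤ (m : ℝ) + 1)]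
      calc ((m : ℝ) + 1) * |(c * z ^ m).re| * ‖z‖ ≤ ((m : ℝ) + 1) * (‖c‖ * ‖z‖ ^ m) * ‖z‖ := by
            gcongr
            exact abs_re_le m c z
        _ = _ := by ring
    · rw [abs_mul, abs_mul, abs_of_pos hτ0]
      calc τ * |(c * z ^ (m + 1)).re| * |z.re| ≤ τ * (‖c‖ * ‖z‖ ^ (m + 1)) * ‖z‖ := by
            gcongr
            · exact abs_re_le (m + 1) c z
            · exact Complex.abs_re_le_norm z
        _ = _ := by ring
  have hbd2 : ∃ M : ℝ, ∀ z : ℂ, |(((m + 1) * (c * z ^ m).re * ‖z‖ -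
      τ * (c * z ^ (m + 1)).im * z.im) * Real.exp (-((τ - 1) * ‖z‖)))| ≤ M := by
    refine bdd_two m (a := (m + 1) * ‖c‖) (b := τ * ‖c‖) (by positivity) (by positivity) hτ
      (fun z => ?_) (fun z => ?_)
    · rw [abs_mul, abs_mul, abs_norm, abs_of_nonneg (by positivity : (0 : ℝ) ≤ (m : ℝ) + 1)]
      calc ((m : ℝ) + 1) * |(c * z ^ m).re| * ‖z‖ ≤ ((m : ℝ) + 1) * (‖c‖ * ‖z‖ ^ m) * ‖z‖ := by
            gcongr
            exact abs_re_le m c z
        _ = _ := by ring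
    · rw [abs_mul, abs_mul, abs_of_pos hτ0]
      calc τ * |(c * z ^ (m + 1)).im| * |z.im| ≤ τ * (‖c‖ * ‖z‖ ^ (m + 1)) * ‖z‖ := by
            gcongr
            · exact abs_im_le (m + 1) c z
            · exact Complex.abs_im_le_norm z
        _ = _ := by ring
  obtain ⟨M1, hM1⟩ := hbd1
  obtain ⟨M2, hM2⟩ := hbd2
  refine h3.congr' ?_
  filter_upwards [eventually_gt_atTop 0] with R hR
  have e2 : L (fun i => act qr (h i)) (fun z => (((m + 1) *
      (c * (-Complex.I) ^ m * z ^ m).re * ‖z‖ -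
      τ * (c * (-Complex.I) ^ m * z ^ (m + 1)).re * z.re) * Real.exp (-((τ - 1) * ‖z‖)))) R =
      L h (fun z : ℂ => (((m + 1) * (c * z ^ m).re * ‖z‖ -
      τ * (c * z ^ (m + 1)).im * z.im) * Real.exp (-((τ - 1) * ‖z‖)))) R := by
    rw [L_qr]
    congr 1
    funext z
    rw [eI, eJ, norm_mul, Complex.norm_I, one_mul, Complex.I_mul_re, Complex.I_mul_re]
    ring
  rw [e2, ← L_add hg hR hM1 hM2]
  congr 1
  funext z
  unfold TG TH
  have key : (c * z ^ (m + 1)).re * z.re + (c * z ^ (m + 1)).im * z.im =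
      (c * z ^ m).re * ‖z‖ ^ 2 := by
    rw [pow_succ, ← mul_assoc]
    generalize c * z ^ m = w
    rw [Complex.mul_re, Complex.mul_im, Complex.sq_norm, Complex.normSq_apply]
    ring
  linear_combination (-(τ * Real.exp (-((τ - 1) * ‖z‖)))) * key

theorem rel (hf : LocFin h) (hq : Quad h) {m : ℕ}
    (hL : ∀ A : SL(2, ℝ), LapK (m + 1) (fun i => act A (h i))) (c : ℂ) {τ : ℝ} (hτ : 1 < τ) :
    Tendsto (fun R => L h (fun z => 2 * (m + 1) * TG m c τ z - τ * TH m c τ z) R)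
      atTop (𝓝 0) :=
  rel' hf hq one_pos (fun t _ => hL (dg t)) (fun t _ => by
    have := hL (dg t * qr)
    simpa only [act_mul] using this) c hτ

end SAD
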