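import Pool.Agent.Lib.SAD.AnyQuad

/-!
# The growth bound removes the solution of the differential equation
-/

open Filter Topology MeasureTheory Set
open scoped MatrixGroups

namespace SAD

variable {ι : Type*} {h : ι → ℂ}

/-- A bounded function with `s (R / 2) - q * s R → 0`, `0 ≤ q < 1`, tends to zero. -/
theorem sigAux {s : ℝ → ℝ} {q B : ℝ} (hq0 : 0 ≤ q) (hq1 : q < 1)
    (hB : ∀ᶠ R in atTop, |s R| ≤ B)
    (he : Tendsto (fun R => s (R / 2) - q * s R) atTop (𝓝 0)) :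
    Tendsto s atTop (𝓝 0) := by
  rw [Metric.tendsto_atTop]
  intro ε hε
  have hB0 : 0 ≤ B := by
    obtain ⟨R, hR⟩ := hB.exists
    exact (abs_nonneg _).trans hR
  rw [Metric.tendsto_atTop] at he
  have hδ : 0 < ε / 2 * (1 - q) := by
    have : 0 < 1 - q := by linarith
    positivity
  obtain ⟨R1, hR1⟩ := he _ hδ
  obtain ⟨R2, hR2⟩ := eventually_atTop.1 hB
  set R0 : ℝ := max (max R1 R2) 1 with hR0
  have h1 : R1 ≤ R0 := (le_max_left _ _).trans (le_max_left _ _)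
  have h2 : R2 ≤ R0 := (le_max_right _ _).trans (le_max_left _ _)
  have h3 : (1:ℝ) ≤ R0 := le_max_right _ _
  have key : ∀ n : ℕ, ∀ R : ℝ, R0 ≤ R → |s R| ≤ ε / 2 + q ^ n * B := by
    intro n
    induction n with
    | zero =>
      intro R hR
      have := hR2 R (h2.trans hR)
      rw [pow_zero, one_mul]
      linarith
    | succ n ih =>
      intro R hR
      have hR' : R0 ≤ 2 * R := by linarith
      have h4 := hR1 (2 * R) (h1.trans hR')
      have h5 := ih (2 * R) hR'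
      rw [show 2 * R / 2 = R by ring, dist_zero_right, Real.norm_eq_abs] at h4
      have h6 : |s R| ≤ |s R - q * s (2 * R)| + q * |s (2 * R)| := by
        have : s R = (s R - q * s (2 * R)) + q * s (2 * R) := by ring
        calc |s R| = |(s R - q * s (2 * R)) + q * s (2 * R)| := by rw [← this]
          _ ≤ |s R - q * s (2 * R)| + |q * s (2 * R)| := abs_add_le _ _
          _ = _ := by rw [abs_mul, abs_of_nonneg hq0]
      have h7 : q * |s (2 * R)| ≤ q * (ε / 2 + q ^ n * B) := mul_le_mul_of_nonneg_left h5 hq0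
      calc |s R| ≤ ε / 2 * (1 - q) + q * (ε / 2 + q ^ n * B) := by linarith
        _ = ε / 2 + q ^ (n + 1) * B := by ring
  have hlim : Tendsto (fun n : ℕ => q ^ n * B) atTop (𝓝 (0 * B)) :=
    (tendsto_pow_atTop_nhds_zero_of_lt_one hq0 hq1).mul_const B
  rw [zero_mul] at hlim
  obtain ⟨n, hn⟩ := (hlim.eventually (gt_mem_nhds (show 0 < ε / 2 by linarith))).exists
  refine ⟨R0, fun R hR => ?_⟩
  rw [dist_zero_right, Real.norm_eq_abs]
  have := key n R hR
  linarith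

/-- The derivative of `∫ TG m c t dP`. -/
theorem chi_deriv {P : Measure ℂ} [IsProbabilityMeasure P] {m : ℕ} {c : ℂ} {τ : ℝ}
    (hτ : 1 < τ) :
    HasDerivAt (fun t => ∫ z, TG m c t z ∂P) (-∫ z, TH m c τ z ∂P) τ := by
  obtain ⟨ρ, hρ1, hρ2⟩ := exists_between hτ
  have hint : ∀ t : ℝ, 1 < t → Integrable (TG m c t) P := by
    intro t ht
    obtain ⟨M, hM⟩ := bdd_TG m c ht
    exact Integrable.of_bound (continuous_TG m c t).aestronglyMeasurable M
      (Eventually.of_forall fun z => hM z)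
  have hder : ∀ z : ℂ, ∀ t : ℝ, HasDerivAt (fun t => TG m c t z) (-TH m c t z) t := by
    intro z t
    unfold TG TH
    have h1 : HasDerivAt (fun t : ℝ => -((t - 1) * ‖z‖)) (-(1 * ‖z‖)) t :=
      (((hasDerivAt_id t).sub_const 1).mul_const ‖z‖).neg
    have h2 := h1.exp.const_mul ((c * z ^ m).re * ‖z‖)
    refine h2.congr_deriv ?_
    ring
  obtain ⟨M', hM'⟩ : ∃ M' : ℝ, ∀ z : ℂ, ∀ t ∈ Ioi ρ, |TH m c t z| ≤ M' := by
    obtain ⟨M1, hM1⟩ := bdd_TH m c hρ1
    refine ⟨M1, fun z t ht => le_trans ?_ (hM1 z)⟩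
    have ht' : ρ < t := ht
    unfold TH
    rw [abs_mul, abs_mul _ (Real.exp _), abs_of_pos (Real.exp_pos _), abs_of_pos (Real.exp_pos _)]
    refine mul_le_mul_of_nonneg_left (Real.exp_le_exp.2 ?_) (abs_nonneg _)
    have := norm_nonneg z
    nlinarith
  have key := hasDerivAt_integral_of_dominated_loc_of_deriv_le (μ := P)
    (F := fun t z => TG m c t z) (F' := fun t z => -TH m c t z) (x₀ := τ) (s := Ioi ρ)
    (bound := fun _ => M') (Ioi_mem_nhds hρ2)
    (Eventually.of_forall fun t => (continuous_TG m c t).aestronglyMeasurable)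
    (hint τ hτ)
    ((continuous_TH m c τ).neg.aestronglyMeasurable)
    (Eventually.of_forall fun z t ht => by
      rw [norm_neg, Real.norm_eq_abs]
      exact hM' z t ht)
    (integrable_const _)
    (Eventually.of_forall fun z t _ => hder z t)
  have := key.2
  rwa [integral_neg] at this

/-- PROOF. `χ τ = ∫ TG m c τ dP` has the derivative `-∫ TH m c τ dP` on `(1, ∞)` (dominated), so
`2 (m+1) χ + τ χ' = 0` and `τ ^ (2(m+1)) χ τ` is constant on `(1, ∞)`. -/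
theorem chi_P {P : Measure ℂ} [IsProbabilityMeasure P] {m : ℕ} {c : ℂ}
    (hP : ∀ τ : ℝ, 1 < τ → ∫ z, (2 * (m + 1) * TG m c τ z - τ * TH m c τ z) ∂P = 0) {τ τ' : ℝ}
    (hτ : 1 < τ) (hτ' : 1 < τ') :
    τ ^ (2 * (m + 1)) * ∫ z, TG m c τ z ∂P = τ' ^ (2 * (m + 1)) * ∫ z, TG m c τ' z ∂P := by
  have hintG : ∀ t : ℝ, 1 < t → Integrable (TG m c t) P := by
    intro t ht
    obtain ⟨M, hM⟩ := bdd_TG m c ht
    exact Integrable.of_bound (continuous_TG m c t).aestronglyMeasurable M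
      (Eventually.of_forall fun z => hM z)
  have hintH : ∀ t : ℝ, 1 < t → Integrable (TH m c t) P := by
    intro t ht
    obtain ⟨M, hM⟩ := bdd_TH m c ht
    exact Integrable.of_bound (continuous_TH m c t).aestronglyMeasurable M
      (Eventually.of_forall fun z => hM z)
  have hode : ∀ t : ℝ, 1 < t →
      2 * (m + 1) * (∫ z, TG m c t z ∂P) - t * (∫ z, TH m c t z ∂P) = 0 := by
    intro t ht
    rw [← hP t ht, integral_sub ((hintG t ht).const_mul _) ((hintH t ht).const_mul _),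
      integral_const_mul, integral_const_mul]
  have hd : ∀ t : ℝ, 1 < t →
      HasDerivAt (fun t => t ^ (2 * (m + 1)) * ∫ z, TG m c t z ∂P) 0 t := by
    intro t ht
    have h1 := (hasDerivAt_pow (2 * (m + 1)) t).mul (chi_deriv (P := P) (m := m) (c := c) ht)
    refine h1.congr_deriv ?_
    have h2 := hode t ht
    have h3 : (2 * (m + 1) : ℕ) - 1 = 2 * m + 1 := by omega
    rw [h3]
    push_cast
    have h4 : t ^ (2 * (m + 1)) = t ^ (2 * m + 1) * t := by
      rw [← pow_succ]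
      congr 1
    rw [h4]
    linear_combination t ^ (2 * m + 1) * h2
  obtain ⟨F, hF⟩ : ∃ F : ℝ → ℝ, F = fun t => t ^ (2 * (m + 1)) * ∫ z, TG m c t z ∂P := ⟨_, rfl⟩
  have hd' : ∀ t : ℝ, 1 < t → HasDerivAt F 0 t := by
    intro t ht
    rw [hF]
    exact hd t ht
  have hconst : F τ = F τ' := by
    have h1 : DifferentiableOn ℝ F (Ioi (1:ℝ)) := fun t ht =>
      (hd' t ht).differentiableAt.differentiableWithinAt
    have h2 : (Ioi (1:ℝ)).EqOn (deriv F) 0 := fun t ht => (hd' t ht).deriv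
    exact isOpen_Ioi.is_const_of_deriv_eq_zero isPreconnected_Ioi h1 h2 hτ hτ'
  rw [hF] at hconst
  exact hconst

/-- PROOF. `L h (TG m c (4 τ)) R * G h R = ∑ Re (c z^m) ‖z‖ e^{-4 τ ‖z‖}`, `z = (h i / R)²`; with
`z' = (h i / (R/2))² = 4 z` it is `4^(-(m+1)) G h (R/2) * L h (TG m c τ) (R/2)`. -/
theorem TG_scale (hg : GReg h) (m : ℕ) (c : ℂ) (τ : ℝ) {R : ℝ} (hR : 0 < R) :
    G h (R / 2) * L h (TG m c τ) (R / 2) = 4 ^ (m + 1) * (G h R * L h (TG m c (4 * τ)) R) := by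
  have hR2 : 0 < R / 2 := by positivity
  have hG1 : G h R ≠ 0 := (hg.G_pos hR).ne'
  have hG2 : G h (R / 2) ≠ 0 := (hg.G_pos hR2).ne'
  have h1 : G h (R / 2) * L h (TG m c τ) (R / 2) =
      ∑' i, Real.exp (-(‖h i‖ / (R / 2)) ^ 2) * TG m c τ ((h i / ((R / 2 : ℝ) : ℂ)) ^ 2) := by
    unfold L
    rw [mul_div_cancel₀ _ hG2]
  have h2 : G h R * L h (TG m c (4 * τ)) R =
      ∑' i, Real.exp (-(‖h i‖ / R) ^ 2) * TG m c (4 * τ) ((h i / (R : ℂ)) ^ 2) := by
    unfold L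
    rw [mul_div_cancel₀ _ hG1]
  rw [h1, h2, ← tsum_mul_left]
  refine tsum_congr fun i => ?_
  obtain ⟨z, hz⟩ : ∃ z : ℂ, z = (h i / (R : ℂ)) ^ 2 := ⟨_, rfl⟩
  have hRc : (R : ℂ) ≠ 0 := by exact_mod_cast hR.ne'
  have hz4 : (h i / ((R / 2 : ℝ) : ℂ)) ^ 2 = 4 * z := by
    rw [hz]
    push_cast
    field_simp
    norm_num
  have hn : (‖h i‖ / R) ^ 2 = ‖z‖ := by
    rw [hz, norm_pow, norm_div, Complex.norm_real, Real.norm_eq_abs, abs_of_pos hR]
  have hn4 : (‖h i‖ / (R / 2)) ^ 2 = 4 * ‖z‖ := by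
    rw [← hn]
    field_simp
    norm_num
  rw [hz4, ← hz, hn, hn4]
  unfold TG
  have h4 : ‖4 * z‖ = 4 * ‖z‖ := by
    rw [norm_mul]
    norm_num
  have h5 : (c * (4 * z) ^ m).re = 4 ^ m * (c * z ^ m).re := by
    have : c * (4 * z) ^ m = ((4 ^ m : ℝ) : ℂ) * (c * z ^ m) := by
      push_cast
      rw [mul_pow]
      ring
    rw [this, Complex.re_ofReal_mul]
  rw [h4, h5]
  have h6 : Real.exp (-(4 * ‖z‖)) * Real.exp (-((τ - 1) * (4 * ‖z‖))) =
      Real.exp (-‖z‖) * Real.exp (-((4 * τ - 1) * ‖z‖)) := by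
    rw [← Real.exp_add, ← Real.exp_add]
    congr 1
    ring
  calc Real.exp (-(4 * ‖z‖)) * (4 ^ m * (c * z ^ m).re * (4 * ‖z‖) *
        Real.exp (-((τ - 1) * (4 * ‖z‖))))
      = 4 ^ (m + 1) * ((c * z ^ m).re * ‖z‖) * (Real.exp (-(4 * ‖z‖)) *
        Real.exp (-((τ - 1) * (4 * ‖z‖)))) := by ring
    _ = 4 ^ (m + 1) * (Real.exp (-‖z‖) * ((c * z ^ m).re * ‖z‖ *
        Real.exp (-((4 * τ - 1) * ‖z‖)))) := by
        rw [h6]
        ring

/-- PROOF. Fix `τ > 1` and put `s R = L h (TG m c τ) R * G h R / R²`, bounded for large `R` (`bdd_TG`,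
`G_quad`). By ultrafilters, `exists_limit`, `chi_P`:
`L h (TG m c (4τ)) R - 4^(-2(m+1)) L h (TG m c τ) R → 0`; by `TG_scale`
`L h (TG m c (4τ)) R = 4^(-(m+1)) * G h (R/2) * L h (TG m c τ) (R/2) / G h R
 = 4^(-(m+2)) * s (R/2) * R² / G h R`, so `s (R/2) - 4^(-m) s R → 0` (`R²/G h R ≥ 1/C`). As `s` is
bounded and `m ≥ 1`, the limsup `S` of `|s|` satisfies `S ≤ 4^(-m) S`, so `s → 0` and
`L h (TG m c τ) R = s R * R² / G h R → 0`. -/
theorem sig (hf : LocFin h) (hq : Quad h) {m : ℕ} (hm : 1 ≤ m) (c : ℂ)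
    (hR : ∀ τ : ℝ, 1 < τ →
      Tendsto (fun R => L h (fun z => 2 * (m + 1) * TG m c τ z - τ * TH m c τ z) R)
        atTop (𝓝 0)) {τ : ℝ} (hτ : 1 < τ) :
    Tendsto (fun R => L h (TG m c τ) R) atTop (𝓝 0) := by
  have hg := greg_of_quad hf hq
  obtain ⟨c1, C1, hc1, hC1, hGq⟩ := G_quad hf hq
  have hτ4 : 1 < 4 * τ := by linarith
  -- the asymptotic relation
  have hrel : Tendsto (fun R => L h (TG m c (4 * τ)) R - (4 ^ (2 * (m + 1)))⁻¹ * L h (TG m c τ) R)
      atTop (𝓝 0) := by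
    rw [tendsto_iff_ultrafilter]
    intro U hU
    obtain ⟨P, hPp, hP⟩ := exists_limit hg U hU
    have hPz : ∀ t : ℝ, 1 < t →
        ∫ z, (2 * (m + 1) * TG m c t z - t * TH m c t z) ∂P = 0 := by
      intro t ht
      have hcont : Continuous (fun z => 2 * (m + 1) * TG m c t z - t * TH m c t z) :=
        (continuous_const.mul (continuous_TG m c t)).sub
          (continuous_const.mul (continuous_TH m c t))
      obtain ⟨M1, hM1⟩ := bdd_TG m c ht
      obtain ⟨M2, hM2⟩ := bdd_TH m c ht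
      have hb : ∃ M : ℝ, ∀ z, |2 * (m + 1) * TG m c t z - t * TH m c t z| ≤ M := by
        refine ⟨2 * (m + 1) * M1 + t * M2, fun z => ?_⟩
        have ht0 : 0 ≤ t := by linarith
        calc |2 * (m + 1) * TG m c t z - t * TH m c t z|
            ≤ |2 * (m + 1) * TG m c t z| + |t * TH m c t z| := abs_sub _ _
          _ = 2 * (m + 1) * |TG m c t z| + t * |TH m c t z| := by
              rw [abs_mul (2 * ((m:ℝ) + 1)), abs_mul t, abs_of_nonneg ht0,
                abs_of_nonneg (by positivity : (0:ℝ) ≤ 2 * ((m:ℝ) + 1))]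
          _ ≤ 2 * (m + 1) * M1 + t * M2 := by
              gcongr
              · exact hM1 z
              · exact hM2 z
      exact tendsto_nhds_unique (hP _ hcont hb) ((hR t ht).mono_left hU)
    have h1 := chi_P hPz hτ hτ4
    have h2 : ∫ z, TG m c (4 * τ) z ∂P = (4 ^ (2 * (m + 1)))⁻¹ * ∫ z, TG m c τ z ∂P := by
      have hτ0 : τ ^ (2 * (m + 1)) ≠ 0 := by positivity
      have h40 : (4:ℝ) ^ (2 * (m + 1)) ≠ 0 := by positivity
      rw [mul_pow, mul_assoc, mul_left_comm] at h1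
      have h3 := mul_left_cancel₀ hτ0 h1
      rw [h3, ← mul_assoc, inv_mul_cancel₀ h40, one_mul]
    have h3 := (hP _ (continuous_TG m c (4 * τ)) (bdd_TG m c hτ4)).sub
      ((hP _ (continuous_TG m c τ) (bdd_TG m c hτ)).const_mul ((4 ^ (2 * (m + 1)))⁻¹))
    rw [h2, sub_self] at h3
    exact h3
  -- the auxiliary function
  obtain ⟨s, hs⟩ : ∃ s : ℝ → ℝ, s = fun R => L h (TG m c τ) R * (G h R / R ^ 2) := ⟨_, rfl⟩
  obtain ⟨M, hM⟩ := bdd_TG m c hτ
  have hM0 : 0 ≤ M := (abs_nonneg _).trans (hM 0)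
  have hLb : ∀ R : ℝ, 0 < R → |L h (TG m c τ) R| ≤ M := by
    intro R hR
    rw [← integral_gm hg hR _ (continuous_TG m c τ) M hM]
    have := gm_prob hg hR
    have h1 := norm_integral_le_of_norm_le_const (μ := gm h R) (f := TG m c τ) (C := M)
      (Eventually.of_forall fun z => by rw [Real.norm_eq_abs]; exact hM z)
    simpa using h1
  have hGr : ∀ᶠ R in atTop, 0 < R ∧ c1 ≤ G h R / R ^ 2 ∧ G h R / R ^ 2 ≤ C1 := by
    filter_upwards [hGq, eventually_gt_atTop 0] with R hRR hR0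
    refine ⟨hR0, ?_, ?_⟩
    · rw [le_div_iff₀ (by positivity)]
      exact hRR.1
    · rw [div_le_iff₀ (by positivity)]
      exact hRR.2
  have hsb : ∀ᶠ R in atTop, |s R| ≤ M * C1 := by
    filter_upwards [hGr] with R hRR
    obtain ⟨hR0, h1, h2⟩ := hRR
    rw [hs]
    have h3 : 0 ≤ G h R / R ^ 2 := hc1.le.trans h1
    show |L h (TG m c τ) R * (G h R / R ^ 2)| ≤ M * C1
    rw [abs_mul, abs_of_nonneg h3]
    exact mul_le_mul (hLb R hR0) h2 h3 hM0
  have hse : Tendsto (fun R => s (R / 2) - (4 ^ m)⁻¹ * s R) atTop (𝓝 0) := by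
    have hbd : ∀ᶠ R in atTop, |4 ^ (m + 2) * (G h R / R ^ 2)| ≤ 4 ^ (m + 2) * C1 := by
      filter_upwards [hGr] with R hRR
      obtain ⟨hR0, h1, h2⟩ := hRR
      have h3 : 0 ≤ G h R / R ^ 2 := hc1.le.trans h1
      rw [abs_of_nonneg (by positivity)]
      gcongr
    have h0 : Tendsto (fun R => (4 ^ (m + 2) * (G h R / R ^ 2)) *
        (L h (TG m c (4 * τ)) R - (4 ^ (2 * (m + 1)))⁻¹ * L h (TG m c τ) R)) atTop (𝓝 0) := by
      exact bdd_le_mul_tendsto_zero' (4 ^ (m + 2) * C1) hbd hrel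
    refine h0.congr' ?_
    filter_upwards [eventually_gt_atTop 0] with R hR0
    have hsc := TG_scale hg m c τ hR0
    rw [hs]
    show _ = L h (TG m c τ) (R / 2) * (G h (R / 2) / (R / 2) ^ 2) -
      (4 ^ m)⁻¹ * (L h (TG m c τ) R * (G h R / R ^ 2))
    have e1 : L h (TG m c τ) (R / 2) * (G h (R / 2) / (R / 2) ^ 2) =
        4 * (G h (R / 2) * L h (TG m c τ) (R / 2)) / R ^ 2 := by
      field_simp
      ring
    rw [e1, hsc]
    have e2 : (4:ℝ) ^ (m + 2) * (4 ^ (2 * (m + 1)))⁻¹ = (4 ^ m)⁻¹ := by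
      have : (4:ℝ) ^ (2 * (m + 1)) = 4 ^ (m + 2) * 4 ^ m := by
        rw [← pow_add]
        congr 1
        ring
      rw [this]
      field_simp
    rw [← e2]
    ring
  have hq0 : (0:ℝ) ≤ (4 ^ m)⁻¹ := by positivity
  have hq1 : ((4:ℝ) ^ m)⁻¹ < 1 := inv_lt_one_of_one_lt₀ (one_lt_pow₀ (by norm_num) (by omega))
  have hst := sigAux hq0 hq1 hsb hse
  have hbd2 : ∀ᶠ R in atTop, |(G h R / R ^ 2)⁻¹| ≤ c1⁻¹ := by
    filter_upwards [hGr] with R hRR
    obtain ⟨hR0, h1, h2⟩ := hRR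
    have h3 : 0 ≤ G h R / R ^ 2 := hc1.le.trans h1
    rw [abs_of_nonneg (by positivity)]
    exact inv_anti₀ hc1 h1
  have h0 : Tendsto (fun R => (G h R / R ^ 2)⁻¹ * s R) atTop (𝓝 0) :=
    bdd_le_mul_tendsto_zero' c1⁻¹ hbd2 hst
  refine h0.congr' ?_
  filter_upwards [hGr] with R hRR
  obtain ⟨hR0, h1, h2⟩ := hRR
  have h3 : 0 < G h R / R ^ 2 := lt_of_lt_of_le hc1 h1
  rw [hs]
  show (G h R / R ^ 2)⁻¹ * (L h (TG m c τ) R * (G h R / R ^ 2)) = _
  rw [mul_comm (L h (TG m c τ) R), ← mul_assoc, inv_mul_cancel₀ h3.ne', one_mul]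

end SAD
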