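import Pool.Agent.Lib.SAD.GBasic

/-!
# Compactness: along every ultrafilter the averages `L h f R` are given by a probability measure

PLAN.  For `R > 0` let `gm h R = Measure.sum fun i => ENNReal.ofReal (exp (-(‖h i‖/R)²) / G h R) •
Measure.dirac ((h i / R)²)`, a probability measure on `ℂ` with `∫ f d(gm h R) = L h f R` for bounded
continuous `f` (index type countable by `LocFin`).  Tightness: with `l, K` from `GReg.doubling` and
`c = 1 - l⁻² > 0`: `∫ exp (c ‖z‖) d(gm h R) = G h (l R) / G h R ≤ K` for large `R`, hence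
`gm h R {‖z‖ > M} ≤ K exp (-c M)`.  So `{gm h R | R ≥ R₀}` is tight, its closure in
`ProbabilityMeasure ℂ` is compact (`isCompact_closure_of_isTightMeasureSet`), and the image of an
ultrafilter finer than `atTop` converges (`IsCompact.ultrafilter_le_nhds`); use
`ProbabilityMeasure.tendsto_iff_forall_integral_tendsto`.
-/

open Filter Topology MeasureTheory Set
open scoped MatrixGroups

namespace SAD

variable {ι : Type*} {h : ι → ℂ}

/-- The normalised Gaussian weights. -/
noncomputable def gw (h : ι → ℂ) (R : ℝ) (i : ι) : ℝ := Real.exp (-(‖h i‖ / R) ^ 2) / G h R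

/-- The measure behind `L h · R`. -/
noncomputable def gm (h : ι → ℂ) (R : ℝ) : Measure ℂ :=
  Measure.sum fun i => ENNReal.ofReal (gw h R i) • Measure.dirac ((h i / (R : ℂ)) ^ 2)

lemma gw_nonneg (hg : GReg h) {R : ℝ} (hR : 0 < R) (i : ι) : 0 ≤ gw h R i :=
  div_nonneg (Real.exp_pos _).le (hg.G_pos hR).le

lemma summable_gw (hg : GReg h) {R : ℝ} (hR : 0 < R) : Summable (gw h R) :=
  (summable_G hg.summable hR).div_const _

lemma tsum_gw (hg : GReg h) {R : ℝ} (hR : 0 < R) : ∑' i, gw h R i = 1 := by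
  unfold gw
  rw [tsum_div_const]
  exact div_self (hg.G_pos hR).ne'

lemma gm_prob (hg : GReg h) {R : ℝ} (hR : 0 < R) : IsProbabilityMeasure (gm h R) := by
  constructor
  unfold gm
  rw [Measure.sum_apply _ MeasurableSet.univ]
  simp only [Measure.smul_apply, measure_univ, smul_eq_mul, mul_one]
  rw [← ENNReal.ofReal_tsum_of_nonneg (gw_nonneg hg hR) (summable_gw hg hR), tsum_gw hg hR]
  simp

lemma integral_gm (hg : GReg h) {R : ℝ} (hR : 0 < R) (f : ℂ → ℝ) (hf : Continuous f)
    (M : ℝ) (hM : ∀ z, |f z| ≤ M) : ∫ z, f z ∂(gm h R) = L h f R := by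
  have := gm_prob hg hR
  have hint : Integrable f (gm h R) :=
    Integrable.of_bound hf.aestronglyMeasurable M (Eventually.of_forall fun z => hM z)
  unfold gm at hint ⊢
  rw [integral_sum_measure hint]
  unfold L
  rw [← tsum_div_const]
  refine tsum_congr fun i => ?_
  rw [integral_smul_measure, integral_dirac, ENNReal.toReal_ofReal (gw_nonneg hg hR i)]
  unfold gw
  rw [smul_eq_mul]
  ring

lemma gm_tail (hg : GReg h) {l : ℝ} (hl : 1 < l) {R : ℝ} (hR : 0 < R) (M : ℝ) :
    gm h R (Metric.closedBall (0 : ℂ) M)ᶜ ≤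
      ENNReal.ofReal (Real.exp (-((1 - (l ^ 2)⁻¹) * M)) * (G h (l * R) / G h R)) := by
  have hl0 : 0 < l := by linarith
  have hlR : 0 < l * R := by positivity
  have hG := hg.G_pos hR
  have hc : 0 ≤ 1 - (l ^ 2)⁻¹ := by
    have : (l ^ 2)⁻¹ ≤ 1 := inv_le_one_of_one_le₀ (by nlinarith)
    linarith
  have hs : Summable (fun i => Real.exp (-((1 - (l ^ 2)⁻¹) * M)) *
      (Real.exp (-(‖h i‖ / (l * R)) ^ 2) / G h R)) :=
    ((summable_G hg.summable hlR).div_const _).mul_left _
  have key : ENNReal.ofReal (Real.exp (-((1 - (l ^ 2)⁻¹) * M)) * (G h (l * R) / G h R)) =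
      ∑' i, ENNReal.ofReal (Real.exp (-((1 - (l ^ 2)⁻¹) * M)) *
        (Real.exp (-(‖h i‖ / (l * R)) ^ 2) / G h R)) := by
    rw [← ENNReal.ofReal_tsum_of_nonneg (fun i => by positivity) hs, tsum_mul_left,
      tsum_div_const]
    rfl
  rw [key]
  unfold gm
  rw [Measure.sum_apply _ Metric.isClosed_closedBall.measurableSet.compl]
  refine ENNReal.tsum_le_tsum fun i => ?_
  rw [Measure.smul_apply, smul_eq_mul,
    Measure.dirac_apply' _ Metric.isClosed_closedBall.measurableSet.compl]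
  by_cases hz : (h i / (R : ℂ)) ^ 2 ∈ (Metric.closedBall (0 : ℂ) M)ᶜ
  · rw [indicator_of_mem hz]
    simp only [Pi.one_apply, mul_one]
    refine ENNReal.ofReal_le_ofReal ?_
    unfold gw
    rw [← mul_div_assoc, ← Real.exp_add]
    refine div_le_div_of_nonneg_right (Real.exp_le_exp.2 ?_) hG.le
    have hz2 : M < (‖h i‖ / R) ^ 2 := by
      have := hz
      rw [mem_compl_iff, Metric.mem_closedBall, dist_zero_right, not_le, norm_pow, norm_div,
        Complex.norm_real, Real.norm_of_nonneg hR.le] at this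
      exact this
    have e1 : (‖h i‖ / (l * R)) ^ 2 = (l ^ 2)⁻¹ * (‖h i‖ / R) ^ 2 := by
      field_simp
    rw [e1]
    nlinarith [mul_le_mul_of_nonneg_left hz2.le hc]
  · rw [indicator_of_notMem hz, mul_zero]
    exact zero_le

theorem exists_limit (hg : GReg h) (U : Ultrafilter ℝ) (hU : (U : Filter ℝ) ≤ atTop) :
    ∃ P : Measure ℂ, IsProbabilityMeasure P ∧
      ∀ f : ℂ → ℝ, Continuous f → (∃ M : ℝ, ∀ z, |f z| ≤ M) →
        Tendsto (fun R => L h f R) U (𝓝 (∫ z, f z ∂P)) := by
  classical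
  obtain ⟨l, K, hl, hK⟩ := hg.doubling
  have hl0 : 0 < l := by linarith
  obtain ⟨R0, hR0⟩ := eventually_atTop.1 hK
  set R1 : ℝ := max R0 1 with hR1
  have hR1p : 0 < R1 := lt_of_lt_of_le one_pos (le_max_right _ _)
  have hc : 0 < 1 - (l ^ 2)⁻¹ := by
    have : (l ^ 2)⁻¹ < 1 := inv_lt_one_of_one_lt₀ (by nlinarith)
    linarith
  -- the family of probability measures
  let PM : ℝ → ProbabilityMeasure ℂ := fun R =>
    if hR : 0 < R then ⟨gm h R, gm_prob hg hR⟩ else ⟨Measure.dirac 0, inferInstance⟩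
  have hPM : ∀ R : ℝ, 0 < R → ((PM R : ProbabilityMeasure ℂ) : Measure ℂ) = gm h R := by
    intro R hR
    simp only [PM, dif_pos hR]
    rfl
  let S : Set (ProbabilityMeasure ℂ) := PM '' (Ici R1)
  have htight : IsTightMeasureSet {((μ : ProbabilityMeasure ℂ) : Measure ℂ) | μ ∈ S} := by
    rw [isTightMeasureSet_iff_exists_isCompact_measure_compl_le]
    intro ε hε
    have hlim : Tendsto (fun M : ℝ => ENNReal.ofReal (Real.exp (-((1 - (l ^ 2)⁻¹) * M)) * K))
        atTop (𝓝 0) := by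
      have h1 : Tendsto (fun M : ℝ => Real.exp (-((1 - (l ^ 2)⁻¹) * M)) * K) atTop (𝓝 (0 * K)) :=
        Tendsto.mul_const K (Real.tendsto_exp_neg_atTop_nhds_zero.comp
          (tendsto_id.const_mul_atTop hc))
      rw [zero_mul] at h1
      simpa using ENNReal.tendsto_ofReal h1
    obtain ⟨M, hM⟩ := (hlim.eventually (gt_mem_nhds hε)).exists
    refine ⟨Metric.closedBall 0 M, isCompact_closedBall _ _, ?_⟩
    rintro _ ⟨μ, ⟨R, hR, rfl⟩, rfl⟩
    have hRR : R1 ≤ R := hR
    have hRp : 0 < R := lt_of_lt_of_le hR1p hRR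
    rw [hPM R hRp]
    refine (gm_tail hg hl hRp M).trans (le_trans (ENNReal.ofReal_le_ofReal ?_) hM.le)
    refine mul_le_mul_of_nonneg_left ?_ (Real.exp_pos _).le
    rw [div_le_iff₀ (hg.G_pos hRp)]
    exact hR0 R ((le_max_left _ _).trans hRR)
  have hcomp : IsCompact (closure S) := isCompact_closure_of_isTightMeasureSet htight
  have hmem : closure S ∈ (U.map PM : Ultrafilter (ProbabilityMeasure ℂ)) := by
    rw [Ultrafilter.mem_map]
    have : Ici R1 ∈ (U : Filter ℝ) := hU (Ici_mem_atTop R1)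
    exact mem_of_superset this fun R hR => subset_closure ⟨R, hR, rfl⟩
  obtain ⟨P, -, hP⟩ := hcomp.ultrafilter_le_nhds (U.map PM) (le_principal_iff.2 hmem)
  have hT : Tendsto PM U (𝓝 P) := hP
  refine ⟨(P : Measure ℂ), inferInstance, ?_⟩
  rintro f hf ⟨M, hM⟩
  rw [ProbabilityMeasure.tendsto_iff_forall_integral_tendsto] at hT
  have h1 := hT (BoundedContinuousFunction.ofNormedAddCommGroup f hf M hM)
  refine Tendsto.congr' ?_ h1
  have : ∀ᶠ R in (U : Filter ℝ), 0 < R := hU (eventually_gt_atTop 0)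
  filter_upwards [this] with R hR
  rw [hPM R hR]
  exact integral_gm hg hR f hf M hM

end SAD
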