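import Pool.Agent.Lib.SAD.CountGen
import Pool.Agent.Lib.SAD.GLimit

/-!
# The limit measures under the derivative identity
-/

open Filter Topology MeasureTheory Set
open scoped MatrixGroups

namespace SAD

variable {ι : Type*} {h : ι → ℂ}

/-- The derivative of `E` along the curves of constant determinant. -/
noncomputable def DE (a : ℝ) (w z : ℂ) : ℝ := ((1 + a) * (w * z).re + ‖w‖ ^ 2 * ‖z‖) * E a w z

theorem continuous_DE (a : ℝ) (w : ℂ) : Continuous (DE a w) := by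
  unfold DE E
  fun_prop

namespace IsoLimAux

lemma xexp {c x : ℝ} (hc : 0 < c) : x * Real.exp (-(c * x)) ≤ 1 / c := by
  rw [le_div_iff₀ hc]
  have h1 := Real.add_one_le_exp (c * x)
  have h2 : Real.exp (c * x) * Real.exp (-(c * x)) = 1 := by
    rw [← Real.exp_add]; simp
  have h3 := Real.exp_pos (-(c * x))
  have h4 : (c * x) * Real.exp (-(c * x)) ≤ Real.exp (c * x) * Real.exp (-(c * x)) := by
    apply mul_le_mul_of_nonneg_right _ h3.le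
    linarith
  linarith

lemma re_le (w z : ℂ) : |(w * z).re| ≤ ‖w‖ * ‖z‖ :=
  (Complex.abs_re_le_norm _).trans_eq (norm_mul _ _)

lemma E_le_exp {a c : ℝ} {w : ℂ} (hc : c ≤ a - ‖w‖) (z : ℂ) :
    E a w z ≤ Real.exp (-(c * ‖z‖)) := by
  unfold E
  rw [Real.exp_le_exp]
  have h1 := re_le w z
  have h2 := neg_abs_le (w * z).re
  have h3 : c * ‖z‖ ≤ (a - ‖w‖) * ‖z‖ := by gcongr
  nlinarith

/-- A multiple of the norm times `E` is bounded. -/
lemma norm_mul_E_le {a c : ℝ} {w : ℂ} (hc0 : 0 < c) (hc : c ≤ a - ‖w‖) (z : ℂ) :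
    ‖z‖ * E a w z ≤ 1 / c :=
  (mul_le_mul_of_nonneg_left (E_le_exp hc z) (norm_nonneg z)).trans (xexp hc0)

end IsoLimAux

open IsoLimAux

/-- PROOF. `|DE a w z| ≤ ((1 + a) ‖w‖ + ‖w‖²) ‖z‖ exp (-(a - ‖w‖) ‖z‖)` and `x exp (-c x) ≤ 1 / c`
(for `w = 0` everything is `0`; in general `a - ‖w‖ > 0`). -/
theorem bdd_DE {a : ℝ} {w : ℂ} (hw : ‖w‖ < a) : ∃ M : ℝ, ∀ z, |DE a w z| ≤ M := by
  have ha : 0 < a := lt_of_le_of_lt (norm_nonneg w) hw
  refine ⟨((1 + a) * ‖w‖ + ‖w‖ ^ 2) * (1 / (a - ‖w‖)), fun z => ?_⟩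
  have h1 := norm_mul_E_le (a := a) (w := w) (sub_pos.2 hw) le_rfl z
  have hE : 0 < E a w z := Real.exp_pos _
  unfold DE
  rw [abs_mul, abs_of_pos hE]
  have h2 : |(1 + a) * (w * z).re + ‖w‖ ^ 2 * ‖z‖| ≤ ((1 + a) * ‖w‖ + ‖w‖ ^ 2) * ‖z‖ := by
    refine (abs_add_le _ _).trans ?_
    rw [abs_mul, abs_of_pos (show (0 : ℝ) < 1 + a by linarith),
      abs_of_nonneg (show (0 : ℝ) ≤ ‖w‖ ^ 2 * ‖z‖ by positivity)]
    have h3 := mul_le_mul_of_nonneg_left (re_le w z) (show (0 : ℝ) ≤ 1 + a by linarith)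
    linarith
  calc |(1 + a) * (w * z).re + ‖w‖ ^ 2 * ‖z‖| * E a w z
      ≤ (((1 + a) * ‖w‖ + ‖w‖ ^ 2) * ‖z‖) * E a w z := mul_le_mul_of_nonneg_right h2 hE.le
    _ = ((1 + a) * ‖w‖ + ‖w‖ ^ 2) * (‖z‖ * E a w z) := by ring
    _ ≤ ((1 + a) * ‖w‖ + ‖w‖ ^ 2) * (1 / (a - ‖w‖)) :=
        mul_le_mul_of_nonneg_left h1 (by positivity)

/-- PROOF. Let `w ≠ 0` (else `√((1+a)²) - 1 = a`), `δ = √((1+a)² - ‖w‖²)`,
`b θ = √(δ² + θ² ‖w‖²)`, so `b 0 = δ`, `b 1 = 1 + a`, `b θ ≥ δ ≥ 1 + a/2`, hence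
`‖θ w‖ ≤ κ/2 * a ≤ κ (b θ - 1)`. `F θ = ∫ E (b θ - 1) (θ w) z dP` is continuous on `[0,1]`
(`continuousOn_of_dominated`, bound `1`, as in `transform_affine`) and for `0 < θ < 1` has the
derivative `-∫ (θ ‖w‖² / b θ * ‖z‖ + Re (w z)) E (b θ - 1) (θ w) z dP`
(`hasDerivAt_integral_of_dominated_loc_of_deriv_le`; the integrand of the derivative is bounded for
`θ ∈ (0,1)`: `≤ (‖w‖² + ‖w‖) ‖z‖ exp (-(a/4) ‖z‖)` since `b θ - 1 - ‖θ w‖ ≥ a/2 - κ/2 a ≥ a/4`), which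
is `-(θ b θ)⁻¹ ∫ DE (b θ - 1) (θ w) z dP = 0` by `hD` (`‖θ w‖² = θ² ‖w‖²`). By
`exists_hasDerivAt_eq_slope` `F 1 = F 0`. -/
theorem int_E_of_DE {P : Measure ℂ} [IsProbabilityMeasure P] {κ : ℝ} (hκ : 0 < κ)
    (hκ1 : κ ≤ 1 / 2)
    (hD : ∀ (a : ℝ) (w : ℂ), 0 < a → ‖w‖ ≤ κ * a → ∫ z, DE a w z ∂P = 0)
    {a : ℝ} {w : ℂ} (ha : 0 < a) (hw : ‖w‖ ≤ κ / 2 * a) :
    ∫ z, E a w z ∂P = ∫ z, E (√((1 + a) ^ 2 - ‖w‖ ^ 2) - 1) 0 z ∂P := by
  have hw0 : 0 ≤ ‖w‖ := norm_nonneg w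
  have hwa : ‖w‖ ≤ a / 4 := hw.trans (by nlinarith)
  have hpos : 0 ≤ (1 + a) ^ 2 - ‖w‖ ^ 2 := by nlinarith
  set d2 : ℝ := (1 + a) ^ 2 - ‖w‖ ^ 2 with hd2
  have hd2' : (1 + a / 2) ^ 2 ≤ d2 := by rw [hd2]; nlinarith
  set b : ℝ → ℝ := fun θ => √(d2 + θ ^ 2 * ‖w‖ ^ 2) with hb
  have hb0 : b 0 = √d2 := by simp [hb]
  have hb1 : b 1 = 1 + a := by
    simp only [hb, one_pow, one_mul, hd2]
    rw [sub_add_cancel]
    exact Real.sqrt_sq (by linarith)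
  have hbge : ∀ θ, 1 + a / 2 ≤ b θ := by
    intro θ
    apply Real.le_sqrt_of_sq_le
    have : 0 ≤ θ ^ 2 * ‖w‖ ^ 2 := by positivity
    linarith
  have hbpos : ∀ θ, 0 < b θ := fun θ => by linarith [hbge θ]
  have hbd : ∀ θ, HasDerivAt b (θ * ‖w‖ ^ 2 / b θ) θ := by
    intro θ
    have h1 : HasDerivAt (fun θ : ℝ => d2 + θ ^ 2 * ‖w‖ ^ 2) (2 * θ * ‖w‖ ^ 2) θ := by
      have h2 : HasDerivAt (fun θ : ℝ => θ ^ 2) (2 * θ) θ := by
        have h2' := hasDerivAt_pow 2 θ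
        norm_num at h2'
        exact h2'
      exact (h2.mul_const (‖w‖ ^ 2)).const_add d2
    have h3 : d2 + θ ^ 2 * ‖w‖ ^ 2 ≠ 0 := by
      have h4 : 0 ≤ θ ^ 2 * ‖w‖ ^ 2 := by positivity
      have h5 : 0 < (1 + a / 2) ^ 2 := by positivity
      linarith
    have h6 := h1.sqrt h3
    convert h6 using 1
    have := (hbpos θ).ne'
    simp only [hb] at this ⊢
    field_simp
  have hnorm : ∀ θ : ℝ, 0 ≤ θ → ‖((θ : ℂ) * w)‖ = θ * ‖w‖ := by
    intro θ hθ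
    rw [norm_mul, Complex.norm_real, Real.norm_of_nonneg hθ]
  have hnle : ∀ θ : ℝ, 0 ≤ θ → θ ≤ 1 → ‖((θ : ℂ) * w)‖ ≤ a / 4 := by
    intro θ h0 h1
    rw [hnorm θ h0]
    nlinarith
  set F : ℝ → ℝ := fun θ => ∫ z, E (b θ - 1) ((θ : ℂ) * w) z ∂P with hFdef
  have hbc : Continuous b := by
    rw [hb]
    fun_prop
  have hcont : ContinuousOn F (Icc 0 1) := by
    refine continuousOn_of_dominated (bound := fun _ => (1:ℝ)) ?_ ?_ (integrable_const 1) ?_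
    · intro t _
      exact (ClusterAux.continuous_E _ _).aestronglyMeasurable
    · intro t ht
      refine Filter.Eventually.of_forall fun z => ClusterAux.norm_E_le_one ?_ z
      have h1 := hnle t ht.1 ht.2
      have h2 := hbge t
      linarith
    · refine Filter.Eventually.of_forall fun z => ?_
      apply Continuous.continuousOn
      unfold E
      fun_prop
  -- the derivative
  set G' : ℝ → ℂ → ℝ := fun θ z =>
    -(θ * ‖w‖ ^ 2 / b θ * ‖z‖ + (w * z).re) * E (b θ - 1) ((θ : ℂ) * w) z with hG'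
  have hdiff : ∀ z : ℂ, ∀ θ : ℝ, HasDerivAt (fun θ : ℝ => E (b θ - 1) ((θ : ℂ) * w) z)
      (G' θ z) θ := by
    intro z θ
    have e1 : (fun θ : ℝ => E (b θ - 1) ((θ : ℂ) * w) z) =
        fun θ : ℝ => Real.exp (-((b θ - 1) * ‖z‖ + θ * (w * z).re)) := by
      funext t
      unfold E
      rw [mul_assoc, Complex.re_ofReal_mul]
    have h1 : HasDerivAt (fun θ : ℝ => -((b θ - 1) * ‖z‖ + θ * (w * z).re))
        (-(θ * ‖w‖ ^ 2 / b θ * ‖z‖ + (w * z).re)) θ := by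
      have h2 : HasDerivAt (fun θ : ℝ => (b θ - 1) * ‖z‖ + θ * (w * z).re)
          (θ * ‖w‖ ^ 2 / b θ * ‖z‖ + 1 * (w * z).re) θ :=
        HasDerivAt.fun_add (((hbd θ).sub_const 1).mul_const ‖z‖)
          ((hasDerivAt_id' θ).mul_const (w * z).re)
      rw [one_mul] at h2
      exact h2.fun_neg
    rw [e1]
    have h4 := h1.exp
    convert h4 using 1
    simp only [hG']
    unfold E
    rw [mul_assoc (θ : ℂ), Complex.re_ofReal_mul]
    ring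
  have hbound : ∀ z : ℂ, ∀ θ ∈ Ioo (0 : ℝ) 1,
      ‖G' θ z‖ ≤ (‖w‖ ^ 2 + ‖w‖) * (1 / (a / 4)) := by
    intro z θ hθ
    have hE : 0 < E (b θ - 1) ((θ : ℂ) * w) z := Real.exp_pos _
    have h1 : ‖z‖ * E (b θ - 1) ((θ : ℂ) * w) z ≤ 1 / (a / 4) := by
      apply norm_mul_E_le (by linarith)
      have := hnle θ hθ.1.le hθ.2.le
      have := hbge θ
      linarith
    have h2 : θ * ‖w‖ ^ 2 / b θ ≤ ‖w‖ ^ 2 := by
      rw [div_le_iff₀ (hbpos θ)]
      have h3 : θ ≤ b θ := by linarith [hbge θ, hθ.2]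
      have h4 : 0 ≤ ‖w‖ ^ 2 := by positivity
      nlinarith
    have h2' : 0 ≤ θ * ‖w‖ ^ 2 / b θ := by
      have := hbpos θ
      have := hθ.1
      positivity
    have h5 : |-(θ * ‖w‖ ^ 2 / b θ * ‖z‖ + (w * z).re)| ≤ (‖w‖ ^ 2 + ‖w‖) * ‖z‖ := by
      rw [abs_neg]
      refine (abs_add_le _ _).trans ?_
      rw [abs_of_nonneg (show 0 ≤ θ * ‖w‖ ^ 2 / b θ * ‖z‖ by positivity)]
      have h6 := re_le w z
      have h7 := mul_le_mul_of_nonneg_right h2 (norm_nonneg z)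
      linarith
    rw [Real.norm_eq_abs]
    simp only [hG']
    rw [abs_mul, abs_of_pos hE]
    calc |-(θ * ‖w‖ ^ 2 / b θ * ‖z‖ + (w * z).re)| * E (b θ - 1) ((θ : ℂ) * w) z
        ≤ ((‖w‖ ^ 2 + ‖w‖) * ‖z‖) * E (b θ - 1) ((θ : ℂ) * w) z :=
          mul_le_mul_of_nonneg_right h5 hE.le
      _ = (‖w‖ ^ 2 + ‖w‖) * (‖z‖ * E (b θ - 1) ((θ : ℂ) * w) z) := by ring
      _ ≤ _ := mul_le_mul_of_nonneg_left h1 (by positivity)
  have hder : ∀ θ ∈ Ioo (0 : ℝ) 1, HasDerivAt F 0 θ := by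
    intro θ hθ
    have hs : Ioo (0 : ℝ) 1 ∈ 𝓝 θ := Ioo_mem_nhds hθ.1 hθ.2
    have hint : Integrable (fun z => E (b θ - 1) ((θ : ℂ) * w) z) P := by
      refine Integrable.of_bound (ClusterAux.continuous_E _ _).aestronglyMeasurable 1 ?_
      refine Filter.Eventually.of_forall fun z => ClusterAux.norm_E_le_one ?_ z
      have h1 := hnle θ hθ.1.le hθ.2.le
      have h2 := hbge θ
      linarith
    have hGc : Continuous (G' θ) := by
      simp only [hG']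
      unfold E
      fun_prop
    have key := hasDerivAt_integral_of_dominated_loc_of_deriv_le (μ := P) (𝕜 := ℝ)
      (F := fun (θ : ℝ) z => E (b θ - 1) ((θ : ℂ) * w) z) (x₀ := θ) (s := Ioo (0 : ℝ) 1)
      (bound := fun _ => (‖w‖ ^ 2 + ‖w‖) * (1 / (a / 4))) hs
      (Filter.Eventually.of_forall fun t => (ClusterAux.continuous_E _ _).aestronglyMeasurable)
      hint (F' := G') hGc.aestronglyMeasurable
      (Filter.Eventually.of_forall fun z t ht => hbound z t ht) (integrable_const _)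
      (Filter.Eventually.of_forall fun z t _ => hdiff z t)
    have h2 : ∫ z, G' θ z ∂P = 0 := by
      have e : ∀ z, G' θ z = -(θ * b θ)⁻¹ * DE (b θ - 1) ((θ : ℂ) * w) z := by
        intro z
        simp only [hG']
        unfold DE
        rw [mul_assoc (θ : ℂ), Complex.re_ofReal_mul, hnorm θ hθ.1.le]
        have h3 := (hbpos θ).ne'
        have h4 := hθ.1.ne'
        field_simp
        ring
      simp_rw [e]
      rw [integral_const_mul, hD (b θ - 1) ((θ : ℂ) * w) (by linarith [hbge θ]) ?_, mul_zero]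
      rw [hnorm θ hθ.1.le]
      have h5 := hbge θ
      have h6 : θ * ‖w‖ ≤ ‖w‖ := by nlinarith [hθ.2]
      have h7 : κ * (a / 2) ≤ κ * (b θ - 1) := mul_le_mul_of_nonneg_left (by linarith) hκ.le
      linarith
    rw [← h2]
    exact key.2
  obtain ⟨c, _, hc⟩ := exists_hasDerivAt_eq_slope F (fun _ => (0 : ℝ)) one_pos hcont hder
  have hF01 : F 1 = F 0 := by
    simp only [sub_zero, div_one] at hc
    linarith
  have e1 : F 1 = ∫ z, E a w z ∂P := by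
    simp only [hFdef]
    rw [hb1]
    simp
  have e0 : F 0 = ∫ z, E (√d2 - 1) 0 z ∂P := by
    simp only [hFdef]
    rw [hb0]
    simp
  rw [← e1, ← e0, hF01]

/-- PROOF. For an ultrafilter `U ≤ atTop` take `P` from `exists_limit`; `hD` and `bdd_DE`,
`continuous_DE`, uniqueness of limits give `∫ DE a w dP = 0`; then `int_E_of_DE`, `transform_affine`
(with `κ / 2`). -/
theorem affLim_of_DE (hg : GReg h) {κ : ℝ} (hκ : 0 < κ) (hκ1 : κ ≤ 1 / 2)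
    (hD : ∀ (a : ℝ) (w : ℂ), 0 < a → ‖w‖ ≤ κ * a →
      Tendsto (fun R => L h (DE a w) R) atTop (𝓝 0)) : AffLim h (κ / 2) := by
  intro U hU
  obtain ⟨P, hP, hlim⟩ := exists_limit hg U hU
  have hD0 : ∀ (a : ℝ) (w : ℂ), 0 < a → ‖w‖ ≤ κ * a → ∫ z, DE a w z ∂P = 0 := by
    intro a w ha hw
    have hwa : ‖w‖ < a := by nlinarith [norm_nonneg w]
    have h1 := hlim (DE a w) (continuous_DE a w) (bdd_DE hwa)
    have h2 := (hD a w ha hw).mono_left hU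
    exact tendsto_nhds_unique h1 h2
  obtain ⟨A, B, hAB, hE⟩ := transform_affine (P := P) (κ := κ / 2) (by linarith) (by linarith)
    fun a w ha hw => int_E_of_DE hκ hκ1 hD0 ha hw
  exact ⟨P, A, B, hP, hAB, hlim, hE⟩

end SAD
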