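import Pool.Agent.Lib.SAD.IsoMat
import Pool.Agent.Lib.SAD.IsoLim

/-!
# Partial summation: the weighted second harmonic
-/

open Filter Topology MeasureTheory Set
open scoped MatrixGroups

namespace SAD

variable {ι : Type*} {h : ι → ℂ}

namespace IsoLapAux

open LaplaceAux

/-- Laplace transform of a nonnegative weighted counting function. -/
theorem tsum_eq_w {x g : ι → ℝ} (hx0 : ∀ i, 0 ≤ x i)
    (hxf : ∀ s : ℝ, {i | x i ≤ s}.Finite) (hg0 : ∀ i, 0 ≤ g i) {t : ℝ} (ht : 0 < t) :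
    ∑' i, ENNReal.ofReal (g i * Real.exp (-(t * x i))) = ∫⁻ s in Ioi (0 : ℝ),
      ENNReal.ofReal (t * Real.exp (-(t * s))) * ENNReal.ofReal (∑ᶠ i ∈ {i | x i ≤ s}, g i) := by
  have := countable_of hxf
  have hm : Measurable fun s : ℝ => ENNReal.ofReal (t * Real.exp (-(t * s))) := by
    fun_prop
  calc ∑' i, ENNReal.ofReal (g i * Real.exp (-(t * x i)))
      = ∑' i, ∫⁻ s in Ioi (0 : ℝ), ENNReal.ofReal (g i) *
          (Ici (x i)).indicator (fun s => ENNReal.ofReal (t * Real.exp (-(t * s)))) s := by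
        refine tsum_congr fun i => ?_
        rw [lintegral_const_mul' _ _ ENNReal.ofReal_ne_top, ENNReal.ofReal_mul (hg0 i),
          ofReal_exp hx0 ht i, lintegral_indicator measurableSet_Ioi,
          lintegral_indicator measurableSet_Ici, Measure.restrict_restrict measurableSet_Ioi,
          Measure.restrict_restrict measurableSet_Ici]
        congr 1
        refine setLIntegral_congr ?_
        exact (Ioi_ae_eq_Ici (a := x i)).inter (ae_eq_refl _)
    _ = ∫⁻ s in Ioi (0 : ℝ), ∑' i, ENNReal.ofReal (g i) *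
          (Ici (x i)).indicator (fun s => ENNReal.ofReal (t * Real.exp (-(t * s)))) s := by
        rw [lintegral_tsum fun i => ((hm.indicator measurableSet_Ici).const_mul _).aemeasurable]
    _ = _ := by
        refine lintegral_congr fun s => ?_
        have hfin := hxf s
        rw [tsum_eq_sum (s := hfin.toFinset) (fun i hi => ?_)]
        · have h1 : ∀ i ∈ hfin.toFinset, ENNReal.ofReal (g i) *
              (Ici (x i)).indicator (fun s => ENNReal.ofReal (t * Real.exp (-(t * s)))) s =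
                ENNReal.ofReal (g i) * ENNReal.ofReal (t * Real.exp (-(t * s))) := by
            intro i hi
            rw [Set.Finite.mem_toFinset] at hi
            rw [indicator_of_mem (show s ∈ Ici (x i) from hi) _]
          rw [Finset.sum_congr rfl h1, ← Finset.sum_mul, mul_comm,
            finsum_mem_eq_finite_toFinset_sum _ hfin,
            ENNReal.ofReal_sum_of_nonneg fun i _ => hg0 i]
        · rw [Set.Finite.mem_toFinset] at hi
          rw [indicator_of_notMem (fun h : s ∈ Ici (x i) => hi h) _, mul_zero]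

theorem tsum_w_le {x g : ι → ℝ} (hx0 : ∀ i, 0 ≤ x i) (hxf : ∀ s : ℝ, {i | x i ≤ s}.Finite)
    (hg0 : ∀ i, 0 ≤ g i) {B : ℝ} (hgB : ∀ i, g i ≤ B) {K C : ℝ} (hK : 0 ≤ K) (hC : 0 ≤ C)
    (hle : ∀ s : ℝ, 0 ≤ s → ∑ᶠ i ∈ {i | x i ≤ s}, g i ≤ K * ({i | x i ≤ s}.ncard : ℝ) + C)
    {t : ℝ} (ht : 0 < t) (hs : Summable fun i => Real.exp (-(t * x i))) :
    ∑' i, g i * Real.exp (-(t * x i)) ≤ K * ∑' i, Real.exp (-(t * x i)) + C := by
  have hm : Measurable fun s : ℝ => ENNReal.ofReal (t * Real.exp (-(t * s))) := by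
    fun_prop
  have hX : ∑' i, ENNReal.ofReal (Real.exp (-(t * x i))) =
      ENNReal.ofReal (∑' i, Real.exp (-(t * x i))) :=
    (ENNReal.ofReal_tsum_of_nonneg (fun i => (Real.exp_pos _).le) hs).symm
  have hX0 : 0 ≤ ∑' i, Real.exp (-(t * x i)) := tsum_nonneg fun i => (Real.exp_pos _).le
  have hsg : Summable fun i => g i * Real.exp (-(t * x i)) :=
    Summable.of_nonneg_of_le (fun i => mul_nonneg (hg0 i) (Real.exp_pos _).le)
      (fun i => mul_le_mul_of_nonneg_right (hgB i) (Real.exp_pos _).le) (hs.mul_left B)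
  have h1 : ∑' i, ENNReal.ofReal (g i * Real.exp (-(t * x i))) ≤
      ENNReal.ofReal (K * ∑' i, Real.exp (-(t * x i)) + C) := by
    calc ∑' i, ENNReal.ofReal (g i * Real.exp (-(t * x i)))
        = ∫⁻ s in Ioi (0 : ℝ), ENNReal.ofReal (t * Real.exp (-(t * s))) *
            ENNReal.ofReal (∑ᶠ i ∈ {i | x i ≤ s}, g i) := tsum_eq_w hx0 hxf hg0 ht
      _ ≤ ∫⁻ s in Ioi (0 : ℝ), (ENNReal.ofReal K * (ENNReal.ofReal (t * Real.exp (-(t * s))) *
            ENNReal.ofReal ({i | x i ≤ s}.ncard : ℝ)) +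
            ENNReal.ofReal C * ENNReal.ofReal (t * Real.exp (-(t * s)))) := by
          refine setLIntegral_mono' measurableSet_Ioi fun s hs0 => ?_
          have h2 := hle s (le_of_lt hs0)
          calc ENNReal.ofReal (t * Real.exp (-(t * s))) *
                ENNReal.ofReal (∑ᶠ i ∈ {i | x i ≤ s}, g i)
              ≤ ENNReal.ofReal (t * Real.exp (-(t * s))) *
                ENNReal.ofReal (K * ({i | x i ≤ s}.ncard : ℝ) + C) := by gcongr
            _ = _ := by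
              rw [ENNReal.ofReal_add (by positivity) hC, ENNReal.ofReal_mul hK]
              ring
      _ = ENNReal.ofReal K * ∑' i, ENNReal.ofReal (Real.exp (-(t * x i))) +
            ENNReal.ofReal C * 1 := by
          rw [lintegral_add_right _ (hm.const_mul _), lintegral_const_mul' _ _ ENNReal.ofReal_ne_top,
            lintegral_const_mul' _ _ ENNReal.ofReal_ne_top, ← tsum_eq hx0 hxf ht, lint ht]
          simp
      _ = ENNReal.ofReal (K * ∑' i, Real.exp (-(t * x i)) + C) := by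
          rw [hX, mul_one, ENNReal.ofReal_add (by positivity) hC, ENNReal.ofReal_mul hK]
  rw [← ENNReal.ofReal_tsum_of_nonneg (fun i => mul_nonneg (hg0 i) (Real.exp_pos _).le) hsg] at h1
  exact (ENNReal.ofReal_le_ofReal_iff (by positivity)).1 h1

/-- Signed bounded weights with small partial sums. -/
theorem tsum_signed_le {x m : ι → ℝ} (hx0 : ∀ i, 0 ≤ x i) (hxf : ∀ s : ℝ, {i | x i ≤ s}.Finite)
    {B : ℝ} (hB : ∀ i, |m i| ≤ B) {K C : ℝ} (hK : 0 ≤ K) (hC : 0 ≤ C)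
    (hle : ∀ s : ℝ, 0 ≤ s → ∑ᶠ i ∈ {i | x i ≤ s}, m i ≤ K * ({i | x i ≤ s}.ncard : ℝ) + C)
    {t : ℝ} (ht : 0 < t) (hs : Summable fun i => Real.exp (-(t * x i))) :
    ∑' i, m i * Real.exp (-(t * x i)) ≤ K * ∑' i, Real.exp (-(t * x i)) + C := by
  by_cases hι : Nonempty ι
  · obtain ⟨i0⟩ := hι
    have hB0 : 0 ≤ B := (abs_nonneg _).trans (hB i0)
    have hms : Summable fun i => m i * Real.exp (-(t * x i)) := by
      refine Summable.of_norm_bounded (hs.mul_left B) fun i => ?_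
      rw [norm_mul, Real.norm_eq_abs, Real.norm_eq_abs, abs_of_pos (Real.exp_pos _)]
      exact mul_le_mul_of_nonneg_right (hB i) (Real.exp_pos _).le
    have key := tsum_w_le (g := fun i => B + m i) (B := 2 * B) (K := B + K) (C := C) hx0 hxf
      (fun i => by have := (abs_le.1 (hB i)).1; linarith)
      (fun i => by have := (abs_le.1 (hB i)).2; linarith) (by positivity) hC (fun s hs0 => by
        have hfin := hxf s
        have h1 := hle s hs0
        rw [finsum_mem_add_distrib hfin]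
        have h2 : ∑ᶠ i ∈ {i | x i ≤ s}, (fun _ : ι => B) i = ({i | x i ≤ s}.ncard : ℝ) * B := by
          rw [finsum_mem_eq_finite_toFinset_sum _ hfin, Finset.sum_const, nsmul_eq_mul,
            Set.ncard_eq_toFinset_card _ hfin]
        have h3 : ∑ᶠ i ∈ {i | x i ≤ s}, B = ({i | x i ≤ s}.ncard : ℝ) * B := h2
        rw [h3]
        linarith) ht hs
    have e1 : ∑' i, (B + m i) * Real.exp (-(t * x i)) =
        B * ∑' i, Real.exp (-(t * x i)) + ∑' i, m i * Real.exp (-(t * x i)) := by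
      rw [← tsum_mul_left, ← (hs.mul_left B).tsum_add hms]
      refine tsum_congr fun i => ?_
      ring
    rw [e1] at key
    linarith
  · rw [not_nonempty_iff] at hι
    simp only [tsum_empty]
    linarith

theorem abs_tsum_signed_le {x m : ι → ℝ} (hx0 : ∀ i, 0 ≤ x i)
    (hxf : ∀ s : ℝ, {i | x i ≤ s}.Finite)
    {B : ℝ} (hB : ∀ i, |m i| ≤ B) {K C : ℝ} (hK : 0 ≤ K) (hC : 0 ≤ C)
    (hle : ∀ s : ℝ, 0 ≤ s → |∑ᶠ i ∈ {i | x i ≤ s}, m i| ≤ K * ({i | x i ≤ s}.ncard : ℝ) + C)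
    {t : ℝ} (ht : 0 < t) (hs : Summable fun i => Real.exp (-(t * x i))) :
    |∑' i, m i * Real.exp (-(t * x i))| ≤ K * ∑' i, Real.exp (-(t * x i)) + C := by
  have h1 := tsum_signed_le hx0 hxf hB hK hC (fun s hs0 => (le_abs_self _).trans (hle s hs0)) ht hs
  have h2 := tsum_signed_le (m := fun i => - m i) hx0 hxf (by simpa using hB) hK hC
    (fun s hs0 => by
      have e : ∑ᶠ i ∈ {i | x i ≤ s}, - m i = - ∑ᶠ i ∈ {i | x i ≤ s}, m i := by
        rw [finsum_mem_eq_finite_toFinset_sum _ (hxf s),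
          finsum_mem_eq_finite_toFinset_sum _ (hxf s), Finset.sum_neg_distrib]
      rw [e]
      exact (neg_le_abs _).trans (hle s hs0)) ht hs
  simp only [neg_mul] at h2
  rw [tsum_neg] at h2
  rw [abs_le]
  constructor <;> linarith

theorem exp_neg_le_quad {y : ℝ} (hy : 0 ≤ y) : Real.exp (-y) ≤ 1 - y + y ^ 2 / 2 := by
  have h1 := Real.quadratic_le_exp_of_nonneg hy
  have h2 : Real.exp (-y) * Real.exp y = 1 := by rw [← Real.exp_add]; simp
  have h3 : 0 < Real.exp (-y) := Real.exp_pos _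
  have h4 : Real.exp (-y) * (1 + y + y ^ 2 / 2) ≤ 1 := by
    have h4' := mul_le_mul_of_nonneg_left h1 h3.le
    rwa [h2] at h4'
  have h5 : 0 < 1 + y + y ^ 2 / 2 := by positivity
  have h6 : 0 ≤ 1 - y + y ^ 2 / 2 := by nlinarith [sq_nonneg (y - 1)]
  have h7 : 1 ≤ (1 - y + y ^ 2 / 2) * (1 + y + y ^ 2 / 2) := by
    nlinarith [sq_nonneg (y ^ 2)]
  have h8 : Real.exp (-y) * (1 + y + y ^ 2 / 2) ≤
      (1 - y + y ^ 2 / 2) * (1 + y + y ^ 2 / 2) := h4.trans h7
  exact le_of_mul_le_mul_right h8 h5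

theorem kern {x ρ : ℝ} (hx : 0 ≤ x) (hρ : 0 < ρ) :
    |x * Real.exp (-x) - (Real.exp (-x) - Real.exp (-((1 + ρ) * x))) / ρ| ≤
      ρ / 2 * (x ^ 2 * Real.exp (-x)) := by
  have e1 : Real.exp (-((1 + ρ) * x)) = Real.exp (-x) * Real.exp (-(ρ * x)) := by
    rw [← Real.exp_add]
    congr 1
    ring
  have hy : 0 ≤ ρ * x := by positivity
  have h1 := exp_neg_le_quad hy
  have h2 := Real.add_one_le_exp (-(ρ * x))
  have e2 : x * Real.exp (-x) - (Real.exp (-x) - Real.exp (-((1 + ρ) * x))) / ρ =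
      Real.exp (-x) * ((ρ * x - 1 + Real.exp (-(ρ * x))) / ρ) := by
    rw [e1]
    field_simp
    ring
  rw [e2, abs_mul, abs_of_pos (Real.exp_pos _)]
  have h3 : 0 ≤ (ρ * x - 1 + Real.exp (-(ρ * x))) / ρ := div_nonneg (by linarith) hρ.le
  rw [abs_of_nonneg h3]
  have h4 : (ρ * x - 1 + Real.exp (-(ρ * x))) / ρ ≤ ρ / 2 * x ^ 2 := by
    rw [div_le_iff₀ hρ]
    nlinarith
  calc Real.exp (-x) * ((ρ * x - 1 + Real.exp (-(ρ * x))) / ρ)
      ≤ Real.exp (-x) * (ρ / 2 * x ^ 2) := by gcongr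
    _ = ρ / 2 * (x ^ 2 * Real.exp (-x)) := by ring

theorem sq_exp_le {x c : ℝ} (hx : 0 ≤ x) (hc : 0 < c) :
    x ^ 2 * Real.exp (-(c * x)) ≤ 2 / c ^ 2 := by
  have h1 := Real.quadratic_le_exp_of_nonneg (x := c * x) (by positivity)
  have h2 : Real.exp (-(c * x)) * Real.exp (c * x) = 1 := by rw [← Real.exp_add]; simp
  have h3 : 0 < Real.exp (-(c * x)) := Real.exp_pos _
  rw [le_div_iff₀ (by positivity)]
  have h4 : (c * x) ^ 2 / 2 ≤ Real.exp (c * x) := by nlinarith [mul_nonneg hc.le hx]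
  have h5 : Real.exp (-(c * x)) * ((c * x) ^ 2 / 2) ≤ 1 := by
    have h5' := mul_le_mul_of_nonneg_left h4 h3.le
    rwa [h2] at h5'
  nlinarith


/-- A bounded direction function sums to at most a multiple of the counting function. -/
theorem abs_dirSum_le {k : ι → ℂ} (hk : LocFin k) {f : ℂ → ℝ} {B : ℝ}
    (hf : ∀ i, |f (k i / (‖k i‖ : ℂ))| ≤ B) (R : ℝ) : |dirSum k f R| ≤ B * N k R := by
  have hfin := hk.2 R
  unfold dirSum N
  rw [finsum_mem_eq_finite_toFinset_sum _ hfin, Set.ncard_eq_toFinset_card _ hfin]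
  refine (Finset.abs_sum_le_sum_abs _ _).trans ?_
  refine (Finset.sum_le_sum fun i _ => hf i).trans ?_
  rw [Finset.sum_const, nsmul_eq_mul, mul_comm]

theorem abs_harm_le (w : ℂ) {k : ι → ℂ} (hk : LocFin k) (i : ι) :
    |(w * (k i / (‖k i‖ : ℂ)) ^ 2).re| ≤ ‖w‖ := by
  refine (Complex.abs_re_le_norm _).trans ?_
  have h0 : ‖k i‖ ≠ 0 := norm_ne_zero_iff.2 (hk.1 i)
  rw [norm_mul, norm_pow, norm_div, Complex.norm_real, norm_norm, div_self h0]
  simp

/-- The defining limit as an inequality for all `R`. -/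
theorem exists_C {k : ι → ℂ} (hk : LocFin k) (hiso : Iso k) (w : ℂ) {η : ℝ} (hη : 0 < η) :
    ∃ C : ℝ, 0 ≤ C ∧ ∀ R : ℝ, |dirSum k (fun u => (w * u ^ 2).re) R| ≤ η * N k R + C := by
  have h1 := hiso w
  rw [Metric.tendsto_atTop] at h1
  obtain ⟨R₀, hR₀⟩ := h1 η hη
  refine ⟨‖w‖ * N k R₀, mul_nonneg (norm_nonneg _) (N_nonneg _ _), fun R => ?_⟩
  have hb := abs_dirSum_le hk (f := fun u => (w * u ^ 2).re) (abs_harm_le w hk) R
  have hN := N_nonneg k R
  have hN0 := N_nonneg k R₀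
  have hw := norm_nonneg w
  rcases le_total R₀ R with hR | hR
  · have h2 := hR₀ R hR
    rw [dist_zero_right, Real.norm_eq_abs, abs_div, abs_of_nonneg hN] at h2
    rcases hN.eq_or_lt with h3 | h3
    · rw [← h3, mul_zero] at hb
      rw [← h3]
      have : 0 ≤ ‖w‖ * N k R₀ := by positivity
      linarith
    · rw [div_lt_iff₀ h3] at h2
      have : 0 ≤ ‖w‖ * N k R₀ := by positivity
      linarith
  · have h2 : N k R ≤ N k R₀ := N_mono hk hR
    have h3 : ‖w‖ * N k R ≤ ‖w‖ * N k R₀ := by gcongr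
    have : 0 ≤ η * N k R := by positivity
    linarith

end IsoLapAux

open IsoLapAux

theorem tendsto_L_DE (hg : GReg h) {A : SL(2, ℝ)} {a : ℝ} {w : ℂ} (ha : 0 < a)
    (hw : ‖w‖ ≤ a / 2)
    (h1 : ∀ v : ℂ, √((1 + a) ^ 2 - ‖w‖ ^ 2) * ‖act A v‖ ^ 2 =
        (1 + a) * ‖v‖ ^ 2 + (w * v ^ 2).re)
    (h2 : ∀ v : ℂ, √((1 + a) ^ 2 - ‖w‖ ^ 2) * (w * (act A v) ^ 2).re =
        (1 + a) * (w * v ^ 2).re + ‖w‖ ^ 2 * ‖v‖ ^ 2)
    (hiso : Iso (fun i => act A (h i))) :
    Tendsto (fun R => L h (DE a w) R) atTop (𝓝 0) := by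
  have hw0 := norm_nonneg w
  set δ : ℝ := √((1 + a) ^ 2 - ‖w‖ ^ 2) with hδ
  have hδ0 : 0 < δ := by
    apply Real.sqrt_pos.2
    nlinarith
  have hfA := hg.locFin.act A
  set y : ι → ℝ := fun i => ‖act A (h i)‖ ^ 2 with hy
  set m : ι → ℝ := fun i => (w * (act A (h i) / (‖act A (h i)‖ : ℂ)) ^ 2).re with hm
  have hy0 : ∀ i, 0 ≤ y i := fun i => by positivity
  have hmB : ∀ i, |m i| ≤ ‖w‖ := fun i => abs_harm_le w hfA i
  have hym : ∀ i, δ * y i * m i = (1 + a) * (w * (h i) ^ 2).re + ‖w‖ ^ 2 * ‖h i‖ ^ 2 := by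
    intro i
    rw [← h2 (h i)]
    have h0 : ‖act A (h i)‖ ≠ 0 := norm_ne_zero_iff.2 (hfA.1 i)
    have e : w * (act A (h i) / (‖act A (h i)‖ : ℂ)) ^ 2 =
        (w * (act A (h i)) ^ 2) / ((‖act A (h i)‖ ^ 2 : ℝ) : ℂ) := by
      push_cast
      rw [div_pow, mul_div_assoc]
    simp only [hm, hy]
    rw [e, Complex.div_ofReal_re]
    field_simp
  have sety : ∀ s : ℝ, 0 ≤ s → {i | y i ≤ s} = {i | ‖act A (h i)‖ ≤ √s} := by
    intro s hs
    ext i
    simp only [Set.mem_ofPred_eq, hy]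
    rw [Real.le_sqrt (norm_nonneg _) hs]
  have finy : ∀ s : ℝ, {i | y i ≤ s}.Finite := by
    intro s
    by_cases hs : 0 ≤ s
    · rw [sety s hs]; exact hfA.2 _
    · refine Set.Finite.subset Set.finite_empty fun i hi => ?_
      exfalso
      have : y i ≤ s := hi
      linarith [hy0 i]
  set c0 : ℝ := 1 + a / 2 with hc0
  have hc1 : 1 < c0 := by rw [hc0]; linarith
  have hyc : ∀ i, c0 * ‖h i‖ ^ 2 ≤ δ * y i := by
    intro i
    simp only [hy]
    rw [h1 (h i)]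
    have h3 : |(w * (h i) ^ 2).re| ≤ ‖w‖ * ‖h i‖ ^ 2 := by
      refine (Complex.abs_re_le_norm _).trans ?_
      rw [norm_mul, norm_pow]
    have h4 := (abs_le.1 h3).1
    have h5 : ‖w‖ * ‖h i‖ ^ 2 ≤ a / 2 * ‖h i‖ ^ 2 := by gcongr
    rw [hc0]
    nlinarith
  set c : ℝ := 1 - 1 / c0 with hc
  have hcpos : 0 < c := by
    rw [hc]
    have : 1 / c0 < 1 := by
      rw [div_lt_one (by linarith)]
      exact hc1
    linarith
  rw [Metric.tendsto_nhds]
  intro e he
  obtain ⟨ρ, hρ, hρe⟩ : ∃ ρ : ℝ, 0 < ρ ∧ ‖w‖ * (ρ / 2 * (2 / c ^ 2)) ≤ e / 4 := by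
    refine ⟨e * c ^ 2 / (4 * (‖w‖ + 1)), by positivity, ?_⟩
    have h3 : ‖w‖ * (e * c ^ 2 / (4 * (‖w‖ + 1)) / 2 * (2 / c ^ 2)) =
        (e / 4) * (‖w‖ / (‖w‖ + 1)) := by
      field_simp
    rw [h3]
    have h4 : ‖w‖ / (‖w‖ + 1) ≤ 1 := by
      rw [div_le_one (by positivity)]
      linarith
    nlinarith
  obtain ⟨η, hη, hηe⟩ : ∃ η : ℝ, 0 < η ∧ 2 / ρ * η = e / 4 := by
    refine ⟨e * ρ / 8, by positivity, ?_⟩
    field_simp
    norm_num
  obtain ⟨C, hC0, hC⟩ := exists_C hfA hiso w hη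
  have hle : ∀ s : ℝ, 0 ≤ s →
      |∑ᶠ i ∈ {i | y i ≤ s}, m i| ≤ η * ({i | y i ≤ s}.ncard : ℝ) + C := by
    intro s hs
    have := hC (√s)
    unfold dirSum N at this
    rw [← sety s hs] at this
    exact this
  have hGC : ∀ᶠ R in atTop, (2 / ρ * C) * (4 / e) + 1 ≤ G h R := hg.tendsto.eventually_ge_atTop _
  filter_upwards [hGC, eventually_gt_atTop (0 : ℝ)] with R hRG hR
  have hG0 : 0 < G h R := hg.G_pos hR
  have hWs := summable_G hg.summable hR
  set W : ι → ℝ := fun i => Real.exp (-(‖h i‖ / R) ^ 2) with hW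
  have hWG : ∑' i, W i = G h R := rfl
  have hx : ∀ i, c0 * (‖h i‖ / R) ^ 2 ≤ δ / R ^ 2 * y i := by
    intro i
    have h3 := hyc i
    rw [div_pow]
    have e1 : c0 * (‖h i‖ ^ 2 / R ^ 2) = c0 * ‖h i‖ ^ 2 / R ^ 2 := by ring
    have e2 : δ / R ^ 2 * y i = δ * y i / R ^ 2 := by ring
    rw [e1, e2]
    gcongr
  have hx1 : ∀ i, (‖h i‖ / R) ^ 2 ≤ δ / R ^ 2 * y i := by
    intro i
    refine le_trans ?_ (hx i)
    have : 0 ≤ (‖h i‖ / R) ^ 2 := by positivity
    nlinarith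
  have hE1W : ∀ i, Real.exp (-(δ / R ^ 2 * y i)) ≤ W i := by
    intro i
    simp only [hW]
    apply Real.exp_le_exp.2
    linarith [hx1 i]
  have hE2W : ∀ i, Real.exp (-((1 + ρ) * (δ / R ^ 2) * y i)) ≤ W i := by
    intro i
    refine le_trans ?_ (hE1W i)
    apply Real.exp_le_exp.2
    have : 0 ≤ ρ * (δ / R ^ 2 * y i) := by
      have := hy0 i
      positivity
    nlinarith
  have hs1 : Summable fun i => Real.exp (-(δ / R ^ 2 * y i)) :=
    Summable.of_nonneg_of_le (fun i => (Real.exp_pos _).le) hE1W hWs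
  have hs2 : Summable fun i => Real.exp (-((1 + ρ) * (δ / R ^ 2) * y i)) :=
    Summable.of_nonneg_of_le (fun i => (Real.exp_pos _).le) hE2W hWs
  have b1 := abs_tsum_signed_le hy0 finy hmB hη.le hC0 hle (t := δ / R ^ 2) (by positivity) hs1
  have b2 := abs_tsum_signed_le hy0 finy hmB hη.le hC0 hle (t := (1 + ρ) * (δ / R ^ 2))
    (by positivity) hs2
  have z1 : ∑' i, Real.exp (-(δ / R ^ 2 * y i)) ≤ G h R := hs1.tsum_le_tsum hE1W hWs
  have z2 : ∑' i, Real.exp (-((1 + ρ) * (δ / R ^ 2) * y i)) ≤ G h R :=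
    hs2.tsum_le_tsum hE2W hWs
  have hms1 : Summable fun i => m i * Real.exp (-(δ / R ^ 2 * y i)) := by
    refine Summable.of_norm_bounded (hs1.mul_left ‖w‖) fun i => ?_
    rw [norm_mul, Real.norm_eq_abs, Real.norm_eq_abs, abs_of_pos (Real.exp_pos _)]
    exact mul_le_mul_of_nonneg_right (hmB i) (Real.exp_pos _).le
  have hms2 : Summable fun i => m i * Real.exp (-((1 + ρ) * (δ / R ^ 2) * y i)) := by
    refine Summable.of_norm_bounded (hs2.mul_left ‖w‖) fun i => ?_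
    rw [norm_mul, Real.norm_eq_abs, Real.norm_eq_abs, abs_of_pos (Real.exp_pos _)]
    exact mul_le_mul_of_nonneg_right (hmB i) (Real.exp_pos _).le
  set S1 : ℝ := ∑' i, m i * Real.exp (-(δ / R ^ 2 * y i)) with hS1
  set S2 : ℝ := ∑' i, m i * Real.exp (-((1 + ρ) * (δ / R ^ 2) * y i)) with hS2
  set T : ι → ℝ := fun i => m i * (δ / R ^ 2 * y i * Real.exp (-(δ / R ^ 2 * y i))) with hT
  -- the difference
  have hD : ∀ i, |T i - (m i * Real.exp (-(δ / R ^ 2 * y i)) -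
      m i * Real.exp (-((1 + ρ) * (δ / R ^ 2) * y i))) / ρ| ≤ e / 4 * W i := by
    intro i
    have hxi : 0 ≤ δ / R ^ 2 * y i := by
      have := hy0 i
      positivity
    have k1 := kern hxi hρ
    have e1 : T i - (m i * Real.exp (-(δ / R ^ 2 * y i)) -
      m i * Real.exp (-((1 + ρ) * (δ / R ^ 2) * y i))) / ρ =
        m i * (δ / R ^ 2 * y i * Real.exp (-(δ / R ^ 2 * y i)) -
          (Real.exp (-(δ / R ^ 2 * y i)) -
            Real.exp (-((1 + ρ) * (δ / R ^ 2 * y i)))) / ρ) := by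
      simp only [hT]
      rw [mul_assoc (1 + ρ) (δ / R ^ 2) (y i)]
      ring
    rw [e1, abs_mul]
    have k2 : (δ / R ^ 2 * y i) ^ 2 * Real.exp (-(δ / R ^ 2 * y i)) ≤ 2 / c ^ 2 * W i := by
      have e2 : Real.exp (-(δ / R ^ 2 * y i)) = Real.exp (-(c * (δ / R ^ 2 * y i))) *
          Real.exp (-(1 / c0 * (δ / R ^ 2 * y i))) := by
        rw [← Real.exp_add]
        congr 1
        rw [hc]
        ring
      have k3 := sq_exp_le hxi hcpos
      have k4 : Real.exp (-(1 / c0 * (δ / R ^ 2 * y i))) ≤ W i := by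
        simp only [hW]
        apply Real.exp_le_exp.2
        have k5 : (‖h i‖ / R) ^ 2 ≤ 1 / c0 * (δ / R ^ 2 * y i) := by
          rw [one_div, inv_mul_eq_div, le_div_iff₀ (by linarith)]
          linarith [hx i]
        linarith
      rw [e2, ← mul_assoc]
      have k6 : 0 ≤ (δ / R ^ 2 * y i) ^ 2 * Real.exp (-(c * (δ / R ^ 2 * y i))) := by positivity
      exact mul_le_mul k3 k4 (Real.exp_pos _).le (by positivity)
    calc |m i| * |δ / R ^ 2 * y i * Real.exp (-(δ / R ^ 2 * y i)) -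
          (Real.exp (-(δ / R ^ 2 * y i)) - Real.exp (-((1 + ρ) * (δ / R ^ 2 * y i)))) / ρ|
        ≤ ‖w‖ * (ρ / 2 * ((δ / R ^ 2 * y i) ^ 2 * Real.exp (-(δ / R ^ 2 * y i)))) :=
          mul_le_mul (hmB i) k1 (abs_nonneg _) hw0
      _ ≤ ‖w‖ * (ρ / 2 * (2 / c ^ 2 * W i)) := by gcongr
      _ = ‖w‖ * (ρ / 2 * (2 / c ^ 2)) * W i := by ring
      _ ≤ e / 4 * W i := by
        have : 0 ≤ W i := (Real.exp_pos _).le
        gcongr
  have hDs : Summable fun i => T i - (m i * Real.exp (-(δ / R ^ 2 * y i)) -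
      m i * Real.exp (-((1 + ρ) * (δ / R ^ 2) * y i))) / ρ :=
    Summable.of_norm_bounded (hWs.mul_left (e / 4)) fun i => by
      rw [Real.norm_eq_abs]
      exact hD i
  have hTs : ∑' i, T i = (S1 - S2) / ρ + ∑' i, (T i - (m i * Real.exp (-(δ / R ^ 2 * y i)) -
      m i * Real.exp (-((1 + ρ) * (δ / R ^ 2) * y i))) / ρ) := by
    rw [hS1, hS2, ← hms1.tsum_sub hms2, ← tsum_div_const,
      ← ((hms1.sub hms2).div_const ρ).tsum_add hDs]
    refine tsum_congr fun i => ?_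
    ring
  have hDG : |∑' i, (T i - (m i * Real.exp (-(δ / R ^ 2 * y i)) -
      m i * Real.exp (-((1 + ρ) * (δ / R ^ 2) * y i))) / ρ)| ≤ e / 4 * G h R := by
    have k1 := norm_tsum_le_tsum_norm (f := fun i => T i -
      (m i * Real.exp (-(δ / R ^ 2 * y i)) -
      m i * Real.exp (-((1 + ρ) * (δ / R ^ 2) * y i))) / ρ) hDs.norm
    simp only [Real.norm_eq_abs] at k1
    refine k1.trans ?_
    rw [← hWG, ← tsum_mul_left]
    exact hDs.abs.tsum_le_tsum hD (hWs.mul_left _)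
  have hLT : L h (DE a w) R = (∑' i, T i) / G h R := by
    unfold L
    congr 1
    refine tsum_congr fun i => ?_
    have n1 : ‖(h i / (R : ℂ)) ^ 2‖ = ‖h i‖ ^ 2 / R ^ 2 := by
      rw [norm_pow, norm_div, Complex.norm_real, Real.norm_eq_abs, abs_of_pos hR, div_pow]
    have n2 : (w * (h i / (R : ℂ)) ^ 2).re = (w * (h i) ^ 2).re / R ^ 2 := by
      have h3 : w * (h i / (R : ℂ)) ^ 2 = (w * (h i) ^ 2) / ((R ^ 2 : ℝ) : ℂ) := by
        push_cast
        rw [div_pow, mul_div_assoc]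
      rw [h3, Complex.div_ofReal_re]
    unfold DE E
    rw [n1, n2]
    simp only [hT]
    have e3 : m i * (δ / R ^ 2 * y i * Real.exp (-(δ / R ^ 2 * y i))) =
        (δ * y i * m i) / R ^ 2 * Real.exp (-(δ / R ^ 2 * y i)) := by ring
    rw [e3, hym i]
    have e4 : δ / R ^ 2 * y i = ((1 + a) * ‖h i‖ ^ 2 + (w * (h i) ^ 2).re) / R ^ 2 := by
      rw [← h1 (h i)]
      simp only [hy]
      ring
    have e5 : Real.exp (-(δ / R ^ 2 * y i)) = Real.exp (-(‖h i‖ / R) ^ 2) *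
        Real.exp (-(a * (‖h i‖ ^ 2 / R ^ 2) + (w * (h i) ^ 2).re / R ^ 2)) := by
      rw [← Real.exp_add, e4]
      congr 1
      rw [div_pow]
      ring
    rw [e5]
    ring
  rw [hLT, dist_zero_right, Real.norm_eq_abs, abs_div, abs_of_pos hG0, div_lt_iff₀ hG0, hTs]
  have hS1b : |S1| ≤ η * G h R + C := by
    refine b1.trans ?_
    gcongr
  have hS2b : |S2| ≤ η * G h R + C := by
    refine b2.trans ?_
    gcongr
  have hSS : |(S1 - S2) / ρ| ≤ e / 4 * G h R + 2 / ρ * C := by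
    rw [abs_div, abs_of_pos hρ, div_le_iff₀ hρ]
    have k1 : |S1 - S2| ≤ |S1| + |S2| := abs_sub _ _
    have k2 : (e / 4 * G h R + 2 / ρ * C) * ρ = 2 * (η * G h R) + 2 * C := by
      rw [← hηe]
      field_simp
    rw [k2]
    linarith
  have hCe : 2 / ρ * C + e / 4 ≤ e / 4 * G h R := by
    have k1 := mul_le_mul_of_nonneg_left hRG (show 0 ≤ e / 4 by positivity)
    have k2 : e / 4 * (2 / ρ * C * (4 / e) + 1) = 2 / ρ * C + e / 4 := by
      field_simp
    linarith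
  refine lt_of_le_of_lt (abs_add_le _ _) ?_
  have : 0 < e * G h R := by positivity
  linarith

end SAD
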