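import Pool.Agent.Lib.SAD.IsoDbl
import Pool.Agent.Lib.SAD.IsoLap
import Pool.Agent.Lib.SAD.Main

/-!
# One Fourier coefficient suffices (MP_d36302_an)
-/

open Filter Topology MeasureTheory Set
open scoped MatrixGroups

namespace SAD

open TransSurf

variable {ι : Type*} {h : ι → ℂ}

theorem leb_of_iso (hf : LocFin h) (hs : ∃ σ : Equiv.Perm ι, ∀ i, h (σ i) = -h i)
    (hlow : ∃ c : ℝ, 0 < c ∧ ∀ᶠ R in atTop, c * R ≤ N h R) {ε : ℝ} (hε : 0 < ε)
    (hc : ∀ A : SL(2, ℝ), (∀ i j, |A i j - (1 : Matrix (Fin 2) (Fin 2) ℝ) i j| < ε) →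
      Iso (fun i => act A (h i))) : LebLim h := by
  have hg : GReg h := GReg.of_doubling hf hlow (doubling_of_iso hf hε hc)
  obtain ⟨κ, hκ0, hκ1, hκ⟩ := exists_matrix' hε
  have haff : AffLim h (κ / 2) := affLim_of_DE hg hκ0 hκ1 fun a w ha hw => by
    obtain ⟨A, hA, h1, h2⟩ := hκ a w ha hw
    refine tendsto_L_DE hg ha ?_ h1 h2 (hc A hA)
    nlinarith
  exact leb_of_tendsto_L hg hs
    (tendsto_L_of_affine hf hlow hg (by positivity) (by linarith) haff)

namespace IsoMainAux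

theorem dirSum_lin {k : ι → ℂ} (hk : LocFin k) (f g : ℂ → ℝ) (a b R : ℝ) :
    dirSum k (fun u => a * f u + b * g u) R = a * dirSum k f R + b * dirSum k g R := by
  have hfin := hk.2 R
  unfold dirSum
  rw [finsum_mem_eq_finite_toFinset_sum _ hfin, finsum_mem_eq_finite_toFinset_sum _ hfin,
    finsum_mem_eq_finite_toFinset_sum _ hfin, Finset.sum_add_distrib, Finset.mul_sum,
    Finset.mul_sum]

/-- A small rotation. -/
noncomputable def rot (c s : ℝ) (h : c ^ 2 + s ^ 2 = 1) : SL(2, ℝ) :=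
  ⟨!![c, -s; s, c], by rw [Matrix.det_fin_two_of]; linarith⟩

theorem act_rot {c s : ℝ} (h : c ^ 2 + s ^ 2 = 1) (z : ℂ) :
    act (rot c s h) z = (⟨c, s⟩ : ℂ) * z := by
  apply Complex.ext
  · show c * z.re + -s * z.im = _
    rw [Complex.mul_re]
    ring
  · show s * z.re + c * z.im = _
    rw [Complex.mul_im]
    ring

theorem norm_act_rot {c s : ℝ} (h : c ^ 2 + s ^ 2 = 1) (z : ℂ) :
    ‖act (rot c s h) z‖ = ‖z‖ := by
  rw [act_rot, norm_mul]
  have : ‖(⟨c, s⟩ : ℂ)‖ = 1 := by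
    rw [← sq_eq_sq₀ (norm_nonneg _) (by norm_num), Complex.sq_norm, Complex.normSq_apply]
    show c * c + s * s = 1 ^ 2
    linarith
  rw [this, one_mul]

theorem harm_rot {c s : ℝ} (h : c ^ 2 + s ^ 2 = 1) (u : ℂ) :
    (act (rot c s h) u).re ^ 2 - (act (rot c s h) u).im ^ 2 =
      (c ^ 2 - s ^ 2) * (u.re ^ 2 - u.im ^ 2) + (-(4 * c * s)) * (u.re * u.im) := by
  rw [act_rot, Complex.mul_re, Complex.mul_im]
  ring

theorem harm_eq (w u : ℂ) : (w * u ^ 2).re =
    w.re * (u.re ^ 2 - u.im ^ 2) + (-(2 * w.im)) * (u.re * u.im) := by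
  rw [pow_two, Complex.mul_re, Complex.mul_re, Complex.mul_im]
  ring

/-- Near the identity, one real harmonic of all nearby surfaces gives both. -/
theorem iso_of_near (hf : LocFin h) {ε : ℝ} (hε : 0 < ε)
    (hc : ∀ A : SL(2, ℝ), (∀ i j, |A i j - (1 : Matrix (Fin 2) (Fin 2) ℝ) i j| < ε) →
      Tendsto (fun R => dirSum (fun i => act A (h i)) (fun u => u.re ^ 2 - u.im ^ 2) R /
        N (fun i => act A (h i)) R) atTop (𝓝 0)) :
    ∃ ε' : ℝ, 0 < ε' ∧
      ∀ A : SL(2, ℝ), (∀ i j, |A i j - (1 : Matrix (Fin 2) (Fin 2) ℝ) i j| < ε') →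
        Iso (fun i => act A (h i)) := by
  obtain ⟨s, hs0, hs1, hs2⟩ : ∃ s : ℝ, 0 < s ∧ s ≤ 1 / 2 ∧ s ≤ ε / 16 :=
    ⟨min (1 / 2) (ε / 16), by positivity, min_le_left _ _, min_le_right _ _⟩
  obtain ⟨c, hcd⟩ : ∃ c : ℝ, c = √(1 - s ^ 2) := ⟨_, rfl⟩
  have hc2 : c ^ 2 = 1 - s ^ 2 := by
    rw [hcd]
    exact Real.sq_sqrt (by nlinarith)
  have hc0 : 0 < c := by
    rw [hcd]
    exact Real.sqrt_pos.2 (by nlinarith)
  have hc1 : c ≤ 1 := by nlinarith
  have hc3 : 1 - s ≤ c := by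
    rw [hcd]
    apply Real.le_sqrt_of_sq_le
    nlinarith
  have hcs : c ^ 2 + s ^ 2 = 1 := by linarith
  obtain ⟨ε', hε', he1, he2⟩ : ∃ ε' : ℝ, 0 < ε' ∧ ε' ≤ 1 ∧ ε' ≤ ε / 4 :=
    ⟨min 1 (ε / 4), by positivity, min_le_left _ _, min_le_right _ _⟩
  refine ⟨ε', hε', fun A hA w => ?_⟩
  have hfA := hf.act A
  have h0 := hc A (fun i j => (hA i j).trans_le (by linarith))
  -- the rotated surface
  have hB : ∀ i j, |(rot c s hcs * A) i j - (1 : Matrix (Fin 2) (Fin 2) ℝ) i j| < ε := by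
    have a00 := abs_lt.1 (hA 0 0)
    have a01 := abs_lt.1 (hA 0 1)
    have a10 := abs_lt.1 (hA 1 0)
    have a11 := abs_lt.1 (hA 1 1)
    simp only [Matrix.one_apply_eq, ne_eq, Fin.isValue, zero_ne_one, not_false_eq_true,
      Matrix.one_apply_ne, one_ne_zero, sub_zero] at a00 a01 a10 a11
    have r00 : (rot c s hcs) 0 0 = c := rfl
    have r01 : (rot c s hcs) 0 1 = -s := rfl
    have r10 : (rot c s hcs) 1 0 = s := rfl
    have r11 : (rot c s hcs) 1 1 = c := rfl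
    have e00 : (rot c s hcs * A) 0 0 = c * A 0 0 - s * A 1 0 := by
      rw [Matrix.SpecialLinearGroup.coe_mul, Matrix.mul_apply, Fin.sum_univ_two, r00, r01]
      ring
    have e01 : (rot c s hcs * A) 0 1 = c * A 0 1 - s * A 1 1 := by
      rw [Matrix.SpecialLinearGroup.coe_mul, Matrix.mul_apply, Fin.sum_univ_two, r00, r01]
      ring
    have e10 : (rot c s hcs * A) 1 0 = s * A 0 0 + c * A 1 0 := by
      rw [Matrix.SpecialLinearGroup.coe_mul, Matrix.mul_apply, Fin.sum_univ_two, r10, r11]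
    have e11 : (rot c s hcs * A) 1 1 = s * A 0 1 + c * A 1 1 := by
      rw [Matrix.SpecialLinearGroup.coe_mul, Matrix.mul_apply, Fin.sum_univ_two, r10, r11]
    intro i j
    fin_cases i <;> fin_cases j
    · show |(rot c s hcs * A) 0 0 - (1 : Matrix (Fin 2) (Fin 2) ℝ) 0 0| < ε
      rw [e00, Matrix.one_apply_eq, abs_lt]
      constructor <;> nlinarith
    · show |(rot c s hcs * A) 0 1 - (1 : Matrix (Fin 2) (Fin 2) ℝ) 0 1| < ε
      rw [e01, Matrix.one_apply_ne (by decide), abs_lt]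
      constructor <;> nlinarith
    · show |(rot c s hcs * A) 1 0 - (1 : Matrix (Fin 2) (Fin 2) ℝ) 1 0| < ε
      rw [e10, Matrix.one_apply_ne (by decide), abs_lt]
      constructor <;> nlinarith
    · show |(rot c s hcs * A) 1 1 - (1 : Matrix (Fin 2) (Fin 2) ℝ) 1 1| < ε
      rw [e11, Matrix.one_apply_eq, abs_lt]
      constructor <;> nlinarith
  have h1 := hc (rot c s hcs * A) hB
  have hN : N (fun i => act (rot c s hcs * A) (h i)) = N (fun i => act A (h i)) := by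
    funext R
    unfold N
    simp only [act_mul, norm_act_rot]
  have hd : ∀ R, dirSum (fun i => act (rot c s hcs * A) (h i)) (fun u => u.re ^ 2 - u.im ^ 2) R =
      (c ^ 2 - s ^ 2) * dirSum (fun i => act A (h i)) (fun u => u.re ^ 2 - u.im ^ 2) R +
        (-(4 * c * s)) * dirSum (fun i => act A (h i)) (fun u => u.re * u.im) R := by
    intro R
    rw [← dirSum_lin hfA]
    unfold dirSum
    simp only [act_mul, norm_act_rot, ← act_div, harm_rot]
  rw [hN] at h1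
  have h2 : Tendsto (fun R => dirSum (fun i => act A (h i)) (fun u => u.re * u.im) R /
      N (fun i => act A (h i)) R) atTop (𝓝 0) := by
    have h3 := ((h0.const_mul (c ^ 2 - s ^ 2)).sub h1).div_const (4 * c * s)
    rw [mul_zero, sub_zero, zero_div] at h3
    refine h3.congr fun R => ?_
    rw [hd R]
    have : 4 * c * s ≠ 0 := by positivity
    field_simp
    ring
  have h4 := (h0.const_mul w.re).add (h2.const_mul (-(2 * w.im)))
  rw [mul_zero, mul_zero, add_zero] at h4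
  refine h4.congr fun R => ?_
  have e1 : dirSum (fun i => act A (h i)) (fun u => (w * u ^ 2).re) R =
      w.re * dirSum (fun i => act A (h i)) (fun u => u.re ^ 2 - u.im ^ 2) R +
        (-(2 * w.im)) * dirSum (fun i => act A (h i)) (fun u => u.re * u.im) R := by
    rw [← dirSum_lin hfA]
    simp only [harm_eq]
  rw [e1]
  ring

theorem average_harm : Real.circleAverage (fun u : ℂ => u.re ^ 2 - u.im ^ 2) 0 1 = 0 := by
  rw [Real.circleAverage_def]
  have h1 : ∀ θ : ℝ, (circleMap 0 1 θ).re ^ 2 - (circleMap 0 1 θ).im ^ 2 =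
      Real.cos θ ^ 2 - Real.sin θ ^ 2 := by
    intro θ
    simp [circleMap, Complex.exp_ofReal_mul_I_re, Complex.exp_ofReal_mul_I_im]
  simp only [h1]
  rw [integral_cos_sq_sub_sin_sq]
  simp

theorem dirSum_push (X : TransSurf) (A : SL(2, ℝ)) :
    dirSum (X.push A).hol = dirSum (fun s => act A (X.hol s)) := by
  obtain ⟨σ, hσ⟩ := exists_equiv_push X A
  exact dirSum_congr σ hσ

theorem exists_box (I : Fin 2 → Fin 2 → ℝ) (W : Set (Fin 2 → Fin 2 → ℝ)) (hW : IsOpen W)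
    (hI : I ∈ W) : ∃ ε : ℝ, 0 < ε ∧ ∀ M : Fin 2 → Fin 2 → ℝ,
      (∀ i j, |M i j - I i j| < ε) → M ∈ W := by
  obtain ⟨ε, hε, h3⟩ := Metric.isOpen_iff.1 hW I hI
  refine ⟨ε, hε, fun M hM => h3 ?_⟩
  rw [Metric.mem_ball, dist_pi_lt_iff hε]
  intro i
  rw [dist_pi_lt_iff hε]
  intro j
  rw [Real.dist_eq]
  exact hM i j

end IsoMainAux

open IsoMainAux

theorem main_harm (X : TransSurf) :
    List.TFAE [
      ∀ A : SL(2, ℝ), Equi (X.push A).hol,
      ∀ A : SL(2, ℝ), Tendsto (fun R => dirSum (X.push A).hol (fun u => u.re ^ 2 - u.im ^ 2) R /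
        N (X.push A).hol R) atTop (𝓝 0),
      ∃ ε : ℝ, 0 < ε ∧ ∀ A : SL(2, ℝ),
        (∀ i j, |A i j - (1 : Matrix (Fin 2) (Fin 2) ℝ) i j| < ε) →
        Tendsto (fun R => dirSum (X.push A).hol (fun u => u.re ^ 2 - u.im ^ 2) R /
          N (X.push A).hol R) atTop (𝓝 0)] := by
  tfae_have 1 → 2 := by
    intro h A
    have h1 := h A (fun u => u.re ^ 2 - u.im ^ 2) (by fun_prop)
    rwa [average_harm] at h1
  tfae_have 2 → 3 := fun h => ⟨1, one_pos, fun A _ => h A⟩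
  tfae_have 3 → 1 := by
    rintro ⟨ε, hε, h⟩
    have h1 : ∀ A : SL(2, ℝ), (∀ i j, |A i j - (1 : Matrix (Fin 2) (Fin 2) ℝ) i j| < ε) →
        Tendsto (fun R => dirSum (fun s => act A (X.hol s)) (fun u => u.re ^ 2 - u.im ^ 2) R /
          N (fun s => act A (X.hol s)) R) atTop (𝓝 0) := by
      intro A hA
      have h2 := h A hA
      rwa [N_push, dirSum_push] at h2
    obtain ⟨ε', hε', h2⟩ := iso_of_near X.locFin hε h1
    have h3 := leb_of_iso X.locFin (exists_reverse X) (linear_lower X) hε' h2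
    exact ((main X).out 6 0).1 h3
  tfae_finish

/-- A nonempty open set of matrices suffices. -/
theorem main_harm_open (X : TransSurf) :
    List.TFAE [
      ∀ A : SL(2, ℝ), Equi (X.push A).hol,
      ∀ A : SL(2, ℝ), Tendsto (fun R => dirSum (X.push A).hol (fun u => u.re ^ 2 - u.im ^ 2) R /
        N (X.push A).hol R) atTop (𝓝 0),
      ∃ U : Set SL(2, ℝ), IsOpen U ∧ U.Nonempty ∧ ∀ A ∈ U,
        Tendsto (fun R => dirSum (X.push A).hol (fun u => u.re ^ 2 - u.im ^ 2) R /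
          N (X.push A).hol R) atTop (𝓝 0)] := by
  tfae_have 1 ↔ 2 := (main_harm X).out 0 1
  tfae_have 2 → 3 := fun h => ⟨Set.univ, isOpen_univ, ⟨1, trivial⟩, fun A _ => h A⟩
  tfae_have 3 → 1 := by
    rintro ⟨U, hU, ⟨B, hB⟩, h⟩
    have hV : IsOpen ((fun A : SL(2, ℝ) => A * B) ⁻¹' U) :=
      hU.preimage (continuous_mul_const B)
    have h1 : (1 : SL(2, ℝ)) ∈ (fun A : SL(2, ℝ) => A * B) ⁻¹' U := by
      show 1 * B ∈ U
      rwa [one_mul]
    obtain ⟨W, hW, hWV⟩ := isOpen_induced_iff.1 hV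
    have hWV' : ∀ A : SL(2, ℝ), A.1 ∈ W ↔ A * B ∈ U := fun A => Set.ext_iff.1 hWV A
    have h1W : (1 : Matrix (Fin 2) (Fin 2) ℝ) ∈ W := (hWV' 1).2 h1
    obtain ⟨ε, hε, hball⟩ : ∃ ε : ℝ, 0 < ε ∧ ∀ M : Matrix (Fin 2) (Fin 2) ℝ,
        (∀ i j, |M i j - (1 : Matrix (Fin 2) (Fin 2) ℝ) i j| < ε) → M ∈ W := by
      exact exists_box (1 : Matrix (Fin 2) (Fin 2) ℝ) W hW h1W
    have key := ((main_harm (X.push B)).out 2 0 :).1 ⟨ε, hε, fun A hA => by
      have h4 : A * B ∈ U := (hWV' A).1 (hball A.1 hA)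
      have h5 := h (A * B) h4
      rw [N_push, dirSum_push] at h5 ⊢
      obtain ⟨σ, hσ⟩ := exists_equiv_push X B
      have e1 : N (fun s => act A ((X.push B).hol s)) = N (fun s => act (A * B) (X.hol s)) := by
        refine N_congr σ fun s => ?_
        rw [act_mul, hσ]
      have e2 : dirSum (fun s => act A ((X.push B).hol s)) =
          dirSum (fun s => act (A * B) (X.hol s)) := by
        refine dirSum_congr σ fun s => ?_
        rw [act_mul, hσ]
      rw [e1, e2]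
      exact h5⟩
    intro A
    have h6 := key (A * B⁻¹)
    rw [Equi_push] at h6 ⊢
    obtain ⟨σ, hσ⟩ := exists_equiv_push X B
    rwa [Equi_congr (h := fun s => act (A * B⁻¹) ((X.push B).hol s))
      (k := fun s => act A (X.hol s)) σ (fun s => by
        rw [hσ, ← act_mul, inv_mul_cancel_right])] at h6
  tfae_finish

end SAD
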