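import Pool.Agent.Lib.SAD.AnyLap
import Pool.Agent.Lib.SAD.AnyRel
import Pool.Agent.Lib.SAD.AnySig
import Pool.Agent.Lib.SAD.AnyFin
import Pool.Agent.Lib.SAD.IsoMain

/-!
# Any one Fourier coefficient suffices under quadratic growth (MP_d36302_an)
-/

open Filter Topology MeasureTheory Set
open scoped MatrixGroups

namespace SAD

open TransSurf

variable {ι : Type*} {h : ι → ℂ}

theorem lapK_desc (hf : LocFin h) (hq : Quad h) {m : ℕ} (hm : 1 ≤ m)
    (hL : ∀ A : SL(2, ℝ), LapK (m + 1) (fun i => act A (h i))) : LapK m h :=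
  fun c _ hτ => fin_step (greg_of_quad hf hq) hm c
    (fun _ hτ => sig hf hq hm c (fun _ hτ => rel hf hq hL c hτ) hτ) hτ

theorem lapK_desc_all (hf : LocFin h) (hq : Quad h) {m : ℕ} (hm : 1 ≤ m)
    (hL : ∀ A : SL(2, ℝ), LapK (m + 1) (fun i => act A (h i))) (A : SL(2, ℝ)) :
    LapK m (fun i => act A (h i)) := by
  refine lapK_desc (hf.act A) (quad_act hf hq A) hm fun B => ?_
  have := hL (B * A)
  simpa only [act_mul] using this

theorem lapK_one (hf : LocFin h) (hq : Quad h) (k : ℕ)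
    (hL : ∀ A : SL(2, ℝ), LapK (k + 1) (fun i => act A (h i))) (A : SL(2, ℝ)) :
    LapK 1 (fun i => act A (h i)) := by
  induction k with
  | zero => exact hL A
  | succ k ih => exact ih fun B => lapK_desc_all hf hq (by omega) hL B

theorem DE_of_lapK (hf : LocFin h) (hq : Quad h) {A : SL(2, ℝ)} {a : ℝ} {w : ℂ} (ha : 0 < a)
    (hw : ‖w‖ ≤ a / 2)
    (h1 : ∀ v : ℂ, √((1 + a) ^ 2 - ‖w‖ ^ 2) * ‖act A v‖ ^ 2 =
        (1 + a) * ‖v‖ ^ 2 + (w * v ^ 2).re)
    (h2 : ∀ v : ℂ, √((1 + a) ^ 2 - ‖w‖ ^ 2) * (w * (act A v) ^ 2).re =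
        (1 + a) * (w * v ^ 2).re + ‖w‖ ^ 2 * ‖v‖ ^ 2)
    (hL : LapK 1 (fun i => act A (h i))) :
    Tendsto (fun R => L h (DE a w) R) atTop (𝓝 0) := by
  have hw0 := norm_nonneg w
  set δ : ℝ := √((1 + a) ^ 2 - ‖w‖ ^ 2) with hδ
  have hδ1 : 1 < δ := by
    apply Real.lt_sqrt_of_sq_lt
    nlinarith
  have hg := greg_of_quad hf hq
  have hgA := greg_of_quad (hf.act A) (quad_act hf hq A)
  obtain ⟨K, hK, hGK⟩ := G_act_le hf hq A
  have hlim := hL w δ hδ1
  have key : ∀ R : ℝ, 0 < R → L h (DE a w) R =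
      δ * (G (fun i => act A (h i)) R / G h R) * L (fun i => act A (h i)) (TF 1 w δ) R := by
    intro R hR
    have hG := hg.G_pos hR
    have hGA := hgA.G_pos hR
    have e : L (fun i => act A (h i)) (TF 1 w δ) R * G (fun i => act A (h i)) R =
        ∑' i, Real.exp (-(‖act A (h i)‖ / R) ^ 2) * TF 1 w δ ((act A (h i) / (R : ℂ)) ^ 2) := by
      unfold L
      rw [div_mul_cancel₀ _ hGA.ne']
    have e2 : L h (DE a w) R = (δ * ∑' i, Real.exp (-(‖act A (h i)‖ / R) ^ 2) *
        TF 1 w δ ((act A (h i) / (R : ℂ)) ^ 2)) / G h R := by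
      unfold L
      rw [← tsum_mul_left]
      congr 1
      refine tsum_congr fun i => ?_
      have n1 : ∀ v : ℂ, ‖(v / (R : ℂ)) ^ 2‖ = ‖v‖ ^ 2 / R ^ 2 := by
        intro v
        rw [norm_pow, norm_div, Complex.norm_real, Real.norm_eq_abs, abs_of_pos hR, div_pow]
      have n2 : ∀ v : ℂ, (w * (v / (R : ℂ)) ^ 2).re = (w * v ^ 2).re / R ^ 2 := by
        intro v
        have h3 : w * (v / (R : ℂ)) ^ 2 = (w * v ^ 2) / ((R ^ 2 : ℝ) : ℂ) := by
          push_cast
          rw [div_pow, mul_div_assoc]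
        rw [h3, Complex.div_ofReal_re]
      unfold DE E TF
      rw [pow_one, n1, n2, n1, n2]
      have q1 := h1 (h i)
      have q2 := h2 (h i)
      have x1 : (1 + a) * ((w * h i ^ 2).re / R ^ 2) + ‖w‖ ^ 2 * (‖h i‖ ^ 2 / R ^ 2) =
          δ * ((w * act A (h i) ^ 2).re / R ^ 2) := by
        rw [← mul_div_assoc, ← mul_div_assoc, ← mul_div_assoc, ← add_div, q2]
      rw [x1]
      have x2 : Real.exp (-(‖h i‖ / R) ^ 2) *
          Real.exp (-(a * (‖h i‖ ^ 2 / R ^ 2) + (w * h i ^ 2).re / R ^ 2)) =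
          Real.exp (-(‖act A (h i)‖ / R) ^ 2) *
          Real.exp (-((δ - 1) * (‖act A (h i)‖ ^ 2 / R ^ 2))) := by
        rw [← Real.exp_add, ← Real.exp_add]
        congr 1
        have x3 : δ * (‖act A (h i)‖ ^ 2 / R ^ 2) =
            ((1 + a) * ‖h i‖ ^ 2 + (w * h i ^ 2).re) / R ^ 2 := by
          rw [← q1]; ring
        rw [div_pow, div_pow]
        have x4 : (δ - 1) * (‖act A (h i)‖ ^ 2 / R ^ 2) =
            δ * (‖act A (h i)‖ ^ 2 / R ^ 2) - ‖act A (h i)‖ ^ 2 / R ^ 2 := by ring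
        rw [x4, x3]
        ring
      calc Real.exp (-(‖h i‖ / R) ^ 2) * (δ * ((w * act A (h i) ^ 2).re / R ^ 2) *
            Real.exp (-(a * (‖h i‖ ^ 2 / R ^ 2) + (w * h i ^ 2).re / R ^ 2)))
          = δ * ((w * act A (h i) ^ 2).re / R ^ 2) * (Real.exp (-(‖h i‖ / R) ^ 2) *
            Real.exp (-(a * (‖h i‖ ^ 2 / R ^ 2) + (w * h i ^ 2).re / R ^ 2))) := by ring
        _ = _ := by rw [x2]; ring
    rw [e2, ← e]
    field_simp
  have hz : Tendsto (fun R => δ * K * |L (fun i => act A (h i)) (TF 1 w δ) R|) atTop (𝓝 0) := by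
    have := (hlim.abs).const_mul (δ * K)
    simpa using this
  refine squeeze_zero_norm' ?_ hz
  filter_upwards [hGK, eventually_gt_atTop 0] with R hR hR0
  rw [key R hR0, Real.norm_eq_abs, abs_mul]
  have hG := hg.G_pos hR0
  have hGA := hgA.G_pos hR0
  have hb : |δ * (G (fun i => act A (h i)) R / G h R)| ≤ δ * K := by
    rw [abs_of_nonneg (by positivity)]
    have : G (fun i => act A (h i)) R / G h R ≤ K := by
      rw [div_le_iff₀ hG]
      exact hR
    gcongr
  gcongr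

theorem leb_of_lapK (hf : LocFin h) (hs : ∃ σ : Equiv.Perm ι, ∀ i, h (σ i) = -h i)
    (hlow : ∃ c : ℝ, 0 < c ∧ ∀ᶠ R in atTop, c * R ≤ N h R) (hq : Quad h)
    (hL : ∀ A : SL(2, ℝ), LapK 1 (fun i => act A (h i))) : LebLim h := by
  have hg : GReg h := greg_of_quad hf hq
  obtain ⟨κ, hκ0, hκ1, hκ⟩ := exists_matrix' one_pos
  have haff : AffLim h (κ / 2) := affLim_of_DE hg hκ0 hκ1 fun a w ha hw => by
    obtain ⟨A, -, h1, h2⟩ := hκ a w ha hw
    refine DE_of_lapK hf hq ha ?_ h1 h2 (hL A)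
    nlinarith
  exact leb_of_tendsto_L hg hs
    (tendsto_L_of_affine hf hlow hg (by positivity) (by linarith) haff)

namespace AnyMainAux

open IsoMainAux

theorem harm_eq (c x : ℂ) : (c * x).re = c.re * x.re + c.im * (Complex.I * x).re := by
  simp [Complex.mul_re]
  ring

/-- One real harmonic of all `A h` gives both. -/
theorem harmK_of_re (hf : LocFin h) {k : ℕ} (hk : 1 ≤ k)
    (hc : ∀ A : SL(2, ℝ), Tendsto (fun R => dirSum (fun i => act A (h i))
      (fun u => (u ^ (2 * k)).re) R / N (fun i => act A (h i)) R) atTop (𝓝 0)) (A : SL(2, ℝ)) :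
    HarmK k (fun i => act A (h i)) := by
  intro w
  obtain ⟨φ, hφ⟩ : ∃ φ : ℝ, φ = Real.pi / (4 * k) := ⟨_, rfl⟩
  have hk0 : (k : ℝ) ≠ 0 := by
    have : (1 : ℝ) ≤ k := by exact_mod_cast hk
    linarith
  have hcs : Real.cos φ ^ 2 + Real.sin φ ^ 2 = 1 := Real.cos_sq_add_sin_sq φ
  have hr : (⟨Real.cos φ, Real.sin φ⟩ : ℂ) = Complex.exp (φ * Complex.I) := by
    apply Complex.ext
    · rw [Complex.exp_ofReal_mul_I_re]
    · rw [Complex.exp_ofReal_mul_I_im]
  have hr2 : (⟨Real.cos φ, Real.sin φ⟩ : ℂ) ^ (2 * k) = Complex.I := by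
    rw [hr, ← Complex.exp_nat_mul]
    have : ((2 * k : ℕ) : ℂ) * (φ * Complex.I) = ((Real.pi / 2 : ℝ) : ℂ) * Complex.I := by
      have h3 : ((2 * k : ℕ) : ℝ) * φ = Real.pi / 2 := by
        rw [hφ]
        push_cast
        field_simp
        norm_num
      rw [← h3]
      push_cast
      ring
    rw [this]
    push_cast
    exact Complex.exp_pi_div_two_mul_I
  have hfA := hf.act A
  have h0 := hc A
  have h1 := hc (rot (Real.cos φ) (Real.sin φ) hcs * A)
  have hN : N (fun i => act (rot (Real.cos φ) (Real.sin φ) hcs * A) (h i)) =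
      N (fun i => act A (h i)) := by
    funext R
    unfold N
    simp only [act_mul, norm_act_rot]
  have hd : ∀ R, dirSum (fun i => act (rot (Real.cos φ) (Real.sin φ) hcs * A) (h i))
      (fun u => (u ^ (2 * k)).re) R =
      dirSum (fun i => act A (h i)) (fun u => (Complex.I * u ^ (2 * k)).re) R := by
    intro R
    unfold dirSum
    simp only [act_mul, norm_act_rot, ← act_div]
    simp only [act_rot, mul_pow, hr2]
  rw [hN] at h1
  have h2 := (h0.const_mul w.re).add (h1.const_mul w.im)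
  rw [mul_zero, mul_zero, add_zero] at h2
  refine h2.congr fun R => ?_
  rw [hd R]
  have e1 : dirSum (fun i => act A (h i)) (fun u => (w * u ^ (2 * k)).re) R =
      w.re * dirSum (fun i => act A (h i)) (fun u => (u ^ (2 * k)).re) R +
        w.im * dirSum (fun i => act A (h i)) (fun u => (Complex.I * u ^ (2 * k)).re) R := by
    rw [← dirSum_lin hfA]
    congr 1
    funext u
    exact harm_eq w _
  rw [e1]
  ring

theorem average_harmK {k : ℕ} (hk : 1 ≤ k) :
    Real.circleAverage (fun u : ℂ => (u ^ (2 * k)).re) 0 1 = 0 := by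
  rw [Real.circleAverage_def]
  have h1 : ∀ θ : ℝ, ((circleMap 0 1 θ) ^ (2 * k)).re = Real.cos ((2 * k : ℕ) * θ) := by
    intro θ
    have e : (circleMap 0 1 θ) ^ (2 * k) = Complex.exp ((((2 * k : ℕ) * θ : ℝ) : ℂ) * Complex.I) := by
      simp only [circleMap, zero_add, Complex.ofReal_one, one_mul]
      rw [← Complex.exp_nat_mul]
      congr 1
      push_cast
      ring
    rw [e, Complex.exp_ofReal_mul_I_re]
  simp only [h1]
  have hk0 : ((2 * k : ℕ) : ℝ) ≠ 0 := by
    have : 2 * k ≠ 0 := by omega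
    exact_mod_cast this
  rw [intervalIntegral.integral_comp_mul_left (fun x => Real.cos x) hk0, integral_cos]
  have h2 : Real.sin (((2 * k : ℕ) : ℝ) * (2 * Real.pi)) = 0 := by
    have : ((2 * k : ℕ) : ℝ) * (2 * Real.pi) = ((4 * k : ℕ) : ℝ) * Real.pi := by
      push_cast
      ring
    rw [this]
    exact Real.sin_nat_mul_pi _
  rw [h2]
  simp

end AnyMainAux

open AnyMainAux IsoMainAux

theorem main_any (X : TransSurf) (hX : Quad X.hol) {k : ℕ} (hk : 1 ≤ k) :
    (∀ A : SL(2, ℝ), Equi (X.push A).hol) ↔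
      ∀ A : SL(2, ℝ), Tendsto (fun R => dirSum (X.push A).hol (fun u => (u ^ (2 * k)).re) R /
        N (X.push A).hol R) atTop (𝓝 0) := by
  constructor
  · intro h A
    have h1 := h A (fun u => (u ^ (2 * k)).re)
      (Complex.continuous_re.comp (continuous_pow _))
    rwa [average_harmK hk] at h1
  · intro h
    have h1 : ∀ A : SL(2, ℝ), Tendsto (fun R => dirSum (fun s => act A (X.hol s))
        (fun u => (u ^ (2 * k)).re) R / N (fun s => act A (X.hol s)) R) atTop (𝓝 0) := by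
      intro A
      have h2 := h A
      rwa [N_push, dirSum_push] at h2
    have hf := X.locFin
    have h2 := harmK_of_re hf hk h1
    have h3 : ∀ A : SL(2, ℝ), LapK k (fun s => act A (X.hol s)) := fun A =>
      lapK_of_harmK (hf.act A) (quad_act hf hX A) (h2 A)
    obtain ⟨j, rfl⟩ : ∃ j, k = j + 1 := ⟨k - 1, by omega⟩
    have h4 := lapK_one hf hX j h3
    have h5 := leb_of_lapK hf (exists_reverse X) (linear_lower X) hX h4
    exact ((main X).out 6 0 :).1 h5

end SAD
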