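import Pool.Agent.Lib.SAD.AnyDefs

/-!
# Quadratic growth
-/

open Filter Topology MeasureTheory Set
open scoped MatrixGroups

namespace SAD

variable {ι : Type*} {h : ι → ℂ}

theorem Quad.consts (hq : Quad h) : ∃ c C R₀ : ℝ, 0 < c ∧ 0 < C ∧ 0 < R₀ ∧
    ∀ R : ℝ, R₀ ≤ R → c * R ^ 2 ≤ N h R ∧ N h R ≤ C * R ^ 2 := by
  obtain ⟨c, C, hc, hR⟩ := hq
  obtain ⟨R₁, hR₁⟩ := eventually_atTop.1 hR
  set R₀ : ℝ := max R₁ 1 with hR₀
  have h0 : 0 < R₀ := lt_of_lt_of_le one_pos (le_max_right _ _)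
  have hC : 0 < C := by
    have h1 := hR₁ R₀ (le_max_left _ _)
    have h2 : 0 < R₀ ^ 2 := by positivity
    by_contra hcon
    rw [not_lt] at hcon
    have h3 : 0 < c * R₀ ^ 2 := by positivity
    have h4 : C * R₀ ^ 2 ≤ 0 := mul_nonpos_of_nonpos_of_nonneg hcon h2.le
    linarith [h1.1, h1.2]
  exact ⟨c, C, R₀, hc, hC, h0, fun R hR => hR₁ R ((le_max_left _ _).trans hR)⟩

/-- PROOF. With `K` from `exists_norm_act_le A`: `N h (R / K) ≤ N (A h) R ≤ N h (K R)` (inclusions of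
finite sets). -/
theorem quad_act (hf : LocFin h) (hq : Quad h) (A : SL(2, ℝ)) :
    Quad (fun i => act A (h i)) := by
  obtain ⟨c, C, R₀, hc, hC, hR₀, hR⟩ := hq.consts
  obtain ⟨K, hK, h1, h2⟩ := exists_norm_act_le A
  refine ⟨c / K ^ 2, C * K ^ 2, by positivity, ?_⟩
  filter_upwards [eventually_ge_atTop (K * R₀), eventually_ge_atTop (R₀ / K),
    eventually_gt_atTop 0] with R hRK hRK' hR0
  have hsub1 : {i | ‖h i‖ ≤ R / K} ⊆ {i | ‖act A (h i)‖ ≤ R} := by
    intro i hi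
    have hi' : ‖h i‖ ≤ R / K := hi
    have h3 : K * ‖h i‖ ≤ R := by
      rw [le_div_iff₀ hK] at hi'
      linarith
    exact (h1 (h i)).trans h3
  have hsub2 : {i | ‖act A (h i)‖ ≤ R} ⊆ {i | ‖h i‖ ≤ K * R} := by
    intro i hi
    have hi' : ‖act A (h i)‖ ≤ R := hi
    exact (h2 (h i)).trans (mul_le_mul_of_nonneg_left hi' hK.le)
  have hfin : {i | ‖act A (h i)‖ ≤ R}.Finite := (hf.2 _).subset hsub2
  have h3 : N h (R / K) ≤ N (fun i => act A (h i)) R := by
    unfold N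
    exact_mod_cast Set.ncard_le_ncard hsub1 hfin
  have h4 : N (fun i => act A (h i)) R ≤ N h (K * R) := by
    unfold N
    exact_mod_cast Set.ncard_le_ncard hsub2 (hf.2 _)
  have h5 : R₀ ≤ R / K := by
    rw [le_div_iff₀ hK]
    linarith
  have h6 : R₀ ≤ K * R := by
    rw [div_le_iff₀ hK] at hRK'
    linarith
  have h7 := (hR _ h5).1
  have h8 := (hR _ h6).2
  constructor
  · calc c / K ^ 2 * R ^ 2 = c * (R / K) ^ 2 := by field_simp
      _ ≤ _ := h7.trans h3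
  · calc _ ≤ C * (K * R) ^ 2 := h4.trans h8
      _ = _ := by ring

/-- PROOF. `GReg.of_doubling` with `l = 2`, `K = 4 C / c`, constant `N h (2 R₀)`, where
`c R² ≤ N h R ≤ C R²` for `R ≥ R₀`. -/
theorem greg_of_quad (hf : LocFin h) (hq : Quad h) : GReg h := by
  obtain ⟨c, C, R₀, hc, hC, hR₀, hR⟩ := hq.consts
  refine GReg.of_doubling hf ⟨c, hc, ?_⟩ ⟨2, 4 * C / c, N h (2 * R₀), by norm_num, by positivity,
    N_nonneg _ _, ?_⟩
  · filter_upwards [eventually_ge_atTop R₀, eventually_ge_atTop 1] with R h1 h2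
    refine le_trans ?_ (hR R h1).1
    have h3 : R ≤ R ^ 2 := by nlinarith
    exact mul_le_mul_of_nonneg_left h3 hc.le
  · intro R h0
    have hN := N_nonneg h R
    rcases le_total R₀ R with h1 | h1
    · have h2 := (hR (2 * R) (by linarith)).2
      have h3 := (hR R h1).1
      have h4 : C * (2 * R) ^ 2 = 4 * C / c * (c * R ^ 2) := by
        field_simp
        ring
      have h5 : 4 * C / c * (c * R ^ 2) ≤ 4 * C / c * N h R :=
        mul_le_mul_of_nonneg_left h3 (by positivity)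
      have h6 := N_nonneg h (2 * R₀)
      linarith
    · have h2 : N h (2 * R) ≤ N h (2 * R₀) := N_mono hf (by linarith)
      have h3 : 0 ≤ 4 * C / c * N h R := by positivity
      linarith

open LaplaceAux in
/-- `tsum_exp_le` for two families with different index types. -/
theorem tsum_exp_le' {ι κ : Type*} {x : κ → ℝ} {y : ι → ℝ} (hx0 : ∀ i, 0 ≤ x i)
    (hy0 : ∀ i, 0 ≤ y i)
    (hxf : ∀ s : ℝ, {i | x i ≤ s}.Finite) (hyf : ∀ s : ℝ, {i | y i ≤ s}.Finite)
    {K C : ℝ} (hK : 0 ≤ K) (hC : 0 ≤ C)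
    (hle : ∀ s : ℝ, 0 ≤ s → ({i | y i ≤ s}.ncard : ℝ) ≤ K * ({i | x i ≤ s}.ncard : ℝ) + C)
    {t : ℝ} (ht : 0 < t) (hs : Summable fun i => Real.exp (-(t * x i))) :
    Summable (fun i => Real.exp (-(t * y i))) ∧
      ∑' i, Real.exp (-(t * y i)) ≤ K * ∑' i, Real.exp (-(t * x i)) + C := by
  have hm : Measurable fun s : ℝ => ENNReal.ofReal (t * Real.exp (-(t * s))) := by
    fun_prop
  have hX : ∑' i, ENNReal.ofReal (Real.exp (-(t * x i))) =
      ENNReal.ofReal (∑' i, Real.exp (-(t * x i))) :=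
    (ENNReal.ofReal_tsum_of_nonneg (fun i => (Real.exp_pos _).le) hs).symm
  have hX0 : 0 ≤ ∑' i, Real.exp (-(t * x i)) := tsum_nonneg fun i => (Real.exp_pos _).le
  have h1 : ∑' i, ENNReal.ofReal (Real.exp (-(t * y i))) ≤
      ENNReal.ofReal (K * ∑' i, Real.exp (-(t * x i)) + C) := by
    calc ∑' i, ENNReal.ofReal (Real.exp (-(t * y i)))
        = ∫⁻ s in Ioi (0 : ℝ), ENNReal.ofReal (t * Real.exp (-(t * s))) *
            ENNReal.ofReal ({i | y i ≤ s}.ncard : ℝ) := tsum_eq hy0 hyf ht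
      _ ≤ ∫⁻ s in Ioi (0 : ℝ), (ENNReal.ofReal K * (ENNReal.ofReal (t * Real.exp (-(t * s))) *
            ENNReal.ofReal ({i | x i ≤ s}.ncard : ℝ)) +
            ENNReal.ofReal C * ENNReal.ofReal (t * Real.exp (-(t * s)))) := by
          refine setLIntegral_mono' measurableSet_Ioi fun s hs0 => ?_
          have h2 := hle s (le_of_lt hs0)
          calc ENNReal.ofReal (t * Real.exp (-(t * s))) * ENNReal.ofReal ({i | y i ≤ s}.ncard : ℝ)
              ≤ ENNReal.ofReal (t * Real.exp (-(t * s))) *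
                ENNReal.ofReal (K * ({i | x i ≤ s}.ncard : ℝ) + C) := by gcongr
            _ = _ := by
              rw [ENNReal.ofReal_add (by positivity) hC, ENNReal.ofReal_mul hK]
              ring
      _ = ENNReal.ofReal K * ∑' i, ENNReal.ofReal (Real.exp (-(t * x i))) +
            ENNReal.ofReal C * 1 := by
          rw [lintegral_add_right _ (hm.const_mul _), lintegral_const_mul' _ _ ENNReal.ofReal_ne_top,
            lintegral_const_mul' _ _ ENNReal.ofReal_ne_top, ← tsum_eq hx0 hxf ht, lint ht]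
          simp
      _ = ENNReal.ofReal (K * ∑' i, Real.exp (-(t * x i)) + C) := by
          rw [hX, mul_one, ENNReal.ofReal_add (by positivity) hC, ENNReal.ofReal_mul hK]
  have hsum : Summable (fun i => Real.exp (-(t * y i))) := by
    have h3 : ∑' i, ENNReal.ofReal (Real.exp (-(t * y i))) ≠ ⊤ :=
      ne_top_of_le_ne_top ENNReal.ofReal_ne_top h1
    have h4 := ENNReal.summable_toReal h3
    refine h4.congr fun i => ?_
    rw [ENNReal.toReal_ofReal (Real.exp_pos _).le]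
  refine ⟨hsum, ?_⟩
  rw [← ENNReal.ofReal_tsum_of_nonneg (fun i => (Real.exp_pos _).le) hsum] at h1
  exact (ENNReal.ofReal_le_ofReal_iff (by positivity)).1 h1

theorem nat_le_finite (s : ℝ) : {n : ℕ | (n : ℝ) ≤ s}.Finite := by
  refine (Set.finite_Iic ⌊s⌋₊).subset fun n hn => ?_
  exact Nat.le_floor hn

theorem le_ncard_nat {s : ℝ} (hs : 0 ≤ s) : s ≤ ({n : ℕ | (n : ℝ) ≤ s}.ncard : ℝ) := by
  have h1 : (Set.Iic ⌊s⌋₊ : Set ℕ) ⊆ {n : ℕ | (n : ℝ) ≤ s} := by
    intro n hn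
    have hn' : n ≤ ⌊s⌋₊ := hn
    exact (Nat.le_floor_iff hs).1 hn'
  have h2 := Set.ncard_le_ncard h1 (nat_le_finite s)
  have h3 : (Set.Iic ⌊s⌋₊ : Set ℕ).ncard = ⌊s⌋₊ + 1 := by
    rw [← Finset.coe_Iic, Set.ncard_coe_finset, Nat.card_Iic]
  have h4 := Nat.lt_floor_add_one s
  have h5 : ((⌊s⌋₊ + 1 : ℕ) : ℝ) ≤ ({n : ℕ | (n : ℝ) ≤ s}.ncard : ℝ) := by
    exact_mod_cast h3 ▸ h2
  push_cast at h5
  linarith

theorem half_le_one_sub_exp {t : ℝ} (h0 : 0 ≤ t) (h1 : t ≤ 1) : t / 2 ≤ 1 - Real.exp (-t) := by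
  have h2 : Real.exp (-t) ≤ 1 / (1 + t) := by
    rw [Real.exp_neg, ← one_div]
    apply one_div_le_one_div_of_le (by linarith)
    have := Real.add_one_le_exp t
    linarith
  have h3 : 1 / (1 + t) ≤ 1 - t / 2 := by
    rw [div_le_iff₀ (by linarith)]
    nlinarith
  linarith

/-- PROOF. Lower bound: `N_le_G`. Upper bound: `N h (√s) ≤ C s + C₀ ≤ C #{n : ℕ | n ≤ s} + C₀` for
`s ≥ 0`; `tsum_exp_le` with `x = fun n : ℕ => (n : ℝ)`, `y i = ‖h i‖ ^ 2`, `t = R⁻²` gives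
`G h R ≤ C / (1 - exp (-t)) + C₀ ≤ 2 C R² + C₀` for `R ≥ 1` (`1 - exp (-t) ≥ t / 2` for
`0 ≤ t ≤ 1`). -/
theorem G_quad (hf : LocFin h) (hq : Quad h) : ∃ c C : ℝ, 0 < c ∧ 0 < C ∧
    ∀ᶠ R in atTop, c * R ^ 2 ≤ G h R ∧ G h R ≤ C * R ^ 2 := by
  have hg := greg_of_quad hf hq
  obtain ⟨c, C, R₀, hc, hC, hR₀, hR⟩ := hq.consts
  have hN0 := N_nonneg h R₀
  refine ⟨c / Real.exp 1, 2 * C + N h R₀, by positivity, by positivity, ?_⟩
  filter_upwards [eventually_ge_atTop R₀, eventually_ge_atTop 1] with R h1 h2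
  have hRpos : 0 < R := by linarith
  constructor
  · have h3 := N_le_G hf hg.summable hRpos
    have h4 := (hR R h1).1
    rw [div_mul_eq_mul_div, div_le_iff₀ (Real.exp_pos 1)]
    linarith
  · have hset' : ∀ s : ℝ, 0 ≤ s → {i | ‖h i‖ ^ 2 ≤ s} = {i | ‖h i‖ ≤ √s} := by
      intro s hs0
      ext i
      show ‖h i‖ ^ 2 ≤ s ↔ ‖h i‖ ≤ √s
      rw [Real.le_sqrt (norm_nonneg _) hs0]
    have hyf : ∀ s : ℝ, {i | ‖h i‖ ^ 2 ≤ s}.Finite := fun s =>
      (hf.2 (√s)).subset fun i hi => Real.le_sqrt_of_sq_le hi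
    set t : ℝ := (R ^ 2)⁻¹ with ht
    have htp : 0 < t := by positivity
    have ht1 : t ≤ 1 := by
      rw [ht]
      exact inv_le_one_of_one_le₀ (by nlinarith)
    have hr0 : 0 ≤ Real.exp (-t) := (Real.exp_pos _).le
    have hr1 : Real.exp (-t) < 1 := by
      rw [Real.exp_lt_one_iff]
      linarith
    have hterm : (fun n : ℕ => Real.exp (-(t * (n : ℝ)))) = fun n : ℕ => Real.exp (-t) ^ n := by
      funext n
      rw [← Real.exp_nat_mul]
      congr 1
      ring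
    have hsum : Summable fun n : ℕ => Real.exp (-(t * (n : ℝ))) := by
      rw [hterm]
      exact summable_geometric_of_lt_one hr0 hr1
    have htsum : ∑' n : ℕ, Real.exp (-(t * (n : ℝ))) = (1 - Real.exp (-t))⁻¹ := by
      rw [hterm]
      exact tsum_geometric_of_lt_one hr0 hr1
    have key := tsum_exp_le' (x := fun n : ℕ => (n : ℝ)) (y := fun i => ‖h i‖ ^ 2)
      (fun n => Nat.cast_nonneg n) (fun i => by positivity) nat_le_finite hyf hC.le hN0
      (fun s hs0 => by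
        have e1 : ({i | ‖h i‖ ^ 2 ≤ s}.ncard : ℝ) = N h (√s) := by
          unfold N
          rw [hset' s hs0]
        rw [e1]
        have e2 := le_ncard_nat hs0
        have e3 : C * s ≤ C * ({n : ℕ | (n : ℝ) ≤ s}.ncard : ℝ) :=
          mul_le_mul_of_nonneg_left e2 hC.le
        rcases le_total R₀ (√s) with e4 | e4
        · have e5 := (hR _ e4).2
          rw [Real.sq_sqrt hs0] at e5
          linarith
        · have e5 : N h (√s) ≤ N h R₀ := N_mono hf e4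
          have e6 : 0 ≤ C * s := by positivity
          linarith) htp hsum
    have h3 : G h R = ∑' i, Real.exp (-(t * ‖h i‖ ^ 2)) := by
      unfold G
      refine tsum_congr fun i => ?_
      congr 2
      rw [ht, div_pow, div_eq_inv_mul]
    have h4 := key.2
    rw [htsum, ← h3] at h4
    have h5 := half_le_one_sub_exp htp.le ht1
    have h6 : (1 - Real.exp (-t))⁻¹ ≤ (t / 2)⁻¹ := inv_anti₀ (by positivity) h5
    have h7 : (t / 2)⁻¹ = 2 * R ^ 2 := by
      rw [ht]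
      field_simp
    rw [h7] at h6
    have h8 : C * (1 - Real.exp (-t))⁻¹ ≤ C * (2 * R ^ 2) := mul_le_mul_of_nonneg_left h6 hC.le
    have h9 : N h R₀ * 1 ≤ N h R₀ * R ^ 2 := mul_le_mul_of_nonneg_left (by nlinarith) hN0
    calc G h R ≤ C * (1 - Real.exp (-t))⁻¹ + N h R₀ := h4
      _ ≤ (2 * C + N h R₀) * R ^ 2 := by nlinarith

/-- PROOF. `G_quad` for both families (`quad_act`). -/
theorem G_act_le (hf : LocFin h) (hq : Quad h) (A : SL(2, ℝ)) : ∃ K : ℝ, 0 < K ∧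
    ∀ᶠ R in atTop, G (fun i => act A (h i)) R ≤ K * G h R := by
  have hfA : LocFin (fun i => act A (h i)) := by
    refine ⟨fun i => act_ne_zero A (hf.1 i), fun R => ?_⟩
    obtain ⟨K, hK, h1, h2⟩ := exists_norm_act_le A
    refine (hf.2 (K * R)).subset fun i hi => ?_
    have hi' : ‖act A (h i)‖ ≤ R := hi
    exact (h2 (h i)).trans (mul_le_mul_of_nonneg_left hi' hK.le)
  obtain ⟨c, C, hc, hC, h1⟩ := G_quad hf hq
  obtain ⟨c', C', hc', hC', h2⟩ := G_quad hfA (quad_act hf hq A)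
  refine ⟨C' / c, by positivity, ?_⟩
  filter_upwards [h1, h2] with R h3 h4
  refine h4.2.trans ?_
  have h5 : C' * R ^ 2 = C' / c * (c * R ^ 2) := by field_simp
  rw [h5]
  exact mul_le_mul_of_nonneg_left h3.1 (by positivity)

/-- PROOF. `G_quad`. -/
theorem G_scale_le (hf : LocFin h) (hq : Quad h) {s : ℝ} (hs : 0 < s) : ∃ K : ℝ, 0 < K ∧
    ∀ᶠ R in atTop, G h (s * R) ≤ K * G h R := by
  obtain ⟨c, C, hc, hC, h1⟩ := G_quad hf hq
  have h2 : ∀ᶠ R in atTop, c * (s * R) ^ 2 ≤ G h (s * R) ∧ G h (s * R) ≤ C * (s * R) ^ 2 :=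
    (tendsto_id.const_mul_atTop hs).eventually h1
  refine ⟨C * s ^ 2 / c, by positivity, ?_⟩
  filter_upwards [h1, h2] with R h3 h4
  refine h4.2.trans ?_
  have h5 : C * (s * R) ^ 2 = C * s ^ 2 / c * (c * R ^ 2) := by
    field_simp
  rw [h5]
  exact mul_le_mul_of_nonneg_left h3.1 (by positivity)

end SAD
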