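import Pool.Agent.Lib.SAD.Main

/-!
# Equidistribution for a fixed arc
-/

open Filter Topology MeasureTheory Set
open scoped MatrixGroups

namespace SAD

/-- The closed arc of the unit circle from `e^{ia}` to `e^{ib}`. -/
def arc (a b : ℝ) : Set ℂ := (fun θ : ℝ => circleMap 0 1 θ) '' Icc a b

/-! ### Auxiliary lemmas -/

lemma arcEq_isClosed (a b : ℝ) : IsClosed (arc a b) :=
  (isCompact_Icc.image (continuous_circleMap 0 1)).isClosed

/-- continuous functions above the indicator function of a closed set -/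
noncomputable def arcEqF (K : Set ℂ) (n : ℕ) (u : ℂ) : ℝ := max 0 (1 - n * Metric.infDist u K)

lemma arcEqF_continuous (K : Set ℂ) (n : ℕ) : Continuous (arcEqF K n) := by
  unfold arcEqF
  exact continuous_const.max (continuous_const.sub
    (continuous_const.mul (Metric.continuous_infDist_pt K)))

lemma arcEqF_le_one (K : Set ℂ) (n : ℕ) (u : ℂ) : arcEqF K n u ≤ 1 := by
  unfold arcEqF
  refine max_le zero_le_one ?_
  have : 0 ≤ (n : ℝ) * Metric.infDist u K := mul_nonneg (Nat.cast_nonneg n) Metric.infDist_nonneg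
  linarith

lemma arcEqF_nonneg (K : Set ℂ) (n : ℕ) (u : ℂ) : 0 ≤ arcEqF K n u := le_max_left _ _

lemma arcEq_ind_le (K : Set ℂ) (n : ℕ) (u : ℂ) :
    Set.indicator K (fun _ => (1 : ℝ)) u ≤ arcEqF K n u := by
  by_cases hu : u ∈ K
  · rw [Set.indicator_of_mem hu]
    unfold arcEqF
    rw [Metric.infDist_zero_of_mem hu, mul_zero, sub_zero]
    exact le_max_right _ _
  · rw [Set.indicator_of_notMem hu]
    exact arcEqF_nonneg K n u

lemma arcEq_tendsto {K : Set ℂ} (hK : IsClosed K) (hne : K.Nonempty) (u : ℂ) :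
    Tendsto (fun n : ℕ => arcEqF K n u) atTop (𝓝 (Set.indicator K (fun _ => (1 : ℝ)) u)) := by
  by_cases hu : u ∈ K
  · rw [Set.indicator_of_mem hu]
    have h1 : (fun n : ℕ => arcEqF K n u) = fun _ => 1 := by
      funext n
      unfold arcEqF
      rw [Metric.infDist_zero_of_mem hu, mul_zero, sub_zero]
      exact max_eq_right zero_le_one
    rw [h1]
    exact tendsto_const_nhds
  · rw [Set.indicator_of_notMem hu]
    have hd : 0 < Metric.infDist u K := (hK.notMem_iff_infDist_pos hne).1 hu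
    apply tendsto_const_nhds.congr'
    obtain ⟨n0, hn0⟩ := exists_nat_gt (1 / Metric.infDist u K)
    filter_upwards [eventually_ge_atTop n0] with n hn
    unfold arcEqF
    have h1 : 1 / Metric.infDist u K < n := lt_of_lt_of_le hn0 (by exact_mod_cast hn)
    rw [div_lt_iff₀ hd] at h1
    rw [max_eq_left (by linarith)]

lemma arcEq_measurable {K : Set ℂ} (hK : IsClosed K) :
    MeasurableSet (circleMap 0 1 ⁻¹' K) :=
  (hK.preimage (continuous_circleMap 0 1)).measurableSet

lemma arcEq_ind_comp (K : Set ℂ) :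
    (fun θ : ℝ => Set.indicator K (fun _ => (1 : ℝ)) (circleMap 0 1 θ)) =
      Set.indicator (circleMap 0 1 ⁻¹' K) (fun _ => (1 : ℝ)) := by
  funext θ
  by_cases h : circleMap 0 1 θ ∈ K
  · rw [Set.indicator_of_mem h, Set.indicator_of_mem (show θ ∈ circleMap 0 1 ⁻¹' K from h)]
  · rw [Set.indicator_of_notMem h,
      Set.indicator_of_notMem (show θ ∉ circleMap 0 1 ⁻¹' K from h)]

lemma arcEq_integrable {K : Set ℂ} (hK : IsClosed K) :
    IntervalIntegrable (fun θ : ℝ => Set.indicator K (fun _ => (1 : ℝ)) (circleMap 0 1 θ))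
      volume 0 (2 * Real.pi) := by
  rw [arcEq_ind_comp, intervalIntegrable_iff]
  have h1 : IntegrableOn (fun _ : ℝ => (1 : ℝ)) (Set.uIoc 0 (2 * Real.pi)) volume :=
    (intervalIntegrable_iff.1 (intervalIntegrable_const (c := (1 : ℝ))))
  exact h1.indicator (arcEq_measurable hK)

lemma arcEq_avg_tendsto {K : Set ℂ} (hK : IsClosed K) (hne : K.Nonempty) :
    Tendsto (fun n : ℕ => Real.circleAverage (arcEqF K n) 0 1) atTop
      (𝓝 (Real.circleAverage (Set.indicator K (fun _ => (1 : ℝ))) 0 1)) := by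
  unfold Real.circleAverage
  apply Tendsto.const_smul
  refine intervalIntegral.tendsto_integral_filter_of_dominated_convergence (fun _ => (1 : ℝ))
    ?_ ?_ ?_ ?_
  · refine Eventually.of_forall fun n => ?_
    exact ((arcEqF_continuous K n).comp (continuous_circleMap 0 1)).aestronglyMeasurable
  · refine Eventually.of_forall fun n => ae_of_all _ fun θ _ => ?_
    rw [Real.norm_of_nonneg (arcEqF_nonneg K n _)]
    exact arcEqF_le_one K n _
  · exact intervalIntegrable_const
  · exact ae_of_all _ fun θ _ => arcEq_tendsto hK hne _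

lemma arcEq_dirSum_mono {ι : Type*} {h : ι → ℂ} (hf : LocFin h) {f g : ℂ → ℝ}
    (hfg : ∀ i, f (h i / (‖h i‖ : ℂ)) ≤ g (h i / (‖h i‖ : ℂ))) (R : ℝ) :
    dirSum h f R ≤ dirSum h g R := by
  unfold dirSum
  rw [finsum_mem_eq_finite_toFinset_sum _ (hf.2 R), finsum_mem_eq_finite_toFinset_sum _ (hf.2 R)]
  exact Finset.sum_le_sum fun i _ => hfg i

lemma arcEq_dirSum_add {ι : Type*} {h : ι → ℂ} (hf : LocFin h) (f g : ℂ → ℝ) (R : ℝ) :
    dirSum h (fun u => f u + g u) R = dirSum h f R + dirSum h g R := by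
  unfold dirSum
  rw [finsum_mem_eq_finite_toFinset_sum _ (hf.2 R), finsum_mem_eq_finite_toFinset_sum _ (hf.2 R),
    finsum_mem_eq_finite_toFinset_sum _ (hf.2 R), Finset.sum_add_distrib]

lemma arcEq_dirSum_one {ι : Type*} {h : ι → ℂ} (hf : LocFin h) (R : ℝ) :
    dirSum h (fun _ => 1) R = N h R := by
  unfold dirSum N
  rw [Set.ncard_eq_toFinset_card _ (hf.2 R), finsum_mem_eq_finite_toFinset_sum _ (hf.2 R),
    Finset.card_eq_sum_ones, Nat.cast_sum]
  simp

/-- upper bound for a closed set -/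
lemma arcEq_upper {ι : Type*} {h : ι → ℂ} (hf : LocFin h) (he : Equi h) {K : Set ℂ}
    (hK : IsClosed K) (hne : K.Nonempty) {c : ℝ}
    (hc : Real.circleAverage (Set.indicator K (fun _ => (1 : ℝ))) 0 1 < c) :
    ∀ᶠ R in atTop, dirSum h (Set.indicator K (fun _ => (1 : ℝ))) R / N h R < c := by
  obtain ⟨n, hn⟩ := ((arcEq_avg_tendsto hK hne).eventually (gt_mem_nhds hc)).exists
  have h1 := (he (arcEqF K n) (arcEqF_continuous K n)).eventually (gt_mem_nhds hn)
  filter_upwards [h1] with R hR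
  refine lt_of_le_of_lt ?_ hR
  exact div_le_div_of_nonneg_right
    (arcEq_dirSum_mono hf (fun i => arcEq_ind_le K n _) R) (N_nonneg h R)

/-- the unit circle is covered by complementary arcs -/
lemma arcEq_cover (a b : ℝ) {u : ℂ} (hu : ‖u‖ = 1) :
    u ∈ arc a b ∨ u ∈ arc b (a + 2 * Real.pi) := by
  obtain ⟨θ, hθ⟩ : ∃ θ : ℝ, circleMap 0 1 θ = u := by
    refine ⟨Complex.arg u, ?_⟩
    rw [circleMap_zero]
    have := Complex.norm_mul_exp_arg_mul_I u
    rw [hu] at this
    exact_mod_cast this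
  obtain ⟨φ, hφ, hφu⟩ : ∃ φ ∈ Ico a (a + 2 * Real.pi), circleMap 0 1 φ = u := by
    have h1 := (periodic_circleMap (0 : ℂ) 1).exists_mem_Ico Real.two_pi_pos θ a
    obtain ⟨φ, hφ, h2⟩ := h1
    exact ⟨φ, hφ, by rw [← h2, hθ]⟩
  rcases le_total φ b with h | h
  · exact Or.inl ⟨φ, ⟨hφ.1, h⟩, hφu⟩
  · exact Or.inr ⟨φ, ⟨h, hφ.2.le⟩, hφu⟩

/-- complementary arcs meet in the end points -/
lemma arcEq_inter {a b : ℝ} (hab : a < b) (hb : b < a + 2 * Real.pi) :
    arc a b ∩ arc b (a + 2 * Real.pi) ⊆ {circleMap 0 1 a, circleMap 0 1 b} := by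
  rintro u ⟨⟨φ, hφ, rfl⟩, ⟨ψ, hψ, hψφ⟩⟩
  have hpi := Real.pi_pos
  have h1 : Complex.exp (ψ * Complex.I) = Complex.exp (φ * Complex.I) := by
    simpa [circleMap_zero] using hψφ
  obtain ⟨k, hk⟩ := Complex.exp_eq_exp_iff_exists_int.1 h1
  have h2 : ψ = φ + k * (2 * Real.pi) := by
    have h3 := congrArg Complex.im hk
    simpa using h3
  have hk0 : (-1 : ℝ) < k := by
    by_contra hc
    have : (k : ℝ) * (2 * Real.pi) ≤ -1 * (2 * Real.pi) :=
      mul_le_mul_of_nonneg_right (not_lt.1 hc) (by positivity)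
    have := hφ.2
    have := hψ.1
    linarith
  have hk1 : (k : ℝ) < 2 := by
    by_contra hc
    have : 2 * (2 * Real.pi) ≤ (k : ℝ) * (2 * Real.pi) :=
      mul_le_mul_of_nonneg_right (not_lt.1 hc) (by positivity)
    have := hφ.1
    have := hψ.2
    linarith
  have hk0' : -1 < k := by exact_mod_cast hk0
  have hk1' : k < 2 := by exact_mod_cast hk1
  have hk2 : k = 0 ∨ k = 1 := by omega
  rcases hk2 with hk2 | hk2
  · right
    rw [hk2] at h2
    have h3 : φ = b := by
      have := hφ.2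
      have := hψ.1
      push_cast at h2
      linarith
    rw [h3]
    rfl
  · left
    rw [hk2] at h2
    have h3 : φ = a := by
      have := hφ.1
      have := hψ.2
      push_cast at h2
      linarith
    rw [h3]

lemma arcEq_avg_add {a b : ℝ} (hab : a < b) (hb : b < a + 2 * Real.pi) :
    Real.circleAverage (Set.indicator (arc a b) (fun _ => (1 : ℝ))) 0 1 +
      Real.circleAverage (Set.indicator (arc b (a + 2 * Real.pi)) (fun _ => (1 : ℝ))) 0 1 = 1 := by
  unfold Real.circleAverage
  rw [← smul_add, ← intervalIntegral.integral_add (arcEq_integrable (arcEq_isClosed _ _))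
    (arcEq_integrable (arcEq_isClosed _ _))]
  have h1 : ∫ θ in (0 : ℝ)..(2 * Real.pi),
      (Set.indicator (arc a b) (fun _ => (1 : ℝ)) (circleMap 0 1 θ) +
        Set.indicator (arc b (a + 2 * Real.pi)) (fun _ => (1 : ℝ)) (circleMap 0 1 θ)) =
      ∫ θ in (0 : ℝ)..(2 * Real.pi), (1 : ℝ) := by
    apply intervalIntegral.integral_congr_ae
    have hc : (circleMap 0 1 ⁻¹' ({circleMap 0 1 a, circleMap 0 1 b} : Set ℂ)).Countable :=
      (Set.Finite.countable (Set.toFinite _)).preimage_circleMap 0 one_ne_zero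
    have hae := (Set.Countable.ae_notMem hc (volume : Measure ℝ))
    filter_upwards [hae] with θ hθ _
    have hcov := arcEq_cover a b (u := circleMap 0 1 θ) (by simp)
    have hnot : ¬ (circleMap 0 1 θ ∈ arc a b ∧ circleMap 0 1 θ ∈ arc b (a + 2 * Real.pi)) :=
      fun hh => hθ (arcEq_inter hab hb hh)
    rcases hcov with h | h
    · rw [Set.indicator_of_mem h, Set.indicator_of_notMem fun h' => hnot ⟨h, h'⟩, add_zero]
    · rw [Set.indicator_of_mem h, Set.indicator_of_notMem fun h' => hnot ⟨h', h⟩, zero_add]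
  rw [h1, intervalIntegral.integral_const, sub_zero, smul_eq_mul, smul_eq_mul, mul_one,
    inv_mul_cancel₀ Real.two_pi_pos.ne']

/-- PROOF. Sandwich the indicator function of the arc between continuous functions `f₁ ≤ 1_arc ≤ f₂`
on the unit circle (only the values on the unit circle matter in `dirSum`, as `h i ≠ 0`) whose circle
averages tend to that of `1_arc`: `f₂ n u = max 0 (1 - n * infDist u (arc a b))`, decreasing to
`1_arc` (closed set), and `f₁ n u = min 1 (n * infDist u (arc b (a + 2π)))`, increasing to the indicator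
of the complement of the closed complementary arc, which is `1_arc` except at the two end points
(Lebesgue null in `θ`). Dominated convergence for the averages; then squeeze: for all `n`,
`average f₁ n ≤ liminf ≤ limsup ≤ average f₂ n` (`he (f₁ n)`, `he (f₂ n)`, monotonicity of `dirSum`). -/
theorem tendsto_arc_of_equi {ι : Type*} {h : ι → ℂ} (hf : LocFin h) (he : Equi h) {a b : ℝ}
    (hab : a < b) (hb : b - a < Real.pi) :
    Tendsto (fun R => dirSum h (Set.indicator (arc a b) (fun _ => (1 : ℝ))) R / N h R) atTop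
      (𝓝 (Real.circleAverage (Set.indicator (arc a b) (fun _ => (1 : ℝ))) 0 1)) := by
  have hpi := Real.pi_pos
  have hb' : b < a + 2 * Real.pi := by linarith
  have hne1 : (arc a b).Nonempty := ⟨_, a, ⟨le_rfl, hab.le⟩, rfl⟩
  have hne2 : (arc b (a + 2 * Real.pi)).Nonempty := ⟨_, b, ⟨le_rfl, hb'.le⟩, rfl⟩
  have hadd := arcEq_avg_add hab hb'
  have hone := he (fun _ => 1) continuous_const
  have hav1 : Real.circleAverage (fun _ : ℂ => (1 : ℝ)) 0 1 = 1 := by
    unfold Real.circleAverage
    rw [intervalIntegral.integral_const, sub_zero, smul_eq_mul, smul_eq_mul, mul_one,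
      inv_mul_cancel₀ Real.two_pi_pos.ne']
  rw [hav1] at hone
  rw [tendsto_order]
  refine ⟨fun c hc => ?_, fun c hc => arcEq_upper hf he (arcEq_isClosed _ _) hne1 hc⟩
  have hc' : Real.circleAverage (Set.indicator (arc b (a + 2 * Real.pi)) (fun _ => (1 : ℝ))) 0 1 <
      1 - c := by linarith
  have h1 := arcEq_upper hf he (arcEq_isClosed _ _) hne2 hc'
  have h2 := hone.eventually (lt_mem_nhds zero_lt_one)
  filter_upwards [h1, h2] with R hR1 hR2
  have hN : 0 < N h R := by
    rcases (N_nonneg h R).lt_or_eq with h3 | h3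
    · exact h3
    · rw [← h3, div_zero] at hR2
      exact absurd hR2 (lt_irrefl _)
  have h4 : N h R ≤ dirSum h (Set.indicator (arc a b) (fun _ => (1 : ℝ))) R +
      dirSum h (Set.indicator (arc b (a + 2 * Real.pi)) (fun _ => (1 : ℝ))) R := by
    rw [← arcEq_dirSum_one hf R, ← arcEq_dirSum_add hf]
    apply arcEq_dirSum_mono hf
    intro i
    have hu : ‖h i / (‖h i‖ : ℂ)‖ = 1 := by
      rw [norm_div, Complex.norm_real, norm_norm, div_self (norm_ne_zero_iff.2 (hf.1 i))]
    have hnn : ∀ (K : Set ℂ) (u : ℂ), 0 ≤ Set.indicator K (fun _ => (1 : ℝ)) u := fun K u =>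
      Set.indicator_nonneg (fun _ _ => zero_le_one) u
    rcases arcEq_cover a b hu with h5 | h5
    · have := hnn (arc b (a + 2 * Real.pi)) (h i / (‖h i‖ : ℂ))
      rw [Set.indicator_of_mem h5]
      linarith
    · have := hnn (arc a b) (h i / (‖h i‖ : ℂ))
      rw [Set.indicator_of_mem h5]
      linarith
  rw [div_lt_iff₀ hN] at hR1
  rw [lt_div_iff₀ hN]
  linarith

end SAD
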