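import Mathlib

/-!
# A straight line makes only a bounded number of turns of bounded-below angle around a point

PLAN.  `ω i = arctan (s i) ∈ (-π/2, π/2)`, increasing.  With `Δ = ω (i+1) - ω i ∈ (0, π)`:
`sin Δ = (s (i+1) - s i)/(√(1+s i²) √(1+s (i+1)²))`, `cos Δ = (1 + s i * s (i+1))/(same)`, so the
hypothesis says `cos Δ ≤ C sin Δ`, hence `Δ ≥ arctan (1/C)` (if `Δ < π/2` then `tan Δ ≥ 1/C`).
Sum over `i < K`: `K arctan (1/C) ≤ π`.
-/

open Filter Topology Set

namespace SAD

lemma sin_arctan_eq (x : ℝ) :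
    Real.sin (Real.arctan x) = x * Real.cos (Real.arctan x) := by
  rw [Real.sin_arctan, Real.cos_arctan]
  ring

lemma arctan_step {C a b : ℝ} (hC : 0 < C) (hab : a < b) (h : 1 + a * b ≤ C * (b - a)) :
    Real.arctan (1 / C) ≤ Real.arctan b - Real.arctan a := by
  have hD : 0 < Real.arctan b - Real.arctan a := sub_pos.2 (Real.arctan_strictMono hab)
  have ha := Real.cos_arctan_pos a
  have hb := Real.cos_arctan_pos b
  have hsin : Real.sin (Real.arctan b - Real.arctan a) =
      (b - a) * (Real.cos (Real.arctan a) * Real.cos (Real.arctan b)) := by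
    rw [Real.sin_sub, sin_arctan_eq, sin_arctan_eq]
    ring
  have hcos : Real.cos (Real.arctan b - Real.arctan a) =
      (1 + a * b) * (Real.cos (Real.arctan a) * Real.cos (Real.arctan b)) := by
    rw [Real.cos_sub, sin_arctan_eq, sin_arctan_eq]
    ring
  have h1 : Real.cos (Real.arctan b - Real.arctan a) ≤
      C * Real.sin (Real.arctan b - Real.arctan a) := by
    rw [hsin, hcos]
    have h' := mul_le_mul_of_nonneg_right h (mul_pos ha hb).le
    linarith
  by_contra hlt
  push Not at hlt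
  have h2 : Real.arctan (1 / C) < Real.pi / 2 := Real.arctan_lt_pi_div_two _
  have hlt2 : Real.arctan b - Real.arctan a < Real.pi / 2 := hlt.trans h2
  have hc : 0 < Real.cos (Real.arctan b - Real.arctan a) :=
    Real.cos_pos_of_mem_Ioo ⟨by linarith [Real.pi_pos], hlt2⟩
  have h3 : Real.tan (Real.arctan b - Real.arctan a) < Real.tan (Real.arctan (1 / C)) :=
    Real.tan_lt_tan_of_lt_of_lt_pi_div_two (by linarith [Real.pi_pos]) h2 hlt
  rw [Real.tan_arctan, Real.tan_eq_sin_div_cos, div_lt_div_iff₀ hc hC] at h3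
  linarith

theorem run_bound {C : ℝ} (hC : 0 < C) : ∃ K₀ : ℕ, ∀ (K : ℕ) (s : ℕ → ℝ),
    (∀ i < K, s i < s (i + 1)) → (∀ i < K, 1 + s i * s (i + 1) ≤ C * (s (i + 1) - s i)) →
    K ≤ K₀ := by
  set δ := Real.arctan (1 / C) with hδ
  have hδ0 : 0 < δ := by
    rw [hδ]
    have h := Real.arctan_strictMono (show (0 : ℝ) < 1 / C by positivity)
    rwa [Real.arctan_zero] at h
  refine ⟨⌈Real.pi / δ⌉₊, fun K s h1 h2 => ?_⟩
  have h3 : ∀ n ≤ K, (n : ℝ) * δ ≤ Real.arctan (s n) - Real.arctan (s 0) := by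
    intro n
    induction n with
    | zero => intro _; simp
    | succ n ih =>
      intro hn
      have h4 := ih (by omega)
      have h5 := arctan_step hC (h1 n (by omega)) (h2 n (by omega))
      push_cast
      linarith
  have h4 := h3 K le_rfl
  have h5 := Real.arctan_lt_pi_div_two (s K)
  have h6 := Real.neg_pi_div_two_lt_arctan (s 0)
  have h7 : (K : ℝ) ≤ Real.pi / δ := by
    rw [le_div_iff₀ hδ0]
    linarith
  exact_mod_cast h7.trans (Nat.le_ceil _)

end SAD
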