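import Pool.Agent.Lib.SAD.Path
import Pool.Agent.Lib.SAD.Run

/-!
# A segment of bounded length crosses a bounded number of sides

PLAN.  Step `j` (`j < n`) is `right` if `e (j+1) = next (glue (e j))`, `left` if
`e (j+1) = prev (glue (e j))`.
`two_steps`: if steps `j` and `j+1` have different types then
`(tau (j+2) - tau j) ‖d‖ ≥ δ := m/M` (`m, M` from `exists_bounds`): e.g. `right` then `left`:
`(tau (j+1) - tau j) cross d (side (e j)) = σ (j+1) area`, and
`(tau (j+2) - tau (j+1)) cross d (side (e (j+2))) = (1 - σ (j+1)) area'`, with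
`0 < cross d (side) ≤ ‖d‖ M` and `area ≥ m`; add up.
`run`: if the steps `j, …, j+K-1` all have the same type then `K ≤ K₀ (X)`.  All `right`: the point
`p = r j = r (j+1) = …` is fixed, `y i = tau (j+i) d - p = σ side (e (j+i))`, `D = cross p d > 0`,
`s i = dot (y i) d / D`, `dot u w = Re (conj u * w)`.  One has
`dot (y i) (y (i+1)) = D² (1 + s i s (i+1))/‖d‖²`,
`cross (y (i+1)) (y i) = D² (s (i+1) - s i)/‖d‖²`, and the quotient is
`dot (side (e (j+i))) (side (e (j+i+1))) / cross (side (e (j+i+1))) (side (e (j+i)))`, which is at most a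
constant `C(X)`, because with `f = glue (e (j+i))` it equals
`-dot (side f) (side (next f)) / area2 f` and there are finitely many `f`.  Apply `run_bound`.
All `left`: the same with `p = r i + side (e i)` fixed and the opposite orientation.
`path_bounded`: each block of `K₀+1` consecutive steps contains two consecutive steps of different
types, so `tau n ‖d‖ ≥ ⌊n/(K₀+1)⌋ δ`.
-/

open Filter Topology MeasureTheory Set
open scoped MatrixGroups

namespace SAD

/-- the scalar product of two vectors of `ℂ = ℝ²` -/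
private def dot (z w : ℂ) : ℝ := z.re * w.re + z.im * w.im

private lemma dot_le (z w : ℂ) : dot z w ≤ ‖z‖ * ‖w‖ := by
  have h1 : (dot z w) ^ 2 ≤ (‖z‖ * ‖w‖) ^ 2 := by
    rw [mul_pow, Complex.sq_norm, Complex.sq_norm, Complex.normSq_apply, Complex.normSq_apply]
    simp only [dot]
    nlinarith [sq_nonneg (z.re * w.im - z.im * w.re)]
  exact (le_abs_self _).trans (abs_le_of_sq_le_sq h1 (by positivity))

private lemma norm_sq' (d : ℂ) : ‖d‖ ^ 2 = d.re * d.re + d.im * d.im := by
  rw [Complex.sq_norm, Complex.normSq_apply]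

private lemma turn_right {d y y' : ℂ} {D C : ℝ} (hD : 0 < D) (h : cross d y = D)
    (h' : cross d y' = D) (hdot : dot y y' ≤ C * cross y' y) :
    1 + (dot y d / D) * (dot y' d / D) ≤ C * (dot y' d / D - dot y d / D) := by
  have h1 : ‖d‖ ^ 2 * dot y y' = dot y d * dot y' d + cross d y * cross d y' := by
    rw [norm_sq']; simp only [dot, cross]; ring
  have h2 : ‖d‖ ^ 2 * cross y' y = dot y' d * cross d y - cross d y' * dot y d := by
    rw [norm_sq']; simp only [dot, cross]; ring
  have h3 : ‖d‖ ^ 2 * dot y y' ≤ ‖d‖ ^ 2 * (C * cross y' y) :=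
    mul_le_mul_of_nonneg_left hdot (by positivity)
  have h4 : ‖d‖ ^ 2 * (C * cross y' y) = C * (‖d‖ ^ 2 * cross y' y) := by ring
  rw [h4, h1, h2, h, h'] at h3
  have h5 : 1 + (dot y d / D) * (dot y' d / D) = (dot y d * dot y' d + D * D) / (D * D) := by
    field_simp
    ring
  have h6 : C * (dot y' d / D - dot y d / D) = (C * (dot y' d * D - D * dot y d)) / (D * D) := by
    field_simp
  rw [h5, h6]
  exact div_le_div_of_nonneg_right h3 (by positivity)

private lemma turn_left {d y y' : ℂ} {D C : ℝ} (hD : 0 < D) (h : cross d y = -D)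
    (h' : cross d y' = -D) (hdot : dot y y' ≤ C * cross y y') :
    1 + (dot y d / D) * (dot y' d / D) ≤ C * (dot y' d / D - dot y d / D) := by
  have h1 : ‖d‖ ^ 2 * dot y y' = dot y d * dot y' d + cross d y * cross d y' := by
    rw [norm_sq']; simp only [dot, cross]; ring
  have h2 : ‖d‖ ^ 2 * cross y y' = dot y d * cross d y' - cross d y * dot y' d := by
    rw [norm_sq']; simp only [dot, cross]; ring
  have h3 : ‖d‖ ^ 2 * dot y y' ≤ ‖d‖ ^ 2 * (C * cross y y') :=
    mul_le_mul_of_nonneg_left hdot (by positivity)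
  have h4 : ‖d‖ ^ 2 * (C * cross y y') = C * (‖d‖ ^ 2 * cross y y') := by ring
  rw [h4, h1, h2, h, h'] at h3
  have h5 : 1 + (dot y d / D) * (dot y' d / D) = (dot y d * dot y' d + -D * -D) / (D * D) := by
    field_simp
    ring
  have h6 : C * (dot y' d / D - dot y d / D) =
      (C * (dot y d * -D - -D * dot y' d)) / (D * D) := by
    field_simp
    ring
  rw [h5, h6]
  exact div_le_div_of_nonneg_right h3 (by positivity)

namespace TransSurf

variable {X : TransSurf} {n : ℕ} {e : ℕ → X.T × ZMod 3} {r : ℕ → ℂ} {d : ℂ}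

private lemma norm_pos_of_crosses (hc : X.Crosses n e r d) : 0 < ‖d‖ := by
  rw [norm_pos_iff]
  rintro rfl
  have := (hc 0 (Nat.zero_le _)).1
  simp [cross] at this

private lemma tau_mono (hp : X.IsPath n e r) (hc : X.Crosses n e r d) {i j : ℕ} (hij : i ≤ j)
    (hj : j ≤ n) : X.tau e r d i ≤ X.tau e r d j := by
  induction j, hij using Nat.le_induction with
  | base => exact le_refl _
  | succ j _ ih => exact (ih (by omega)).trans (tau_lt_succ hp hc (by omega)).le

private lemma two_steps_aux {m M σ a a' c c' t t' u : ℝ} (hM : 0 < M) (hu : 0 < u)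
    (hσ : 0 ≤ σ) (hσ1 : σ ≤ 1) (ha : m ≤ a) (ha' : m ≤ a')
    (hc1 : c ≤ u * M) (hc1' : c' ≤ u * M) (ht : 0 ≤ t) (ht' : 0 ≤ t')
    (h : t * c = σ * a) (h' : t' * c' = (1 - σ) * a') : m / M ≤ (t + t') * u := by
  rw [div_le_iff₀ hM]
  have h1 : σ * a ≤ t * (u * M) := by
    rw [← h]; exact mul_le_mul_of_nonneg_left hc1 ht
  have h2 : (1 - σ) * a' ≤ t' * (u * M) := by
    rw [← h']; exact mul_le_mul_of_nonneg_left hc1' ht'
  have h3 : σ * m ≤ σ * a := mul_le_mul_of_nonneg_left ha hσ
  have h4 : (1 - σ) * m ≤ (1 - σ) * a' := mul_le_mul_of_nonneg_left ha' (by linarith)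
  nlinarith

private lemma cross_le {M : ℝ} (hM : ∀ f, ‖X.side f‖ ≤ M) (f : X.T × ZMod 3) :
    cross d (X.side f) ≤ ‖d‖ * M :=
  (le_abs_self _).trans ((abs_cross_le _ _).trans
    (mul_le_mul_of_nonneg_left (hM f) (norm_nonneg _)))

/-- step `j` turns to the right -/
private def RStep (X : TransSurf) (e : ℕ → X.T × ZMod 3) (r : ℕ → ℂ) (j : ℕ) : Prop :=
  e (j + 1) = next (X.glue (e j)) ∧ r (j + 1) = r j

/-- step `j` turns to the left -/
private def LStep (X : TransSurf) (e : ℕ → X.T × ZMod 3) (r : ℕ → ℂ) (j : ℕ) : Prop :=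
  e (j + 1) = prev (X.glue (e j)) ∧ r (j + 1) = r j + X.side (next (X.glue (e j)))

private lemma right_left {m M : ℝ} (hM : 0 < M) (hm' : ∀ f, m ≤ X.area2 f)
    (hM' : ∀ f, ‖X.side f‖ ≤ M) (hp : X.IsPath n e r) (hc : X.Crosses n e r d) {j : ℕ}
    (hj : j + 2 ≤ n) (h1 : RStep X e r j) (h2 : LStep X e r (j + 1)) :
    m / M ≤ (X.tau e r d (j + 2) - X.tau e r d j) * ‖d‖ := by
  have k1 := (tau_succ_right hc (by omega : j < n) h1.1 h1.2).1
  have k2 := (tau_succ_left hc (by omega : j + 1 < n) h2.1 h2.2).2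
  have l1 := tau_lt_succ hp hc (by omega : j < n)
  have l2 := tau_lt_succ hp hc (by omega : j + 1 < n)
  have s1 := sig_pos hc (by omega : j + 1 ≤ n)
  have s2 := sig_lt_one hc (by omega : j + 1 ≤ n)
  have key := two_steps_aux hM (norm_pos_of_crosses hc) s1.le s2.le (hm' _) (hm' _)
    (cross_le hM' _) (cross_le hM' _) (sub_pos.2 l1).le (sub_pos.2 l2).le k1 k2
  refine key.trans (le_of_eq ?_)
  ring

private lemma left_right {m M : ℝ} (hM : 0 < M) (hm' : ∀ f, m ≤ X.area2 f)
    (hM' : ∀ f, ‖X.side f‖ ≤ M) (hp : X.IsPath n e r) (hc : X.Crosses n e r d) {j : ℕ}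
    (hj : j + 2 ≤ n) (h1 : LStep X e r j) (h2 : RStep X e r (j + 1)) :
    m / M ≤ (X.tau e r d (j + 2) - X.tau e r d j) * ‖d‖ := by
  have k1 := (tau_succ_left hc (by omega : j < n) h1.1 h1.2).1
  have k2 := (tau_succ_right hc (by omega : j + 1 < n) h2.1 h2.2).2
  have l1 := tau_lt_succ hp hc (by omega : j < n)
  have l2 := tau_lt_succ hp hc (by omega : j + 1 < n)
  have s1 := sig_pos hc (by omega : j + 1 ≤ n)
  have s2 := sig_lt_one hc (by omega : j + 1 ≤ n)
  have k2' : (X.tau e r d (j + 1 + 1) - X.tau e r d (j + 1)) *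
      cross d (X.side (e (j + 1 + 1))) =
      (1 - (1 - X.sig e r d (j + 1))) * X.area2 (X.glue (e (j + 1))) := by
    rw [k2]; ring
  have key := two_steps_aux hM (norm_pos_of_crosses hc) (sub_pos.2 s2).le (by linarith)
    (hm' _) (hm' _)
    (cross_le hM' _) (cross_le hM' _) (sub_pos.2 l1).le (sub_pos.2 l2).le k1 k2'
  refine key.trans (le_of_eq ?_)
  ring

private lemma quot_bound {m M : ℝ} (hm : 0 < m) (hM : 0 < M) {u v : ℂ} {s t : ℝ}
    (hs : 0 < s) (ht : 0 < t) (hu : ‖u‖ ≤ M) (hv : ‖v‖ ≤ M)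
    {A : ℝ} (hA : m ≤ A) (huv : cross u v = A) :
    dot (s * v) (t * u) ≤ M ^ 2 / m * cross (t * u) (s * v) := by
  have h1 : dot (s * v) (t * u) = s * t * dot v u := by
    simp only [dot, Complex.mul_re, Complex.mul_im, Complex.ofReal_re, Complex.ofReal_im]
    ring
  have h2 : cross (t * u) (s * v) = s * t * A := by
    rw [cross_smul_left, cross_smul_right, huv]; ring
  have h3 : dot v u ≤ M ^ 2 := by
    refine (dot_le _ _).trans ?_
    rw [sq]
    exact mul_le_mul hv hu (norm_nonneg _) hM.le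
  have h4 : M ^ 2 ≤ M ^ 2 / m * A := by
    rw [div_mul_eq_mul_div, le_div_iff₀ hm]
    exact mul_le_mul_of_nonneg_left hA (by positivity)
  rw [h1, h2]
  calc s * t * dot v u ≤ s * t * (M ^ 2 / m * A) :=
        mul_le_mul_of_nonneg_left (h3.trans h4) (by positivity)
    _ = M ^ 2 / m * (s * t * A) := by ring

/-- A run of steps to the right around the point `p`. -/
private lemma run_right {m M : ℝ} (hm : 0 < m) (hM : 0 < M) (hm' : ∀ f, m ≤ X.area2 f)
    (hM' : ∀ f, ‖X.side f‖ ≤ M) {K₀ : ℕ}
    (hK : ∀ (K : ℕ) (s : ℕ → ℝ), (∀ i < K, s i < s (i + 1)) →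
      (∀ i < K, 1 + s i * s (i + 1) ≤ M ^ 2 / m * (s (i + 1) - s i)) → K ≤ K₀)
    (hp : X.IsPath n e r) (hc : X.Crosses n e r d) {j K : ℕ}
    (hj : j + K ≤ n) (h : ∀ i < K, RStep X e r (j + i)) : K ≤ K₀ := by
  have hd := norm_pos_of_crosses hc
  have hr : ∀ i ≤ K, r (j + i) = r j := by
    intro i hi
    induction i with
    | zero => rfl
    | succ i ih => rw [← ih (by omega)]; exact (h i (by omega)).2
  have hD : 0 < cross (r j) d := (hc j (by omega)).1
  -- the vectors `y i = tau (j+i) d - p`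
  have hy : ∀ i ≤ K, (X.tau e r d (j + i) : ℂ) * d - r j =
      (X.sig e r d (j + i) : ℂ) * X.side (e (j + i)) := by
    intro i hi
    rw [tau_mul hc (by omega : j + i ≤ n), hr i hi]; ring
  have hcr : ∀ i, cross d ((X.tau e r d (j + i) : ℂ) * d - r j) = cross (r j) d := by
    intro i
    rw [cross_sub_right, cross_smul_right, cross_self, cross_swap d (r j)]; ring
  refine hK K (fun i => dot ((X.tau e r d (j + i) : ℂ) * d - r j) d / cross (r j) d) ?_ ?_
  · intro i hi
    have hlt := tau_lt_succ hp hc (by omega : j + i < n)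
    refine div_lt_div_of_pos_right ?_ hD
    have e1 : dot ((X.tau e r d (j + (i + 1)) : ℂ) * d - r j) d -
        dot ((X.tau e r d (j + i) : ℂ) * d - r j) d =
        (X.tau e r d (j + i + 1) - X.tau e r d (j + i)) * ‖d‖ ^ 2 := by
      rw [norm_sq', ← add_assoc]
      simp only [dot, Complex.mul_re, Complex.mul_im, Complex.ofReal_re, Complex.ofReal_im,
        Complex.sub_re, Complex.sub_im]
      ring
    have e2 : 0 < (X.tau e r d (j + i + 1) - X.tau e r d (j + i)) * ‖d‖ ^ 2 :=
      mul_pos (sub_pos.2 hlt) (by positivity)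
    linarith
  · intro i hi
    refine turn_right hD (hcr i) (hcr (i + 1)) ?_
    rw [hy i (by omega), hy (i + 1) (by omega)]
    have hs := h i hi
    have hs1 : e (j + (i + 1)) = next (X.glue (e (j + i))) := hs.1
    refine quot_bound hm hM
      (sig_pos hc (by omega)) (sig_pos hc (by omega)) (hM' _) (hM' _)
      (hm' (X.glue (e (j + i)))) ?_
    unfold area2
    rw [hs1, X.side_glue, cross_neg_left, cross_swap (X.side (e (j + i)))]
    ring

/-- A run of steps to the left around the point `q`. -/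
private lemma run_left {m M : ℝ} (hm : 0 < m) (hM : 0 < M) (hm' : ∀ f, m ≤ X.area2 f)
    (hM' : ∀ f, ‖X.side f‖ ≤ M) {K₀ : ℕ}
    (hK : ∀ (K : ℕ) (s : ℕ → ℝ), (∀ i < K, s i < s (i + 1)) →
      (∀ i < K, 1 + s i * s (i + 1) ≤ M ^ 2 / m * (s (i + 1) - s i)) → K ≤ K₀)
    (hp : X.IsPath n e r) (hc : X.Crosses n e r d) {j K : ℕ}
    (hj : j + K ≤ n) (h : ∀ i < K, LStep X e r (j + i)) : K ≤ K₀ := by
  have hd := norm_pos_of_crosses hc
  have hside : ∀ i < K, X.side (e (j + (i + 1))) =
      X.side (e (j + i)) - X.side (next (X.glue (e (j + i)))) := by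
    intro i hi
    have hs1 : e (j + (i + 1)) = prev (X.glue (e (j + i))) := (h i hi).1
    have h3 := side_add (X := X) (X.glue (e (j + i)))
    rw [X.side_glue] at h3
    rw [hs1]
    linear_combination h3
  have hr : ∀ i ≤ K, r (j + i) + X.side (e (j + i)) = r j + X.side (e j) := by
    intro i hi
    induction i with
    | zero => rfl
    | succ i ih =>
      rw [← ih (by omega), hside i (by omega)]
      have : r (j + (i + 1)) = r (j + i) + X.side (next (X.glue (e (j + i)))) :=
        (h i (by omega)).2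
      rw [this]; ring
  have hD : 0 < cross d (r j + X.side (e j)) := (hc j (by omega)).2
  have hy : ∀ i ≤ K, (X.tau e r d (j + i) : ℂ) * d - (r j + X.side (e j)) =
      ((1 - X.sig e r d (j + i) : ℝ) : ℂ) * (-X.side (e (j + i))) := by
    intro i hi
    rw [tau_mul hc (by omega : j + i ≤ n), ← hr i hi]; push_cast; ring
  have hcr : ∀ i, cross d ((X.tau e r d (j + i) : ℂ) * d - (r j + X.side (e j))) =
      -cross d (r j + X.side (e j)) := by
    intro i
    rw [cross_sub_right, cross_smul_right, cross_self]; ring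
  refine hK K (fun i => dot ((X.tau e r d (j + i) : ℂ) * d - (r j + X.side (e j))) d /
    cross d (r j + X.side (e j))) ?_ ?_
  · intro i hi
    have hlt := tau_lt_succ hp hc (by omega : j + i < n)
    refine div_lt_div_of_pos_right ?_ hD
    have e1 : dot ((X.tau e r d (j + (i + 1)) : ℂ) * d - (r j + X.side (e j))) d -
        dot ((X.tau e r d (j + i) : ℂ) * d - (r j + X.side (e j))) d =
        (X.tau e r d (j + i + 1) - X.tau e r d (j + i)) * ‖d‖ ^ 2 := by
      rw [norm_sq', ← add_assoc]
      simp only [dot, Complex.mul_re, Complex.mul_im, Complex.ofReal_re, Complex.ofReal_im,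
        Complex.sub_re, Complex.sub_im]
      ring
    have e2 : 0 < (X.tau e r d (j + i + 1) - X.tau e r d (j + i)) * ‖d‖ ^ 2 :=
      mul_pos (sub_pos.2 hlt) (by positivity)
    linarith
  · intro i hi
    refine turn_left hD (hcr i) (hcr (i + 1)) ?_
    rw [hy i (by omega), hy (i + 1) (by omega)]
    have hs1 : e (j + (i + 1)) = prev (X.glue (e (j + i))) := (h i hi).1
    have q := quot_bound
      (u := -X.side (e (j + i))) (v := -X.side (e (j + (i + 1))))
      (s := 1 - X.sig e r d (j + (i + 1))) (t := 1 - X.sig e r d (j + i)) hm hM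
      (sub_pos.2 (sig_lt_one hc (by omega))) (sub_pos.2 (sig_lt_one hc (by omega)))
      (by rw [norm_neg]; exact hM' _) (by rw [norm_neg]; exact hM' _)
      (hm' (prev (X.glue (e (j + i))))) (by
        rw [area2_prev]
        unfold area2
        have h3 := hside i hi
        rw [h3, X.side_glue, cross_neg_left, cross_neg_right, cross_sub_right, cross_self,
          cross_neg_left]
        ring)
    refine le_trans (le_of_eq ?_) q
    simp only [dot]; ring

theorem path_bounded (X : TransSurf) (B : ℝ) : ∃ n₀ : ℕ, ∀ (n : ℕ) (e : ℕ → X.T × ZMod 3)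
    (r : ℕ → ℂ) (d : ℂ), X.IsPath n e r → X.Crosses n e r d → X.tau e r d n * ‖d‖ ≤ B →
    n ≤ n₀ := by
  obtain ⟨m, M, hm, hM, hm', hM'⟩ := exists_bounds X
  obtain ⟨K₀, hK⟩ := run_bound (C := M ^ 2 / m) (by positivity)
  have hδ : 0 < m / M := by positivity
  refine ⟨(⌈B / (m / M)⌉₊ + 1) * (K₀ + 1), ?_⟩
  intro n e r d hp hc hB
  -- a block of `K₀ + 1` steps
  have block : ∀ j, j + (K₀ + 1) ≤ n →
      m / M ≤ (X.tau e r d (j + (K₀ + 1)) - X.tau e r d j) * ‖d‖ := by
    intro j hj
    by_contra hlt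
    push Not at hlt
    have hd := norm_pos_of_crosses hc
    have hmono : ∀ i, i + 2 ≤ K₀ + 1 →
        (X.tau e r d (j + i + 2) - X.tau e r d (j + i)) * ‖d‖ < m / M := by
      intro i hi
      refine lt_of_le_of_lt (mul_le_mul_of_nonneg_right ?_ hd.le) hlt
      have a1 := tau_mono hp hc (by omega : j ≤ j + i) (by omega)
      have a2 := tau_mono hp hc (by omega : j + i + 2 ≤ j + (K₀ + 1)) (by omega)
      linarith
    rcases hp.step j (by omega) with h0 | h0
    · have all : ∀ i < K₀ + 1, RStep X e r (j + i) := by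
        intro i hi
        induction i with
        | zero => exact h0
        | succ i ih =>
          have hi' := ih (by omega)
          rcases hp.step (j + i + 1) (by omega) with h1 | h1
          · exact h1
          · exact absurd (right_left hM hm' hM' hp hc (by omega) hi' h1)
              (not_le.2 (hmono i (by omega)))
      have := run_right hm hM hm' hM' hK hp hc hj all
      omega
    · have all : ∀ i < K₀ + 1, LStep X e r (j + i) := by
        intro i hi
        induction i with
        | zero => exact h0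
        | succ i ih =>
          have hi' := ih (by omega)
          rcases hp.step (j + i + 1) (by omega) with h1 | h1
          · exact absurd (left_right hM hm' hM' hp hc (by omega) hi' h1)
              (not_le.2 (hmono i (by omega)))
          · exact h1
      have := run_left hm hM hm' hM' hK hp hc hj all
      omega
  have blocks : ∀ q : ℕ, q * (K₀ + 1) ≤ n →
      q * (m / M) ≤ (X.tau e r d (q * (K₀ + 1)) - X.tau e r d 0) * ‖d‖ := by
    intro q
    induction q with
    | zero => intro _; simp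
    | succ q ih =>
      intro hq
      have hq' : q * (K₀ + 1) + (K₀ + 1) ≤ n := by
        rw [Nat.succ_mul] at hq; exact hq
      have a1 := ih (by omega)
      have a2 := block (q * (K₀ + 1)) hq'
      have e1 : (q + 1) * (K₀ + 1) = q * (K₀ + 1) + (K₀ + 1) := by ring
      rw [e1]
      push_cast
      nlinarith
  by_contra hn
  push Not at hn
  have b := blocks (⌈B / (m / M)⌉₊ + 1) hn.le
  have c := tau_mono hp hc hn.le (le_refl n)
  have t0 := tau_zero_pos hp hc
  have hd := norm_pos_of_crosses hc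
  have h1 : (X.tau e r d ((⌈B / (m / M)⌉₊ + 1) * (K₀ + 1)) - X.tau e r d 0) * ‖d‖ ≤ B := by
    refine le_trans (mul_le_mul_of_nonneg_right ?_ hd.le) hB
    linarith
  have h2 : B / (m / M) < (⌈B / (m / M)⌉₊ + 1 : ℕ) := by
    push_cast
    have := Nat.le_ceil (B / (m / M))
    linarith
  rw [div_lt_iff₀ hδ] at h2
  linarith

end TransSurf

end SAD
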