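import Pool.Agent.Lib.SAD.Defs

/-!
# Equal counting in the ellipses near the round one gives a doubling property

PLAN.
`exists_cover`: for `s > 1` close to `1` and a unit vector `u = (c, d)` the symmetric matrix
`A = [[c²/s + d² s, c d (1/s - s)], [c d (1/s - s), d²/s + c² s]]` has determinant one, maps `v = ‖v‖ u`
to `v/s`, and is within `ε` of the identity.  So for `‖v‖ ≤ l := (1+s)/2 < s` some `A` within `ε` of
the identity has `‖act A v‖ < 1`; the sets `{v | ‖act A v‖ < 1}` are open; use compactness of the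
closed disc of radius `l`.
`exists_doubling`: for `R > 0`, `‖h i‖ ≤ l R` implies `‖act A (h i)‖ ≤ R` for some `A` in the finite set,
so `N h (l R) ≤ ∑_A N (A h) R`, and `N (A h) R ≤ 2 N h R` for `R ≥ R₀` (as the ratio tends to `1`
and `N h R > 0`); for `0 ≤ R ≤ R₀` use `C = N h (l R₀)`.
`summable_of_doubling`: `N h (l^j) ≤ C' K'^j` by induction (`K' = K + C + 1` say), so
`∑_i exp (-t ‖h i‖²) ≤ N h 1 + ∑_j N h (l^(j+1)) exp (-t l^(2j)) < ∞`.
-/

open Filter Topology MeasureTheory Set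
open scoped MatrixGroups

namespace SAD

variable {ι : Type*} {h : ι → ℂ}

/-- the symmetric matrix of determinant one with the eigenvalue `1 / s` in the direction
`(c, d)` -/
lemma exists_shrink {ε : ℝ} (hε : 0 < ε) {s : ℝ} (hs : 1 < s) (hs2 : 2 * (s - 1) < ε) (v : ℂ) :
    ∃ A : SL(2, ℝ), (∀ i j, |A i j - (1 : Matrix (Fin 2) (Fin 2) ℝ) i j| < ε) ∧
      ‖act A v‖ = ‖v‖ / s := by
  have hs0 : 0 < s := by linarith
  by_cases hv : v = 0
  · subst hv
    refine ⟨1, ?_, ?_⟩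
    · intro i j
      rw [Matrix.SpecialLinearGroup.coe_one, sub_self, abs_zero]
      exact hε
    · rw [act_zero, norm_zero, zero_div]
  have hr : 0 < ‖v‖ := norm_pos_iff.2 hv
  set r := ‖v‖ with hrdef
  obtain ⟨c, hc⟩ : ∃ c, c = v.re / r := ⟨_, rfl⟩
  obtain ⟨d, hd⟩ : ∃ d, d = v.im / r := ⟨_, rfl⟩
  have hvc : v.re = r * c := by rw [hc]; field_simp
  have hvd : v.im = r * d := by rw [hd]; field_simp
  have hcd : c ^ 2 + d ^ 2 = 1 := by
    have h1 : v.re ^ 2 + v.im ^ 2 = r ^ 2 := by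
      rw [hrdef, Complex.sq_norm, Complex.normSq_apply]
      ring
    rw [hvc, hvd] at h1
    have h2 : r ^ 2 * (c ^ 2 + d ^ 2 - 1) = 0 := by linarith
    rcases mul_eq_zero.1 h2 with h3 | h3
    · exact absurd h3 (by positivity)
    · linarith
  obtain ⟨q, hq⟩ : ∃ q, q = 1 / s := ⟨_, rfl⟩
  have hqs : q * s = 1 := by rw [hq]; field_simp
  have hq0 : 0 < q := by rw [hq]; positivity
  have hq1 : q < 1 := by
    rw [hq, div_lt_one hs0]
    exact hs
  have hsq : s - q < ε := by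
    have h1 : (1 - q) * s = s - 1 := by rw [sub_mul, hqs, one_mul]
    have h2 : 1 - q ≤ s - 1 := by
      rw [← h1]
      nlinarith
    linarith
  have hdet : Matrix.det !![c ^ 2 * q + d ^ 2 * s, c * d * (q - s);
      c * d * (q - s), d ^ 2 * q + c ^ 2 * s] = 1 := by
    rw [Matrix.det_fin_two_of]
    have h1 : (c ^ 2 * q + d ^ 2 * s) * (d ^ 2 * q + c ^ 2 * s) -
        c * d * (q - s) * (c * d * (q - s)) = (q * s) * (c ^ 2 + d ^ 2) ^ 2 := by ring
    rw [h1, hqs, hcd]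
    norm_num
  have hc2 : c ^ 2 ≤ 1 := by nlinarith [sq_nonneg d]
  have hd2 : d ^ 2 ≤ 1 := by nlinarith [sq_nonneg c]
  have hcdabs : |c * d| ≤ 1 := by
    rw [abs_le]
    constructor
    · nlinarith [sq_nonneg (c + d)]
    · nlinarith [sq_nonneg (c - d)]
  have hoff : |c * d * (q - s)| < ε := by
    rw [abs_mul]
    have h1 : |q - s| < ε := by
      rw [abs_lt]
      constructor
      · linarith
      · linarith
    calc |c * d| * |q - s| ≤ 1 * |q - s| := by gcongr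
      _ < ε := by rw [one_mul]; exact h1
  refine ⟨⟨_, hdet⟩, ?_, ?_⟩
  · intro i j
    fin_cases i <;> fin_cases j
    · show |c ^ 2 * q + d ^ 2 * s - 1| < ε
      have h1 : c ^ 2 * q + d ^ 2 * s - 1 = c ^ 2 * (q - 1) + d ^ 2 * (s - 1) := by
        linear_combination hcd
      rw [h1, abs_lt]
      constructor
      · nlinarith [sq_nonneg c, sq_nonneg d]
      · nlinarith [sq_nonneg c, sq_nonneg d]
    · show |c * d * (q - s) - 0| < ε
      rw [sub_zero]
      exact hoff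
    · show |c * d * (q - s) - 0| < ε
      rw [sub_zero]
      exact hoff
    · show |d ^ 2 * q + c ^ 2 * s - 1| < ε
      have h1 : d ^ 2 * q + c ^ 2 * s - 1 = d ^ 2 * (q - 1) + c ^ 2 * (s - 1) := by
        linear_combination hcd
      rw [h1, abs_lt]
      constructor
      · nlinarith [sq_nonneg c, sq_nonneg d]
      · nlinarith [sq_nonneg c, sq_nonneg d]
  · have h1 : act (⟨_, hdet⟩ : SL(2, ℝ)) v = (q : ℂ) * v := by
      apply Complex.ext
      · show (c ^ 2 * q + d ^ 2 * s) * v.re + c * d * (q - s) * v.im = _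
        rw [Complex.re_ofReal_mul, hvc, hvd]
        linear_combination (r * c * q) * hcd
      · show c * d * (q - s) * v.re + (d ^ 2 * q + c ^ 2 * s) * v.im = _
        rw [Complex.im_ofReal_mul, hvc, hvd]
        linear_combination (r * d * q) * hcd
    rw [h1, norm_mul, Complex.norm_real, Real.norm_eq_abs, abs_of_pos hq0, hq, ← hrdef]
    ring

lemma exists_cover {ε : ℝ} (hε : 0 < ε) :
    ∃ l : ℝ, 1 < l ∧ ∃ F : Finset (SL(2, ℝ)),
      (∀ A ∈ F, ∀ i j, |A i j - (1 : Matrix (Fin 2) (Fin 2) ℝ) i j| < ε) ∧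
      ∀ v : ℂ, ‖v‖ ≤ l → ∃ A ∈ F, ‖act A v‖ < 1 := by
  obtain ⟨s, hs⟩ : ∃ s, s = 1 + ε / 4 := ⟨_, rfl⟩
  have hs1 : 1 < s := by rw [hs]; linarith
  have hs2 : 2 * (s - 1) < ε := by rw [hs]; linarith
  have hs0 : 0 < s := by linarith
  refine ⟨(1 + s) / 2, by linarith, ?_⟩
  obtain ⟨b', hb', hfin, hcov⟩ := (isCompact_closedBall (0 : ℂ) ((1 + s) / 2)).elim_finite_subcover_image
    (b := {A : SL(2, ℝ) | ∀ i j, |A i j - (1 : Matrix (Fin 2) (Fin 2) ℝ) i j| < ε})
    (c := fun A => {v : ℂ | ‖act A v‖ < 1})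
    (fun A _ => isOpen_lt (continuous_act A).norm continuous_const) (by
      intro v hv
      rw [mem_closedBall_zero_iff] at hv
      obtain ⟨A, hA, hAv⟩ := exists_shrink hε hs1 hs2 v
      rw [mem_iUnion₂]
      refine ⟨A, hA, ?_⟩
      show ‖act A v‖ < 1
      rw [hAv, div_lt_one hs0]
      linarith)
  refine ⟨hfin.toFinset, ?_, ?_⟩
  · intro A hA
    exact hb' (hfin.mem_toFinset.1 hA)
  · intro v hv
    have h1 := hcov (mem_closedBall_zero_iff.2 hv)
    rw [mem_iUnion₂] at h1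
    obtain ⟨A, hA, hAv⟩ := h1
    exact ⟨A, hfin.mem_toFinset.2 hA, hAv⟩

theorem exists_doubling (hf : LocFin h) (hpos : ∀ᶠ R in atTop, 0 < N h R) {ε : ℝ} (hε : 0 < ε)
    (hc : ∀ A : SL(2, ℝ), (∀ i j, |A i j - (1 : Matrix (Fin 2) (Fin 2) ℝ) i j| < ε) →
      Tendsto (fun R => N (fun i => act A (h i)) R / N h R) atTop (𝓝 1)) :
    ∃ l K C : ℝ, 1 < l ∧ 0 < K ∧ 0 ≤ C ∧ ∀ R : ℝ, 0 ≤ R → N h (l * R) ≤ K * N h R + C := by
  obtain ⟨l, hl, F, hF, hcov⟩ := exists_cover hε
  have hl0 : 0 < l := by linarith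
  have hev : ∀ᶠ R in atTop, ∀ A ∈ F, N (fun i => act A (h i)) R ≤ 2 * N h R := by
    rw [Finset.eventually_all]
    intro A hA
    filter_upwards [(hc A (hF A hA)).eventually_lt_const (show (1 : ℝ) < 2 by norm_num), hpos]
      with R h1 h2
    rw [div_lt_iff₀ h2] at h1
    exact h1.le
  obtain ⟨R₀, hR₀⟩ := eventually_atTop.1 (hev.and (eventually_gt_atTop 0))
  have hR₀0 : 0 < R₀ := (hR₀ R₀ le_rfl).2
  refine ⟨l, 2 * (F.card : ℝ) + 1, N h (l * R₀), hl, by positivity, N_nonneg _ _, ?_⟩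
  intro R hR
  by_cases hRR : R₀ ≤ R
  · have hRpos : 0 < R := lt_of_lt_of_le hR₀0 hRR
    have h1 : N h (l * R) ≤ ∑ A ∈ F, N (fun i => act A (h i)) R := by
      have h2 : {i | ‖h i‖ ≤ l * R} ⊆ ⋃ A ∈ F, {i | ‖act A (h i)‖ ≤ R} := by
        intro i hi
        have hi' : ‖h i‖ ≤ l * R := hi
        have h3 : ‖h i / (R : ℂ)‖ ≤ l := by
          rw [norm_div, Complex.norm_real, Real.norm_eq_abs, abs_of_pos hRpos,
            div_le_iff₀ hRpos]
          exact hi'
        obtain ⟨A, hA, hA2⟩ := hcov _ h3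
        rw [act_div, norm_div, Complex.norm_real, Real.norm_eq_abs, abs_of_pos hRpos,
          div_lt_one hRpos] at hA2
        rw [mem_iUnion₂]
        exact ⟨A, hA, hA2.le⟩
      have hfinU : (⋃ A ∈ F, {i | ‖act A (h i)‖ ≤ R}).Finite :=
        Set.Finite.biUnion F.finite_toSet (fun A _ => (hf.act A).2 R)
      have h3 : ({i | ‖h i‖ ≤ l * R}).ncard ≤ ∑ A ∈ F, ({i | ‖act A (h i)‖ ≤ R}).ncard :=
        (Set.ncard_le_ncard h2 hfinU).trans (Finset.set_ncard_biUnion_le F _)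
      unfold N
      exact_mod_cast h3
    have h2 : ∑ A ∈ F, N (fun i => act A (h i)) R ≤ F.card * (2 * N h R) := by
      have := Finset.sum_le_card_nsmul F (fun A => N (fun i => act A (h i)) R) (2 * N h R)
        (fun A hA => (hR₀ R hRR).1 A hA)
      rwa [nsmul_eq_mul] at this
    have h3 := N_nonneg h R
    have h4 := N_nonneg h (l * R₀)
    nlinarith
  · push Not at hRR
    have h1 : N h (l * R) ≤ N h (l * R₀) := N_mono hf (by gcongr)
    have h3 := N_nonneg h R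
    have h4 : 0 ≤ (2 * (F.card : ℝ) + 1) * N h R := by positivity
    linarith

theorem summable_of_doubling (hf : LocFin h)
    (hd : ∃ l K C : ℝ, 1 < l ∧ 0 < K ∧ 0 ≤ C ∧ ∀ R : ℝ, 0 ≤ R → N h (l * R) ≤ K * N h R + C)
    {t : ℝ} (ht : 0 < t) : Summable (fun i => Real.exp (-(t * ‖h i‖ ^ 2))) := by
  classical
  obtain ⟨l, K, C, hl, hK, hC, hd⟩ := hd
  have hl0 : 0 < l := by linarith
  obtain ⟨K', hK'⟩ : ∃ K', K' = K + C + 1 := ⟨_, rfl⟩
  have hK'1 : 1 ≤ K' := by rw [hK']; linarith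
  have hK'0 : 0 < K' := by linarith
  obtain ⟨M, hM⟩ : ∃ M, M = N h 1 + 1 := ⟨_, rfl⟩
  have hM1 : 1 ≤ M := by
    have := N_nonneg h 1
    rw [hM]
    linarith
  have hM0 : 0 < M := by linarith
  -- growth along the powers of `l`
  have hgrow : ∀ j : ℕ, N h (l ^ j) ≤ M * K' ^ j := by
    intro j
    induction j with
    | zero =>
      rw [pow_zero, pow_zero, mul_one, hM]
      linarith
    | succ j ih =>
      have h1 := hd (l ^ j) (by positivity)
      rw [← pow_succ'] at h1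
      have h2 : K * N h (l ^ j) ≤ K * (M * K' ^ j) := by gcongr
      have h3 : 1 ≤ M * K' ^ j := by
        have : 1 ≤ K' ^ j := one_le_pow₀ hK'1
        nlinarith
      have h4 : C ≤ C * (M * K' ^ j) := by nlinarith
      have h5 : M * K' ^ (j + 1) = (K + C + 1) * (M * K' ^ j) := by rw [pow_succ, ← hK']; ring
      rw [h5]
      nlinarith
  -- the bound in the shell `m`
  obtain ⟨b, hb0, hbs⟩ : ∃ b : ℕ → ℝ, b 0 = 1 ∧ ∀ j, b (j + 1) = Real.exp (-(t * (l ^ j) ^ 2)) :=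
    ⟨fun m => Nat.casesOn m 1 (fun j => Real.exp (-(t * (l ^ j) ^ 2))), rfl, fun j => rfl⟩
  have hbnn : ∀ m, 0 ≤ b m := by
    intro m
    cases m with
    | zero => rw [hb0]; norm_num
    | succ j => rw [hbs]; positivity
  have hG : Summable (fun m => N h (l ^ m) * b m) := by
    rw [← summable_nat_add_iff 1]
    obtain ⟨p, hp⟩ := pow_unbounded_of_one_lt K' hl
    have hlp : 1 < l ^ p := lt_of_le_of_lt hK'1 hp
    have hlp0 : 0 < l ^ p := by linarith
    have hgeo : Summable (fun j : ℕ => (M * K' * (p.factorial / t ^ p)) * ((l ^ p)⁻¹) ^ j) := by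
      apply Summable.mul_left
      apply summable_geometric_of_lt_one (by positivity)
      exact inv_lt_one_of_one_lt₀ hlp
    refine Summable.of_nonneg_of_le (fun j => mul_nonneg (N_nonneg _ _) (hbnn _)) (fun j => ?_) hgeo
    rw [hbs]
    have h1 := hgrow (j + 1)
    have hx : 0 < t * (l ^ j) ^ 2 := by positivity
    have h2 : Real.exp (-(t * (l ^ j) ^ 2)) ≤ p.factorial / (t * (l ^ j) ^ 2) ^ p := by
      rw [Real.exp_neg]
      have h3 := Real.pow_div_factorial_le_exp _ hx.le p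
      have h4 : 0 < (t * (l ^ j) ^ 2) ^ p / (p.factorial : ℝ) := by positivity
      calc (Real.exp (t * (l ^ j) ^ 2))⁻¹ ≤ ((t * (l ^ j) ^ 2) ^ p / (p.factorial : ℝ))⁻¹ := by
            gcongr
        _ = p.factorial / (t * (l ^ j) ^ 2) ^ p := by rw [inv_div]
    have h5 : K' ^ j ≤ (l ^ p) ^ j := by gcongr
    calc N h (l ^ (j + 1)) * Real.exp (-(t * (l ^ j) ^ 2))
        ≤ (M * K' ^ (j + 1)) * (p.factorial / (t * (l ^ j) ^ 2) ^ p) := by gcongr
      _ = (M * K' * (p.factorial / t ^ p)) * (K' ^ j / ((l ^ p) ^ j * (l ^ p) ^ j)) := by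
        have e1 : (t * (l ^ j) ^ 2) ^ p = t ^ p * ((l ^ p) ^ j * (l ^ p) ^ j) := by
          rw [mul_pow, ← pow_mul, ← pow_mul, ← pow_mul, ← pow_add]
          congr 2
          ring
        rw [e1, pow_succ]
        field_simp
      _ ≤ (M * K' * (p.factorial / t ^ p)) * ((l ^ p) ^ j / ((l ^ p) ^ j * (l ^ p) ^ j)) := by
        gcongr
      _ = (M * K' * (p.factorial / t ^ p)) * ((l ^ p)⁻¹) ^ j := by
        rw [inv_pow]
        field_simp
  -- the shell of a member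
  have hex : ∀ i, ∃ m : ℕ, ‖h i‖ ≤ l ^ m := by
    intro i
    obtain ⟨m, hm⟩ := pow_unbounded_of_one_lt ‖h i‖ hl
    exact ⟨m, hm.le⟩
  obtain ⟨g, hg1, hg2⟩ : ∃ g : ι → ℕ, (∀ i, ‖h i‖ ≤ l ^ g i) ∧
      ∀ i, Real.exp (-(t * ‖h i‖ ^ 2)) ≤ b (g i) := by
    refine ⟨fun i => Nat.find (hex i), fun i => Nat.find_spec (hex i), fun i => ?_⟩
    rcases hm : Nat.find (hex i) with _ | j
    · show _ ≤ b (Nat.find (hex i))
      rw [hm, hb0]
      rw [Real.exp_le_one_iff]
      have : 0 ≤ t * ‖h i‖ ^ 2 := by positivity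
      linarith
    · show _ ≤ b (Nat.find (hex i))
      rw [hm, hbs]
      have h1 : ¬ ‖h i‖ ≤ l ^ j := Nat.find_min (hex i) (by rw [hm]; exact Nat.lt_succ_self j)
      push Not at h1
      rw [Real.exp_le_exp]
      have h2 : (l ^ j) ^ 2 ≤ ‖h i‖ ^ 2 := by gcongr
      nlinarith
  refine summable_of_sum_le (c := ∑' m, N h (l ^ m) * b m) (fun i => by positivity) (fun u => ?_)
  calc ∑ i ∈ u, Real.exp (-(t * ‖h i‖ ^ 2)) ≤ ∑ i ∈ u, b (g i) := Finset.sum_le_sum fun i _ => hg2 i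
    _ = ∑ m ∈ u.image g, (u.filter (fun i => g i = m)).card • b m := Finset.sum_comp b g
    _ ≤ ∑ m ∈ u.image g, N h (l ^ m) * b m := by
      apply Finset.sum_le_sum
      intro m _
      rw [nsmul_eq_mul]
      apply mul_le_mul_of_nonneg_right _ (hbnn m)
      unfold N
      have h1 : ((u.filter (fun i => g i = m) : Finset ι) : Set ι) ⊆ {i | ‖h i‖ ≤ l ^ m} := by
        intro i hi
        rw [Finset.mem_coe, Finset.mem_filter] at hi
        show ‖h i‖ ≤ l ^ m
        rw [← hi.2]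
        exact hg1 i
      have h2 := Set.ncard_le_ncard h1 (hf.2 _)
      rw [Set.ncard_coe_finset] at h2
      exact_mod_cast h2
    _ ≤ ∑' m, N h (l ^ m) * b m :=
      hG.sum_le_tsum _ (fun m _ => mul_nonneg (N_nonneg _ _) (hbnn m))

end SAD
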