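import Mathlib

/-!
# Comparison of counting functions gives comparison of Laplace transforms

PLAN.  `exp (-(t x)) = ∫_{s ≥ x} t exp (-(t s)) ds` for `x ≥ 0`.  So, in `ℝ≥0∞`,
`∑' i, exp (-(t x i)) = ∫⁻ s in Ioi 0, t exp (-(t s)) * #{i | x i ≤ s}` (`lintegral_tsum`, the index
type is countable because all `{i | x i ≤ s}` are finite; it may be easier to integrate over
`Ici 0`).  Insert the hypothesis; `∫_0^∞ C t exp (-(t s)) ds = C`.
-/

open Filter Topology MeasureTheory Set

namespace SAD

namespace LaplaceAux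

theorem countable_of {ι : Type*} {x : ι → ℝ} (hxf : ∀ s : ℝ, {i | x i ≤ s}.Finite) :
    Countable ι := by
  have h : (Set.univ : Set ι) = ⋃ n : ℕ, {i | x i ≤ (n : ℝ)} := by
    ext i
    simp only [mem_univ, mem_iUnion, true_iff]
    exact exists_nat_ge (x i)
  rw [← Set.countable_univ_iff, h]
  exact Set.countable_iUnion fun n => (hxf n).countable

theorem lint {t : ℝ} (ht : 0 < t) (c : ℝ) :
    ∫⁻ s in Ioi c, ENNReal.ofReal (t * Real.exp (-(t * s))) =
      ENNReal.ofReal (Real.exp (-(t * c))) := by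
  have h0 : -t < 0 := by linarith
  have h1 : IntegrableOn (fun s : ℝ => t * Real.exp (-(t * s))) (Ioi c) := by
    have h2 := (integrableOn_exp_mul_Ioi h0 c).const_mul t
    have h3 : (fun s : ℝ => t * Real.exp (-(t * s))) = fun s => t * Real.exp (-t * s) := by
      funext s
      rw [neg_mul]
    rw [h3]
    exact h2
  rw [← ofReal_integral_eq_lintegral_ofReal h1 (Eventually.of_forall fun s =>
    mul_nonneg ht.le (Real.exp_pos _).le)]
  congr 1
  have h3 := integral_exp_mul_Ioi h0 c
  have h4 : ∫ s in Ioi c, t * Real.exp (-(t * s)) = t * ∫ s in Ioi c, Real.exp (-t * s) := by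
    rw [← integral_const_mul]
    simp only [neg_mul]
  rw [h4, h3, neg_mul]
  field_simp

theorem ofReal_exp {ι : Type*} {x : ι → ℝ} (hx0 : ∀ i, 0 ≤ x i) {t : ℝ} (ht : 0 < t) (i : ι) :
    ENNReal.ofReal (Real.exp (-(t * x i))) = ∫⁻ s in Ioi (0 : ℝ),
      (Ioi (x i)).indicator (fun s => ENNReal.ofReal (t * Real.exp (-(t * s)))) s := by
  rw [lintegral_indicator measurableSet_Ioi, Measure.restrict_restrict measurableSet_Ioi,
    Set.inter_eq_left.2 (Ioi_subset_Ioi (hx0 i)), lint ht]

theorem tsum_eq {ι : Type*} {x : ι → ℝ} (hx0 : ∀ i, 0 ≤ x i)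
    (hxf : ∀ s : ℝ, {i | x i ≤ s}.Finite) {t : ℝ} (ht : 0 < t) :
    ∑' i, ENNReal.ofReal (Real.exp (-(t * x i))) = ∫⁻ s in Ioi (0 : ℝ),
      ENNReal.ofReal (t * Real.exp (-(t * s))) * ENNReal.ofReal ({i | x i ≤ s}.ncard : ℝ) := by
  have := countable_of hxf
  have hm : Measurable fun s : ℝ => ENNReal.ofReal (t * Real.exp (-(t * s))) := by
    fun_prop
  calc ∑' i, ENNReal.ofReal (Real.exp (-(t * x i)))
      = ∑' i, ∫⁻ s in Ioi (0 : ℝ),
          (Ici (x i)).indicator (fun s => ENNReal.ofReal (t * Real.exp (-(t * s)))) s := by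
        refine tsum_congr fun i => ?_
        rw [ofReal_exp hx0 ht i, lintegral_indicator measurableSet_Ioi,
          lintegral_indicator measurableSet_Ici, Measure.restrict_restrict measurableSet_Ioi,
          Measure.restrict_restrict measurableSet_Ici]
        refine setLIntegral_congr ?_
        exact (Ioi_ae_eq_Ici (a := x i)).inter (ae_eq_refl _)
    _ = ∫⁻ s in Ioi (0 : ℝ), ∑' i,
          (Ici (x i)).indicator (fun s => ENNReal.ofReal (t * Real.exp (-(t * s)))) s := by
        rw [lintegral_tsum fun i => (hm.indicator measurableSet_Ici).aemeasurable]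
    _ = _ := by
        refine lintegral_congr fun s => ?_
        have hfin := hxf s
        rw [tsum_eq_sum (s := hfin.toFinset) (fun i hi => ?_)]
        · have h1 : ∀ i ∈ hfin.toFinset,
              (Ici (x i)).indicator (fun s => ENNReal.ofReal (t * Real.exp (-(t * s)))) s =
                ENNReal.ofReal (t * Real.exp (-(t * s))) := by
            intro i hi
            rw [Set.Finite.mem_toFinset] at hi
            exact indicator_of_mem (show s ∈ Ici (x i) from hi) _
          rw [Finset.sum_congr rfl h1, Finset.sum_const, nsmul_eq_mul, mul_comm,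
            ENNReal.ofReal_natCast, Set.ncard_eq_toFinset_card _ hfin]
        · rw [Set.Finite.mem_toFinset] at hi
          exact indicator_of_notMem (fun h : s ∈ Ici (x i) => hi h) _

end LaplaceAux

open LaplaceAux in
theorem tsum_exp_le {ι : Type*} {x y : ι → ℝ} (hx0 : ∀ i, 0 ≤ x i) (hy0 : ∀ i, 0 ≤ y i)
    (hxf : ∀ s : ℝ, {i | x i ≤ s}.Finite) (hyf : ∀ s : ℝ, {i | y i ≤ s}.Finite)
    {K C : ℝ} (hK : 0 ≤ K) (hC : 0 ≤ C)
    (hle : ∀ s : ℝ, 0 ≤ s → ({i | y i ≤ s}.ncard : ℝ) ≤ K * ({i | x i ≤ s}.ncard : ℝ) + C)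
    {t : ℝ} (ht : 0 < t) (hs : Summable fun i => Real.exp (-(t * x i))) :
    Summable (fun i => Real.exp (-(t * y i))) ∧
      ∑' i, Real.exp (-(t * y i)) ≤ K * ∑' i, Real.exp (-(t * x i)) + C := by
  have hm : Measurable fun s : ℝ => ENNReal.ofReal (t * Real.exp (-(t * s))) := by
    fun_prop
  have hX : ∑' i, ENNReal.ofReal (Real.exp (-(t * x i))) =
      ENNReal.ofReal (∑' i, Real.exp (-(t * x i))) :=
    (ENNReal.ofReal_tsum_of_nonneg (fun i => (Real.exp_pos _).le) hs).symm
  have hX0 : 0 ≤ ∑' i, Real.exp (-(t * x i)) := tsum_nonneg fun i => (Real.exp_pos _).le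
  have h1 : ∑' i, ENNReal.ofReal (Real.exp (-(t * y i))) ≤
      ENNReal.ofReal (K * ∑' i, Real.exp (-(t * x i)) + C) := by
    calc ∑' i, ENNReal.ofReal (Real.exp (-(t * y i)))
        = ∫⁻ s in Ioi (0 : ℝ), ENNReal.ofReal (t * Real.exp (-(t * s))) *
            ENNReal.ofReal ({i | y i ≤ s}.ncard : ℝ) := tsum_eq hy0 hyf ht
      _ ≤ ∫⁻ s in Ioi (0 : ℝ), (ENNReal.ofReal K * (ENNReal.ofReal (t * Real.exp (-(t * s))) *
            ENNReal.ofReal ({i | x i ≤ s}.ncard : ℝ)) +
            ENNReal.ofReal C * ENNReal.ofReal (t * Real.exp (-(t * s)))) := by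
          refine setLIntegral_mono' measurableSet_Ioi fun s hs0 => ?_
          have h2 := hle s (le_of_lt hs0)
          calc ENNReal.ofReal (t * Real.exp (-(t * s))) * ENNReal.ofReal ({i | y i ≤ s}.ncard : ℝ)
              ≤ ENNReal.ofReal (t * Real.exp (-(t * s))) *
                ENNReal.ofReal (K * ({i | x i ≤ s}.ncard : ℝ) + C) := by gcongr
            _ = _ := by
              rw [ENNReal.ofReal_add (by positivity) hC, ENNReal.ofReal_mul hK]
              ring
      _ = ENNReal.ofReal K * ∑' i, ENNReal.ofReal (Real.exp (-(t * x i))) +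
            ENNReal.ofReal C * 1 := by
          rw [lintegral_add_right _ (hm.const_mul _), lintegral_const_mul' _ _ ENNReal.ofReal_ne_top,
            lintegral_const_mul' _ _ ENNReal.ofReal_ne_top, ← tsum_eq hx0 hxf ht, lint ht]
          simp
      _ = ENNReal.ofReal (K * ∑' i, Real.exp (-(t * x i)) + C) := by
          rw [hX, mul_one, ENNReal.ofReal_add (by positivity) hC, ENNReal.ofReal_mul hK]
  have hsum : Summable (fun i => Real.exp (-(t * y i))) := by
    have h3 : ∑' i, ENNReal.ofReal (Real.exp (-(t * y i))) ≠ ⊤ :=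
      ne_top_of_le_ne_top ENNReal.ofReal_ne_top h1
    have h4 := ENNReal.summable_toReal h3
    refine h4.congr fun i => ?_
    rw [ENNReal.toReal_ofReal (Real.exp_pos _).le]
  refine ⟨hsum, ?_⟩
  rw [← ENNReal.ofReal_tsum_of_nonneg (fun i => (Real.exp_pos _).le) hsum] at h1
  exact (ENNReal.ofReal_le_ofReal_iff (by positivity)).1 h1

end SAD
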