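import Pool.Agent.Lib.SAD.GDefs
import Pool.Agent.Lib.SAD.Laplace
import Pool.Agent.Lib.SAD.Doubling

/-!
# Basic facts on Gaussian sums

PLAN.
`GReg.of_count`: `summable` is `summable_of_doubling`; `nonempty` and `tendsto`: the lower bound
`c R ≤ N h R` and `N h R ≤ e * G h R` (drop all terms with `‖h i‖ > R`); `doubling`: apply
`tsum_exp_le` with `x i = ‖h i‖²`, `y i = ‖h i‖²/l²`, `t = R⁻²` (`{y i ≤ s} = {‖h i‖ ≤ l √s}`,
`{x i ≤ s} = {‖h i‖ ≤ √s}`): `G h (l R) ≤ K G h R + C ≤ (K+1) G h R` once `G h R ≥ C`.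
`L_E`: the exponents add up: `exp(-(‖h‖/R)²) * E a w ((h/R)²) = exp(-(((1+a) ‖h‖² + Re (w h²))/R²))`.
`L_E_zero`: in particular `L h (E a 0) R = G h (R/√(1+a)) / G h R`.
-/

open Filter Topology MeasureTheory Set
open scoped MatrixGroups

namespace SAD

variable {ι : Type*} {h : ι → ℂ}

lemma summable_G (hs : ∀ t : ℝ, 0 < t → Summable (fun i => Real.exp (-(t * ‖h i‖ ^ 2))))
    {R : ℝ} (hR : 0 < R) : Summable (fun i => Real.exp (-(‖h i‖ / R) ^ 2)) := by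
  refine (hs ((R ^ 2)⁻¹) (by positivity)).congr fun i => ?_
  congr 2
  rw [div_pow, div_eq_inv_mul]

lemma N_le_G (hf : LocFin h)
    (hs : ∀ t : ℝ, 0 < t → Summable (fun i => Real.exp (-(t * ‖h i‖ ^ 2))))
    {R : ℝ} (hR : 0 < R) : N h R ≤ Real.exp 1 * G h R := by
  have hfin := hf.2 R
  have hsum := summable_G hs hR
  unfold N G
  rw [Set.ncard_eq_toFinset_card _ hfin, ← tsum_mul_left]
  have h1 : ((hfin.toFinset.card : ℕ) : ℝ) ≤
      ∑ i ∈ hfin.toFinset, Real.exp 1 * Real.exp (-(‖h i‖ / R) ^ 2) := by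
    rw [Finset.card_eq_sum_ones, Nat.cast_sum]
    refine Finset.sum_le_sum fun i hi => ?_
    rw [Set.Finite.mem_toFinset] at hi
    have hi' : ‖h i‖ ≤ R := hi
    rw [← Real.exp_add, Nat.cast_one]
    have h2 : ‖h i‖ / R ≤ 1 := (div_le_one hR).2 hi'
    have h3 : 0 ≤ ‖h i‖ / R := by positivity
    have h4 : (‖h i‖ / R) ^ 2 ≤ 1 := pow_le_one₀ h3 h2
    exact Real.one_le_exp (by linarith)
  refine h1.trans ?_
  exact (hsum.mul_left _).sum_le_tsum _ fun i _ => by positivity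

/-- The Gaussian sum is at least a multiple of the counting function, hence tends to infinity. -/
lemma tendsto_G_of_lower (hf : LocFin h)
    (hs : ∀ t : ℝ, 0 < t → Summable (fun i => Real.exp (-(t * ‖h i‖ ^ 2))))
    (hlow : ∃ c : ℝ, 0 < c ∧ ∀ᶠ R in atTop, c * R ≤ N h R) : Tendsto (G h) atTop atTop := by
  obtain ⟨c, hc, hcR⟩ := hlow
  have h1 : Tendsto (fun R : ℝ => (c / Real.exp 1) * R) atTop atTop :=
    tendsto_id.const_mul_atTop (by positivity)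
  refine tendsto_atTop_mono' _ ?_ h1
  filter_upwards [hcR, eventually_gt_atTop 0] with R hR hR0
  have h2 := N_le_G hf hs hR0
  have h3 : c * R ≤ Real.exp 1 * G h R := hR.trans h2
  rw [div_mul_eq_mul_div, div_le_iff₀ (Real.exp_pos 1)]
  linarith

/-- The doubling inequality for Gaussian sums. -/
lemma G_doubling (hf : LocFin h)
    (hs : ∀ t : ℝ, 0 < t → Summable (fun i => Real.exp (-(t * ‖h i‖ ^ 2))))
    {l K C : ℝ} (hl : 1 < l) (hK : 0 < K) (hC : 0 ≤ C)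
    (hd : ∀ R : ℝ, 0 ≤ R → N h (l * R) ≤ K * N h R + C) {R : ℝ} (hR : 0 < R) :
    G h (l * R) ≤ K * G h R + C := by
  have hl0 : 0 < l := by linarith
  have hset : ∀ s : ℝ, {i | ‖h i‖ ^ 2 ≤ s} ⊆ {i | ‖h i‖ ≤ √s} := by
    intro s i hi
    exact Real.le_sqrt_of_sq_le hi
  have hset' : ∀ s : ℝ, 0 ≤ s → {i | ‖h i‖ ^ 2 ≤ s} = {i | ‖h i‖ ≤ √s} := by
    intro s hs0
    ext i
    simp only [mem_ofPred_eq]
    rw [Real.le_sqrt (norm_nonneg _) hs0]
  have hset2 : ∀ s : ℝ, 0 ≤ s → {i | ‖h i‖ ^ 2 / l ^ 2 ≤ s} = {i | ‖h i‖ ≤ l * √s} := by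
    intro s hs0
    ext i
    simp only [mem_ofPred_eq]
    rw [← div_pow, ← Real.le_sqrt (by positivity) hs0, div_le_iff₀ hl0, mul_comm]
  have hxf : ∀ s : ℝ, {i | ‖h i‖ ^ 2 ≤ s}.Finite := fun s => (hf.2 _).subset (hset s)
  have hyf : ∀ s : ℝ, {i | ‖h i‖ ^ 2 / l ^ 2 ≤ s}.Finite := by
    intro s
    refine (hxf (l ^ 2 * s)).subset fun i hi => ?_
    have hi' : ‖h i‖ ^ 2 / l ^ 2 ≤ s := hi
    show ‖h i‖ ^ 2 ≤ l ^ 2 * s
    rw [div_le_iff₀ (by positivity)] at hi'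
    linarith
  have key := tsum_exp_le (x := fun i => ‖h i‖ ^ 2) (y := fun i => ‖h i‖ ^ 2 / l ^ 2)
    (fun i => by positivity) (fun i => by positivity) hxf hyf hK.le hC
    (fun s hs0 => by
      have h1 := hd (√s) (Real.sqrt_nonneg s)
      unfold N at h1
      rw [← hset' s hs0, ← hset2 s hs0] at h1
      exact h1)
    (t := (R ^ 2)⁻¹) (by positivity) (hs _ (by positivity))
  have h2 := key.2
  have h3 : G h (l * R) = ∑' i, Real.exp (-((R ^ 2)⁻¹ * (‖h i‖ ^ 2 / l ^ 2))) := by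
    unfold G
    refine tsum_congr fun i => ?_
    congr 2
    field_simp
  have h4 : G h R = ∑' i, Real.exp (-((R ^ 2)⁻¹ * ‖h i‖ ^ 2)) := by
    unfold G
    refine tsum_congr fun i => ?_
    congr 2
    field_simp
  rw [h3, h4]
  exact h2

theorem GReg.of_count (hf : LocFin h) (hlow : ∃ c : ℝ, 0 < c ∧ ∀ᶠ R in atTop, c * R ≤ N h R)
    {ε : ℝ} (hε : 0 < ε)
    (hc : ∀ A : SL(2, ℝ), (∀ i j, |A i j - (1 : Matrix (Fin 2) (Fin 2) ℝ) i j| < ε) →
      Tendsto (fun R => N (fun i => act A (h i)) R / N h R) atTop (𝓝 1)) : GReg h := by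
  have hpos : ∀ᶠ R in atTop, 0 < N h R := by
    obtain ⟨c, hc0, hcR⟩ := hlow
    filter_upwards [hcR, eventually_gt_atTop 0] with R hR hR0
    exact lt_of_lt_of_le (by positivity) hR
  have hd := exists_doubling hf hpos hε hc
  have hs : ∀ t : ℝ, 0 < t → Summable (fun i => Real.exp (-(t * ‖h i‖ ^ 2))) := fun t ht =>
    summable_of_doubling hf hd ht
  have hG := tendsto_G_of_lower hf hs hlow
  refine ⟨hf, ?_, hs, hG, ?_⟩
  · obtain ⟨R, hR⟩ := hpos.exists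
    by_contra hne
    rw [not_nonempty_iff] at hne
    have h1 : N h R = 0 := by
      unfold N
      rw [Set.eq_empty_of_isEmpty {i | ‖h i‖ ≤ R}, Set.ncard_empty, Nat.cast_zero]
    linarith
  · obtain ⟨l, K, C, hl, hK, hC, hd⟩ := hd
    refine ⟨l, K + 1, hl, ?_⟩
    filter_upwards [hG.eventually_ge_atTop C, eventually_gt_atTop 0] with R hR hR0
    have h1 := G_doubling hf hs hl hK hC hd hR0
    linarith

lemma GReg.G_pos (hg : GReg h) {R : ℝ} (hR : 0 < R) : 0 < G h R := by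
  obtain ⟨i⟩ := hg.nonempty
  exact (summable_G hg.summable hR).tsum_pos (fun i => (Real.exp_pos _).le) i (Real.exp_pos _)

lemma GReg.G_mono (hg : GReg h) {R S : ℝ} (hR : 0 < R) (hRS : R ≤ S) : G h R ≤ G h S := by
  have hS : 0 < S := lt_of_lt_of_le hR hRS
  refine (summable_G hg.summable hR).tsum_le_tsum (fun i => ?_) (summable_G hg.summable hS)
  apply Real.exp_le_exp.2
  have h1 : ‖h i‖ / S ≤ ‖h i‖ / R := by gcongr
  have h2 : (‖h i‖ / S) ^ 2 ≤ (‖h i‖ / R) ^ 2 := by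
    gcongr
  linarith

lemma L_E {R : ℝ} (hR : (0:ℝ) < R) (a : ℝ) (w : ℂ) :
    L h (E a w) R =
      (∑' i, Real.exp (-(((1 + a) * ‖h i‖ ^ 2 + (w * (h i) ^ 2).re) / R ^ 2))) / G h R := by
  unfold L
  congr 1
  refine tsum_congr fun i => ?_
  unfold E
  rw [← Real.exp_add]
  congr 1
  have h1 : ‖(h i / (R : ℂ)) ^ 2‖ = ‖h i‖ ^ 2 / R ^ 2 := by
    rw [norm_pow, norm_div, Complex.norm_real, Real.norm_eq_abs, abs_of_pos hR, div_pow]
  have h2 : (w * (h i / (R : ℂ)) ^ 2).re = (w * (h i) ^ 2).re / R ^ 2 := by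
    have h3 : w * (h i / (R : ℂ)) ^ 2 = (w * (h i) ^ 2) / ((R ^ 2 : ℝ) : ℂ) := by
      push_cast
      rw [div_pow, mul_div_assoc]
    rw [h3, Complex.div_ofReal_re]
  rw [h1, h2]
  ring

lemma L_E_zero {R : ℝ} (hR : (0:ℝ) < R) {a : ℝ} (ha : 0 ≤ a) :
    L h (E a 0) R = G h (R / √(1 + a)) / G h R := by
  rw [L_E hR]
  congr 1
  unfold G
  refine tsum_congr fun i => ?_
  congr 2
  have h1 : (0:ℝ) < 1 + a := by linarith
  have h2 : √(1 + a) ^ 2 = 1 + a := Real.sq_sqrt h1.le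
  have h3 : 0 < √(1 + a) := Real.sqrt_pos.2 h1
  rw [zero_mul, Complex.zero_re, add_zero, div_pow, div_pow, h2]
  field_simp

end SAD
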