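import Pool.Agent.Lib.SAD.TwoPt
import Pool.Agent.Lib.SAD.GBasic

/-!
# Doubling from equidistribution and one counting ratio

PLAN.
`exists_doubling_of_equi`: `A` is not orthogonal, so there is a unit vector `u₀` with
`‖act A u₀‖ < 1` (`exists_interval` in `TwoPt.lean`, take `τ > 1`).  Let `‖act A u₀‖ < s < 1` and
`ψ z = max 0 (min 1 ((s - ‖act A z‖)/(s - ‖act A u₀‖)))`, continuous with values in `[0,1]`, `ψ u₀ = 1`, and
`ψ u ≠ 0 → ‖act A u‖ < s`.  If `‖h i‖ ≤ R/s` and `ψ (h i/‖h i‖) ≠ 0` then `‖act A (h i)‖ ≤ R`, so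
`dirSum h ψ (R/s) ≤ N (A h) R`.  With `m = circleAverage ψ 0 1 > 0`, `Equi h` gives
`(m/2) N h (R/s) ≤ dirSum h ψ (R/s) ≤ N (A h) R ≤ 2 N h R` for `R ≥ R₀`.  Put `l = 1/s`, `K = 4/m`,
`C = N h (R₀/s)`.
`GReg.of_doubling`: as in `GReg.of_count` (`GBasic.lean`; the proof there passes through exactly this
doubling property; see its plan).
-/

open Filter Topology MeasureTheory Set
open scoped MatrixGroups

namespace SAD

variable {ι : Type*} {h : ι → ℂ}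

/-- A unit vector that is shrunk. -/
lemma exists_unit_lt {A : SL(2, ℝ)} (hA : ∃ z, ‖act A z‖ ≠ ‖z‖) :
    ∃ u : ℂ, ‖u‖ = 1 ∧ ‖act A u‖ < 1 := by
  obtain ⟨α, hα, h⟩ := exists_interval hA
  have hα0 : 0 < α := by linarith
  obtain ⟨u, hu, hτ⟩ := h α ⟨(inv_le_one_of_one_le₀ hα.le).trans hα.le, le_rfl⟩
  refine ⟨u, hu, ?_⟩
  have hpos : 0 < ‖act A u‖ := by
    rw [norm_pos_iff]
    apply act_ne_zero
    rintro rfl
    simp at hu
  rw [← hτ] at hα
  exact (one_lt_inv₀ hpos).1 hα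

lemma dirSum_le_N (hf : LocFin h) (A : SL(2, ℝ)) {s δ : ℝ} (hs : 0 < s) (hδ : 0 < δ) (R : ℝ) :
    dirSum h (psi A s δ) (R / (s * (1 + δ))) ≤ N (fun i => act A (h i)) R := by
  have h1 : dirSum h (psi A s δ) (R / (s * (1 + δ))) ≤
      ∑ᶠ i ∈ {i | ‖act A (h i)‖ ≤ R}, psi A s δ (h i / (‖h i‖ : ℂ)) := by
    unfold dirSum
    refine finsum_mem_le (fun i => psi_nonneg _ _ _ _) (hf.2 _) ((hf.act A).2 _) ?_
    intro i hi hne
    have hi' : ‖h i‖ ≤ R / (s * (1 + δ)) := hi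
    show ‖act A (h i)‖ ≤ R
    have h1 := (psi_supp A hs hδ hne).2
    rw [norm_act_unit A (hf.1 i)]
    rw [le_div_iff₀ (by positivity)] at hi'
    refine le_trans ?_ hi'
    have := norm_nonneg (h i)
    gcongr
  refine h1.trans ?_
  have hfin := (hf.act A).2 R
  unfold N
  rw [Set.ncard_eq_toFinset_card _ hfin, finsum_mem_eq_finite_toFinset_sum _ hfin,
    Finset.card_eq_sum_ones, Nat.cast_sum]
  refine Finset.sum_le_sum fun i _ => ?_
  rw [Nat.cast_one]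
  exact psi_le_one A hs hδ _

theorem exists_doubling_of_equi (hf : LocFin h) (h1 : Equi h) {A : SL(2, ℝ)}
    (hA : ∃ z, ‖act A z‖ ≠ ‖z‖)
    (hc : Tendsto (fun R => N (fun i => act A (h i)) R / N h R) atTop (𝓝 1)) :
    ∃ l K C : ℝ, 1 < l ∧ 0 < K ∧ 0 ≤ C ∧ ∀ R : ℝ, 0 ≤ R → N h (l * R) ≤ K * N h R + C := by
  obtain ⟨u, hu, hu1⟩ := exists_unit_lt hA
  set s := ‖act A u‖ with hsdef
  have hs : 0 < s := by
    rw [hsdef, norm_pos_iff]
    apply act_ne_zero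
    rintro rfl
    simp at hu
  obtain ⟨δ, hδ⟩ : ∃ δ : ℝ, δ = (1 - s) / (2 * s) := ⟨_, rfl⟩
  have h1s : 0 < 1 - s := by linarith
  have hδ0 : 0 < δ := by rw [hδ]; positivity
  obtain ⟨s', hs'⟩ : ∃ s' : ℝ, s' = s * (1 + δ) := ⟨_, rfl⟩
  have hs'2 : s' = (1 + s) / 2 := by
    rw [hs', hδ]
    field_simp
    ring
  have hs'0 : 0 < s' := by rw [hs'2]; linarith
  have hs'1 : s' < 1 := by rw [hs'2]; linarith
  obtain ⟨m, hm⟩ : ∃ m : ℝ, m = Real.circleAverage (psi A s δ) 0 1 := ⟨_, rfl⟩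
  have hm0 : 0 < m := by
    rw [hm]
    exact average_pos (continuous_psi A s δ) (psi_nonneg A s δ) hu
      (by rw [hsdef, psi_self]; norm_num)
  have e1 := eventually_bounds hm0 (show (0:ℝ) < 1 / 2 by norm_num) h1.eventually_pos
    (by rw [hm]; exact h1 _ (continuous_psi A s δ))
  have t1 : Tendsto (fun R : ℝ => s'⁻¹ * R) atTop atTop :=
    tendsto_id.const_mul_atTop (by positivity)
  have e2 := eventually_bounds (show (0:ℝ) < 1 by norm_num) (show (0:ℝ) < 1 by norm_num)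
    h1.eventually_pos hc
  obtain ⟨R₀, hR₀⟩ := eventually_atTop.1 ((t1.eventually e1).and e2)
  refine ⟨s'⁻¹, 4 / m, N h (s'⁻¹ * R₀), (one_lt_inv₀ hs'0).2 hs'1, by positivity, N_nonneg _ _,
    fun R hR => ?_⟩
  have hN := N_nonneg h R
  rcases le_total R R₀ with hle | hle
  · have h3 : N h (s'⁻¹ * R) ≤ N h (s'⁻¹ * R₀) := N_mono hf (by gcongr)
    have h4 : 0 ≤ 4 / m * N h R := by positivity
    linarith
  · obtain ⟨h3, h4⟩ := hR₀ R hle
    have h5 := dirSum_le_N hf A hs hδ0 R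
    rw [← hs', div_eq_inv_mul] at h5
    have h6 : 1 / 2 * m * N h (s'⁻¹ * R) ≤ 2 * N h R := by
      have a1 := h3.1
      have a2 := h4.2
      norm_num at a1 a2 ⊢
      linarith
    have h7 : N h (s'⁻¹ * R) ≤ 4 / m * N h R := by
      rw [div_mul_eq_mul_div, le_div_iff₀ hm0]
      linarith
    have h8 := N_nonneg h (s'⁻¹ * R₀)
    linarith

theorem GReg.of_doubling (hf : LocFin h)
    (hlow : ∃ c : ℝ, 0 < c ∧ ∀ᶠ R in atTop, c * R ≤ N h R)
    (hd : ∃ l K C : ℝ, 1 < l ∧ 0 < K ∧ 0 ≤ C ∧ ∀ R : ℝ, 0 ≤ R → N h (l * R) ≤ K * N h R + C) :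
    GReg h := by
  have hpos : ∀ᶠ R in atTop, 0 < N h R := by
    obtain ⟨c, hc0, hcR⟩ := hlow
    filter_upwards [hcR, eventually_gt_atTop 0] with R hR hR0
    exact lt_of_lt_of_le (by positivity) hR
  have hs : ∀ t : ℝ, 0 < t → Summable (fun i => Real.exp (-(t * ‖h i‖ ^ 2))) := fun t ht =>
    summable_of_doubling hf hd ht
  have hG := tendsto_G_of_lower hf hs hlow
  refine ⟨hf, ?_, hs, hG, ?_⟩
  · obtain ⟨R, hR⟩ := hpos.exists
    by_contra hne
    rw [not_nonempty_iff] at hne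
    have h1 : N h R = 0 := by
      unfold N
      rw [Set.eq_empty_of_isEmpty {i | ‖h i‖ ≤ R}, Set.ncard_empty, Nat.cast_zero]
    linarith
  · obtain ⟨l, K, C, hl, hK, hC, hd⟩ := hd
    refine ⟨l, K + 1, hl, ?_⟩
    filter_upwards [hG.eventually_ge_atTop C, eventually_gt_atTop 0] with R hR hR0
    have h1 := G_doubling hf hs hl hK hC hd hR0
    linarith

end SAD
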