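import Mathlib

/-!
# Saddle connections: abstract part (MP_d36302_an, helper54)

A family `h : ι → ℂ` of plane vectors (the holonomy vectors of the saddle connections of a
translation surface, with multiplicity).  `N h R` counts the members of norm at most `R`.
* `Equi h`  : the angles of the members of norm at most `R` equidistribute on the circle.
* `RV h`    : `N h (l * R) / N h R → l ^ 2` for every `l > 0`.
* `LebLim h`: the rescaled counting measures `(N h R)⁻¹ ∑ δ_{h i / R}` converge vaguely to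
  `π⁻¹ ·` Lebesgue measure.
* `act A`   : linear action of `SL(2, ℝ)` on `ℂ = ℝ²`.
-/

open Filter Topology MeasureTheory Set
open scoped MatrixGroups

namespace SAD

/-- The cross product of two vectors of `ℂ = ℝ²`. -/
def cross (z w : ℂ) : ℝ := z.re * w.im - z.im * w.re

/-- The linear action of a real matrix of determinant one on `ℂ = ℝ²`. -/
def act (A : SL(2, ℝ)) (z : ℂ) : ℂ :=
  ⟨A 0 0 * z.re + A 0 1 * z.im, A 1 0 * z.re + A 1 1 * z.im⟩

/-- The number of members of the family of norm at most `R`. -/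
noncomputable def N {ι : Type*} (h : ι → ℂ) (R : ℝ) : ℝ :=
  ({i | ‖h i‖ ≤ R}.ncard : ℝ)

/-- The sum of `f` over the directions of the members of the family of norm at most `R`. -/
noncomputable def dirSum {ι : Type*} (h : ι → ℂ) (f : ℂ → ℝ) (R : ℝ) : ℝ :=
  ∑ᶠ i ∈ {i | ‖h i‖ ≤ R}, f (h i / (‖h i‖ : ℂ))

/-- The directions of the members of the family of norm at most `R` equidistribute with respect to
normalised Lebesgue measure of the unit circle as `R → ∞` (weak convergence). -/
def Equi {ι : Type*} (h : ι → ℂ) : Prop :=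
  ∀ f : ℂ → ℝ, Continuous f →
    Tendsto (fun R : ℝ => dirSum h f R / N h R) atTop (𝓝 (Real.circleAverage f 0 1))

/-- `N` is regularly varying with index two. -/
def RV {ι : Type*} (h : ι → ℂ) : Prop :=
  ∀ l : ℝ, 0 < l → Tendsto (fun R : ℝ => N h (l * R) / N h R) atTop (𝓝 (l ^ 2))

/-- The rescaled counting measures converge vaguely to `π⁻¹ ·` Lebesgue measure. -/
def LebLim {ι : Type*} (h : ι → ℂ) : Prop :=
  ∀ g : ℂ → ℝ, Continuous g → HasCompactSupport g →
    Tendsto (fun R : ℝ => (∑ᶠ i, g (h i / (R : ℂ))) / N h R) atTop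
      (𝓝 (Real.pi⁻¹ * ∫ z, g z))

/-- A family of nonzero vectors, finitely many in each disc. -/
def LocFin {ι : Type*} (h : ι → ℂ) : Prop :=
  (∀ i, h i ≠ 0) ∧ ∀ R : ℝ, {i | ‖h i‖ ≤ R}.Finite

/-! ### Basic facts -/

lemma cross_self (z : ℂ) : cross z z = 0 := by simp [cross]; ring

lemma cross_swap (z w : ℂ) : cross z w = - cross w z := by simp [cross]; ring

lemma cross_add_left (z w u : ℂ) : cross (z + w) u = cross z u + cross w u := by
  simp [cross]; ring

lemma cross_add_right (z w u : ℂ) : cross z (w + u) = cross z w + cross z u := by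
  simp [cross]; ring

lemma cross_sub_left (z w u : ℂ) : cross (z - w) u = cross z u - cross w u := by
  simp [cross]; ring

lemma cross_sub_right (z w u : ℂ) : cross z (w - u) = cross z w - cross z u := by
  simp [cross]; ring

lemma cross_neg_left (z w : ℂ) : cross (-z) w = - cross z w := by simp [cross]; ring

lemma cross_neg_right (z w : ℂ) : cross z (-w) = - cross z w := by simp [cross]; ring

lemma cross_smul_left (t : ℝ) (z w : ℂ) : cross (t * z) w = t * cross z w := by
  simp [cross]; ring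

lemma cross_smul_right (t : ℝ) (z w : ℂ) : cross z (t * w) = t * cross z w := by
  simp [cross]; ring

lemma abs_cross_le (z w : ℂ) : |cross z w| ≤ ‖z‖ * ‖w‖ := by
  have h1 : (cross z w) ^ 2 ≤ (‖z‖ * ‖w‖) ^ 2 := by
    rw [mul_pow, Complex.sq_norm, Complex.sq_norm, Complex.normSq_apply, Complex.normSq_apply]
    simp only [cross]
    nlinarith [sq_nonneg (z.re * w.re + z.im * w.im)]
  exact abs_le_of_sq_le_sq h1 (by positivity) |>.trans' (le_refl _) |> fun h => by
    simpa [abs_of_nonneg (by positivity : (0:ℝ) ≤ ‖z‖ * ‖w‖)] using h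

lemma det_eq (A : SL(2, ℝ)) : A 0 0 * A 1 1 - A 0 1 * A 1 0 = 1 := by
  have := A.det_coe
  rwa [Matrix.det_fin_two] at this

lemma act_re (A : SL(2, ℝ)) (z : ℂ) : (act A z).re = A 0 0 * z.re + A 0 1 * z.im := rfl

lemma act_im (A : SL(2, ℝ)) (z : ℂ) : (act A z).im = A 1 0 * z.re + A 1 1 * z.im := rfl

lemma act_add (A : SL(2, ℝ)) (z w : ℂ) : act A (z + w) = act A z + act A w := by
  apply Complex.ext <;> simp [act] <;> ring

lemma act_sub (A : SL(2, ℝ)) (z w : ℂ) : act A (z - w) = act A z - act A w := by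
  apply Complex.ext <;> simp [act] <;> ring

lemma act_neg (A : SL(2, ℝ)) (z : ℂ) : act A (-z) = - act A z := by
  apply Complex.ext <;> simp [act] <;> ring

lemma act_zero (A : SL(2, ℝ)) : act A 0 = 0 := by
  apply Complex.ext <;> simp [act]

lemma act_smul (A : SL(2, ℝ)) (t : ℝ) (z : ℂ) : act A (t * z) = t * act A z := by
  apply Complex.ext <;> simp [act] <;> ring

lemma act_div (A : SL(2, ℝ)) (t : ℝ) (z : ℂ) : act A (z / t) = act A z / t := by
  have h1 : z / (t : ℂ) = ((t⁻¹ : ℝ) : ℂ) * z := by push_cast; ring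
  have h2 : act A z / (t : ℂ) = ((t⁻¹ : ℝ) : ℂ) * act A z := by push_cast; ring
  rw [h1, h2, act_smul]

lemma act_one (z : ℂ) : act 1 z = z := by
  apply Complex.ext <;> simp [act]

lemma act_mul (A B : SL(2, ℝ)) (z : ℂ) : act (A * B) z = act A (act B z) := by
  apply Complex.ext <;> simp [act, Matrix.mul_apply, Fin.sum_univ_two] <;> ring

lemma act_inv_act (A : SL(2, ℝ)) (z : ℂ) : act A⁻¹ (act A z) = z := by
  rw [← act_mul, inv_mul_cancel, act_one]

lemma act_act_inv (A : SL(2, ℝ)) (z : ℂ) : act A (act A⁻¹ z) = z := by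
  rw [← act_mul, mul_inv_cancel, act_one]

lemma act_injective (A : SL(2, ℝ)) : Function.Injective (act A) :=
  Function.LeftInverse.injective (act_inv_act A)

lemma act_ne_zero (A : SL(2, ℝ)) {z : ℂ} (hz : z ≠ 0) : act A z ≠ 0 := by
  intro h
  apply hz
  apply act_injective A
  rw [h, act_zero]

lemma cross_act (A : SL(2, ℝ)) (z w : ℂ) : cross (act A z) (act A w) = cross z w := by
  have h := det_eq A
  simp only [cross, act_re, act_im]
  linear_combination (z.re * w.im - z.im * w.re) * h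

/-- `act A` as a continuous linear map. -/
noncomputable def actL (A : SL(2, ℝ)) : ℂ →L[ℝ] ℂ :=
  LinearMap.toContinuousLinearMap
    { toFun := act A
      map_add' := act_add A
      map_smul' := fun t z => by
        have := act_smul A t z
        simpa using this }

@[simp] lemma actL_apply (A : SL(2, ℝ)) (z : ℂ) : actL A z = act A z := rfl

lemma continuous_act (A : SL(2, ℝ)) : Continuous (act A) := (actL A).continuous

lemma exists_norm_act_le (A : SL(2, ℝ)) : ∃ C : ℝ, 0 < C ∧ (∀ z, ‖act A z‖ ≤ C * ‖z‖) ∧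
    ∀ z, ‖z‖ ≤ C * ‖act A z‖ := by
  refine ⟨‖actL A‖ + ‖actL A⁻¹‖ + 1, by positivity, fun z => ?_, fun z => ?_⟩
  · calc ‖act A z‖ = ‖actL A z‖ := rfl
      _ ≤ ‖actL A‖ * ‖z‖ := (actL A).le_opNorm z
      _ ≤ (‖actL A‖ + ‖actL A⁻¹‖ + 1) * ‖z‖ := by
        gcongr
        have := norm_nonneg (actL A⁻¹)
        linarith
  · calc ‖z‖ = ‖actL A⁻¹ (act A z)‖ := by rw [actL_apply, act_inv_act]
      _ ≤ ‖actL A⁻¹‖ * ‖act A z‖ := (actL A⁻¹).le_opNorm _
      _ ≤ (‖actL A‖ + ‖actL A⁻¹‖ + 1) * ‖act A z‖ := by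
        gcongr
        have := norm_nonneg (actL A)
        linarith

/-- `act A` as a homeomorphism. -/
noncomputable def actHomeo (A : SL(2, ℝ)) : ℂ ≃ₜ ℂ where
  toFun := act A
  invFun := act A⁻¹
  left_inv := act_inv_act A
  right_inv := act_act_inv A
  continuous_toFun := continuous_act A
  continuous_invFun := continuous_act A⁻¹

lemma det_actL (A : SL(2, ℝ)) : LinearMap.det ((actL A : ℂ →L[ℝ] ℂ) : ℂ →ₗ[ℝ] ℂ) = 1 := by
  rw [← LinearMap.det_toMatrix Complex.basisOneI, Matrix.det_fin_two]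
  simp [LinearMap.toMatrix_apply, act, actL]
  have := det_eq A
  linarith

/-- `act A` preserves the area. -/
lemma measurePreserving_act (A : SL(2, ℝ)) : MeasurePreserving (act A) volume volume := by
  refine ⟨(continuous_act A).measurable, ?_⟩
  have h := MeasureTheory.Measure.map_linearMap_addHaar_eq_smul_addHaar
    (volume : Measure ℂ) (f := ((actL A : ℂ →L[ℝ] ℂ) : ℂ →ₗ[ℝ] ℂ)) (by rw [det_actL]; simp)
  rw [det_actL] at h
  have h2 : (((actL A : ℂ →L[ℝ] ℂ) : ℂ →ₗ[ℝ] ℂ) : ℂ → ℂ) = act A := rfl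
  rw [h2] at h
  simpa using h

lemma integral_act (A : SL(2, ℝ)) (g : ℂ → ℝ) : ∫ z, g (act A z) = ∫ z, g z :=
  (measurePreserving_act A).integral_comp (actHomeo A).measurableEmbedding g

lemma LocFin.act {ι : Type*} {h : ι → ℂ} (hf : LocFin h) (A : SL(2, ℝ)) :
    LocFin (fun i => act A (h i)) := by
  refine ⟨fun i => act_ne_zero A (hf.1 i), fun R => ?_⟩
  obtain ⟨C, hC, -, h2⟩ := exists_norm_act_le A
  refine (hf.2 (C * R)).subset fun i hi => ?_
  have hi' : ‖SAD.act A (h i)‖ ≤ R := hi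
  show ‖h i‖ ≤ C * R
  exact (h2 _).trans (by gcongr)

lemma N_nonneg {ι : Type*} (h : ι → ℂ) (R : ℝ) : 0 ≤ N h R := by
  unfold N; positivity

lemma N_mono {ι : Type*} {h : ι → ℂ} (hf : LocFin h) : Monotone (N h) := by
  intro R S hRS
  unfold N
  exact_mod_cast Set.ncard_le_ncard (fun i (hi : ‖h i‖ ≤ R) => (hi.trans hRS : ‖h i‖ ≤ S))
    (hf.2 S)

end SAD
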