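import Pool.Agent.Lib.SAD.Bound

/-!
# Local finiteness of the set of saddle connections

PLAN.  A `Crossing` `c` gives a path indexed by `ℕ` (`e' j = c.e (min j k)`, `r' j = c.pos (min j k)`) with
`IsPath c.k e' r'`, `Crosses c.k e' r' c.v`, and `tau_lt_one` gives `tau k * ‖c.v‖ ≤ ‖c.v‖ ≤ R`, so
`c.k ≤ n₀` by `path_bounded`.  A crossing is determined by `k` and `e` (`pos` by `start` and `step`: the
two alternatives exclude each other as `next ≠ prev`; `v` by `stop`), and there are finitely many
`(k, e)` with `k ≤ n₀`.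
`hol_ne_zero`: `area2_pos` for the edges, `right 0` for the crossings.
-/

open Filter Topology MeasureTheory Set
open scoped MatrixGroups

namespace SAD

namespace TransSurf

variable {X : TransSurf}

namespace FinSadAux

/-- The index `min n k` as an element of `Fin (k + 1)`. -/
def idx (k n : ℕ) : Fin (k + 1) := ⟨min n k, Nat.lt_succ_of_le (min_le_right _ _)⟩

lemma idx_val {k : ℕ} (j : Fin (k + 1)) : idx k j = j := by
  apply Fin.ext
  show min (j : ℕ) k = j
  have := j.2
  omega

lemma idx_zero (k : ℕ) : idx k 0 = 0 := by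
  apply Fin.ext
  show min 0 k = 0
  omega

lemma idx_last (k : ℕ) : idx k k = Fin.last k := by
  apply Fin.ext
  show min k k = k
  omega

lemma idx_castSucc {k j : ℕ} (hj : j < k) : idx k j = (⟨j, hj⟩ : Fin k).castSucc := by
  apply Fin.ext
  show min j k = j
  omega

lemma idx_succ {k j : ℕ} (hj : j < k) : idx k (j + 1) = (⟨j, hj⟩ : Fin k).succ := by
  apply Fin.ext
  show min (j + 1) k = j + 1
  omega

lemma next_ne_prev {T : Type} (f : T × ZMod 3) : next f ≠ prev f := by
  intro h
  have h1 : f.2 + 1 = f.2 + 2 := congrArg Prod.snd h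
  have h2 : (1 : ZMod 3) = 2 := add_left_cancel h1
  revert h2
  decide

end FinSadAux

open FinSadAux

/-- The path indexed by `ℕ` of a crossing. -/
theorem Crossing.exists_path (c : X.Crossing) : ∃ (e : ℕ → X.T × ZMod 3) (r : ℕ → ℂ),
    X.IsPath c.k e r ∧ X.Crosses c.k e r c.v ∧ X.tau e r c.v c.k < 1 ∧
    (∀ j : Fin (c.k + 1), e j = c.e j ∧ r j = c.pos j) := by
  have hp : X.IsPath c.k (fun n => c.e (idx c.k n)) (fun n => c.pos (idx c.k n)) := by
    refine ⟨?_, fun j hj => ?_⟩
    · show c.pos (idx c.k 0) = X.side (prev (c.e (idx c.k 0)))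
      rw [idx_zero]
      exact c.start
    · show (c.e (idx c.k (j + 1)) = next (X.glue (c.e (idx c.k j))) ∧
        c.pos (idx c.k (j + 1)) = c.pos (idx c.k j)) ∨
        (c.e (idx c.k (j + 1)) = prev (X.glue (c.e (idx c.k j))) ∧
        c.pos (idx c.k (j + 1)) = c.pos (idx c.k j) + X.side (next (X.glue (c.e (idx c.k j)))))
      rw [idx_succ hj, idx_castSucc hj]
      exact c.step ⟨j, hj⟩
  have hc : X.Crosses c.k (fun n => c.e (idx c.k n)) (fun n => c.pos (idx c.k n)) c.v :=
    fun j _ => ⟨c.right _, c.left _⟩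
  refine ⟨fun n => c.e (idx c.k n), fun n => c.pos (idx c.k n), hp, hc, ?_, fun j => ?_⟩
  · refine tau_lt_one hp ?_ hc
    show c.v = c.pos (idx c.k c.k) + X.side (next (X.glue (c.e (idx c.k c.k))))
    rw [idx_last]
    exact c.stop
  · show c.e (idx c.k j) = c.e j ∧ c.pos (idx c.k j) = c.pos j
    rw [idx_val]
    exact ⟨rfl, rfl⟩

/-- A crossing is determined by its sequence of sides. -/
theorem Crossing.ext' {c c' : X.Crossing} (hk : c.k = c'.k)
    (he : ∀ j : Fin (c.k + 1), c.e j = c'.e (j.cast (by rw [hk]))) : c = c' := by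
  obtain ⟨k, e, pos, v, start, step, stop, right, left⟩ := c
  obtain ⟨k', e', pos', v', start', step', stop', right', left'⟩ := c'
  have hk : k = k' := hk
  subst hk
  have he' : e = e' := funext fun j => he j
  subst he'
  have hpos : pos = pos' := by
    funext j
    induction j using Fin.induction with
    | zero => rw [start, start']
    | succ j ih =>
      rcases step j with ⟨h1, h2⟩ | ⟨h1, h2⟩ <;> rcases step' j with ⟨h3, h4⟩ | ⟨h3, h4⟩
      · rw [h2, h4, ih]
      · exact absurd (h1.symm.trans h3) (next_ne_prev _)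
      · exact absurd (h3.symm.trans h1) (next_ne_prev _)
      · rw [h2, h4, ih]
  subst hpos
  have hv : v = v' := by rw [stop, stop']
  subst hv
  rfl

theorem finite_crossings (X : TransSurf) (n₀ : ℕ) : {c : X.Crossing | c.k ≤ n₀}.Finite := by
  have := X.finite
  let F : {c : X.Crossing // c.k ≤ n₀} → Fin (n₀ + 1) × (Fin (n₀ + 1) → X.T × ZMod 3) :=
    fun c => (⟨c.1.k, Nat.lt_succ_of_le c.2⟩, fun n => c.1.e (idx c.1.k n))
  have hF : Function.Injective F := by
    rintro ⟨c, hc⟩ ⟨c', hc'⟩ h
    have h1 : c.k = c'.k := congrArg (fun p => (p.1 : ℕ)) h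
    have h2 : ∀ n : Fin (n₀ + 1), c.e (idx c.k n) = c'.e (idx c'.k n) :=
      fun n => congrFun (congrArg Prod.snd h) n
    apply Subtype.ext
    refine Crossing.ext' h1 fun j => ?_
    have h3 : c.e (idx c.k (j : ℕ)) = c'.e (idx c'.k (j : ℕ)) :=
      h2 ⟨j, lt_of_lt_of_le j.2 (Nat.succ_le_succ hc)⟩
    have h4 : idx c.k (j : ℕ) = j := idx_val j
    have h5 : idx c'.k (j : ℕ) = j.cast (by rw [h1]) := by
      apply Fin.ext
      show min (j : ℕ) c'.k = j
      have := j.2
      omega
    exact ((congrArg c.e h4).symm.trans h3).trans (congrArg c'.e h5)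
  exact Finite.of_injective F hF

/-- A path indexed by `ℕ` whose last apex is visible gives a crossing. -/
theorem exists_crossing {n : ℕ} {e : ℕ → X.T × ZMod 3} {r : ℕ → ℂ} (hp : X.IsPath n e r) {v : ℂ}
    (hv : v = r n + X.side (next (X.glue (e n)))) (hc : X.Crosses n e r v) :
    ∃ c : X.Crossing, c.k = n ∧ c.v = v ∧ c.e 0 = e 0 := by
  refine ⟨{ k := n
            e := fun j => e j
            pos := fun j => r j
            v := v
            start := hp.start
            step := fun j => hp.step j j.2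
            stop := hv
            right := fun j => (hc j (Nat.le_of_lt_succ j.2)).1
            left := fun j => (hc j (Nat.le_of_lt_succ j.2)).2 }, rfl, rfl, rfl⟩

theorem hol_ne_zero (X : TransSurf) (s : X.Saddle) : X.hol s ≠ 0 := by
  rcases s with f | c
  · intro h
    have h0 : X.side f = 0 := h
    have h1 : 0 < cross (X.side f) (X.side (next f)) := area2_pos f
    rw [h0] at h1
    simp [cross] at h1
  · intro h
    have h0 : c.v = 0 := h
    have h1 := c.right 0
    rw [h0] at h1
    simp [cross] at h1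

theorem locFin (X : TransSurf) : LocFin X.hol := by
  have := X.finite
  refine ⟨hol_ne_zero X, fun R => ?_⟩
  obtain ⟨n₀, hn₀⟩ := path_bounded X R
  have h1 : (Set.range (Sum.inl : X.T × ZMod 3 → (X.T × ZMod 3) ⊕ Crossing X)).Finite :=
    Set.finite_range _
  have h2 : ((Sum.inr : Crossing X → (X.T × ZMod 3) ⊕ Crossing X) ''
    {c : X.Crossing | c.k ≤ n₀}).Finite := (finite_crossings X n₀).image _
  refine (h1.union h2).subset ?_
  rintro (f | c) hs
  · exact Or.inl ⟨f, rfl⟩
  · right
    refine ⟨c, ?_, rfl⟩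
    have hs : ‖c.v‖ ≤ R := hs
    obtain ⟨e, r, hp, hc, ht, -⟩ := c.exists_path
    refine hn₀ c.k e r c.v hp hc (le_trans ?_ hs)
    nlinarith [norm_nonneg c.v]

end TransSurf

end SAD
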