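import Pool.Agent.Lib.SAD.Defs

/-!
# Gaussian sums over a family of plane vectors

`G h R = ∑ exp (-(‖h i‖/R)²)`.  `L h f R` is the average of `f ((h i / R)²)` with the weights
`exp (-(‖h i‖/R)²) / G h R`; here `(h i / R)²` is the square in `ℂ`, so that `L` sees only the even
part of things.  `E a w z = exp (-(a ‖z‖ + Re (w z)))`: with `z = v²`, `v = x + i y`,
`a ‖z‖ + Re (w z)` is the quadratic form `a (x²+y²) + Re (w v²)`, of determinant `a² - ‖w‖²`.
-/

open Filter Topology MeasureTheory Set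
open scoped MatrixGroups

namespace SAD

/-- Gaussian sum. -/
noncomputable def G {ι : Type*} (h : ι → ℂ) (R : ℝ) : ℝ :=
  ∑' i, Real.exp (-(‖h i‖ / R) ^ 2)

/-- Gaussian average of `f` over the squares of the rescaled vectors. -/
noncomputable def L {ι : Type*} (h : ι → ℂ) (f : ℂ → ℝ) (R : ℝ) : ℝ :=
  (∑' i, Real.exp (-(‖h i‖ / R) ^ 2) * f ((h i / (R : ℂ)) ^ 2)) / G h R

/-- The test functions. -/
noncomputable def E (a : ℝ) (w z : ℂ) : ℝ := Real.exp (-(a * ‖z‖ + (w * z).re))

/-- The standing assumptions on the Gaussian sums: the family is nonempty, all Gaussian sums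
converge, `G h R → ∞`, and a doubling property. -/
structure GReg {ι : Type*} (h : ι → ℂ) : Prop where
  locFin : LocFin h
  nonempty : Nonempty ι
  summable : ∀ t : ℝ, 0 < t → Summable (fun i => Real.exp (-(t * ‖h i‖ ^ 2)))
  tendsto : Tendsto (G h) atTop atTop
  doubling : ∃ l K : ℝ, 1 < l ∧ ∀ᶠ R in atTop, G h (l * R) ≤ K * G h R

end SAD
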