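import Pool.Agent.Lib.SAD.IsoMat
import Pool.Agent.Lib.SAD.Dbl2

/-!
# Doubling from isotropy of the second harmonic near the identity
-/

open Filter Topology MeasureTheory Set
open scoped MatrixGroups

namespace SAD

variable {ι : Type*} {h : ι → ℂ}

lemma re_le_of_unit {w u : ℂ} {κ : ℝ} (hw : ‖w‖ = κ) (hu : ‖u‖ = 1) : (w * u ^ 2).re ≤ κ := by
  refine (Complex.re_le_norm _).trans ?_
  rw [norm_mul, norm_pow, hw, hu]
  simp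

lemma re_scale (w y : ℂ) (hy : y ≠ 0) :
    (w * y ^ 2).re = ‖y‖ ^ 2 * (w * (y / (‖y‖ : ℂ)) ^ 2).re := by
  have hn : (‖y‖ : ℂ) ≠ 0 := by
    rw [Ne, Complex.ofReal_eq_zero, norm_eq_zero]
    exact hy
  have e : w * y ^ 2 = ((‖y‖ ^ 2 : ℝ) : ℂ) * (w * (y / (‖y‖ : ℂ)) ^ 2) := by
    push_cast
    field_simp
  rw [e, Complex.re_ofReal_mul]

/-- PROOF. `δ ‖h i‖² = 2 ‖y‖² - Re (w y²)` for `y = act A (h i)` (combine `h1`, `h2` at `v = h i`: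
`2 δ ‖y‖² - δ Re (w y²) = 4 ‖v‖² - κ² ‖v‖² = δ² ‖v‖²`). Let `S = {i | ‖act A (h i)‖ ≤ R}`, `M = #S`,
`T = {i ∈ S | -Re (w u²) ≤ κ / 4}`, `u = y / ‖y‖`. For `i ∈ T` `δ ‖h i‖² ≤ (2 + κ / 4) R²`, so
`#T ≤ N h (s R)` if `(2 + κ / 4) ≤ δ s²`. By `hiso w`, eventually `∑_S (-Re (w u²)) ≤ (κ / 8) M`, and
the sum is at least `(κ / 4) (M - #T) - κ #T`; so `M ≤ 10 #T`. -/
theorem card_le_of_iso (hf : LocFin h) {κ δ s : ℝ} (hκ : 0 < κ) {w : ℂ} (hw : ‖w‖ = κ)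
    (hδ : 0 < δ) (hδ2 : δ ^ 2 = 4 - κ ^ 2) (hs : 0 < s) (hs2 : 2 + κ / 4 ≤ δ * s ^ 2)
    {A : SL(2, ℝ)}
    (h1 : ∀ v : ℂ, δ * ‖act A v‖ ^ 2 = 2 * ‖v‖ ^ 2 + (w * v ^ 2).re)
    (h2 : ∀ v : ℂ, δ * (w * (act A v) ^ 2).re = 2 * (w * v ^ 2).re + κ ^ 2 * ‖v‖ ^ 2)
    (hiso : Iso (fun i => act A (h i))) :
    ∀ᶠ R in atTop, N (fun i => act A (h i)) R ≤ 10 * N h (s * R) := by
  classical
  have e1 : ∀ᶠ R in atTop, |dirSum (fun i => act A (h i)) (fun u => (w * u ^ 2).re) R /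
      N (fun i => act A (h i)) R| < κ / 8 := by
    have h3 := (hiso w).eventually (Metric.ball_mem_nhds (0 : ℝ) (show 0 < κ / 8 by positivity))
    filter_upwards [h3] with R hR
    rwa [Real.dist_eq, sub_zero] at hR
  filter_upwards [e1, eventually_ge_atTop (0 : ℝ)] with R hR hR0
  have hfA := hf.act A
  have hfin := hfA.2 R
  have hN : N (fun i => act A (h i)) R = (hfin.toFinset.card : ℝ) := by
    unfold N
    rw [Set.ncard_eq_toFinset_card _ hfin]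
  have hsum : dirSum (fun i => act A (h i)) (fun u => (w * u ^ 2).re) R =
      ∑ i ∈ hfin.toFinset, (w * (act A (h i) / (‖act A (h i)‖ : ℂ)) ^ 2).re := by
    unfold dirSum
    rw [finsum_mem_eq_finite_toFinset_sum _ hfin]
  rcases Nat.eq_zero_or_pos hfin.toFinset.card with h0 | h0
  · rw [hN, h0]
    have := N_nonneg h (s * R)
    push_cast
    linarith
  have hM : (0 : ℝ) < (hfin.toFinset.card : ℝ) := by exact_mod_cast h0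
  rw [hN, abs_div, abs_of_pos hM, div_lt_iff₀ hM, hsum] at hR
  have hR' := (abs_lt.1 hR).1
  set T : Finset ι := hfin.toFinset.filter
    (fun i => -(κ / 4) ≤ (w * (act A (h i) / (‖act A (h i)‖ : ℂ)) ^ 2).re) with hT
  have hsplit := Finset.sum_filter_add_sum_filter_not hfin.toFinset
    (fun i => -(κ / 4) ≤ (w * (act A (h i) / (‖act A (h i)‖ : ℂ)) ^ 2).re)
    (fun i => (w * (act A (h i) / (‖act A (h i)‖ : ℂ)) ^ 2).re)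
  have hcard := Finset.card_filter_add_card_filter_not (s := hfin.toFinset)
    (fun i => -(κ / 4) ≤ (w * (act A (h i) / (‖act A (h i)‖ : ℂ)) ^ 2).re)
  have hunit : ∀ i, ‖act A (h i) / (‖act A (h i)‖ : ℂ)‖ = 1 := by
    intro i
    have hne : ‖act A (h i)‖ ≠ 0 := norm_ne_zero_iff.2 (hfA.1 i)
    rw [norm_div, Complex.norm_real, norm_norm, div_self hne]
  have hs1 : ∑ i ∈ T, (w * (act A (h i) / (‖act A (h i)‖ : ℂ)) ^ 2).re ≤ T.card * κ := by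
    rw [← nsmul_eq_mul]
    exact Finset.sum_le_card_nsmul _ _ _ (fun i _ => re_le_of_unit hw (hunit i))
  set T' : Finset ι := hfin.toFinset.filter
    (fun i => ¬ -(κ / 4) ≤ (w * (act A (h i) / (‖act A (h i)‖ : ℂ)) ^ 2).re) with hT'
  have hs3 : ∑ i ∈ T', (w * (act A (h i) / (‖act A (h i)‖ : ℂ)) ^ 2).re ≤
      T'.card * (-(κ / 4)) := by
    rw [← nsmul_eq_mul]
    refine Finset.sum_le_card_nsmul _ _ _ (fun i hi => ?_)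
    exact (not_le.1 (Finset.mem_filter.1 hi).2).le
  have hcardR : (T.card : ℝ) + T'.card = hfin.toFinset.card := by exact_mod_cast hcard
  have hTN : (T.card : ℝ) ≤ N h (s * R) := by
    unfold N
    have hsub : (↑T : Set ι) ⊆ {i | ‖h i‖ ≤ s * R} := by
      intro i hi
      rw [Finset.mem_coe, hT, Finset.mem_filter] at hi
      obtain ⟨hi1, hi2⟩ := hi
      have hi3 : ‖act A (h i)‖ ≤ R := by
        have := (Set.Finite.mem_toFinset hfin).1 hi1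
        exact this
      show ‖h i‖ ≤ s * R
      have k1 := h1 (h i)
      have k2 := h2 (h i)
      have k3 : δ * (2 * ‖act A (h i)‖ ^ 2 - (w * (act A (h i)) ^ 2).re) = δ * (δ * ‖h i‖ ^ 2) := by
        linear_combination 2 * k1 - k2 - ‖h i‖ ^ 2 * hδ2
      have k4 := mul_left_cancel₀ hδ.ne' k3
      rw [re_scale w _ (hfA.1 i)] at k4
      have k5 : ‖act A (h i)‖ ^ 2 ≤ R ^ 2 := by gcongr
      have k6 : δ * ‖h i‖ ^ 2 ≤ δ * (s * R) ^ 2 := by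
        rw [← k4]
        have k7 : 2 * ‖act A (h i)‖ ^ 2 - ‖act A (h i)‖ ^ 2 *
            (w * (act A (h i) / (‖act A (h i)‖ : ℂ)) ^ 2).re ≤
            ‖act A (h i)‖ ^ 2 * (2 + κ / 4) := by
          nlinarith [sq_nonneg ‖act A (h i)‖]
        calc _ ≤ ‖act A (h i)‖ ^ 2 * (2 + κ / 4) := k7
          _ ≤ R ^ 2 * (δ * s ^ 2) := by gcongr
          _ = δ * (s * R) ^ 2 := by ring
      have k8 := le_of_mul_le_mul_left k6 hδ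
      exact abs_le_of_sq_le_sq' k8 (by positivity) |>.2
    have := Set.ncard_le_ncard hsub (hf.2 _)
    rw [Set.ncard_coe_finset] at this
    exact_mod_cast this
  rw [hN]
  have k9 : -(κ / 8 * (hfin.toFinset.card : ℝ)) <
      T.card * κ + T'.card * (-(κ / 4)) := by
    calc _ < _ := hR'
      _ = _ := hsplit.symm
      _ ≤ _ := add_le_add hs1 hs3
  have k10 : κ * (hfin.toFinset.card : ℝ) ≤ κ * (10 * T.card) := by
    nlinarith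
  have k11 := le_of_mul_le_mul_left k10 hκ
  linarith

lemma one_of_four {κ : ℝ} (hκ : 0 < κ) (v : ℂ) :
    (((κ : ℝ) : ℂ) * v ^ 2).re ≤ -(κ / 2) * ‖v‖ ^ 2 ∨
    (((-κ : ℝ) : ℂ) * v ^ 2).re ≤ -(κ / 2) * ‖v‖ ^ 2 ∨
    (((κ : ℝ) : ℂ) * Complex.I * v ^ 2).re ≤ -(κ / 2) * ‖v‖ ^ 2 ∨
    (((-κ : ℝ) : ℂ) * Complex.I * v ^ 2).re ≤ -(κ / 2) * ‖v‖ ^ 2 := by
  obtain ⟨p, hp⟩ : ∃ p : ℝ, p = (v ^ 2).re := ⟨_, rfl⟩
  obtain ⟨q, hq⟩ : ∃ q : ℝ, q = (v ^ 2).im := ⟨_, rfl⟩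
  obtain ⟨n, hn⟩ : ∃ n : ℝ, n = ‖v‖ ^ 2 := ⟨_, rfl⟩
  have hn0 : 0 ≤ n := by rw [hn]; positivity
  have hpq : p ^ 2 + q ^ 2 = n ^ 2 := by
    have h1 : ‖v ^ 2‖ ^ 2 = p ^ 2 + q ^ 2 := by
      rw [Complex.sq_norm, Complex.normSq_apply, hp, hq]; ring
    rw [← h1, norm_pow, hn]
  have r1 : (((κ : ℝ) : ℂ) * v ^ 2).re = κ * p := by rw [Complex.re_ofReal_mul, hp]
  have r2 : (((-κ : ℝ) : ℂ) * v ^ 2).re = -κ * p := by rw [Complex.re_ofReal_mul, hp]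
  have r3 : (((κ : ℝ) : ℂ) * Complex.I * v ^ 2).re = -κ * q := by
    rw [mul_assoc, Complex.re_ofReal_mul, Complex.I_mul_re, hq]; ring
  have r4 : (((-κ : ℝ) : ℂ) * Complex.I * v ^ 2).re = κ * q := by
    rw [mul_assoc, Complex.re_ofReal_mul, Complex.I_mul_re, hq]; ring
  rw [r1, r2, r3, r4, ← hn]
  by_contra hcon
  push Not at hcon
  obtain ⟨c1, c2, c3, c4⟩ := hcon
  have d1 : -(n / 2) < p := by nlinarith
  have d2 : p < n / 2 := by nlinarith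
  have d3 : q < n / 2 := by nlinarith
  have d4 : -(n / 2) < q := by nlinarith
  nlinarith

/-- The members in the half where the quadratic form is small. -/
lemma part_bound (hf : LocFin h) {ε κ s s' : ℝ} (hκ : 0 < κ) (hκ1 : κ ≤ 1 / 2)
    (hmat : ∀ (a : ℝ) (w : ℂ), 0 < a → ‖w‖ ≤ κ * a → ∃ A : SL(2, ℝ),
      (∀ i j, |A i j - (1 : Matrix (Fin 2) (Fin 2) ℝ) i j| < ε) ∧
      (∀ v : ℂ, √((1 + a) ^ 2 - ‖w‖ ^ 2) * ‖act A v‖ ^ 2 =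
        (1 + a) * ‖v‖ ^ 2 + (w * v ^ 2).re) ∧
      ∀ v : ℂ, √((1 + a) ^ 2 - ‖w‖ ^ 2) * (w * (act A v) ^ 2).re =
        (1 + a) * (w * v ^ 2).re + ‖w‖ ^ 2 * ‖v‖ ^ 2)
    (hc : ∀ A : SL(2, ℝ), (∀ i j, |A i j - (1 : Matrix (Fin 2) (Fin 2) ℝ) i j| < ε) →
      Iso (fun i => act A (h i)))
    (hs : 0 < s) (hs2 : 2 + κ / 4 ≤ √(4 - κ ^ 2) * s ^ 2)
    (hs'2 : (2 - κ / 2) * s' ^ 2 ≤ √(4 - κ ^ 2)) (w : ℂ) (hw : ‖w‖ = κ) :
    ∀ᶠ R in atTop, (({i | ‖h i‖ ≤ s' * R ∧ (w * (h i) ^ 2).re ≤ -(κ / 2) * ‖h i‖ ^ 2}.ncard : ℕ) : ℝ)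
      ≤ 10 * N h (s * R) := by
  obtain ⟨A, hA, h1, h2⟩ := hmat 1 w one_pos (by rw [hw, mul_one])
  have e : ((1 : ℝ) + 1) ^ 2 - ‖w‖ ^ 2 = 4 - κ ^ 2 := by rw [hw]; norm_num
  rw [e] at h1 h2
  norm_num at h1 h2
  rw [hw] at h2
  have hpos : 0 < 4 - κ ^ 2 := by nlinarith
  have hδ : 0 < √(4 - κ ^ 2) := Real.sqrt_pos.2 hpos
  have hδ2 : √(4 - κ ^ 2) ^ 2 = 4 - κ ^ 2 := Real.sq_sqrt hpos.le
  have hmain := card_le_of_iso hf hκ hw hδ hδ2 hs hs2 h1 h2 (hc A hA)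
  filter_upwards [hmain, eventually_ge_atTop (0 : ℝ)] with R hR hR0
  refine le_trans ?_ hR
  unfold N
  have hsub : {i | ‖h i‖ ≤ s' * R ∧ (w * (h i) ^ 2).re ≤ -(κ / 2) * ‖h i‖ ^ 2} ⊆
      {i | ‖act A (h i)‖ ≤ R} := by
    rintro i ⟨hi1, hi2⟩
    show ‖act A (h i)‖ ≤ R
    have k1 := h1 (h i)
    have hn := norm_nonneg (h i)
    have k2 : ‖h i‖ ^ 2 ≤ (s' * R) ^ 2 := by gcongr
    have k3 : √(4 - κ ^ 2) * ‖act A (h i)‖ ^ 2 ≤ √(4 - κ ^ 2) * R ^ 2 := by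
      calc √(4 - κ ^ 2) * ‖act A (h i)‖ ^ 2 = 2 * ‖h i‖ ^ 2 + (w * h i ^ 2).re := k1
        _ ≤ (2 - κ / 2) * ‖h i‖ ^ 2 := by linarith
        _ ≤ (2 - κ / 2) * (s' * R) ^ 2 := by
            have : 0 ≤ 2 - κ / 2 := by linarith
            gcongr
        _ = ((2 - κ / 2) * s' ^ 2) * R ^ 2 := by ring
        _ ≤ √(4 - κ ^ 2) * R ^ 2 := by gcongr
    have k4 := le_of_mul_le_mul_left k3 hδ
    exact (abs_le_of_sq_le_sq' k4 hR0).2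
  exact_mod_cast Set.ncard_le_ncard hsub ((hf.act A).2 R)

/-- PROOF. `exists_matrix'` with `a = 1` and `w ∈ {κ, -κ, κ I, -κ I}` gives `A₁, ..., A₄`, all with
`δ = √(4 - κ²)`. For every `v` one of the four `w` has `Re (w v²) ≤ -(κ/2) ‖v‖²` (`v² = p + q I` with
`p² + q² = ‖v‖⁴`, so `|p|` or `|q|` is `≥ ‖v‖² / 2`), so `δ ‖act A_j v‖² ≤ (2 - κ/2) ‖v‖²`. With
`s' = √(δ / (2 - κ/2))` (`‖v‖ ≤ s' R` gives `‖act A_j v‖ ≤ R`) and `s = √((2 + κ/4) / δ)` one has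
`s < s'` as `(2 + κ/4)(2 - κ/2) < 4 - κ² = δ²` for `0 < κ ≤ 1/2`. So
`N h (s' R) ≤ ∑_j N (A_j h) R ≤ 40 * N h (s R)` for `R ≥ R₀` (`card_le_of_iso`); put `l = s'/s`,
`K = 40`, `C = N h (l s R₀)` (for `R ≤ s R₀`). -/
theorem doubling_of_iso (hf : LocFin h) {ε : ℝ} (hε : 0 < ε)
    (hc : ∀ A : SL(2, ℝ), (∀ i j, |A i j - (1 : Matrix (Fin 2) (Fin 2) ℝ) i j| < ε) →
      Iso (fun i => act A (h i))) :
    ∃ l K C : ℝ, 1 < l ∧ 0 < K ∧ 0 ≤ C ∧ ∀ R : ℝ, 0 ≤ R → N h (l * R) ≤ K * N h R + C := by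
  obtain ⟨κ, hκ, hκ1, hmat⟩ := exists_matrix' hε
  have hpos : 0 < 4 - κ ^ 2 := by nlinarith
  obtain ⟨δ, hδ⟩ : ∃ δ : ℝ, δ = √(4 - κ ^ 2) := ⟨_, rfl⟩
  have hδ0 : 0 < δ := by rw [hδ]; exact Real.sqrt_pos.2 hpos
  have hδ2 : δ ^ 2 = 4 - κ ^ 2 := by rw [hδ]; exact Real.sq_sqrt hpos.le
  have hd : 0 < 2 - κ / 2 := by linarith
  obtain ⟨s, hs⟩ : ∃ s : ℝ, s = √((2 + κ / 4) / δ) := ⟨_, rfl⟩
  obtain ⟨s', hs'⟩ : ∃ s' : ℝ, s' = √(δ / (2 - κ / 2)) := ⟨_, rfl⟩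
  have hs0 : 0 < s := by rw [hs]; exact Real.sqrt_pos.2 (by positivity)
  have hs2 : s ^ 2 = (2 + κ / 4) / δ := by rw [hs]; exact Real.sq_sqrt (by positivity)
  have hs'2 : s' ^ 2 = δ / (2 - κ / 2) := by rw [hs']; exact Real.sq_sqrt (by positivity)
  have hlt : s < s' := by
    rw [hs, hs']
    apply Real.sqrt_lt_sqrt (by positivity)
    rw [div_lt_div_iff₀ hδ0 hd]
    nlinarith
  have hs'0 : 0 < s' := hs0.trans hlt
  have key := part_bound (h := h) (s := s) (s' := s') hf hκ hκ1 hmat hc hs0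
    (by rw [← hδ, hs2, mul_div_cancel₀ _ hδ0.ne'])
    (by rw [← hδ, hs'2, mul_div_cancel₀ _ hd.ne'])
  have n1 : ‖((κ : ℝ) : ℂ)‖ = κ := by rw [Complex.norm_real, Real.norm_of_nonneg hκ.le]
  have n2 : ‖((-κ : ℝ) : ℂ)‖ = κ := by
    rw [Complex.norm_real, norm_neg, Real.norm_of_nonneg hκ.le]
  have n3 : ‖((κ : ℝ) : ℂ) * Complex.I‖ = κ := by rw [norm_mul, n1, Complex.norm_I, mul_one]
  have n4 : ‖((-κ : ℝ) : ℂ) * Complex.I‖ = κ := by rw [norm_mul, n2, Complex.norm_I, mul_one]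
  have hall := ((key _ n1).and (key _ n2)).and ((key _ n3).and (key _ n4))
  obtain ⟨R₀, hR₀⟩ := eventually_atTop.1 hall
  have hmain : ∀ R, R₀ ≤ R → N h (s' * R) ≤ 40 * N h (s * R) := by
    intro R hR
    obtain ⟨⟨b1, b2⟩, b3, b4⟩ := hR₀ R hR
    have hsub : {i | ‖h i‖ ≤ s' * R} ⊆
        ({i | ‖h i‖ ≤ s' * R ∧ (((κ : ℝ) : ℂ) * (h i) ^ 2).re ≤ -(κ / 2) * ‖h i‖ ^ 2} ∪
        {i | ‖h i‖ ≤ s' * R ∧ (((-κ : ℝ) : ℂ) * (h i) ^ 2).re ≤ -(κ / 2) * ‖h i‖ ^ 2}) ∪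
        ({i | ‖h i‖ ≤ s' * R ∧
          (((κ : ℝ) : ℂ) * Complex.I * (h i) ^ 2).re ≤ -(κ / 2) * ‖h i‖ ^ 2} ∪
        {i | ‖h i‖ ≤ s' * R ∧
          (((-κ : ℝ) : ℂ) * Complex.I * (h i) ^ 2).re ≤ -(κ / 2) * ‖h i‖ ^ 2}) := by
      intro i hi
      rcases one_of_four hκ (h i) with c | c | c | c
      · exact Or.inl (Or.inl ⟨hi, c⟩)
      · exact Or.inl (Or.inr ⟨hi, c⟩)
      · exact Or.inr (Or.inl ⟨hi, c⟩)
      · exact Or.inr (Or.inr ⟨hi, c⟩)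
    have hfinu : (({i | ‖h i‖ ≤ s' * R ∧ (((κ : ℝ) : ℂ) * (h i) ^ 2).re ≤ -(κ / 2) * ‖h i‖ ^ 2} ∪
        {i | ‖h i‖ ≤ s' * R ∧ (((-κ : ℝ) : ℂ) * (h i) ^ 2).re ≤ -(κ / 2) * ‖h i‖ ^ 2}) ∪
        ({i | ‖h i‖ ≤ s' * R ∧
          (((κ : ℝ) : ℂ) * Complex.I * (h i) ^ 2).re ≤ -(κ / 2) * ‖h i‖ ^ 2} ∪
        {i | ‖h i‖ ≤ s' * R ∧
          (((-κ : ℝ) : ℂ) * Complex.I * (h i) ^ 2).re ≤ -(κ / 2) * ‖h i‖ ^ 2})).Finite := by
      refine (hf.2 (s' * R)).subset ?_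
      rintro i ((hi | hi) | (hi | hi)) <;> exact hi.1
    have h1 := Set.ncard_le_ncard hsub hfinu
    have h2 := h1.trans ((Set.ncard_union_le _ _).trans
      (add_le_add (Set.ncard_union_le _ _) (Set.ncard_union_le _ _)))
    have h3 := (Nat.cast_le (α := ℝ)).2 h2
    rw [Nat.cast_add, Nat.cast_add, Nat.cast_add] at h3
    have h4 : N h (s' * R) = (({i | ‖h i‖ ≤ s' * R}.ncard : ℕ) : ℝ) := rfl
    rw [h4]
    linarith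
  refine ⟨s' / s, 40, N h (s' / s * (s * R₀)), (one_lt_div hs0).2 hlt, by norm_num,
    N_nonneg _ _, fun R hR => ?_⟩
  have hN := N_nonneg h R
  have hl0 : 0 < s' / s := by positivity
  rcases le_total R (s * R₀) with hle | hle
  · have h3 : N h (s' / s * R) ≤ N h (s' / s * (s * R₀)) := N_mono hf (by gcongr)
    linarith
  · have h4 := hmain (R / s) (by rw [le_div_iff₀ hs0]; linarith)
    have h5 : s' * (R / s) = s' / s * R := by ring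
    have h6 : s * (R / s) = R := by field_simp
    rw [h5, h6] at h4
    have h7 := N_nonneg h (s' / s * (s * R₀))
    linarith

end SAD
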