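import Pool.Agent.Lib.SAD.Ident

/-!
# Isotropy of the second harmonic, and matrices for quadratic forms with the harmonic identity

`Iso h`: the sums of the second harmonics `Re (w u²)` of the directions `u` of the vectors of norm at
most `R` are `o(N h R)`.
-/

open Filter Topology MeasureTheory Set
open scoped MatrixGroups

namespace SAD

variable {ι : Type*} {h : ι → ℂ}

/-- The mean second harmonic of the directions tends to zero. -/
def Iso {ι : Type*} (h : ι → ℂ) : Prop :=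
  ∀ w : ℂ, Tendsto (fun R : ℝ => dirSum h (fun u => (w * u ^ 2).re) R / N h R) atTop (𝓝 0)

/-- As `exists_matrix`, with the second identity. -/
theorem exists_matrix' {ε : ℝ} (hε : 0 < ε) : ∃ κ : ℝ, 0 < κ ∧ κ ≤ 1 / 2 ∧
    ∀ (a : ℝ) (w : ℂ), 0 < a → ‖w‖ ≤ κ * a → ∃ A : SL(2, ℝ),
      (∀ i j, |A i j - (1 : Matrix (Fin 2) (Fin 2) ℝ) i j| < ε) ∧
      (∀ v : ℂ, √((1 + a) ^ 2 - ‖w‖ ^ 2) * ‖act A v‖ ^ 2 =
        (1 + a) * ‖v‖ ^ 2 + (w * v ^ 2).re) ∧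
      ∀ v : ℂ, √((1 + a) ^ 2 - ‖w‖ ^ 2) * (w * (act A v) ^ 2).re =
        (1 + a) * (w * v ^ 2).re + ‖w‖ ^ 2 * ‖v‖ ^ 2 := by
  refine ⟨min (1 / 2) (ε / 4), by positivity, min_le_left _ _, ?_⟩
  intro a w ha hw
  set κ : ℝ := min (1 / 2) (ε / 4) with hκ
  have hκ0 : 0 < κ := by positivity
  have hκ1 : κ ≤ 1 / 2 := min_le_left _ _
  have hκ2 : κ ≤ ε / 4 := min_le_right _ _
  have hw0 : 0 ≤ ‖w‖ := norm_nonneg w
  set b : ℝ := 1 + a with hb
  have hb1 : 1 < b := by rw [hb]; linarith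
  have hwb : ‖w‖ ≤ κ * b := hw.trans (by gcongr; rw [hb]; linarith)
  have hwb2 : ‖w‖ ≤ b / 2 := hwb.trans (by nlinarith)
  set δ : ℝ := √(b ^ 2 - ‖w‖ ^ 2) with hδ
  have hpos : 0 ≤ b ^ 2 - ‖w‖ ^ 2 := by nlinarith
  have hδ2 : δ ^ 2 = b ^ 2 - ‖w‖ ^ 2 := Real.sq_sqrt hpos
  have hδb : b / 2 ≤ δ := by
    apply Real.le_sqrt_of_sq_le
    nlinarith
  have hδ0 : 0 < δ := by linarith
  set s : ℝ := √(2 * δ * (b + δ)) with hs
  have hs2 : s ^ 2 = 2 * δ * (b + δ) := Real.sq_sqrt (by positivity)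
  have hs0 : 0 < s := Real.sqrt_pos.2 (by positivity)
  have hsb : b ≤ s := by
    apply Real.le_sqrt_of_sq_le
    nlinarith
  have hnw : ‖w‖ ^ 2 = w.re ^ 2 + w.im ^ 2 := by
    rw [Complex.sq_norm, Complex.normSq_apply]; ring
  have hsne : s ≠ 0 := hs0.ne'
  set α : ℝ := (b + δ) / s with hα
  set p : ℝ := w.re / s with hp
  set q : ℝ := -w.im / s with hq
  have hα0 : 0 < α := by positivity
  have hdet : α ^ 2 - p ^ 2 - q ^ 2 = 1 := by
    rw [hα, hp, hq]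
    field_simp
    rw [hs2]
    nlinarith
  have hpq : p ^ 2 + q ^ 2 = ‖w‖ ^ 2 / s ^ 2 := by
    rw [hp, hq, hnw]
    field_simp
  have hpq2 : p ^ 2 + q ^ 2 ≤ κ ^ 2 := by
    rw [hpq, div_le_iff₀ (by positivity)]
    have h1 : ‖w‖ ≤ κ * s := hwb.trans (by gcongr)
    calc ‖w‖ ^ 2 ≤ (κ * s) ^ 2 := by gcongr
      _ = κ ^ 2 * s ^ 2 := by ring
  have hp2 : p ^ 2 ≤ κ ^ 2 := by nlinarith [sq_nonneg q]
  have hq2 : q ^ 2 ≤ κ ^ 2 := by nlinarith [sq_nonneg p]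
  have hpa : |p| ≤ κ := abs_le_of_sq_le_sq hp2 hκ0.le
  have hqa : |q| ≤ κ := abs_le_of_sq_le_sq hq2 hκ0.le
  have hα1 : 1 ≤ α := by nlinarith
  have hα2 : α ≤ 1 + κ := by nlinarith
  have hpa' := abs_le.1 hpa
  have hqa' := abs_le.1 hqa
  let M : Matrix (Fin 2) (Fin 2) ℝ := !![α + p, q; q, α - p]
  have hM : M.det = 1 := by
    simp only [M, Matrix.det_fin_two_of]
    linarith
  have k1 : δ * (α ^ 2 + p ^ 2 + q ^ 2) = b := by
    rw [hα, hp, hq]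
    field_simp
    rw [hs2]
    have : (b + δ) ^ 2 + w.re ^ 2 + w.im ^ 2 = 2 * b * (b + δ) := by nlinarith
    linear_combination δ * this
  have k2 : δ * (2 * α * p) = w.re := by
    rw [hα, hp]
    field_simp
    rw [hs2]
    ring
  have k3 : δ * (2 * α * q) = - w.im := by
    rw [hα, hq]
    field_simp
    rw [hs2]
    ring
  have k4 : w.im * p = - (w.re * q) := by
    rw [hp, hq]
    ring
  refine ⟨⟨M, hM⟩, ?_, ?_, ?_⟩
  · intro i j
    have e : (⟨M, hM⟩ : SL(2, ℝ)).1 i j = M i j := rfl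
    show |(⟨M, hM⟩ : SL(2, ℝ)).1 i j - _| < ε
    rw [e]
    fin_cases i <;> fin_cases j <;> simp [M] <;> rw [abs_lt] <;> constructor <;> linarith
  · intro v
    have e1 : (act ⟨M, hM⟩ v).re = (α + p) * v.re + q * v.im := rfl
    have e2 : (act ⟨M, hM⟩ v).im = q * v.re + (α - p) * v.im := rfl
    have hnA : ‖act ⟨M, hM⟩ v‖ ^ 2 = ((α + p) * v.re + q * v.im) ^ 2 +
        (q * v.re + (α - p) * v.im) ^ 2 := by
      rw [Complex.sq_norm, Complex.normSq_apply, e1, e2]; ring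
    have hnv : ‖v‖ ^ 2 = v.re ^ 2 + v.im ^ 2 := by
      rw [Complex.sq_norm, Complex.normSq_apply]; ring
    have hre : (w * v ^ 2).re = w.re * (v.re ^ 2 - v.im ^ 2) - w.im * (2 * v.re * v.im) := by
      rw [pow_two, Complex.mul_re, Complex.mul_re, Complex.mul_im]; ring
    rw [hnA, hnv, hre]
    linear_combination (v.re ^ 2 + v.im ^ 2) * k1 + (v.re ^ 2 - v.im ^ 2) * k2 +
      (2 * v.re * v.im) * k3
  · intro v
    have e1 : (act ⟨M, hM⟩ v).re = (α + p) * v.re + q * v.im := rfl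
    have e2 : (act ⟨M, hM⟩ v).im = q * v.re + (α - p) * v.im := rfl
    have hnv : ‖v‖ ^ 2 = v.re ^ 2 + v.im ^ 2 := by
      rw [Complex.sq_norm, Complex.normSq_apply]; ring
    have hre : ∀ x : ℂ, (w * x ^ 2).re =
        w.re * (x.re ^ 2 - x.im ^ 2) - w.im * (2 * x.re * x.im) := by
      intro x
      rw [pow_two, Complex.mul_re, Complex.mul_re, Complex.mul_im]; ring
    rw [hre, hre, hnv, e1, e2, hnw]
    linear_combination (v.re ^ 2 - v.im ^ 2) * (w.re * k1 - 2 * δ * q * k4) +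
      (v.re ^ 2 + v.im ^ 2) * (w.re * k2 - w.im * k3) +
      (v.re * v.im) * (-2 * w.im * k1 + 4 * δ * p * k4)

end SAD
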