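import Pool.Agent.Lib.SAD.AnyMain

/-!
# One test function suffices (MP_d36302_an)
-/

open Filter Topology MeasureTheory Set
open scoped MatrixGroups

namespace SAD

open TransSurf

variable {ι : Type*} {h : ι → ℂ}

namespace OneFunAux

open IsoMainAux

/-- The Fourier coefficient of order `2k`. -/
noncomputable def FC (f : ℂ → ℝ) (k : ℕ) : ℂ :=
  ∫ θ in (0:ℝ)..(2 * Real.pi), Complex.exp (-((2 * k * θ : ℝ) * Complex.I)) *
    (f (circleMap 0 1 θ) : ℂ)

theorem shift (f : ℂ → ℝ) (k : ℕ) {u : ℂ} (hu : ‖u‖ = 1) :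
    ∫ φ in (0:ℝ)..(2 * Real.pi), Complex.exp (-((2 * k * φ : ℝ) * Complex.I)) *
      (f (circleMap 0 1 φ * u) : ℂ) = u ^ (2 * k) * FC f k := by
  obtain ⟨α, hα⟩ : ∃ α : ℝ, u = Complex.exp (α * Complex.I) := by
    refine ⟨Complex.arg u, ?_⟩
    have := Complex.norm_mul_exp_arg_mul_I u
    rw [hu, Complex.ofReal_one, one_mul] at this
    exact this.symm
  have e1 : ∀ φ : ℝ, circleMap 0 1 φ * u = circleMap 0 1 (φ + α) := by
    intro φ
    rw [hα]
    simp only [circleMap, zero_add, Complex.ofReal_one, one_mul]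
    rw [← Complex.exp_add]
    congr 1
    push_cast
    ring
  have e2 : ∀ φ : ℝ, Complex.exp (-((2 * k * φ : ℝ) * Complex.I)) =
      u ^ (2 * k) * Complex.exp (-((2 * k * (φ + α) : ℝ) * Complex.I)) := by
    intro φ
    rw [hα, ← Complex.exp_nat_mul, ← Complex.exp_add]
    congr 1
    push_cast
    ring
  have e3 : ∀ φ : ℝ, Complex.exp (-((2 * k * φ : ℝ) * Complex.I)) *
      (f (circleMap 0 1 φ * u) : ℂ) = u ^ (2 * k) *
      (Complex.exp (-((2 * k * (φ + α) : ℝ) * Complex.I)) * (f (circleMap 0 1 (φ + α)) : ℂ)) := by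
    intro φ
    rw [e1, e2 φ]
    ring
  simp_rw [e3]
  rw [intervalIntegral.integral_const_mul]
  congr 1
  have h1 := intervalIntegral.integral_comp_add_right (a := 0) (b := 2 * Real.pi)
    (fun θ : ℝ => Complex.exp (-((2 * k * θ : ℝ) * Complex.I)) * (f (circleMap 0 1 θ) : ℂ)) α
  rw [h1, zero_add, add_comm (2 * Real.pi) α]
  have hper : Function.Periodic (fun θ : ℝ => Complex.exp (-((2 * k * θ : ℝ) * Complex.I)) *
      (f (circleMap 0 1 θ) : ℂ)) (2 * Real.pi) := by
    intro θ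
    simp only
    congr 1
    · rw [Complex.exp_eq_exp_iff_exists_int]
      refine ⟨-(2 * k : ℤ), ?_⟩
      push_cast
      ring
    · rw [periodic_circleMap]
  have h2 := hper.intervalIntegral_add_eq α 0
  rw [zero_add] at h2
  exact h2

theorem int_exp_zero {k : ℕ} (hk : 1 ≤ k) :
    ∫ φ in (0:ℝ)..(2 * Real.pi), Complex.exp (-((2 * k * φ : ℝ) * Complex.I)) = 0 := by
  have hc : (-(2 * k : ℂ) * Complex.I) ≠ 0 := by
    have hk0 : (k : ℂ) ≠ 0 := by
      have : k ≠ 0 := by omega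
      exact_mod_cast this
    simp [hk0]
  have e : ∀ φ : ℝ, Complex.exp (-((2 * k * φ : ℝ) * Complex.I)) =
      Complex.exp ((-(2 * k : ℂ) * Complex.I) * φ) := by
    intro φ
    congr 1
    push_cast
    ring
  simp_rw [e]
  rw [integral_exp_mul_complex hc]
  have h1 : Complex.exp (-(2 * k : ℂ) * Complex.I * ((2 * Real.pi : ℝ) : ℂ)) = 1 := by
    rw [Complex.exp_eq_one_iff]
    refine ⟨-(2 * k : ℤ), ?_⟩
    push_cast
    ring
  rw [h1]
  simp

end OneFunAux

open OneFunAux IsoMainAux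

theorem harmK_of_fun (hf : LocFin h) {f : ℂ → ℝ} (hfm : Measurable f) {M : ℝ}
    (hM : ∀ z, |f z| ≤ M) {k : ℕ} (hk : 1 ≤ k) (hc : FC f k ≠ 0) {l : ℝ} (A : SL(2, ℝ))
    (hl : ∀ r : SL(2, ℝ), (∀ z, ‖act r z‖ = ‖z‖) →
      Tendsto (fun R => dirSum (fun i => act (r * A) (h i)) f R /
      N (fun i => act (r * A) (h i)) R) atTop (𝓝 l)) :
    HarmK k (fun i => act A (h i)) := by
  have hfA := hf.act A
  have hM0 : 0 ≤ M := (abs_nonneg _).trans (hM 0)
  -- rotated families
  have hcs : ∀ φ : ℝ, Real.cos φ ^ 2 + Real.sin φ ^ 2 = 1 := fun φ => Real.cos_sq_add_sin_sq φ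
  have hr : ∀ φ : ℝ, (⟨Real.cos φ, Real.sin φ⟩ : ℂ) = circleMap 0 1 φ := by
    intro φ
    simp only [circleMap, zero_add, Complex.ofReal_one, one_mul]
    apply Complex.ext
    · rw [Complex.exp_ofReal_mul_I_re]
    · rw [Complex.exp_ofReal_mul_I_im]
  have hS : ∀ φ : ℝ, Tendsto (fun R => dirSum (fun i => act A (h i))
      (fun u => f (circleMap 0 1 φ * u)) R / N (fun i => act A (h i)) R) atTop (𝓝 l) := by
    intro φ
    have h1 := hl (rot (Real.cos φ) (Real.sin φ) (hcs φ)) (norm_act_rot (hcs φ))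
    have hN : N (fun i => act (rot (Real.cos φ) (Real.sin φ) (hcs φ) * A) (h i)) =
        N (fun i => act A (h i)) := by
      funext R
      unfold N
      simp only [act_mul, norm_act_rot]
    have hd : ∀ R, dirSum (fun i => act (rot (Real.cos φ) (Real.sin φ) (hcs φ) * A) (h i)) f R =
        dirSum (fun i => act A (h i)) (fun u => f (circleMap 0 1 φ * u)) R := by
      intro R
      unfold dirSum
      simp only [act_mul, norm_act_rot, ← act_div]
      simp only [act_rot, hr]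
    rw [hN] at h1
    exact h1.congr fun R => by rw [hd R]
  -- integrate over `φ`
  set S : ℝ → ℝ → ℝ := fun R φ => dirSum (fun i => act A (h i))
      (fun u => f (circleMap 0 1 φ * u)) R / N (fun i => act A (h i)) R with hSdef
  have hmeas : ∀ u : ℂ, Measurable fun φ : ℝ => f (circleMap 0 1 φ * u) := by
    intro u
    exact hfm.comp ((continuous_circleMap 0 1).mul continuous_const).measurable
  have hSm : ∀ R, Measurable (S R) := by
    intro R
    have hfin := hfA.2 R
    have e : S R = fun φ => (∑ i ∈ hfin.toFinset,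
        f (circleMap 0 1 φ * (act A (h i) / (‖act A (h i)‖ : ℂ)))) /
          N (fun i => act A (h i)) R := by
      funext φ
      simp only [hSdef]
      unfold dirSum
      rw [finsum_mem_eq_finite_toFinset_sum _ hfin]
    rw [e]
    exact (Finset.measurable_sum _ fun i _ => hmeas _).div_const _
  have hSb : ∀ R φ, |S R φ| ≤ M := by
    intro R φ
    simp only [hSdef]
    rw [abs_div, abs_of_nonneg (N_nonneg _ _)]
    have h1 := IsoLapAux.abs_dirSum_le hfA (f := fun u => f (circleMap 0 1 φ * u)) (B := M)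
      (fun i => hM _) R
    exact div_le_of_le_mul₀ (N_nonneg _ _) hM0 h1
  have hlim : Tendsto (fun R => ∫ φ in (0:ℝ)..(2 * Real.pi),
      Complex.exp (-((2 * k * φ : ℝ) * Complex.I)) * (S R φ : ℂ)) atTop
      (𝓝 (∫ φ in (0:ℝ)..(2 * Real.pi),
        Complex.exp (-((2 * k * φ : ℝ) * Complex.I)) * (l : ℂ))) := by
    refine intervalIntegral.tendsto_integral_filter_of_dominated_convergence (fun _ => M)
      (Eventually.of_forall fun R => ?_) (Eventually.of_forall fun R => ?_)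
      intervalIntegrable_const ?_
    · refine (Measurable.aestronglyMeasurable ?_)
      exact (by fun_prop : Measurable fun φ : ℝ =>
        Complex.exp (-((2 * k * φ : ℝ) * Complex.I))).mul
        (Complex.measurable_ofReal.comp (hSm R))
    · refine Eventually.of_forall fun φ _ => ?_
      rw [norm_mul, ← neg_mul, ← Complex.ofReal_neg, Complex.norm_exp_ofReal_mul_I, one_mul,
        Complex.norm_real, Real.norm_eq_abs]
      exact hSb R φ
    · refine Eventually.of_forall fun φ _ => ?_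
      exact ((Complex.continuous_ofReal.tendsto _).comp (hS φ)).const_mul _
  rw [intervalIntegral.integral_mul_const, int_exp_zero hk, zero_mul] at hlim
  have hval : ∀ R, ∫ φ in (0:ℝ)..(2 * Real.pi),
      Complex.exp (-((2 * k * φ : ℝ) * Complex.I)) * (S R φ : ℂ) =
      (∑ i ∈ (hfA.2 R).toFinset, (act A (h i) / (‖act A (h i)‖ : ℂ)) ^ (2 * k)) * FC f k /
        (N (fun i => act A (h i)) R : ℂ) := by
    intro R
    have hfin := hfA.2 R
    have e : ∀ φ : ℝ, Complex.exp (-((2 * k * φ : ℝ) * Complex.I)) * (S R φ : ℂ) =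
        (∑ i ∈ hfin.toFinset, Complex.exp (-((2 * k * φ : ℝ) * Complex.I)) *
          (f (circleMap 0 1 φ * (act A (h i) / (‖act A (h i)‖ : ℂ))) : ℂ)) *
          ((N (fun i => act A (h i)) R : ℂ))⁻¹ := by
      intro φ
      simp only [hSdef]
      unfold dirSum
      rw [finsum_mem_eq_finite_toFinset_sum _ hfin]
      push_cast
      rw [← Finset.mul_sum]
      ring
    simp_rw [e]
    rw [intervalIntegral.integral_mul_const, intervalIntegral.integral_finsetSum]
    · rw [div_eq_mul_inv]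
      congr 1
      rw [Finset.sum_mul]
      refine Finset.sum_congr rfl fun i _ => ?_
      have hu : ‖act A (h i) / (‖act A (h i)‖ : ℂ)‖ = 1 := by
        rw [norm_div, Complex.norm_real, norm_norm]
        exact div_self (norm_ne_zero_iff.2 (hfA.1 i))
      exact shift f k hu
    · intro i _
      refine IntervalIntegrable.mono_fun' (g := fun _ => M) intervalIntegrable_const ?_ ?_
      · refine (Measurable.aestronglyMeasurable ?_)
        exact (by fun_prop : Measurable fun φ : ℝ =>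
          Complex.exp (-((2 * k * φ : ℝ) * Complex.I))).mul
          (Complex.measurable_ofReal.comp (hmeas _))
      · refine Eventually.of_forall fun φ => ?_
        simp only
        rw [norm_mul, ← neg_mul, ← Complex.ofReal_neg, Complex.norm_exp_ofReal_mul_I, one_mul,
          Complex.norm_real, Real.norm_eq_abs]
        exact hM _
  intro c
  have h3 : Tendsto (fun R => (c / FC f k * ((∑ i ∈ (hfA.2 R).toFinset,
      (act A (h i) / (‖act A (h i)‖ : ℂ)) ^ (2 * k)) * FC f k /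
        (N (fun i => act A (h i)) R : ℂ))).re) atTop (𝓝 0) := by
    have h4 := (hlim.congr hval).const_mul (c / FC f k)
    rw [mul_zero] at h4
    have h5 := (Complex.continuous_re.tendsto _).comp h4
    rw [Complex.zero_re] at h5
    exact h5
  refine h3.congr fun R => ?_
  have hfin := hfA.2 R
  unfold dirSum
  rw [finsum_mem_eq_finite_toFinset_sum _ hfin]
  have e5 : c / FC f k * ((∑ i ∈ (hfA.2 R).toFinset,
      (act A (h i) / (‖act A (h i)‖ : ℂ)) ^ (2 * k)) * FC f k /
        (N (fun i => act A (h i)) R : ℂ)) =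
      (∑ i ∈ hfin.toFinset, c * (act A (h i) / (‖act A (h i)‖ : ℂ)) ^ (2 * k)) /
        ((N (fun i => act A (h i)) R : ℝ) : ℂ) := by
    rw [← Finset.mul_sum]
    field_simp
  rw [e5, Complex.div_ofReal_re, Complex.re_sum]

/-! ### Open sets of matrices -/

theorem continuous_dg : Continuous dg := by
  refine continuous_induced_rng.2 ?_
  refine continuous_matrix fun i j => ?_
  fin_cases i <;> fin_cases j
  · show Continuous fun t : ℝ => Real.exp (t / 2)
    fun_prop
  · show Continuous fun _ : ℝ => (0 : ℝ)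
    fun_prop
  · show Continuous fun _ : ℝ => (0 : ℝ)
    fun_prop
  · show Continuous fun t : ℝ => Real.exp (-(t / 2))
    fun_prop

theorem dg_zero : dg 0 = 1 := by
  ext i j
  fin_cases i <;> fin_cases j
  · show Real.exp (0 / 2) = 1
    simp
  · show (0 : ℝ) = 0
    rfl
  · show (0 : ℝ) = 0
    rfl
  · show Real.exp (-(0 / 2)) = 1
    simp

theorem exists_dg {W : Set SL(2, ℝ)} (hW : IsOpen W) {A : SL(2, ℝ)} (hA : A ∈ W) :
    ∃ ε : ℝ, 0 < ε ∧ ∀ t : ℝ, |t| < ε → dg t * A ∈ W := by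
  have hc : Continuous fun t : ℝ => dg t * A := continuous_dg.mul continuous_const
  have h0 : (0 : ℝ) ∈ (fun t : ℝ => dg t * A) ⁻¹' W := by
    show dg 0 * A ∈ W
    rw [dg_zero, one_mul]
    exact hA
  obtain ⟨ε, hε, h⟩ := Metric.isOpen_iff.1 (hW.preimage hc) 0 h0
  refine ⟨ε, hε, fun t ht => h ?_⟩
  rw [Metric.mem_ball, Real.dist_eq, sub_zero]
  exact ht

theorem lapK_desc_open (hf : LocFin h) (hq : Quad h) {W : Set SL(2, ℝ)} (hW : IsOpen W)
    (hrot : ∀ r : SL(2, ℝ), (∀ z, ‖act r z‖ = ‖z‖) → ∀ A ∈ W, r * A ∈ W) {m : ℕ} (hm : 1 ≤ m)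
    (hL : ∀ A ∈ W, LapK (m + 1) (fun i => act A (h i))) :
    ∀ A ∈ W, LapK m (fun i => act A (h i)) := by
  intro A hA c τ hτ
  have hfA := hf.act A
  have hqA := quad_act hf hq A
  obtain ⟨ε₁, hε₁, h1⟩ := exists_dg hW hA
  obtain ⟨ε₂, hε₂, h2⟩ := exists_dg hW (hrot AnyRelAux.qr AnyRelAux.norm_act_qr A hA)
  have hrel : ∀ τ : ℝ, 1 < τ → Tendsto (fun R => L (fun i => act A (h i))
      (fun z => 2 * (m + 1) * TG m c τ z - τ * TH m c τ z) R) atTop (𝓝 0) := by
    intro τ hτ
    refine rel' hfA hqA (lt_min hε₁ hε₂) (fun t ht => ?_) (fun t ht => ?_) c hτ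
    · have := hL _ (h1 t (ht.trans_le (min_le_left _ _)))
      simpa only [act_mul] using this
    · have := hL _ (h2 t (ht.trans_le (min_le_right _ _)))
      simpa only [act_mul] using this
  exact fin_step (greg_of_quad hfA hqA) hm c (fun _ hτ => sig hfA hqA hm c hrel hτ) hτ

theorem lapK_one_open (hf : LocFin h) (hq : Quad h) {W : Set SL(2, ℝ)} (hW : IsOpen W)
    (hrot : ∀ r : SL(2, ℝ), (∀ z, ‖act r z‖ = ‖z‖) → ∀ A ∈ W, r * A ∈ W) (k : ℕ)
    (hL : ∀ A ∈ W, LapK (k + 1) (fun i => act A (h i))) :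
    ∀ A ∈ W, LapK 1 (fun i => act A (h i)) := by
  induction k with
  | zero => exact hL
  | succ k ih => exact ih fun B hB => lapK_desc_open hf hq hW hrot (by omega) hL B hB

theorem leb_fun (hf : LocFin h) (hs : ∃ σ : Equiv.Perm ι, ∀ i, h (σ i) = -h i)
    (hlow : ∃ c : ℝ, 0 < c ∧ ∀ᶠ R in atTop, c * R ≤ N h R) {W : Set SL(2, ℝ)} (hW : IsOpen W)
    (h1 : (1 : SL(2, ℝ)) ∈ W)
    (hrot : ∀ r : SL(2, ℝ), (∀ z, ‖act r z‖ = ‖z‖) → ∀ A ∈ W, r * A ∈ W) {f : ℂ → ℝ}
    (hfm : Measurable f) {M : ℝ} (hM : ∀ z, |f z| ≤ M) {k : ℕ} (hk : 1 ≤ k) (hc : FC f k ≠ 0)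
    (hq : k = 1 ∨ Quad h) {l : ℝ}
    (hl : ∀ A ∈ W, Tendsto (fun R => dirSum (fun i => act A (h i)) f R /
      N (fun i => act A (h i)) R) atTop (𝓝 l)) : LebLim h := by
  have harm : ∀ A ∈ W, HarmK k (fun i => act A (h i)) := fun A hA =>
    harmK_of_fun hf hfm hM hk hc A fun r hr => hl _ (hrot r hr A hA)
  obtain ⟨ε, hε, hbox⟩ : ∃ ε : ℝ, 0 < ε ∧ ∀ A : SL(2, ℝ),
      (∀ i j, |A i j - (1 : Matrix (Fin 2) (Fin 2) ℝ) i j| < ε) → A ∈ W := by
    obtain ⟨O, hO, hOW⟩ := isOpen_induced_iff.1 hW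
    have hO' : ∀ A : SL(2, ℝ), A.1 ∈ O ↔ A ∈ W := fun A => Set.ext_iff.1 hOW A
    obtain ⟨ε, hε, h2⟩ := exists_box (1 : Matrix (Fin 2) (Fin 2) ℝ) O hO ((hO' 1).2 h1)
    exact ⟨ε, hε, fun A hA => (hO' A).1 (h2 A.1 hA)⟩
  rcases hq with rfl | hq
  · exact leb_of_iso hf hs hlow hε fun A hA w => harm A (hbox A hA) w
  · have h3 : ∀ A ∈ W, LapK k (fun i => act A (h i)) := fun A hA =>
      lapK_of_harmK (hf.act A) (quad_act hf hq A) (harm A hA)
    obtain ⟨j, rfl⟩ : ∃ j, k = j + 1 := ⟨k - 1, by omega⟩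
    have h4 := lapK_one_open hf hq hW hrot j h3
    have hg : GReg h := greg_of_quad hf hq
    obtain ⟨κ, hκ0, hκ1, hκ⟩ := exists_matrix' hε
    have haff : AffLim h (κ / 2) := affLim_of_DE hg hκ0 hκ1 fun a w ha hw => by
      obtain ⟨A, hA, h5, h6⟩ := hκ a w ha hw
      refine DE_of_lapK hf hq ha ?_ h5 h6 (h4 A (hbox A hA))
      nlinarith
    exact leb_of_tendsto_L hg hs
      (tendsto_L_of_affine hf hlow hg (by positivity) (by linarith) haff)

theorem quad_push (X : TransSurf) (hX : Quad X.hol) (B : SL(2, ℝ)) : Quad (X.push B).hol := by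
  have := quad_act X.locFin hX B
  unfold Quad at this ⊢
  rwa [N_push]

/-- There are a number `l` and a nonempty open set `V` of matrices, invariant under left
multiplication by rotations, such that for every `A ∈ V` the mean of `f` over the directions of the
saddle connections of `A X` of length at most `R` tends to `l` as `R → ∞`. -/
def Stable (X : TransSurf) (f : ℂ → ℝ) : Prop :=
  ∃ (l : ℝ) (V : Set SL(2, ℝ)), IsOpen V ∧ V.Nonempty ∧
    (∀ r : SL(2, ℝ), (∀ z, ‖act r z‖ = ‖z‖) → ∀ A ∈ V, r * A ∈ V) ∧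
    ∀ A ∈ V, Tendsto (fun R => dirSum (X.push A).hol f R / N (X.push A).hol R) atTop (𝓝 l)

theorem main_fun (X : TransSurf) {V : Set SL(2, ℝ)} (hV : IsOpen V) (hne : V.Nonempty)
    (hrot : ∀ r : SL(2, ℝ), (∀ z, ‖act r z‖ = ‖z‖) → ∀ A ∈ V, r * A ∈ V) {f : ℂ → ℝ}
    (hfm : Measurable f) {M : ℝ}
    (hM : ∀ z, |f z| ≤ M) {k : ℕ} (hk : 1 ≤ k) (hc : FC f k ≠ 0) (hX : k = 1 ∨ Quad X.hol) {l : ℝ}
    (hl : ∀ A ∈ V, Tendsto (fun R => dirSum (X.push A).hol f R /
      N (X.push A).hol R) atTop (𝓝 l)) : ∀ A : SL(2, ℝ), Equi (X.push A).hol := by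
  obtain ⟨B, hB⟩ := hne
  obtain ⟨σ, hσ⟩ := exists_equiv_push X B
  have key : LebLim (X.push B).hol := by
    refine leb_fun (X.push B).locFin (exists_reverse _) (linear_lower _)
      (W := (fun A : SL(2, ℝ) => A * B) ⁻¹' V) (hV.preimage (continuous_mul_const B)) ?_ ?_
      hfm hM hk hc ?_ (l := l) ?_
    · show 1 * B ∈ V
      rwa [one_mul]
    · intro r hr A hA
      show r * A * B ∈ V
      rw [mul_assoc]
      exact hrot r hr _ hA
    · rcases hX with h | h
      · exact Or.inl h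
      · exact Or.inr (quad_push X h B)
    · intro A hA
      have h5 := hl (A * B) hA
      rw [N_push, dirSum_push] at h5
      have e1 : N (fun s => act A ((X.push B).hol s)) = N (fun s => act (A * B) (X.hol s)) := by
        refine N_congr σ fun s => ?_
        rw [act_mul, hσ]
      have e2 : dirSum (fun s => act A ((X.push B).hol s)) =
          dirSum (fun s => act (A * B) (X.hol s)) := by
        refine dirSum_congr σ fun s => ?_
        rw [act_mul, hσ]
      rw [e1, e2]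
      exact h5
  have h7 := ((main (X.push B)).out 6 0 :).1 key
  intro A
  have h6 := h7 (A * B⁻¹)
  rw [Equi_push] at h6 ⊢
  rwa [Equi_congr (h := fun s => act (A * B⁻¹) ((X.push B).hol s))
    (k := fun s => act A (X.hol s)) σ (fun s => by
      rw [hσ, ← act_mul, inv_mul_cancel_right])] at h6

theorem main_stable (X : TransSurf) {f : ℂ → ℝ} (hfm : Measurable f)
    (hM : ∃ M : ℝ, ∀ z, |f z| ≤ M) {k : ℕ} (hk : 1 ≤ k) (hc : FC f k ≠ 0)
    (hX : k = 1 ∨ Quad X.hol) (hs : Stable X f) : ∀ A : SL(2, ℝ), Equi (X.push A).hol := by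
  obtain ⟨M, hM⟩ := hM
  obtain ⟨l, V, hV, hne, hrot, hl⟩ := hs
  exact main_fun X hV hne hrot hfm hM hk hc hX hl

theorem stable_of_forall (X : TransSurf) {f : ℂ → ℝ} {l : ℝ}
    (h : ∀ A : SL(2, ℝ), Tendsto (fun R => dirSum (X.push A).hol f R / N (X.push A).hol R)
      atTop (𝓝 l)) : Stable X f :=
  ⟨l, Set.univ, isOpen_univ, ⟨1, trivial⟩, fun _ _ _ _ => trivial, fun A _ => h A⟩

end SAD
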