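import Pool.Agent.Lib.SAD.OneFun
import Pool.Agent.Lib.SAD.ArcEq

/-!
# One fixed arc (MP_d36302_an)
-/

open Filter Topology MeasureTheory Set
open scoped MatrixGroups

namespace SAD

open TransSurf

open OneFunAux in
/-- PROOF. `FC f 1 = ∫_0^{2π} e^{-2iθ} 1_arc(e^{iθ}) dθ = ∫_a^b e^{-2iθ} dθ` (periodicity: move the interval
of integration to `[a, a + 2π]`, where `e^{iθ} ∈ arc a b ↔ θ ≤ b` up to the end point `a + 2π`) `=
(e^{-2ia} - e^{-2ib}) / (2i) ≠ 0`, as `2 (b - a)` is not in `2π ℤ`. -/
theorem FC_arc {a b : ℝ} (hab : a < b) (hb : b - a < Real.pi) :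
    FC (Set.indicator (arc a b) (fun _ => (1 : ℝ))) 1 ≠ 0 := by
  have hpi := Real.pi_pos
  set F : ℝ → ℂ := fun θ => Complex.exp (-((2 * (1 : ℕ) * θ : ℝ) * Complex.I)) *
      ((Set.indicator (arc a b) (fun _ => (1 : ℝ)) (circleMap 0 1 θ) : ℝ) : ℂ) with hF
  have hper : Function.Periodic F (2 * Real.pi) := by
    intro θ
    simp only [hF]
    congr 1
    · rw [Complex.exp_eq_exp_iff_exists_int]
      refine ⟨-2, ?_⟩
      push_cast
      ring
    · rw [periodic_circleMap]
  have h1 : FC (Set.indicator (arc a b) (fun _ => (1 : ℝ))) 1 = ∫ θ in a..(a + 2 * Real.pi), F θ := by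
    have := hper.intervalIntegral_add_eq 0 a
    rw [zero_add] at this
    exact this
  -- on the interval of integration
  have hmem : ∀ θ, a ≤ θ → θ < a + 2 * Real.pi → (circleMap 0 1 θ ∈ arc a b ↔ θ ≤ b) := by
    intro θ h2 h3
    constructor
    · rintro ⟨t, ht, hte⟩
      have hte' : Complex.exp (t * Complex.I) = Complex.exp (θ * Complex.I) := by
        simpa [circleMap] using hte
      rw [Complex.exp_eq_exp_iff_exists_int] at hte'
      obtain ⟨n, hn⟩ := hte'
      have hn' : t = θ + n * (2 * Real.pi) := by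
        have h5 : ((t : ℂ)) * Complex.I = ((θ + n * (2 * Real.pi) : ℝ) : ℂ) * Complex.I := by
          rw [hn]; push_cast; ring
        have h6 := mul_right_cancel₀ Complex.I_ne_zero h5
        exact_mod_cast h6
      have hn0 : n = 0 := by
        have g1 : ((n : ℝ)) * (2 * Real.pi) < 2 * Real.pi := by
          have := ht.2
          linarith
        have g2 : -(2 * Real.pi) < ((n : ℝ)) * (2 * Real.pi) := by
          have := ht.1
          linarith
        have g3 : (n : ℝ) < 1 := by
          by_contra hcon
          push Not at hcon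
          nlinarith
        have g4 : (-1 : ℝ) < n := by
          by_contra hcon
          push Not at hcon
          nlinarith
        have g5 : n < 1 := by exact_mod_cast g3
        have g6 : -1 < n := by exact_mod_cast g4
        omega
      rw [hn0] at hn'
      simp at hn'
      rw [← hn']
      exact ht.2
    · intro h4
      exact ⟨θ, ⟨h2, h4⟩, rfl⟩
  have hFb : ∀ θ, a ≤ θ → θ ≤ b → F θ = Complex.exp ((-2 * Complex.I) * θ) := by
    intro θ h2 h3
    simp only [hF]
    rw [indicator_of_mem ((hmem θ h2 (by linarith)).2 h3)]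
    push_cast
    rw [mul_one]
    congr 1
    ring
  have hF0 : ∀ θ, b < θ → θ < a + 2 * Real.pi → F θ = 0 := by
    intro θ h2 h3
    simp only [hF]
    rw [indicator_of_notMem (fun h4 => absurd ((hmem θ (by linarith) h3).1 h4) (not_le.2 h2))]
    simp
  have hFm : Measurable F := by
    have hm : MeasurableSet (arc a b) :=
      (isCompact_Icc.image (continuous_circleMap 0 1)).measurableSet
    exact (by fun_prop : Measurable fun θ : ℝ =>
      Complex.exp (-((2 * (1 : ℕ) * θ : ℝ) * Complex.I))).mul
      (Complex.measurable_ofReal.comp ((measurable_const.indicator hm).comp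
        (continuous_circleMap 0 1).measurable))
  have hFi : ∀ x y : ℝ, IntervalIntegrable F volume x y := by
    intro x y
    refine IntervalIntegrable.mono_fun' (g := fun _ => (1 : ℝ)) intervalIntegrable_const
      hFm.aestronglyMeasurable (Eventually.of_forall fun θ => ?_)
    simp only [hF]
    rw [norm_mul, ← neg_mul, ← Complex.ofReal_neg, Complex.norm_exp_ofReal_mul_I, one_mul,
      Complex.norm_real, Real.norm_eq_abs]
    by_cases hz : circleMap 0 1 θ ∈ arc a b
    · rw [indicator_of_mem hz]; simp
    · rw [indicator_of_notMem hz]; simp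
  have h2 : ∫ θ in a..(a + 2 * Real.pi), F θ = ∫ θ in a..b, Complex.exp ((-2 * Complex.I) * θ) := by
    rw [← intervalIntegral.integral_add_adjacent_intervals (hFi a b) (hFi b (a + 2 * Real.pi))]
    have e1 : ∫ θ in a..b, F θ = ∫ θ in a..b, Complex.exp ((-2 * Complex.I) * θ) := by
      refine intervalIntegral.integral_congr fun θ hθ => ?_
      rw [uIcc_of_le hab.le] at hθ
      exact hFb θ hθ.1 hθ.2
    have e2 : ∫ θ in b..(a + 2 * Real.pi), F θ = 0 := by
      rw [intervalIntegral.integral_of_le (by linarith), integral_Ioc_eq_integral_Ioo]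
      refine setIntegral_eq_zero_of_forall_eq_zero fun θ hθ => ?_
      exact hF0 θ hθ.1 hθ.2
    rw [e1, e2, add_zero]
  have hc : (-2 * Complex.I) ≠ 0 := by simp
  rw [h1, h2, integral_exp_mul_complex hc]
  intro h3
  rw [div_eq_zero_iff] at h3
  have h4 := h3.resolve_right hc
  rw [sub_eq_zero, Complex.exp_eq_exp_iff_exists_int] at h4
  obtain ⟨n, hn⟩ := h4
  have hn' : b = a - n * Real.pi := by
    have h5 : (-2 * Complex.I) * (b : ℂ) = (-2 * Complex.I) * ((a - n * Real.pi : ℝ) : ℂ) := by
      rw [hn]; push_cast; ring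
    have h6 := mul_left_cancel₀ hc h5
    exact_mod_cast h6
  have g1 : (0 : ℝ) < -(n : ℝ) * Real.pi := by linarith
  have g2 : -(n : ℝ) * Real.pi < Real.pi := by linarith
  have g3 : (0 : ℝ) < -(n : ℝ) := by
    by_contra hcon
    push Not at hcon
    nlinarith
  have g4 : -(n : ℝ) < 1 := by
    by_contra hcon
    push Not at hcon
    nlinarith
  have g5 : 0 < -n := by exact_mod_cast g3
  have g6 : -n < 1 := by exact_mod_cast g4
  omega

open OneFunAux in
/-- One fixed arc of length less than `π` decides. -/
theorem main_arc (X : TransSurf) {a b : ℝ} (hab : a < b) (hb : b - a < Real.pi) :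
    (∀ A : SL(2, ℝ), Equi (X.push A).hol) ↔
      Stable X (Set.indicator (arc a b) (fun _ => (1 : ℝ))) := by
  constructor
  · intro h
    exact stable_of_forall X fun A => tendsto_arc_of_equi (X.push A).locFin (h A) hab hb
  · intro hs
    have hm : MeasurableSet (arc a b) :=
      (isCompact_Icc.image (continuous_circleMap 0 1)).measurableSet
    refine main_stable X (measurable_const.indicator hm) ⟨1, fun z => ?_⟩ le_rfl
      (FC_arc hab hb) (Or.inl rfl) hs
    by_cases hz : z ∈ arc a b
    · rw [indicator_of_mem hz]; simp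
    · rw [indicator_of_notMem hz]; simp

end SAD
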