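import Pool.Agent.Lib.SAD.OneFun

/-!
# Continuous test functions (MP_d36302_an)
-/

open Filter Topology MeasureTheory Set
open scoped MatrixGroups ComplexConjugate

namespace SAD

open TransSurf

namespace OneFunAux

/-- Fourier integral of order `n`. -/
noncomputable def FI (f : ℂ → ℝ) (n : ℤ) : ℂ :=
  ∫ θ in (0:ℝ)..(2 * Real.pi), Complex.exp (-((n * θ : ℝ) * Complex.I)) *
    (f (circleMap 0 1 θ) : ℂ)

theorem FI_even (f : ℂ → ℝ) (k : ℕ) : FI f (2 * k : ℤ) = FC f k := by
  unfold FI FC
  push_cast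
  rfl

theorem FI_neg (f : ℂ → ℝ) (n : ℤ) : FI f (-n) = conj (FI f n) := by
  unfold FI
  have h0 : (0:ℝ) ≤ 2 * Real.pi := by positivity
  rw [intervalIntegral.integral_of_le h0, intervalIntegral.integral_of_le h0, ← integral_conj]
  congr 1
  funext θ
  rw [map_mul, Complex.conj_ofReal, ← Complex.exp_conj]
  congr 2
  push_cast
  simp

/-- Shift by `π`. -/
theorem FI_pi {f : ℂ → ℝ} (n : ℤ) :
    ∫ θ in (0:ℝ)..(2 * Real.pi), Complex.exp (-((n * θ : ℝ) * Complex.I)) *
      (f (-circleMap 0 1 θ) : ℂ) = (-1) ^ n * FI f n := by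
  have e1 : ∀ θ : ℝ, -circleMap 0 1 θ = circleMap 0 1 (θ + Real.pi) := by
    intro θ
    simp only [circleMap, zero_add, Complex.ofReal_one, one_mul, Complex.ofReal_add, add_mul,
      Complex.exp_add, Complex.exp_pi_mul_I]
    ring
  have e2 : ∀ θ : ℝ, Complex.exp (-((n * θ : ℝ) * Complex.I)) =
      (-1) ^ n * Complex.exp (-((n * (θ + Real.pi) : ℝ) * Complex.I)) := by
    intro θ
    have : ((-1 : ℂ)) ^ n = Complex.exp (n * (Real.pi * Complex.I)) := by
      rw [Complex.exp_int_mul, Complex.exp_pi_mul_I]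
    rw [this, ← Complex.exp_add]
    congr 1
    push_cast
    ring
  have e3 : ∀ θ : ℝ, Complex.exp (-((n * θ : ℝ) * Complex.I)) *
      (f (-circleMap 0 1 θ) : ℂ) = (-1) ^ n *
      (Complex.exp (-((n * (θ + Real.pi) : ℝ) * Complex.I)) *
        (f (circleMap 0 1 (θ + Real.pi)) : ℂ)) := by
    intro θ
    rw [e1, e2 θ]
    ring
  simp_rw [e3]
  rw [intervalIntegral.integral_const_mul]
  congr 1
  have h1 := intervalIntegral.integral_comp_add_right (a := 0) (b := 2 * Real.pi)
    (fun θ : ℝ => Complex.exp (-((n * θ : ℝ) * Complex.I)) * (f (circleMap 0 1 θ) : ℂ)) Real.pi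
  rw [h1, zero_add, add_comm (2 * Real.pi) Real.pi]
  have hper : Function.Periodic (fun θ : ℝ => Complex.exp (-((n * θ : ℝ) * Complex.I)) *
      (f (circleMap 0 1 θ) : ℂ)) (2 * Real.pi) := by
    intro θ
    simp only
    congr 1
    · rw [Complex.exp_eq_exp_iff_exists_int]
      refine ⟨-n, ?_⟩
      push_cast
      ring
    · rw [periodic_circleMap]
  have h2 := hper.intervalIntegral_add_eq Real.pi 0
  rw [zero_add] at h2
  exact h2

theorem const_of_FC {f : ℂ → ℝ} (hf : Continuous f) (hz : ∀ k : ℕ, 1 ≤ k → FC f k = 0)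
    {u v : ℂ} (hu : ‖u‖ = 1) (hv : ‖v‖ = 1) : f u + f (-u) = f v + f (-v) := by
  have : Fact (0 < 2 * Real.pi) := ⟨Real.two_pi_pos⟩
  let F : C(AddCircle (2 * Real.pi), ℂ) :=
    ⟨fun x => ((f (AddCircle.toCircle x : ℂ) : ℝ) : ℂ) + ((f (-(AddCircle.toCircle x : ℂ)) : ℝ) : ℂ),
      by
        have h1 : Continuous fun x : AddCircle (2 * Real.pi) => (AddCircle.toCircle x : ℂ) :=
          continuous_subtype_val.comp AddCircle.continuous_toCircle
        exact (Complex.continuous_ofReal.comp (hf.comp h1)).add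
          (Complex.continuous_ofReal.comp (hf.comp h1.neg))⟩
  have hcoe : ∀ x : ℝ, (AddCircle.toCircle (x : AddCircle (2 * Real.pi)) : ℂ) =
      circleMap 0 1 x := by
    intro x
    rw [AddCircle.toCircle_apply_mk, Circle.coe_exp]
    simp only [circleMap, zero_add, Complex.ofReal_one, one_mul]
    congr 2
    field_simp
  have hfo : ∀ (n : ℤ) (x : ℝ), fourier n (x : AddCircle (2 * Real.pi)) =
      Complex.exp ((n * x : ℝ) * Complex.I) := by
    intro n x
    rw [fourier_coe_apply]
    congr 1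
    push_cast
    field_simp
  have hF0 : ∀ n : ℤ, n ≠ 0 → fourierCoeff F n = 0 := by
    intro n hn
    rw [fourierCoeff_eq_intervalIntegral F n 0, zero_add]
    have e1 : ∀ x : ℝ, fourier (-n) (x : AddCircle (2 * Real.pi)) • F (x : AddCircle (2 * Real.pi)) =
        Complex.exp (-((n * x : ℝ) * Complex.I)) * (f (circleMap 0 1 x) : ℂ) +
        Complex.exp (-((n * x : ℝ) * Complex.I)) * (f (-circleMap 0 1 x) : ℂ) := by
      intro x
      have e2 : F (x : AddCircle (2 * Real.pi)) = ((f (circleMap 0 1 x) : ℝ) : ℂ) +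
          ((f (-circleMap 0 1 x) : ℝ) : ℂ) := by
        show ((f (AddCircle.toCircle (x : AddCircle (2 * Real.pi)) : ℂ) : ℝ) : ℂ) +
          ((f (-(AddCircle.toCircle (x : AddCircle (2 * Real.pi)) : ℂ)) : ℝ) : ℂ) = _
        rw [hcoe]
      rw [e2, hfo, smul_eq_mul, mul_add]
      have e3 : Complex.exp (((-n : ℤ) * x : ℝ) * Complex.I) =
          Complex.exp (-((n * x : ℝ) * Complex.I)) := by
        congr 1
        push_cast
        ring
      rw [e3]
    simp_rw [e1]
    rw [intervalIntegral.integral_add, FI_pi n]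
    · have e4 : (∫ θ in (0:ℝ)..(2 * Real.pi), Complex.exp (-((n * θ : ℝ) * Complex.I)) *
          (f (circleMap 0 1 θ) : ℂ)) = FI f n := rfl
      rw [e4]
      rcases Int.even_or_odd' n with ⟨j, hj | hj⟩
      · have hFI : FI f n = 0 := by
          rcases le_total 0 j with h0 | h0
          · obtain ⟨k, rfl⟩ := Int.eq_ofNat_of_zero_le h0
            rw [hj, FI_even]
            exact hz k (by omega)
          · obtain ⟨k, hk⟩ := Int.eq_ofNat_of_zero_le (neg_nonneg.2 h0)
            have : n = -(2 * (k : ℤ)) := by rw [hj]; omega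
            rw [this, FI_neg, FI_even, hz k (by omega), map_zero]
        rw [hFI]
        simp
      · have : ((-1 : ℂ)) ^ n = -1 := by
          rw [hj]
          rw [zpow_add₀ (by norm_num), zpow_mul]
          norm_num
        rw [this]
        simp
    · apply Continuous.intervalIntegrable
      have := continuous_circleMap 0 1
      fun_prop
    · apply Continuous.intervalIntegrable
      have := continuous_circleMap 0 1
      fun_prop
  have hs : Summable (fourierCoeff F) := by
    apply summable_of_ne_finset_zero (s := {0})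
    intro n hn
    exact hF0 n (by simpa using hn)
  have hconst : ∀ x : AddCircle (2 * Real.pi), F x = fourierCoeff F 0 := by
    intro x
    have h1 := has_pointwise_sum_fourier_series_of_summable hs x
    have h2 : HasSum (fun i => fourierCoeff F i • fourier i x) (fourierCoeff F 0 • fourier 0 x) := by
      apply hasSum_single
      intro n hn
      rw [hF0 n hn, zero_smul]
    rw [h1.unique h2, fourier_zero, smul_eq_mul, mul_one]
  have key : ∀ w : ℂ, ‖w‖ = 1 → ((f w + f (-w) : ℝ) : ℂ) = fourierCoeff F 0 := by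
    intro w hw
    obtain ⟨α, hα⟩ : ∃ α : ℝ, w = circleMap 0 1 α := by
      refine ⟨Complex.arg w, ?_⟩
      have := Complex.norm_mul_exp_arg_mul_I w
      rw [hw, Complex.ofReal_one, one_mul] at this
      simp only [circleMap, zero_add, Complex.ofReal_one, one_mul]
      exact this.symm
    rw [← hconst (α : AddCircle (2 * Real.pi))]
    show _ = ((f (AddCircle.toCircle (α : AddCircle (2 * Real.pi)) : ℂ) : ℝ) : ℂ) +
          ((f (-(AddCircle.toCircle (α : AddCircle (2 * Real.pi)) : ℂ)) : ℝ) : ℂ)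
    rw [hcoe, ← hα]
    push_cast
    ring
  have := (key u hu).trans (key v hv).symm
  exact_mod_cast this

end OneFunAux

open OneFunAux

/-- Only the values on the unit circle matter. -/
theorem dirSum_congr_circle {ι : Type*} {h : ι → ℂ} (hf : LocFin h) {f g : ℂ → ℝ}
    (hfg : ∀ u : ℂ, ‖u‖ = 1 → f u = g u) (R : ℝ) : dirSum h f R = dirSum h g R := by
  have hfin := hf.2 R
  unfold dirSum
  rw [finsum_mem_eq_finite_toFinset_sum _ hfin, finsum_mem_eq_finite_toFinset_sum _ hfin]
  refine Finset.sum_congr rfl fun i _ => hfg _ ?_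
  rw [norm_div, Complex.norm_real, norm_norm]
  exact div_self (norm_ne_zero_iff.2 (hf.1 i))

theorem main_cont (X : TransSurf) (hX : Quad X.hol) {f : ℂ → ℝ} (hf : Continuous f)
    (hne : ∃ u v : ℂ, ‖u‖ = 1 ∧ ‖v‖ = 1 ∧ f u + f (-u) ≠ f v + f (-v)) :
    (∀ A : SL(2, ℝ), Equi (X.push A).hol) ↔ Stable X f := by
  constructor
  · intro h
    exact stable_of_forall X fun A => h A f hf
  · rintro ⟨l, V, hV, hVne, hrot, hl⟩
    obtain ⟨k, hk, hc⟩ : ∃ k : ℕ, 1 ≤ k ∧ FC f k ≠ 0 := by
      by_contra hcon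
      push Not at hcon
      obtain ⟨u, v, hu, hv, huv⟩ := hne
      exact huv (const_of_FC hf hcon hu hv)
    -- a bounded function with the same values on the unit circle
    obtain ⟨M, hM⟩ : ∃ M : ℝ, ∀ u : ℂ, ‖u‖ = 1 → |f u| ≤ M := by
      have hc : IsCompact (Metric.sphere (0 : ℂ) 1) := isCompact_sphere 0 1
      obtain ⟨M, hM⟩ := hc.exists_bound_of_continuousOn hf.continuousOn
      exact ⟨M, fun u hu => by simpa using hM u (by simpa using hu)⟩
    have hM0 : 0 ≤ M := (abs_nonneg _).trans (hM 1 (by simp))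
    obtain ⟨g, hg⟩ : ∃ g : ℂ → ℝ, g = fun z => max (-M) (min M (f z)) := ⟨_, rfl⟩
    have hgf : ∀ u : ℂ, ‖u‖ = 1 → f u = g u := by
      intro u hu
      have h1 := abs_le.1 (hM u hu)
      rw [hg]
      simp only
      rw [min_eq_right h1.2, max_eq_right h1.1]
    have hgm : Measurable g := by
      rw [hg]
      exact (continuous_const.max (continuous_const.min hf)).measurable
    have hgM : ∀ z, |g z| ≤ M := by
      intro z
      rw [hg, abs_le]
      exact ⟨le_max_left _ _, max_le (by linarith) (min_le_left _ _)⟩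
    have hgc : FC g k = FC f k := by
      unfold FC
      congr 1
      funext θ
      rw [hgf (circleMap 0 1 θ) (by simp)]
    refine main_fun X hV hVne hrot hgm hgM hk (by rw [hgc]; exact hc) (Or.inr hX) (l := l)
      fun A hA => ?_
    refine (hl A hA).congr fun R => ?_
    rw [dirSum_congr_circle (X.push A).locFin hgf]

end SAD
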