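import Pool.Agent.Lib.SAD.OneFunC

/-!
# One harmonic on an open set suffices (MP_d36302_an)
-/

open Filter Topology MeasureTheory Set
open scoped MatrixGroups

namespace SAD

open TransSurf

variable {ι : Type*} {h : ι → ℂ}

namespace OneHarmAux

open OneFunAux IsoMainAux AnyMainAux

/-- The rotation by `φ`. -/
noncomputable def ro (φ : ℝ) : SL(2, ℝ) :=
  rot (Real.cos φ) (Real.sin φ) (Real.cos_sq_add_sin_sq φ)

theorem act_ro (φ : ℝ) (z : ℂ) : act (ro φ) z = circleMap 0 1 φ * z := by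
  unfold ro
  rw [act_rot]
  congr 1
  simp only [circleMap, zero_add, Complex.ofReal_one, one_mul]
  apply Complex.ext
  · rw [Complex.exp_ofReal_mul_I_re]
  · rw [Complex.exp_ofReal_mul_I_im]

theorem norm_cm (φ : ℝ) : ‖circleMap 0 1 φ‖ = 1 := by simp

theorem continuous_ro : Continuous ro := by
  refine continuous_induced_rng.2 ?_
  refine continuous_matrix fun i j => ?_
  fin_cases i <;> fin_cases j
  · show Continuous fun φ : ℝ => Real.cos φ
    fun_prop
  · show Continuous fun φ : ℝ => -Real.sin φ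
    fun_prop
  · show Continuous fun φ : ℝ => Real.sin φ
    fun_prop
  · show Continuous fun φ : ℝ => Real.cos φ
    fun_prop

theorem ro_zero : ro 0 = 1 := by
  ext i j
  fin_cases i <;> fin_cases j
  · show Real.cos 0 = 1
    simp
  · show -Real.sin 0 = 0
    simp
  · show Real.sin 0 = 0
    simp
  · show Real.cos 0 = 1
    simp

/-- Matrices which preserve the norm are rotations. -/
theorem exists_unit {r : SL(2, ℝ)} (hr : ∀ z, ‖act r z‖ = ‖z‖) :
    ∃ w : ℂ, ‖w‖ = 1 ∧ ∀ z, act r z = w * z := by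
  have h1 : r 0 0 ^ 2 + r 1 0 ^ 2 = 1 := by
    have h2 := congrArg (fun x : ℝ => x ^ 2) (hr 1)
    simp only [Complex.sq_norm, Complex.normSq_apply] at h2
    simp [act] at h2
    nlinarith
  have h3 : r 0 1 ^ 2 + r 1 1 ^ 2 = 1 := by
    have h2 := congrArg (fun x : ℝ => x ^ 2) (hr Complex.I)
    simp only [Complex.sq_norm, Complex.normSq_apply] at h2
    simp [act] at h2
    nlinarith
  have h4 := det_eq r
  have h5 : (r 0 0 - r 1 1) ^ 2 + (r 0 1 + r 1 0) ^ 2 = 0 := by nlinarith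
  have h6 : r 1 1 = r 0 0 := by nlinarith [sq_nonneg (r 0 0 - r 1 1), sq_nonneg (r 0 1 + r 1 0)]
  have h7 : r 0 1 = - r 1 0 := by
    nlinarith [sq_nonneg (r 0 0 - r 1 1), sq_nonneg (r 0 1 + r 1 0)]
  refine ⟨⟨r 0 0, r 1 0⟩, ?_, fun z => ?_⟩
  · have h8 : ‖(⟨r 0 0, r 1 0⟩ : ℂ)‖ ^ 2 = 1 := by
      rw [Complex.sq_norm, Complex.normSq_apply]
      show r 0 0 * r 0 0 + r 1 0 * r 1 0 = 1
      nlinarith
    have h9 := norm_nonneg (⟨r 0 0, r 1 0⟩ : ℂ)
    nlinarith
  · apply Complex.ext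
    · rw [act_re, Complex.mul_re]
      show _ = r 0 0 * z.re - r 1 0 * z.im
      rw [h7]
      ring
    · rw [act_im, Complex.mul_im]
      show _ = r 0 0 * z.im + r 1 0 * z.re
      rw [h6]
      ring

theorem dirSum_rot {r A : SL(2, ℝ)} {w : ℂ} (hw : ‖w‖ = 1) (hr : ∀ z, act r z = w * z)
    (f : ℂ → ℝ) (R : ℝ) : dirSum (fun i => act (r * A) (h i)) f R =
      dirSum (fun i => act A (h i)) (fun u => f (w * u)) R := by
  unfold dirSum
  simp only [act_mul, hr, norm_mul, hw, one_mul, mul_div_assoc]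

theorem N_rot {r A : SL(2, ℝ)} {w : ℂ} (hw : ‖w‖ = 1) (hr : ∀ z, act r z = w * z) (R : ℝ) :
    N (fun i => act (r * A) (h i)) R = N (fun i => act A (h i)) R := by
  unfold N
  simp only [act_mul, hr, norm_mul, hw, one_mul]

theorem harm_mul (w u : ℂ) (k : ℕ) : ((w * u) ^ (2 * k)).re =
    (w ^ (2 * k)).re * (u ^ (2 * k)).re + (-(w ^ (2 * k)).im) * (u ^ (2 * k)).im := by
  rw [mul_pow, Complex.mul_re]
  ring

theorem cm_pow (θ : ℝ) (k : ℕ) :
    (circleMap 0 1 θ) ^ (2 * k) = Complex.exp ((((2 * k : ℕ) * θ : ℝ) : ℂ) * Complex.I) := by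
  simp only [circleMap, zero_add, Complex.ofReal_one, one_mul]
  rw [← Complex.exp_nat_mul]
  congr 1
  push_cast
  ring

/-- If the mean of `cos 2kθ` has the same limit for all matrices in an open set, then the means of
`cos 2kθ` and `sin 2kθ` tend to zero. -/
theorem both_zero (hf : LocFin h) {k : ℕ} (hk : 1 ≤ k) {U : Set SL(2, ℝ)} (hU : IsOpen U) {l : ℝ}
    (hl : ∀ A ∈ U, Tendsto (fun R => dirSum (fun i => act A (h i)) (fun u => (u ^ (2 * k)).re) R /
      N (fun i => act A (h i)) R) atTop (𝓝 l)) {A : SL(2, ℝ)} (hA : A ∈ U) :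
    Tendsto (fun R => dirSum (fun i => act A (h i)) (fun u => (u ^ (2 * k)).re) R /
      N (fun i => act A (h i)) R) atTop (𝓝 0) ∧
    Tendsto (fun R => dirSum (fun i => act A (h i)) (fun u => (u ^ (2 * k)).im) R /
      N (fun i => act A (h i)) R) atTop (𝓝 0) := by
  have hfA := hf.act A
  -- small rotations stay in `U`
  have hc : Continuous fun φ : ℝ => ro φ * A := continuous_ro.mul continuous_const
  have h0 : (0 : ℝ) ∈ (fun φ : ℝ => ro φ * A) ⁻¹' U := by
    show ro 0 * A ∈ U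
    rw [ro_zero, one_mul]
    exact hA
  obtain ⟨ε, hε, hball⟩ := Metric.isOpen_iff.1 (hU.preimage hc) 0 h0
  have hk0 : (0 : ℝ) < k := by exact_mod_cast hk
  obtain ⟨φ, hφ0, hφε, hφk⟩ : ∃ φ : ℝ, 0 < φ ∧ φ < ε ∧ 2 * k * φ < Real.pi / 2 := by
    have hpi := Real.pi_pos
    refine ⟨min (ε / 2) (Real.pi / (8 * k)), by positivity, ?_, ?_⟩
    · exact (min_le_left _ _).trans_lt (by linarith)
    · have h1 : min (ε / 2) (Real.pi / (8 * k)) ≤ Real.pi / (8 * k) := min_le_right _ _
      calc 2 * k * min (ε / 2) (Real.pi / (8 * k)) ≤ 2 * k * (Real.pi / (8 * k)) := by gcongr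
        _ = Real.pi / 4 := by field_simp; ring
        _ < Real.pi / 2 := by linarith
  have hmem : ∀ ψ : ℝ, |ψ| < ε → ro ψ * A ∈ U := fun ψ hψ => hball (by
    rw [Metric.mem_ball, Real.dist_eq, sub_zero]
    exact hψ)
  have hp := hl _ (hmem φ (by rw [abs_of_pos hφ0]; exact hφε))
  have hm := hl _ (hmem (-φ) (by rw [abs_neg, abs_of_pos hφ0]; exact hφε))
  have hz := hl A hA
  set C : ℝ → ℝ := fun R => dirSum (fun i => act A (h i)) (fun u => (u ^ (2 * k)).re) R /
    N (fun i => act A (h i)) R with hC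
  set S : ℝ → ℝ := fun R => dirSum (fun i => act A (h i)) (fun u => (u ^ (2 * k)).im) R /
    N (fun i => act A (h i)) R with hS
  have key : ∀ ψ : ℝ, (fun R => dirSum (fun i => act (ro ψ * A) (h i))
      (fun u => (u ^ (2 * k)).re) R / N (fun i => act (ro ψ * A) (h i)) R) =
      fun R => Real.cos ((2 * k : ℕ) * ψ) * C R - Real.sin ((2 * k : ℕ) * ψ) * S R := by
    intro ψ
    funext R
    rw [dirSum_rot (norm_cm ψ) (act_ro ψ), N_rot (norm_cm ψ) (act_ro ψ)]
    simp only [harm_mul]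
    rw [dirSum_lin hfA, cm_pow, Complex.exp_ofReal_mul_I_re, Complex.exp_ofReal_mul_I_im, hC, hS]
    ring
  rw [key] at hp hm
  have hcos : Real.cos ((2 * k : ℕ) * -φ) = Real.cos ((2 * k : ℕ) * φ) := by
    rw [mul_neg, Real.cos_neg]
  have hsin : Real.sin ((2 * k : ℕ) * -φ) = -Real.sin ((2 * k : ℕ) * φ) := by
    rw [mul_neg, Real.sin_neg]
  rw [hcos, hsin] at hm
  have hang : (0 : ℝ) < (2 * k : ℕ) * φ ∧ ((2 * k : ℕ) : ℝ) * φ < Real.pi / 2 := by
    push_cast
    exact ⟨by positivity, hφk⟩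
  set p := Real.cos ((2 * k : ℕ) * φ) with hpdef
  set q := Real.sin ((2 * k : ℕ) * φ) with hqdef
  have hq0 : 0 < q := Real.sin_pos_of_pos_of_lt_pi hang.1 (by linarith [Real.pi_pos])
  have hp1 : p < 1 := by
    have hpq : p ^ 2 + q ^ 2 = 1 := Real.cos_sq_add_sin_sq _
    have hp1' : p ≤ 1 := Real.cos_le_one _
    rcases hp1'.lt_or_eq with h1 | h1
    · exact h1
    · exfalso
      rw [h1] at hpq
      nlinarith
  have hsum : Tendsto (fun R => 2 * p * C R) atTop (𝓝 (l + l)) := by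
    refine (hp.add hm).congr fun R => ?_
    ring
  have hsum' : Tendsto (fun R => 2 * p * C R) atTop (𝓝 (2 * p * l)) := hz.const_mul _
  have hll : l + l = 2 * p * l := tendsto_nhds_unique hsum hsum'
  have hl0 : l = 0 := by
    have : (1 - p) * l = 0 := by linarith
    rcases mul_eq_zero.1 this with h1 | h1
    · linarith
    · exact h1
  rw [hl0] at hz hp hm
  refine ⟨hz, ?_⟩
  have h5 : Tendsto (fun R => (2 * q)⁻¹ * ((p * C R - -q * S R) - (p * C R - q * S R))) atTop
      (𝓝 ((2 * q)⁻¹ * (0 - 0))) := (hm.sub hp).const_mul _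
  rw [sub_zero, mul_zero] at h5
  refine h5.congr fun R => ?_
  field_simp
  ring

/-- A bounded function which is `cos 2kθ` on the circle. -/
noncomputable def cl (k : ℕ) (z : ℂ) : ℝ := max (-1) (min 1 ((z ^ (2 * k)).re))

theorem cl_meas (k : ℕ) : Measurable (cl k) := by
  have h1 : Continuous fun z : ℂ => (z ^ (2 * k)).re := Complex.continuous_re.comp (continuous_pow _)
  exact (continuous_const.max (continuous_const.min h1)).measurable

theorem cl_le (k : ℕ) (z : ℂ) : |cl k z| ≤ 1 := by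
  unfold cl
  rw [abs_le]
  exact ⟨le_max_left _ _, max_le (by norm_num) (min_le_left _ _)⟩

theorem cl_eq (k : ℕ) {u : ℂ} (hu : ‖u‖ = 1) : (u ^ (2 * k)).re = cl k u := by
  have h1 : |(u ^ (2 * k)).re| ≤ 1 := by
    refine (Complex.abs_re_le_norm _).trans ?_
    rw [norm_pow, hu, one_pow]
  have h2 := abs_le.1 h1
  unfold cl
  rw [min_eq_right h2.2, max_eq_right h2.1]

theorem FC_cl {k : ℕ} (hk : 1 ≤ k) : FC (cl k) k ≠ 0 := by
  have e1 : ∀ θ : ℝ, Complex.exp (-((2 * k * θ : ℝ) * Complex.I)) *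
      ((cl k (circleMap 0 1 θ) : ℝ) : ℂ) =
      1 / 2 + 1 / 2 * Complex.exp (-((2 * (2 * k : ℕ) * θ : ℝ) * Complex.I)) := by
    intro θ
    rw [← cl_eq k (norm_cm θ), cm_pow, Complex.exp_ofReal_mul_I_re, Complex.ofReal_cos,
      Complex.cos]
    have e2 : Complex.exp (-((2 * k * θ : ℝ) * Complex.I)) *
        Complex.exp ((((2 * k : ℕ) * θ : ℝ) : ℂ) * Complex.I) = 1 := by
      rw [← Complex.exp_add, ← Complex.exp_zero]
      congr 1
      push_cast
      ring
    have e3 : Complex.exp (-((2 * k * θ : ℝ) * Complex.I)) *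
        Complex.exp (-(((2 * k : ℕ) * θ : ℝ) : ℂ) * Complex.I) =
        Complex.exp (-((2 * (2 * k : ℕ) * θ : ℝ) * Complex.I)) := by
      rw [← Complex.exp_add]
      congr 1
      push_cast
      ring
    rw [← e3]
    linear_combination (1 / 2 : ℂ) * e2
  unfold FC
  simp_rw [e1]
  have hi : IntervalIntegrable (fun θ : ℝ => (1 / 2 : ℂ) *
      Complex.exp (-((2 * (2 * k : ℕ) * θ : ℝ) * Complex.I))) volume 0 (2 * Real.pi) := by
    apply Continuous.intervalIntegrable
    fun_prop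
  rw [intervalIntegral.integral_add (by simp) hi, intervalIntegral.integral_const_mul]
  have h2 : 1 ≤ 2 * k := by omega
  have h3 := int_exp_zero h2
  rw [h3]
  simp [Real.pi_ne_zero]

end OneHarmAux

open OneHarmAux OneFunAux IsoMainAux AnyMainAux

/-- One harmonic, with a common limit on a nonempty open set of matrices. -/
theorem main_one_harm (X : TransSurf) {k : ℕ} (hk : 1 ≤ k) (hX : k = 1 ∨ Quad X.hol) :
    List.TFAE [
      ∀ A : SL(2, ℝ), Equi (X.push A).hol,
      ∀ A : SL(2, ℝ), Tendsto (fun R => dirSum (X.push A).hol (fun u => (u ^ (2 * k)).re) R /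
        N (X.push A).hol R) atTop (𝓝 0),
      ∃ (l : ℝ) (U : Set SL(2, ℝ)), IsOpen U ∧ U.Nonempty ∧ ∀ A ∈ U,
        Tendsto (fun R => dirSum (X.push A).hol (fun u => (u ^ (2 * k)).re) R /
          N (X.push A).hol R) atTop (𝓝 l)] := by
  tfae_have 1 → 2 := by
    intro h A
    have h1 := h A (fun u => (u ^ (2 * k)).re) (Complex.continuous_re.comp (continuous_pow _))
    rwa [average_harmK hk] at h1
  tfae_have 2 → 3 := fun h => ⟨0, Set.univ, isOpen_univ, ⟨1, trivial⟩, fun A _ => h A⟩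
  tfae_have 3 → 1 := by
    rintro ⟨l, U, hU, ⟨B, hB⟩, hl⟩
    have hf := X.locFin
    have hl' : ∀ A ∈ U, Tendsto (fun R => dirSum (fun s => act A (X.hol s))
        (fun u => (u ^ (2 * k)).re) R / N (fun s => act A (X.hol s)) R) atTop (𝓝 l) := by
      intro A hA
      have h1 := hl A hA
      rwa [N_push, dirSum_push] at h1
    refine main_stable X (cl_meas k) ⟨1, cl_le k⟩ hk (FC_cl hk) hX ?_
    refine ⟨0, {B | ∃ r : SL(2, ℝ), (∀ z, ‖act r z‖ = ‖z‖) ∧ r * B ∈ U}, ?_, ⟨B, 1, ?_, ?_⟩,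
      ?_, ?_⟩
    · have e : {B : SL(2, ℝ) | ∃ r : SL(2, ℝ), (∀ z, ‖act r z‖ = ‖z‖) ∧ r * B ∈ U} =
          ⋃ (r : SL(2, ℝ)) (_ : ∀ z, ‖act r z‖ = ‖z‖), (fun B => r * B) ⁻¹' U := by
        ext B
        simp
      rw [e]
      exact isOpen_iUnion fun r => isOpen_iUnion fun _ =>
        hU.preimage (continuous_const.mul continuous_id)
    · intro z
      rw [act_one]
    · rwa [one_mul]
    · rintro r hr A ⟨r', hr', hA⟩
      refine ⟨r' * r⁻¹, fun z => ?_, ?_⟩
      · rw [act_mul, hr', ← hr (act r⁻¹ z), act_act_inv]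
      · rw [mul_assoc, inv_mul_cancel_left]
        exact hA
    · rintro A ⟨r, hr, hA⟩
      obtain ⟨h1, h2⟩ := both_zero hf hk hU hl' hA
      rw [N_push, dirSum_push]
      -- `A = r⁻¹ (r A)`
      have hr' : ∀ z, ‖act r⁻¹ z‖ = ‖z‖ := fun z => by
        rw [← hr (act r⁻¹ z), act_act_inv]
      obtain ⟨w, hw, hrw⟩ := exists_unit hr'
      have h3 := (h1.const_mul (w ^ (2 * k)).re).add (h2.const_mul (-(w ^ (2 * k)).im))
      rw [mul_zero, mul_zero, add_zero] at h3
      refine h3.congr fun R => ?_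
      have hfr := hf.act (r * A)
      have e1 : dirSum (fun s => act A (X.hol s)) (cl k) R =
          (w ^ (2 * k)).re * dirSum (fun s => act (r * A) (X.hol s)) (fun u => (u ^ (2 * k)).re) R +
          (-(w ^ (2 * k)).im) *
            dirSum (fun s => act (r * A) (X.hol s)) (fun u => (u ^ (2 * k)).im) R := by
        rw [← dirSum_lin hfr, ← dirSum_congr_circle (hf.act A) (fun u hu => cl_eq k hu)]
        have e2 := dirSum_rot (h := X.hol) (A := r * A) hw hrw (fun u => (u ^ (2 * k)).re) R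
        rw [inv_mul_cancel_left] at e2
        rw [e2]
        simp only [harm_mul]
      have e3 : N (fun s => act A (X.hol s)) R = N (fun s => act (r * A) (X.hol s)) R := by
        have e2 := N_rot (h := X.hol) (A := r * A) hw hrw R
        rwa [inv_mul_cancel_left] at e2
      rw [e1, e3]
      ring
  tfae_finish

end SAD
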