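import Pool.Agent.Lib.SAD.Surface

/-!
# The ray along a path of crossed sides

Notation: `l j = r j + side (e j)` left end point, `σ j = cross (r j) d / cross d (side (e j))` the position
of the crossing point `x j = tau j * d = r j + σ j * side (e j)` on the side, `0 < σ j < 1`.
PLAN.  `area_pos`: from `closed` and `ccw`.
`cross_side_pos`: `cross d (side) = cross d (l j) + cross (r j) d`.
`tau_succ_right` (step with `r (j+1) = r j`, `e (j+1) = next (glue (e j))`): both formulas are
identities after clearing denominators; note `side (e j) = -side (glue (e j))` and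
`side (glue (e j)) + side (next ..) + side (prev ..) = 0`.
From `x (j+1) - x j = (tau (j+1) - tau j) d`, `x (j+1) - x j = σ (j+1) side (e (j+1)) - σ j side (e j)`:
take the cross product with `side (e j)`, resp. `side (e (j+1))`.
`tau_succ_left` (step with `r (j+1) = r j + side (next (glue (e j)))`, common end point `l`): the same with
`1 - σ`.
-/

open Filter Topology MeasureTheory Set
open scoped MatrixGroups

namespace SAD

namespace TransSurf

variable {X : TransSurf} {n : ℕ} {e : ℕ → X.T × ZMod 3} {r : ℕ → ℂ} {d : ℂ}

/-- twice the area of the triangle that contains the side `f` -/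
noncomputable def area2 (X : TransSurf) (f : X.T × ZMod 3) : ℝ :=
  cross (X.side f) (X.side (next f))

/-- the position of the crossing point on the side `e j`, measured from the right end point -/
noncomputable def sig (X : TransSurf) (e : ℕ → X.T × ZMod 3) (r : ℕ → ℂ) (d : ℂ) (j : ℕ) : ℝ :=
  cross (r j) d / cross d (X.side (e j))

lemma side_add (f : X.T × ZMod 3) : X.side f + X.side (next f) + X.side (prev f) = 0 := by
  obtain ⟨t, i⟩ := f
  have h := X.closed t
  have hi : i = 0 ∨ i = 1 ∨ i = 2 := by
    revert i; decide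
  rcases hi with rfl | rfl | rfl
  · have e1 : ((0 : ZMod 3) + 1) = 1 := by decide
    have e2 : ((0 : ZMod 3) + 2) = 2 := by decide
    simp only [next, prev, e1, e2]
    exact h
  · have e1 : ((1 : ZMod 3) + 1) = 2 := by decide
    have e2 : ((1 : ZMod 3) + 2) = 0 := by decide
    simp only [next, prev, e1, e2]
    rw [← h]; ring
  · have e1 : ((2 : ZMod 3) + 1) = 0 := by decide
    have e2 : ((2 : ZMod 3) + 2) = 1 := by decide
    simp only [next, prev, e1, e2]
    rw [← h]; ring

private lemma next_next {T : Type} (f : T × ZMod 3) : next (next f) = prev f := by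
  obtain ⟨t, i⟩ := f
  have h : i + 1 + 1 = i + 2 := by revert i; decide
  simp only [next, prev, h]

private lemma next_prev {T : Type} (f : T × ZMod 3) : next (prev f) = f := by
  obtain ⟨t, i⟩ := f
  have h : i + 2 + 1 = i := by revert i; decide
  simp only [next, prev, h]

private lemma side_prev (f : X.T × ZMod 3) :
    X.side (prev f) = -X.side f - X.side (next f) := by
  have h := side_add (X := X) f
  linear_combination h

lemma area2_next (f : X.T × ZMod 3) : X.area2 (next f) = X.area2 f := by
  unfold area2
  rw [next_next, side_prev, cross_sub_right, cross_neg_right, cross_self,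
    cross_swap (X.side (next f)) (X.side f)]
  ring

lemma area2_prev (f : X.T × ZMod 3) : X.area2 (prev f) = X.area2 f := by
  have h := area2_next (X := X) (prev f)
  rw [next_prev] at h
  exact h.symm

lemma area2_pos (f : X.T × ZMod 3) : 0 < X.area2 f := by
  obtain ⟨t, i⟩ := f
  have h0 : 0 < X.area2 (t, 0) := X.ccw t
  have h1 : 0 < X.area2 (t, 1) := by
    have h := area2_next (X := X) (t, 0)
    have e : next ((t, 0) : X.T × ZMod 3) = (t, 1) := by
      simp only [next, zero_add]
    rw [e] at h
    rw [h]; exact h0
  have h2 : 0 < X.area2 (t, 2) := by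
    have h := area2_next (X := X) (t, 1)
    have e1 : ((1 : ZMod 3) + 1) = 2 := by decide
    have e : next ((t, 1) : X.T × ZMod 3) = (t, 2) := by
      simp only [next, e1]
    rw [e] at h
    rw [h]; exact h1
  have hi : i = 0 ∨ i = 1 ∨ i = 2 := by
    revert i; decide
  rcases hi with rfl | rfl | rfl
  exacts [h0, h1, h2]

lemma exists_bounds (X : TransSurf) : ∃ m M : ℝ, 0 < m ∧ 0 < M ∧ (∀ f, m ≤ X.area2 f) ∧
    ∀ f, ‖X.side f‖ ≤ M := by
  have hT := X.finite
  have hN := X.nonempty
  obtain ⟨f₀, h₀⟩ := Finite.exists_min (fun f : X.T × ZMod 3 => X.area2 f)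
  obtain ⟨f₁, h₁⟩ := Finite.exists_max (fun f : X.T × ZMod 3 => ‖X.side f‖)
  exact ⟨X.area2 f₀, ‖X.side f₁‖ + 1, area2_pos f₀, by positivity, h₀,
    fun f => (h₁ f).trans (by linarith)⟩

lemma cross_side_pos (hc : X.Crosses n e r d) {j : ℕ} (hj : j ≤ n) :
    0 < cross d (X.side (e j)) := by
  obtain ⟨h1, h2⟩ := hc j hj
  rw [cross_add_right, cross_swap d (r j)] at h2
  linarith

lemma sig_pos (hc : X.Crosses n e r d) {j : ℕ} (hj : j ≤ n) : 0 < X.sig e r d j := by
  exact div_pos (hc j hj).1 (cross_side_pos hc hj)

lemma sig_lt_one (hc : X.Crosses n e r d) {j : ℕ} (hj : j ≤ n) : X.sig e r d j < 1 := by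
  unfold sig
  rw [div_lt_one (cross_side_pos hc hj)]
  have h2 := (hc j hj).2
  rw [cross_add_right, cross_swap d (r j)] at h2
  linarith

/-- the crossing point lies on the ray and on the side -/
lemma tau_mul (hc : X.Crosses n e r d) {j : ℕ} (hj : j ≤ n) :
    (X.tau e r d j : ℂ) * d = r j + (X.sig e r d j : ℂ) * X.side (e j) := by
  have h := (cross_side_pos hc hj).ne'
  unfold tau sig
  apply Complex.ext
  · simp only [Complex.mul_re, Complex.add_re, Complex.ofReal_re, Complex.ofReal_im]
    field_simp
    simp only [cross]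
    ring
  · simp only [Complex.mul_im, Complex.add_im, Complex.ofReal_re, Complex.ofReal_im]
    field_simp
    simp only [cross]
    ring

lemma tau_succ_right (hc : X.Crosses n e r d) {j : ℕ} (hj : j < n)
    (he : e (j + 1) = next (X.glue (e j))) (hr : r (j + 1) = r j) :
    (X.tau e r d (j + 1) - X.tau e r d j) * cross d (X.side (e j)) =
      X.sig e r d (j + 1) * X.area2 (X.glue (e j)) ∧
    (X.tau e r d (j + 1) - X.tau e r d j) * cross d (X.side (e (j + 1))) =
      X.sig e r d j * X.area2 (X.glue (e j)) := by
  have hD := cross_side_pos hc (Nat.le_of_lt hj)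
  have hD' := cross_side_pos hc (Nat.succ_le_of_lt hj)
  have h1 := tau_mul hc (Nat.le_of_lt hj)
  have h2 := tau_mul hc (Nat.succ_le_of_lt hj)
  rw [Nat.succ_eq_add_one] at h2
  have hs := X.side_glue (e j)
  have key : ((X.tau e r d (j + 1) - X.tau e r d j : ℝ) : ℂ) * d =
      (X.sig e r d (j + 1) : ℂ) * X.side (e (j + 1)) - (X.sig e r d j : ℂ) * X.side (e j) := by
    push_cast
    rw [sub_mul, h1, h2, hr]
    ring
  have ha : X.area2 (X.glue (e j)) = cross (X.side (e (j + 1))) (X.side (e j)) := by
    unfold area2
    rw [hs, cross_neg_left, ← he, cross_swap (X.side (e j))]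
    ring
  constructor
  · rw [← cross_smul_left, key, cross_sub_left, cross_smul_left, cross_smul_left, cross_self, ha]
    ring
  · rw [← cross_smul_left, key, cross_sub_left, cross_smul_left, cross_smul_left, cross_self, ha,
      cross_swap (X.side (e j))]
    ring

lemma tau_succ_left (hc : X.Crosses n e r d) {j : ℕ} (hj : j < n)
    (he : e (j + 1) = prev (X.glue (e j)))
    (hr : r (j + 1) = r j + X.side (next (X.glue (e j)))) :
    (X.tau e r d (j + 1) - X.tau e r d j) * cross d (X.side (e j)) =
      (1 - X.sig e r d (j + 1)) * X.area2 (X.glue (e j)) ∧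
    (X.tau e r d (j + 1) - X.tau e r d j) * cross d (X.side (e (j + 1))) =
      (1 - X.sig e r d j) * X.area2 (X.glue (e j)) := by
  have h1 := tau_mul hc (Nat.le_of_lt hj)
  have h2 := tau_mul hc (Nat.succ_le_of_lt hj)
  rw [Nat.succ_eq_add_one] at h2
  have hs := X.side_glue (e j)
  have hp := side_prev (X := X) (X.glue (e j))
  rw [hs, neg_neg, ← he] at hp
  have key : ((X.tau e r d (j + 1) - X.tau e r d j : ℝ) : ℂ) * d =
      ((1 - X.sig e r d j : ℝ) : ℂ) * X.side (e j) -
        ((1 - X.sig e r d (j + 1) : ℝ) : ℂ) * X.side (e (j + 1)) := by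
    push_cast
    rw [sub_mul, h1, h2, hr, hp]
    ring
  have ha : X.area2 (X.glue (e j)) = cross (X.side (e j)) (X.side (e (j + 1))) := by
    unfold area2
    rw [hs, hp, cross_neg_left, cross_sub_right, cross_self]
    ring
  constructor
  · rw [← cross_smul_left, key, cross_sub_left, cross_smul_left, cross_smul_left, cross_self, ha,
      cross_swap (X.side (e j))]
    ring
  · rw [← cross_smul_left, key, cross_sub_left, cross_smul_left, cross_smul_left, cross_self, ha]
    ring

lemma tau_lt_succ (hp : X.IsPath n e r) (hc : X.Crosses n e r d) {j : ℕ} (hj : j < n) :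
    X.tau e r d j < X.tau e r d (j + 1) := by
  have hD := cross_side_pos hc (Nat.le_of_lt hj)
  have hA := area2_pos (X := X) (X.glue (e j))
  have h1 := sig_pos hc (Nat.succ_le_of_lt hj)
  have h2 := sig_lt_one hc (Nat.succ_le_of_lt hj)
  rw [Nat.succ_eq_add_one] at h1 h2
  have key : 0 < (X.tau e r d (j + 1) - X.tau e r d j) * cross d (X.side (e j)) := by
    rcases hp.step j hj with ⟨h, h'⟩ | ⟨h, h'⟩
    · rw [(tau_succ_right hc hj h h').1]
      exact mul_pos h1 hA
    · rw [(tau_succ_left hc hj h h').1]
      exact mul_pos (by linarith) hA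
  have h3 := (mul_pos_iff_of_pos_right hD).1 key
  linarith

lemma tau_zero_pos (hp : X.IsPath n e r) (hc : X.Crosses n e r d) : 0 < X.tau e r d 0 := by
  have hD := cross_side_pos hc (Nat.zero_le n)
  have hA := area2_pos (X := X) (prev (e 0))
  unfold area2 at hA
  rw [next_prev] at hA
  unfold tau
  rw [hp.start]
  exact div_pos hA hD

private lemma tau_pos (hp : X.IsPath n e r) (hc : X.Crosses n e r d) {j : ℕ} (hj : j ≤ n) :
    0 < X.tau e r d j := by
  induction j with
  | zero => exact tau_zero_pos hp hc
  | succ j ih => exact (ih (by omega)).trans (tau_lt_succ hp hc (by omega))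

/-- `cross (r j) (l j) > 0`. -/
lemma cross_ends_pos (hp : X.IsPath n e r) (hc : X.Crosses n e r d) {j : ℕ} (hj : j ≤ n) :
    0 < cross (r j) (r j + X.side (e j)) := by
  have h := tau_pos hp hc hj
  unfold tau at h
  have hD := cross_side_pos hc hj
  rw [cross_add_right, cross_self, zero_add]
  exact (div_pos_iff_of_pos_right hD).1 h

/-- The apex of the triangle behind the last crossed side lies beyond that side: if the ray in direction
`v = r n + side (next (glue (e n)))` crosses all the sides, then it does so before reaching `v`. -/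
lemma tau_lt_one (hp : X.IsPath n e r) {v : ℂ} (hv : v = r n + X.side (next (X.glue (e n))))
    (hc : X.Crosses n e r v) : X.tau e r v n < 1 := by
  have hD := cross_side_pos hc (le_refl n)
  have hA := area2_pos (X := X) (X.glue (e n))
  unfold area2 at hA
  rw [X.side_glue, cross_neg_left, cross_swap (X.side (e n))] at hA
  unfold tau
  rw [div_lt_one hD, hv, cross_add_left]
  linarith

end TransSurf

end SAD
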