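import Pool.Agent.Lib.SAD.Defs

/-!
# Polar coordinates for angular functions
-/

open Filter Topology MeasureTheory Set
open scoped MatrixGroups

namespace SAD

/-- The integral of an angular function over a disc. -/
theorem integral_disc (f : ℂ → ℝ) {ρ : ℝ} (hρ : 0 ≤ ρ) :
    ∫ z in Metric.closedBall (0:ℂ) ρ, f (z / (‖z‖ : ℂ)) =
      Real.pi * ρ ^ 2 * Real.circleAverage f 0 1 := by
  have hpi := Real.pi_pos
  rw [← integral_indicator Metric.isClosed_closedBall.measurableSet]
  rw [← Complex.integral_comp_polarCoord_symm]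
  have h1 : ∀ p ∈ polarCoord.target,
      p.1 • (Metric.closedBall (0:ℂ) ρ).indicator (fun z => f (z / (‖z‖ : ℂ)))
        (Complex.polarCoord.symm p) =
      ((Ioc (0:ℝ) ρ).indicator (fun r => r) p.1) * (f (circleMap 0 1 p.2)) := by
    rintro ⟨r, θ⟩ hp
    have hr : 0 < r := by
      have := hp.1
      simpa using this
    have h2 : Complex.polarCoord.symm (r, θ) = r * circleMap 0 1 θ := by
      rw [Complex.polarCoord_symm_apply]
      simp [circleMap, Complex.exp_mul_I]
    have h3 : ‖(r * circleMap 0 1 θ : ℂ)‖ = r := by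
      simp [abs_of_pos hr]
    rw [h2]
    by_cases hr2 : r ≤ ρ
    · rw [Set.indicator_of_mem (by rw [mem_closedBall_zero_iff, h3]; exact hr2), Set.indicator_of_mem (by exact ⟨hr, hr2⟩)]
      rw [h3]
      have : (r * circleMap 0 1 θ : ℂ) / (r : ℂ) = circleMap 0 1 θ := by
        have : (r : ℂ) ≠ 0 := by exact_mod_cast hr.ne'
        field_simp
      rw [this]
      simp
    · rw [Set.indicator_of_notMem (by rw [mem_closedBall_zero_iff, h3]; exact hr2), Set.indicator_of_notMem (by
        intro h; exact hr2 h.2)]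
      simp
  rw [setIntegral_congr_fun polarCoord.open_target.measurableSet h1]
  rw [polarCoord_target, Measure.volume_eq_prod, setIntegral_prod_mul
    (f := fun r => (Ioc (0:ℝ) ρ).indicator (fun r => r) r) (g := fun θ => f (circleMap 0 1 θ))]
  have h4 : ∫ r in Ioi (0:ℝ), (Ioc (0:ℝ) ρ).indicator (fun r => r) r = ρ ^ 2 / 2 := by
    rw [setIntegral_indicator measurableSet_Ioc]
    have : Ioi (0:ℝ) ∩ Ioc 0 ρ = Ioc 0 ρ := by
      ext x; simp only [mem_inter_iff, mem_Ioi, mem_Ioc]; tauto
    rw [this, ← intervalIntegral.integral_of_le hρ, integral_id]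
    ring
  rw [h4]
  have h5 : ∫ θ in Ioo (-Real.pi) Real.pi, f (circleMap 0 1 θ) =
      2 * Real.pi * Real.circleAverage f 0 1 := by
    rw [← integral_Ioc_eq_integral_Ioo, ← intervalIntegral.integral_of_le (by linarith)]
    rw [Real.circleAverage_def]
    have hper : Function.Periodic (fun θ => f (circleMap 0 1 θ)) (2 * Real.pi) := by
      intro θ
      simp only
      rw [periodic_circleMap 0 1 θ]
    have := hper.intervalIntegral_add_eq (-Real.pi) 0
    rw [show -Real.pi + 2 * Real.pi = Real.pi by ring, zero_add] at this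
    rw [this]
    simp only [smul_eq_mul]
    field_simp
  rw [h5]
  ring

end SAD
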