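import Pool.Agent.Lib.SAD.TrigPoly

/-!
# One real analytic function on an open set suffices (MP_d36302_an)
-/

open Filter Topology MeasureTheory Set
open scoped MatrixGroups ComplexConjugate

namespace SAD

open TransSurf

variable {ι : Type*} {h : ι → ℂ}

namespace RealAnAux

open OneFunAux IsoMainAux AnyMainAux OneHarmAux TrigPolyAux

theorem int_exp {j : ℤ} (hj : j ≠ 0) :
    ∫ t in (0:ℝ)..(2 * Real.pi), Complex.exp ((j * t : ℝ) * Complex.I) = 0 := by
  have hc : ((j : ℂ) * Complex.I) ≠ 0 := by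
    have : (j : ℂ) ≠ 0 := by exact_mod_cast hj
    simp [this]
  have e : ∀ t : ℝ, Complex.exp ((j * t : ℝ) * Complex.I) = Complex.exp ((j : ℂ) * Complex.I * t) := by
    intro t
    congr 1
    push_cast
    ring
  simp_rw [e]
  rw [integral_exp_mul_complex hc]
  have h1 : Complex.exp ((j : ℂ) * Complex.I * ((2 * Real.pi : ℝ) : ℂ)) = 1 := by
    have := Complex.exp_int_mul_two_pi_mul_I j
    rw [← this]
    congr 1
    push_cast
    ring
  rw [h1]
  simp

theorem int_sum {c : ℕ → ℂ} (hc : Summable fun n => ‖c n‖) (m : ℕ → ℤ) :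
    HasSum (fun n => ∫ t in (0:ℝ)..(2 * Real.pi), c n * Complex.exp ((m n * t : ℝ) * Complex.I))
      (∫ t in (0:ℝ)..(2 * Real.pi), ∑' n, c n * Complex.exp ((m n * t : ℝ) * Complex.I)) := by
  have hn : ∀ (n : ℕ) (t : ℝ), ‖c n * Complex.exp ((m n * t : ℝ) * Complex.I)‖ ≤ ‖c n‖ := by
    intro n t
    rw [norm_mul, Complex.norm_exp_ofReal_mul_I, mul_one]
  refine intervalIntegral.hasSum_integral_of_dominated_convergence (fun n _ => ‖c n‖) ?_ ?_ ?_ ?_ ?_
  · intro n
    have : Continuous fun t : ℝ => c n * Complex.exp ((m n * t : ℝ) * Complex.I) := by fun_prop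
    exact this.aestronglyMeasurable
  · intro n
    exact Eventually.of_forall fun t _ => hn n t
  · exact Eventually.of_forall fun t _ => hc
  · exact intervalIntegrable_const
  · refine Eventually.of_forall fun t _ => ?_
    exact (Summable.of_norm_bounded hc fun n => hn n t).hasSum

/-- If `Re Σ b n w ^ n` is constant for `w` in an arc around `1`, where `b` decays exponentially,
then `b n = 0` for `n ≥ 1`. -/
theorem coef_unique {b : ℕ → ℂ} {r : ℝ} (hr : 1 < r) (hb : Summable fun n => ‖b n‖ * r ^ n)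
    {ε l : ℝ} (hε : 0 < ε)
    (h : ∀ φ : ℝ, |φ| < ε → (∑' n, b n * (circleMap 0 1 φ) ^ n).re = l)
    {n : ℕ} (hn : 1 ≤ n) : b n = 0 := by
  have hr0 : 0 < r := by linarith
  have hb1 : Summable fun n => ‖b n‖ := by
    refine Summable.of_nonneg_of_le (fun n => norm_nonneg _) (fun n => ?_) hb
    have : 1 ≤ r ^ n := one_le_pow₀ hr.le
    nlinarith [norm_nonneg (b n)]
  set q := Real.log r with hq
  have hq0 : 0 < q := Real.log_pos hr
  obtain ⟨U, hU⟩ : ∃ U : Set ℂ, U = {z : ℂ | z.im < q} ∩ {z : ℂ | -q < z.im} := ⟨_, rfl⟩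
  have hUo : IsOpen U := by
    rw [hU]
    exact (isOpen_lt Complex.continuous_im continuous_const).inter
      (isOpen_lt continuous_const Complex.continuous_im)
  have hUc : IsPreconnected U := by
    rw [hU]
    exact ((convex_halfSpace_im_lt q).inter (convex_halfSpace_im_gt (-q))).isPreconnected
  have hrn : ∀ n : ℕ, r ^ n = Real.exp (n * q) := by
    intro n
    rw [mul_comm, Real.exp_mul, hq, Real.exp_log hr0, Real.rpow_natCast]
  have d1 : DifferentiableOn ℂ (fun z : ℂ => ∑' n : ℕ, b n * Complex.exp (n * (Complex.I * z))) U := by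
    refine Complex.differentiableOn_tsum_of_summable_norm hb (fun n => ?_) hUo (fun n z hz => ?_)
    · exact (by fun_prop : Differentiable ℂ fun z : ℂ => b n * Complex.exp (n * (Complex.I * z))).differentiableOn
    · rw [norm_mul, Complex.norm_exp, hrn]
      gcongr
      have h1 : -q < z.im := by rw [hU] at hz; exact hz.2
      have h2 : ((n : ℂ) * (Complex.I * z)).re = n * (-z.im) := by simp
      rw [h2]
      gcongr
      linarith
  have d2 : DifferentiableOn ℂ
      (fun z : ℂ => ∑' n : ℕ, conj (b n) * Complex.exp (-(n * (Complex.I * z)))) U := by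
    refine Complex.differentiableOn_tsum_of_summable_norm hb (fun n => ?_) hUo (fun n z hz => ?_)
    · exact (by fun_prop : Differentiable ℂ fun z : ℂ =>
        conj (b n) * Complex.exp (-(n * (Complex.I * z)))).differentiableOn
    · rw [norm_mul, Complex.norm_exp, hrn, RCLike.norm_conj]
      gcongr
      have h1 : z.im < q := by rw [hU] at hz; exact hz.1
      have h2 : (-((n : ℂ) * (Complex.I * z))).re = n * z.im := by simp
      rw [h2]
      gcongr
  have hG : AnalyticOnNhd ℂ (fun z : ℂ => (∑' n : ℕ, b n * Complex.exp (n * (Complex.I * z))) +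
      ∑' n : ℕ, conj (b n) * Complex.exp (-(n * (Complex.I * z)))) U :=
    (d1.add d2).analyticOnNhd hUo
  have hreal : ∀ φ : ℝ, (∑' n : ℕ, b n * Complex.exp (n * (Complex.I * (φ : ℂ)))) +
      (∑' n : ℕ, conj (b n) * Complex.exp (-(n * (Complex.I * (φ : ℂ))))) =
      ((2 * (∑' n, b n * (circleMap 0 1 φ) ^ n).re : ℝ) : ℂ) := by
    intro φ
    rw [← Complex.add_conj, Complex.conj_tsum]
    congr 1
    · refine tsum_congr fun n => ?_
      simp only [circleMap, zero_add, Complex.ofReal_one, one_mul]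
      rw [← Complex.exp_nat_mul]
      congr 2
      ring
    · refine tsum_congr fun n => ?_
      rw [map_mul, map_pow]
      simp only [circleMap, zero_add, Complex.ofReal_one, one_mul]
      rw [← Complex.exp_conj, ← Complex.exp_nat_mul, map_mul, Complex.conj_ofReal, Complex.conj_I]
      congr 2
      ring
  have h0U : (0 : ℂ) ∈ U := by
    rw [hU]
    exact ⟨by simpa using hq0, by simpa using hq0⟩
  have hfreq : ∃ᶠ z : ℂ in 𝓝[≠] 0, ((∑' n : ℕ, b n * Complex.exp (n * (Complex.I * z))) +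
      ∑' n : ℕ, conj (b n) * Complex.exp (-(n * (Complex.I * z)))) = ((2 * l : ℝ) : ℂ) := by
    have ht : Tendsto (fun φ : ℝ => (φ : ℂ)) (𝓝[≠] 0) (𝓝[≠] 0) := by
      refine tendsto_nhdsWithin_iff.2 ⟨?_, ?_⟩
      · have := (Complex.continuous_ofReal.tendsto 0)
        rw [Complex.ofReal_zero] at this
        exact this.mono_left nhdsWithin_le_nhds
      · filter_upwards [self_mem_nhdsWithin] with φ hφ
        simpa using hφ
    refine ht.frequently (Eventually.frequently ?_)
    have h1 : ∀ᶠ φ : ℝ in 𝓝[≠] 0, |φ| < ε := by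
      refine eventually_nhdsWithin_of_eventually_nhds ?_
      have := Metric.ball_mem_nhds (0 : ℝ) hε
      filter_upwards [this] with φ hφ
      rwa [Metric.mem_ball, Real.dist_eq, sub_zero] at hφ
    filter_upwards [h1] with φ hφ
    rw [hreal, h φ hφ]
  have hall := hG.eqOn_of_preconnected_of_frequently_eq
    (analyticOnNhd_const (v := ((2 * l : ℝ) : ℂ))) hUc h0U hfreq
  have hval : ∀ φ : ℝ, (∑' n : ℕ, b n * Complex.exp (n * (Complex.I * (φ : ℂ)))) +
      (∑' n : ℕ, conj (b n) * Complex.exp (-(n * (Complex.I * (φ : ℂ))))) = ((2 * l : ℝ) : ℂ) := by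
    intro φ
    refine hall (x := (φ : ℂ)) ?_
    rw [hU]
    exact ⟨by simpa using hq0, by simpa using hq0⟩
  -- integrate against `exp (-inφ)`
  have s1 := int_sum hb1 (fun k => (k : ℤ) - n)
  have s2 := int_sum (c := fun k => conj (b k)) (by simpa using hb1) (fun k => -((k : ℤ) + n))
  have t1 : (fun k => ∫ t in (0:ℝ)..(2 * Real.pi), b k *
      Complex.exp (((((k : ℤ) - n : ℤ) : ℝ) * t : ℝ) * Complex.I)) =
      fun k => if k = n then b n * (2 * Real.pi : ℝ) else 0 := by
    funext k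
    rw [intervalIntegral.integral_const_mul]
    by_cases hk : k = n
    · rw [if_pos hk, hk]
      simp
    · rw [if_neg hk, int_exp (by omega), mul_zero]
  have t2 : (fun k => ∫ t in (0:ℝ)..(2 * Real.pi), conj (b k) *
      Complex.exp ((((-((k : ℤ) + n) : ℤ) : ℝ) * t : ℝ) * Complex.I)) = fun _ => 0 := by
    funext k
    rw [intervalIntegral.integral_const_mul, int_exp (by omega), mul_zero]
  rw [t1] at s1
  rw [t2] at s2
  have s1' := s1.unique (hasSum_ite_eq n (b n * (2 * Real.pi : ℝ)))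
  have s2' := s2.unique hasSum_zero
  have hsumm1 : ∀ t : ℝ, Summable fun k : ℕ => b k *
      Complex.exp (((((k : ℤ) - n : ℤ) : ℝ) * t : ℝ) * Complex.I) := fun t =>
    Summable.of_norm_bounded hb1 fun k => by
      rw [norm_mul, Complex.norm_exp_ofReal_mul_I, mul_one]
  have hadd : ∀ t : ℝ, (∑' k : ℕ, b k *
      Complex.exp (((((k : ℤ) - n : ℤ) : ℝ) * t : ℝ) * Complex.I)) +
      (∑' k : ℕ, conj (b k) * Complex.exp ((((-((k : ℤ) + n) : ℤ) : ℝ) * t : ℝ) * Complex.I)) =
      ((2 * l : ℝ) : ℂ) * Complex.exp ((((-(n : ℤ) : ℤ) : ℝ) * t : ℝ) * Complex.I) := by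
    intro t
    rw [← hval t, add_mul, ← tsum_mul_right, ← tsum_mul_right]
    congr 1
    · refine tsum_congr fun k => ?_
      rw [mul_assoc, ← Complex.exp_add]
      congr 2
      push_cast
      ring
    · refine tsum_congr fun k => ?_
      rw [mul_assoc, ← Complex.exp_add]
      congr 2
      push_cast
      ring
  have hI1 : IntervalIntegrable (fun t : ℝ => ∑' k : ℕ, b k *
      Complex.exp (((((k : ℤ) - n : ℤ) : ℝ) * t : ℝ) * Complex.I)) volume 0 (2 * Real.pi) := by
    apply Continuous.intervalIntegrable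
    refine continuous_tsum (fun k => by fun_prop) hb1 fun k t => ?_
    rw [norm_mul, Complex.norm_exp_ofReal_mul_I, mul_one]
  have hI2 : IntervalIntegrable (fun t : ℝ => ∑' k : ℕ, conj (b k) *
      Complex.exp ((((-((k : ℤ) + n) : ℤ) : ℝ) * t : ℝ) * Complex.I)) volume 0 (2 * Real.pi) := by
    apply Continuous.intervalIntegrable
    refine continuous_tsum (fun k => by fun_prop) hb1 fun k t => ?_
    rw [norm_mul, Complex.norm_exp_ofReal_mul_I, mul_one, RCLike.norm_conj]
  have hfin := intervalIntegral.integral_add hI1 hI2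
  simp_rw [hadd] at hfin
  rw [intervalIntegral.integral_const_mul, int_exp (by omega), mul_zero, s1', s2', add_zero] at hfin
  have hpi : ((2 * Real.pi : ℝ) : ℂ) ≠ 0 := by
    have : (2 * Real.pi : ℝ) ≠ 0 := by positivity
    exact_mod_cast this
  rcases mul_eq_zero.1 hfin.symm with h1 | h1
  · exact h1
  · exact absurd h1 hpi

theorem norm_cs_le (hf : LocFin h) (n : ℕ) (R : ℝ) : ‖cs h n R‖ ≤ 1 := by
  have hfin := hf.2 R
  have hN : N h R = (hfin.toFinset.card : ℝ) := by
    unfold N
    rw [Set.ncard_eq_toFinset_card _ hfin]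
  unfold cs
  rw [finsum_mem_eq_finite_toFinset_sum _ hfin, norm_div, Complex.norm_real, Real.norm_eq_abs,
    abs_of_nonneg (N_nonneg h R), hN]
  refine div_le_one_of_le₀ ?_ (by positivity)
  refine (norm_sum_le _ _).trans ?_
  calc ∑ i ∈ hfin.toFinset, ‖(h i / (‖h i‖ : ℂ)) ^ n‖ ≤ ∑ i ∈ hfin.toFinset, (1 : ℝ) := by
        refine Finset.sum_le_sum fun i _ => ?_
        rw [norm_pow, norm_div, Complex.norm_real, norm_norm,
          div_self (norm_ne_zero_iff.2 (hf.1 i)), one_pow]
    _ = hfin.toFinset.card := by simp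

theorem coef_lim {a : ℕ → ℂ} {r : ℝ} (hr : 1 < r) (ha : Summable fun n => ‖a n‖ * r ^ n)
    {ε l : ℝ} (hε : 0 < ε) (c : ℕ → ℝ → ℂ) (hc : ∀ n R, ‖c n R‖ ≤ 1)
    (hl : ∀ φ : ℝ, |φ| < ε → Tendsto (fun R =>
      (∑' n, a n * c n R * (circleMap 0 1 φ) ^ n).re) atTop (𝓝 l))
    {n : ℕ} (hn : 1 ≤ n) : Tendsto (fun R => a n * c n R) atTop (𝓝 0) := by
  have ha1 : Summable fun n => ‖a n‖ := by
    refine Summable.of_nonneg_of_le (fun n => norm_nonneg _) (fun n => ?_) ha
    have : 1 ≤ r ^ n := one_le_pow₀ hr.le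
    nlinarith [norm_nonneg (a n)]
  rw [tendsto_iff_ultrafilter]
  intro g hg
  have hex : ∀ k : ℕ, ∃ t : ℂ, ‖t‖ ≤ 1 ∧ Tendsto (c k) g (𝓝 t) := by
    intro k
    have hmem : Metric.closedBall (0 : ℂ) 1 ∈ g.map (c k) := by
      rw [Ultrafilter.mem_map]
      exact Filter.Eventually.of_forall fun R => by
        show c k R ∈ Metric.closedBall (0 : ℂ) 1
        rw [mem_closedBall_zero_iff]
        exact hc k R
    obtain ⟨t, ht, hgt⟩ := (isCompact_closedBall (0 : ℂ) 1).ultrafilter_le_nhds' _ hmem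
    exact ⟨t, by rwa [mem_closedBall_zero_iff] at ht, hgt⟩
  choose t ht1 ht using hex
  have hb : Summable fun k => ‖a k * t k‖ * r ^ k := by
    refine Summable.of_nonneg_of_le (fun k => by positivity) (fun k => ?_) ha
    rw [norm_mul]
    have h1 : ‖a k‖ * ‖t k‖ ≤ ‖a k‖ := mul_le_of_le_one_right (norm_nonneg _) (ht1 k)
    have h2 : 0 ≤ r ^ k := by positivity
    exact mul_le_mul_of_nonneg_right h1 h2
  have hlim : ∀ φ : ℝ, |φ| < ε → (∑' k, (a k * t k) * (circleMap 0 1 φ) ^ k).re = l := by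
    intro φ hφ
    have h1 : Tendsto (fun R => ∑' k, a k * c k R * (circleMap 0 1 φ) ^ k) g
        (𝓝 (∑' k, (a k * t k) * (circleMap 0 1 φ) ^ k)) := by
      refine tendsto_tsum_of_dominated_convergence ha1 (fun k => ?_)
        (Filter.Eventually.of_forall fun R k => ?_)
      · exact ((ht k).const_mul _).mul_const _
      · rw [norm_mul, norm_mul, norm_pow, norm_cm, one_pow, mul_one]
        exact mul_le_of_le_one_right (norm_nonneg _) (hc k R)
    have h2 := (Complex.continuous_re.tendsto _).comp h1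
    exact tendsto_nhds_unique h2 ((hl φ hφ).mono_left hg)
  have h0 := coef_unique hr hb hε hlim hn
  have h3 := (ht n).const_mul (a n)
  rw [h0] at h3
  exact h3

theorem mean_re' (hf : LocFin h) {a : ℕ → ℂ} (ha : Summable fun n => ‖a n‖) {w : ℂ}
    (hw : ‖w‖ = 1) (R : ℝ) :
    dirSum h (fun u => (∑' n, a n * (w * u) ^ n).re) R / N h R =
      (∑' n, a n * cs h n R * w ^ n).re := by
  have hfin := hf.2 R
  have hcs : ∀ n : ℕ, cs h n R =
      (∑ i ∈ hfin.toFinset, (h i / (‖h i‖ : ℂ)) ^ n) / (N h R : ℂ) := fun n => by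
    unfold cs
    rw [finsum_mem_eq_finite_toFinset_sum _ hfin]
  have hu : ∀ i, ‖h i / (‖h i‖ : ℂ)‖ = 1 := fun i => by
    rw [norm_div, Complex.norm_real, norm_norm, div_self (norm_ne_zero_iff.2 (hf.1 i))]
  have hs : ∀ i ∈ hfin.toFinset, Summable fun n => a n * (w * (h i / (‖h i‖ : ℂ))) ^ n :=
    fun i _ => Summable.of_norm_bounded ha fun n => by
      rw [norm_mul, norm_pow, norm_mul, hw, hu i, one_mul, one_pow, mul_one]
  have e : ∑' n, a n * cs h n R * w ^ n =
      (∑ i ∈ hfin.toFinset, ∑' n, a n * (w * (h i / (‖h i‖ : ℂ))) ^ n) / (N h R : ℂ) := by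
    rw [← Summable.tsum_finsetSum hs, ← tsum_div_const]
    refine tsum_congr fun n => ?_
    rw [hcs, ← mul_div_assoc, Finset.mul_sum, div_mul_eq_mul_div, Finset.sum_mul]
    congr 1
    refine Finset.sum_congr rfl fun i _ => ?_
    rw [mul_pow]
    ring
  rw [e, Complex.div_ofReal_re, Complex.re_sum]
  unfold dirSum
  rw [finsum_mem_eq_finite_toFinset_sum _ hfin]

/-- One real analytic function with a common limit on an open set: its harmonics vanish. -/
theorem harm_zero' (hf : LocFin h) {f : ℂ → ℝ} {a : ℕ → ℂ} {r : ℝ} (hr : 1 < r)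
    (ha : Summable fun n => ‖a n‖ * r ^ n)
    (hfa : ∀ u : ℂ, ‖u‖ = 1 → f u = (∑' n, a n * u ^ n).re)
    {n : ℕ} (hn : 1 ≤ n) (hc : a n ≠ 0)
    {U : Set SL(2, ℝ)} (hU : IsOpen U) {l : ℝ}
    (hl : ∀ A ∈ U, Tendsto (fun R => dirSum (fun i => act A (h i)) f R /
      N (fun i => act A (h i)) R) atTop (𝓝 l)) {A : SL(2, ℝ)} (hA : A ∈ U) :
    Tendsto (fun R => dirSum (fun i => act A (h i)) (fun u => (u ^ n).re) R /
      N (fun i => act A (h i)) R) atTop (𝓝 0) := by
  have hfA := hf.act A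
  have ha1 : Summable fun n => ‖a n‖ := by
    refine Summable.of_nonneg_of_le (fun n => norm_nonneg _) (fun n => ?_) ha
    have : 1 ≤ r ^ n := one_le_pow₀ hr.le
    nlinarith [norm_nonneg (a n)]
  have hcc : Continuous fun φ : ℝ => ro φ * A := continuous_ro.mul continuous_const
  have h0 : (0 : ℝ) ∈ (fun φ : ℝ => ro φ * A) ⁻¹' U := by
    show ro 0 * A ∈ U
    rw [ro_zero, one_mul]
    exact hA
  obtain ⟨ε, hε, hball⟩ := Metric.isOpen_iff.1 (hU.preimage hcc) 0 h0
  have hmem : ∀ ψ : ℝ, |ψ| < ε → ro ψ * A ∈ U := fun ψ hψ => hball (by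
    rw [Metric.mem_ball, Real.dist_eq, sub_zero]
    exact hψ)
  have h1 : Tendsto (fun R => a n * cs (fun i => act A (h i)) n R) atTop (𝓝 0) := by
    refine coef_lim hr ha hε (fun j R => cs (fun i => act A (h i)) j R)
      (fun j R => norm_cs_le hfA j R) (l := l) (fun φ hφ => ?_) hn
    refine (hl _ (hmem φ hφ)).congr fun R => ?_
    rw [dirSum_rot (norm_cm φ) (act_ro φ), N_rot (norm_cm φ) (act_ro φ),
      ← mean_re' hfA ha1 (norm_cm φ)]
    congr 1
    refine dirSum_congr_circle hfA (fun u hu => ?_) R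
    rw [hfa _ (by rw [norm_mul, norm_cm, hu, one_mul])]
  have h2 : Tendsto (fun R => cs (fun i => act A (h i)) n R) atTop (𝓝 0) := by
    have h3 := h1.const_mul (a n)⁻¹
    rw [mul_zero] at h3
    refine h3.congr fun R => ?_
    rw [← mul_assoc, inv_mul_cancel₀ hc, one_mul]
  have h4 := (Complex.continuous_re.tendsto _).comp h2
  rw [Complex.zero_re] at h4
  refine h4.congr fun R => ?_
  rw [cs_re hfA]
  rfl

end RealAnAux

open RealAnAux TrigPolyAux OneHarmAux OneFunAux IsoMainAux AnyMainAux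

/-- One real analytic function on the circle, with a common limit on a nonempty open set. -/
theorem main_an (X : TransSurf) {f : ℂ → ℝ} {a : ℕ → ℂ} {r : ℝ} (hr : 1 < r)
    (ha : Summable fun n => ‖a n‖ * r ^ n)
    (hfa : ∀ u : ℂ, ‖u‖ = 1 → f u = (∑' n, a n * u ^ n).re) {k : ℕ} (hk : 1 ≤ k)
    (hc : a (2 * k) ≠ 0) (hX : k = 1 ∨ Quad X.hol) :
    List.TFAE [
      ∀ A : SL(2, ℝ), Equi (X.push A).hol,
      ∀ A : SL(2, ℝ), Tendsto (fun R => dirSum (X.push A).hol f R /
        N (X.push A).hol R) atTop (𝓝 (Real.circleAverage f 0 1)),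
      ∃ (l : ℝ) (U : Set SL(2, ℝ)), IsOpen U ∧ U.Nonempty ∧ ∀ A ∈ U,
        Tendsto (fun R => dirSum (X.push A).hol f R / N (X.push A).hol R) atTop (𝓝 l)] := by
  have ha1 : Summable fun n => ‖a n‖ := by
    refine Summable.of_nonneg_of_le (fun n => norm_nonneg _) (fun n => ?_) ha
    have : 1 ≤ r ^ n := one_le_pow₀ hr.le
    nlinarith [norm_nonneg (a n)]
  tfae_have 1 → 2 := by
    intro h A
    -- a continuous function with the same values on the circle
    obtain ⟨g, hg⟩ : ∃ g : ℂ → ℝ,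
        g = fun z => (∑' n, a n * (z / ((max 1 ‖z‖ : ℝ) : ℂ)) ^ n).re := ⟨_, rfl⟩
    have hgc : Continuous g := by
      rw [hg]
      refine Complex.continuous_re.comp ?_
      have hd : Continuous fun z : ℂ => z / ((max 1 ‖z‖ : ℝ) : ℂ) := by
        refine continuous_id.div (Complex.continuous_ofReal.comp
          (continuous_const.max continuous_norm)) fun z => ?_
        have : (0 : ℝ) < max 1 ‖z‖ := lt_max_of_lt_left one_pos
        exact_mod_cast this.ne'
      refine continuous_tsum (fun n => continuous_const.mul (hd.pow n)) ha1 fun n z => ?_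
      rw [norm_mul, norm_pow, norm_div, Complex.norm_real, Real.norm_eq_abs]
      have h1 : (0 : ℝ) < max 1 ‖z‖ := lt_max_of_lt_left one_pos
      rw [abs_of_pos h1]
      have h2 : ‖z‖ / max 1 ‖z‖ ≤ 1 := by
        rw [div_le_one h1]
        exact le_max_right _ _
      have h3 : (‖z‖ / max 1 ‖z‖) ^ n ≤ 1 := pow_le_one₀ (by positivity) h2
      exact mul_le_of_le_one_right (norm_nonneg _) h3
    have hfg : ∀ u : ℂ, ‖u‖ = 1 → f u = g u := by
      intro u hu
      rw [hfa u hu, hg]
      simp [hu]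
    have h1 := h A g hgc
    have h2 : Real.circleAverage f 0 1 = Real.circleAverage g 0 1 := by
      apply Real.circleAverage_congr_sphere
      intro z hz
      exact hfg z (by simpa using hz)
    rw [h2]
    refine h1.congr fun R => ?_
    rw [dirSum_congr_circle (X.push A).locFin hfg]
  tfae_have 2 → 3 := fun h => ⟨_, Set.univ, isOpen_univ, ⟨1, trivial⟩, fun A _ => h A⟩
  tfae_have 3 → 1 := by
    rintro ⟨l, U, hU, hne, hl⟩
    refine ((main_one_harm X hk hX).out 2 0 :).1 ⟨0, U, hU, hne, fun A hA => ?_⟩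
    have hl' : ∀ A ∈ U, Tendsto (fun R => dirSum (fun s => act A (X.hol s)) f R /
        N (fun s => act A (X.hol s)) R) atTop (𝓝 l) := by
      intro A hA
      have h1 := hl A hA
      rwa [N_push, dirSum_push] at h1
    rw [N_push, dirSum_push]
    exact harm_zero' X.locFin hr ha hfa (by omega) hc hU hl' hA
  tfae_finish

end SAD
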