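import Pool.Agent.Lib.SAD.Defs

/-!
# Translation surfaces from glued triangles, saddle connections, the action of `SL(2, ℝ)`

A translation surface with nonempty singular set is given by a geodesic triangulation whose
vertices are the singularities: finitely many nondegenerate positively oriented triangles,
whose sides are glued in pairs by translations.
-/

open Filter Topology MeasureTheory Set
open scoped MatrixGroups

namespace SAD

/-- A triangulated translation surface.  `side (t, i)` is the vector of the `i`-th side of the
triangle `t`; the sides `0, 1, 2` are listed counterclockwise. `glue` is the gluing of the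
sides; glued sides have opposite side vectors, so that the gluing maps are translations. -/
structure TransSurf where
  /-- the triangles -/
  T : Type
  finite : Finite T
  nonempty : Nonempty T
  /-- the side vectors -/
  side : T × ZMod 3 → ℂ
  closed : ∀ t, side (t, 0) + side (t, 1) + side (t, 2) = 0
  ccw : ∀ t, 0 < cross (side (t, 0)) (side (t, 1))
  /-- the gluing of the sides -/
  glue : T × ZMod 3 → T × ZMod 3
  glue_glue : ∀ e, glue (glue e) = e
  side_glue : ∀ e, side (glue e) = -side e
  connected : ∀ S : Set T, S.Nonempty → (∀ e : T × ZMod 3, e.1 ∈ S → (glue e).1 ∈ S) → S = univ

namespace TransSurf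

/-- The next side (counterclockwise) of the same triangle. -/
def next {T : Type} (e : T × ZMod 3) : T × ZMod 3 := (e.1, e.2 + 1)

/-- The previous side of the same triangle. -/
def prev {T : Type} (e : T × ZMod 3) : T × ZMod 3 := (e.1, e.2 + 2)

/-- A saddle connection which crosses the open sides `e 0, …, e k` of the triangulation, in this
order.  Develop the triangles met by it into the plane, with the starting point at `0`.
The side `e j` is listed as a side of the triangle that the segment leaves there; in the
development it runs from `pos j` (to the right of the segment) to `pos j + side (e j)` (to the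
left of the segment).  `v` is the end point, i.e. the holonomy vector; it is the apex of
the last triangle. -/
structure Crossing (X : TransSurf) where
  k : ℕ
  e : Fin (k + 1) → X.T × ZMod 3
  pos : Fin (k + 1) → ℂ
  v : ℂ
  /-- the segment starts at the vertex opposite to the side `e 0` -/
  start : pos 0 = X.side (prev (e 0))
  /-- having crossed `e j`, the segment leaves the next triangle through one of the two other
  sides -/
  step : ∀ j : Fin k,
    (e j.succ = next (X.glue (e j.castSucc)) ∧ pos j.succ = pos j.castSucc) ∨
    (e j.succ = prev (X.glue (e j.castSucc)) ∧
      pos j.succ = pos j.castSucc + X.side (next (X.glue (e j.castSucc))))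
  /-- having crossed `e k`, the segment ends at the vertex opposite to that side -/
  stop : v = pos (Fin.last k) + X.side (next (X.glue (e (Fin.last k))))
  /-- the straight segment from `0` to `v` passes between the end points of all these sides -/
  right : ∀ j, 0 < cross (pos j) v
  left : ∀ j, 0 < cross v (pos j + X.side (e j))

/-- The oriented saddle connections: the oriented edges of the triangulation (one for each side of
each triangle) and the segments that cross edges. -/
def Saddle (X : TransSurf) : Type := (X.T × ZMod 3) ⊕ Crossing X

/-- The holonomy vector of a saddle connection. -/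
def hol (X : TransSurf) : X.Saddle → ℂ := Sum.elim X.side Crossing.v

/-- The surface `A • X`: the matrix `A` is applied to all triangles. -/
def push (X : TransSurf) (A : SL(2, ℝ)) : TransSurf where
  T := X.T
  finite := X.finite
  nonempty := X.nonempty
  side e := act A (X.side e)
  closed t := by rw [← act_add, ← act_add, X.closed, act_zero]
  ccw t := by rw [cross_act]; exact X.ccw t
  glue := X.glue
  glue_glue := X.glue_glue
  side_glue e := by rw [X.side_glue, act_neg]
  connected := X.connected

/-- A path of crossed sides, indexed by natural numbers (used in the proofs only): the
sides `e 0, …, e n` with right end points `r 0, …, r n`. -/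
structure IsPath (X : TransSurf) (n : ℕ) (e : ℕ → X.T × ZMod 3) (r : ℕ → ℂ) : Prop where
  start : r 0 = X.side (prev (e 0))
  step : ∀ j < n,
    (e (j + 1) = next (X.glue (e j)) ∧ r (j + 1) = r j) ∨
    (e (j + 1) = prev (X.glue (e j)) ∧ r (j + 1) = r j + X.side (next (X.glue (e j))))

/-- The ray in direction `d` crosses the sides `e 0, …, e n` (developed at `r 0, …, r n`). -/
def Crosses (X : TransSurf) (n : ℕ) (e : ℕ → X.T × ZMod 3) (r : ℕ → ℂ) (d : ℂ) : Prop :=
  ∀ j ≤ n, 0 < cross (r j) d ∧ 0 < cross d (r j + X.side (e j))

/-- The ray `ℝ₊ d` crosses the side `e j` at the point `tau j * d`. -/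
noncomputable def tau (X : TransSurf) (e : ℕ → X.T × ZMod 3) (r : ℕ → ℂ) (d : ℂ) (j : ℕ) : ℝ :=
  cross (r j) (X.side (e j)) / cross d (X.side (e j))

end TransSurf

end SAD
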