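import Pool.Agent.Lib.SAD.Surface

/-!
# The action of `SL(2, ℝ)` on saddle connections, and reversal of saddle connections
-/

open Filter Topology MeasureTheory Set
open scoped MatrixGroups

namespace SAD

namespace TransSurf

/-! ### The action -/

lemma push_side (X : TransSurf) (A : SL(2, ℝ)) (e : X.T × ZMod 3) :
    (X.push A).side e = act A (X.side e) := rfl

/-- Apply `A` to a crossing. -/
def Crossing.map {X : TransSurf} (A : SL(2, ℝ)) (c : X.Crossing) : (X.push A).Crossing where
  k := c.k
  e := c.e
  pos j := act A (c.pos j)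
  v := act A c.v
  start := by
    show act A (c.pos 0) = act A (X.side (prev (c.e 0)))
    rw [c.start]
  step j := by
    rcases c.step j with ⟨h1, h2⟩ | ⟨h1, h2⟩
    · exact Or.inl ⟨h1, by rw [h2]⟩
    · refine Or.inr ⟨h1, ?_⟩
      show act A (c.pos j.succ) = act A (c.pos j.castSucc) +
        act A (X.side (next (X.glue (c.e j.castSucc))))
      rw [h2, act_add]
  stop := by
    show act A c.v = act A (c.pos (Fin.last c.k)) +
        act A (X.side (next (X.glue (c.e (Fin.last c.k)))))
    rw [← act_add, c.stop]
  right j := by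
    rw [cross_act]; exact c.right j
  left j := by
    show 0 < cross (act A c.v) (act A (c.pos j) + act A (X.side (c.e j)))
    rw [← act_add, cross_act]; exact c.left j

/-- Undo the application of `A`. -/
def Crossing.unmap {X : TransSurf} (A : SL(2, ℝ)) (c : (X.push A).Crossing) : X.Crossing where
  k := c.k
  e := c.e
  pos j := act A⁻¹ (c.pos j)
  v := act A⁻¹ c.v
  start := by
    have h : c.pos 0 = act A (X.side (prev (c.e 0))) := c.start
    rw [h, act_inv_act]
  step j := by
    rcases c.step j with ⟨h1, h2⟩ | ⟨h1, h2⟩
    · exact Or.inl ⟨h1, by rw [h2]⟩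
    · refine Or.inr ⟨h1, ?_⟩
      have h3 : c.pos j.succ = c.pos j.castSucc +
        act A (X.side (next (X.glue (c.e j.castSucc)))) := h2
      rw [h3, act_add, act_inv_act]
  stop := by
    have h3 : c.v = c.pos (Fin.last c.k) +
        act A (X.side (next (X.glue (c.e (Fin.last c.k))))) := c.stop
    rw [h3, act_add, act_inv_act]
  right j := by
    rw [cross_act]; exact c.right j
  left j := by
    have h : 0 < cross c.v (c.pos j + act A (X.side (c.e j))) := c.left j
    have h2 : act A⁻¹ (c.pos j) + X.side (c.e j) =
        act A⁻¹ (c.pos j + act A (X.side (c.e j))) := by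
      rw [act_add, act_inv_act]
    show 0 < cross (act A⁻¹ c.v) (act A⁻¹ (c.pos j) + X.side (c.e j))
    rw [h2, cross_act]; exact h

/-- The crossings of `A • X` are those of `X`. -/
def crossingEquiv (X : TransSurf) (A : SL(2, ℝ)) : (X.push A).Crossing ≃ X.Crossing where
  toFun := Crossing.unmap A
  invFun := Crossing.map A
  left_inv c := by
    cases c
    simp [Crossing.map, Crossing.unmap, act_act_inv]
  right_inv c := by
    cases c
    simp [Crossing.map, Crossing.unmap, act_inv_act]

/-- The saddle connections of `A • X` are those of `X`, with the holonomy vectors moved by `A`. -/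
theorem exists_equiv_push (X : TransSurf) (A : SL(2, ℝ)) :
    ∃ σ : (X.push A).Saddle ≃ X.Saddle, ∀ s, (X.push A).hol s = act A (X.hol (σ s)) := by
  refine ⟨Equiv.sumCongr (Equiv.refl _) (crossingEquiv X A), ?_⟩
  rintro (e | c)
  · rfl
  · show c.v = act A (act A⁻¹ c.v)
    rw [act_act_inv]

/-! ### Reversal -/

lemma next_prev {T : Type} (e : T × ZMod 3) : next (prev e) = e := by
  obtain ⟨t, i⟩ := e
  simp only [next, prev, Prod.mk.injEq, true_and]
  rw [add_assoc, show (2 + 1 : ZMod 3) = 0 from by decide, add_zero]

lemma prev_next {T : Type} (e : T × ZMod 3) : prev (next e) = e := by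
  obtain ⟨t, i⟩ := e
  simp only [next, prev, Prod.mk.injEq, true_and]
  rw [add_assoc, show (1 + 2 : ZMod 3) = 0 from by decide, add_zero]

lemma side_sum (X : TransSurf) (e : X.T × ZMod 3) :
    X.side e + X.side (next e) + X.side (prev e) = 0 := by
  obtain ⟨t, i⟩ := e
  have h := X.closed t
  simp only [next, prev]
  fin_cases i
  · show X.side (t, 0) + X.side (t, 0 + 1) + X.side (t, 0 + 2) = 0
    rw [zero_add, zero_add]
    exact h
  · show X.side (t, 1) + X.side (t, 1 + 1) + X.side (t, 1 + 2) = 0
    rw [show (1 + 1 : ZMod 3) = 2 from by decide, show (1 + 2 : ZMod 3) = 0 from by decide]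
    linear_combination h
  · show X.side (t, 2) + X.side (t, 2 + 1) + X.side (t, 2 + 2) = 0
    rw [show (2 + 1 : ZMod 3) = 0 from by decide, show (2 + 2 : ZMod 3) = 1 from by decide]
    linear_combination h

/-- The reversed crossing. -/
def Crossing.rev {X : TransSurf} (c : X.Crossing) : X.Crossing where
  k := c.k
  e j := X.glue (c.e j.rev)
  pos j := c.pos j.rev + X.side (c.e j.rev) - c.v
  v := -c.v
  start := by
    have h := c.stop
    have h2 := side_sum X (X.glue (c.e (Fin.last c.k)))
    have h3 := X.side_glue (c.e (Fin.last c.k))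
    simp only [Fin.rev_zero]
    linear_combination -h - h2 + h3
  step j := by
    have hr1 : (Fin.rev j.succ : Fin (c.k + 1)) = (Fin.rev j).castSucc := Fin.rev_succ j
    have hr2 : (Fin.rev j.castSucc : Fin (c.k + 1)) = (Fin.rev j).succ := Fin.rev_castSucc j
    rw [hr1, hr2]
    rcases c.step j.rev with ⟨h1, h2⟩ | ⟨h1, h2⟩
    · right
      rw [X.glue_glue, h1, prev_next]
      refine ⟨rfl, ?_⟩
      rw [h2]
      have h4 := side_sum X (next (X.glue (c.e j.rev.castSucc)))
      rw [prev_next] at h4
      have h3 := X.side_glue (c.e j.rev.castSucc)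
      linear_combination -h4 + h3
    · left
      rw [X.glue_glue, h1, next_prev]
      refine ⟨rfl, ?_⟩
      rw [h2]
      have h4 := side_sum X (X.glue (c.e j.rev.castSucc))
      have h3 := X.side_glue (c.e j.rev.castSucc)
      linear_combination -h4 + h3
  stop := by
    have h := c.start
    simp only [Fin.rev_last, X.glue_glue]
    have h2 := side_sum X (c.e 0)
    linear_combination -h - h2
  right j := by
    have h := c.left j.rev
    rw [cross_neg_right, cross_sub_left, cross_self, cross_swap]
    linarith
  left j := by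
    have h := c.right j.rev
    have h3 := X.side_glue (c.e j.rev)
    have h4 : c.pos j.rev + X.side (c.e j.rev) - c.v + X.side (X.glue (c.e j.rev)) =
        c.pos j.rev - c.v := by rw [h3]; ring
    rw [h4, cross_neg_left, cross_sub_right, cross_self, cross_swap]
    linarith

lemma Crossing.rev_rev {X : TransSurf} (c : X.Crossing) : c.rev.rev = c := by
  obtain ⟨k, e, pos, v, h1, h2, h3, h4, h5⟩ := c
  simp only [Crossing.rev, Fin.rev_rev, X.glue_glue, neg_neg, Crossing.mk.injEq, heq_eq_eq,
    true_and, and_true]
  funext j
  rw [X.side_glue]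
  ring

/-- Reversal of the orientation. -/
theorem exists_reverse (X : TransSurf) :
    ∃ σ : Equiv.Perm X.Saddle, ∀ s, X.hol (σ s) = -X.hol s := by
  have h1 : Function.Involutive X.glue := X.glue_glue
  have h2 : Function.Involutive (Crossing.rev (X := X)) := Crossing.rev_rev
  refine ⟨Equiv.sumCongr h1.toPerm h2.toPerm, ?_⟩
  rintro (e | c)
  · exact X.side_glue e
  · rfl

end TransSurf

end SAD
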