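import Pool.Agent.Lib.SAD.OneHarm

/-!
# One trigonometric polynomial on an open set suffices (MP_d36302_an)
-/

open Filter Topology MeasureTheory Set
open scoped MatrixGroups ComplexConjugate

namespace SAD

open TransSurf

variable {ι : Type*} {h : ι → ℂ}

namespace TrigPolyAux

open OneFunAux IsoMainAux AnyMainAux OneHarmAux

/-- A polynomial with the values `2 w ^ m Re Σ a n w ^ n` on the unit circle. -/
noncomputable def Q (m : ℕ) (a : ℕ → ℂ) : Polynomial ℂ :=
  ∑ n ∈ Finset.range (m + 1), (Polynomial.C (a n) * Polynomial.X ^ (m + n) +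
    Polynomial.C (conj (a n)) * Polynomial.X ^ (m - n))

theorem Q_degree (m : ℕ) (a : ℕ → ℂ) : (Q m a).degree < (2 * m + 1 : ℕ) := by
  unfold Q
  refine (Polynomial.degree_sum_le _ _).trans_lt ?_
  rw [Finset.sup_lt_iff (by exact WithBot.bot_lt_coe _)]
  intro n hn
  have hn' : n < m + 1 := Finset.mem_range.1 hn
  refine (Polynomial.degree_add_le _ _).trans_lt (max_lt ?_ ?_)
  · refine (Polynomial.degree_C_mul_X_pow_le _ _).trans_lt ?_
    exact_mod_cast (by omega : m + n < 2 * m + 1)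
  · refine (Polynomial.degree_C_mul_X_pow_le _ _).trans_lt ?_
    exact_mod_cast (by omega : m - n < 2 * m + 1)

theorem Q_coeff {m : ℕ} (a : ℕ → ℂ) {n : ℕ} (hn : 1 ≤ n) (hnm : n ≤ m) :
    (Q m a).coeff (m + n) = a n := by
  unfold Q
  rw [Polynomial.finsetSum_coeff, Finset.sum_eq_single n]
  · rw [Polynomial.coeff_add, Polynomial.coeff_C_mul_X_pow, Polynomial.coeff_C_mul_X_pow,
      if_pos rfl, if_neg (by omega), add_zero]
  · intro j hj hjn
    rw [Polynomial.coeff_add, Polynomial.coeff_C_mul_X_pow, Polynomial.coeff_C_mul_X_pow,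
      if_neg (by omega), if_neg (by omega), add_zero]
  · intro hn'
    exact absurd (Finset.mem_range.2 (by omega)) hn'

theorem Q_eval {m : ℕ} (a : ℕ → ℂ) {w : ℂ} (hw : ‖w‖ = 1) :
    (Q m a).eval w = w ^ m * ((2 * (∑ n ∈ Finset.range (m + 1), a n * w ^ n).re : ℝ) : ℂ) := by
  have hww : w * conj w = 1 := by
    rw [Complex.mul_conj, Complex.normSq_eq_norm_sq, hw]
    simp
  have h1 : ((2 * (∑ n ∈ Finset.range (m + 1), a n * w ^ n).re : ℝ) : ℂ) =
      ∑ n ∈ Finset.range (m + 1), (a n * w ^ n + conj (a n) * (conj w) ^ n) := by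
    rw [← Complex.add_conj, map_sum, ← Finset.sum_add_distrib]
    refine Finset.sum_congr rfl fun n _ => ?_
    rw [map_mul, map_pow]
  rw [h1, Finset.mul_sum]
  unfold Q
  rw [Polynomial.eval_finsetSum]
  refine Finset.sum_congr rfl fun n hn => ?_
  have hn' : n < m + 1 := Finset.mem_range.1 hn
  have e : w ^ m = w ^ (m - n) * w ^ n := by
    rw [← pow_add]
    congr 1
    omega
  have e2 : w ^ m * (conj w) ^ n = w ^ (m - n) := by
    rw [e, mul_assoc, ← mul_pow, hww, one_pow, mul_one]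
  simp only [Polynomial.eval_add, Polynomial.eval_mul, Polynomial.eval_C, Polynomial.eval_pow,
    Polynomial.eval_X]
  calc a n * w ^ (m + n) + conj (a n) * w ^ (m - n)
      = a n * w ^ (m + n) + conj (a n) * (w ^ m * (conj w) ^ n) := by rw [e2]
    _ = w ^ m * (a n * w ^ n + conj (a n) * (conj w) ^ n) := by
        rw [pow_add]
        ring

theorem inj_nodes {δ : ℝ} (hδ : 0 < δ) {m : ℕ} (hm : δ * (2 * m) < Real.pi) :
    Set.InjOn (fun j : ℕ => circleMap 0 1 (δ * j)) (Finset.range (2 * m + 1) : Set ℕ) := by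
  intro i hi j hj hij
  have hi' : i < 2 * m + 1 := by simpa using hi
  have hj' : j < 2 * m + 1 := by simpa using hj
  simp only [circleMap, zero_add, Complex.ofReal_one, one_mul] at hij
  rw [Complex.exp_eq_exp_iff_exists_int] at hij
  obtain ⟨n, hn⟩ := hij
  have h1 : δ * i = δ * j + n * (2 * Real.pi) := by
    have h2 : ((δ * i : ℝ) : ℂ) * Complex.I = ((δ * j + n * (2 * Real.pi) : ℝ) : ℂ) * Complex.I := by
      rw [hn]
      push_cast
      ring
    have h3 := mul_right_cancel₀ Complex.I_ne_zero h2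
    exact_mod_cast h3
  have hpi := Real.pi_pos
  have hib : δ * i ≤ δ * (2 * m) := by
    have : (i : ℝ) ≤ 2 * m := by exact_mod_cast (by omega : i ≤ 2 * m)
    gcongr
  have hjb : δ * j ≤ δ * (2 * m) := by
    have : (j : ℝ) ≤ 2 * m := by exact_mod_cast (by omega : j ≤ 2 * m)
    gcongr
  have hi0 : 0 ≤ δ * i := by positivity
  have hj0 : 0 ≤ δ * j := by positivity
  have hn0 : n = 0 := by
    by_contra hne
    rcases lt_or_gt_of_ne hne with h4 | h4
    · have : (n : ℝ) ≤ -1 := by exact_mod_cast (by omega : n ≤ -1)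
      nlinarith
    · have : (1 : ℝ) ≤ n := by exact_mod_cast (by omega : 1 ≤ n)
      nlinarith
  rw [hn0] at h1
  have h5 : δ * (i : ℝ) = δ * j := by
    rw [h1]
    simp
  have h6 := mul_left_cancel₀ hδ.ne' h5
  exact_mod_cast h6

/-- If the real parts of `Σ a n (R) w ^ n` have the same limit for all `w` in an arc around `1`,
then the coefficients `a n (R)`, `n ≥ 1`, tend to zero. -/
theorem coef_zero {m : ℕ} (a : ℕ → ℝ → ℂ) {ε : ℝ} (hε : 0 < ε) {l : ℝ}
    (hl : ∀ φ : ℝ, |φ| < ε → Tendsto (fun R =>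
      (∑ n ∈ Finset.range (m + 1), a n R * (circleMap 0 1 φ) ^ n).re) atTop (𝓝 l))
    {n : ℕ} (hn : 1 ≤ n) (hnm : n ≤ m) : Tendsto (a n) atTop (𝓝 0) := by
  have hm0 : (0 : ℝ) < m := by exact_mod_cast (by omega : 0 < m)
  have hpi := Real.pi_pos
  obtain ⟨δ, hδ0, hδε, hδπ⟩ : ∃ δ : ℝ, 0 < δ ∧ δ * (2 * m) < ε ∧ δ * (2 * m) < Real.pi := by
    refine ⟨min ε Real.pi / (4 * m), by positivity, ?_, ?_⟩
    · have h1 : min ε Real.pi ≤ ε := min_le_left _ _
      calc min ε Real.pi / (4 * m) * (2 * m) = min ε Real.pi / 2 := by field_simp; ring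
        _ < ε := by linarith
    · have h1 : min ε Real.pi ≤ Real.pi := min_le_right _ _
      calc min ε Real.pi / (4 * m) * (2 * m) = min ε Real.pi / 2 := by field_simp; ring
        _ < Real.pi := by linarith
  have hinj := inj_nodes hδ0 hδπ
  set v : ℕ → ℂ := fun j => circleMap 0 1 (δ * j) with hv
  set s := Finset.range (2 * m + 1) with hs
  have hcard : s.card = 2 * m + 1 := Finset.card_range _
  set c : ℕ → ℂ := fun j => (Lagrange.basis s v j).coeff (m + n) with hc
  have hco : ∀ p : Polynomial ℂ, p.degree < (2 * m + 1 : ℕ) →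
      p.coeff (m + n) = ∑ j ∈ s, p.eval (v j) * c j := by
    intro p hp
    have h1 := Lagrange.eq_interpolate (s := s) (v := v) (f := p) hinj (by rw [hcard]; exact hp)
    conv_lhs => rw [h1]
    rw [Lagrange.interpolate_apply, Polynomial.finsetSum_coeff]
    refine Finset.sum_congr rfl fun j _ => ?_
    rw [Polynomial.coeff_C_mul]
  have hmem : ∀ j ∈ s, |δ * (j : ℝ)| < ε := by
    intro j hj
    have hj' : j < 2 * m + 1 := Finset.mem_range.1 hj
    have : (j : ℝ) ≤ 2 * m := by exact_mod_cast (by omega : j ≤ 2 * m)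
    rw [abs_of_nonneg (by positivity)]
    calc δ * (j : ℝ) ≤ δ * (2 * m) := by gcongr
      _ < ε := hδε
  have hw : ∀ j : ℕ, ‖v j‖ = 1 := fun j => norm_cm _
  have hX : ∑ j ∈ s, (v j) ^ m * c j = 0 := by
    have h1 := hco (Polynomial.X ^ m) (by
      refine (Polynomial.degree_X_pow_le m).trans_lt ?_
      exact_mod_cast (by omega : m < 2 * m + 1))
    rw [Polynomial.coeff_X_pow, if_neg (by omega)] at h1
    rw [h1]
    refine Finset.sum_congr rfl fun j _ => ?_
    rw [Polynomial.eval_pow, Polynomial.eval_X]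
  have ha : ∀ R, a n R = ∑ j ∈ s, (v j) ^ m *
      ((2 * (∑ k ∈ Finset.range (m + 1), a k R * (v j) ^ k).re : ℝ) : ℂ) * c j := by
    intro R
    rw [← Q_coeff (fun k => a k R) hn hnm, hco _ (Q_degree m _)]
    refine Finset.sum_congr rfl fun j _ => ?_
    rw [Q_eval _ (hw j)]
  have hlim : Tendsto (fun R => ∑ j ∈ s, (v j) ^ m *
      ((2 * (∑ k ∈ Finset.range (m + 1), a k R * (v j) ^ k).re : ℝ) : ℂ) * c j) atTop
      (𝓝 (∑ j ∈ s, (v j) ^ m * ((2 * l : ℝ) : ℂ) * c j)) := by
    refine tendsto_finsetSum _ fun j hj => ?_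
    refine Tendsto.mul_const _ (Tendsto.const_mul _ ?_)
    exact (Complex.continuous_ofReal.tendsto _).comp ((hl _ (hmem j hj)).const_mul 2)
  have hz : ∑ j ∈ s, (v j) ^ m * ((2 * l : ℝ) : ℂ) * c j = 0 := by
    have : ∑ j ∈ s, (v j) ^ m * ((2 * l : ℝ) : ℂ) * c j =
        ((2 * l : ℝ) : ℂ) * ∑ j ∈ s, (v j) ^ m * c j := by
      rw [Finset.mul_sum]
      refine Finset.sum_congr rfl fun j _ => ?_
      ring
    rw [this, hX, mul_zero]
  rw [hz] at hlim
  exact hlim.congr fun R => (ha R).symm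

/-- The mean of `u ^ n` over the directions. -/
noncomputable def cs (h : ι → ℂ) (n : ℕ) (R : ℝ) : ℂ :=
  (∑ᶠ i ∈ {i | ‖h i‖ ≤ R}, (h i / (‖h i‖ : ℂ)) ^ n) / (N h R : ℂ)

theorem cs_re (hf : LocFin h) (n : ℕ) (R : ℝ) :
    dirSum h (fun u => (u ^ n).re) R / N h R = (cs h n R).re := by
  have hfin := hf.2 R
  unfold cs dirSum
  rw [finsum_mem_eq_finite_toFinset_sum _ hfin, finsum_mem_eq_finite_toFinset_sum _ hfin,
    Complex.div_ofReal_re, Complex.re_sum]

theorem mean_re (hf : LocFin h) (P : Polynomial ℂ) (w : ℂ) (R : ℝ) :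
    dirSum h (fun u => (P.eval (w * u)).re) R / N h R =
      (∑ n ∈ Finset.range (P.natDegree + 1), P.coeff n * cs h n R * w ^ n).re := by
  have hfin := hf.2 R
  have e : ∑ n ∈ Finset.range (P.natDegree + 1), P.coeff n * cs h n R * w ^ n =
      (∑ i ∈ hfin.toFinset, P.eval (w * (h i / (‖h i‖ : ℂ)))) / (N h R : ℂ) := by
    have hcs : ∀ n : ℕ, cs h n R =
        (∑ i ∈ hfin.toFinset, (h i / (‖h i‖ : ℂ)) ^ n) / (N h R : ℂ) := fun n => by
      unfold cs
      rw [finsum_mem_eq_finite_toFinset_sum _ hfin]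
    simp_rw [hcs, Polynomial.eval_eq_sum_range]
    rw [Finset.sum_comm, Finset.sum_div]
    refine Finset.sum_congr rfl fun n _ => ?_
    rw [← mul_div_assoc, Finset.mul_sum, div_mul_eq_mul_div, Finset.sum_mul]
    congr 1
    refine Finset.sum_congr rfl fun i _ => ?_
    rw [mul_pow]
    ring
  rw [e, Complex.div_ofReal_re, Complex.re_sum]
  unfold dirSum
  rw [finsum_mem_eq_finite_toFinset_sum _ hfin]

/-- One trigonometric polynomial with a common limit on an open set: its harmonics vanish. -/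
theorem harm_zero (hf : LocFin h) (P : Polynomial ℂ) {n : ℕ} (hn : 1 ≤ n) (hc : P.coeff n ≠ 0)
    {U : Set SL(2, ℝ)} (hU : IsOpen U) {l : ℝ}
    (hl : ∀ A ∈ U, Tendsto (fun R => dirSum (fun i => act A (h i)) (fun u => (P.eval u).re) R /
      N (fun i => act A (h i)) R) atTop (𝓝 l)) {A : SL(2, ℝ)} (hA : A ∈ U) :
    Tendsto (fun R => dirSum (fun i => act A (h i)) (fun u => (u ^ n).re) R /
      N (fun i => act A (h i)) R) atTop (𝓝 0) := by
  have hfA := hf.act A
  have hcc : Continuous fun φ : ℝ => ro φ * A := continuous_ro.mul continuous_const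
  have h0 : (0 : ℝ) ∈ (fun φ : ℝ => ro φ * A) ⁻¹' U := by
    show ro 0 * A ∈ U
    rw [ro_zero, one_mul]
    exact hA
  obtain ⟨ε, hε, hball⟩ := Metric.isOpen_iff.1 (hU.preimage hcc) 0 h0
  have hmem : ∀ ψ : ℝ, |ψ| < ε → ro ψ * A ∈ U := fun ψ hψ => hball (by
    rw [Metric.mem_ball, Real.dist_eq, sub_zero]
    exact hψ)
  have h1 : Tendsto (fun R => P.coeff n * cs (fun i => act A (h i)) n R) atTop (𝓝 0) := by
    refine coef_zero (m := P.natDegree)
      (fun j R => P.coeff j * cs (fun i => act A (h i)) j R) hε (l := l) (fun φ hφ => ?_) hn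
      (Polynomial.le_natDegree_of_ne_zero hc)
    refine (hl _ (hmem φ hφ)).congr fun R => ?_
    rw [dirSum_rot (norm_cm φ) (act_ro φ), N_rot (norm_cm φ) (act_ro φ), mean_re hfA]
  have h2 : Tendsto (fun R => cs (fun i => act A (h i)) n R) atTop (𝓝 0) := by
    have h3 := h1.const_mul (P.coeff n)⁻¹
    rw [mul_zero] at h3
    refine h3.congr fun R => ?_
    rw [← mul_assoc, inv_mul_cancel₀ hc, one_mul]
  have h4 := (Complex.continuous_re.tendsto _).comp h2
  rw [Complex.zero_re] at h4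
  refine h4.congr fun R => ?_
  rw [cs_re hfA]
  rfl

end TrigPolyAux

open TrigPolyAux OneHarmAux OneFunAux IsoMainAux AnyMainAux

/-- One trigonometric polynomial, with a common limit on a nonempty open set of matrices. -/
theorem main_trig (X : TransSurf) (P : Polynomial ℂ) {k : ℕ} (hk : 1 ≤ k)
    (hc : P.coeff (2 * k) ≠ 0) (hX : k = 1 ∨ Quad X.hol) :
    List.TFAE [
      ∀ A : SL(2, ℝ), Equi (X.push A).hol,
      ∀ A : SL(2, ℝ), Tendsto (fun R => dirSum (X.push A).hol (fun u => (P.eval u).re) R /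
        N (X.push A).hol R) atTop (𝓝 (Real.circleAverage (fun u => (P.eval u).re) 0 1)),
      ∃ (l : ℝ) (U : Set SL(2, ℝ)), IsOpen U ∧ U.Nonempty ∧ ∀ A ∈ U,
        Tendsto (fun R => dirSum (X.push A).hol (fun u => (P.eval u).re) R /
          N (X.push A).hol R) atTop (𝓝 l)] := by
  tfae_have 1 → 2 := fun h A => h A (fun u => (P.eval u).re)
    (Complex.continuous_re.comp P.continuous)
  tfae_have 2 → 3 := fun h => ⟨_, Set.univ, isOpen_univ, ⟨1, trivial⟩, fun A _ => h A⟩
  tfae_have 3 → 1 := by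
    rintro ⟨l, U, hU, hne, hl⟩
    refine ((main_one_harm X hk hX).out 2 0 :).1 ⟨0, U, hU, hne, fun A hA => ?_⟩
    have hl' : ∀ A ∈ U, Tendsto (fun R => dirSum (fun s => act A (X.hol s))
        (fun u => (P.eval u).re) R / N (fun s => act A (X.hol s)) R) atTop (𝓝 l) := by
      intro A hA
      have h1 := hl A hA
      rwa [N_push, dirSum_push] at h1
    rw [N_push, dirSum_push]
    exact harm_zero X.locFin P (by omega) hc hU hl' hA
  tfae_finish

end SAD
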